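import Pool.Agent.Lib.MP_33f9c4_lc.Loop
import Pool.Agent.Lib.PolyTime.BinNat

/-!
# Polynomial time in an exponentially long unary counter
-/

namespace Pool.Agent.Lib.MP_33f9c4_lc.Qt

open Pool.Agent.Lib.PolyTime Function

set_option synthInstance.maxSize 2000

/-- One doubling. -/
def dbl (s : List Bool × (ℕ × ℕ)) : List Bool × (ℕ × ℕ) := (s.1, (s.2.1 - 1, s.2.2 + s.2.2))

theorem pt_dbl : PT dbl := by
  have hid : PT (fun s : List Bool × (ℕ × ℕ) => s) := PT.id
  exact hid.fst'.pair ((PT.pred hid.snd'.fst').pair (PT.add hid.snd'.snd' hid.snd'.snd'))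

theorem dbl_iter (x : List Bool) (j i : ℕ) :
    dbl^[i] (x, (j, 1)) = (x, (j - i, 2 ^ i)) := by
  induction i with
  | zero => rfl
  | succ i ih =>
    rw [iterate_succ_apply', ih]
    unfold dbl
    rw [pow_succ]
    simp only [Prod.mk.injEq, true_and]
    omega

/-- Functions computable in time polynomial in the length of the input and a power of two. -/
theorem exists_pad_machine {e : List Bool → ℕ} {F : List Bool × ℕ → List Bool} (he : PT e)
    (hF : PT F) : ∃ (M : Machine) (Q : Polynomial ℕ), ∀ x : List Bool,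
      Outputs M x (F (x, 2 ^ e x)) (Q.eval (x.length + 2 ^ e x)) := by
  have hid : PT (fun s : List Bool × (ℕ × ℕ) => s) := PT.id
  obtain ⟨T, hT⟩ := exists_loop (g := dbl) (fin := fun s => decide (s.2.1 = 0))
    (out := fun s => F (s.1, s.2.2)) pt_dbl ((PT.eqConst 0).comp hid.snd'.fst')
    (hF.comp (hid.fst'.pair hid.snd'.snd'))
  obtain ⟨U, T0, hU, -⟩ := hT (fun x => (x, (e x, 1)))
    (PT.id.pair (he.pair (PT.const 1)))
  have hPB : PB (fun z => T0.eval z + (z + 1) * T.eval (4 * z + 1 + (2 * z + 1 + (2 * z + 1) + 1) + 1)) :=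
    (PB.poly T0).add ((PB.id.add (PB.const 1)).mul (PB.comp T
      (((((PB.const 4).mul PB.id).add (PB.const 1)).add
        (((((PB.const 2).mul PB.id).add (PB.const 1)).add
          (((PB.const 2).mul PB.id).add (PB.const 1))).add (PB.const 1))).add (PB.const 1))))
  obtain ⟨Q, hQ⟩ := hPB
  refine ⟨U, Q, fun x => ?_⟩
  have h1 := hU x (e x) (by rw [dbl_iter]; simp) (fun i hi => by
    rw [dbl_iter]
    simp only [decide_eq_false_iff_not]
    omega)
  rw [dbl_iter] at h1
  obtain ⟨h2⟩ := h1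
  refine ⟨{ steps := h2.steps, evals_in_steps := h2.evals_in_steps,
            steps_le_m := h2.steps_le_m.trans (le_trans ?_ (hQ _)) }⟩
  set z := x.length + 2 ^ e x with hz
  have hee : e x < 2 ^ e x := Nat.lt_two_pow_self
  refine Nat.add_le_add (eval_mono T0 (by omega)) ?_
  calc ∑ i ∈ Finset.range (e x + 1), T.eval (size (dbl^[i] (x, (e x, 1))))
      ≤ ∑ i ∈ Finset.range (e x + 1), T.eval (4 * z + 1 + (2 * z + 1 + (2 * z + 1) + 1) + 1) := by
        refine Finset.sum_le_sum fun i hi => eval_mono T ?_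
        have hi' : i ≤ e x := Nat.lt_succ_iff.1 (Finset.mem_range.1 hi)
        have hp : 2 ^ i ≤ 2 ^ e x := Nat.pow_le_pow_right (by norm_num) hi'
        have h3 := size_bools_le x
        have h4 : size ((x, (e x - i, 2 ^ i)) : List Bool × (ℕ × ℕ)) =
            size x + (2 * (e x - i) + 1 + (2 * 2 ^ i + 1) + 1) + 1 := by
          rw [size_prod, size_prod]
          simp only [size_nat]
        rw [dbl_iter, h4]
        omega
    _ = (e x + 1) * T.eval (4 * z + 1 + (2 * z + 1 + (2 * z + 1) + 1) + 1) := by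
        rw [Finset.sum_const, Finset.card_range, smul_eq_mul]
    _ ≤ (z + 1) * T.eval (4 * z + 1 + (2 * z + 1 + (2 * z + 1) + 1) + 1) :=
        Nat.mul_le_mul_right _ (by omega)

end Pool.Agent.Lib.MP_33f9c4_lc.Qt
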