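import Pool.Agent.Lib.MP_33f9c4_lc.QDefs

/-!
# The algorithm with advice: dependence on the queries, polynomial time
-/

set_option autoImplicit false

namespace Pool.Agent.Lib.MP_33f9c4_lc.Qt

open Pool.Agent.Lib.PolyTime Function

set_option synthInstance.maxSize 2000

/-! ### Congruence -/

theorem pls_congr {O O' : List Bool → Bool} {T : Tm} {y : List Bool}
    (h1 : O (fillT T y true) = O' (fillT T y true))
    (h2 : O (fillT T y false) = O' (fillT T y false)) : pls O T y = pls O' T y := by
  simp only [pls, h1, h2]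

theorem mns_congr {O O' : List Bool → Bool} {T : Tm} {y : List Bool}
    (h1 : O (fillT T y true) = O' (fillT T y true))
    (h2 : O (fillT T y false) = O' (fillT T y false)) : mns O T y = mns O' T y := by
  simp only [mns, h1, h2]

theorem vote_congr {O O' : List Bool → Bool} {ts : List Tm} {y : List Bool}
    (h : ∀ T ∈ ts, O (fillT T y true) = O' (fillT T y true) ∧
      O (fillT T y false) = O' (fillT T y false)) : vote O ts y = vote O' ts y := by
  have e1 : ts.filter (fun T => pls O T y) = ts.filter (fun T => pls O' T y) :=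
    List.filter_congr (fun T hT => pls_congr (h T hT).1 (h T hT).2)
  have e2 : ts.filter (fun T => mns O T y) = ts.filter (fun T => mns O' T y) :=
    List.filter_congr (fun T hT => mns_congr (h T hT).1 (h T hT).2)
  rw [vote, vote, e1, e2]

theorem contrib_congr {O O' : List Bool → Bool} {ts : List Tm} {z : List Bool} {row : Row}
    (h : ∀ c ∈ row.2, ∀ T ∈ ts,
      O (fillT T (point row.1 z ++ c.1) true) = O' (fillT T (point row.1 z ++ c.1) true) ∧
      O (fillT T (point row.1 z ++ c.1) false) = O' (fillT T (point row.1 z ++ c.1) false)) :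
    contrib O ts z row = contrib O' ts z row := by
  have e : row.2.filter (fun c => vote O ts (point row.1 z ++ c.1)) =
      row.2.filter (fun c => vote O' ts (point row.1 z ++ c.1)) :=
    List.filter_congr (fun c hc => vote_congr (h c hc))
  rw [contrib, contrib, e]

theorem foldl_congr' {β σ : Type} {l : List β} {f g : σ → β → σ}
    (h : ∀ b ∈ l, ∀ s, f s b = g s b) : ∀ s, l.foldl f s = l.foldl g s := by
  induction l with
  | nil => intro s; rfl
  | cons b l ih =>
    intro s
    rw [List.foldl_cons, List.foldl_cons, h b List.mem_cons_self s]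
    exact ih (fun b' hb' => h b' (List.mem_cons_of_mem _ hb')) _

theorem decS_congr {O O' : List Bool → Bool} {ts : List Tm} {p : ℕ} {z : List Bool}
    {rows : List Row} (h : ∀ row ∈ rows, contrib O ts z row = contrib O' ts z row) :
    decS O ts p z rows = decS O' ts p z rows := by
  rw [decS, decS, foldl_congr' (fun row hrow s => by rw [h row hrow])]

theorem alg_congr {O O' : List Bool → Bool} {adv : Adv} {z : List Bool}
    (h : ∀ x ∈ qs adv z, O x = O' x) : alg O adv z = alg O' adv z := by
  have e : adv.2.2.filter (fun rows => decS O adv.1 adv.2.1 z rows) =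
      adv.2.2.filter (fun rows => decS O' adv.1 adv.2.1 z rows) := by
    refine List.filter_congr (fun rows hrows => decS_congr (fun row hrow => contrib_congr ?_))
    intro c hc T hT
    have hmem : ∀ x ∈ [fillT T (point row.1 z ++ c.1) true, fillT T (point row.1 z ++ c.1) false],
        x ∈ qs adv z := by
      intro x hx
      rw [qs, List.mem_flatMap]
      refine ⟨rows, hrows, ?_⟩
      rw [List.mem_flatMap]
      refine ⟨row, hrow, ?_⟩
      rw [List.mem_flatMap]
      refine ⟨c, hc, ?_⟩
      rw [List.mem_flatMap]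
      exact ⟨T, hT, hx⟩
    exact ⟨h _ (hmem _ (by simp)), h _ (hmem _ (by simp))⟩
  rw [alg, alg, e]

/-! ### Polynomial time -/

section

variable {α : Type} [Enc α]

theorem pt_mem {f : α → List Bool} {Q : α → List (List Bool)} (hf : PT f) (hQ : PT Q) :
    PT (fun a => decide (f a ∈ Q a)) := by
  refine (PT.any (f := Q) (p := fun a q => decide (q = f a)) hQ
    (PT.eq PT.snd (hf.comp PT.fst))).congr (fun a => ?_)
  rw [Bool.eq_iff_iff]
  simp

theorem pt_fillT {T : α → Tm} {y : α → List Bool} {c : α → Bool} (hT : PT T) (hy : PT y)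
    (hc : PT c) : PT (fun a => fillT (T a) (y a) (c a)) :=
  PT.append hT.snd'.fst' (PT.append hy (PT.append hT.snd'.snd'.fst'
    (PT.cons hc hT.snd'.snd'.snd')))

theorem pt_pls {Q : α → List (List Bool)} {T : α → Tm} {y : α → List Bool} (hQ : PT Q)
    (hT : PT T) (hy : PT y) :
    PT (fun a => pls (fun x => decide (x ∈ Q a)) (T a) (y a)) := by
  have h1 : PT (fun a => decide (fillT (T a) (y a) true ∈ Q a)) :=
    pt_mem (pt_fillT hT hy (PT.const true)) hQ
  have h0 : PT (fun a => decide (fillT (T a) (y a) false ∈ Q a)) :=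
    pt_mem (pt_fillT hT hy (PT.const false)) hQ
  exact PT.or (PT.and hT.fst' (PT.and h1 h0.not)) (PT.and hT.fst'.not (PT.and h1.not h0))

theorem pt_mns {Q : α → List (List Bool)} {T : α → Tm} {y : α → List Bool} (hQ : PT Q)
    (hT : PT T) (hy : PT y) :
    PT (fun a => mns (fun x => decide (x ∈ Q a)) (T a) (y a)) := by
  have h1 : PT (fun a => decide (fillT (T a) (y a) true ∈ Q a)) :=
    pt_mem (pt_fillT hT hy (PT.const true)) hQ
  have h0 : PT (fun a => decide (fillT (T a) (y a) false ∈ Q a)) :=
    pt_mem (pt_fillT hT hy (PT.const false)) hQ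
  exact PT.or (PT.and hT.fst' (PT.and h1.not h0)) (PT.and hT.fst'.not (PT.and h1 h0.not))

theorem pt_vote {Q : α → List (List Bool)} {ts : α → List Tm} {y : α → List Bool} (hQ : PT Q)
    (hts : PT ts) (hy : PT y) :
    PT (fun a => vote (fun x => decide (x ∈ Q a)) (ts a) (y a)) := by
  have h1 : PT (fun a => (ts a).filter (fun T => pls (fun x => decide (x ∈ Q a)) T (y a))) :=
    PT.filter (p := fun a T => pls (fun x => decide (x ∈ Q a)) T (y a)) hts
      (pt_pls (hQ.comp PT.fst) PT.snd (hy.comp PT.fst))
  have h2 : PT (fun a => (ts a).filter (fun T => mns (fun x => decide (x ∈ Q a)) T (y a))) :=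
    PT.filter (p := fun a T => mns (fun x => decide (x ∈ Q a)) T (y a)) hts
      (pt_mns (hQ.comp PT.fst) PT.snd (hy.comp PT.fst))
  exact PT.lt h1.length h2.length

theorem pt_point {bl : α → List (List Bool × List Bool)} {z : α → List Bool} (hbl : PT bl)
    (hz : PT z) : PT (fun a => point (bl a) (z a)) := by
  have h := PT.foldl_add (f := z) (init := fun a => (bl a, ([] : List Bool)))
    (step := fun _ (st : List (List Bool × List Bool) × List Bool) (c : Bool) =>
      (st.1.tail, st.2 ++ if c = true then (st.1.getD 0 ([], [])).2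
        else (st.1.getD 0 ([], [])).1)) hz (hbl.pair (PT.const [])) (by
      refine PT.pair PT.snd.fst'.fst'.tail (PT.append PT.snd.fst'.snd' ?_)
      refine PT.cond (c := fun x : α × ((List (List Bool × List Bool) × List Bool) × Bool) =>
        x.2.2) PT.snd.snd' ?_ ?_
      · exact (PT.getD PT.snd.fst'.fst' 0 ([], [])).snd'
      · exact (PT.getD PT.snd.fst'.fst' 0 ([], [])).fst')
    (C := fun _ => 0) (PB.const 0) (by
      rintro a ⟨l, w⟩ c _
      have hs : size ([] : List Bool) = 1 := size_nil
      cases l with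
      | nil =>
        have h1 := size_append w []
        cases c <;> simp [size_prod]
      | cons x l =>
        obtain ⟨u, v⟩ := x
        have h1 := size_append w u
        have h2 := size_append w v
        simp only [size_prod, size_cons, List.tail_cons, List.getD_cons_zero]
        cases c
        · simp only [Bool.false_eq_true, if_false]
          have := size_pos v
          omega
        · simp only [if_true]
          have := size_pos u
          omega)
  exact h.snd'

theorem pt_contrib {Q : α → List (List Bool)} {ts : α → List Tm} {z : α → List Bool}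
    {row : α → Row} (hQ : PT Q) (hts : PT ts) (hz : PT z) (hrow : PT row) :
    PT (fun a => contrib (fun x => decide (x ∈ Q a)) (ts a) (z a) (row a)) := by
  have hpt : PT (fun a => point (row a).1 (z a)) := pt_point hrow.fst' hz
  have hy : PT (fun x : α × (List Bool × ℕ) => point (row x.1).1 (z x.1) ++ x.2.1) :=
    PT.append (hpt.comp PT.fst) PT.snd.fst'
  have hv : PT (fun x : α × (List Bool × ℕ) =>
      vote (fun y => decide (y ∈ Q x.1)) (ts x.1) (point (row x.1).1 (z x.1) ++ x.2.1)) :=
    pt_vote (Q := fun x : α × (List Bool × ℕ) => Q x.1) (hQ.comp PT.fst) (hts.comp PT.fst) hy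
  have hr2 : PT (fun a => (row a).2) := hrow.snd'
  have h1 : PT (fun a => (row a).2.filter
      (fun c => vote (fun x => decide (x ∈ Q a)) (ts a) (point (row a).1 (z a) ++ c.1))) :=
    PT.filter (f := fun a => (row a).2)
      (p := fun (a : α) (c : List Bool × ℕ) => vote (fun x => decide (x ∈ Q a)) (ts a)
      (point (row a).1 (z a) ++ c.1)) hr2 hv
  have h2 := PT.getD h1 0 ([], 0)
  exact h2.snd'

theorem pt_addm {p s b : α → ℕ} (hp : PT p) (hs : PT s) (hb : PT b) :
    PT (fun a => addm (p a) (s a) (b a)) :=
  PT.ite (c := fun a => p a ≤ s a + b a) (PT.le hp (PT.add hs hb)) (PT.sub (PT.add hs hb) hp)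
    (PT.add hs hb)

/-- A fold of additions modulo `p` of polynomial-time contributions. -/
theorem pt_foldl_addm {rows : α → List Row} {p : α → ℕ} {g : α → Row → ℕ}
    (hrows : PT rows) (hp : PT p) (hg : PT (fun x : α × Row => g x.1 x.2)) :
    PT (fun a => (rows a).foldl (fun s row => addm (p a) s (g a row)) 0) := by
  obtain ⟨q, hq⟩ := hg.size_le
  obtain ⟨r, hr⟩ := hrows.size_le
  have hstep : PT (fun x : α × (ℕ × Row) => addm (p x.1) x.2.1 (g x.1 x.2.2)) :=
    pt_addm (hp.comp PT.fst) PT.snd.fst' (hg.comp (PT.fst.pair PT.snd.snd'))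
  refine PT.foldl_add (f := rows) (init := fun _ => (0 : ℕ))
    (step := fun a s row => addm (p a) s (g a row)) hrows (PT.const 0) hstep
    (C := fun n => q.eval (n + r.eval n + 1))
    (PB.comp q ((PB.id.add (PB.poly r)).add (PB.const 1))) ?_
  intro a s row hrow
  have h1 := size_mem_lt hrow
  have h2 := hr a
  have h3 : size (g a row) ≤ q.eval (size (a, row)) := hq (a, row)
  have h4 : size (a, row) ≤ size a + r.eval (size a) + 1 := by
    have h4' : size (a, row) = size a + size row + 1 := size_prod _
    omega
  have h5 := eval_mono q h4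
  have h6 : addm (p a) s (g a row) ≤ s + g a row := by
    unfold addm
    split_ifs <;> omega
  have h7 : size (addm (p a) s (g a row)) = 2 * addm (p a) s (g a row) + 1 := size_nat _
  have h8 : size s = 2 * s + 1 := size_nat _
  have h9 : size (g a row) = 2 * g a row + 1 := size_nat _
  generalize addm (p a) s (g a row) = u at h6 h7 ⊢
  generalize g a row = v at h3 h6 h9
  rw [h7, h8]
  omega

theorem pt_decS {Q : α → List (List Bool)} {ts : α → List Tm} {p : α → ℕ} {z : α → List Bool}
    {rows : α → List Row} (hQ : PT Q) (hts : PT ts) (hp : PT p) (hz : PT z) (hrows : PT rows) :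
    PT (fun a => decS (fun x => decide (x ∈ Q a)) (ts a) (p a) (z a) (rows a)) := by
  have hc : PT (fun x : α × Row => contrib (fun y => decide (y ∈ Q x.1)) (ts x.1) (z x.1) x.2) :=
    pt_contrib (hQ.comp PT.fst) (hts.comp PT.fst) (hz.comp PT.fst) PT.snd
  have h := pt_foldl_addm
    (g := fun a row => contrib (fun y => decide (y ∈ Q a)) (ts a) (z a) row) hrows hp hc
  exact (PT.eqConst 1).comp h

end

theorem pt_qs : PT (fun x : Adv × List Bool => qs x.1 x.2) := by
  refine PT.flatMap (f := fun x : Adv × List Bool => x.1.2.2) PT.fst.snd'.snd' ?_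
  refine PT.flatMap (f := fun x : (Adv × List Bool) × List Row => x.2) PT.snd ?_
  refine PT.flatMap (f := fun x : ((Adv × List Bool) × List Row) × Row => x.2.2) PT.snd.snd' ?_
  refine PT.flatMap (f := fun x : (((Adv × List Bool) × List Row) × Row) × (List Bool × ℕ) =>
    x.1.1.1.1.1) PT.fst.fst'.fst'.fst'.fst' ?_
  have hy : PT (fun x : ((((Adv × List Bool) × List Row) × Row) × (List Bool × ℕ)) × Tm =>
      point x.1.1.2.1 x.1.1.1.1.2 ++ x.1.2.1) :=
    PT.append (pt_point PT.fst.fst'.snd'.fst' PT.fst.fst'.fst'.fst'.snd') PT.fst.snd'.fst'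
  exact PT.cons (pt_fillT PT.snd hy (PT.const true))
    (PT.cons (pt_fillT PT.snd hy (PT.const false)) (PT.const []))

theorem pt_alg : PT (fun x : List (List Bool) × (Adv × List Bool) =>
    alg (fun y => decide (y ∈ x.1)) x.2.1 x.2.2) := by
  have h1 : PT (fun x : List (List Bool) × (Adv × List Bool) =>
      x.2.1.2.2.filter (fun rows => decS (fun y => decide (y ∈ x.1)) x.2.1.1 x.2.1.2.1 x.2.2
        rows)) :=
    PT.filter (f := fun x : List (List Bool) × (Adv × List Bool) => x.2.1.2.2)
      (p := fun x rows => decS (fun y => decide (y ∈ x.1)) x.2.1.1 x.2.1.2.1 x.2.2 rows)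
      PT.snd.fst'.snd'.snd'
      (pt_decS PT.fst.fst' PT.fst.snd'.fst'.fst' PT.fst.snd'.fst'.snd'.fst' PT.fst.snd'.snd'
        PT.snd)
  exact PT.lt PT.snd.fst'.snd'.snd'.length (PT.mulConst h1.length 2)

end Pool.Agent.Lib.MP_33f9c4_lc.Qt
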