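import Mathlib

/-!
# Asymptotic inequalities
-/

namespace Pool.Agent.Lib.MP_33f9c4_lc

open Finset

/-- Polynomials over `ℕ` are bounded by powers. -/
theorem eval_le_pow (P : Polynomial ℕ) : ∃ A k : ℕ, ∀ x, P.eval x ≤ A * (x + 1) ^ k := by
  refine ⟨∑ i ∈ range (P.natDegree + 1), P.coeff i, P.natDegree, fun x => ?_⟩
  rw [Polynomial.eval_eq_sum_range, Finset.sum_mul]
  refine Finset.sum_le_sum fun i hi => ?_
  have h1 : i ≤ P.natDegree := Nat.lt_succ_iff.mp (Finset.mem_range.mp hi)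
  refine Nat.mul_le_mul_left _ ?_
  exact (Nat.pow_le_pow_left (Nat.le_succ x) i).trans (Nat.pow_le_pow_right (Nat.succ_pos x) h1)

/-- Powers are dominated by the exponential function. -/
theorem pow_lt_two_pow (D k : ℕ) : ∃ m0, ∀ m ≥ m0, D * (m + 1) ^ k < 2 ^ m := by
  have h := tendsto_pow_const_div_const_pow_of_one_lt k (r := (2 : ℝ)) (by norm_num)
  have h1 : ∀ᶠ n : ℕ in Filter.atTop, (n : ℝ) ^ k / 2 ^ n < 1 / (2 * (D + 1)) :=
    h.eventually (gt_mem_nhds (by positivity))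
  obtain ⟨m0, hm0⟩ := Filter.eventually_atTop.mp h1
  refine ⟨m0, fun m hm => ?_⟩
  have h2 := hm0 (m + 1) (by omega)
  rw [div_lt_div_iff₀ (by positivity) (by positivity)] at h2
  have h3 : (D : ℝ) * ((m : ℝ) + 1) ^ k < 2 ^ m := by
    push_cast at h2
    have h4 : (0 : ℝ) ≤ ((m : ℝ) + 1) ^ k := by positivity
    have h5 : (2 : ℝ) ^ (m + 1) = 2 * 2 ^ m := by ring
    rw [h5] at h2
    nlinarith
  exact_mod_cast h3

theorem asym_poly (P : Polynomial ℕ) (c : ℕ) (hc : 0 < c) : ∃ n0, ∀ n ≥ n0,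
    P.eval n < 2 ^ (n / c) := by
  obtain ⟨A, k, hAk⟩ := eval_le_pow P
  obtain ⟨m0, hm0⟩ := pow_lt_two_pow (A * c ^ k) k
  refine ⟨c * m0, fun n hn => ?_⟩
  have h1 : m0 ≤ n / c := by
    rw [Nat.le_div_iff_mul_le hc, mul_comm]; exact hn
  have h2 := hm0 (n / c) h1
  have h3 : n + 1 ≤ c * (n / c + 1) := by
    have := Nat.lt_div_mul_add hc (a := n)
    rw [Nat.mul_add, mul_one, mul_comm c]
    omega
  calc P.eval n ≤ A * (n + 1) ^ k := hAk n
    _ ≤ A * (c * (n / c + 1)) ^ k := Nat.mul_le_mul_left _ (Nat.pow_le_pow_left h3 k)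
    _ = A * c ^ k * (n / c + 1) ^ k := by rw [Nat.mul_pow, mul_assoc]
    _ < 2 ^ (n / c) := h2

theorem asym_dec (P : Polynomial ℕ) : ∃ c > 0, ∀ a b : ℕ, ∃ n0, ∀ n ≥ n0,
    8 * n * P.eval (a + b * (n + 2 ^ (n / c))) ≤ 2 ^ n := by
  obtain ⟨A, k, hAk⟩ := eval_le_pow P
  refine ⟨2 * (k + 1), by positivity, fun a b => ?_⟩
  -- auxiliary polynomial
  set D := a + b + 1 with hD
  obtain ⟨n0, hn0⟩ := asym_poly
    (Polynomial.C (8 * A * D ^ k) * (Polynomial.X + 2) ^ (k + 1)) 2 (by norm_num)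
  refine ⟨n0, fun n hn => ?_⟩
  have h1 := hn0 n hn
  simp only [Polynomial.eval_mul, Polynomial.eval_C, Polynomial.eval_pow, Polynomial.eval_add,
    Polynomial.eval_X, Polynomial.eval_ofNat] at h1
  set t := 2 ^ (n / (2 * (k + 1))) with ht
  have ht1 : 1 ≤ t := Nat.one_le_two_pow
  have h2 : a + b * (n + t) + 1 ≤ D * (n + 2) * t := by
    have e1 : a ≤ a * ((n + 2) * t) := Nat.le_mul_of_pos_right _ (by positivity)
    have e2 : n + t ≤ (n + 2) * t := by nlinarith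
    have e3 : b * (n + t) ≤ b * ((n + 2) * t) := Nat.mul_le_mul_left _ e2
    have e4 : 1 ≤ (n + 2) * t := Nat.succ_le_of_lt (by positivity)
    have e5 : D * (n + 2) * t = a * ((n + 2) * t) + b * ((n + 2) * t) + (n + 2) * t := by
      rw [hD]; ring
    omega
  have h3 : t ^ k ≤ 2 ^ (n / 2) := by
    rw [ht, ← pow_mul]
    refine Nat.pow_le_pow_right (by norm_num) ?_
    have e1 : n / (2 * (k + 1)) * k ≤ n / (2 * (k + 1)) * (k + 1) :=
      Nat.mul_le_mul_left _ (Nat.le_succ k)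
    have e2 : n / (2 * (k + 1)) = n / 2 / (k + 1) := by rw [Nat.div_div_eq_div_mul]
    rw [e2] at e1 ⊢
    exact e1.trans (Nat.div_mul_le_self _ _)
  have h4 : 2 ^ (n / 2) * 2 ^ (n / 2) ≤ 2 ^ n := by
    rw [← pow_add]
    exact Nat.pow_le_pow_right (by norm_num) (by omega)
  calc 8 * n * P.eval (a + b * (n + t))
      ≤ 8 * n * (A * (a + b * (n + t) + 1) ^ k) := Nat.mul_le_mul_left _ (hAk _)
    _ ≤ 8 * n * (A * (D * (n + 2) * t) ^ k) :=
        Nat.mul_le_mul_left _ (Nat.mul_le_mul_left _ (Nat.pow_le_pow_left h2 k))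
    _ = (8 * A * D ^ k * ((n + 2) ^ k * n)) * t ^ k := by
        rw [Nat.mul_pow, Nat.mul_pow]; ring
    _ ≤ (8 * A * D ^ k * (n + 2) ^ (k + 1)) * t ^ k := by
        refine Nat.mul_le_mul_right _ (Nat.mul_le_mul_left _ ?_)
        rw [pow_succ]
        exact Nat.mul_le_mul_left _ (by omega)
    _ ≤ 2 ^ (n / 2) * 2 ^ (n / 2) := Nat.mul_le_mul h1.le h3
    _ ≤ 2 ^ n := h4

end Pool.Agent.Lib.MP_33f9c4_lc
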