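import Pool.Agent.Lib.MP_33f9c4_lc.Dec

/-!
# The simulation phase
-/

namespace Pool.Agent.Lib.MP_33f9c4_lc

open Pool.Agent.Lib.PolyTime Function Finset

/-- The computation on inputs that do not begin with `true` does not end if the description does
not halt. -/
theorem base_not (B : ℕ) (d : List Bool) (hd : d.head? ≠ some true)
    (h : ∀ s, mfin (mstep^[s] (cinit d.tail)) = false) (N : ℕ) :
    fin (g^[N] (init B d)) = false := by
  have key : ∀ N, g^[N] (init B d) = sSim (B, (mstep^[N] (cinit d.tail), d.tail.length + N)) := by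
    intro N
    induction N with
    | zero => rw [iterate_zero, id_eq, init, if_neg hd]; rfl
    | succ N ih =>
      rw [iterate_succ_apply', ih, g_sim, gSim, if_neg (by simp [h N]), iterate_succ_apply' mstep]
      rfl
  rw [key]
  rfl

/-- The computation on inputs that do not begin with `true`: upper bound. -/
theorem base (T : Polynomial ℕ) (B : ℕ) : ∃ P : Polynomial ℕ, ∀ (d : List Bool) (s : ℕ),
    d.head? ≠ some true → Halts (cinit d.tail) s → ∃ N c,
      Reach T (init B d) (sFin (yld d.tail s)) N c ∧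
      (d.tail.length + s + (yld d.tail s).length + 2) ^ B ≤ N ∧
      c + T.eval (size (sFin (yld d.tail s))) ≤ P.eval (d.length + s) := by
  obtain ⟨q, hq⟩ := size_minit_iter
  obtain ⟨r, hr⟩ := pt_parse.size_le
  let Qp : Polynomial ℕ := q.comp (r.comp (4 * Polynomial.X + 1) + Polynomial.X)
  let Wp : Polynomial ℕ := (Polynomial.X + Qp + 2) ^ B
  let Ep : Polynomial ℕ := 8 * Qp + 4 * Polynomial.X + 2 * Wp + Polynomial.C (2 * B) + 60
  refine ⟨(Polynomial.X + Polynomial.C B + Wp + 4) * T.comp Ep, fun d s hd ⟨h1, h2⟩ => ?_⟩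
  set e := d.tail with he
  set y := yld e s with hy
  set m := d.length + s with hm
  have hel : e.length ≤ d.length := by simp [he]
  obtain ⟨Q, hQ⟩ : ∃ Q, Q = Qp.eval m := ⟨_, rfl⟩
  have hQ' : q.eval (r.eval (4 * m + 1) + m) = Q := by
    rw [hQ]
    simp only [Qp, Polynomial.eval_comp, Polynomial.eval_add, Polynomial.eval_mul,
      Polynomial.eval_X, Polynomial.eval_ofNat, Polynomial.eval_one]
  obtain ⟨W, hW⟩ : ∃ W, W = Wp.eval m := ⟨_, rfl⟩
  have hW' : (m + Q + 2) ^ B = W := by
    rw [hW, hQ]
    simp only [Wp, Polynomial.eval_pow, Polynomial.eval_add, Polynomial.eval_X,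
      Polynomial.eval_ofNat]
  have hE : Ep.eval m = 8 * Q + 4 * m + 2 * W + 2 * B + 60 := by
    simp only [Ep, Polynomial.eval_add, Polynomial.eval_mul, Polynomial.eval_X,
      Polynomial.eval_ofNat, Polynomial.eval_C, ← hQ, ← hW]
  -- sizes of the configurations
  have hcfg : ∀ i ≤ s, size (mstep^[i] (cinit e)) ≤ Q ∧ (yld e i).length ≤ Q := by
    intro i hi
    have h3 := hr e
    have h4 := h3.trans (eval_mono r ((size_bools e).trans (by omega : _ ≤ 4 * m + 1)))
    rw [size_prod] at h4
    have h5 := length_le_size (parse e).2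
    have h6 := hq (parse e).1 (parse e).2 i (r.eval (4 * m + 1) + m) (by omega)
    rw [hQ'] at h6
    exact h6
  have hyl : y.length ≤ Q := (hcfg s le_rfl).2
  have hys : size y ≤ 4 * Q + 1 := (size_bools y).trans (by omega)
  obtain ⟨σ, hσ⟩ : ∃ σ, σ = e.length + s + y.length + 1 := ⟨_, rfl⟩
  have hσW : (σ + 1) ^ B ≤ W := by
    rw [← hW']
    exact Nat.pow_le_pow_left (by omega) B
  have hσi : ∀ i ≤ B, (σ + 1) ^ i ≤ W := fun i hi =>
    (Nat.pow_le_pow_right (by omega) hi).trans hσW
  have hσm : σ ≤ m + Q + 1 := by omega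
  -- the first part
  have r1 := Reach.chain (T := T) (fun i => sSim (B, (mstep^[i] (cinit e), e.length + i)))
    (T.eval (Ep.eval m)) s (fun i hi => by
      refine ⟨rfl, ?_, eval_mono T ?_⟩
      · show gSim _ = _
        rw [gSim, if_neg (by simp [h1 i hi]), iterate_succ_apply' mstep]
        rfl
      · have := (hcfg i hi.le).1
        rw [size_sSim, hE]
        simp only [size_prod (x := ((B, (mstep^[i] (cinit e), e.length + i)) : ℕ × (Cfg × ℕ))),
          size_prod (x := ((mstep^[i] (cinit e), e.length + i) : Cfg × ℕ)), size_nat]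
        omega)
  have r2 : Reach T (sSim (B, (mstep^[s] (cinit e), e.length + s)))
      (sPow (y, (σ, ((σ + 1) ^ 0, B - 0)))) 1 (T.eval (Ep.eval m)) := by
    refine Reach.step rfl ?_ (eval_mono T ?_)
    · show gSim _ = _
      rw [gSim, if_pos h2, hσ]
      rfl
    · have := (hcfg s le_rfl).1
      rw [size_sSim, hE]
      simp only [size_prod (x := ((B, (mstep^[s] (cinit e), e.length + s)) : ℕ × (Cfg × ℕ))),
        size_prod (x := ((mstep^[s] (cinit e), e.length + s) : Cfg × ℕ)), size_nat]
      omega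
  -- the second part
  have hsPow : ∀ i ≤ B, T.eval (size (sPow (y, (σ, ((σ + 1) ^ i, B - i))))) ≤
      T.eval (Ep.eval m) := by
    intro i hi
    refine eval_mono T ?_
    have := hσi i hi
    rw [size_sPow, hE]
    simp only [size_prod, size_nat]
    omega
  have r3 := Reach.chain (T := T) (fun i => sPow (y, (σ, ((σ + 1) ^ i, B - i))))
    (T.eval (Ep.eval m)) B (fun i hi => by
      refine ⟨rfl, ?_, hsPow i hi.le⟩
      show gPow _ = _
      rw [gPow, if_neg (by simp only; omega)]
      simp only [pow_succ, Nat.sub_sub])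
  have hsWait : ∀ j ≤ W, T.eval (size (sWait (y, j))) ≤ T.eval (Ep.eval m) := by
    intro j hj
    refine eval_mono T ?_
    rw [size_sWait, hE]
    simp only [size_prod, size_nat]
    omega
  have r4 : Reach T (sPow (y, (σ, ((σ + 1) ^ B, B - B)))) (sWait (y, (σ + 1) ^ B - 0)) 1
      (T.eval (Ep.eval m)) := by
    refine Reach.step rfl ?_ (hsPow B le_rfl)
    show gPow _ = _
    rw [gPow, if_pos (by simp)]
    rfl
  -- the third part
  have r5 := Reach.chain (T := T) (fun i => sWait (y, (σ + 1) ^ B - i))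
    (T.eval (Ep.eval m)) ((σ + 1) ^ B) (fun i hi => by
      refine ⟨rfl, ?_, hsWait _ (by omega)⟩
      show gWait _ = _
      rw [gWait, if_neg (by simp only; omega)]
      simp only [Nat.sub_sub])
  have r6 : Reach T (sWait (y, (σ + 1) ^ B - (σ + 1) ^ B)) (sFin y) 1 (T.eval (Ep.eval m)) := by
    refine Reach.step rfl ?_ (hsWait _ (by omega))
    show gWait _ = _
    rw [gWait, if_pos (by simp)]
  have h0 : init B d = sSim (B, (mstep^[0] (cinit e), e.length + 0)) := by
    rw [init, if_neg hd]
    rfl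
  rw [h0]
  refine ⟨_, _, ((((r1.trans r2).trans r3).trans r4).trans r5).trans r6, ?_, ?_⟩
  · have : e.length + s + y.length + 2 = σ + 1 := by omega
    rw [this]
    omega
  · have h7 : T.eval (size (sFin y)) ≤ T.eval (Ep.eval m) := by
      refine eval_mono T ?_
      rw [size_sFin, hE]
      omega
    rw [Polynomial.eval_mul, Polynomial.eval_comp]
    simp only [Polynomial.eval_add, Polynomial.eval_X, Polynomial.eval_ofNat,
      Polynomial.eval_C, ← hW]
    generalize T.eval (Ep.eval m) = C at *
    have h8 : (s + 1 + B + 1 + (σ + 1) ^ B + 1 + 1) * C ≤ (m + B + W + 4) * C :=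
      Nat.mul_le_mul_right _ (by omega)
    have h9 : (s + 1 + B + 1 + (σ + 1) ^ B + 1 + 1) * C =
      s * C + C + B * C + C + (σ + 1) ^ B * C + C + C := by ring
    omega

end Pool.Agent.Lib.MP_33f9c4_lc
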