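import Pool.Agent.Lib.MP_33f9c4_lc.Sub2

/-!
# The simulation phase
-/

namespace Pool.Agent.Lib.MP_33f9c4_lc.Ef

open Pool.Agent.Lib.PolyTime Function Finset Turing

set_option synthInstance.maxSize 2000

theorem nxt_nil_injective {i j : ℕ} (h : nxt^[i] [] = nxt^[j] []) : i = j := by
  have h1 := congrArg nval h
  rwa [nval_iter, nval_iter] at h1

theorem size_pow_le (σ y : List Bool) (b v : ℕ) : size (0, cPow (b, ((σ, y), v))) ≤
    2 * b + 4 * σ.length + 4 * y.length + 2 * v + 40 := by
  have h1 := size_bools σ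
  have h2 := size_bools y
  rw [size_prod]
  simp only [size_cPow]
  simp only [size_prod, size_nat]
  omega

theorem size_wait_le (σ y c : List Bool) (v w : ℕ) : size (0, cWait (((σ, y), c), (v, w))) ≤
    4 * σ.length + 4 * y.length + 4 * c.length + 2 * v + 2 * w + 40 := by
  have h1 := size_bools σ
  have h2 := size_bools y
  have h3 := size_bools c
  rw [size_prod]
  simp only [size_cWait]
  simp only [size_prod, size_nat]
  omega

/-- The computation of the power. -/
theorem pow_aux (V : Tbl) (σ y : List Bool) (L : ℕ) : ∀ (b v : ℕ),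
    2 * b + 4 * σ.length + 4 * y.length + 2 * (v * (y.length + 1) ^ b) + 40 ≤ L →
    Rn V L ((0, cPow (b, ((σ, y), v))), emp V)
      ((0, cWait (((σ, y), []), (v * (y.length + 1) ^ b, v * (y.length + 1) ^ b))), emp V)
      (b + 1) := by
  intro b
  induction b with
  | zero =>
    intro v hL
    rw [pow_zero, Nat.mul_one] at *
    refine Rn.step (m := 0) (a := 0) ?_ (by omega) (exec_zero _ _)
      ((size_pow_le σ y 0 v).trans (by omega))
    rw [G_pow, gPow, if_pos rfl]
  | succ b ih =>
    intro v hL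
    have e : v * (y.length + 1) ^ (b + 1) = v * (y.length + 1) * (y.length + 1) ^ b := by ring
    have hv : v ≤ v * (y.length + 1) ^ (b + 1) := Nat.le_mul_of_pos_right _ (by positivity)
    have r1 : Rn V L ((0, cPow (b + 1, ((σ, y), v))), emp V)
        ((0, cPow (b, ((σ, y), v * (y.length + 1)))), emp V) 1 := by
      refine Rn.step (m := 0) (a := 0) ?_ (by omega) (exec_zero _ _)
        ((size_pow_le σ y (b + 1) v).trans (by omega))
      rw [G_pow, gPow, if_neg (by simp)]
      rfl
    have r2 := ih (v * (y.length + 1)) (by rw [← e]; omega)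
    have r3 := r1.trans r2
    rw [← e, Nat.add_comm 1 (b + 1)] at r3
    exact r3

/-- Counting down. -/
theorem down (V : Tbl) (σ y c : List Bool) (w L : ℕ) : ∀ v : ℕ,
    4 * σ.length + 4 * y.length + 4 * c.length + 2 * v + 2 * w + 40 ≤ L →
    Rn V L ((0, cWait (((σ, y), c), (v, w))), emp V) ((0, cWait (((σ, y), c), (0, w))), emp V)
      v := by
  intro v
  induction v with
  | zero => exact fun _ => Rn.refl _ _ _
  | succ v ih =>
    intro hL
    have r1 : Rn V L ((0, cWait (((σ, y), c), (v + 1, w))), emp V)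
        ((0, cWait (((σ, y), c), (v, w))), emp V) 1 := by
      refine Rn.step (m := 0) (a := 0) ?_ (by omega) (exec_zero _ _)
        ((size_wait_le σ y c (v + 1) w).trans hL)
      rw [G_wait, gWait, if_neg (by simp)]
      rfl
    have r2 := r1.trans (ih (by omega))
    rwa [Nat.add_comm 1 v] at r2

/-- Waiting. -/
theorem wait_aux (V : Tbl) (s : ℕ) (y : List Bool) (w L : ℕ)
    (hL : 8 * lg s + 4 * y.length + 4 * w + 40 ≤ L) : ∀ d j : ℕ, j + d = s →
    Rn V L ((0, cWait (((nxt^[s] [], y), nxt^[j] []), (w, w))), emp V) ((0, cFin y), emp V)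
      ((d + 1) * (w + 1)) := by
  have hs : (nxt^[s] []).length = lg s := rfl
  have hj : ∀ j ≤ s, (nxt^[j] []).length ≤ lg s := fun j hj => lg_mono hj
  intro d
  induction d with
  | zero =>
    intro j hjd
    have h1 := hj j (by omega)
    have r1 := down V (nxt^[s] []) y (nxt^[j] []) w L w (by omega)
    have r2 : Rn V L ((0, cWait (((nxt^[s] [], y), nxt^[j] []), (0, w))), emp V)
        ((0, cFin y), emp V) 1 := by
      refine Rn.step (m := 0) (a := 0) ?_ (by omega) (exec_zero _ _)
        ((size_wait_le _ y _ 0 w).trans (by omega))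
      have : j = s := by omega
      subst this
      rw [G_wait, gWait, if_pos rfl, if_pos rfl]
    have r3 := r1.trans r2
    have e : w + 1 = (0 + 1) * (w + 1) := by ring
    rwa [e] at r3
  | succ d ih =>
    intro j hjd
    have h1 := hj j (by omega)
    have r1 := down V (nxt^[s] []) y (nxt^[j] []) w L w (by omega)
    have r2 : Rn V L ((0, cWait (((nxt^[s] [], y), nxt^[j] []), (0, w))), emp V)
        ((0, cWait (((nxt^[s] [], y), nxt^[j + 1] []), (w, w))), emp V) 1 := by
      refine Rn.step (m := 0) (a := 0) ?_ (by omega) (exec_zero _ _)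
        ((size_wait_le _ y _ 0 w).trans (by omega))
      rw [G_wait, gWait, if_pos rfl, if_neg, iterate_succ_apply']
      intro h
      have := nxt_nil_injective h
      omega
    have r3 := (r1.trans r2).trans (ih (j + 1) (by omega))
    have e : w + 1 + (d + 1) * (w + 1) = (d + 1 + 1) * (w + 1) := by ring
    rwa [e] at r3

theorem wait2' (V : Tbl) (B s : ℕ) (y : List Bool) (L : ℕ)
    (hL : 2 * B + 8 * lg s + 4 * y.length + 4 * (y.length + 1) ^ B + 100 ≤ L) :
    Rn V L ((0, cPow (B, ((nxt^[s] [], y), 1))), emp V) ((0, cFin y), emp V)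
      (B + 1 + (s + 1) * ((y.length + 1) ^ B + 1)) := by
  have hs : (nxt^[s] []).length = lg s := rfl
  have r1 := pow_aux V (nxt^[s] []) y L B 1 (by rw [Nat.one_mul]; omega)
  rw [Nat.one_mul] at r1
  exact r1.trans (wait_aux V s y ((y.length + 1) ^ B) L (by omega) s 0 (by omega))

theorem wait2 (V : Tbl) (B s : ℕ) (y : List Bool) (L : ℕ)
    (hL : 2 * B + 8 * lg s + 4 * y.length + 4 * (y.length + 1) ^ B + 100 ≤ L) :
    ∃ N, Rn V L ((0, cPow (B, ((nxt^[s] [], y), 1))), emp V) ((0, cFin y), emp V) N ∧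
      (s + 1) * (y.length + 1) ^ B ≤ N ∧ N ≤ (s + 1) * ((y.length + 1) ^ B + 1) + B + 2 := by
  refine ⟨_, wait2' V B s y L hL, ?_, by omega⟩
  rw [Nat.mul_succ]
  omega

theorem base2 (V : Tbl) (B : ℕ) : ∃ P : Polynomial ℕ, ∀ (d : List Bool) (s : ℕ),
    d.head? ≠ some true → Halts (minit V d.tail) s → ∃ N,
      Rn V (P.eval (d.length + (yl V d.tail s).length + lg s)) ((0, init B d), emp V)
        ((0, cFin (yl V d.tail s)), emp V) N ∧
      (s + 1) * ((yl V d.tail s).length + 1) ^ B ≤ N ∧ 2 ≤ N ∧
      N ≤ (s + 1) * P.eval (d.length + (yl V d.tail s).length) := by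
  obtain ⟨K, hK⟩ := sub_halt V
  refine ⟨Polynomial.C K * (Polynomial.X + 1) + 4 * (Polynomial.X + 1) ^ B +
    20 * Polynomial.X + Polynomial.C (2 * B + K + 200), fun d s hd hh => ?_⟩
  have hev : ∀ m : ℕ, (Polynomial.C K * (Polynomial.X + 1) + 4 * (Polynomial.X + 1) ^ B +
    20 * Polynomial.X + Polynomial.C (2 * B + K + 200) : Polynomial ℕ).eval m =
      K * (m + 1) + 4 * (m + 1) ^ B + 20 * m + (2 * B + K + 200) := by
    intro m
    simp only [Polynomial.eval_add, Polynomial.eval_mul, Polynomial.eval_pow, Polynomial.eval_X,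
      Polynomial.eval_C, Polynomial.eval_one, Polynomial.eval_ofNat]
  rw [hev, hev]
  obtain ⟨y, hy⟩ : ∃ y, y = yl V d.tail s := ⟨_, rfl⟩
  rw [← hy]
  have htk : tk (Sum.inl B) (yl V d.tail s) = y := by rw [hy]; rfl
  have hel : d.tail.length ≤ d.length := by simp
  have hsz : size (Sum.inl B : X) = 2 * B + 3 := by
    rw [size_inl, size_nat]
  have hw : (y.length + 1) ^ B ≤ (d.length + y.length + lg s + 1) ^ B :=
    Nat.pow_le_pow_left (by omega) B
  have hw2 : (y.length + 1) ^ B ≤ (d.length + y.length + 1) ^ B :=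
    Nat.pow_le_pow_left (by omega) B
  have hK0 : 0 ≤ K * (d.length + y.length + lg s + 1) := Nat.zero_le _
  obtain ⟨N, h1, h2, h3⟩ := hK (Sum.inl B) d.tail s
    (K * (d.length + y.length + lg s + 1) + 4 * (d.length + y.length + lg s + 1) ^ B +
      20 * (d.length + y.length + lg s) + (2 * B + K + 200)) hh (fun _ _ => rfl)
    (by rw [htk, hsz]; omega)
  rw [htk] at h1 h3
  have r2 := wait2' V B s y (K * (d.length + y.length + lg s + 1) +
    4 * (d.length + y.length + lg s + 1) ^ B + 20 * (d.length + y.length + lg s) +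
      (2 * B + K + 200)) (by omega)
  have hret : ret (Sum.inl B) (nxt^[s] [], y) = cPow (B, ((nxt^[s] [], y), 1)) := rfl
  rw [hret] at h1
  have hinit : init B d = cLoad (Sum.inl B, d.tail.reverse) := by rw [init, if_neg hd]
  rw [hinit]
  have hpos : 1 ≤ (y.length + 1) ^ B := Nat.one_le_pow _ _ (by omega)
  have e1 : (s + 1) * ((y.length + 1) ^ B + 1) = (s + 1) * (y.length + 1) ^ B + (s + 1) := by
    ring
  refine ⟨_, h1.trans r2, by omega, by omega, ?_⟩
  have e2 : K * (s + d.tail.length + y.length + 1) ≤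
      (s + 1) * (K * (d.length + y.length + 1)) := by
    have : s + d.tail.length + y.length + 1 ≤ (s + 1) * (d.length + y.length + 1) := by
      have e3 : (s + 1) * (d.length + y.length + 1) =
        s * (d.length + y.length) + s + (d.length + y.length + 1) := by ring
      have e4 : 0 ≤ s * (d.length + y.length) := Nat.zero_le _
      omega
    calc K * (s + d.tail.length + y.length + 1) ≤ K * ((s + 1) * (d.length + y.length + 1)) :=
          Nat.mul_le_mul_left _ this
      _ = _ := by ring
  have e5 : (s + 1) * (y.length + 1) ^ B ≤ (s + 1) * (d.length + y.length + 1) ^ B :=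
    Nat.mul_le_mul_left _ hw2
  have e6 : B + 1 ≤ (s + 1) * (B + 1) := Nat.le_mul_of_pos_left _ (by omega)
  have e7 : (s + 1) * (K * (d.length + y.length + 1) + 4 * (d.length + y.length + 1) ^ B +
      20 * (d.length + y.length) + (2 * B + K + 200)) =
      (s + 1) * (K * (d.length + y.length + 1)) + (s + 1) * (d.length + y.length + 1) ^ B +
      (s + 1) * (B + 1) + (s + 1) +
      (s + 1) * (3 * (d.length + y.length + 1) ^ B + 20 * (d.length + y.length) +
        (B + K + 198)) := by ring
  omega

theorem base2_not (V : Tbl) (B : ℕ) (d : List Bool) (hd : d.head? ≠ some true)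
    (h : ∀ s, mfin (mstep^[s] (minit V d.tail)) = false) (N : ℕ) :
    hl (G V) ((nx (G V))^[N] ((0, init B d), emp V)) = false := by
  rw [init, if_neg hd]
  exact sub_loop V B d.tail h N

end Pool.Agent.Lib.MP_33f9c4_lc.Ef
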