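import Mathlib

/-!
# An XOR lemma by a potential argument
-/

namespace Pool.Agent.Lib.MP_33f9c4_lc.Qt

open Finset Function

section Weak

variable {Y : Type} [Fintype Y] [DecidableEq Y] {k : ℕ}

theorem sum_update (i : Fin k) (F : (Fin k → Y) → ℝ) :
    ∑ v : Fin k → Y, ∑ y : Y, F (update v i y) = (Fintype.card Y : ℝ) * ∑ v, F v := by
  have hl : ∀ x : (Fin k → Y) × Y,
      (fun x : (Fin k → Y) × Y => ((update x.1 i x.2, x.1 i) : (Fin k → Y) × Y))
        ((fun x : (Fin k → Y) × Y => ((update x.1 i x.2, x.1 i) : (Fin k → Y) × Y)) x) = x := by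
    intro x
    refine Prod.ext ?_ ?_
    · simp only [update_idem, update_eq_self]
    · simp only [update_self]
  let e : ((Fin k → Y) × Y) ≃ ((Fin k → Y) × Y) :=
    { toFun := fun x => (update x.1 i x.2, x.1 i)
      invFun := fun x => (update x.1 i x.2, x.1 i)
      left_inv := hl
      right_inv := hl }
  have h1 := Equiv.sum_comp e (fun x : (Fin k → Y) × Y => F x.1)
  have h2 : ∀ x : (Fin k → Y) × Y, (e x).1 = update x.1 i x.2 := fun x => rfl
  simp only [h2] at h1
  rw [Fintype.sum_prod_type, Fintype.sum_prod_type] at h1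
  rw [h1, mul_sum]
  refine sum_congr rfl fun v _ => ?_
  simp only [sum_const, card_univ, nsmul_eq_mul]

theorem sum_prod_lt (μ : Y → ℝ) (i : Fin k) {δ : ℝ} (hμ1 : ∀ y, μ y ≤ 1)
    (hμ : δ * Fintype.card Y ≤ ∑ y, μ y) :
    ∑ v : Fin k → Y, ∏ j ∈ univ.filter (fun j => j < i), (1 - μ (v j)) ≤
      (1 - δ) ^ (i : ℕ) * (Fintype.card Y : ℝ) ^ k := by
  have h1 : ∀ v : Fin k → Y, ∏ j ∈ univ.filter (fun j => j < i), (1 - μ (v j)) =
      ∏ j, (if j < i then 1 - μ (v j) else 1) := fun v => by rw [prod_filter]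
  simp only [h1]
  have h2 := Finset.prod_univ_sum (fun _ : Fin k => (univ : Finset Y))
    (fun (j : Fin k) y => if j < i then 1 - μ y else (1 : ℝ))
  rw [Fintype.piFinset_univ] at h2
  rw [← h2]
  have h3 : ∀ j : Fin k, ∑ y : Y, (if j < i then 1 - μ y else (1 : ℝ)) ≤
      (if j < i then 1 - δ else 1) * Fintype.card Y := by
    intro j
    split_ifs
    · rw [sum_sub_distrib, sum_const, card_univ, nsmul_eq_mul]
      linarith
    · rw [sum_const, card_univ, nsmul_eq_mul]
      linarith
  have h4 : ∏ j : Fin k, ∑ y : Y, (if j < i then 1 - μ y else (1 : ℝ)) ≤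
      ∏ j : Fin k, (if j < i then 1 - δ else 1) * (Fintype.card Y : ℝ) := by
    refine prod_le_prod (fun j _ => sum_nonneg fun y _ => ?_) (fun j _ => h3 j)
    split_ifs
    · linarith [hμ1 y]
    · norm_num
  refine h4.trans (le_of_eq ?_)
  rw [prod_mul_distrib, prod_ite, prod_const, prod_const_one, mul_one, prod_const, card_univ,
    Fintype.card_fin]
  congr 2
  rw [← Fin.card_Iio]
  congr 1
  ext j
  simp

theorem weak [Nonempty Y] (σ : Y → ℝ)
    (hσ : ∀ y, σ y = 1 ∨ σ y = -1) (P : (Fin k → Y) → ℝ) (hP : ∀ v, |P v| ≤ 1) {ε δ : ℝ}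
    (hε : 0 < ε) (hδ : 0 < δ)
    (h : ε * (Fintype.card Y : ℝ) ^ k ≤ ∑ v : Fin k → Y, P v * ∏ i, σ (v i))
    (hk : (1 - δ) ^ k ≤ ε / 2) (hδ1 : δ ≤ 1) (μ : Y → ℝ) (hμ0 : ∀ y, 0 ≤ μ y)
    (hμ1 : ∀ y, μ y ≤ 1) (hμ : δ * Fintype.card Y ≤ ∑ y, μ y) :
    ∃ a : (Fin k → Y) × (Fin k × Bool), ε * δ / 2 * Fintype.card Y ≤
      ∑ y, μ y * ((if a.2.2 then (1 : ℝ) else -1) * P (update a.1 a.2.1 y) * σ y) := by
  set n : ℝ := (Fintype.card Y : ℝ) with hn
  have hn0 : 0 < n := by rw [hn]; exact_mod_cast Fintype.card_pos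
  have hσa : ∀ y, |σ y| = 1 := by
    intro y
    rcases hσ y with h | h <;> simp [h]
  have hprodσ : ∀ v : Fin k → Y, |∏ i, σ (v i)| = 1 := by
    intro v
    rw [Finset.abs_prod, prod_eq_one fun i _ => hσa _]
  -- the first term
  have h0 : ∑ v : Fin k → Y, (∏ i, (1 - μ (v i))) * (P v * ∏ i, σ (v i)) ≤ ε / 2 * n ^ k := by
    calc ∑ v : Fin k → Y, (∏ i, (1 - μ (v i))) * (P v * ∏ i, σ (v i))
        ≤ ∑ v : Fin k → Y, ∏ i, (1 - μ (v i)) := by
          refine sum_le_sum fun v _ => ?_
          have h1 : 0 ≤ ∏ i, (1 - μ (v i)) := prod_nonneg fun i _ => by linarith [hμ1 (v i)]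
          have h2 : P v * ∏ i, σ (v i) ≤ 1 := by
            refine (le_abs_self _).trans ?_
            rw [abs_mul, hprodσ, mul_one]
            exact hP v
          calc _ ≤ (∏ i, (1 - μ (v i))) * 1 := mul_le_mul_of_nonneg_left h2 h1
            _ = _ := mul_one _
      _ = (∑ y, (1 - μ y)) ^ k := by
          have h2 := Finset.prod_univ_sum (fun _ : Fin k => (univ : Finset Y))
            (fun (_ : Fin k) y => 1 - μ y)
          rw [Fintype.piFinset_univ] at h2
          rw [← h2, prod_const, card_univ, Fintype.card_fin]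
      _ ≤ ((1 - δ) * n) ^ k := by
          refine pow_le_pow_left₀ (sum_nonneg fun y _ => by linarith [hμ1 y]) ?_ k
          rw [sum_sub_distrib, sum_const, card_univ, nsmul_eq_mul]
          linarith
      _ = (1 - δ) ^ k * n ^ k := mul_pow _ _ _
      _ ≤ ε / 2 * n ^ k := mul_le_mul_of_nonneg_right hk (by positivity)
  -- the decomposition
  have hdec : ∑ v : Fin k → Y, P v * ∏ i, σ (v i) =
      ∑ v : Fin k → Y, (∏ i, (1 - μ (v i))) * (P v * ∏ i, σ (v i)) +
      ∑ i : Fin k, ∑ v : Fin k → Y, (μ (v i) * ∏ j ∈ univ.filter (fun j => j < i),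
        (1 - μ (v j))) * (P v * ∏ l, σ (v l)) := by
    rw [sum_comm, ← sum_add_distrib]
    refine sum_congr rfl fun v _ => ?_
    rw [← sum_mul, ← add_mul, prod_one_sub_ordered univ (fun i => μ (v i))]
    ring
  rcases Nat.eq_zero_or_pos k with hk0 | hk0
  · exfalso
    subst hk0
    rw [hdec] at h
    simp only [univ_eq_empty, sum_empty, add_zero] at h
    have h1 : ε * n ^ 0 ≤ ε / 2 * n ^ 0 := by
      refine h.trans ?_
      simpa only [univ_eq_empty] using h0
    simp only [pow_zero, mul_one] at h1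
    linarith
  haveI : Nonempty (Fin k) := ⟨⟨0, hk0⟩⟩
  obtain ⟨a, -, ha⟩ := exists_max_image (univ : Finset ((Fin k → Y) × (Fin k × Bool)))
    (fun a => ∑ y, μ y * ((if a.2.2 then (1 : ℝ) else -1) * P (update a.1 a.2.1 y) * σ y))
    univ_nonempty
  refine ⟨a, ?_⟩
  set val := ∑ y, μ y * ((if a.2.2 then (1 : ℝ) else -1) * P (update a.1 a.2.1 y) * σ y)
    with hval
  have hinner : ∀ (v : Fin k → Y) (i : Fin k), |∑ y, μ y * (P (update v i y) * σ y)| ≤ val := by
    intro v i
    rw [abs_le]
    constructor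
    · have h1 := ha (v, (i, false)) (mem_univ _)
      simp only [Bool.false_eq_true, if_false] at h1
      have h2 : ∑ y, μ y * (-1 * P (update v i y) * σ y) =
          -∑ y, μ y * (P (update v i y) * σ y) := by
        rw [← sum_neg_distrib]
        exact sum_congr rfl fun y _ => by ring
      rw [h2] at h1
      linarith
    · have h1 := ha (v, (i, true)) (mem_univ _)
      simp only [if_true, one_mul] at h1
      exact h1
  have hT : ∀ i : Fin k, n * ∑ v : Fin k → Y, (μ (v i) * ∏ j ∈ univ.filter (fun j => j < i),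
      (1 - μ (v j))) * (P v * ∏ l, σ (v l)) ≤ val * ((1 - δ) ^ (i : ℕ) * n ^ k) := by
    intro i
    rw [hn, ← sum_update i]
    have h1 : ∀ v : Fin k → Y, ∑ y : Y, (μ (update v i y i) *
        ∏ j ∈ univ.filter (fun j => j < i), (1 - μ (update v i y j))) *
        (P (update v i y) * ∏ l, σ (update v i y l)) ≤
        val * ∏ j ∈ univ.filter (fun j => j < i), (1 - μ (v j)) := by
      intro v
      have h2 : ∀ y : Y, (μ (update v i y i) *
          ∏ j ∈ univ.filter (fun j => j < i), (1 - μ (update v i y j))) *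
          (P (update v i y) * ∏ l, σ (update v i y l)) =
          ((∏ j ∈ univ.filter (fun j => j < i), (1 - μ (v j))) *
            ∏ l ∈ univ.erase i, σ (v l)) * (μ y * (P (update v i y) * σ y)) := by
        intro y
        have h3 : ∏ j ∈ univ.filter (fun j => j < i), (1 - μ (update v i y j)) =
            ∏ j ∈ univ.filter (fun j => j < i), (1 - μ (v j)) := by
          refine prod_congr rfl fun j hj => ?_
          rw [mem_filter] at hj
          rw [update_of_ne hj.2.ne]
        have h4 : ∏ l, σ (update v i y l) = σ y * ∏ l ∈ univ.erase i, σ (v l) := by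
          rw [← mul_prod_erase univ _ (mem_univ i), update_self]
          congr 1
          refine prod_congr rfl fun l hl => ?_
          rw [update_of_ne (ne_of_mem_erase hl)]
        rw [h3, h4, update_self]
        ring
      rw [sum_congr rfl fun y _ => h2 y, ← mul_sum]
      have hA : 0 ≤ ∏ j ∈ univ.filter (fun j => j < i), (1 - μ (v j)) :=
        prod_nonneg fun j _ => by linarith [hμ1 (v j)]
      refine (le_abs_self _).trans ?_
      rw [abs_mul, abs_mul, abs_of_nonneg hA, Finset.abs_prod,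
        prod_eq_one (fun l _ => hσa _), mul_one, mul_comm]
      exact mul_le_mul_of_nonneg_right (hinner v i) hA
    refine (sum_le_sum fun v _ => h1 v).trans ?_
    rw [← mul_sum]
    exact mul_le_mul_of_nonneg_left (sum_prod_lt μ i hμ1 hμ)
      ((abs_nonneg _).trans (hinner a.1 a.2.1))
  have hval0 : 0 ≤ val := (abs_nonneg _).trans (hinner a.1 a.2.1)
  have hgeom : δ * ∑ i : Fin k, (1 - δ) ^ (i : ℕ) ≤ 1 := by
    rw [Fin.sum_univ_eq_sum_range (fun i => (1 - δ) ^ i) k]
    have h1 := geom_sum_mul (1 - δ) k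
    have h2 : 0 ≤ (1 - δ) ^ k := pow_nonneg (by linarith) k
    nlinarith
  have hsum : n * ∑ i : Fin k, ∑ v : Fin k → Y, (μ (v i) *
      ∏ j ∈ univ.filter (fun j => j < i), (1 - μ (v j))) * (P v * ∏ l, σ (v l)) ≤
      val * n ^ k * ∑ i : Fin k, (1 - δ) ^ (i : ℕ) := by
    rw [mul_sum, mul_sum]
    refine sum_le_sum fun i _ => (hT i).trans (le_of_eq ?_)
    ring
  have hnk : 0 < n ^ k := by positivity
  have key : n * (ε * n ^ k) ≤ n * (ε / 2 * n ^ k) +
      val * n ^ k * ∑ i : Fin k, (1 - δ) ^ (i : ℕ) := by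
    have h1 : n * (ε * n ^ k) ≤ n * ∑ v : Fin k → Y, P v * ∏ i, σ (v i) :=
      mul_le_mul_of_nonneg_left h hn0.le
    rw [hdec, mul_add] at h1
    have h2 := mul_le_mul_of_nonneg_left h0 hn0.le
    linarith
  have key2 : (ε * δ / 2 * n) * n ^ k ≤ val * n ^ k := by
    have h1 : δ * (n * (ε / 2 * n ^ k)) ≤ δ * (val * n ^ k * ∑ i : Fin k, (1 - δ) ^ (i : ℕ)) :=
      mul_le_mul_of_nonneg_left (by linarith) hδ.le
    have h2 : δ * (val * n ^ k * ∑ i : Fin k, (1 - δ) ^ (i : ℕ)) =
        (val * n ^ k) * (δ * ∑ i : Fin k, (1 - δ) ^ (i : ℕ)) := by ring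
    have h3 : (val * n ^ k) * (δ * ∑ i : Fin k, (1 - δ) ^ (i : ℕ)) ≤ (val * n ^ k) * 1 :=
      mul_le_mul_of_nonneg_left hgeom (by positivity)
    calc (ε * δ / 2 * n) * n ^ k = δ * (n * (ε / 2 * n ^ k)) := by ring
      _ ≤ val * n ^ k := by linarith
  exact le_of_mul_le_mul_right key2 hnk

end Weak

/-- The potential. -/
noncomputable def phi (u : ℝ) : ℝ := if u ≤ 0 then 0 else if u ≤ 1 then u ^ 2 / 2 else u - 1 / 2

/-- Its derivative. -/
noncomputable def clamp (u : ℝ) : ℝ := if u ≤ 0 then 0 else if u ≤ 1 then u else 1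

theorem phi_nonneg (u : ℝ) : 0 ≤ phi u := by
  unfold phi
  split_ifs with h1 h2
  · exact le_rfl
  · positivity
  · linarith

theorem clamp_nonneg (u : ℝ) : 0 ≤ clamp u := by
  unfold clamp
  split_ifs with h1 h2
  · exact le_rfl
  · linarith
  · norm_num

theorem clamp_le (u : ℝ) : clamp u ≤ 1 := by
  unfold clamp
  split_ifs with h1 h2
  · norm_num
  · exact h2
  · exact le_rfl

theorem phi_le (u w : ℝ) : phi w ≤ phi u + (w - u) * clamp u + (w - u) ^ 2 / 2 := by
  unfold phi clamp
  split_ifs with h1 h2 h3 h4 h5 h6 h7 h8 h9 <;> nlinarith [sq_nonneg (w - u), sq_nonneg w,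
    sq_nonneg u, sq_nonneg (w - 1), sq_nonneg (u - 1)]

theorem boost {Y : Type} [Fintype Y] [DecidableEq Y] [Nonempty Y] {k : ℕ} (σ : Y → ℝ)
    (hσ : ∀ y, σ y = 1 ∨ σ y = -1) (P : (Fin k → Y) → ℝ) (hP : ∀ v, |P v| ≤ 1) {ε δ : ℝ}
    (hε : 0 < ε) (hδ : 0 < δ) (hδ1 : δ ≤ 1)
    (h : ε * (Fintype.card Y : ℝ) ^ k ≤ ∑ v : Fin k → Y, P v * ∏ i, σ (v i))
    (hk : (1 - δ) ^ k ≤ ε / 2) (M : ℕ) (hM : (2 / (ε * δ)) ^ 2 < M) :
    ∃ c : List ((Fin k → Y) × (Fin k × Bool)), c.length ≤ M ∧
      ((univ.filter (fun y => (c.map (fun a => (if a.2.2 then (1 : ℝ) else -1) *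
        P (update a.1 a.2.1 y))).sum * σ y ≤ 0)).card : ℝ) ≤ δ * Fintype.card Y := by
  set n : ℝ := (Fintype.card Y : ℝ) with hn
  have hn0 : 0 < n := by rw [hn]; exact_mod_cast Fintype.card_pos
  set γ : ℝ := ε * δ / 2 with hγ
  have hγ0 : 0 < γ := by positivity
  set Sc : List ((Fin k → Y) × (Fin k × Bool)) → Y → ℝ := fun c y =>
    (c.map (fun a => (if a.2.2 then (1 : ℝ) else -1) * P (update a.1 a.2.1 y))).sum * σ y
    with hSc
  have key : ∀ t : ℕ, (∃ c : List ((Fin k → Y) × (Fin k × Bool)), c.length ≤ t ∧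
      ((univ.filter (fun y => Sc c y ≤ 0)).card : ℝ) ≤ δ * n) ∨
      ∃ c : List ((Fin k → Y) × (Fin k × Bool)), c.length = t ∧
        ∑ y, phi (1 - γ * Sc c y) ≤ n / 2 - t * (γ ^ 2 * n / 2) := by
    intro t
    induction t with
    | zero =>
      right
      refine ⟨[], rfl, ?_⟩
      have h1 : ∀ y, phi (1 - γ * Sc [] y) = 1 / 2 := by
        intro y
        simp only [hSc, List.map_nil, List.sum_nil, zero_mul, mul_zero, sub_zero]
        unfold phi
        norm_num
      rw [sum_congr rfl fun y _ => h1 y, sum_const, card_univ, nsmul_eq_mul]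
      push_cast
      linarith
    | succ t ih =>
      rcases ih with ⟨c, hc1, hc2⟩ | ⟨c, hc1, hc2⟩
      · exact Or.inl ⟨c, by omega, hc2⟩
      · by_cases hμ : δ * n ≤ ∑ y, clamp (1 - γ * Sc c y)
        · right
          obtain ⟨a, ha⟩ := weak σ hσ P hP hε hδ h hk hδ1 (fun y => clamp (1 - γ * Sc c y))
            (fun y => clamp_nonneg _) (fun y => clamp_le _) hμ
          refine ⟨a :: c, by rw [List.length_cons, hc1], ?_⟩
          set x : Y → ℝ := fun y => (if a.2.2 then (1 : ℝ) else -1) * P (update a.1 a.2.1 y) * σ y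
            with hx
          have hx1 : ∀ y, x y ^ 2 ≤ 1 := by
            intro y
            have h1 : |x y| ≤ 1 := by
              rw [hx]
              simp only
              rw [abs_mul, abs_mul]
              have h2 : |(if a.2.2 then (1 : ℝ) else -1)| = 1 := by split_ifs <;> simp
              have h3 : |σ y| = 1 := by rcases hσ y with h | h <;> simp [h]
              rw [h2, h3, one_mul, mul_one]
              exact hP _
            rw [← sq_abs]
            exact pow_le_one₀ (abs_nonneg _) h1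
          have hS : ∀ y, Sc (a :: c) y = x y + Sc c y := by
            intro y
            simp only [hSc, hx, List.map_cons, List.sum_cons]
            ring
          have h1 : ∀ y, phi (1 - γ * Sc (a :: c) y) ≤ phi (1 - γ * Sc c y) -
              γ * (clamp (1 - γ * Sc c y) * x y) + γ ^ 2 / 2 := by
            intro y
            have h2 := phi_le (1 - γ * Sc c y) (1 - γ * Sc (a :: c) y)
            rw [hS] at h2 ⊢
            have h3 : (1 - γ * (x y + Sc c y)) - (1 - γ * Sc c y) = -(γ * x y) := by ring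
            rw [h3] at h2
            have h4 : (-(γ * x y)) ^ 2 / 2 ≤ γ ^ 2 / 2 := by
              have : (-(γ * x y)) ^ 2 = γ ^ 2 * x y ^ 2 := by ring
              rw [this]
              have h5 : γ ^ 2 * x y ^ 2 ≤ γ ^ 2 * 1 :=
                mul_le_mul_of_nonneg_left (hx1 y) (by positivity)
              linarith
            calc _ ≤ _ := h2
              _ ≤ _ := by
                have : (-(γ * x y)) * clamp (1 - γ * Sc c y) =
                  -(γ * (clamp (1 - γ * Sc c y) * x y)) := by ring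
                rw [this]
                linarith
          calc ∑ y, phi (1 - γ * Sc (a :: c) y)
              ≤ ∑ y, (phi (1 - γ * Sc c y) - γ * (clamp (1 - γ * Sc c y) * x y) + γ ^ 2 / 2) :=
                sum_le_sum fun y _ => h1 y
            _ = ∑ y, phi (1 - γ * Sc c y) - γ * ∑ y, clamp (1 - γ * Sc c y) * x y +
                n * (γ ^ 2 / 2) := by
                rw [sum_add_distrib, sum_sub_distrib, ← mul_sum, sum_const, card_univ,
                  nsmul_eq_mul]
            _ ≤ n / 2 - t * (γ ^ 2 * n / 2) - γ * (γ * n) + n * (γ ^ 2 / 2) := by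
                have ha' : γ * n ≤ ∑ y, clamp (1 - γ * Sc c y) * x y := ha
                have h7 := mul_le_mul_of_nonneg_left ha' hγ0.le
                linarith
            _ = n / 2 - ((t + 1 : ℕ) : ℝ) * (γ ^ 2 * n / 2) := by
                push_cast
                ring
        · left
          refine ⟨c, by omega, ?_⟩
          push Not at hμ
          have h1 : ((univ.filter (fun y => Sc c y ≤ 0)).card : ℝ) ≤
              ∑ y, clamp (1 - γ * Sc c y) := by
            rw [← sum_filter_add_sum_filter_not univ (fun y => Sc c y ≤ 0)]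
            have h2 : ((univ.filter (fun y => Sc c y ≤ 0)).card : ℝ) =
                ∑ y ∈ univ.filter (fun y => Sc c y ≤ 0), clamp (1 - γ * Sc c y) := by
              rw [sum_congr rfl (g := fun _ => (1 : ℝ)), sum_const, nsmul_eq_mul, mul_one]
              intro y hy
              rw [mem_filter] at hy
              have h3 : 1 ≤ 1 - γ * Sc c y := by
                have : γ * Sc c y ≤ 0 := mul_nonpos_of_nonneg_of_nonpos hγ0.le hy.2
                linarith
              unfold clamp
              rw [if_neg (by linarith)]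
              split_ifs with h4
              · linarith
              · rfl
            rw [h2]
            have h3 : 0 ≤ ∑ y ∈ univ.filter (fun y => ¬ Sc c y ≤ 0),
              clamp (1 - γ * Sc c y) := sum_nonneg fun y _ => clamp_nonneg _
            linarith
          linarith
  rcases key M with ⟨c, hc1, hc2⟩ | ⟨c, hc1, hc2⟩
  · exact ⟨c, hc1, hc2⟩
  · exfalso
    have h1 : 0 ≤ ∑ y, phi (1 - γ * Sc c y) := sum_nonneg fun y _ => phi_nonneg _
    have h2 : (2 / (ε * δ)) ^ 2 = 1 / γ ^ 2 := by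
      rw [hγ]
      field_simp
    rw [h2, div_lt_iff₀ (by positivity)] at hM
    have h3 : n * 1 < n * (M * γ ^ 2) := mul_lt_mul_of_pos_left hM hn0
    nlinarith

end Pool.Agent.Lib.MP_33f9c4_lc.Qt
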