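import Pool.Agent.Lib.MP_33f9c4_lc.Micro
import Pool.Agent.Lib.PolyTime
import Pool.Agent.Lib.PolyTime.Lists

/-!
# The functions of table machines are computable in polynomial time; sizes along computations
-/

namespace Pool.Agent.Lib.MP_33f9c4_lc

open Pool.Agent.Lib.PolyTime Turing

section General

variable {α β γ : Type} [Enc α] [Enc β] [Enc γ]

theorem mpt_getD {f : α → List β} {i : α → ℕ} (hf : PT f) (hi : PT i) (b : β) :
    PT (fun a => (f a).getD (i a) b) := by
  refine (PT.optCases (f := fun a => (f a)[i a]?) (g := fun _ => b) (h := fun _ c => c)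
    (PT.getElem? hi hf) (PT.const b) PT.snd).congr (fun a => ?_)
  rw [List.getD_eq_getElem?_getD]
  cases (f a)[i a]? <;> rfl

theorem mpt_take {f : α → ℕ} {g : α → List β} (hf : PT f) (hg : PT g) :
    PT (fun a => (g a).take (f a)) := by
  refine (PT.reverse (PT.drop (PT.sub (PT.length hg) hf) (PT.reverse hg))).congr (fun a => ?_)
  rw [List.reverse_drop]
  simp only [List.length_reverse, List.reverse_reverse]
  rcases le_total (f a) (g a).length with h | h
  · congr 1; omega
  · rw [show (g a).length - ((g a).length - f a) = (g a).length by omega, List.take_length,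
      List.take_of_length_le h]

theorem mpt_listSet {f : α → ℕ} {g : α → List β} {h : α → β} (hf : PT f) (hg : PT g) (hh : PT h) :
    PT (fun a => (g a).set (f a) (h a)) := by
  refine (PT.ite (c := fun a => f a < (g a).length) (PT.lt hf (PT.length hg))
    (PT.append (mpt_take hf hg) (PT.cons hh (PT.drop hf.succ hg))) hg).congr (fun a => ?_)
  rw [List.set_eq_take_append_cons_drop]

theorem mpt_size_getD_le (l : List β) (i : ℕ) (b : β) : size (l.getD i b) ≤ size l + size b := by
  rw [List.getD_eq_getElem?_getD]
  rcases lt_or_ge i l.length with h | h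
  · rw [List.getElem?_eq_getElem h]
    have := size_mem_lt (List.getElem_mem h)
    simp only [Option.getD_some]
    omega
  · rw [List.getElem?_eq_none h]
    simp

theorem mpt_size_set_add (l : List β) (i : ℕ) (x : β) (h : i < l.length) (b : β) :
    size (l.set i x) + size (l.getD i b) = size l + size x := by
  induction l generalizing i with
  | nil => simp at h
  | cons a l ih =>
    cases i with
    | zero => simp only [List.set_cons_zero, size_cons, List.getD_cons_zero]; omega
    | succ i =>
      have := ih i (by simpa using h)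
      simp only [List.set_cons_succ, size_cons, List.getD_cons_succ]
      omega

end General

/-! ### Polynomial time -/

theorem pt_fld {α : Type} [Enc α] {f : α → Cfg} {i : α → ℕ} (hf : PT f) (hi : PT i) :
    PT (fun a => fld (f a) (i a)) :=
  mpt_getD (mpt_getD hf.fst' hf.snd'.fst' []) hi 3

theorem pt_stk {α : Type} [Enc α] {f : α → Cfg} (hf : PT f) : PT (fun a => stk (f a)) :=
  mpt_getD hf.snd'.snd' (pt_fld hf (PT.const 1)) []

theorem pt_hdi {α : Type} [Enc α] {f : α → List ℕ} (hf : PT f) : PT (fun a => hdi (f a)) :=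
  (PT.listCases (g := fun _ => 2) (h := fun _ g _ => g + 3) hf (PT.const 2)
    (PT.addConst PT.snd.fst' 3)).congr (fun a => by cases f a <;> rfl)

theorem pt_fldEq {α : Type} [Enc α] {f : α → Cfg} (hf : PT f) (i n : ℕ) :
    PT (fun a => decide (fld (f a) i = n)) :=
  (PT.eqConst n).comp (pt_fld hf (PT.const i))

theorem pt_mstep : PT mstep := by
  have hid : PT (fun c : Cfg => c) := PT.id
  refine PT.ite (c := fun c : Cfg => fld c 0 = 0) (pt_fldEq hid 0 0) ?_ ?_
  · exact PT.pair hid.fst' (PT.pair (pt_fld hid (PT.const 3))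
      (mpt_listSet (pt_fld hid (PT.const 1)) hid.snd'.snd'
        (PT.cons (pt_fld hid (PT.const 2)) (pt_stk hid))))
  refine PT.ite (c := fun c : Cfg => fld c 0 = 1) (pt_fldEq hid 0 1) ?_ ?_
  · exact PT.pair hid.fst' (PT.pair (pt_fld hid (pt_hdi (pt_stk hid)))
      (mpt_listSet (pt_fld hid (PT.const 1)) hid.snd'.snd' (PT.tail (pt_stk hid))))
  refine PT.ite (c := fun c : Cfg => fld c 0 = 2) (pt_fldEq hid 0 2) ?_ hid
  exact PT.pair hid.fst' (PT.pair (pt_fld hid (pt_hdi (pt_stk hid))) hid.snd'.snd')

theorem pt_mfin : PT mfin := by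
  have hid : PT (fun c : Cfg => c) := PT.id
  exact PT.le (PT.const 3) (pt_fld hid (PT.const 0))

theorem pt_mout : PT mout := by
  have hid : PT (fun c : Cfg => c) := PT.id
  refine PT.map (f := fun c : Cfg => stk c) (g := fun c g => decide (fld c (g + 2) = 1))
    (pt_stk hid) ?_
  exact (PT.eqConst 1).comp (pt_fld PT.fst (PT.addConst PT.snd 2))

theorem pt_minit : PT (fun x : Tbl × List Bool => minit x.1 x.2) := by
  refine PT.pair PT.fst (PT.pair (PT.const 0) (PT.cons ?_ ?_))
  · exact PT.map (f := fun x : Tbl × List Bool => x.2)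
      (g := fun _ (b : Bool) => if b then (1 : ℕ) else 0) PT.snd
      (PT.cond (c := fun x : (Tbl × List Bool) × Bool => x.2) PT.snd (PT.const 1) (PT.const 0))
  · refine (PT.map (g := fun _ _ => ([] : List ℕ)) (PT.fst (α := Tbl) (β := List Bool))
      (PT.const [])).congr (fun a => ?_)
    exact (List.eq_replicate_of_mem (fun b hb => by
      obtain ⟨_, _, rfl⟩ := List.mem_map.1 hb; rfl)).trans (by rw [List.length_map])

/-! ### Sizes -/

theorem size_fld_le (c : Cfg) (i : ℕ) : size (fld c i) ≤ size c.1 + 8 := by
  have h1 := mpt_size_getD_le (c.1.getD c.2.1 []) i 3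
  have h2 := mpt_size_getD_le c.1 c.2.1 []
  rw [size_nil] at h2
  have h3 : size (3 : ℕ) = 7 := size_nat 3
  unfold fld
  omega

theorem size_stk_le (c : Cfg) : size (stk c) ≤ size c.2.2 + 1 := by
  have h1 := mpt_size_getD_le c.2.2 (fld c 1) []
  rw [size_nil] at h1
  exact h1

theorem mstep_fst (c : Cfg) : (mstep c).1 = c.1 := by
  unfold mstep
  split_ifs <;> rfl

theorem mstep_iter_fst (c : Cfg) (s : ℕ) : (mstep^[s] c).1 = c.1 := by
  induction s with
  | zero => rfl
  | succ s ih => rw [Function.iterate_succ_apply', mstep_fst, ih]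

theorem size_mstep_state (c : Cfg) :
    size (mstep c).2.1 ≤ size c.1 + 8 + size c.2.1 := by
  unfold mstep
  split_ifs
  · have := size_fld_le c 3; simp only; omega
  · have := size_fld_le c (hdi (stk c)); simp only; omega
  · have := size_fld_le c (hdi (stk c)); simp only; omega
  · omega

theorem size_mstep_stacks (c : Cfg) :
    size (mstep c).2.2 ≤ size c.2.2 + (size c.1 + 9) := by
  unfold mstep
  split_ifs
  · simp only
    rcases lt_or_ge (fld c 1) c.2.2.length with h | h
    · have h1 := mpt_size_set_add c.2.2 (fld c 1) (fld c 2 :: stk c) h []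
      rw [size_cons] at h1
      have h2 := size_fld_le c 2
      have h3 : size (c.2.2.getD (fld c 1) []) = size (stk c) := rfl
      omega
    · rw [List.set_eq_of_length_le h]; omega
  · simp only
    rcases lt_or_ge (fld c 1) c.2.2.length with h | h
    · have h1 := mpt_size_set_add c.2.2 (fld c 1) (stk c).tail h []
      have h3 : size (c.2.2.getD (fld c 1) []) = size (stk c) := rfl
      have h4 : size (stk c).tail ≤ size (stk c) := by
        cases stk c with
        | nil => exact le_refl _
        | cons a l => rw [size_cons, List.tail_cons]; omega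
      omega
    · rw [List.set_eq_of_length_le h]; omega
  · simp only; omega
  · omega

theorem size_state_iter (c : Cfg) (s : ℕ) :
    size (mstep^[s] c).2.1 ≤ s * (size c.1 + 8) + size c.2.1 := by
  induction s with
  | zero => simp
  | succ s ih =>
    rw [Function.iterate_succ_apply', Nat.succ_mul]
    have := size_mstep_state (mstep^[s] c)
    rw [mstep_iter_fst] at this
    omega

theorem size_stacks_iter (c : Cfg) (s : ℕ) :
    size (mstep^[s] c).2.2 ≤ s * (size c.1 + 9) + size c.2.2 := by
  induction s with
  | zero => simp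
  | succ s ih =>
    rw [Function.iterate_succ_apply', Nat.succ_mul]
    have := size_mstep_stacks (mstep^[s] c)
    rw [mstep_iter_fst] at this
    omega

theorem size_iter_le (c : Cfg) (s : ℕ) :
    size (mstep^[s] c) ≤ size c + 2 * s * (size c + 9) := by
  have h1 := size_state_iter c s
  have h2 := size_stacks_iter c s
  have h3 : size c.1 ≤ size c := by rw [size_prod]; omega
  have h4 : size c = size c.1 + (size c.2.1 + size c.2.2 + 1) + 1 := by
    rw [size_prod, size_prod]
  have h5 : size (mstep^[s] c) = size c.1 + (size (mstep^[s] c).2.1 +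
      size (mstep^[s] c).2.2 + 1) + 1 := by
    rw [size_prod, size_prod, mstep_iter_fst]
  have h6 : s * (size c.1 + 8) ≤ s * (size c + 9) := Nat.mul_le_mul_left _ (by omega)
  have h7 : s * (size c.1 + 9) ≤ s * (size c + 9) := Nat.mul_le_mul_left _ (by omega)
  have h8 : 2 * s * (size c + 9) = s * (size c + 9) + s * (size c + 9) := by ring
  omega

/-- sizes along a computation -/
theorem size_mstep_iter : ∃ q : Polynomial ℕ, ∀ (c : Cfg) (s : ℕ),
    size (mstep^[s] c) ≤ q.eval (size c + s) := by
  refine ⟨Polynomial.X + 2 * Polynomial.X * (Polynomial.X + 9), fun c s => ?_⟩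
  refine (size_iter_le c s).trans ?_
  simp only [Polynomial.eval_add, Polynomial.eval_mul, Polynomial.eval_X, Polynomial.eval_ofNat]
  gcongr <;> omega

theorem length_mout_iter : ∃ q : Polynomial ℕ, ∀ (c : Cfg) (s : ℕ),
    (mout (mstep^[s] c)).length ≤ q.eval (size c + s) := by
  obtain ⟨q, hq⟩ := size_mstep_iter
  refine ⟨q + 1, fun c s => ?_⟩
  have h1 := hq c s
  have h2 := size_stk_le (mstep^[s] c)
  have h3 := length_le_size (stk (mstep^[s] c))
  have h4 : size (mstep^[s] c) = size (mstep^[s] c).1 + (size (mstep^[s] c).2.1 +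
      size (mstep^[s] c).2.2 + 1) + 1 := by
    rw [size_prod, size_prod]
  rw [Polynomial.eval_add, Polynomial.eval_one]
  have h5 : (mout (mstep^[s] c)).length = (stk (mstep^[s] c)).length := by
    unfold mout; rw [List.length_map]
  omega

end Pool.Agent.Lib.MP_33f9c4_lc
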