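import Pool.Agent.Lib.MP_33f9c4_lc.Micro
import Pool.Agent.Lib.PolyTime
import Pool.Agent.Lib.PolyTime.Lists

/-!
# Numerals
-/

namespace Pool.Agent.Lib.MP_33f9c4_lc

open Pool.Agent.Lib.PolyTime

theorem nval_nxt (l : List Bool) : nval (nxt l) = nval l + 1 := by
  induction l with
  | nil => rfl
  | cons b l ih =>
    cases b
    · simp [nxt, nval]
    · simp only [nxt, nval, ih, if_true]
      simp
      ring

theorem nval_injective : Function.Injective nval := by
  intro a
  induction a with
  | nil =>
    intro b h
    cases b with
    | nil => rfl
    | cons y b => cases y <;> simp [nval] at h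
  | cons x a ih =>
    intro b h
    cases b with
    | nil => cases x <;> simp [nval] at h
    | cons y b =>
      cases x <;> cases y
      · simp only [nval] at h
        have : nval a = nval b := by simpa using h
        rw [ih this]
      · simp only [nval] at h
        simp at h
        omega
      · simp only [nval] at h
        simp at h
        omega
      · simp only [nval] at h
        have : nval a = nval b := by simpa using h
        rw [ih this]

theorem nval_iter (n : ℕ) : nval (nxt^[n] []) = n := by
  induction n with
  | zero => rfl
  | succ n ih => rw [Function.iterate_succ_apply', nval_nxt, ih]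

theorem nxt_iter_nval (l : List Bool) : nxt^[nval l] [] = l :=
  nval_injective (nval_iter _)

theorem length_le_nval (l : List Bool) : 2 ^ l.length ≤ nval l + 1 := by
  induction l with
  | nil => simp [nval]
  | cons b l ih =>
    rw [List.length_cons, pow_succ]
    cases b <;> simp [nval] <;> omega

theorem nval_lt_length (l : List Bool) : nval l + 1 < 2 ^ (l.length + 1) := by
  induction l with
  | nil => simp [nval]
  | cons b l ih =>
    rw [List.length_cons, pow_succ]
    cases b <;> simp [nval] <;> omega

theorem lg_le (s : ℕ) : 2 ^ lg s ≤ s + 1 := by
  have h := length_le_nval (nxt^[s] [])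
  rwa [nval_iter] at h

theorem lt_lg (s : ℕ) : s + 1 < 2 ^ (lg s + 1) := by
  have h := nval_lt_length (nxt^[s] [])
  rwa [nval_iter] at h

/-! ### Comparison -/

theorem foldl_cmp_three (a : List Bool) : ∀ l : List Bool, (a.foldl cmpStep (l, 3)).2 = 3 := by
  induction a with
  | nil => intro l; rfl
  | cons x a ih =>
    intro l
    cases l with
    | nil => exact ih []
    | cons y l => exact ih l

theorem foldl_cmp_long (a : List Bool) : ∀ (b : List Bool) (c : ℕ), b.length < a.length →
    (a.foldl cmpStep (b, c)).2 = 3 := by
  induction a with
  | nil => intro b c h; simp at h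
  | cons x a ih =>
    intro b c h
    cases b with
    | nil => exact foldl_cmp_three a []
    | cons y b =>
      rw [List.foldl_cons]
      exact ih b _ (by simpa using h)

theorem foldl_cmp_short (a : List Bool) : ∀ (b : List Bool) (c : ℕ), a.length ≤ b.length →
    c ≠ 3 → a.foldl cmpStep (b, c) = (b.drop a.length,
      if nval a < nval (b.take a.length) then 1
      else if nval (b.take a.length) < nval a then 2 else c) := by
  induction a with
  | nil => intro b c h hc; simp [nval]
  | cons x a ih =>
    intro b c h hc
    cases b with
    | nil => simp at h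
    | cons y b =>
      have h1 : cmpStep (y :: b, c) x = (b, if x = y then c else if y then 1 else 2) := by
        simp [cmpStep, hc]
      rw [List.foldl_cons, h1, ih b _ (by simpa using h)
        (by cases x <;> cases y <;> simp [hc])]
      simp only [List.length_cons, List.drop_succ_cons, List.take_succ_cons, nval]
      generalize nval a = A
      generalize nval (b.take a.length) = B
      congr 1
      rcases lt_trichotomy A B with hAB | hAB | hAB
      · have : 2 * A + (if x then 2 else 1) < 2 * B + (if y then 2 else 1) := by
          cases x <;> cases y <;> simp <;> omega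
        rw [if_pos hAB, if_pos this]
      · subst hAB
        rw [if_neg (lt_irrefl _), if_neg (lt_irrefl _)]
        cases x <;> cases y <;> simp
      · have : 2 * B + (if y then 2 else 1) < 2 * A + (if x then 2 else 1) := by
          cases x <;> cases y <;> simp <;> omega
        rw [if_neg (by omega), if_pos hAB, if_neg (by omega), if_pos this]

theorem nlt_iff (a b : List Bool) : nlt a b = true ↔ nval a < nval b := by
  unfold nlt
  simp only
  rcases lt_or_ge b.length a.length with h | h
  · rw [foldl_cmp_long a b 0 h]
    simp only [if_true, Bool.false_eq_true, false_iff, not_lt]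
    have h1 := length_le_nval a
    have h2 := nval_lt_length b
    have h3 : 2 ^ (b.length + 1) ≤ 2 ^ a.length := Nat.pow_le_pow_right (by norm_num) h
    omega
  · rw [foldl_cmp_short a b 0 h (by norm_num)]
    rcases h.eq_or_lt with h | h
    · have e1 : b.drop a.length = [] := by rw [h]; simp
      have e2 : b.take a.length = b := by rw [h]; simp
      rw [e1, e2]
      simp only [if_true]
      rcases lt_trichotomy (nval a) (nval b) with h' | h' | h'
      · simp [h']
      · simp [h']
      · have : ¬ nval a < nval b := by omega
        simp [h', this]
    · have e1 : b.drop a.length ≠ [] := by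
        intro e
        have := congrArg List.length e
        simp at this
        omega
      have h1 := length_le_nval b
      have h2 := nval_lt_length a
      have h3 : 2 ^ (a.length + 1) ≤ 2 ^ b.length := Nat.pow_le_pow_right (by norm_num) h
      have h4 : nval a < nval b := by omega
      simp only [e1, if_false, h4, iff_true]
      split_ifs <;> simp_all

/-! ### Polynomial time -/

/-- One step of the successor function with carry. -/
def nxtStep (s : Bool × List Bool) (b : Bool) : Bool × List Bool :=
  if s.1 then (if b then (true, false :: s.2) else (false, true :: s.2)) else (false, b :: s.2)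

theorem foldl_nxtStep (l : List Bool) : ∀ o : List Bool,
    (l.foldl nxtStep (false, o)) = (false, l.reverse ++ o) := by
  induction l with
  | nil => intro o; rfl
  | cons b l ih =>
    intro o
    have h : nxtStep (false, o) b = (false, b :: o) := rfl
    rw [List.foldl_cons, h, ih]
    simp

theorem nxt_eq_foldl (l : List Bool) : ∀ o : List Bool,
    (if (l.foldl nxtStep (true, o)).1 then false :: (l.foldl nxtStep (true, o)).2
      else (l.foldl nxtStep (true, o)).2).reverse = o.reverse ++ nxt l := by
  induction l with
  | nil => intro o; simp [nxt]
  | cons b l ih =>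
    intro o
    cases b
    · have h : nxtStep (true, o) false = (false, true :: o) := rfl
      rw [List.foldl_cons, h, foldl_nxtStep]
      simp [nxt]
    · have h : nxtStep (true, o) true = (true, false :: o) := rfl
      rw [List.foldl_cons, h, ih]
      simp [nxt]

theorem pt_nxt : PT nxt := by
  have hs : PT (fun x : List Bool × ((Bool × List Bool) × Bool) => nxtStep x.2.1 x.2.2) := by
    have h1 : PT (fun x : List Bool × ((Bool × List Bool) × Bool) => x.2.1.1) :=
      PT.snd.fst'.fst'
    have h2 : PT (fun x : List Bool × ((Bool × List Bool) × Bool) => x.2.1.2) :=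
      PT.snd.fst'.snd'
    have h3 : PT (fun x : List Bool × ((Bool × List Bool) × Bool) => x.2.2) := PT.snd.snd'
    refine (PT.cond h1 (PT.cond h3 ((PT.const true).pair (PT.cons (PT.const false) h2))
      ((PT.const false).pair (PT.cons (PT.const true) h2)))
      ((PT.const false).pair (PT.cons h3 h2))).congr (fun x => ?_)
    obtain ⟨l, ⟨c, o⟩, b⟩ := x
    cases c <;> cases b <;> rfl
  have h : PT (fun l : List Bool => l.foldl nxtStep (true, [])) := by
    refine PT.foldl_add (f := fun l : List Bool => l) (init := fun _ => (true, []))
      (step := fun _ s b => nxtStep s b) PT.id (PT.const _) hs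
      (C := fun _ => 10) (PB.const 10) ?_
    rintro a ⟨c, o⟩ b _
    have hb : size b ≤ 3 := by cases b <;> decide
    have hF : size false ≤ 3 := by decide
    have hT : size true ≤ 3 := by decide
    have hc : 1 ≤ size c := size_pos c
    cases c <;> cases b <;> simp only [nxtStep, if_true, if_false, Bool.false_eq_true,
      size_prod, size_cons] <;> omega
  refine (PT.reverse (PT.cond h.fst' (PT.cons (PT.const false) h.snd') h.snd')).congr (fun l => ?_)
  have := nxt_eq_foldl l []
  simpa using this

theorem pt_cmpStep : PT (fun x : (List Bool × ℕ) × Bool => cmpStep x.1 x.2) := by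
  have h1 : PT (fun x : (List Bool × ℕ) × Bool => x.1.1) := PT.fst.fst'
  have h2 : PT (fun x : (List Bool × ℕ) × Bool => x.1.2) := PT.fst.snd'
  have h3 : PT (fun x : (List Bool × ℕ) × Bool => x.2) := PT.snd
  refine (PT.listCases (f := fun x : (List Bool × ℕ) × Bool => x.1.1)
    (g := fun _ => (([], 3) : List Bool × ℕ))
    (h := fun x (b : Bool) (l : List Bool) => ((l, if x.1.2 = 3 then 3 else if x.2 = b then x.1.2
      else if b then 1 else 2) : List Bool × ℕ)) h1 (PT.const _) ?_).congr (fun x => ?_)
  · have g1 := h2.comp (PT.fst (α := (List Bool × ℕ) × Bool) (β := Bool × List Bool))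
    have g2 := h3.comp (PT.fst (α := (List Bool × ℕ) × Bool) (β := Bool × List Bool))
    have g3 := (PT.snd (α := (List Bool × ℕ) × Bool) (β := Bool × List Bool)).fst'
    have g4 := (PT.snd (α := (List Bool × ℕ) × Bool) (β := Bool × List Bool)).snd'
    exact g4.pair (PT.ite (PT.eq g1 (PT.const 3)) (PT.const 3)
      (PT.ite (PT.eq g2 g3) g1 (PT.cond g3 (PT.const 1) (PT.const 2))))
  · obtain ⟨⟨l, c⟩, b⟩ := x
    cases l <;> rfl

theorem pt_nlt : PT (fun x : List Bool × List Bool => nlt x.1 x.2) := by
  have h : PT (fun x : List Bool × List Bool => x.1.foldl cmpStep (x.2, 0)) := by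
    refine PT.foldl_add (f := fun x : List Bool × List Bool => x.1)
      (init := fun x => (x.2, 0)) (step := fun _ s b => cmpStep s b) PT.fst
      (PT.snd.pair (PT.const 0)) (pt_cmpStep.comp PT.snd)
      (C := fun _ => 10) (PB.const 10) ?_
    rintro a ⟨l, c⟩ b _
    cases l with
    | nil =>
      have : cmpStep ([], c) b = ([], 3) := rfl
      rw [this]
      simp only [size_prod, size_nat]
      omega
    | cons y l =>
      have : cmpStep (y :: l, c) b = (l, if c = 3 then 3 else if b = y then c
        else if y then 1 else 2) := rfl
      rw [this]
      simp only [size_prod, size_nat, size_cons]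
      split_ifs <;> omega
  exact PT.ite (PT.eq h.snd' (PT.const 3)) (PT.const false)
    (PT.ite (PT.eq h.fst' (PT.const [])) (PT.eq h.snd' (PT.const 1)) (PT.const true))

theorem size_bools (l : List Bool) : size l ≤ 4 * l.length + 1 := by
  induction l with
  | nil => decide
  | cons b l ih =>
    rw [size_cons, List.length_cons]
    have hb : size b ≤ 3 := by cases b <;> decide
    omega

theorem pt_lg : PT lg := by
  have h : PT (fun s : ℕ => nxt^[s] []) := by
    refine PT.iterate (f := fun s : ℕ => s) (init := fun _ => []) (step := fun _ => nxt) PT.id
      (PT.const _) (pt_nxt.comp PT.snd) (B := fun n => 4 * n + 5)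
      (((PB.const 4).mul PB.id).add (PB.const 5)) ?_
    intro a i hi
    have h1 := lg_le i
    have h2 : lg i < 2 ^ lg i := Nat.lt_two_pow_self
    have h3 := size_bools (nxt^[i] [])
    have h4 : (nxt^[i] []).length = lg i := rfl
    rw [h4] at h3
    rw [size_nat]
    omega
  exact h.length

end Pool.Agent.Lib.MP_33f9c4_lc
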