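import Pool.Agent.Lib.MP_33f9c4_lc.Rsr
import Pool.Agent.Lib.MP_33f9c4_lc.Mpt
import Pool.Agent.Lib.MP_33f9c4_lc.Num
import Pool.Agent.Lib.PolyTime.BinNat

/-!
# Deciding a language with advice and an oracle: definitions
-/

namespace Pool.Agent.Lib.MP_33f9c4_lc.Qt

open Pool.Agent.Lib.PolyTime Function

/-- Templates: sign, the part of the string before the block, the part between the block and the
bit, the part after the bit. -/
abbrev Tm : Type := Bool × (List Bool × (List Bool × List Bool))

/-- Rows: blocks for the coordinates (for the bit `false` and for the bit `true`), candidates with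
their contributions. -/
abbrev Row : Type := List (List Bool × List Bool) × List (List Bool × ℕ)

/-- Advice: templates, modulus, samples. -/
abbrev Adv : Type := List Tm × (ℕ × List (List Row))

/-- The string obtained from a template, a block and a bit. -/
def fillT (T : Tm) (y : List Bool) (c : Bool) : List Bool :=
  T.2.1 ++ (y ++ (T.2.2.1 ++ c :: T.2.2.2))

/-- The value of the template at the block is `1` (with respect to the oracle `O`). -/
def pls (O : List Bool → Bool) (T : Tm) (y : List Bool) : Bool :=
  (T.1 && (O (fillT T y true) && !O (fillT T y false))) ||
    (!T.1 && (!O (fillT T y true) && O (fillT T y false)))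

/-- The value of the template at the block is `-1`. -/
def mns (O : List Bool → Bool) (T : Tm) (y : List Bool) : Bool :=
  (T.1 && (!O (fillT T y true) && O (fillT T y false))) ||
    (!T.1 && (O (fillT T y true) && !O (fillT T y false)))

/-- The vote of the templates: the sum of the values is negative. -/
def vote (O : List Bool → Bool) (ts : List Tm) (y : List Bool) : Bool :=
  decide ((ts.filter (fun T => pls O T y)).length < (ts.filter (fun T => mns O T y)).length)

/-- The blocks chosen by the bits of `z`. -/
def point (bl : List (List Bool × List Bool)) (z : List Bool) : List Bool :=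
  (z.foldl (fun (st : List (List Bool × List Bool) × List Bool) (c : Bool) =>
    (st.1.tail, st.2 ++ if c = true then (st.1.getD 0 ([], [])).2
      else (st.1.getD 0 ([], [])).1)) (bl, [])).2

/-- The contribution of a row: that of the first candidate which is voted for. -/
def contrib (O : List Bool → Bool) (ts : List Tm) (z : List Bool) (row : Row) : ℕ :=
  ((row.2.filter (fun c => vote O ts (point row.1 z ++ c.1))).getD 0 ([], 0)).2

/-- Addition modulo `p`. -/
def addm (p s a : ℕ) : ℕ := if p ≤ s + a then s + a - p else s + a

/-- The value given by a sample. -/
def decS (O : List Bool → Bool) (ts : List Tm) (p : ℕ) (z : List Bool) (rows : List Row) : Bool :=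
  decide (rows.foldl (fun s row => addm p s (contrib O ts z row)) 0 = 1)

/-- The algorithm: majority of the samples. -/
def alg (O : List Bool → Bool) (adv : Adv) (z : List Bool) : Bool :=
  decide (adv.2.2.length < 2 * (adv.2.2.filter (fun rows => decS O adv.1 adv.2.1 z rows)).length)

/-- The list of all queries. -/
def qs (adv : Adv) (z : List Bool) : List (List Bool) :=
  adv.2.2.flatMap fun rows => rows.flatMap fun row => row.2.flatMap fun c =>
    adv.1.flatMap fun T => [fillT T (point row.1 z ++ c.1) true,
      fillT T (point row.1 z ++ c.1) false]

/-! ### The generator -/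

/-- Numbers of bits of a block for a coordinate, of a value. -/
def bN (N : ℕ) : ℕ := 2 * lg N + 4
def vN (N : ℕ) : ℕ := lg N + 2
/-- Number of bits of a point with a value. -/
def mN (N : ℕ) : ℕ := N * bN N + vN N
/-- The inverse of the admissible error. -/
def dN (N : ℕ) : ℕ := 12 * (N + 1) * 2 ^ vN N

/-- The hard bit: the multilinear extension of `f` modulo `p` at the point with the residues of the
first `N` blocks of `y` has the value given by the last block of `y`. -/
def gbit (p N : ℕ) (f : (Fin N → Bool) → Bool) (y : List Bool) : Bool :=
  decide ((mle p f (fun i : Fin N => ((msb ((y.drop (i * bN N)).take (bN N)) : ℕ) : ZMod p))).val =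
    msb (y.drop (N * bN N)))

/-- The sum modulo 2 of the hard bits of `k'` consecutive blocks. -/
def xbit (p N k' : ℕ) (f : (Fin N → Bool) → Bool) (ys : List Bool) : Bool :=
  (List.range k').foldl (fun s i => xor s (gbit p N f ((ys.drop (i * mN N)).take (mN N)))) false

/-- The generator: the seed followed by `k` bits. -/
def gen (p N k : ℕ) (f : (Fin N → Bool) → Bool) (ys : List Bool) : List Bool :=
  ys ++ (List.range k).map (fun j => xbit p N (k * dN N) f (ys.drop (j * (k * dN N * mN N))))

/-- The length of the seed. -/
def sN (N k : ℕ) : ℕ := k * (k * dN N * mN N)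

end Pool.Agent.Lib.MP_33f9c4_lc.Qt
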