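import Pool.Agent.Lib.MP_33f9c4_lc.Defs
import Pool.Agent.Lib.MP_33f9c4_lc.QDefs

/-!
# EXP, polynomial time with an oracle: definitions
-/

namespace Pool.Agent.Lib.MP_33f9c4_lc

open Turing

/-- The function `f` on strings is computable in polynomial time. -/
def PolyTimeFn (f : List Bool → List Bool) : Prop :=
  Nonempty (TM2ComputableInPolyTime (id : List Bool → List Bool) (id : List Bool → List Bool) f)

open Classical in
/-- The language `L` is decided in time `2 ^ p(n)` for a polynomial `p`. -/
def InEXP (L : Set (List Bool)) : Prop :=
  ∃ (M : Machine) (p : Polynomial ℕ), ∀ x : List Bool,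
    Outputs M x [decide (x ∈ L)] (2 ^ p.eval x.length)

open Classical in
/-- The states of an oracle computation with oracle `A` on the input `x`: in each round the string
`qry s` is looked up in the oracle, where `s` is the present state, and `next` computes the new state
from the answer and the old state. -/
noncomputable def orun (A : Set (List Bool)) (start next qry : List Bool → List Bool)
    (x : List Bool) : ℕ → List Bool
  | 0 => start x
  | i + 1 => next (decide (qry (orun A start next qry x i) ∈ A) :: orun A start next qry x i)

open Classical in
/-- The language `L` is decided in polynomial time with the oracle `A`: polynomial-time functions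
`start`, `next`, `qry` such that after polynomially many rounds, through states of polynomial
length, the first bit of the state tells whether `x` belongs to `L`. -/
def InPRel (A L : Set (List Bool)) : Prop :=
  ∃ start next qry : List Bool → List Bool, PolyTimeFn start ∧ PolyTimeFn next ∧
    PolyTimeFn qry ∧ ∃ q : Polynomial ℕ, ∀ x : List Bool,
      (∀ i ≤ q.eval x.length, (orun A start next qry x i).length ≤ q.eval x.length) ∧
      (orun A start next qry x (q.eval x.length)).head? = some (decide (x ∈ L))

namespace Qt

open Pool.Agent.Lib.PolyTime Function

/-- Types with a polynomial time decoding. -/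
class Cdc (α : Type) [Enc α] : Prop where
  ex : ∃ f : BT → α, PT f ∧ ∀ a, f (enc a) = a

/-- Simulation by `U` with logarithmic cost in the time. -/
def Sim (U : Machine) : Prop :=
  ∀ M : Machine, ∃ a : ℕ, ∀ (d x : List Bool) (t : ℕ), Outputs M d x t →
    Kt U x ≤ d.length + a * Real.logb 2 (d.length + x.length + t + 2)

/-- The rank of a string of length `k` among the successors of the string of `k` zeros, if it is at
most `n` (otherwise `0`). -/
def rank (n : ℕ) (u : List Bool) : ℕ :=
  ((List.range (n + 1)).filter
    (fun j => decide (nxt^[j] (List.replicate u.length false) = u))).getD 0 0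

/-- The two numbers coded at the end of the string `x`. -/
def idx (x : List Bool) : ℕ × ℕ :=
  (rank x.length ((parse (x.drop (x.length - 2 * lg x.length)).tail).2.take
      ((parse (x.drop (x.length - 2 * lg x.length)).tail).2.length / 2)),
    rank x.length (((parse (x.drop (x.length - 2 * lg x.length)).tail).2.drop
      ((parse (x.drop (x.length - 2 * lg x.length)).tail).2.length / 2)).take
      ((parse (x.drop (x.length - 2 * lg x.length)).tail).2.length / 2)))

open Classical in
/-- The advice `adv` is correct for all strings of length `N`. -/
noncomputable def goodA (R L : Set (List Bool)) (adv : Adv) (N : ℕ) : Bool :=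
  decide (∀ z : List Bool, z.length = N → alg (fun x => decide (x ∈ R)) adv z = decide (z ∈ L))

/-- The first correct advice string of length `A.eval N`. -/
noncomputable def wgood (R L : Set (List Bool)) (dc : List Bool → Adv) (A : Polynomial ℕ)
    (N : ℕ) : List Bool :=
  (((List.range (2 ^ A.eval N)).map (fun j => nxt^[j] (List.replicate (A.eval N) false))).filter
    (fun w => goodA R L (dc w) N)).getD 0 []

/-- The queries by which the string `Y (n + 1)` is found. -/
def qA (Yn : List Bool) (n i : ℕ) : List Bool :=
  Yn ++ (false :: nxt^[i] (List.replicate (2 * lg n - 1) false))

/-- The queries by which the advice is found; `c` is the code of a table. -/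
def qB (c Yn : List Bool) (n N i : ℕ) : List Bool :=
  Yn ++ (true :: (c ++ (nxt^[N] (List.replicate ((2 * lg n - 1 - c.length) / 2) false) ++
    (nxt^[i] (List.replicate ((2 * lg n - 1 - c.length) / 2) false) ++
      List.replicate (2 * lg n - 1 - c.length - 2 * ((2 * lg n - 1 - c.length) / 2)) false))))

end Qt

end Pool.Agent.Lib.MP_33f9c4_lc
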