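import Pool.Agent.Lib.MP_33f9c4_lc.Status2
import Pool.Agent.Lib.MP_33f9c4_lc.QDefs2

/-!
# The choice of the lengths
-/

namespace Pool.Agent.Lib.MP_33f9c4_lc.Qt

open Pool.Agent.Lib.PolyTime Function Finset Ef

theorem choose_nm (Q E A : Polynomial ℕ) (c l n1 : ℕ) (hc : 0 < c) :
    ∃ (nm : Polynomial ℕ) (N0 : ℕ), ∀ N ≥ N0, n1 ≤ nm.eval N ∧
      Q.eval (nm.eval N + 2 ^ E.eval N) ≤ 2 ^ (nm.eval N / c) ∧
      l + 1 ≤ 2 * lg (nm.eval N) ∧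
      N < 2 ^ ((2 * lg (nm.eval N) - 1 - l) / 2) ∧
      A.eval N < 2 ^ ((2 * lg (nm.eval N) - 1 - l) / 2) ∧
      N ≤ nm.eval N ∧ A.eval N ≤ nm.eval N := by
  obtain ⟨AQ, κ, hQ⟩ := eval_le_pow Q
  obtain ⟨n2, hn2⟩ := asym_poly (Polynomial.C AQ * (Polynomial.X + 2) ^ κ) (2 * c) (by omega)
  obtain ⟨C, hC⟩ : ∃ C, C = 2 ^ (l + 2) + 2 * c * κ + 1 := ⟨_, rfl⟩
  refine ⟨Polynomial.C C * (E + Polynomial.X + A + 1), n1 + n2, fun N hN => ?_⟩
  simp only [Polynomial.eval_mul, Polynomial.eval_add, Polynomial.eval_C, Polynomial.eval_X,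
    Polynomial.eval_one]
  obtain ⟨e, he⟩ : ∃ e, e = E.eval N := ⟨_, rfl⟩
  obtain ⟨a, ha⟩ : ∃ a, a = A.eval N := ⟨_, rfl⟩
  obtain ⟨n, hn⟩ : ∃ n, n = C * (e + N + a + 1) := ⟨_, rfl⟩
  rw [← he, ← ha, ← hn]
  have hp : 0 < 2 ^ (l + 2) := by positivity
  have hC1 : e + N + a + 1 ≤ n := by
    rw [hn]; exact Nat.le_mul_of_pos_left _ (by omega)
  have hC2 : 2 * c * κ * e ≤ n := by
    rw [hn]
    exact Nat.mul_le_mul (by omega) (by omega)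
  have hC3 : 2 ^ (l + 2) * (N + a + 1) ≤ n := by
    rw [hn]
    exact Nat.mul_le_mul (by omega) (by omega)
  have hlt := lt_lg n
  have hlg : l + 1 ≤ lg n := by
    refine le_lg ?_
    have h1 : 2 ^ (l + 2) * 1 ≤ 2 ^ (l + 2) * (N + a + 1) := Nat.mul_le_mul_left _ (by omega)
    have h2 : 2 ^ (l + 1) ≤ 2 ^ (l + 2) := Nat.pow_le_pow_right (by norm_num) (by omega)
    omega
  have hh : lg n ≤ (2 * lg n - 1 - l) / 2 + (l + 1) := by omega
  have h2h : N + a < 2 ^ ((2 * lg n - 1 - l) / 2) := by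
    by_contra hcon
    have h3 : 2 ^ (lg n + 1) ≤ 2 ^ ((2 * lg n - 1 - l) / 2) * 2 ^ (l + 2) := by
      rw [← pow_add]
      exact Nat.pow_le_pow_right (by norm_num) (by omega)
    have h4 : 2 ^ ((2 * lg n - 1 - l) / 2) * 2 ^ (l + 2) ≤ (N + a) * 2 ^ (l + 2) :=
      Nat.mul_le_mul_right _ (by omega)
    have h5 : 2 ^ (l + 2) * (N + a + 1) = (N + a) * 2 ^ (l + 2) + 2 ^ (l + 2) := by ring
    omega
  refine ⟨by omega, ?_, by omega, by omega, by omega, by omega, by omega⟩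
  -- the time bound
  have h1 := hn2 n (by omega)
  simp only [Polynomial.eval_mul, Polynomial.eval_C, Polynomial.eval_pow, Polynomial.eval_add,
    Polynomial.eval_X, Polynomial.eval_ofNat] at h1
  have h2 : n + 2 ^ e + 1 ≤ (n + 2) * 2 ^ e := by
    have : 1 ≤ 2 ^ e := Nat.one_le_two_pow
    nlinarith
  have h3 : (2 ^ e) ^ κ ≤ 2 ^ (n / (2 * c)) := by
    rw [← pow_mul]
    refine Nat.pow_le_pow_right (by norm_num) ?_
    rw [Nat.le_div_iff_mul_le (by omega)]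
    calc e * κ * (2 * c) = 2 * c * κ * e := by ring
      _ ≤ n := hC2
  calc Q.eval (n + 2 ^ e) ≤ AQ * (n + 2 ^ e + 1) ^ κ := hQ _
    _ ≤ AQ * ((n + 2) * 2 ^ e) ^ κ := Nat.mul_le_mul_left _ (Nat.pow_le_pow_left h2 κ)
    _ = (AQ * (n + 2) ^ κ) * (2 ^ e) ^ κ := by rw [Nat.mul_pow]; ring
    _ ≤ 2 ^ (n / (2 * c)) * 2 ^ (n / (2 * c)) := Nat.mul_le_mul h1.le h3
    _ = 2 ^ (n / (2 * c) + n / (2 * c)) := by rw [pow_add]
    _ ≤ 2 ^ (n / c) := by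
        refine Nat.pow_le_pow_right (by norm_num) ?_
        rw [Nat.le_div_iff_mul_le hc]
        have := Nat.div_mul_le_self n (2 * c)
        calc (n / (2 * c) + n / (2 * c)) * c = n / (2 * c) * (2 * c) := by ring
          _ ≤ n := this

end Pool.Agent.Lib.MP_33f9c4_lc.Qt
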