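import Pool.Agent.Lib.MP_33f9c4_lc.Search

/-!
# Counting the cheap descriptions
-/

namespace Pool.Agent.Lib.MP_33f9c4_lc

open Pool.Agent.Lib.PolyTime Function Finset

theorem lg_mono {s t : ℕ} (h : s ≤ t) : lg s ≤ lg t := by
  have h1 := lg_le s
  have h2 := lt_lg t
  have h3 : 2 ^ lg s < 2 ^ (lg t + 1) := by omega
  have h4 := (Nat.pow_lt_pow_iff_right (a := 2) (by norm_num)).mp h3
  omega

theorem le_lg {s k : ℕ} (h : 2 ^ k ≤ s + 1) : k ≤ lg s := by
  have h2 := lt_lg s
  have h3 : 2 ^ k < 2 ^ (lg s + 1) := by omega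
  have h4 := (Nat.pow_lt_pow_iff_right (a := 2) (by norm_num)).mp h3
  omega

theorem lg_lt {s k : ℕ} (h : s + 1 < 2 ^ k) : lg s < k := by
  have h2 := lg_le s
  have h3 : 2 ^ lg s < 2 ^ k := by omega
  exact (Nat.pow_lt_pow_iff_right (a := 2) (by norm_num)).mp h3

theorem lg_two_pow_sub_one (k : ℕ) : lg (2 ^ k - 1) = k := by
  have h0 : 0 < 2 ^ k := by positivity
  have h1 : k ≤ lg (2 ^ k - 1) := le_lg (by omega)
  have h2 : lg (2 ^ k - 1) < k + 1 := lg_lt (by rw [pow_succ]; omega)
  omega

theorem lg_nval (e : List Bool) : lg (nval e) = e.length := by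
  unfold lg
  rw [nxt_iter_nval]

theorem test_of_lt_scn {B n k : ℕ} (hk : k < scn B n) :
    test B n (lg k) (lg k + n + 1) = true := by
  have := Nat.find_min (exists_test_false B n) hk
  simpa using this

theorem test_scn (B n : ℕ) : test B n (lg (scn B n)) (lg (scn B n) + n + 1) = false :=
  Nat.find_spec (exists_test_false B n)

theorem nval_lt_scn {B n : ℕ} {e : List Bool}
    (h : test B n e.length (e.length + n + 1) = true) : nval e < scn B n := by
  by_contra hcon
  have h1 : lg (scn B n) ≤ e.length := by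
    rw [← lg_nval e]
    exact lg_mono (not_lt.mp hcon)
  have h2 := test_scn B n
  have h3 : lg (lg (scn B n) + n + 1) ≤ lg (e.length + n + 1) := lg_mono (by omega)
  have h4 : B * lg (lg (scn B n) + n + 1) ≤ B * lg (e.length + n + 1) :=
    Nat.mul_le_mul_left B h3
  simp only [test, decide_eq_false_iff_not, decide_eq_true_eq] at h h2
  omega

/-- `scn` is at most `2 ^ n - 1` (every scanned description is shorter than `n`). -/
theorem scn_lt (B n : ℕ) : scn B n < 2 ^ n := by
  have h0 : 0 < 2 ^ n := by positivity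
  have h : scn B n ≤ 2 ^ n - 1 := by
    refine Nat.find_min' (exists_test_false B n) ?_
    rw [lg_two_pow_sub_one]
    simp only [test, decide_eq_false_iff_not]
    omega
  omega

theorem scn_lt_pow {B n k : ℕ} (hk : k ≤ n) (hB : k ≤ B * lg (n + 1)) :
    scn B n < 2 ^ (n - k) := by
  have h0 : 0 < 2 ^ (n - k) := by positivity
  have h : scn B n ≤ 2 ^ (n - k) - 1 := by
    refine Nat.find_min' (exists_test_false B n) ?_
    rw [lg_two_pow_sub_one]
    simp only [test, decide_eq_false_iff_not]
    have h1 : lg (n + 1) ≤ lg (n - k + n + 1) := lg_mono (by omega)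
    have h2 : B * lg (n + 1) ≤ B * lg (n - k + n + 1) := Nat.mul_le_mul_left _ h1
    omega
  omega

theorem cnt_le (B n : ℕ) (v : List Bool) : cnt B n v ≤ scn B n := by
  classical
  unfold cnt
  refine (Finset.card_filter_le _ _).trans ?_
  rw [card_range]

theorem Halts.unique {c : Cfg} {s s' : ℕ} (h : Halts c s) (h' : Halts c s') : s = s' := by
  rcases lt_trichotomy s s' with h1 | h1 | h1
  · have := h'.1 s h1
    rw [h.2] at this
    cases this
  · exact h1
  · have := h.1 s' h1
    rw [h'.2] at this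
    cases this

theorem Hp.of_prefix {B n : ℕ} {u v e : List Bool} (h : Hp B n v e) (huv : u <+: v) :
    Hp B n u e := by
  obtain ⟨s, h1, h2, h3, h4⟩ := h
  exact ⟨s, h1, h2, h3, huv.trans h4⟩

theorem Hp.not_both {B n : ℕ} {u e : List Bool} (h : Hp B n (u ++ [true]) e)
    (h' : Hp B n (u ++ [false]) e) : False := by
  obtain ⟨s, h1, _, _, h4⟩ := h
  obtain ⟨s', h1', _, _, h4'⟩ := h'
  have := h1.unique h1'
  subst this
  have h5 := List.prefix_of_prefix_length_le h4 h4' (by simp)
  have h6 := h5.eq_of_length (by simp)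
  simp at h6

theorem cnt_add_le (B n : ℕ) (u : List Bool) :
    cnt B n (u ++ [true]) + cnt B n (u ++ [false]) ≤ cnt B n u := by
  classical
  unfold cnt
  rw [← Finset.card_union_of_disjoint]
  · apply Finset.card_le_card
    intro k hk
    rw [mem_union, mem_filter, mem_filter] at hk
    rw [mem_filter]
    rcases hk with hk | hk
    · exact ⟨hk.1, hk.2.of_prefix (List.prefix_append _ _)⟩
    · exact ⟨hk.1, hk.2.of_prefix (List.prefix_append _ _)⟩
  · rw [Finset.disjoint_left]
    intro k hk hk'
    rw [mem_filter] at hk hk'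
    exact hk.2.not_both hk'.2

theorem cnt_ext (B n : ℕ) (u : List Bool) : 2 * cnt B n (ext B n u) ≤ cnt B n u := by
  have h := cnt_add_le B n u
  unfold ext
  by_cases hlt : cnt B n (u ++ [true]) < cnt B n (u ++ [false])
  · rw [decide_eq_true hlt]; omega
  · rw [decide_eq_false hlt]; omega

theorem length_ext_iter (B n : ℕ) (u : List Bool) (j : ℕ) :
    ((ext B n)^[j] u).length = u.length + j := by
  induction j with
  | zero => rfl
  | succ j ih =>
    rw [iterate_succ_apply']
    simp only [ext, List.length_append, List.length_singleton] at ih ⊢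
    omega

theorem prefix_ext_iter (B n : ℕ) (u : List Bool) (j : ℕ) : u <+: (ext B n)^[j] u := by
  induction j with
  | zero => exact List.prefix_refl _
  | succ j ih =>
    rw [iterate_succ_apply']
    exact ih.trans (List.prefix_append _ _)

theorem length_ufin (B : ℕ) {w : List Bool} (hw : w.length ≤ tlen w) :
    (ufin B w).length = tlen w := by
  unfold ufin
  rw [length_ext_iter]
  omega

theorem ufin_of_lt (B : ℕ) {w : List Bool} (hw : tlen w ≤ w.length) : ufin B w = w := by
  unfold ufin
  rw [Nat.sub_eq_zero_of_le hw]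
  rfl

theorem prefix_ufin (B : ℕ) (w : List Bool) : w <+: ufin B w :=
  prefix_ext_iter _ _ _ _

theorem cnt_ext_iter (B n : ℕ) (u : List Bool) (j : ℕ) :
    2 ^ j * cnt B n ((ext B n)^[j] u) ≤ cnt B n u := by
  induction j with
  | zero => simp
  | succ j ih =>
    rw [iterate_succ_apply']
    have h := cnt_ext B n ((ext B n)^[j] u)
    calc 2 ^ (j + 1) * cnt B n (ext B n ((ext B n)^[j] u))
        = 2 ^ j * (2 * cnt B n (ext B n ((ext B n)^[j] u))) := by ring
      _ ≤ 2 ^ j * cnt B n ((ext B n)^[j] u) := Nat.mul_le_mul_left _ h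
      _ ≤ cnt B n u := ih

theorem cnt_ufin {B : ℕ} {w : List Bool} (hw : w.length ≤ tlen w)
    (hB : w.length ≤ B * lg (tlen w + 1)) : cnt B (tlen w) (ufin B w) = 0 := by
  by_contra hne
  have h1 := cnt_ext_iter B (tlen w) w (tlen w - w.length)
  have h2 := cnt_le B (tlen w) w
  have h3 := scn_lt_pow hw hB
  have h4 : 2 ^ (tlen w - w.length) * 1 ≤
      2 ^ (tlen w - w.length) * cnt B (tlen w) (ufin B w) :=
    Nat.mul_le_mul_left _ (by omega)
  unfold ufin at h4
  omega

/-- The string found has no cheap description. -/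
theorem not_hp_ufin {B : ℕ} {w : List Bool} (hw : w.length ≤ tlen w)
    (hB : w.length ≤ B * lg (tlen w + 1)) (e : List Bool) :
    ¬ Hp B (tlen w) (ufin B w) e := by
  classical
  intro h
  have h0 := cnt_ufin hw hB
  unfold cnt at h0
  rw [Finset.card_eq_zero] at h0
  have h1 : nval e < scn B (tlen w) := by
    obtain ⟨s, _, h2, _, _⟩ := h
    exact nval_lt_scn (h2 0 (Nat.zero_le _))
  have h2 : nval e ∈ (range (scn B (tlen w))).filter
      (fun k => Hp B (tlen w) (ufin B w) (nxt^[k] [])) := by
    rw [mem_filter, mem_range]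
    refine ⟨h1, ?_⟩
    rw [nxt_iter_nval]
    exact h
  rw [h0] at h2
  simp at h2

theorem sum_lg_eq (n : ℕ) : ∑ k ∈ range (2 ^ n - 1), 2 ^ (n - lg k) = n * 2 ^ n := by
  induction n with
  | zero => simp
  | succ n ih =>
    have h0 : 0 < 2 ^ n := by positivity
    have e : 2 ^ (n + 1) - 1 = (2 ^ n - 1) + 2 ^ n := by rw [pow_succ]; omega
    rw [e, Finset.sum_range_add]
    have h1 : ∑ k ∈ range (2 ^ n - 1), 2 ^ (n + 1 - lg k) =
        2 * ∑ k ∈ range (2 ^ n - 1), 2 ^ (n - lg k) := by
      rw [mul_sum]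
      refine sum_congr rfl fun k hk => ?_
      have hk' : lg k < n := lg_lt (by have := mem_range.mp hk; omega)
      have : n + 1 - lg k = (n - lg k) + 1 := by omega
      rw [this, pow_succ]
      ring
    have h2 : ∑ k ∈ range (2 ^ n), 2 ^ (n + 1 - lg (2 ^ n - 1 + k)) = 2 ^ n * 2 := by
      rw [← smul_eq_mul, ← card_range (2 ^ n), ← sum_const, card_range]
      refine sum_congr rfl fun k hk => ?_
      have hk1 := mem_range.mp hk
      have h3 : n ≤ lg (2 ^ n - 1 + k) := le_lg (by omega)
      have h4 : lg (2 ^ n - 1 + k) < n + 1 := lg_lt (by rw [pow_succ]; omega)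
      have : n + 1 - lg (2 ^ n - 1 + k) = 1 := by omega
      rw [this, pow_one]
    rw [h1, h2, ih, pow_succ]
    ring

/-- The sum over all strings of length less than `n`. -/
theorem sum_lg_le (n K : ℕ) (hK : K < 2 ^ n) : ∑ k ∈ range K, 2 ^ (n - lg k) ≤ n * 2 ^ n := by
  rw [← sum_lg_eq]
  apply Finset.sum_le_sum_of_subset
  intro k hk
  rw [mem_range] at hk ⊢
  omega

end Pool.Agent.Lib.MP_33f9c4_lc
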