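import Pool.Agent.Lib.MP_33f9c4_lc.Search2

/-!
# Counting the cheap descriptions, second version
-/

namespace Pool.Agent.Lib.MP_33f9c4_lc.Ef

open Pool.Agent.Lib.PolyTime Function Finset

theorem scn_lt (B n : ℕ) : scn B n < 2 ^ (n - B * lg n) := by
  have h0 : 0 < 2 ^ (n - B * lg n) := by positivity
  unfold scn
  omega

theorem nval_lt_scn {B n : ℕ} {e : List Bool} (h : B * lg n + e.length < n) :
    nval e < scn B n := by
  have h1 := nval_lt_length e
  have h2 : 2 ^ (e.length + 1) ≤ 2 ^ (n - B * lg n) :=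
    Nat.pow_le_pow_right (by norm_num) (by omega)
  unfold scn
  omega

theorem lg_lt_of_lt_scn {B n k : ℕ} (hk : k < scn B n) : lg k < n - B * lg n := by
  apply lg_lt
  unfold scn at hk
  omega

theorem cnt_le (V : Tbl) (B n : ℕ) (v : List Bool) : cnt V B n v ≤ scn B n := by
  classical
  unfold cnt
  refine (Finset.card_filter_le _ _).trans ?_
  rw [card_range]

theorem Hp.of_prefix {V : Tbl} {B n : ℕ} {u v e : List Bool} (h : Hp V B n v e) (huv : u <+: v) :
    Hp V B n u e := by
  obtain ⟨h0, s, h1, h2, h3, h4⟩ := h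
  exact ⟨h0, s, h1, h2, h3, huv.trans h4⟩

theorem Hp.not_both {V : Tbl} {B n : ℕ} {u e : List Bool} (h : Hp V B n (u ++ [true]) e)
    (h' : Hp V B n (u ++ [false]) e) : False := by
  obtain ⟨_, s, h1, _, _, h4⟩ := h
  obtain ⟨_, s', h1', _, _, h4'⟩ := h'
  have := h1.unique h1'
  subst this
  have h5 := List.prefix_of_prefix_length_le h4 h4' (by simp)
  have h6 := h5.eq_of_length (by simp)
  simp at h6

theorem cnt_add_le (V : Tbl) (B n : ℕ) (u : List Bool) :
    cnt V B n (u ++ [true]) + cnt V B n (u ++ [false]) ≤ cnt V B n u := by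
  classical
  unfold cnt
  rw [← Finset.card_union_of_disjoint]
  · apply Finset.card_le_card
    intro k hk
    rw [mem_union, mem_filter, mem_filter] at hk
    rw [mem_filter]
    rcases hk with hk | hk
    · exact ⟨hk.1, hk.2.of_prefix (List.prefix_append _ _)⟩
    · exact ⟨hk.1, hk.2.of_prefix (List.prefix_append _ _)⟩
  · rw [Finset.disjoint_left]
    intro k hk hk'
    rw [mem_filter] at hk hk'
    exact hk.2.not_both hk'.2

theorem cnt_ext (V : Tbl) (B n : ℕ) (u : List Bool) :
    2 * cnt V B n (ext V B n u) ≤ cnt V B n u := by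
  have h := cnt_add_le V B n u
  unfold ext
  by_cases hlt : cnt V B n (u ++ [true]) < cnt V B n (u ++ [false])
  · rw [decide_eq_true hlt]; omega
  · rw [decide_eq_false hlt]; omega

theorem length_ext_iter (V : Tbl) (B n : ℕ) (u : List Bool) (j : ℕ) :
    ((ext V B n)^[j] u).length = u.length + j := by
  induction j with
  | zero => rfl
  | succ j ih =>
    rw [iterate_succ_apply']
    simp only [ext, List.length_append, List.length_singleton] at ih ⊢
    omega

theorem length_Y (V : Tbl) (B n : ℕ) : (Y V B n).length = n - 2 * lg n := by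
  unfold Y
  rw [length_ext_iter]
  simp

theorem cnt_ext_iter (V : Tbl) (B n : ℕ) (u : List Bool) (j : ℕ) :
    2 ^ j * cnt V B n ((ext V B n)^[j] u) ≤ cnt V B n u := by
  induction j with
  | zero => simp
  | succ j ih =>
    rw [iterate_succ_apply']
    have h := cnt_ext V B n ((ext V B n)^[j] u)
    calc 2 ^ (j + 1) * cnt V B n (ext V B n ((ext V B n)^[j] u))
        = 2 ^ j * (2 * cnt V B n (ext V B n ((ext V B n)^[j] u))) := by ring
      _ ≤ 2 ^ j * cnt V B n ((ext V B n)^[j] u) := Nat.mul_le_mul_left _ h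
      _ ≤ cnt V B n u := ih

theorem cnt_Y {V : Tbl} {B n : ℕ} (hB : 2 ≤ B) : cnt V B n (Y V B n) = 0 := by
  by_contra hne
  have h1 := cnt_ext_iter V B n [] (n - 2 * lg n)
  have h2 := cnt_le V B n []
  have h3 := scn_lt B n
  have h4 : 2 ^ (n - 2 * lg n) * 1 ≤ 2 ^ (n - 2 * lg n) * cnt V B n (Y V B n) :=
    Nat.mul_le_mul_left _ (by omega)
  have h5 : 2 * lg n ≤ B * lg n := Nat.mul_le_mul_right _ hB
  have h6 : 2 ^ (n - B * lg n) ≤ 2 ^ (n - 2 * lg n) :=
    Nat.pow_le_pow_right (by norm_num) (by omega)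
  unfold Y at h4
  omega

/-- No string extending `Y V B n` has a cheap description. -/
theorem not_hp_Y {V : Tbl} {B n : ℕ} (hB : 2 ≤ B) (e : List Bool) :
    ¬ Hp V B n (Y V B n) e := by
  classical
  intro h
  have h0 := cnt_Y (V := V) (n := n) hB
  unfold cnt at h0
  rw [Finset.card_eq_zero] at h0
  have h1 : nval e < scn B n := nval_lt_scn h.1
  have h2 : nval e ∈ (range (scn B n)).filter
      (fun k => Hp V B n (Y V B n) (nxt^[k] [])) := by
    rw [mem_filter, mem_range]
    refine ⟨h1, ?_⟩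
    rw [nxt_iter_nval]
    exact h
  rw [h0] at h2
  simp at h2

theorem sum_lg_scn_le (B n : ℕ) :
    ∑ k ∈ range (scn B n), 2 ^ (n - B * lg n - lg k) ≤ n * 2 ^ (n - B * lg n) := by
  refine (sum_lg_le (n - B * lg n) (scn B n) (scn_lt B n)).trans ?_
  exact Nat.mul_le_mul_right _ (Nat.sub_le _ _)

end Pool.Agent.Lib.MP_33f9c4_lc.Ef
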