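import Pool.Agent.Lib.MP_33f9c4_lc.Defs
import Pool.Agent.Lib.PolyTime
import Mathlib.Algebra.BigOperators.Intervals

/-!
# While loops over polynomial time functions as Turing machines, with time bounds on both sides
-/

namespace Pool.Agent.Lib.MP_33f9c4_lc

open Pool.Agent.Lib.PolyTime Turing Function

/-! ### Machines of programs -/

section

variable {K : Type} [Fintype K] [DecidableEq K]

/-- The machine of a program. -/
def progMachine (P : Prog K) (k₀ : K) : Machine where
  tm := P.machine k₀
  inputAlphabet := Equiv.refl Bool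
  outputAlphabet := Equiv.refl Bool

theorem init_eq (P : Prog K) (k₀ : K) (w : List Bool) :
    initList (P.machine k₀) (w.map (Equiv.refl Bool).invFun) =
      ⟨some (some (entry P)), none, single k₀ w⟩ := by
  unfold initList
  congr 1
  funext k
  by_cases hk : k₀ = k
  · subst hk
    simp [single, Prog.machine]
  · simp [single, Prog.machine]

theorem halt_eq (P : Prog K) (k₀ : K) (w : List Bool) :
    haltList (P.machine k₀) (w.map (Equiv.refl Bool).invFun) = ⟨none, none, single k₀ w⟩ := by
  unfold haltList
  congr 1
  funext k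
  by_cases hk : k₀ = k
  · subst hk
    simp [single, Prog.machine]
  · simp [single, Prog.machine]

theorem outputs_iff (P : Prog K) (k₀ : K) (d x : List Bool) (t : ℕ) :
    Outputs (progMachine P k₀) d x t ↔ ∃ n ≤ t, StepsTo (TM2.step (P.machine k₀).m)
      ⟨some (some (entry P)), none, single k₀ d⟩ ⟨none, none, single k₀ x⟩ n := by
  constructor
  · rintro ⟨h⟩
    refine ⟨h.steps, h.steps_le_m, ?_⟩
    have := h.evals_in_steps
    unfold StepsTo
    rw [← init_eq P k₀ d, ← halt_eq P k₀ x]
    exact this
  · rintro ⟨n, hn, h⟩
    refine ⟨{ steps := n, evals_in_steps := ?_, steps_le_m := hn }⟩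
    unfold StepsTo at h
    rw [← init_eq P k₀ d, ← halt_eq P k₀ x] at h
    exact h

theorem outputs_of_run {P : Prog K} {k₀ : K} {d x : List Bool} {t t' : ℕ}
    (h : Run P (single k₀ d) (single k₀ x) t) (ht : t + 1 ≤ t') :
    Outputs (progMachine P k₀) d x t' := by
  rw [outputs_iff]
  obtain ⟨v', hv⟩ := run_stepsTo (Λ := Option (Lbl P)) (P.machine k₀).m h some none
    (fun l => rfl) none
  exact ⟨t + 1, ht, hv.trans (StepsTo.single rfl)⟩

theorem stepsTo_unique {σ : Type*} {f : σ → Option σ} {a b c : σ} {m n : ℕ}
    (h : StepsTo f a b m) (hb : f b = none) (h' : StepsTo f a c n) : n ≤ m := by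
  by_contra hlt
  push Not at hlt
  obtain ⟨k, rfl⟩ := Nat.exists_eq_add_of_lt hlt
  unfold StepsTo at h h'
  have e : m + k + 1 = k + (1 + m) := by omega
  rw [e, iterate_add_apply, iterate_add_apply, h] at h'
  have e1 : (flip bind f)^[1] (some b) = none := hb
  rw [e1] at h'
  have e2 : ∀ k, (flip bind f)^[k] (none : Option σ) = none := by
    intro k
    induction k with
    | zero => rfl
    | succ k ih => rw [iterate_succ_apply]; exact ih
  rw [e2] at h'
  cases h'

theorem stepsTo_det {σ : Type*} {f : σ → Option σ} {a b c : σ} {m n : ℕ}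
    (h : StepsTo f a b m) (hb : f b = none) (h' : StepsTo f a c n) (hc : f c = none) : b = c := by
  have h1 := stepsTo_unique h hb h'
  have h2 := stepsTo_unique h' hc h
  have : m = n := le_antisymm h2 h1
  subst this
  unfold StepsTo at h h'
  rw [h] at h'
  exact Option.some.inj h'

theorem outputs_unique {P : Prog K} {k₀ : K} {d x y : List Bool} {t t' : ℕ}
    (h : Outputs (progMachine P k₀) d x t) (h' : Outputs (progMachine P k₀) d y t') : x = y := by
  rw [outputs_iff] at h h'
  obtain ⟨n, _, h⟩ := h
  obtain ⟨n', _, h'⟩ := h'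
  have := stepsTo_det h rfl h' rfl
  have e : single k₀ x = single k₀ y := congrArg TM2.Cfg.stk this
  have := congrFun e k₀
  rwa [single_self, single_self] at this

/-- The execution of `P` from the state `s` has at least `n` steps. -/
inductive Alive : Prog K → St K → ℕ → Prop
  | zero (P : Prog K) (s : St K) : Alive P s 0
  | seqL {P Q : Prog K} {s : St K} {n : ℕ} (h : Alive P s n) : Alive (.seq P Q) s n
  | seqR {P Q : Prog K} {s s' : St K} {t n : ℕ} (h : Run P s s' t) (h' : Alive Q s' n) :
      Alive (.seq P Q) s (t + n)
  | loopNext {k : K} {p : Option Bool → Bool} {P : Prog K} {s s' : St K} {t n : ℕ}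
      (hp : p (s k).head? = true) (h : Run P s s' t) (h' : Alive (.loop k p P) s' n) :
      Alive (.loop k p P) s (t + n + 1)

omit [Fintype K] in
theorem alive_stepsTo {Λ : Type} (M : Λ → MStmt K Λ) {P : Prog K} {s : St K} {n : ℕ}
    (h : Alive P s n) : ∀ (i : Lbl P → Λ) (e : Λ), (∀ l, M (i l) = stmt P i e l) →
    ∀ v : Option Bool, ∃ c, StepsTo (TM2.step M) ⟨some (i (entry P)), v, s⟩ c n := by
  induction h with
  | zero P s =>
    intro i e hM v
    exact ⟨_, StepsTo.refl _ _⟩
  | @seqL P Q s n _ ih =>
    intro i e hM v
    exact ih (fun l => i (Sum.inl l)) (i (Sum.inr (entry Q))) (fun l => by rw [hM]; rfl) v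
  | @seqR P Q s s' t n h _ ih =>
    intro i e hM v
    obtain ⟨v1, h1⟩ := run_stepsTo M h (fun l => i (Sum.inl l)) (i (Sum.inr (entry Q)))
      (fun l => by rw [hM]; rfl) v
    obtain ⟨c, h2⟩ := ih (fun l => i (Sum.inr l)) e (fun l => by rw [hM]; rfl) v1
    exact ⟨c, h1.trans h2⟩
  | @loopNext k p P s s' t n hp h _ ih =>
    intro i e hM v
    obtain ⟨v1, h1⟩ := run_stepsTo M h (fun l => i (some l)) (i none)
      (fun l => by rw [hM]; rfl) (s k).head?
    obtain ⟨c, h2⟩ := ih i e hM v1
    refine ⟨c, ?_⟩
    rw [Nat.add_comm]
    refine StepsTo.trans (StepsTo.single ?_) (h1.trans h2)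
    simp only [TM2.step, hM, stmt, TM2.stepAux, entry, hp, cond_true]

theorem alive_le {P : Prog K} {k₀ : K} {d x : List Bool} {t n : ℕ}
    (h : Outputs (progMachine P k₀) d x t) (h' : Alive P (single k₀ d) n) : n ≤ t := by
  rw [outputs_iff] at h
  obtain ⟨m, hm, h⟩ := h
  obtain ⟨c, hc⟩ := alive_stepsTo (Λ := Option (Lbl P)) (P.machine k₀).m h' some none
    (fun l => rfl) none
  exact (stepsTo_unique h rfl hc).trans hm

end

/-! ### Reading and writing strings -/

section

variable {K : Type} [DecidableEq K]

/-- Convert a raw string on `k` into the code of the list of its bits; `t` is auxiliary. -/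
def rdin (k t : K) : Prog K :=
  .seq (mv k t) (.seq (.push k false) (.loop t ne (.ite t isT
    (.seq (.pop t) (.seq (.push k false) (.seq (.push k false) (.seq (.push k true)
      (.push k true)))))
    (.seq (.pop t) (.seq (.push k false) (.push k true))))))

/-- Convert the code of a list of bits on `k` into the raw string; `t` is auxiliary. -/
def wrout (k t : K) : Prog K :=
  .seq (.loop k isT (.seq (.pop k) (.ite k isT
    (.seq (.pop k) (.seq (.pop k) (.seq (.pop k) (.push t true))))
    (.seq (.pop k) (.push t false))))) (.seq (.pop k) (mv t k))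

/-- The state with content `u` on `k` and content `v` on `t`. -/
def two (k t : K) (u v : List Bool) : St K := update (single k u) t v

theorem two_left {k t : K} (h : k ≠ t) (u v : List Bool) : two k t u v k = u := by
  rw [two, update_of_ne h, single_self]

theorem two_right (k t : K) (u v : List Bool) : two k t u v t = v := by
  rw [two, update_self]

theorem update_two_left {k t : K} (h : k ≠ t) (u v u' : List Bool) :
    update (two k t u v) k u' = two k t u' v := by
  funext x
  by_cases hx : x = k
  · subst hx; rw [update_self, two_left h]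
  · rw [update_of_ne hx]
    by_cases hx' : x = t
    · subst hx'; rw [two_right, two_right]
    · rw [two, two, update_of_ne hx', update_of_ne hx', single_ne hx, single_ne hx]

theorem update_two_right (k t : K) (u v v' : List Bool) :
    update (two k t u v) t v' = two k t u v' := by
  rw [two, two, update_idem]

theorem two_nil {k t : K} (h : k ≠ t) (u : List Bool) : two k t u [] = single k u := by
  funext x
  by_cases hx : x = t
  · subst hx; rw [two_right, single_ne (Ne.symm h)]
  · rw [two, update_of_ne hx]

theorem two_nil' {k t : K} (h : k ≠ t) (v : List Bool) : two k t [] v = single t v := by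
  funext x
  by_cases hx : x = t
  · subst hx; rw [two_right, single_self]
  · rw [two, update_of_ne hx, single_ne hx]
    by_cases hx' : x = k
    · subst hx'; rw [single_self]
    · rw [single_ne hx']

theorem run_push_left {k t : K} (h : k ≠ t) (b : Bool) (u v : List Bool) :
    Run (.push k b) (two k t u v) (two k t (b :: u) v) 1 := by
  have := Run.push k b (two k t u v)
  rwa [two_left h, update_two_left h] at this

theorem run_pop_left {k t : K} (h : k ≠ t) (b : Bool) (u v : List Bool) :
    Run (.pop k) (two k t (b :: u) v) (two k t u v) 1 := by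
  have := Run.pop k (two k t (b :: u) v)
  rwa [two_left h, update_two_left h, List.tail_cons] at this

theorem run_push_right {k t : K} (b : Bool) (u v : List Bool) :
    Run (.push t b) (two k t u v) (two k t u (b :: v)) 1 := by
  have := Run.push t b (two k t u v)
  rwa [two_right, update_two_right] at this

theorem run_pop_right {k t : K} (b : Bool) (u v : List Bool) :
    Run (.pop t) (two k t u (b :: v)) (two k t u v) 1 := by
  have := Run.pop t (two k t u (b :: v))
  rwa [two_right, update_two_right, List.tail_cons] at this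

theorem code_bool_true : code true = [true, false, false] := rfl
theorem code_bool_false : code false = [false] := rfl

theorem run_rdin_loop {k t : K} (h : k ≠ t) : ∀ (v : List Bool) (l : List Bool),
    ∃ τ, τ ≤ 7 * v.length + 1 ∧ Run (.loop t ne (.ite t isT
    (.seq (.pop t) (.seq (.push k false) (.seq (.push k false) (.seq (.push k true)
      (.push k true)))))
    (.seq (.pop t) (.seq (.push k false) (.push k true))))) (two k t (code l) v)
      (two k t (code (v.reverse ++ l)) []) τ := by
  intro v
  induction v with
  | nil =>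
    intro l
    refine ⟨1, by omega, .loopF ?_⟩
    rw [two_right]; rfl
  | cons b v ih =>
    intro l
    obtain ⟨τ, hτ, r⟩ := ih (b :: l)
    have e : (b :: v).reverse ++ l = v.reverse ++ b :: l := by simp
    rw [e]
    cases b with
    | true =>
      have r1 : Run (.ite t isT
        (.seq (.pop t) (.seq (.push k false) (.seq (.push k false) (.seq (.push k true)
          (.push k true)))))
        (.seq (.pop t) (.seq (.push k false) (.push k true)))) (two k t (code l) (true :: v))
          (two k t (code (true :: l)) v) 6 := by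
        refine .iteT (by rw [two_right]; rfl) ?_
        exact .seq (run_pop_right _ _ _) (.seq (run_push_left h _ _ _)
          (.seq (run_push_left h _ _ _) (.seq (run_push_left h _ _ _) (run_push_left h _ _ _))))
      exact ⟨_, by simp only [List.length_cons]; omega,
        .loopT (by rw [two_right]; rfl) r1 r⟩
    | false =>
      have r1 : Run (.ite t isT
        (.seq (.pop t) (.seq (.push k false) (.seq (.push k false) (.seq (.push k true)
          (.push k true)))))
        (.seq (.pop t) (.seq (.push k false) (.push k true)))) (two k t (code l) (false :: v))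
          (two k t (code (false :: l)) v) 4 := by
        refine .iteF (by rw [two_right]; rfl) ?_
        exact .seq (run_pop_right _ _ _) (.seq (run_push_left h _ _ _) (run_push_left h _ _ _))
      exact ⟨_, by simp only [List.length_cons]; omega,
        .loopT (by rw [two_right]; rfl) r1 r⟩

theorem run_rdin {k t : K} (h : k ≠ t) (d : List Bool) :
    ∃ τ, τ ≤ 11 * d.length + 3 ∧ Run (rdin k t) (single k d) (single k (code d)) τ := by
  have r1 := run_mv_single h d
  have r2 : Run (.push k false) (single t d.reverse) (two k t (code ([] : List Bool)) d.reverse)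
      1 := by
    have := run_push_left h false [] d.reverse
    rwa [two_nil' h] at this
  obtain ⟨τ, hτ, r3⟩ := run_rdin_loop h d.reverse []
  rw [List.reverse_reverse, List.append_nil, two_nil h] at r3
  refine ⟨_, ?_, .seq r1 (.seq r2 r3)⟩
  rw [List.length_reverse] at hτ
  omega

theorem run_wrout_loop {k t : K} (h : k ≠ t) : ∀ (l : List Bool) (v : List Bool),
    ∃ τ, τ ≤ 7 * l.length + 1 ∧ Run (.loop k isT (.seq (.pop k) (.ite k isT
    (.seq (.pop k) (.seq (.pop k) (.seq (.pop k) (.push t true))))
    (.seq (.pop k) (.push t false))))) (two k t (code l) v)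
      (two k t [false] (l.reverse ++ v)) τ := by
  intro l
  induction l with
  | nil =>
    intro v
    exact ⟨1, by omega, .loopF (by rw [two_left h]; rfl)⟩
  | cons b l ih =>
    intro v
    obtain ⟨τ, hτ, r⟩ := ih (b :: v)
    have e : (b :: l).reverse ++ v = l.reverse ++ b :: v := by simp
    rw [e]
    cases b with
    | true =>
      have r1 : Run (.seq (.pop k) (.ite k isT
        (.seq (.pop k) (.seq (.pop k) (.seq (.pop k) (.push t true))))
        (.seq (.pop k) (.push t false)))) (two k t (code (true :: l)) v)
          (two k t (code l) (true :: v)) 6 := by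
        have h0 : Run (.pop k) (two k t (code (true :: l)) v)
            (two k t (true :: false :: false :: code l) v) 1 := run_pop_left h _ _ _
        exact .seq h0 (.iteT (k := k) (p := isT) (by rw [two_left h]; rfl)
          (.seq (run_pop_left h _ _ _) (.seq (run_pop_left h _ _ _)
          (.seq (run_pop_left h _ _ _) (run_push_right _ _ _)))))
      exact ⟨_, by simp only [List.length_cons]; omega,
        .loopT (by rw [two_left h]; rfl) r1 r⟩
    | false =>
      have r1 : Run (.seq (.pop k) (.ite k isT
        (.seq (.pop k) (.seq (.pop k) (.seq (.pop k) (.push t true))))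
        (.seq (.pop k) (.push t false)))) (two k t (code (false :: l)) v)
          (two k t (code l) (false :: v)) 4 := by
        have h0 : Run (.pop k) (two k t (code (false :: l)) v)
            (two k t (false :: code l) v) 1 := run_pop_left h _ _ _
        exact .seq h0 (.iteF (k := k) (p := isT) (by rw [two_left h]; rfl)
          (.seq (run_pop_left h _ _ _) (run_push_right _ _ _)))
      exact ⟨_, by simp only [List.length_cons]; omega,
        .loopT (by rw [two_left h]; rfl) r1 r⟩

theorem run_wrout {k t : K} (h : k ≠ t) (l : List Bool) :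
    ∃ τ, τ ≤ 11 * l.length + 3 ∧ Run (wrout k t) (single k (code l)) (single k l) τ := by
  obtain ⟨τ, hτ, r1⟩ := run_wrout_loop h l []
  rw [two_nil h, List.append_nil] at r1
  have r2 := run_pop_left h false [] l.reverse
  rw [two_nil' h] at r2
  have r3 := run_mv_single (Ne.symm h) l.reverse
  rw [List.reverse_reverse, List.length_reverse] at r3
  exact ⟨_, by omega, .seq r1 (.seq r2 r3)⟩

end

/-! ### The loop -/

section

variable {S : Type} [Enc S]

theorem size_listBool (d : List Bool) : size d ≤ 4 * d.length + 1 := by
  induction d with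
  | nil => simp
  | cons b d ih =>
    rw [size_cons, List.length_cons]
    have : size b ≤ 3 := by cases b <;> simp [size]
    omega

/-- The body of the loop. -/
def body {K : Type} (k : K) (P : Prog K) : Prog K := .seq (.push k true) (.seq P (.pop k))

/-- The loop. -/
def lp {K : Type} (k : K) (P : Prog K) : Prog K := .loop k isT (body k P)

/-- The content of the main stack: flag and state. -/
def flg (fin : S → Bool) (x : S) : List Bool := code (!(fin x)) ++ code x

theorem run_body {K : Type} [DecidableEq K] {k : K} {P : Prog K} {g : S → S} {fin : S → Bool}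
    {T : Polynomial ℕ}
    (hP : ∀ x : Bool × S, ∃ t, t ≤ T.eval (size x) ∧
      Run P (single k (code x)) (single k (code (!(fin (g x.2)), g x.2))) t) (x : S)
    (hx : fin x = false) : ∃ t, 1 ≤ t ∧ t ≤ T.eval (size x + 4) + 2 ∧
      Run (body k P) (single k (flg fin x)) (single k (flg fin (g x))) t := by
  obtain ⟨t, ht, r⟩ := hP (true, x)
  have h1 : Run (.push k true) (single k (flg fin x)) (single k (code (true, x))) 1 := by
    have := Run.push k true (single k (flg fin x))
    rw [update_single, single_self] at this
    have e : true :: flg fin x = code (true, x) := by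
      rw [code_prod, flg, hx]; rfl
    rwa [e] at this
  have h3 : Run (.pop k) (single k (code (!(fin (g x)), g x))) (single k (flg fin (g x))) 1 := by
    have := Run.pop k (single k (code (!(fin (g x)), g x)))
    rw [update_single, single_self, code_prod, List.tail_cons] at this
    exact this
  refine ⟨_, ?_, ?_, .seq h1 (.seq r h3)⟩
  · omega
  · have e : size ((true, x) : Bool × S) = size x + 4 := by
      rw [size_prod]
      have : size true = 3 := rfl
      simp only [this]; omega
    rw [e] at ht
    omega

theorem run_lp {K : Type} [DecidableEq K] {k : K} {P : Prog K} {g : S → S} {fin : S → Bool}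
    {T : Polynomial ℕ}
    (hP : ∀ x : Bool × S, ∃ t, t ≤ T.eval (size x) ∧
      Run P (single k (code x)) (single k (code (!(fin (g x.2)), g x.2))) t) :
    ∀ (N : ℕ) (x : S), fin (g^[N] x) = true → (∀ i < N, fin (g^[i] x) = false) →
      ∃ t, t ≤ ∑ i ∈ Finset.range N, (T.eval (size (g^[i] x) + 4) + 3) + 1 ∧
      Run (lp k P) (single k (flg fin x)) (single k (flg fin (g^[N] x))) t := by
  intro N
  induction N with
  | zero =>
    intro x hx _
    refine ⟨1, by simp, .loopF ?_⟩
    rw [single_self, flg]
    simp only [iterate_zero, id_eq] at hx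
    rw [hx]
    rfl
  | succ N ih =>
    intro x hx hlt
    obtain ⟨t2, ht2, r2⟩ := ih (g x) (by rw [← iterate_succ_apply]; exact hx)
      (fun i hi => by rw [← iterate_succ_apply]; exact hlt (i + 1) (by omega))
    have hx0 : fin x = false := hlt 0 (by omega)
    obtain ⟨t1, _, ht1, r1⟩ := run_body hP x hx0
    rw [← iterate_succ_apply] at r2
    refine ⟨_, ?_, .loopT ?_ r1 r2⟩
    · rw [Finset.sum_range_succ']
      simp only [iterate_zero, id_eq]
      have e : ∀ i, g^[i + 1] x = g^[i] (g x) := fun i => iterate_succ_apply g i x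
      simp only [e]
      omega
    · rw [single_self, flg, hx0]
      rfl

theorem alive_lp {K : Type} [DecidableEq K] {k : K} {P : Prog K} {g : S → S} {fin : S → Bool}
    {T : Polynomial ℕ}
    (hP : ∀ x : Bool × S, ∃ t, t ≤ T.eval (size x) ∧
      Run P (single k (code x)) (single k (code (!(fin (g x.2)), g x.2))) t) :
    ∀ (N : ℕ) (x : S), (∀ i < N, fin (g^[i] x) = false) →
      ∃ n, N ≤ n ∧ Alive (lp k P) (single k (flg fin x)) n := by
  intro N
  induction N with
  | zero =>
    intro x _
    exact ⟨0, le_refl _, .zero _ _⟩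
  | succ N ih =>
    intro x hlt
    obtain ⟨n, hn, r2⟩ := ih (g x)
      (fun i hi => by rw [← iterate_succ_apply]; exact hlt (i + 1) (by omega))
    have hx0 : fin x = false := hlt 0 (by omega)
    obtain ⟨t1, _, _, r1⟩ := run_body hP x hx0
    refine ⟨_, ?_, .loopNext ?_ r1 r2⟩
    · omega
    · rw [single_self, flg, hx0]
      rfl

/-- While loops over polynomial time functions, as Turing machines. -/
theorem exists_loop {g : S → S} {fin : S → Bool} {out : S → List Bool} (hg : PT g)
    (hfin : PT fin) (hout : PT out) :
    ∃ T : Polynomial ℕ, ∀ init : List Bool → S, PT init →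
      ∃ (U : Machine) (T0 : Polynomial ℕ),
        (∀ (d : List Bool) (N : ℕ), fin (g^[N] (init d)) = true →
          (∀ i < N, fin (g^[i] (init d)) = false) →
          Outputs U d (out (g^[N] (init d))) (T0.eval d.length +
            ∑ i ∈ Finset.range (N + 1), T.eval (size (g^[i] (init d))))) ∧
        (∀ (d x : List Bool) (t : ℕ), Outputs U d x t → ∃ N ≤ t,
          fin (g^[N] (init d)) = true ∧ (∀ i < N, fin (g^[i] (init d)) = false) ∧
          x = out (g^[N] (init d))) := by
  have hG : PT (fun x : Bool × S => (!(fin (g x.2)), g x.2)) :=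
    (PT.not (hfin.comp (hg.comp PT.snd))).pair (hg.comp PT.snd)
  have hO : PT (fun x : Bool × S => out x.2) := hout.comp PT.snd
  obtain ⟨qO, hqO⟩ := hO.size_le
  obtain ⟨K2, _, _, P2, k2, T2, h2⟩ := hG
  obtain ⟨K3, _, _, P3, k3, T3, h3⟩ := hO
  have hPB : PB (fun z => T2.eval (z + 4) + 3 + (8 * (z + 4) + 2 + (T3.eval (z + 4) +
      (19 * qO.eval (z + 4) + 5))) + 2) :=
    ((((PB.comp T2 (PB.id.add (PB.const 4))).add (PB.const 3)).add
      ((((PB.const 8).mul (PB.id.add (PB.const 4))).add (PB.const 2)).add
        ((PB.comp T3 (PB.id.add (PB.const 4))).add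
        (((PB.const 19).mul (PB.comp qO (PB.id.add (PB.const 4)))).add (PB.const 5))))).add
      (PB.const 2))
  obtain ⟨T, hT⟩ := hPB
  refine ⟨T, fun init hinit => ?_⟩
  have hA : PT (fun d : List Bool => (!(fin (init d)), init d)) :=
    (PT.not (hfin.comp hinit)).pair hinit
  obtain ⟨qA, hqA⟩ := hA.size_le
  obtain ⟨K1, _, _, P1, k1, T1, h1⟩ := hA
  let i1 : K1 → K1 ⊕ (K2 ⊕ (K3 ⊕ Unit)) := Sum.inl
  let i2 : K2 → K1 ⊕ (K2 ⊕ (K3 ⊕ Unit)) := fun k => Sum.inr (Sum.inl k)
  let i3 : K3 → K1 ⊕ (K2 ⊕ (K3 ⊕ Unit)) := fun k => Sum.inr (Sum.inr (Sum.inl k))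
  let t : K1 ⊕ (K2 ⊕ (K3 ⊕ Unit)) := Sum.inr (Sum.inr (Sum.inr ()))
  have hi1 : Injective i1 := Sum.inl_injective
  have hi2 : Injective i2 := Sum.inr_injective.comp Sum.inl_injective
  have hi3 : Injective i3 := Sum.inr_injective.comp (Sum.inr_injective.comp Sum.inl_injective)
  have n1 : i1 k1 ≠ t := by simp [i1, t]
  have n2 : i2 k2 ≠ t := by simp [i2, t]
  have n3 : i3 k3 ≠ t := by simp [i3, t]
  have hP : ∀ x : Bool × S, ∃ τ, τ ≤ T2.eval (size x) ∧
      Run (P2.map i2) (single (i2 k2) (code x))
        (single (i2 k2) (code (!(fin (g x.2)), g x.2))) τ := by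
    intro x
    obtain ⟨τ, hτ, r⟩ := h2 x
    refine ⟨τ, hτ, ?_⟩
    have := embed r i2 hi2 (single (i2 k2) (code x)) (single_self _ _)
      (fun k hk => single_ne (fun h => hk (hi2 h)) _)
    rwa [update_single] at this
  -- the first part
  have hfirst : ∀ d : List Bool, ∃ τ, τ ≤ (11 * d.length + 3) + (T1.eval (4 * d.length + 1) +
      ((8 * qA.eval (4 * d.length + 1) + 2) + 1)) ∧
      Run (.seq (rdin (i1 k1) t) (.seq (P1.map i1) (.seq (mvv (i1 k1) (i2 k2) t)
        (.pop (i2 k2))))) (single (i1 k1) d) (single (i2 k2) (flg fin (init d))) τ := by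
    intro d
    obtain ⟨τ1, hτ1, r1⟩ := run_rdin n1 d
    obtain ⟨τ2, hτ2, r2⟩ := h1 d
    have s2 := embed r2 i1 hi1 (single (i1 k1) (code d)) (single_self _ _)
      (fun k hk => single_ne (fun h => hk (hi1 h)) _)
    rw [update_single] at s2
    have s3 := run_mvv_single n1 n2 (code (!(fin (init d)), init d))
    have s4 : Run (.pop (i2 k2)) (single (i2 k2) (code (!(fin (init d)), init d)))
        (single (i2 k2) (flg fin (init d))) 1 := by
      have := Run.pop (i2 k2) (single (i2 k2) (code (!(fin (init d)), init d)))
      rw [update_single, single_self, code_prod, List.tail_cons] at this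
      exact this
    refine ⟨_, ?_, .seq r1 (.seq s2 (.seq s3 s4))⟩
    have b1 := hqA d
    have b2 := eval_mono qA (size_listBool d)
    have b3 := eval_mono T1 (size_listBool d)
    rw [length_code]
    omega
  -- the last part
  have hlast : ∀ x : S, fin x = true → ∃ τ, τ ≤ 1 + ((8 * (size x + 4) + 2) +
      (T3.eval (size x + 4) + (19 * qO.eval (size x + 4) + 5))) ∧
      Run (.seq (.push (i2 k2) true) (.seq (mvv (i2 k2) (i3 k3) t) (.seq (P3.map i3)
        (.seq (wrout (i3 k3) t) (mvv (i3 k3) (i1 k1) t)))))
        (single (i2 k2) (flg fin x)) (single (i1 k1) (out x)) τ := by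
    intro x hx
    have s1 : Run (.push (i2 k2) true) (single (i2 k2) (flg fin x))
        (single (i2 k2) (code (false, x))) 1 := by
      have := Run.push (i2 k2) true (single (i2 k2) (flg fin x))
      rw [update_single, single_self] at this
      have e : true :: flg fin x = code (false, x) := by
        rw [code_prod, flg, hx]; rfl
      rwa [e] at this
    have s2 := run_mvv_single n2 n3 (code ((false, x) : Bool × S))
    obtain ⟨τ3, hτ3, r3⟩ := h3 (false, x)
    have s3 := embed r3 i3 hi3 (single (i3 k3) (code ((false, x) : Bool × S))) (single_self _ _)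
      (fun k hk => single_ne (fun h => hk (hi3 h)) _)
    rw [update_single] at s3
    obtain ⟨τ4, hτ4, s4⟩ := run_wrout n3 (out x)
    have s5 := run_mvv_single n3 n1 (out x)
    refine ⟨_, ?_, .seq s1 (.seq s2 (.seq s3 (.seq s4 s5)))⟩
    have e : size ((false, x) : Bool × S) ≤ size x + 4 := by
      rw [size_prod]
      have : size false = 1 := rfl
      simp only [this]; omega
    have b1 := (hqO (false, x)).trans (eval_mono qO e)
    have b2 := eval_mono T3 e
    have b3 := length_le_size (out x)
    rw [length_code]
    simp only at b1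
    omega
  let P : Prog (K1 ⊕ (K2 ⊕ (K3 ⊕ Unit))) :=
    .seq (.seq (rdin (i1 k1) t) (.seq (P1.map i1) (.seq (mvv (i1 k1) (i2 k2) t)
        (.pop (i2 k2)))))
      (.seq (lp (i2 k2) (P2.map i2)) (.seq (.push (i2 k2) true) (.seq (mvv (i2 k2) (i3 k3) t)
        (.seq (P3.map i3) (.seq (wrout (i3 k3) t) (mvv (i3 k3) (i1 k1) t))))))
  have hPB0 : PB (fun n => (11 * n + 3) + (T1.eval (4 * n + 1) +
      ((8 * qA.eval (4 * n + 1) + 2) + 1))) :=
    (((PB.const 11).mul PB.id).add (PB.const 3)).add ((PB.comp T1 (((PB.const 4).mul
      PB.id).add (PB.const 1))).add ((((PB.const 8).mul (PB.comp qA (((PB.const 4).mul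
      PB.id).add (PB.const 1)))).add (PB.const 2)).add (PB.const 1)))
  obtain ⟨T0, hT0⟩ := hPB0
  have hforward : ∀ (d : List Bool) (N : ℕ), fin (g^[N] (init d)) = true →
      (∀ i < N, fin (g^[i] (init d)) = false) →
      Outputs (progMachine P (i1 k1)) d (out (g^[N] (init d))) (T0.eval d.length +
        ∑ i ∈ Finset.range (N + 1), T.eval (size (g^[i] (init d)))) := by
    intro d N hN hlt
    obtain ⟨τ1, hτ1, r1⟩ := hfirst d
    obtain ⟨τ2, hτ2, r2⟩ := run_lp hP N (init d) hN hlt
    obtain ⟨τ3, hτ3, r3⟩ := hlast _ hN
    refine outputs_of_run (.seq r1 (.seq r2 r3)) ?_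
    have b0 := hT0 d.length
    rw [Finset.sum_range_succ]
    have b1 : ∑ i ∈ Finset.range N, (T2.eval (size (g^[i] (init d)) + 4) + 3) ≤
        ∑ i ∈ Finset.range N, T.eval (size (g^[i] (init d))) := by
      refine Finset.sum_le_sum fun i _ => ?_
      have := hT (size (g^[i] (init d)))
      simp only at this
      omega
    have b2 := hT (size (g^[N] (init d)))
    simp only at b0 b2
    omega
  refine ⟨progMachine P (i1 k1), T0, hforward, ?_⟩
  intro d x τ hx
  have hex : ∃ N, N ≤ τ ∧ fin (g^[N] (init d)) = true := by
    by_contra hcon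
    push Not at hcon
    have hall : ∀ i < τ + 1, fin (g^[i] (init d)) = false := by
      intro i hi
      have := hcon i (by omega)
      simpa using this
    obtain ⟨n, hn, hal⟩ := alive_lp hP (τ + 1) (init d) hall
    obtain ⟨τ1, hτ1, r1⟩ := hfirst d
    have := alive_le hx (.seqR r1 (.seqL hal))
    omega
  classical
  obtain ⟨hN1, hN2⟩ := Nat.find_spec hex
  have hmin : ∀ i < Nat.find hex, fin (g^[i] (init d)) = false := by
    intro i hi
    have := Nat.find_min hex hi
    rw [not_and] at this
    have := this (by omega)
    simpa using this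
  exact ⟨Nat.find hex, hN1, hN2, hmin, outputs_unique hx (hforward d _ hN2 hmin)⟩

end

end Pool.Agent.Lib.MP_33f9c4_lc
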