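import Pool.Agent.Lib.MP_33f9c4_lc.QDefs2
import Pool.Agent.Lib.MP_33f9c4_lc.Loop

/-!
# Decoding in polynomial time; oracle algorithms with structured states
-/

namespace Pool.Agent.Lib.MP_33f9c4_lc.Qt

open Pool.Agent.Lib.PolyTime Function Turing

set_option synthInstance.maxSize 2000

/-! ### Trees -/

/-- The left components along the right spine of a tree. -/
def spine : BT → List BT
  | .leaf => []
  | .node l r => l :: spine r

theorem enc_spine (x : BT) : enc (spine x) = x := by
  induction x with
  | leaf => rfl
  | node l r _ ih => rw [spine, enc_cons, ih]; rfl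

theorem spine_enc {α : Type} [Enc α] (l : List α) : spine (enc l) = l.map enc := by
  induction l with
  | nil => rfl
  | cons a l ih => rw [enc_cons, spine, ih]; rfl

theorem pt_spine : PT spine := PT.of_enc_eq enc_spine

/-- The left component. -/
def lft (x : BT) : BT := (spine x).getD 0 BT.leaf

/-- The right component. -/
def rgt (x : BT) : BT := enc (spine x).tail

theorem lft_node (l r : BT) : lft (BT.node l r) = l := rfl

theorem rgt_node (l r : BT) : rgt (BT.node l r) = r := enc_spine r

theorem pt_lft : PT lft := PT.getD pt_spine 0 BT.leaf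

theorem pt_rgt : PT rgt := by
  have h : PT (fun l : List BT => (enc l : BT)) := PT.of_enc_eq (fun _ => rfl)
  exact h.comp (PT.tail pt_spine)

theorem pt_node : PT (fun x : BT × BT => BT.node x.1 x.2) := PT.of_enc_eq (fun _ => rfl)

instance : Cdc BT := ⟨⟨id, PT.id, fun _ => rfl⟩⟩

instance : Cdc Bool := by
  refine ⟨⟨fun x => !decide (x = BT.leaf), PT.not (PT.eqConstBT _), ?_⟩⟩
  intro b
  cases b <;> simp

theorem length_spine_enc (n : ℕ) : (spine (enc n)).length = n := by
  induction n with
  | zero => rfl
  | succ n ih => rw [enc_succ, spine, List.length_cons, ih]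

instance : Cdc ℕ := ⟨⟨fun x => (spine x).length, PT.length pt_spine, length_spine_enc⟩⟩

instance {α β : Type} [Enc α] [Enc β] [Cdc α] [Cdc β] : Cdc (α × β) := by
  obtain ⟨f, hf, hf'⟩ := (inferInstance : Cdc α).ex
  obtain ⟨g, hg, hg'⟩ := (inferInstance : Cdc β).ex
  refine ⟨⟨fun x => (f (lft x), g (rgt x)), (hf.comp pt_lft).pair (hg.comp pt_rgt), ?_⟩⟩
  rintro ⟨a, b⟩
  simp only [enc_prod, lft_node, rgt_node, hf', hg']

instance {α β : Type} [Enc α] [Enc β] [Cdc α] [Cdc β] : Cdc (α ⊕ β) := by
  obtain ⟨f, hf, hf'⟩ := (inferInstance : Cdc α).ex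
  obtain ⟨g, hg, hg'⟩ := (inferInstance : Cdc β).ex
  refine ⟨⟨fun x => if lft x = BT.leaf then Sum.inl (f (rgt x)) else Sum.inr (g (rgt x)),
    PT.ite ((PT.eqConstBT _).comp pt_lft) (PT.inl (hf.comp pt_rgt)) (PT.inr (hg.comp pt_rgt)),
    ?_⟩⟩
  rintro (a | b)
  · have e : enc (Sum.inl a : α ⊕ β) = BT.node BT.leaf (enc a) := rfl
    rw [e]
    simp only [lft_node, rgt_node, if_true, hf']
  · have e : enc (Sum.inr b : α ⊕ β) = BT.node (BT.node BT.leaf BT.leaf) (enc b) := rfl
    have e' : BT.node BT.leaf BT.leaf ≠ BT.leaf := by simp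
    rw [e]
    simp only [lft_node, rgt_node, if_neg e', hg']

instance {α : Type} [Enc α] [Cdc α] : Cdc (List α) := by
  obtain ⟨f, hf, hf'⟩ := (inferInstance : Cdc α).ex
  refine ⟨⟨fun x => (spine x).map f, PT.map (g := fun _ y => f y) pt_spine (hf.comp PT.snd),
    ?_⟩⟩
  intro l
  have h : (spine (enc l)).map f = l := by
    rw [spine_enc, List.map_map]
    conv_rhs => rw [← List.map_id l]
    exact List.map_congr_left (fun a _ => hf' a)
  exact h

/-! ### Parsing -/

/-- One step of the parser, with a stack of trees. -/
def pstep (s : List BT) (b : Bool) : List BT :=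
  if b = true then BT.node (s.getD 0 BT.leaf) (s.getD 1 BT.leaf) :: s.tail.tail
  else BT.leaf :: s

/-- The tree whose serialisation is at the beginning of the string. -/
def parseT (w : List Bool) : BT := (w.reverse.foldl pstep []).getD 0 BT.leaf

theorem foldl_pstep (x : BT) : ∀ s : List BT, x.ser.reverse.foldl pstep s = x :: s := by
  induction x with
  | leaf => intro s; rfl
  | node l r ihl ihr =>
    intro s
    rw [BT.ser, List.reverse_cons, List.reverse_append, List.foldl_append, List.foldl_append,
      ihr, ihl]
    rfl

theorem parseT_ser (x : BT) (w : List Bool) : parseT (x.ser ++ w) = x := by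
  rw [parseT, List.reverse_append, List.foldl_append, foldl_pstep]
  rfl

theorem pt_pstep : PT (fun x : List BT × Bool => pstep x.1 x.2) := by
  have hs : PT (fun x : List BT × Bool => x.1) := PT.fst
  have hb : PT (fun x : List BT × Bool => x.2) := PT.snd
  refine PT.ite (PT.eq hb (PT.const true)) ?_ ?_
  · exact PT.cons (pt_node.comp ((PT.getD hs 0 BT.leaf).pair (PT.getD hs 1 BT.leaf)))
      (PT.tail (PT.tail hs))
  · exact PT.cons (PT.const BT.leaf) hs

theorem size_pstep (s : List BT) (b : Bool) : size (pstep s b) ≤ size s + 8 := by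
  have h0 : size BT.leaf = 1 := rfl
  have h1 : ∀ l r : BT, size (BT.node l r) = size l + size r + 1 := fun l r => BT.size_node l r
  cases b with
  | false =>
    have e : pstep s false = BT.leaf :: s := rfl
    rw [e, size_cons, h0]
    omega
  | true =>
    have e : pstep s true =
      BT.node (s.getD 0 BT.leaf) (s.getD 1 BT.leaf) :: s.tail.tail := rfl
    rw [e, size_cons, h1]
    match s with
    | [] => simp [h0]
    | [a] => simp [h0]
    | a :: b :: l => simp; omega

theorem pt_parseT : PT parseT := by
  have h := PT.foldl_add (f := fun w : List Bool => w.reverse) (init := fun _ => ([] : List BT))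
    (step := fun _ s b => pstep s b) (PT.reverse PT.id) (PT.const _)
    (pt_pstep.comp PT.snd) (C := fun _ => 8) (PB.const 8) (fun a s b _ => size_pstep s b)
  exact PT.getD h 0 BT.leaf

/-- Parsing, then `Cdc`. -/
theorem exists_decode (α : Type) [Enc α] [Cdc α] : ∃ dc : List Bool → α, PT dc ∧
    ∀ (a : α) (r : List Bool), dc (code a ++ r) = a := by
  obtain ⟨f, hf, hf'⟩ := (inferInstance : Cdc α).ex
  refine ⟨fun w => f (parseT w), hf.comp pt_parseT, fun a r => ?_⟩
  have e : parseT (code a ++ r) = enc a := parseT_ser (enc a) r
  simp only [e, hf']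

theorem pt_code (α : Type) [Enc α] : PT (fun a : α => code a) := by
  refine PT.of (K := Bool) (rdin true false) true (fun n => 11 * n + 3)
    (((PB.const 11).mul PB.id).add (PB.const 3)) ?_
  intro a
  obtain ⟨τ, hτ, r⟩ := run_rdin (k := true) (t := false) (by decide) (code a)
  exact ⟨τ, hτ, r⟩

theorem polyTimeFn_of_pt {f : List Bool → List Bool} (hf : PT f) : PolyTimeFn f := by
  obtain ⟨p, hp⟩ := hf.size_le
  obtain ⟨K, _, _, P, k₀, T, h⟩ := hf
  let i : K → K ⊕ Unit := Sum.inl
  let t : K ⊕ Unit := Sum.inr ()
  have hi : Injective i := Sum.inl_injective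
  have ht : i k₀ ≠ t := by simp [i, t]
  have hPB : PB (fun n => (11 * n + 3) + (T.eval (4 * n + 1) +
      (11 * p.eval (4 * n + 1) + 3))) :=
    (((PB.const 11).mul PB.id).add (PB.const 3)).add
      ((PB.comp T (((PB.const 4).mul PB.id).add (PB.const 1))).add
        (((PB.const 11).mul (PB.comp p (((PB.const 4).mul PB.id).add (PB.const 1)))).add
          (PB.const 3)))
  obtain ⟨Q, hQ⟩ := hPB
  refine computable_of_run id id f
    (.seq (rdin (i k₀) t) (.seq (P.map i) (wrout (i k₀) t))) (i k₀) Q (fun w => ?_)
  obtain ⟨τ1, hτ1, r1⟩ := run_rdin ht w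
  obtain ⟨τ2, hτ2, r2⟩ := h w
  have s2 := embed r2 i hi (single (i k₀) (code w)) (single_self _ _)
    (fun k hk => single_ne (fun h => hk (hi h)) _)
  rw [update_single] at s2
  obtain ⟨τ3, hτ3, r3⟩ := run_wrout ht (f w)
  refine ⟨_, ?_, .seq r1 (.seq s2 r3)⟩
  have h1 := size_listBool w
  have h2 := eval_mono T h1
  have h3 := hp w
  have h4 := eval_mono p h1
  have h5 := length_le_size (f w)
  have h6 := hQ w.length
  simp only at h6
  simp only [id_eq]
  omega

/-! ### Oracle algorithms -/

theorem code_parseT_ne (x : BT) (b : Bool) (y : BT) : code y ≠ b :: code x := by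
  intro h
  have hx : (code x).length = x.size := rfl
  have hp := x.size_pos
  cases y with
  | leaf =>
    have h' : [false] = b :: x.ser := h
    rw [List.cons.injEq] at h'
    have := congrArg List.length h'.2
    rw [List.length_nil] at this
    have hx' : x.ser.length = x.size := rfl
    omega
  | node l r =>
    have h' : true :: (l.ser ++ r.ser) = b :: x.ser := h
    rw [List.cons.injEq] at h'
    have h2 : l.ser ++ r.ser = x.ser ++ [] := by rw [List.append_nil]; exact h'.2
    have h3 := (BT.ser_append_inj h2).2
    have h4 : r.ser.length = r.size := rfl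
    have h5 := r.size_pos
    rw [h3, List.length_nil] at h4
    omega

section

variable {α : Type} [Enc α]

/-- The string of a state. -/
def stOf (res : α → Bool) (a : α) : List Bool := res a :: code a

/-- The function on strings which computes the next state; in the first round it leads from the code
of the first state to its string. -/
def nxOf (dc : List Bool → α) (next : α × Bool → α) (res : α → Bool) (s : List Bool) : List Bool :=
  if code (parseT s.tail) = s.tail then stOf res (dc s.tail)
  else stOf res (next (dc s.tail.tail, s.getD 0 false))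

theorem nxOf_code {dc : List Bool → α} (hdc : ∀ a, dc (code a) = a) (next : α × Bool → α)
    (res : α → Bool) (b : Bool) (a : α) : nxOf dc next res (b :: code a) = stOf res a := by
  have e : parseT (code a) = enc a := by
    have := parseT_ser (enc a) []
    rwa [List.append_nil] at this
  have e' : code (parseT (code a)) = code a := by rw [e]; rfl
  rw [nxOf, List.tail_cons, if_pos e', hdc]

theorem nxOf_stOf {dc : List Bool → α} (hdc : ∀ a, dc (code a) = a) (next : α × Bool → α)
    (res : α → Bool) (b : Bool) (a : α) :
    nxOf dc next res (b :: stOf res a) = stOf res (next (a, b)) := by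
  have e' : code (parseT (stOf res a)) ≠ stOf res a := code_parseT_ne (enc a) (res a) _
  rw [nxOf, List.tail_cons, if_neg e', List.getD_cons_zero]
  have e : (stOf res a).tail = code a := rfl
  rw [e, hdc]

end

open Classical in
/-- Oracle algorithms with structured states. -/
theorem inPRel_of_struct {α : Type} [Enc α] [Cdc α] (A L : Set (List Bool))
    (start : List Bool → α) (next : α × Bool → α) (qry : α → List Bool) (res : α → Bool)
    (hs : PT start) (hn : PT next) (hq : PT qry) (hr : PT res) (q : Polynomial ℕ)
    (h : ∀ x : List Bool,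
      (∀ i ≤ q.eval x.length,
        size ((fun s => next (s, decide (qry s ∈ A)))^[i] (start x)) ≤ q.eval x.length) ∧
      res ((fun s => next (s, decide (qry s ∈ A)))^[q.eval x.length] (start x)) =
        decide (x ∈ L)) : InPRel A L := by
  obtain ⟨dc, hdc, hdc'⟩ := exists_decode α
  have hdc0 : ∀ a : α, dc (code a) = a := fun a => by
    have := hdc' a []
    rwa [List.append_nil] at this
  have hst : PT (stOf res) := PT.cons hr (pt_code α)
  have hid : PT (fun s : List Bool => s) := PT.id
  have h1 : PolyTimeFn (fun x => code (start x)) := polyTimeFn_of_pt ((pt_code α).comp hs)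
  have h2 : PolyTimeFn (nxOf dc next res) := by
    have a1 : PT (fun s : List Bool => decide (code (parseT s.tail) = s.tail)) :=
      PT.eq ((pt_code BT).comp (pt_parseT.comp (PT.tail hid))) (PT.tail hid)
    have a2 : PT (fun s : List Bool => stOf res (dc s.tail)) :=
      hst.comp (hdc.comp (PT.tail hid))
    have a4 : PT (fun s : List Bool => s.getD 0 false) := PT.getD hid 0 false
    have a3 : PT (fun s : List Bool => stOf res (next (dc s.tail.tail, s.getD 0 false))) :=
      hst.comp (hn.comp ((hdc.comp (PT.tail (PT.tail hid))).pair a4))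
    exact polyTimeFn_of_pt (PT.ite a1 a2 a3)
  have h3 : PolyTimeFn (fun s => qry (dc s.tail)) :=
    polyTimeFn_of_pt (hq.comp (hdc.comp (PT.tail hid)))
  refine ⟨_, _, _, h1, h2, h3, q + 1, fun x => ?_⟩
  have key : ∀ i, orun A (fun x => code (start x)) (nxOf dc next res) (fun s => qry (dc s.tail)) x
      (i + 1) = stOf res ((fun s => next (s, decide (qry s ∈ A)))^[i] (start x)) := by
    intro i
    induction i with
    | zero =>
      rw [orun, orun, nxOf_code hdc0]
      rfl
    | succ i ih =>
      rw [orun, ih, nxOf_stOf hdc0, iterate_succ_apply']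
      have e : dc (stOf res ((fun s => next (s, decide (qry s ∈ A)))^[i] (start x))).tail =
        (fun s => next (s, decide (qry s ∈ A)))^[i] (start x) := by
        rw [stOf, List.tail_cons, hdc0]
      rw [e]
  obtain ⟨ha, hb⟩ := h x
  have e1 : (q + 1).eval x.length = q.eval x.length + 1 := by
    rw [Polynomial.eval_add, Polynomial.eval_one]
  rw [e1]
  constructor
  · intro i hi
    cases i with
    | zero =>
      rw [orun, length_code]
      have := ha 0 (Nat.zero_le _)
      simp only [iterate_zero, id_eq] at this
      omega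
    | succ i =>
      rw [key, stOf, List.length_cons, length_code]
      have := ha i (by omega)
      exact Nat.succ_le_succ this
  · rw [key, stOf, List.head?_cons]
    exact congrArg some hb

end Pool.Agent.Lib.MP_33f9c4_lc.Qt
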