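import Pool.Agent.Lib.MP_33f9c4_lc.Search

/-!
# The decision phase
-/

namespace Pool.Agent.Lib.MP_33f9c4_lc

open Pool.Agent.Lib.PolyTime Function Finset

theorem g_iter_fin (y : List Bool) (j : ℕ) : g^[j] (sFin y) = sFin y := by
  induction j with
  | zero => rfl
  | succ j ih => rw [iterate_succ_apply', ih, g_fin]

/-- Whatever happens, the output is `u` or empty. -/
theorem dec_out (u : List Bool) (c : Cfg) (j : ℕ) (h : fin (g^[j] (sDec (u, c))) = true) :
    out (g^[j] (sDec (u, c))) = u ∨ out (g^[j] (sDec (u, c))) = [] := by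
  induction j generalizing c with
  | zero => cases h
  | succ j ih =>
    rw [iterate_succ_apply, g_dec, gDec] at h ⊢
    by_cases hc : mfin (u, c).2 = true
    · rw [if_pos hc, g_iter_fin, out_fin]
      split_ifs
      · exact Or.inl rfl
      · exact Or.inr rfl
    · rw [if_neg hc] at h ⊢
      exact ih _ h

/-- Sizes of the configurations reached from initial ones. -/
theorem size_minit_iter : ∃ q : Polynomial ℕ, ∀ (Tb : Tbl) (u : List Bool) (i m : ℕ),
    size Tb + u.length + i ≤ m →
    size (mstep^[i] (minit Tb u)) ≤ q.eval m ∧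
      (mout (mstep^[i] (minit Tb u))).length ≤ q.eval m := by
  obtain ⟨q1, hq1⟩ := size_mstep_iter
  obtain ⟨q2, hq2⟩ := length_mout_iter
  obtain ⟨r, hr⟩ := pt_minit.size_le
  refine ⟨(q1 + q2).comp (r.comp (4 * Polynomial.X + 2) + Polynomial.X), fun Tb u i m hm => ?_⟩
  have h1 := hr (Tb, u)
  have h2 : size (Tb, u) ≤ 4 * m + 2 := by
    have := size_bools u
    rw [size_prod]
    simp only
    omega
  have h3 := h1.trans (eval_mono r h2)
  simp only at h3
  simp only [Polynomial.eval_comp, Polynomial.eval_add, Polynomial.eval_mul, Polynomial.eval_X,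
    Polynomial.eval_ofNat]
  have h4 : size (minit Tb u) + i ≤ r.eval (4 * m + 2) + m := by omega
  have h5 := (hq1 (minit Tb u) i).trans (eval_mono q1 h4)
  have h6 := (hq2 (minit Tb u) i).trans (eval_mono q2 h4)
  exact ⟨h5.trans (Nat.le_add_right _ _), h6.trans (Nat.le_add_left _ _)⟩

theorem dec (T : Polynomial ℕ) : ∃ P : Polynomial ℕ, ∀ (Tb : Tbl) (u : List Bool) (s : ℕ),
    Halts (minit Tb u) s → ∃ N c,
      Reach T (sDec (u, minit Tb u))
        (sFin (if mout (mstep^[s] (minit Tb u)) = [true] then u else [])) N c ∧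
      c + T.eval (size (sFin u)) + T.eval (size (sFin [])) ≤
        P.eval (size Tb + u.length + s) := by
  obtain ⟨q, hq⟩ := size_minit_iter
  refine ⟨(Polynomial.X + 1) * T.comp (4 * Polynomial.X + 28 + q) +
    2 * T.comp (4 * Polynomial.X + 29), fun Tb u s ⟨h1, h2⟩ => ?_⟩
  set m := size Tb + u.length + s with hm
  have hu : size u ≤ 4 * m + 1 := (size_bools u).trans (by omega)
  have hC : ∀ i ≤ s, T.eval (size (sDec (u, mstep^[i] (minit Tb u)))) ≤
      T.eval (4 * m + 28 + q.eval m) := by
    intro i hi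
    refine eval_mono T ?_
    have h3 := (hq Tb u i m (by omega)).1
    rw [size_sDec, size_prod]
    simp only
    omega
  have h3 := Reach.chain (T := T) (fun i => sDec (u, mstep^[i] (minit Tb u)))
    (T.eval (4 * m + 28 + q.eval m)) s (fun i hi => by
      refine ⟨rfl, ?_, hC i hi.le⟩
      show gDec _ = _
      rw [gDec, if_neg (by simp [h1 i hi]), iterate_succ_apply'])
  have h4 : g (sDec (u, mstep^[s] (minit Tb u))) =
      sFin (if mout (mstep^[s] (minit Tb u)) = [true] then u else []) := by
    show gDec _ = _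
    rw [gDec, if_pos h2]
  refine ⟨_, _, h3.trans (Reach.step rfl h4 (hC s le_rfl)), ?_⟩
  simp only [Polynomial.eval_comp, Polynomial.eval_add, Polynomial.eval_mul, Polynomial.eval_X,
    Polynomial.eval_ofNat, Polynomial.eval_one]
  have h5 : T.eval (size (sFin u)) ≤ T.eval (4 * m + 29) :=
    eval_mono T (by rw [size_sFin]; omega)
  have h6 : T.eval (size (sFin [])) ≤ T.eval (4 * m + 29) :=
    eval_mono T (by rw [size_sFin, size_nil]; omega)
  have h7 : s * T.eval (4 * m + 28 + q.eval m) + T.eval (4 * m + 28 + q.eval m) ≤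
      (m + 1) * T.eval (4 * m + 28 + q.eval m) := by
    rw [← Nat.succ_mul]
    exact Nat.mul_le_mul_right _ (by omega)
  omega

end Pool.Agent.Lib.MP_33f9c4_lc
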