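import Mathlib.Computability.TuringMachine.Computable
import Mathlib.Analysis.SpecialFunctions.Log.Base

/-!
# Machines, universal machines, Levin's complexity `Kt`, Levin-random strings

Machines are Mathlib's bundled multi-stack Turing machines with binary input and output.
-/

namespace Pool.Agent.Lib.MP_33f9c4_lc

open Turing

/-- Turing machines with binary input and binary output. -/
abbrev Machine : Type 1 := TM2ComputableAux Bool Bool

/-- The machine `M` outputs the string `x` on the input `d` within `t` steps. -/
def Outputs (M : Machine) (d x : List Bool) (t : ℕ) : Prop :=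
  Nonempty (TM2OutputsInTime M.tm (d.map M.inputAlphabet.invFun)
    (some (x.map M.outputAlphabet.invFun)) t)

/-- `U` is universal: it simulates every machine `M`, with inputs prefixed by a fixed string and
with at most polynomial slowdown (with the same polynomial for all machines, up to a factor that
depends on `M` in the argument). -/
def Universal (U : Machine) : Prop :=
  ∃ Q : Polynomial ℕ, ∀ M : Machine, ∃ (p : List Bool) (a : ℕ),
    (∀ (d x : List Bool) (t : ℕ), Outputs M d x t →
      Outputs U (p ++ d) x (Q.eval (a * (d.length + t + 1)))) ∧
    (∀ (d x : List Bool) (t : ℕ), Outputs U (p ++ d) x t → ∃ t', Outputs M d x t')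

/-- Levin's time-bounded Kolmogorov complexity with respect to the machine `U`. -/
noncomputable def Kt (U : Machine) (x : List Bool) : ℝ :=
  sInf {r : ℝ | ∃ (d : List Bool) (t : ℕ), Outputs U d x t ∧ r = d.length + Real.logb 2 t}

/-- `U` is optimal: for every machine `M` and every string `x` which has a description with respect
to `M`, `Kt U x ≤ Kt M x + O(log |x|)` (and `x` has a description with respect to `U`). -/
def Optimal (U : Machine) : Prop :=
  ∀ M : Machine, ∃ c : ℝ, ∀ (d x : List Bool) (t : ℕ), Outputs M d x t →
    (∃ d' t', Outputs U d' x t') ∧
    Kt U x ≤ d.length + Real.logb 2 t + c * Real.logb 2 (x.length + 2)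

/-- The set of Levin-random strings with respect to the machine `U`. -/
def RKt (U : Machine) : Set (List Bool) := {x | (x.length : ℝ) ≤ Kt U x}

open Classical in
/-- `A` is decidable in polynomial time. -/
def InP (A : Set (List Bool)) : Prop :=
  Nonempty (TM2ComputableInPolyTime (id : List Bool → List Bool) (fun b : Bool => [b])
    (fun x => decide (x ∈ A)))

open Classical in
/-- The machine `D` decides `A`. -/
def Decides (D : Machine) (A : Set (List Bool)) : Prop :=
  ∀ x, ∃ t, Outputs D x [decide (x ∈ A)] t

end Pool.Agent.Lib.MP_33f9c4_lc
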