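import Pool.Agent.Lib.MP_33f9c4_lc.Defs
import Pool.Agent.Lib.PolyTime

/-!
# Loops with additional stacks: definitions

The control state is processed by a polynomial time function, which may push one symbol on one of
the additional stacks or pop one of them at each step. The time for a step depends only on the size
of the control state, not on the content of the stacks.
-/

namespace Pool.Agent.Lib.MP_33f9c4_lc.Ef

open Pool.Agent.Lib.PolyTime Function

/-- The response of a stack: `0` if it is empty, `g + 1` if `g` is on top. -/
def rsp : List ℕ → ℕ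
  | [] => 0
  | g :: _ => g + 1

/-- Execution of the command `m` with argument `a`: the command `2 + 2 * i` pops stack `i`, the
command `3 + 2 * i` pushes `a` on stack `i`, the commands `0` and `1` do nothing. Result: response
and new stacks. -/
def exec (m a : ℕ) (st : List (List ℕ)) : ℕ × List (List ℕ) :=
  if m < 2 then (0, st)
  else if m % 2 = 0 then
    (rsp (st.getD (m / 2 - 1) []), st.set (m / 2 - 1) (st.getD (m / 2 - 1) []).tail)
  else (0, st.set (m / 2 - 1) (a :: st.getD (m / 2 - 1) []))

/-- Configurations: response, control state, stacks. -/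
abbrev Conf (S : Type) : Type := (ℕ × S) × List (List ℕ)

variable {S : Type}

/-- The next configuration. -/
def nx (G : ℕ × S → (ℕ × ℕ) × S) (x : Conf S) : Conf S :=
  (((exec (G x.1).1.1 (G x.1).1.2 x.2).1, (G x.1).2), (exec (G x.1).1.1 (G x.1).1.2 x.2).2)

/-- The configuration is final: the next command is `1`. -/
def hl (G : ℕ × S → (ℕ × ℕ) × S) (x : Conf S) : Bool := decide ((G x.1).1.1 = 1)

/-- The configurations passed, from the control state `c` and `k` empty stacks. -/
def tr (G : ℕ × S → (ℕ × ℕ) × S) (k : ℕ) (c : S) (i : ℕ) : Conf S :=
  (nx G)^[i] ((0, c), List.replicate k [])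

theorem exec_zero (a : ℕ) (st : List (List ℕ)) : exec 0 a st = (0, st) := rfl

theorem exec_pop (i a : ℕ) (st : List (List ℕ)) : exec (2 + 2 * i) a st =
    (rsp (st.getD i []), st.set i (st.getD i []).tail) := by
  have h1 : (2 + 2 * i) / 2 - 1 = i := by omega
  rw [exec, if_neg (by omega), if_pos (by omega), h1]

theorem exec_push (i a : ℕ) (st : List (List ℕ)) : exec (3 + 2 * i) a st =
    (0, st.set i (a :: st.getD i [])) := by
  have h1 : (3 + 2 * i) / 2 - 1 = i := by omega
  rw [exec, if_neg (by omega), if_neg (by omega), h1]

theorem length_exec (m a : ℕ) (st : List (List ℕ)) : (exec m a st).2.length = st.length := by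
  unfold exec
  split_ifs <;> simp

end Pool.Agent.Lib.MP_33f9c4_lc.Ef
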