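import Pool.Agent.Lib.MP_33f9c4_lc.Mach2
import Pool.Agent.Lib.MP_33f9c4_lc.Asym

/-!
# The machine on descriptions that begin with `true`
-/

namespace Pool.Agent.Lib.MP_33f9c4_lc.Ef

open Pool.Agent.Lib.PolyTime Function Finset

set_option synthInstance.maxSize 2000

theorem lg_le_self (n : ℕ) : lg n ≤ n := by
  have h1 := lg_le n
  have h2 : lg n < 2 ^ lg n := Nat.lt_two_pow_self
  omega

theorem lg_nval' (m : List Bool) : lg (nval m) = m.length := lg_nval m

/-- The data `a` are accepted. -/
def Acc (V : Tbl) (B n : ℕ) (a : List Bool) : Prop :=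
  (a.head? = some true ∧ ∃ s, Halts (minit (parse a.tail).1 (Y V B n ++ a)) s ∧
    mout (mstep^[s] (minit (parse a.tail).1 (Y V B n ++ a))) = [true]) ∨
  (a.head? ≠ some true ∧ sel a.tail (Y V B (n + 1)) = true)

/-- The computation up to the end of the first search. -/
theorem diag_path (V : Tbl) : ∃ K : ℕ, ∀ (B : ℕ) (a m : List Bool) (L : ℕ),
    m ≠ [] → a.length = 2 * m.length → K * (B + nval m + 1) ≤ L →
    ∃ N, Rn V L ((0, init B (true :: (a ++ m))), emp V)
      ((0, dne (B, (nval m, ((a, []), Y V B (nval m))))), emp V) N ∧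
      N ≤ K * (nval m + 1) ^ 2 * 2 ^ (nval m - B * lg (nval m)) := by
  obtain ⟨K, hK⟩ := srch V
  refine ⟨K + 200, fun B a m L hm ha hL => ?_⟩
  have h0 := lg_le_self (nval m)
  rw [lg_nval'] at h0
  have e1 : (K + 200) * (B + nval m + 1) = K * (B + nval m + 1) + 200 * (B + nval m + 1) := by
    ring
  have h1 := dbl2 V B a m L (by omega)
  have h2 : size ((a, []) : List Bool × List Bool) ≤ 4 * a.length + 3 := by
    have := size_bools a
    rw [size_prod]
    simp only [size_nil]
    omega
  obtain ⟨N, h3, h4, h5⟩ := hK B (nval m) (a, []) L (by omega)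
  rw [← init_diag hm ha] at h1
  refine ⟨_, h1.trans h3, ?_⟩
  have h6 : nval m + 1 ≤ 200 * (nval m + 1) ^ 2 * 2 ^ (nval m - B * lg (nval m)) := by
    have h7 : 1 ≤ 2 ^ (nval m - B * lg (nval m)) := Nat.one_le_two_pow
    have h8 : nval m + 1 ≤ (nval m + 1) ^ 2 := by nlinarith
    calc nval m + 1 ≤ (nval m + 1) ^ 2 * 1 := by omega
      _ ≤ 200 * (nval m + 1) ^ 2 * 2 ^ (nval m - B * lg (nval m)) :=
        Nat.mul_le_mul (Nat.le_mul_of_pos_left _ (by omega)) h7
  have e2 : (K + 200) * (nval m + 1) ^ 2 * 2 ^ (nval m - B * lg (nval m)) =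
      K * (nval m + 1) ^ 2 * 2 ^ (nval m - B * lg (nval m)) +
      200 * (nval m + 1) ^ 2 * 2 ^ (nval m - B * lg (nval m)) := by ring
  omega

/-- The second search. -/
theorem dne_A (V : Tbl) : ∃ K : ℕ, ∀ (B n : ℕ) (a u : List Bool) (L : ℕ), a ≠ [] →
    a.head? ≠ some true → K * (B + n + a.length + u.length + 1) ≤ L →
    ∃ N, Rn V L ((0, dne (B, (n, ((a, []), u)))), emp V)
      ((0, cFin (if sel a.tail (Y V B (n + 1)) = true then u ++ a else [])), emp V) N ∧
      N ≤ K * (n + 2) ^ 2 * 2 ^ (n + 1 - B * lg (n + 1)) := by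
  obtain ⟨K, hK⟩ := srch V
  refine ⟨K + 200, fun B n a u L hne ha hL => ?_⟩
  have e0 : dne (B, (n, ((a, []), u))) = cScan ((B, (n + 1, ((a, u ++ a), []))), ([], ([], []))) := by
    rw [dne]
    simp [ha]
  rw [e0]
  have h2 : size ((a, u ++ a) : List Bool × List Bool) ≤ 8 * a.length + 4 * u.length + 3 := by
    have h3 := size_bools a
    have h4 := size_bools (u ++ a)
    rw [List.length_append] at h4
    rw [size_prod]
    simp only
    omega
  have e1 : (K + 200) * (B + n + a.length + u.length + 1) =
      K * (B + n + a.length + u.length + 1) + 200 * (B + n + a.length + u.length + 1) := by ring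
  have e2 : K * (B + n + a.length + u.length + 1) = K * (B + n + 1) + K * (a.length + u.length) := by
    ring
  have hap : 1 ≤ a.length := by
    rcases a with _ | ⟨b, a⟩
    · exact absurd rfl hne
    · simp
  have e3 : K * (B + (n + 1) + 1) ≤ K * (B + n + a.length + u.length + 1) :=
    Nat.mul_le_mul_left _ (by omega)
  obtain ⟨N, h3, h4, h5⟩ := hK B (n + 1) (a, u ++ a) L (by omega)
  refine ⟨N, ?_, h5.trans ?_⟩
  · have e4 : dne (B, (n + 1, ((a, u ++ a), Y V B (n + 1)))) =
        cFin (if sel a.tail (Y V B (n + 1)) = true then u ++ a else []) := by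
      rw [dne]
      simp [hne]
    rw [← e4]
    exact h3
  · exact Nat.mul_le_mul_right _ (Nat.mul_le_mul_right _ (by omega))

theorem dne_B (B n : ℕ) {a : List Bool} (u : List Bool) (ha : a.head? = some true) :
    dne (B, (n, ((a, []), u))) = cDec (u ++ a, minit (parse a.tail).1 (u ++ a)) := by
  rw [dne]
  simp [ha]

theorem path_of_final {V : Tbl} {L N M : ℕ} {a b : Conf S} (h : Rn V L a b N)
    (hM : hl (G V) ((nx (G V))^[M] a) = true) (hb : ∀ i, hl (G V) ((nx (G V))^[i] b) = false) :
    False := by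
  obtain ⟨_, h1⟩ := h.le_of_final hM
  rw [h1, hb] at hM
  cases hM

section

variable {V : Tbl} {B : ℕ} {T T0 : Polynomial ℕ} {U : Machine}

theorem IsMach.out_cases (hU : IsMach V B T T0 U) {w x : List Bool} {t : ℕ}
    (h : Outputs U (true :: w) x t) : x = [] ∨ ∃ a m : List Bool, w = a ++ m ∧ m ≠ [] ∧
      a.length = 2 * m.length ∧ x = Y V B (nval m) ++ a ∧ Acc V B (nval m) a := by
  rcases init_cases B w with ⟨a, m, hw, hm, ha⟩ | h0
  · subst hw
    obtain ⟨K, hK⟩ := diag_path V
    obtain ⟨N, h1, _⟩ := hK B a m _ hm ha le_rfl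
    have hane : a ≠ [] := by
      rintro rfl
      rw [List.length_nil] at ha
      have : 0 < m.length := List.length_pos_of_ne_nil hm
      omega
    by_cases hh : a.head? = some true
    · rw [dne_B _ _ _ hh] at h1
      rcases halts_or (minit (parse a.tail).1 (Y V B (nval m) ++ a)) with ⟨s, hs⟩ | hno
      · obtain ⟨P, hP⟩ := dec2 V
        have h2 := hP _ _ _ hs
        have h3 := (h1.mono (le_max_left _ _)).trans (h2.mono (le_max_right _ _))
        obtain ⟨h4, _⟩ := hU.out_eq h3 h
        split_ifs at h4 with h5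
        · exact Or.inr ⟨a, m, rfl, hm, ha, h4, Or.inl ⟨hh, s, hs, h5⟩⟩
        · exact Or.inl h4
      · exfalso
        obtain ⟨M, _, h5, _⟩ := hU.bwd _ _ _ h
        exact path_of_final h1 h5 (fun i => dec2_not V _ _ hno i)
    · obtain ⟨K', hK'⟩ := dne_A V
      obtain ⟨N', h2, _⟩ := hK' B (nval m) a (Y V B (nval m)) _ hane hh le_rfl
      have h3 := (h1.mono (le_max_left _ _)).trans (h2.mono (le_max_right _ _))
      obtain ⟨h4, _⟩ := hU.out_eq h3 h
      split_ifs at h4 with h5
      · exact Or.inr ⟨a, m, rfl, hm, ha, h4, Or.inr ⟨hh, h5⟩⟩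
      · exact Or.inl h4
  · left
    have h1 : Rn V 0 ((0, init B (true :: w)), emp V) ((0, cFin []), emp V) 0 := by
      rw [h0]
      exact Rn.refl _ _ _
    exact (hU.out_eq h1 h).1

end

theorem two_lg_le {n : ℕ} (hn : 4 ≤ n) : 2 * lg n ≤ n := by
  have hlg := lg_le n
  have h1 : ∀ l, 4 ≤ l → 2 * l + 1 < 2 ^ l := by
    intro l hl
    induction l, hl using Nat.le_induction with
    | base => norm_num
    | succ l hl ih => rw [pow_succ]; omega
  by_contra hcon
  rcases lt_or_ge (lg n) 4 with h2 | h2
  · interval_cases h : lg n <;> omega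
  · have := h1 _ h2
    omega

/-- The string with given data. -/
noncomputable def str (V : Tbl) (B n : ℕ) (a : List Bool) : List Bool := Y V B n ++ a

theorem length_str (V : Tbl) (B : ℕ) {n : ℕ} {a : List Bool} (hn : 4 ≤ n)
    (ha : a.length = 2 * lg n) : (str V B n a).length = n := by
  have h1 := two_lg_le hn
  rw [str, List.length_append, length_Y, ha]
  omega

section

variable {V : Tbl} {B : ℕ} {T T0 : Polynomial ℕ} {U : Machine}

/-- If the string `str V B n a` has a cheap description, then `a` is accepted. -/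
theorem IsMach.acc_of_outputs (hU : IsMach V B T T0 U) (hB : 2 ≤ B) {n : ℕ} (hn : 5 ≤ n)
    {a d : List Bool} {t : ℕ} (ha : a.length = 2 * lg n) (h : Outputs U d (str V B n a) t)
    (hlt : 2 ^ d.length * t < 2 ^ n) : Acc V B n a := by
  have hlen := length_str V B (by omega : 4 ≤ n) ha
  by_cases hd : d.head? = some true
  · obtain ⟨w, rfl⟩ : ∃ w, d = true :: w := by
      cases d with
      | nil => simp at hd
      | cons b w => simp at hd; exact ⟨w, by rw [hd]⟩
    rcases hU.out_cases h with h1 | ⟨a', m, hw, hm, ha', hx, hacc⟩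
    · exfalso
      rw [h1] at hlen
      simp at hlen
      omega
    · have hl' : (Y V B (nval m) ++ a').length = n := by rw [← hx, hlen]
      rw [List.length_append, length_Y, ha'] at hl'
      have hm' := lg_nval' m
      rw [hm'] at hl'
      have hnm : nval m = n := by
        rcases lt_or_ge (nval m) 4 with h4 | h4
        · exfalso
          have h5 := lg_le (nval m)
          rw [hm'] at h5
          have h6 : m.length ≤ 2 := by
            by_contra hcon
            have : 2 ^ 3 ≤ 2 ^ m.length := Nat.pow_le_pow_right (by norm_num) (by omega)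
            omega
          have h7 : 0 < m.length := List.length_pos_of_ne_nil hm
          omega
        · have := two_lg_le h4
          rw [hm'] at this
          omega
      rw [hnm] at hx hacc
      have : a = a' := by
        unfold str at hx
        exact List.append_cancel_left hx
      rw [this]
      exact hacc
  · exfalso
    rw [← hlen] at hlt
    have h1 := hU.hp hd h hlt
    rw [hlen] at h1
    exact not_hp_Y hB _ (h1.of_prefix (List.prefix_append _ _))

end

end Pool.Agent.Lib.MP_33f9c4_lc.Ef
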