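import Pool.Agent.Lib.MP_33f9c4_lc.Near2

/-!
# The main theorem on machines near to a given one
-/

namespace Pool.Agent.Lib.MP_33f9c4_lc.Ef

open Pool.Agent.Lib.PolyTime Function Finset

set_option synthInstance.maxSize 2000

theorem length_mout (c : Cfg) : (mout c).length = (stk c).length := by
  simp [mout]

/-- The stacks grow by at most one symbol at each step. -/
theorem length_stack_iter (c : Cfg) (s : ℕ) (A : ℕ) (h : ∀ i, (c.2.2.getD i []).length ≤ A) :
    ∀ i, ((mstep^[s] c).2.2.getD i []).length ≤ A + s := by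
  induction s with
  | zero => simpa using h
  | succ s ih =>
    rw [iterate_succ_apply']
    generalize mstep^[s] c = c' at ih ⊢
    have key : ∀ (j : ℕ) (l : List ℕ), l.length ≤ A + (s + 1) →
        ∀ i, ((c'.2.2.set j l).getD i []).length ≤ A + (s + 1) := by
      intro j l hl i
      rw [List.getD_eq_getElem?_getD, List.getElem?_set]
      have := ih i
      rw [List.getD_eq_getElem?_getD] at this
      split_ifs with h1 h2
      · simpa using hl
      · simp
      · omega
    intro i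
    unfold mstep
    split_ifs
    · refine key _ _ ?_ i
      have := ih (fld c' 1)
      simp only [stk, List.length_cons]
      omega
    · refine key _ _ ?_ i
      have := ih (fld c' 1)
      simp only [stk, List.length_tail]
      omega
    · have := ih i
      simp only
      omega
    · have := ih i
      omega

theorem length_yl (V : Tbl) (e : List Bool) (s : ℕ) : (yl V e s).length ≤ e.length + s := by
  unfold yl
  rw [length_mout]
  refine length_stack_iter _ _ _ (fun i => ?_) _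
  rcases i with _ | i
  · simp [minit]
  · simp only [minit, List.getD_cons_succ]
    rw [List.getD_eq_getElem?_getD, List.getElem?_replicate]
    split_ifs <;> simp

section

variable {V : Tbl} {B : ℕ} {T T0 : Polynomial ℕ} {U V0 : Machine} {c : ℕ}

/-- The relation between a machine and its table. -/
structure Rel (V0 : Machine) (V : Tbl) (c : ℕ) : Prop where
  fwd : ∀ (d x : List Bool) (t : ℕ), Outputs V0 d x t →
    ∃ s ≤ c * (t + 1), Halts (minit V d) s ∧ yl V d s = x
  bwd : ∀ (d : List Bool) (s : ℕ), Halts (minit V d) s → ∃ t, Outputs V0 d (yl V d s) t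

theorem exists_rel (V0 : Machine) : ∃ (V : Tbl) (c : ℕ), Rel V0 V c := by
  obtain ⟨V, c, h1, h2⟩ := exists_table_exact V0
  refine ⟨V, c, fun d x t h => ?_, fun d s h => h2 d s h.1 h.2⟩
  obtain ⟨s, hs, h3, h4, h5⟩ := h1 d x t h
  exact ⟨s, hs, ⟨h4, h3⟩, h5⟩

theorem Rel.hex (hR : Rel V0 V c) (hU : IsMach V B T T0 U) {x : List Bool}
    (h : ∃ d t, Outputs V0 d x t) : ∃ d t, Outputs U d x t := by
  obtain ⟨d, t, h⟩ := h
  obtain ⟨s, _, hs, hy⟩ := hR.fwd d x t h
  obtain ⟨d', t', h'⟩ := hU.exists_output hs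
  rw [hy] at h'
  exact ⟨d', t', h'⟩

theorem Good.hex (h : Good V0) (x : List Bool) : ∃ d t, Outputs V0 d x t := by
  obtain ⟨C, hC⟩ := h
  obtain ⟨d, t, h1, _⟩ := hC x
  exact ⟨d, t, h1⟩

/-- The complexity with respect to `U` exceeds the complexity with respect to the given machine by
at most `O(log |x|)`. -/
theorem Rel.kt_le (hR : Rel V0 V c) (hU : IsMach V B T T0 U) (hG : Good V0) :
    ∃ b : ℝ, 0 ≤ b ∧ ∀ x : List Bool, Kt U x ≤ Kt V0 x + b * Real.logb 2 (x.length + 2) := by
  obtain ⟨P, hP⟩ := hU.base_fwd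
  have hhex := fun x => hG.hex x
  obtain ⟨C, hC⟩ := hG
  obtain ⟨D, k, hD⟩ := eval_lin_le P (2 * C + 2 * c + 2)
  refine ⟨1 + (((2 * c + 1) * D : ℕ) + k), by positivity, fun x => ?_⟩
  have hL : (1 : ℝ) ≤ Real.logb 2 ((x.length : ℝ) + 2) := by
    rw [Real.le_logb_iff_rpow_le (by norm_num) (by positivity)]
    have : (0 : ℝ) ≤ x.length := Nat.cast_nonneg _
    rw [Real.rpow_one]
    linarith
  -- descriptions that are not too expensive
  have key : ∀ (d : List Bool) (t : ℕ), Outputs V0 d x t →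
      (d.length : ℝ) + Real.logb 2 t ≤ C * (x.length + 1) →
      Kt U x ≤ d.length + Real.logb 2 t +
        (1 + (((2 * c + 1) * D : ℕ) + k)) * Real.logb 2 (x.length + 2) := by
    intro d t h hle
    obtain ⟨s, hs, hh, hy⟩ := hR.fwd d x t h
    have h1 := hP d s hh
    rw [hy] at h1
    have h2 := Ef.kt_le h1
    have hd1 : (d.length : ℝ) ≤ (C * (x.length + 1) : ℕ) := by
      have := logb_nonneg t
      push_cast
      linarith
    have hd2 : d.length ≤ C * (x.length + 1) := by exact_mod_cast hd1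
    have ht1 : max t 1 ≤ 2 ^ (C * (x.length + 1)) := by
      have h3 : Real.logb 2 ((max t 1 : ℕ) : ℝ) ≤ ((C * (x.length + 1) : ℕ) : ℝ) := by
        rw [logb_max]
        push_cast
        have : (0 : ℝ) ≤ d.length := Nat.cast_nonneg _
        linarith
      have h4 : (0 : ℝ) < ((max t 1 : ℕ) : ℝ) := by
        have : 0 < max t 1 := by omega
        exact_mod_cast this
      rw [Real.logb_le_iff_le_rpow (by norm_num) h4, Real.rpow_natCast] at h3
      exact_mod_cast h3
    have hs1 : s + 1 ≤ (2 * c + 1) * max t 1 := by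
      have h5 : 1 ≤ max t 1 := by omega
      have h6 : t ≤ max t 1 := by omega
      have h7 : c * (t + 1) ≤ c * (2 * max t 1) := Nat.mul_le_mul_left _ (by omega)
      have h8 : (2 * c + 1) * max t 1 = c * (2 * max t 1) + max t 1 := by ring
      omega
    have hlg : lg s ≤ (2 * c + 1) + C * (x.length + 1) := by
      have h5 := lg_le s
      have h6 : 2 ^ lg s ≤ 2 ^ ((2 * c + 1) + C * (x.length + 1)) := by
        rw [pow_add]
        calc 2 ^ lg s ≤ (2 * c + 1) * max t 1 := h5.trans hs1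
          _ ≤ 2 ^ (2 * c + 1) * 2 ^ (C * (x.length + 1)) :=
            Nat.mul_le_mul (Nat.lt_two_pow_self).le ht1
      exact (Nat.pow_le_pow_iff_right (by norm_num)).mp h6
    have hz : d.length + x.length + lg s ≤ (2 * C + 2 * c + 2) * (x.length + 2) := by
      have e1 : (2 * C + 2 * c + 2) * (x.length + 2) = 2 * (C * (x.length + 1)) + 2 * C +
        2 * (c * x.length) + 4 * c + 2 * x.length + 4 := by ring
      omega
    have h9 := hD x.length _ hz
    have h10 : (s + 1) * P.eval (d.length + x.length + lg s) ≤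
        ((2 * c + 1) * D) * max t 1 * (x.length + 2) ^ k := by
      calc (s + 1) * P.eval (d.length + x.length + lg s)
          ≤ ((2 * c + 1) * max t 1) * (D * (x.length + 2) ^ k) := Nat.mul_le_mul hs1 h9
        _ = ((2 * c + 1) * D) * max t 1 * (x.length + 2) ^ k := by ring
    have h11 := logb_mono h10
    have h12 := logb_prod_le ((2 * c + 1) * D) t k x.length
    have h13 : ((false :: d).length : ℝ) = d.length + 1 := by simp
    rw [h13] at h2
    have h14 : (1 + ((((2 * c + 1) * D : ℕ) : ℝ) + k)) * Real.logb 2 ((x.length : ℝ) + 2) =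
      Real.logb 2 ((x.length : ℝ) + 2) +
        ((((2 * c + 1) * D : ℕ) : ℝ) + k) * Real.logb 2 ((x.length : ℝ) + 2) := by ring
    rw [h14]
    linarith
  obtain ⟨d0, t0, h0, hle0⟩ := hC x
  have h1 : Kt U x - (1 + (((2 * c + 1) * D : ℕ) + k)) * Real.logb 2 (x.length + 2) ≤
      Kt V0 x := by
    refine le_kt (hhex x) fun d t h => ?_
    rcases le_or_gt ((d.length : ℝ) + Real.logb 2 t) (C * (x.length + 1)) with h2 | h2
    · have := key d t h h2
      linarith
    · have := key d0 t0 h0 hle0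
      linarith
  linarith

/-- `U` is universal if the given machine is. -/
theorem Rel.universal (hR : Rel V0 V c) (hU : IsMach V B T T0 U) (hV : Universal V0) :
    Universal U := by
  obtain ⟨P, hP⟩ := hU.base_fwd
  obtain ⟨Q, hQ⟩ := hV
  refine ⟨(Polynomial.C c * (Q + 1) + 1) * P.comp (Polynomial.X + 2 * (Polynomial.C c * (Q + 1))),
    fun M => ?_⟩
  obtain ⟨p, a, h1, h2⟩ := hQ M
  refine ⟨false :: p, a + 2 * p.length + 2, fun d x t h => ?_, fun d x t h => ?_⟩
  · obtain ⟨s, hs, hh, hy⟩ := hR.fwd _ _ _ (h1 d x t h)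
    have h3 := hP _ s hh
    rw [hy] at h3
    refine Outputs.mono h3 ?_
    set z := (a + 2 * p.length + 2) * (d.length + t + 1) with hz
    have hlen := length_yl V (p ++ d) s
    rw [hy, List.length_append] at hlen
    have hlg := lg_le_self s
    have hQz : Q.eval (a * (d.length + t + 1)) ≤ Q.eval z :=
      eval_mono Q (Nat.mul_le_mul_right _ (by omega))
    have hs' : s ≤ c * (Q.eval z + 1) := hs.trans (Nat.mul_le_mul_left _ (by omega))
    have hpd : 2 * p.length + 2 * d.length ≤ z := by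
      have e : z = a * (d.length + t + 1) + 2 * (p.length * (d.length + t)) + 2 * p.length +
        2 * d.length + 2 * t + 2 := by rw [hz]; ring
      omega
    simp only [Polynomial.eval_mul, Polynomial.eval_add, Polynomial.eval_comp, Polynomial.eval_X,
      Polynomial.eval_one, Polynomial.eval_C, Polynomial.eval_ofNat]
    refine Nat.mul_le_mul (by omega) (eval_mono P ?_)
    rw [List.length_append]
    omega
  · obtain ⟨s, hs, hx, _⟩ := hU.base_bwd (by simp) h
    obtain ⟨t1, h3⟩ := hR.bwd _ s hs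
    rw [← hx] at h3
    exact h2 d x t1 h3

/-- `U` is optimal if the given machine is. -/
theorem Rel.optimal (hR : Rel V0 V c) (hU : IsMach V B T T0 U) (hV : Optimal V0) :
    Optimal U := by
  obtain ⟨b, hb, h1⟩ := hR.kt_le hU (Optimal.good hV)
  intro M
  obtain ⟨a, ha⟩ := hV M
  refine ⟨a + b, fun d x t h => ?_⟩
  obtain ⟨h2, h3⟩ := ha d x t h
  refine ⟨hR.hex hU h2, ?_⟩
  have := h1 x
  linarith

/-- The lower bound. -/
theorem IsMach.hard (hU : IsMach V B T T0 U) (hex : ∀ x, ∃ d t, Outputs U d x t) {κ : ℕ}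
    (hκ : ∀ K B : ℕ, κ ≤ B → ∃ n0, ∀ n ≥ n0, 32 * (n + 1) ^ 3 *
      ((K * (n + 1) ^ 2 * 2 ^ (n - B * lg n) + 1) * T.eval (K * (B + n + 1))) ≤ 2 ^ n)
    (hB : κ ≤ B) (hB2 : 2 ≤ B) :
    ∃ c > 0, ∀ D : Machine, ∃ n0, ∀ n ≥ n0, ∃ x : List Bool, x.length = n ∧
      ¬ open Classical in Outputs D x [decide (x ∈ RKt U)] (2 ^ (n / c)) := by
  obtain ⟨c, hc, hmode⟩ := hU.mode_B hκ hB
  refine ⟨c, hc, fun D => ?_⟩
  classical
  obtain ⟨Tb, b, h1, _⟩ := exists_table_exact D
  obtain ⟨n1, hn1⟩ := hmode Tb b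
  refine ⟨n1 + 2 ^ ((tblCode Tb).length + 1) + 20, fun n hn => ?_⟩
  have hpos : 0 < 2 ^ ((tblCode Tb).length + 1) := by positivity
  have hlg : (tblCode Tb).length + 1 ≤ lg n := le_lg (by omega)
  obtain ⟨a, ha⟩ : ∃ a, a = true :: (tblCode Tb ++
      List.replicate (2 * lg n - ((tblCode Tb).length + 1)) false) := ⟨_, rfl⟩
  have hal : a.length = 2 * lg n := by
    rw [ha, List.length_cons, List.length_append, List.length_replicate]
    omega
  have hah : a.head? = some true := by rw [ha]; rfl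
  have hap : (parse a.tail).1 = Tb := by rw [ha, List.tail_cons, parse_code]
  refine ⟨str V B n a, length_str V B (by omega) hal, fun hD => ?_⟩
  obtain ⟨s, hs, h2, h3, h4⟩ := h1 _ _ _ hD
  by_cases hmem : str V B n a ∈ RKt U
  · refine hn1 n (by omega) a hal hah hap s hs ⟨h3, h2⟩ ?_ hmem
    rw [h4]
    simp [hmem]
  · rcases hU.acc_of_not_mem hB2 (by omega) hal (hex _) hmem with ⟨_, s', hs', h5⟩ | ⟨h5, _⟩
    · rw [hap] at hs' h5
      have : s = s' := Halts.unique (c := minit Tb (str V B n a)) ⟨h3, h2⟩ hs'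
      subst this
      change mout (mstep^[s] (minit Tb (str V B n a))) = [true] at h5
      rw [h4] at h5
      simp [hmem] at h5
    · exact h5 hah

end

theorem exists_mach (V : Tbl) : ∃ T : Polynomial ℕ, ∀ B, ∃ (U : Machine) (T0 : Polynomial ℕ),
    IsMach V B T T0 U := by
  obtain ⟨T, hT⟩ := exists_loop2 (pt_G V) pt_out (V.length + 1)
  refine ⟨T, fun B => ?_⟩
  obtain ⟨K, _, _, P, k₀, T0, h1, h2⟩ := hT (init B) (pt_init B)
  exact ⟨progMachine P k₀, T0, h1, h2⟩

/-- The main theorem on Q1. -/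
theorem main2 (V : Machine) (hV : Universal V ∨ Optimal V) :
    ∃ U : Machine, (Universal V → Universal U) ∧ (Optimal V → Optimal U) ∧
      (∃ b : ℝ, ∀ x : List Bool, Kt U x ≤ Kt V x + b * Real.logb 2 (x.length + 2)) ∧
      (Optimal V → ∃ b : ℝ, ∀ x : List Bool, Kt V x ≤ Kt U x + b * Real.logb 2 (x.length + 2)) ∧
      ¬ InP (RKt U) ∧
      ∃ c, 0 < c ∧ ∀ D : Machine, ∃ n0, ∀ n ≥ n0, ∃ x : List Bool, x.length = n ∧
        ¬ open Classical in Outputs D x [decide (x ∈ RKt U)] (2 ^ (n / c)) := by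
  have hG : Good V := hV.elim Universal.good Optimal.good
  obtain ⟨Tb, c, hR⟩ := exists_rel V
  obtain ⟨T, hT⟩ := exists_mach Tb
  obtain ⟨κ, hκ⟩ := cost_search T
  obtain ⟨U, T0, hU⟩ := hT (κ + 2)
  have hexU : ∀ x, ∃ d t, Outputs U d x t := fun x => hR.hex hU (hG.hex x)
  obtain ⟨b, hb, hkt⟩ := hR.kt_le hU hG
  obtain ⟨c', hc', hhard⟩ := hU.hard hexU hκ (by omega) (by omega)
  refine ⟨U, hR.universal hU, hR.optimal hU, ⟨b, hkt⟩, fun hO => ?_, not_inP hc' hhard,
    c', hc', hhard⟩
  obtain ⟨a, ha⟩ := hO U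
  refine ⟨a, fun x => ?_⟩
  have h1 : Kt V x - a * Real.logb 2 (x.length + 2) ≤ Kt U x := by
    refine le_kt (hexU x) fun d t h => ?_
    have := (ha d x t h).2
    linarith
  linarith

end Pool.Agent.Lib.MP_33f9c4_lc.Ef
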