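import Pool.Agent.Lib.MP_33f9c4_lc.QDefs

/-!
# Computing the generator with the decision procedure of the language
-/

namespace Pool.Agent.Lib.MP_33f9c4_lc.Qt

open Pool.Agent.Lib.PolyTime Function Finset

set_option synthInstance.maxSize 2000

namespace Gen

section General

variable {α β : Type} [Enc α] [Enc β]

/-- Folds with bounded natural values. -/
theorem pt_foldl_le {f : α → List β} {step : α → ℕ → β → ℕ} {init g : α → ℕ} (hf : PT f)
    (hi : PT init) (hg : PT g) (hs : PT (fun x : α × (ℕ × β) => step x.1 x.2.1 x.2.2))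
    (h0 : ∀ a, init a ≤ g a) (h : ∀ a s b, step a s b ≤ g a) :
    PT (fun a => (f a).foldl (step a) (init a)) := by
  obtain ⟨P, hP⟩ := hg.size_le
  refine PT.foldl hf hi hs (B := fun n => P.eval n) (PB.poly P) ?_
  intro a l' _
  have h1 : l'.foldl (step a) (init a) ≤ g a := by
    rcases List.eq_nil_or_concat l' with rfl | ⟨l, b, rfl⟩
    · exact h0 a
    · rw [List.concat_eq_append, List.foldl_append]
      exact h a _ b
  have h2 := hP a
  rw [size_nat] at h2 ⊢
  omega

/-- Iterations with bounded natural values. -/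
theorem pt_iterate_le {f : α → ℕ} {step : α → ℕ → ℕ} {init g : α → ℕ} (hf : PT f)
    (hi : PT init) (hg : PT g) (hs : PT (fun x : α × ℕ => step x.1 x.2))
    (h : ∀ a i, i ≤ f a → (step a)^[i] (init a) ≤ g a) :
    PT (fun a => (step a)^[f a] (init a)) := by
  obtain ⟨P, hP⟩ := hg.size_le
  refine PT.iterate hf hi hs (B := fun n => P.eval n) (PB.poly P) ?_
  intro a i hi'
  have h1 := h a i hi'
  have h2 := hP a
  rw [size_nat] at h2 ⊢
  omega

/-! ### Remainders -/

theorem mod_iter (p : ℕ) : ∀ m n : ℕ, n ≤ m →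
    (fun r => if p ≤ r then r - p else r)^[m] n = n % p := by
  intro m
  induction m with
  | zero =>
    intro n hn
    obtain rfl : n = 0 := by omega
    simp
  | succ m ih =>
    intro n hn
    rw [iterate_succ_apply]
    by_cases h : p ≤ n
    · rw [if_pos h]
      rcases Nat.eq_zero_or_pos p with rfl | hp
      · have : ∀ m : ℕ, (fun r : ℕ => if 0 ≤ r then r - 0 else r)^[m] n = n := by
          intro m
          refine Function.iterate_fixed ?_ m
          simp
        rw [Nat.sub_zero, this, Nat.mod_zero]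
      · rw [ih _ (by omega), Nat.mod_eq_sub_mod h]
    · rw [if_neg h, Function.iterate_fixed (by simp only [if_neg h]), Nat.mod_eq_of_lt (by omega)]

theorem pt_mod {f g : α → ℕ} (hf : PT f) (hg : PT g) : PT (fun a => f a % g a) := by
  refine (pt_iterate_le (f := f) (init := f) (g := f)
    (step := fun a r => if g a ≤ r then r - g a else r) hf hf hf
    (PT.ite (c := fun x : α × ℕ => g x.1 ≤ x.2) (PT.le (hg.comp PT.fst) PT.snd)
      (PT.sub PT.snd (hg.comp PT.fst)) PT.snd) ?_).congr (fun a => mod_iter _ _ _ le_rfl)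
  intro a i _
  have h1 : ∀ i m : ℕ, (fun r => if g a ≤ r then r - g a else r)^[i] m ≤ m := by
    intro i
    induction i with
    | zero => intro m; exact le_refl _
    | succ i ih =>
      intro m
      rw [iterate_succ_apply]
      refine (ih _).trans ?_
      split_ifs <;> omega
  exact h1 _ _

/-- The remainder, or `0` if the modulus is `0`. -/
def md (p n : ℕ) : ℕ := if 0 < p then n % p else 0

theorem md_le (p n : ℕ) : md p n ≤ p := by
  unfold md
  split_ifs with h
  · exact (Nat.mod_lt _ h).le
  · omega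

theorem md_eq {p : ℕ} (hp : 0 < p) (n : ℕ) : md p n = n % p := if_pos hp

theorem pt_md {f g : α → ℕ} (hf : PT f) (hg : PT g) : PT (fun a => md (f a) (g a)) :=
  PT.ite (c := fun a => 0 < f a) (PT.lt (PT.const 0) hf) (pt_mod hg hf) (PT.const 0)

theorem cast_md {p : ℕ} (hp : 0 < p) (n : ℕ) : ((md p n : ℕ) : ZMod p) = n := by
  rw [md_eq hp, ZMod.natCast_mod]

/-- The value of a binary string modulo `p`. -/
def msbm (p : ℕ) (l : List Bool) : ℕ :=
  l.foldl (fun r b => md p (r + r + if b = true then 1 else 0)) 0

theorem msbm_le (p : ℕ) (l : List Bool) : msbm p l ≤ p := by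
  unfold msbm
  rcases List.eq_nil_or_concat l with rfl | ⟨l, b, rfl⟩
  · simp
  · rw [List.concat_eq_append, List.foldl_append]
    exact md_le _ _

theorem cast_msbm {p : ℕ} (hp : 0 < p) (l : List Bool) :
    ((msbm p l : ℕ) : ZMod p) = (msb l : ℕ) := by
  have h : ∀ (l : List Bool) (r n : ℕ), (r : ZMod p) = (n : ZMod p) →
      ((l.foldl (fun r b => md p (r + r + if b = true then 1 else 0)) r : ℕ) : ZMod p) =
        (l.foldl (fun n b => Nat.bit b n) n : ℕ) := by
    intro l
    induction l with
    | nil => intro r n h; exact h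
    | cons b l ih =>
      intro r n h
      rw [List.foldl_cons, List.foldl_cons]
      refine ih _ _ ?_
      rw [cast_md hp, Nat.bit_val]
      push_cast
      rw [h]
      cases b <;> simp [two_mul]
  exact h l 0 0 rfl

theorem pt_msbm {f : α → ℕ} {g : α → List Bool} (hf : PT f) (hg : PT g) :
    PT (fun a => msbm (f a) (g a)) := by
  refine pt_foldl_le (f := g) (init := fun _ => 0) (g := f)
    (step := fun a r b => md (f a) (r + r + if b = true then 1 else 0)) hg (PT.const 0) hf ?_
    (fun a => Nat.zero_le _) (fun a s b => md_le _ _)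
  exact pt_md (hf.comp PT.fst) (PT.add (PT.add PT.snd.fst' PT.snd.fst')
    (PT.cond (c := fun x : α × (ℕ × Bool) => x.2.2) PT.snd.snd' (PT.const 1) (PT.const 0)))

/-! ### All strings of a given length -/

/-- All strings of length `n` (if there are at most `M`). -/
def strs (M n : ℕ) : List (List Bool) :=
  (fun l : List (List Bool) => (l.flatMap (fun z => [true :: z, false :: z])).take M)^[n] [[]]

/-- All strings of length `n`. -/
def strs' : ℕ → List (List Bool)
  | 0 => [[]]
  | n + 1 => (strs' n).flatMap (fun z => [true :: z, false :: z])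

theorem length_strs' (n : ℕ) : (strs' n).length = 2 ^ n := by
  induction n with
  | zero => rfl
  | succ n ih =>
    rw [strs', List.length_flatMap]
    simp [ih, pow_succ]

theorem strs_eq {M : ℕ} : ∀ {n : ℕ}, 2 ^ n ≤ M → strs M n = strs' n := by
  intro n
  induction n with
  | zero => intro _; rfl
  | succ n ih =>
    intro h
    have h1 : 2 ^ n ≤ M := le_trans (Nat.pow_le_pow_right (by norm_num) (by omega)) h
    have h2 : strs M (n + 1) =
        ((strs M n).flatMap (fun z => [true :: z, false :: z])).take M := by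
      unfold strs
      rw [iterate_succ_apply']
    rw [h2, ih h1]
    have h3 := length_strs' (n + 1)
    rw [strs'] at h3 ⊢
    exact List.take_of_length_le (by omega)

theorem sum_strs' {R : Type} [CommSemiring R] : ∀ (n : ℕ) (F : List Bool → R),
    ∑ y : Fin n → Bool, F (List.ofFn y) = ((strs' n).map F).sum := by
  intro n
  induction n with
  | zero =>
    intro F
    rw [Fintype.sum_unique]
    simp [strs']
  | succ n ih =>
    intro F
    rw [← (Fin.consEquiv (fun _ => Bool)).sum_comp, Fintype.sum_prod_type, Fintype.sum_bool]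
    have h1 : ∀ (b : Bool) (y : Fin n → Bool),
        List.ofFn (Fin.consEquiv (fun _ => Bool) (b, y)) = b :: List.ofFn y := by
      intro b y
      rw [List.ofFn_succ]
      simp [Fin.consEquiv]
    simp only [h1]
    rw [ih (fun l => F (true :: l)), ih (fun l => F (false :: l)), strs']
    generalize strs' n = L
    induction L with
    | nil => simp
    | cons z L ihL =>
      simp only [List.map_cons, List.sum_cons, List.flatMap_cons, List.map_append, List.sum_append,
        List.map_nil, List.sum_nil] at ihL ⊢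
      rw [← ihL]
      ring

theorem pt_strs {f g : α → ℕ} (hf : PT f) (hg : PT g) : PT (fun a => strs (f a) (g a)) := by
  obtain ⟨P, hP⟩ := hf.size_le
  obtain ⟨R, hR⟩ := hg.size_le
  refine PT.iterate (f := g) (init := fun _ => [[]])
    (step := fun a l => (l.flatMap (fun z => [true :: z, false :: z])).take (f a)) hg (PT.const _)
    (mpt_take (hf.comp PT.fst) (PT.flatMap (f := fun x : α × List (List Bool) => x.2)
      (g := fun _ z => [true :: z, false :: z]) PT.snd
      (PT.cons (PT.cons (PT.const true) PT.snd)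
        (PT.list1 (PT.cons (PT.const false) PT.snd)))))
    (B := fun n => (P.eval n + 1) * (4 * R.eval n + 2) + 1)
    (((PB.poly P).add (PB.const 1)).mul (((PB.const 4).mul (PB.poly R)).add (PB.const 2)) |>.add
      (PB.const 1)) ?_
  intro a i hi
  have h1 : ∀ i : ℕ, ((fun l : List (List Bool) =>
      (l.flatMap (fun z => [true :: z, false :: z])).take (f a))^[i] [[]]).length ≤ f a + 1 ∧
      ∀ z ∈ ((fun l : List (List Bool) =>
        (l.flatMap (fun z => [true :: z, false :: z])).take (f a))^[i] [[]]), z.length = i := by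
    intro i
    induction i with
    | zero => exact ⟨by simp, by simp⟩
    | succ i ih =>
      rw [iterate_succ_apply']
      refine ⟨(List.length_take_le _ _).trans (Nat.le_succ _), fun z hz => ?_⟩
      have h2 := List.mem_of_mem_take hz
      rw [List.mem_flatMap] at h2
      obtain ⟨z', hz', h3⟩ := h2
      have h4 := ih.2 z' hz'
      simp only [List.mem_cons, List.not_mem_nil, or_false] at h3
      rcases h3 with rfl | rfl <;> simp [h4]
  obtain ⟨h2, h3⟩ := h1 i
  have h4 := hP a
  have h5 := hR a
  rw [size_nat] at h4 h5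
  have h6 := size_list_le (S := 4 * R.eval (size a) + 1) _ (fun z hz => by
    have h7 := size_bools_le z
    have h8 := h3 z hz
    omega)
  have h9 := Nat.mul_le_mul_right (4 * R.eval (size a) + 1 + 1) (h2.trans (show f a + 1 ≤
    P.eval (size a) + 1 by omega))
  have h10 : 4 * R.eval (size a) + 1 + 1 = 4 * R.eval (size a) + 2 := rfl
  rw [h10] at h6 h9
  omega

end General

/-! ### The multilinear extension -/

/-- The term of the string `z`. -/
def term (p N : ℕ) (y z : List Bool) : ℕ :=
  (List.range N).foldl (fun s i => md p (s *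
    (if z.getD i false = true then msbm p ((y.drop (i * bN N)).take (bN N))
      else p + 1 - msbm p ((y.drop (i * bN N)).take (bN N))))) (md p 1)

theorem cast_prod {p : ℕ} (hp : 0 < p) (g : ℕ → ℕ) (n : ℕ) :
    (((List.range n).foldl (fun s i => md p (s * g i)) (md p 1) : ℕ) : ZMod p) =
      ∏ i : Fin n, (g i : ZMod p) := by
  induction n with
  | zero => simp [cast_md hp]
  | succ n ih =>
    rw [List.range_succ, List.foldl_append, List.foldl_cons, List.foldl_nil, cast_md hp,
      Fin.prod_univ_castSucc]
    push_cast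
    rw [ih]
    simp

theorem cast_term {p : ℕ} (hp : 0 < p) (N : ℕ) (y : List Bool) (z : Fin N → Bool) :
    ((term p N y (List.ofFn z) : ℕ) : ZMod p) = ∏ i : Fin N,
      (if z i = true then ((msb ((y.drop (i * bN N)).take (bN N)) : ℕ) : ZMod p)
        else 1 - ((msb ((y.drop (i * bN N)).take (bN N)) : ℕ) : ZMod p)) := by
  unfold term
  rw [cast_prod hp]
  refine Finset.prod_congr rfl fun i _ => ?_
  have h1 : (List.ofFn z).getD i false = z i := by
    rw [List.getD_eq_getElem _ _ (by simp)]
    simp
  rw [h1]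
  split_ifs
  · exact cast_msbm hp _
  · have h2 := msbm_le p ((y.drop (i * bN N)).take (bN N))
    rw [Nat.cast_sub (by omega), cast_msbm hp]
    simp

/-- The value of the multilinear extension. -/
def val (Ld : List Bool × ℕ → Bool) (p N M : ℕ) (y : List Bool) : ℕ :=
  (strs M N).foldl (fun s z => md p (s + if Ld (z, M) = true then term p N y z else 0)) 0

theorem cast_foldl_add {p : ℕ} (hp : 0 < p) (g : List Bool → ℕ) (l : List (List Bool)) :
    ∀ s : ℕ, ((l.foldl (fun s z => md p (s + g z)) s : ℕ) : ZMod p) =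
      s + (l.map (fun z => (g z : ZMod p))).sum := by
  induction l with
  | nil => intro s; simp
  | cons z l ih =>
    intro s
    rw [List.foldl_cons, ih, cast_md hp, List.map_cons, List.sum_cons]
    push_cast
    ring

theorem val_lt (Ld : List Bool × ℕ → Bool) {p : ℕ} (hp : 0 < p) (N M : ℕ) (y : List Bool) :
    val Ld p N M y < p := by
  unfold val
  rcases List.eq_nil_or_concat (strs M N) with h | ⟨l, b, h⟩
  · rw [h]
    exact hp
  · rw [h, List.concat_eq_append, List.foldl_append, List.foldl_cons, List.foldl_nil, md_eq hp]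
    exact Nat.mod_lt _ hp

theorem val_eq {Ld : List Bool × ℕ → Bool} {p N M : ℕ} (hp : 0 < p) (hM : 2 ^ N ≤ M)
    (f : (Fin N → Bool) → Bool) (hf : ∀ z, f z = Ld (List.ofFn z, M)) (y : List Bool) :
    (mle p f (fun i : Fin N => ((msb ((y.drop (i * bN N)).take (bN N)) : ℕ) : ZMod p))).val =
      val Ld p N M y := by
  have h1 : ((val Ld p N M y : ℕ) : ZMod p) =
      mle p f (fun i : Fin N => ((msb ((y.drop (i * bN N)).take (bN N)) : ℕ) : ZMod p)) := by
    unfold val mle
    rw [cast_foldl_add hp (fun z => if Ld (z, M) = true then term p N y z else 0), strs_eq hM,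
      ← sum_strs', Nat.cast_zero, zero_add]
    refine Finset.sum_congr rfl fun z _ => ?_
    rw [hf z]
    split_ifs
    · rw [one_mul]
      exact cast_term hp N y z
    · simp
  rw [← h1, ZMod.val_natCast, Nat.mod_eq_of_lt (val_lt Ld hp N M y)]

/-! ### The generator -/

/-- The hard bit. -/
def gb (Ld : List Bool × ℕ → Bool) (p N M : ℕ) (y : List Bool) : Bool :=
  decide ((⟨val Ld p N M y⟩ : BN).val = (⟨msb (y.drop (N * bN N))⟩ : BN).val)

theorem gb_eq {Ld : List Bool × ℕ → Bool} {p N M : ℕ} (hp : 0 < p) (hM : 2 ^ N ≤ M)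
    (f : (Fin N → Bool) → Bool) (hf : ∀ z, f z = Ld (List.ofFn z, M)) (y : List Bool) :
    gbit p N f y = gb Ld p N M y := by
  unfold gbit gb
  rw [val_eq hp hM f hf y]

/-- The sum of the hard bits of consecutive blocks. -/
def xb (Ld : List Bool × ℕ → Bool) (p N M k' : ℕ) (ys : List Bool) : Bool :=
  (List.range k').foldl (fun s i => xor s (gb Ld p N M ((ys.drop (i * mN N)).take (mN N)))) false

/-- The generator. -/
def gn (Ld : List Bool × ℕ → Bool) (p N M k : ℕ) (ys : List Bool) : List Bool :=
  ys ++ (List.range k).map (fun j =>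
    xb Ld p N M (k * dN N) (ys.drop (j * (k * dN N * mN N))))

theorem gn_eq {Ld : List Bool × ℕ → Bool} {p N M : ℕ} (hp : 0 < p) (hM : 2 ^ N ≤ M)
    (f : (Fin N → Bool) → Bool) (hf : ∀ z, f z = Ld (List.ofFn z, M)) (k : ℕ) (ys : List Bool) :
    gen p N k f ys = gn Ld p N M k ys := by
  unfold gen gn xbit xb
  simp only [gb_eq hp hM f hf]

/-- Find `k`. -/
def fk (N s : ℕ) : ℕ := ((List.range (s + 1)).filter (fun k => decide (sN N k = s))).getD 0 0

theorem dN_pos (N : ℕ) : 0 < dN N := by unfold dN; positivity

theorem mN_pos (N : ℕ) : 0 < mN N := by unfold mN vN; omega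

theorem sN_eq (N k : ℕ) : sN N k = k * k * (dN N * mN N) := by unfold sN; ring

theorem sN_inj {N k k' : ℕ} (h : sN N k = sN N k') : k = k' := by
  have h1 : 0 < dN N * mN N := Nat.mul_pos (dN_pos N) (mN_pos N)
  rw [sN_eq, sN_eq] at h
  have h2 := Nat.eq_of_mul_eq_mul_right h1 h
  exact Nat.mul_self_inj.mp h2

theorem le_sN (N k : ℕ) : k ≤ sN N k := by
  have h1 : 0 < dN N * mN N := Nat.mul_pos (dN_pos N) (mN_pos N)
  rw [sN_eq]
  calc k ≤ k * k := Nat.le_mul_self k
    _ = k * k * 1 := (mul_one _).symm
    _ ≤ _ := Nat.mul_le_mul_left _ h1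

theorem fk_eq (N k : ℕ) : fk N (sN N k) = k := by
  unfold fk
  set l := (List.range (sN N k + 1)).filter (fun k' => decide (sN N k' = sN N k)) with hl
  have h1 : k ∈ l := by
    rw [hl, List.mem_filter, List.mem_range]
    exact ⟨Nat.lt_succ_of_le (le_sN N k), by simp⟩
  have h2 : ∀ k' ∈ l, k' = k := by
    intro k' hk'
    rw [hl, List.mem_filter] at hk'
    exact sN_inj (by simpa using hk'.2)
  cases hc : l with
  | nil => rw [hc] at h1; simp at h1
  | cons a l' =>
    rw [List.getD_cons_zero]
    exact h2 a (by rw [hc]; simp)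

/-! ### Parsing -/

/-- The number of ones at the beginning. -/
def ones (x : List Bool) : ℕ :=
  (x.foldl (fun (s : Bool × ℕ) b => if s.1 = true then (if b = true then (true, s.2 + 1)
    else (false, s.2)) else s) (true, 0)).2

theorem ones_eq (n : ℕ) (r : List Bool) : ones (List.replicate n true ++ false :: r) = n := by
  have h1 : ∀ (n m : ℕ), (List.replicate n true).foldl
      (fun (s : Bool × ℕ) b => if s.1 = true then (if b = true then (true, s.2 + 1)
        else (false, s.2)) else s) (true, m) = (true, m + n) := by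
    intro n
    induction n with
    | zero => intro m; rfl
    | succ n ih =>
      intro m
      rw [List.replicate_succ, List.foldl_cons]
      simp only [if_true]
      rw [ih]
      congr 1
      omega
  have h2 : ∀ (r : List Bool) (m : ℕ), r.foldl
      (fun (s : Bool × ℕ) b => if s.1 = true then (if b = true then (true, s.2 + 1)
        else (false, s.2)) else s) (false, m) = (false, m) := by
    intro r
    induction r with
    | nil => intro m; rfl
    | cons b r ih =>
      intro m
      rw [List.foldl_cons]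
      simp only [Bool.false_eq_true, if_false]
      exact ih m
  unfold ones
  rw [List.foldl_append, h1, List.foldl_cons]
  simp only [Bool.false_eq_true, if_false, if_true]
  rw [h2]
  simp

theorem drop_ones (n : ℕ) (r : List Bool) :
    (List.replicate n true ++ false :: r).drop (n + 1) = r := by
  rw [List.drop_append]
  simp

/-- The input of the machine. -/
def inp (N p : ℕ) (ys : List Bool) : List Bool :=
  List.replicate N true ++ false :: (List.replicate p true ++ false :: ys)

theorem length_inp (N p : ℕ) (ys : List Bool) : (inp N p ys).length = N + p + 2 + ys.length := by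
  unfold inp
  simp
  omega

/-- The string without the first number. -/
def rs (x : List Bool) : List Bool := x.drop (ones x + 1)

/-- The function computed by the machine. -/
def fn (Ld : List Bool × ℕ → Bool) (x : List Bool × ℕ) : List Bool :=
  gn Ld (ones (rs x.1)) (ones x.1) x.2 (fk (ones x.1) (rs (rs x.1)).length) (rs (rs x.1))

theorem fn_inp (Ld : List Bool × ℕ → Bool) (N p k M : ℕ) (ys : List Bool)
    (h : ys.length = sN N k) : fn Ld (inp N p ys, M) = gn Ld p N M k ys := by
  have h1 : ones (inp N p ys) = N := ones_eq N _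
  have h2 : rs (inp N p ys) = List.replicate p true ++ false :: ys := by
    unfold rs
    rw [h1]
    exact drop_ones N _
  have h3 : ones (List.replicate p true ++ false :: ys) = p := ones_eq p ys
  have h4 : rs (List.replicate p true ++ false :: ys) = ys := by
    unfold rs
    rw [h3]
    exact drop_ones p ys
  unfold fn
  simp only [h1, h2, h3, h4, h, fk_eq]

/-! ### Polynomial time -/

section PolyT

variable {α : Type} [Enc α]

theorem pt_ones {f : α → List Bool} (hf : PT f) : PT (fun a => ones (f a)) := by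
  have h := PT.foldl_add (f := f) (init := fun _ => ((true, 0) : Bool × ℕ))
    (step := fun _ s b => if s.1 = true then (if b = true then (true, s.2 + 1)
      else (false, s.2)) else s) hf (PT.const _)
    (PT.cond (c := fun x : α × ((Bool × ℕ) × Bool) => x.2.1.1) PT.snd.fst'.fst'
      (PT.cond (c := fun x : α × ((Bool × ℕ) × Bool) => x.2.2) PT.snd.snd'
        (PT.pair (PT.const true) PT.snd.fst'.snd'.succ)
        (PT.pair (PT.const false) PT.snd.fst'.snd')) PT.snd.fst')
    (C := fun _ => 4) (PB.const 4) (by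
      intro a s b _
      obtain ⟨c, n⟩ := s
      have h1 := size_bool_le true
      have h2 := size_bool_le false
      have h3 := size_bool_pos c
      simp only
      split_ifs <;> simp only [size_prod, size_nat] <;> omega)
  exact h.snd'

theorem pt_rs {f : α → List Bool} (hf : PT f) : PT (fun a => rs (f a)) :=
  PT.drop (pt_ones hf).succ hf

theorem pt_lg' {f : α → ℕ} (hf : PT f) : PT (fun a => lg (f a)) := pt_lg.comp hf

theorem pt_bN {f : α → ℕ} (hf : PT f) : PT (fun a => bN (f a)) :=
  PT.addConst (PT.mulConst (pt_lg' hf) 2) 4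

theorem pt_vN {f : α → ℕ} (hf : PT f) : PT (fun a => vN (f a)) := PT.addConst (pt_lg' hf) 2

theorem pt_mN {f : α → ℕ} (hf : PT f) : PT (fun a => mN (f a)) :=
  PT.add (PT.mul hf (pt_bN hf)) (pt_vN hf)

theorem pt_dN {f : α → ℕ} (hf : PT f) : PT (fun a => dN (f a)) := by
  have h : PT (fun a => 2 ^ vN (f a)) := by
    have h1 : ∀ i : ℕ, (fun s : ℕ => s + s)^[i] 1 = 2 ^ i := by
      intro i
      induction i with
      | zero => rfl
      | succ i ih => rw [iterate_succ_apply', ih, pow_succ]; ring
    refine (pt_iterate_le (f := fun a => vN (f a)) (init := fun _ => 1)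
      (g := fun a => 4 * (f a + 1)) (step := fun _ s => s + s) (pt_vN hf) (PT.const 1)
      (PT.mulConst hf.succ 4) (PT.add PT.snd PT.snd) ?_).congr (fun a => h1 _)
    intro a i hi
    rw [h1]
    have h2 := lg_le (f a)
    calc 2 ^ i ≤ 2 ^ vN (f a) := Nat.pow_le_pow_right (by norm_num) hi
      _ = 4 * 2 ^ lg (f a) := by unfold vN; rw [pow_add]; ring
      _ ≤ _ := by omega
  exact PT.mul (PT.mulConst hf.succ 12) h

theorem pt_sN {f g : α → ℕ} (hf : PT f) (hg : PT g) : PT (fun a => sN (f a) (g a)) :=
  PT.mul hg (PT.mul (PT.mul hg (pt_dN hf)) (pt_mN hf))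

theorem pt_fk {f g : α → ℕ} (hf : PT f) (hg : PT g) : PT (fun a => fk (f a) (g a)) :=
  PT.getD (PT.filter (f := fun a => List.range (g a + 1))
    (p := fun a k => decide (sN (f a) k = g a)) (PT.range hg.succ)
    (PT.eq (pt_sN (hf.comp PT.fst) PT.snd) (hg.comp PT.fst))) 0 0

theorem pt_term {p N : α → ℕ} {y z : α → List Bool} (hp : PT p) (hN : PT N) (hy : PT y)
    (hz : PT z) : PT (fun a => term (p a) (N a) (y a) (z a)) := by
  have h0 : PT (fun a => md (p a) 1) := pt_md hp (PT.const 1)
  have hx : PT (fun x : α × (ℕ × ℕ) =>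
      msbm (p x.1) (((y x.1).drop (x.2.2 * bN (N x.1))).take (bN (N x.1)))) :=
    pt_msbm (hp.comp PT.fst) (mpt_take (pt_bN (hN.comp PT.fst))
      (PT.drop (PT.mul PT.snd.snd' (pt_bN (hN.comp PT.fst))) (hy.comp PT.fst)))
  refine pt_foldl_le (f := fun a => List.range (N a)) (init := fun a => md (p a) 1) (g := p)
    (step := fun a s i => md (p a) (s * (if (z a).getD i false = true then
        msbm (p a) (((y a).drop (i * bN (N a))).take (bN (N a)))
      else p a + 1 - msbm (p a) (((y a).drop (i * bN (N a))).take (bN (N a)))))) (PT.range hN)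
    h0 hp ?_ (fun a => md_le _ _) (fun a s b => md_le _ _)
  refine pt_md (hp.comp PT.fst) (PT.mul PT.snd.fst' ?_)
  exact PT.cond (c := fun x : α × (ℕ × ℕ) => (z x.1).getD x.2.2 false)
    (mpt_getD (hz.comp PT.fst) PT.snd.snd' false) hx
    (PT.sub (hp.comp PT.fst).succ hx)

theorem pt_val {Ld : List Bool × ℕ → Bool} (hL : PT Ld) {p N M : α → ℕ} {y : α → List Bool}
    (hp : PT p) (hN : PT N) (hM : PT M) (hy : PT y) :
    PT (fun a => val Ld (p a) (N a) (M a) (y a)) := by
  refine pt_foldl_le (f := fun a => strs (M a) (N a)) (init := fun _ => 0) (g := p)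
    (step := fun a s z => md (p a) (s + if Ld (z, M a) = true then term (p a) (N a) (y a) z
      else 0)) (pt_strs hM hN) (PT.const 0) hp ?_ (fun a => Nat.zero_le _)
      (fun a s b => md_le _ _)
  refine pt_md (hp.comp PT.fst) (PT.add PT.snd.fst' ?_)
  exact PT.cond (c := fun x : α × (ℕ × List Bool) => Ld (x.2.2, M x.1))
    (hL.comp (PT.pair PT.snd.snd' (hM.comp PT.fst)))
    (pt_term (hp.comp PT.fst) (hN.comp PT.fst) (hy.comp PT.fst) PT.snd.snd') (PT.const 0)

theorem pt_gb {Ld : List Bool × ℕ → Bool} (hL : PT Ld) {p N M : α → ℕ} {y : α → List Bool}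
    (hp : PT p) (hN : PT N) (hM : PT M) (hy : PT y) :
    PT (fun a => gb Ld (p a) (N a) (M a) (y a)) :=
  PT.bnEq (PT.toBN (pt_val hL hp hN hM hy)) (PT.ofMSB (PT.drop (PT.mul hN (pt_bN hN)) hy))

theorem pt_xb {Ld : List Bool × ℕ → Bool} (hL : PT Ld) {p N M k : α → ℕ} {y : α → List Bool}
    (hp : PT p) (hN : PT N) (hM : PT M) (hk : PT k) (hy : PT y) :
    PT (fun a => xb Ld (p a) (N a) (M a) (k a) (y a)) := by
  refine PT.foldl (f := fun a => List.range (k a)) (init := fun _ => false)
    (step := fun a s i => xor s (gb Ld (p a) (N a) (M a)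
      (((y a).drop (i * mN (N a))).take (mN (N a))))) (PT.range hk) (PT.const false) ?_
    (B := fun _ => 3) (PB.const 3) (fun a l' _ => size_bool_le _)
  have h1 : PT (fun x : α × (Bool × ℕ) => gb Ld (p x.1) (N x.1) (M x.1)
      (((y x.1).drop (x.2.2 * mN (N x.1))).take (mN (N x.1)))) :=
    pt_gb hL (hp.comp PT.fst) (hN.comp PT.fst) (hM.comp PT.fst)
      (mpt_take (pt_mN (hN.comp PT.fst))
        (PT.drop (PT.mul PT.snd.snd' (pt_mN (hN.comp PT.fst))) (hy.comp PT.fst)))
  exact (PT.ofFintype (fun b : Bool × Bool => xor b.1 b.2)).comp (PT.pair PT.snd.fst' h1)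

theorem pt_gn {Ld : List Bool × ℕ → Bool} (hL : PT Ld) {p N M k : α → ℕ} {y : α → List Bool}
    (hp : PT p) (hN : PT N) (hM : PT M) (hk : PT k) (hy : PT y) :
    PT (fun a => gn Ld (p a) (N a) (M a) (k a) (y a)) := by
  refine PT.append hy (PT.map (f := fun a => List.range (k a))
    (g := fun a j => xb Ld (p a) (N a) (M a) (k a * dN (N a))
      ((y a).drop (j * (k a * dN (N a) * mN (N a))))) (PT.range hk) ?_)
  have hk' : PT (fun x : α × ℕ => k x.1 * dN (N x.1)) :=
    PT.mul (hk.comp PT.fst) (pt_dN (hN.comp PT.fst))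
  exact pt_xb hL (hp.comp PT.fst) (hN.comp PT.fst) (hM.comp PT.fst) hk'
    (PT.drop (PT.mul PT.snd (PT.mul hk' (pt_mN (hN.comp PT.fst)))) (hy.comp PT.fst))

theorem pt_fn {Ld : List Bool × ℕ → Bool} (hL : PT Ld) : PT (fn Ld) := by
  have h1 : PT (fun x : List Bool × ℕ => x.1) := PT.fst
  have h2 := pt_ones h1
  have h3 := pt_rs h1
  have h4 := pt_rs h3
  exact pt_gn hL (pt_ones h3) h2 PT.snd (pt_fk h2 (PT.length h4)) h4

end PolyT

end Gen

end Pool.Agent.Lib.MP_33f9c4_lc.Qt
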