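import Pool.Agent.Lib.MP_33f9c4_lc.Near2
import Pool.Agent.Lib.MP_33f9c4_lc.QDefs2

/-!
# Universal and optimal machines simulate with logarithmic cost in the time
-/

namespace Pool.Agent.Lib.MP_33f9c4_lc.Qt

open Pool.Agent.Lib.PolyTime Function Finset Ef

theorem one_le_logb (n : ℕ) : (1 : ℝ) ≤ Real.logb 2 ((n : ℝ) + 2) := by
  rw [Real.le_logb_iff_rpow_le (by norm_num) (by positivity)]
  have : (0 : ℝ) ≤ n := Nat.cast_nonneg n
  rw [Real.rpow_one]
  linarith

theorem sim_of (U : Machine) (h : Universal U ∨ Optimal U) : Sim U := by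
  rcases h with ⟨Q, hQ⟩ | h
  · intro M
    obtain ⟨p, a, h1, _⟩ := hQ M
    obtain ⟨D, k, hD⟩ := eval_lin_le Q a
    refine ⟨p.length + D + k, fun d x t h => ?_⟩
    set n := d.length + x.length + t with hn
    have h2 := Ef.kt_le (h1 d x t h)
    have h3 := logb_mono (hD n (a * (d.length + t + 1)) (Nat.mul_le_mul_left _ (by omega)))
    have h4 := logb_prod_le D 1 k n
    have h5 : Real.logb 2 (1 : ℕ) = 0 := by simp
    rw [h5] at h4
    simp only [max_self, mul_one] at h4
    have h6 := one_le_logb n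
    rw [List.length_append] at h2
    push_cast at h2 h3 h4
    have e : (d.length : ℝ) + x.length + t + 2 = (n : ℝ) + 2 := by rw [hn]; push_cast; ring
    rw [e]
    push_cast
    have h7 : (p.length : ℝ) ≤ p.length * Real.logb 2 ((n : ℝ) + 2) := by
      have : (0 : ℝ) ≤ p.length := Nat.cast_nonneg _
      nlinarith
    have e2 : ((p.length : ℝ) + D + k) * Real.logb 2 ((n : ℝ) + 2) =
      p.length * Real.logb 2 ((n : ℝ) + 2) + (D + k) * Real.logb 2 ((n : ℝ) + 2) := by ring
    rw [e2]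
    linarith
  · intro M
    obtain ⟨c, hc⟩ := h M
    obtain ⟨c', hc'⟩ := exists_nat_ge c
    refine ⟨1 + c', fun d x t h => ?_⟩
    obtain ⟨_, h2⟩ := hc d x t h
    set n := d.length + x.length + t with hn
    have e : (d.length : ℝ) + x.length + t + 2 = (n : ℝ) + 2 := by rw [hn]; push_cast; ring
    rw [e]
    have h3 : Real.logb 2 t ≤ Real.logb 2 ((n + 2 : ℕ) : ℝ) := logb_mono (by omega)
    have h4 : Real.logb 2 ((x.length + 2 : ℕ) : ℝ) ≤ Real.logb 2 ((n + 2 : ℕ) : ℝ) :=
      logb_mono (by omega)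
    push_cast at h3 h4
    have h5 := one_le_logb n
    have h6 := one_le_logb x.length
    have h7 : c * Real.logb 2 ((x.length : ℝ) + 2) ≤ c' * Real.logb 2 ((n : ℝ) + 2) := by
      have h8 : c * Real.logb 2 ((x.length : ℝ) + 2) ≤ c' * Real.logb 2 ((x.length : ℝ) + 2) :=
        mul_le_mul_of_nonneg_right hc' (by linarith)
      have h9 : (c' : ℝ) * Real.logb 2 ((x.length : ℝ) + 2) ≤ c' * Real.logb 2 ((n : ℝ) + 2) :=
        mul_le_mul_of_nonneg_left h4 (Nat.cast_nonneg _)
      linarith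
    push_cast
    have e2 : (1 + (c' : ℝ)) * Real.logb 2 ((n : ℝ) + 2) = Real.logb 2 ((n : ℝ) + 2) +
      c' * Real.logb 2 ((n : ℝ) + 2) := by ring
    rw [e2]
    linarith

end Pool.Agent.Lib.MP_33f9c4_lc.Qt
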