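import Pool.Agent.Lib.MP_33f9c4_lc.Ldec
import Pool.Agent.Lib.MP_33f9c4_lc.Pad
import Pool.Agent.Lib.MP_33f9c4_lc.SimLog
import Pool.Agent.Lib.MP_33f9c4_lc.Gen0

/-!
# The values of the generator are not random
-/

namespace Pool.Agent.Lib.MP_33f9c4_lc.Qt

open Pool.Agent.Lib.PolyTime Function Finset Turing

set_option synthInstance.maxSize 2000

namespace Gen

theorem pt_eval {α : Type} [Enc α] (q : Polynomial ℕ) {f : α → ℕ} (hf : PT f) :
    PT (fun a => q.eval (f a)) := by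
  induction q using Polynomial.induction_on' with
  | add p q hp hq => exact (PT.add hp hq).congr (fun a => by rw [Polynomial.eval_add])
  | monomial n c =>
    have h : PT (fun a => f a ^ n) := by
      induction n with
      | zero => exact (PT.const 1).congr (fun a => (pow_zero _).symm)
      | succ n ih => exact (PT.mul ih hf).congr (fun a => (pow_succ _ _).symm)
    exact (PT.mulConst h c).congr (fun a => by rw [Polynomial.eval_monomial])

theorem lg_le_self (N : ℕ) : lg N ≤ N := by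
  have h1 := lg_le N
  have h2 : lg N < 2 ^ lg N := Nat.lt_two_pow_self
  omega

theorem sN_le (N k : ℕ) : sN N k ≤ 96 * (N + k + 2) ^ 6 := by
  have h1 := lg_le_self N
  have h2 := lg_le N
  have h3 : mN N ≤ 2 * (N + 2) ^ 2 := by
    have : N * bN N ≤ N * (2 * N + 4) := Nat.mul_le_mul_left _ (by unfold bN; omega)
    unfold mN vN
    nlinarith
  have h4 : dN N ≤ 48 * (N + 2) ^ 2 := by
    have h5 : 2 ^ vN N ≤ 4 * (N + 1) := by
      calc 2 ^ vN N = 4 * 2 ^ lg N := by unfold vN; rw [pow_add]; ring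
        _ ≤ _ := by omega
    unfold dN
    calc 12 * (N + 1) * 2 ^ vN N ≤ 12 * (N + 1) * (4 * (N + 1)) := Nat.mul_le_mul_left _ h5
      _ = 48 * (N + 1) ^ 2 := by ring
      _ ≤ _ := Nat.mul_le_mul_left _ (Nat.pow_le_pow_left (by omega) _)
  rw [sN_eq]
  calc k * k * (dN N * mN N) ≤ k * k * (48 * (N + 2) ^ 2 * (2 * (N + 2) ^ 2)) :=
        Nat.mul_le_mul_left _ (Nat.mul_le_mul h4 h3)
    _ = 96 * (k ^ 2 * (N + 2) ^ 4) := by ring
    _ ≤ 96 * ((N + k + 2) ^ 2 * (N + k + 2) ^ 4) :=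
        Nat.mul_le_mul_left _ (Nat.mul_le_mul (Nat.pow_le_pow_left (by omega) _)
          (Nat.pow_le_pow_left (by omega) _))
    _ = _ := by ring

theorem logb_half (b y : ℝ) (hb : 0 ≤ b) (hy : 0 < y) :
    b * Real.logb 2 y ≤ y / 2 + 8 * b ^ 2 := by
  have hs : 0 < Real.sqrt y := Real.sqrt_pos.mpr hy
  have hs2 : Real.sqrt y ^ 2 = y := Real.sq_sqrt hy.le
  have h1 : Real.logb 2 y = 2 * Real.logb 2 (Real.sqrt y) := by
    conv_lhs => rw [← hs2]
    rw [Real.logb_pow]
    norm_num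
  have h2 : Real.logb 2 (Real.sqrt y) ≤ 2 * Real.sqrt y := by
    rw [Real.logb, div_le_iff₀ (Real.log_pos (by norm_num))]
    have h3 := Real.log_le_sub_one_of_pos hs
    have h4 := Real.log_two_gt_d9
    nlinarith
  rw [h1]
  have h5 : b * (2 * Real.logb 2 (Real.sqrt y)) ≤ b * (4 * Real.sqrt y) :=
    mul_le_mul_of_nonneg_left (by linarith) hb
  nlinarith [sq_nonneg (Real.sqrt y - 4 * b)]

end Gen

open Classical in
theorem gen_not_mem {U : Machine} (hU : Sim U) {L : Set (List Bool)} (hL : InEXP L) :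
    ∃ E : Polynomial ℕ, ∀ (N k p : ℕ) (ys : List Bool), 0 < N → 0 < p → p ≤ 2 * N + 2 →
      E.eval N ≤ k → ys.length = sN N k →
      gen p N k (fun z => decide (List.ofFn z ∈ L)) ys ∉ RKt U := by
  obtain ⟨Ld, q, hPT, hLd⟩ := exists_ldec hL
  have he : PT (fun x : List Bool => Gen.ones x + q.eval (Gen.ones x)) :=
    PT.add (Gen.pt_ones PT.id) (Gen.pt_eval q (Gen.pt_ones PT.id))
  obtain ⟨M, Q, hM⟩ := exists_pad_machine he (Gen.pt_fn hPT)
  obtain ⟨a, ha⟩ := hU M
  obtain ⟨D, c, hD⟩ := Ef.eval_lin_le ((3 * Polynomial.X + 4 +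
    96 * (Polynomial.X + 2) ^ 6) + (96 * (Polynomial.X + 2) ^ 6 + Polynomial.X) +
    Q.comp (3 * Polynomial.X + 4 + 96 * (Polynomial.X + 2) ^ 6 + Polynomial.X) + 2) 1
  set b : ℕ := a * (D + c) with hb
  refine ⟨7 * Polynomial.X + 12 + Polynomial.C (16 * b ^ 2) + Polynomial.C (2 * b) *
    (Polynomial.X + q), fun N k p ys hN hp hpN hk hys => ?_⟩
  set d := Gen.inp N p ys with hd
  set e : ℕ := N + q.eval N with hedef
  have hones : Gen.ones d = N := Gen.ones_eq N _
  have h1 := hM d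
  rw [hones, ← hedef, hd, Gen.fn_inp Ld N p k (2 ^ e) ys hys] at h1
  have h2 : gen p N k (fun z => decide (List.ofFn z ∈ L)) ys = Gen.gn Ld p N (2 ^ e) k ys := by
    refine Gen.gn_eq hp (Nat.pow_le_pow_right (by norm_num) (by omega)) _ (fun z => ?_) k ys
    rw [hLd]
    rw [List.length_ofFn]
    exact Nat.pow_le_pow_right (by norm_num) (by omega)
  rw [← h2, ← hd] at h1
  set x := gen p N k (fun z => decide (List.ofFn z ∈ L)) ys with hx
  have hxl : x.length = sN N k + k := by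
    rw [hx]
    unfold gen
    simp [hys]
  have hdl : d.length = N + p + 2 + sN N k := by rw [hd, Gen.length_inp, hys]
  have h3 := ha d x _ h1
  intro hmem
  have h4 : (x.length : ℝ) ≤ Kt U x := hmem
  have hpow : 1 ≤ 2 ^ e := Nat.one_le_two_pow
  obtain ⟨w, hw⟩ : ∃ w : ℕ, w = N + k + 2 ^ e := ⟨_, rfl⟩
  have hs := Gen.sN_le N k
  have hs' : sN N k ≤ 96 * (w + 2) ^ 6 :=
    hs.trans (Nat.mul_le_mul_left _ (Nat.pow_le_pow_left (by omega) _))
  have h5 := hD w w (by omega)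
  simp only [Polynomial.eval_add, Polynomial.eval_mul, Polynomial.eval_X, Polynomial.eval_comp,
    Polynomial.eval_pow, Polynomial.eval_ofNat] at h5
  have h6 : Q.eval (d.length + 2 ^ e) ≤ Q.eval (3 * w + 4 + 96 * (w + 2) ^ 6 + w) :=
    eval_mono Q (by omega)
  have h7 : d.length + x.length + Q.eval (d.length + 2 ^ e) + 2 ≤ D * (w + 2) ^ c := by
    omega
  have h8 := Ef.logb_mono h7
  have h9 := Ef.logb_prod_le D 1 c w
  have h10 : Real.logb 2 (1 : ℕ) = 0 := by simp
  rw [h10] at h9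
  simp only [max_self, mul_one, zero_add] at h9
  have h11 : Real.logb 2 ((w : ℝ) + 2) ≤ Real.logb 2 ((N : ℝ) + k + 3) + e := by
    have h12 : w + 2 ≤ (N + k + 3) * 2 ^ e := by
      rw [hw]
      nlinarith
    have h13 := Ef.logb_mono h12
    push_cast at h13
    rw [Real.logb_mul (by positivity) (by positivity), Real.logb_pow, Real.logb_self_eq_one
      (by norm_num), mul_one] at h13
    push_cast [hw] at h13 ⊢
    exact h13
  have h14 := Gen.logb_half b ((N : ℝ) + k + 3) (Nat.cast_nonneg _) (by positivity)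
  have h15 : (a : ℝ) * Real.logb 2 ((d.length : ℝ) + x.length +
      (Q.eval (d.length + 2 ^ e) : ℕ) + 2) ≤ b * (Real.logb 2 ((N : ℝ) + k + 3) + e) := by
    have h16 : Real.logb 2 ((d.length : ℝ) + x.length + (Q.eval (d.length + 2 ^ e) : ℕ) + 2) ≤
        (D + c) * Real.logb 2 ((w : ℝ) + 2) := by
      push_cast at h8 h9 ⊢
      exact h8.trans h9
    calc (a : ℝ) * _ ≤ a * ((D + c) * Real.logb 2 ((w : ℝ) + 2)) :=
          mul_le_mul_of_nonneg_left h16 (Nat.cast_nonneg _)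
      _ = b * Real.logb 2 ((w : ℝ) + 2) := by rw [hb]; push_cast; ring
      _ ≤ _ := mul_le_mul_of_nonneg_left h11 (Nat.cast_nonneg _)
  have hk' : (7 * N + 12 + 16 * b ^ 2 + 2 * b * (N + q.eval N) : ℕ) ≤ k := by
    simpa using hk
  have hk'' : (7 * N + 12 + 16 * b ^ 2 + 2 * b * e : ℝ) ≤ k := by
    rw [← hedef] at hk'
    exact_mod_cast hk'
  have hp' : (p : ℝ) ≤ 2 * N + 2 := by exact_mod_cast hpN
  rw [hxl] at h4
  rw [hdl] at h3
  rw [hdl] at h15
  push_cast at h3 h4 h15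
  nlinarith
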