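import Pool.Agent.Lib.MP_33f9c4_lc.Diag2

/-!
# At least half of the strings of each length are random
-/

namespace Pool.Agent.Lib.MP_33f9c4_lc.Ef

open Pool.Agent.Lib.PolyTime Function Finset

section

variable {V : Tbl} {B : ℕ} {T T0 : Polynomial ℕ} {U : Machine}

theorem IsMach.unique (hU : IsMach V B T T0 U) {d x y : List Bool} {t t' : ℕ}
    (h : Outputs U d x t) (h' : Outputs U d y t') : x = y := by
  obtain ⟨M, _, h1, h2, _, h3⟩ := hU.bwd d x t h
  obtain ⟨M', _, h1', h2', _, h3'⟩ := hU.bwd d y t' h'
  have : M = M' := by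
    rcases lt_trichotomy M M' with h4 | h4 | h4
    · rw [h2' M h4] at h1; cases h1
    · exact h4
    · rw [h2 M' h4] at h1'; cases h1'
  subst this
  rw [h3, h3']

theorem nval_pos {m : List Bool} (hm : m ≠ []) : 1 ≤ nval m := by
  rcases m with _ | ⟨b, l⟩
  · exact absurd rfl hm
  · cases b <;> simp only [nval] <;> simp <;> omega

theorem IsMach.two_le (hU : IsMach V B T T0 U) {d x : List Bool} {t : ℕ}
    (h : Outputs U d x t) (hx : x ≠ []) : 2 ≤ t := by
  by_cases hd : d.head? = some true
  · obtain ⟨w, rfl⟩ : ∃ w, d = true :: w := by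
      cases d with
      | nil => simp at hd
      | cons b w => simp at hd; exact ⟨w, by rw [hd]⟩
    rcases hU.out_cases h with h1 | ⟨a, m, hw, hm, ha, _⟩
    · exact absurd h1 hx
    · subst hw
      have h2 := dbl2 V B a m _ le_rfl
      rw [← init_diag hm ha] at h2
      obtain ⟨M, hM, h3, _⟩ := hU.bwd _ _ _ h
      obtain ⟨h4, _⟩ := h2.le_of_final h3
      have := nval_pos hm
      omega
  · obtain ⟨_, _, _, _, h2⟩ := hU.base_bwd hd h
    exact h2

open Classical in
theorem IsMach.half (hU : IsMach V B T T0 U) (hex : ∀ x, ∃ d t, Outputs U d x t) (n : ℕ) :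
    2 ^ n ≤ 2 * (univ.filter (fun x : List.Vector Bool n => x.1 ∈ RKt U)).card := by
  rcases Nat.eq_zero_or_pos n with rfl | hn
  · have h1 : (List.Vector.nil : List.Vector Bool 0) ∈
        univ.filter (fun x : List.Vector Bool 0 => x.1 ∈ RKt U) := by
      rw [mem_filter]
      refine ⟨mem_univ _, ?_⟩
      show ((List.Vector.nil : List.Vector Bool 0).1.length : ℝ) ≤ Kt U _
      have h2 : ((List.Vector.nil : List.Vector Bool 0).1.length : ℝ) = 0 := by simp
      rw [h2]
      refine Real.sInf_nonneg ?_
      rintro r ⟨d, t, _, rfl⟩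
      have h3 : (0 : ℝ) ≤ d.length := Nat.cast_nonneg _
      have h4 : (0 : ℝ) ≤ Real.logb 2 t := by
        rcases Nat.eq_zero_or_pos t with rfl | ht
        · simp
        · exact Real.logb_nonneg (by norm_num) (by exact_mod_cast ht)
      linarith
    have h2 := card_pos.mpr ⟨_, h1⟩
    simp only [pow_zero]
    omega
  · have hbad : (univ.filter (fun x : List.Vector Bool n => ¬ x.1 ∈ RKt U)).card ≤
        2 ^ (n - 1) := by
      have hch : ∀ x : List.Vector Bool n, ∃ d : List Bool, ¬ x.1 ∈ RKt U →
          (∃ t, Outputs U d x.1 t) ∧ nval d < 2 ^ (n - 1) := by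
        intro x
        by_cases hx : x.1 ∈ RKt U
        · exact ⟨[], fun h => absurd hx h⟩
        · obtain ⟨d, t, h1, h2⟩ := exists_of_not_mem (hex _) hx
          have hne : x.1 ≠ [] := by
            intro h
            have := x.2
            rw [h] at this
            simp at this
            omega
          have h3 := hU.two_le h1 hne
          rw [x.2] at h2
          refine ⟨d, fun _ => ⟨⟨t, h1⟩, ?_⟩⟩
          have h4 : 2 ^ (d.length + 1) < 2 ^ n := by
            rw [pow_succ]
            exact lt_of_le_of_lt (Nat.mul_le_mul_left _ h3) h2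
          have h5 := (Nat.pow_lt_pow_iff_right (by norm_num : 1 < 2)).mp h4
          have h6 := lt_lg (nval d)
          rw [lg_nval'] at h6
          have h7 : 2 ^ (d.length + 1) ≤ 2 ^ (n - 1) :=
            Nat.pow_le_pow_right (by norm_num) (by omega)
          omega
      choose D hD using hch
      rw [← card_range (2 ^ (n - 1))]
      refine card_le_card_of_injOn (fun x => nval (D x)) ?_ ?_
      · intro x hx
        rw [mem_coe, mem_filter] at hx
        rw [mem_coe, mem_range]
        exact (hD x hx.2).2
      · intro x hx y hy hxy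
        rw [mem_coe, mem_filter] at hx hy
        obtain ⟨⟨t, h1⟩, _⟩ := hD x hx.2
        obtain ⟨⟨t', h2⟩, _⟩ := hD y hy.2
        have h3 : D x = D y := nval_injective hxy
        rw [← h3] at h2
        exact Subtype.ext (hU.unique h1 h2)
    have hcard : (univ : Finset (List.Vector Bool n)).card = 2 ^ n := by
      rw [card_univ, card_vector, Fintype.card_bool]
    have h1 := card_filter_add_card_filter_not (s := (univ : Finset (List.Vector Bool n)))
      (fun x => x.1 ∈ RKt U)
    rw [hcard] at h1
    have h2 : 2 ^ n = 2 * 2 ^ (n - 1) := by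
      rw [← pow_succ']
      congr 1
      omega
    omega

end

end Pool.Agent.Lib.MP_33f9c4_lc.Ef
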