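import Mathlib

/-!
# The hybrid argument

A test that is true for half of all pairs `(z, w)` and false for all `(z, b(z))` predicts, for some
coordinate and for some choice of the other coordinates, the bit `b` with advantage `1/k`.
-/

set_option autoImplicit false

namespace Pool.Agent.Lib.MP_33f9c4_lc.Qt

open Finset Function

/-- Resampling one coordinate. -/
theorem sum_sum_update {ι Z : Type} [Fintype ι] [DecidableEq ι] [Fintype Z] (j : ι)
    (Φ : (ι → Z) → ℝ) :
    ∑ z : ι → Z, ∑ ζ : Z, Φ (update z j ζ) = (Fintype.card Z : ℝ) * ∑ z : ι → Z, Φ z := by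
  have inv : Involutive (fun x : (ι → Z) × Z => (update x.1 j x.2, x.1 j)) := by
    rintro ⟨z, ζ⟩
    simp
  calc ∑ z : ι → Z, ∑ ζ : Z, Φ (update z j ζ)
      = ∑ x : (ι → Z) × Z, Φ (update x.1 j x.2) := by rw [Fintype.sum_prod_type]
    _ = ∑ x : (ι → Z) × Z, Φ x.1 := by
        refine Fintype.sum_equiv inv.toPerm _ _ ?_
        intro x
        rfl
    _ = ∑ z : ι → Z, ∑ _ζ : Z, Φ z := by rw [Fintype.sum_prod_type]
    _ = (Fintype.card Z : ℝ) * ∑ z : ι → Z, Φ z := by
        rw [Finset.mul_sum]
        refine Finset.sum_congr rfl ?_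
        intro z _
        rw [Finset.sum_const, Finset.card_univ, nsmul_eq_mul]

/-- The hybrid words: true bits in the blocks `< i`, the bits of `w` in the others. -/
def mix {Z : Type} {k : ℕ} (b : Z → Bool) (i : ℕ) (z : Fin k → Z) (w : Fin k → Bool) :
    Fin k → Bool := fun l => if (l : ℕ) < i then b (z l) else w l

theorem mix_succ {Z : Type} {k : ℕ} (b : Z → Bool) (j : Fin k) (z : Fin k → Z)
    (w : Fin k → Bool) : mix b (j + 1) z w = update (mix b j z w) j (b (z j)) := by
  funext l
  by_cases h : l = j
  · subst h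
    simp [mix]
  · rw [update_of_ne h]
    have h' : (l : ℕ) ≠ j := fun e => h (Fin.ext e)
    simp only [mix]
    by_cases h1 : (l : ℕ) < j
    · rw [if_pos h1, if_pos (by omega)]
    · rw [if_neg h1, if_neg (by omega)]

theorem mix_update {Z : Type} {k : ℕ} (b : Z → Bool) (j : Fin k) (z : Fin k → Z)
    (w : Fin k → Bool) (c : Bool) : mix b j z (update w j c) = update (mix b j z w) j c := by
  funext l
  by_cases h : l = j
  · subst h
    simp [mix]
  · rw [update_of_ne h]
    simp only [mix]
    rw [update_of_ne h]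

theorem mix_update_left {Z : Type} [DecidableEq Z] {k : ℕ} (b : Z → Bool) (j : Fin k)
    (z : Fin k → Z) (ζ : Z) (w : Fin k → Bool) : mix b j (update z j ζ) w = mix b j z w := by
  funext l
  simp only [mix]
  by_cases h : (l : ℕ) < j
  · have h' : l ≠ j := fun e => by rw [e] at h; omega
    rw [if_pos h, if_pos h, update_of_ne h']
  · rw [if_neg h, if_neg h]

theorem hybrid {Z : Type} [Fintype Z] [DecidableEq Z] [Nonempty Z] {k : ℕ} (b : Z → Bool)
    (A : (Fin k → Z) → (Fin k → Bool) → Bool)
    (h1 : Fintype.card Z ^ k * 2 ^ k ≤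
      2 * (univ.filter (fun x : (Fin k → Z) × (Fin k → Bool) => A x.1 x.2 = true)).card)
    (h0 : ∀ z, A z (fun i => b (z i)) = false) :
    ∃ (j : Fin k) (z : Fin k → Z) (w : Fin k → Bool),
      (1 / (k : ℝ)) * Fintype.card Z ≤ ∑ ζ : Z,
        ((if A (update z j ζ) (update w j true) = true then (1 : ℝ) else 0) -
          (if A (update z j ζ) (update w j false) = true then (1 : ℝ) else 0)) *
          (if b ζ = true then -1 else 1) := by
  classical
  -- the indicator
  let a : (Fin k → Z) → (Fin k → Bool) → ℝ := fun z w => if A z w = true then (1 : ℝ) else 0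
  let H : ℕ → ℝ := fun i => ∑ z : Fin k → Z, ∑ w : Fin k → Bool, a z (mix b i z w)
  let C : ℝ := (Fintype.card Z : ℝ) ^ k * 2 ^ k
  have hC : 0 < C := by
    have : (0 : ℝ) < Fintype.card Z := by exact_mod_cast Fintype.card_pos
    positivity
  have hH0 : C / 2 ≤ H 0 := by
    have e : H 0 = ((univ.filter
        (fun x : (Fin k → Z) × (Fin k → Bool) => A x.1 x.2 = true)).card : ℝ) := by
      simp only [H, a]
      rw [← Fintype.sum_prod_type' (f := fun z w => if A z (mix b 0 z w) = true then (1 : ℝ) else 0)]
      rw [Finset.card_filter]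
      push_cast
      refine Finset.sum_congr rfl ?_
      rintro ⟨z, w⟩ _
      have : mix b 0 z w = w := by
        funext l
        simp [mix]
      simp only [this]
    rw [e]
    have h2 : C ≤ 2 * ((univ.filter
        (fun x : (Fin k → Z) × (Fin k → Bool) => A x.1 x.2 = true)).card : ℝ) := by
      simp only [C]
      exact_mod_cast h1
    linarith
  have hHk : H k = 0 := by
    simp only [H, a]
    refine Finset.sum_eq_zero ?_
    intro z _
    refine Finset.sum_eq_zero ?_
    intro w _
    have : mix b k z w = fun i => b (z i) := by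
      funext l
      simp [mix]
    rw [this, h0]
    simp
  have hk : 0 < k := by
    rcases Nat.eq_zero_or_pos k with h | h
    · exfalso
      rw [h] at hHk
      linarith
    · exact h
  have hkR : (0 : ℝ) < k := by exact_mod_cast hk
  -- a jump
  obtain ⟨j, hj⟩ : ∃ j : Fin k, C / (2 * k) ≤ H j - H (j + 1) := by
    by_contra hcon
    push Not at hcon
    have h3 : ∑ j : Fin k, (H j - H (j + 1)) = H 0 - H k := by
      rw [Fin.sum_univ_eq_sum_range (fun i => H i - H (i + 1)) k, Finset.sum_range_sub']
    have h4 : ∑ j : Fin k, (H j - H (j + 1)) < ∑ _j : Fin k, C / (2 * k) := by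
      have : Nonempty (Fin k) := ⟨⟨0, hk⟩⟩
      exact Finset.sum_lt_sum_of_nonempty Finset.univ_nonempty (fun j _ => hcon j)
    rw [h3, Finset.sum_const, Finset.card_univ, Fintype.card_fin, nsmul_eq_mul, hHk] at h4
    have h5 : (k : ℝ) * (C / (2 * k)) = C / 2 := by field_simp
    rw [h5] at h4
    linarith
  -- the two halves
  let D : (Fin k → Z) → (Fin k → Bool) → ℝ := fun z w =>
    a z (update (mix b j z w) j true) - a z (update (mix b j z w) j false)
  let s : Z → ℝ := fun ζ => if b ζ = true then -1 else 1
  have hHj : 2 * H j = ∑ z : Fin k → Z, ∑ w : Fin k → Bool,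
      (a z (update (mix b j z w) j true) + a z (update (mix b j z w) j false)) := by
    simp only [H]
    rw [Finset.mul_sum]
    refine Finset.sum_congr rfl ?_
    intro z _
    have h6 := sum_sum_update (Z := Bool) j (fun w => a z (mix b j z w))
    rw [Fintype.card_bool] at h6
    push_cast at h6
    rw [← h6]
    refine Finset.sum_congr rfl ?_
    intro w _
    rw [Fintype.sum_bool, mix_update, mix_update]
  have hHj1 : H (j + 1) = ∑ z : Fin k → Z, ∑ w : Fin k → Bool,
      a z (update (mix b j z w) j (b (z j))) := by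
    simp only [H, mix_succ]
  have hD : C / k ≤ ∑ z : Fin k → Z, ∑ w : Fin k → Bool, D z w * s (z j) := by
    have h7 : ∑ z : Fin k → Z, ∑ w : Fin k → Bool, D z w * s (z j) =
        2 * H j - 2 * H (j + 1) := by
      rw [hHj, hHj1, Finset.mul_sum, ← Finset.sum_sub_distrib]
      refine Finset.sum_congr rfl ?_
      intro z _
      rw [Finset.mul_sum, ← Finset.sum_sub_distrib]
      refine Finset.sum_congr rfl ?_
      intro w _
      simp only [D, s]
      cases b (z j)
      · simp only [Bool.false_eq_true, if_false]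
        ring
      · simp only [if_true]
        ring
    rw [h7]
    have h8 : C / k = 2 * (C / (2 * k)) := by field_simp
    rw [h8]
    linarith
  -- resample the block j
  have hE : (Fintype.card Z : ℝ) * (C / k) ≤ ∑ z : Fin k → Z, ∑ w : Fin k → Bool,
      ∑ ζ : Z, D (update z j ζ) w * s ζ := by
    have h9 := sum_sum_update (Z := Z) j (fun z => ∑ w : Fin k → Bool, D z w * s (z j))
    have h10 : ∑ z : Fin k → Z, ∑ w : Fin k → Bool, ∑ ζ : Z, D (update z j ζ) w * s ζ =
        (Fintype.card Z : ℝ) * ∑ z : Fin k → Z, ∑ w : Fin k → Bool, D z w * s (z j) := by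
      rw [← h9]
      refine Finset.sum_congr rfl ?_
      intro z _
      rw [Finset.sum_comm]
      refine Finset.sum_congr rfl ?_
      intro ζ _
      refine Finset.sum_congr rfl ?_
      intro w _
      rw [update_self]
    rw [h10]
    exact mul_le_mul_of_nonneg_left hD (by positivity)
  obtain ⟨z, w, hzw⟩ : ∃ (z : Fin k → Z) (w : Fin k → Bool),
      (1 / (k : ℝ)) * Fintype.card Z ≤ ∑ ζ : Z, D (update z j ζ) w * s ζ := by
    by_contra hcon
    push Not at hcon
    have h11 : ∑ z : Fin k → Z, ∑ w : Fin k → Bool, ∑ ζ : Z, D (update z j ζ) w * s ζ <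
        ∑ _z : Fin k → Z, ∑ _w : Fin k → Bool, (1 / (k : ℝ)) * Fintype.card Z := by
      refine Finset.sum_lt_sum_of_nonempty Finset.univ_nonempty ?_
      intro z _
      exact Finset.sum_lt_sum_of_nonempty Finset.univ_nonempty (fun w _ => hcon z w)
    rw [Finset.sum_const, Finset.sum_const, Finset.card_univ, Finset.card_univ, nsmul_eq_mul,
      nsmul_eq_mul, Fintype.card_fun, Fintype.card_fun, Fintype.card_fin, Fintype.card_bool] at h11
    push_cast at h11
    have h12 : (Fintype.card Z : ℝ) ^ k * (2 ^ k * (1 / (k : ℝ) * Fintype.card Z)) =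
        (Fintype.card Z : ℝ) * (C / k) := by
      simp only [C]
      ring
    rw [h12] at h11
    linarith
  refine ⟨j, z, mix b j z w, ?_⟩
  refine le_trans hzw (le_of_eq ?_)
  refine Finset.sum_congr rfl ?_
  intro ζ _
  simp only [D, s, a, mix_update_left]

end Pool.Agent.Lib.MP_33f9c4_lc.Qt
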