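import Pool.Agent.Lib.MP_33f9c4_lc.Search2
import Pool.Agent.Lib.MP_33f9c4_lc.Dec

/-!
# The beginning and the end of the search phase
-/

namespace Pool.Agent.Lib.MP_33f9c4_lc.Ef

open Pool.Agent.Lib.PolyTime Function Finset Turing

set_option synthInstance.maxSize 2000

theorem dv3_aux (w : List Bool) : ∀ st : ℕ × ℕ, st.2 < 3 →
    3 * st.1 + st.2 + w.length = 3 * (w.foldl (fun (st : ℕ × ℕ) _ =>
      if st.2 = 2 then (st.1 + 1, 0) else (st.1, st.2 + 1)) st).1 +
      (w.foldl (fun (st : ℕ × ℕ) _ =>
        if st.2 = 2 then (st.1 + 1, 0) else (st.1, st.2 + 1)) st).2 ∧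
      (w.foldl (fun (st : ℕ × ℕ) _ =>
        if st.2 = 2 then (st.1 + 1, 0) else (st.1, st.2 + 1)) st).2 < 3 := by
  induction w with
  | nil => intro st h; exact ⟨rfl, h⟩
  | cons b w ih =>
    intro st h
    rw [List.foldl_cons, List.length_cons]
    by_cases h2 : st.2 = 2
    · rw [if_pos h2]
      obtain ⟨h3, h4⟩ := ih (st.1 + 1, 0) (by norm_num)
      refine ⟨?_, h4⟩
      rw [← h3]
      simp only
      omega
    · rw [if_neg h2]
      obtain ⟨h3, h4⟩ := ih (st.1, st.2 + 1) (by simp only; omega)
      refine ⟨?_, h4⟩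
      rw [← h3]
      simp only
      omega

theorem dv3_spec (w : List Bool) : w.length = 3 * (dv3 w).1 + (dv3 w).2 ∧ (dv3 w).2 < 3 := by
  have h := dv3_aux w (0, 0) (by norm_num)
  simp only [Nat.mul_zero, Nat.zero_add] at h
  exact h

theorem init_diag {B : ℕ} {a m : List Bool} (hm : m ≠ []) (ha : a.length = 2 * m.length) :
    init B (true :: (a ++ m)) = cDbl ((B, (a, m)), ([], 0)) := by
  obtain ⟨h1, h2⟩ := dv3_spec (a ++ m)
  rw [List.length_append, ha] at h1
  have h3 : (dv3 (a ++ m)).1 = m.length := by omega
  have h4 : (dv3 (a ++ m)).2 = 0 := by omega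
  have h5 : (a ++ m).take (2 * m.length) = a := by rw [← ha, List.take_left]
  have h6 : (a ++ m).drop (2 * m.length) = m := by rw [← ha, List.drop_left]
  unfold init
  rw [if_pos (show (true :: (a ++ m)).head? = some true from rfl), List.tail_cons, if_pos, h3,
    h5, h6]
  simp [h4, hm]

/-- All other cases. -/
theorem init_cases (B : ℕ) (w : List Bool) : (∃ a m : List Bool, w = a ++ m ∧ m ≠ [] ∧
    a.length = 2 * m.length) ∨ init B (true :: w) = cFin [] := by
  obtain ⟨h1, h2⟩ := dv3_spec w
  by_cases h : (dv3 w).2 = 0 ∧ w ≠ []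
  · left
    have h3 : 0 < w.length := List.length_pos_iff.mpr h.2
    refine ⟨w.take (2 * (dv3 w).1), w.drop (2 * (dv3 w).1), (List.take_append_drop _ _).symm,
      ?_, ?_⟩
    · intro h4
      have h5 := congrArg List.length h4
      rw [List.length_drop, List.length_nil] at h5
      omega
    · rw [List.length_take, List.length_drop]
      omega
  · right
    unfold init
    rw [if_pos (show (true :: w).head? = some true from rfl), List.tail_cons, if_neg]
    intro h3
    rw [Bool.and_eq_true, decide_eq_true_iff, Bool.not_eq_true', decide_eq_false_iff_not] at h3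
    exact h h3

theorem size_pair_zero' {α : Type} [Enc α] (a : α) : size ((0, a) : ℕ × α) = size a + 2 := by
  rw [size_prod, size_nat]
  simp only
  omega

theorem dbl2 (V : Tbl) (B : ℕ) (a m : List Bool) (L : ℕ)
    (hL : 2 * B + 4 * a.length + 8 * m.length + 2 * nval m + 100 ≤ L) :
    Rn V L ((0, cDbl ((B, (a, m)), ([], 0))), emp V)
      ((0, cScan ((B, (nval m, ((a, []), []))), ([], ([], [])))), emp V) (nval m + 1) := by
  have hsz : ∀ i ≤ nval m, size ((0, cDbl ((B, (a, m)), (nxt^[i] [], i))) : ℕ × S) ≤ L := by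
    intro i hi
    have h0 : (nxt^[i] []).length ≤ m.length := by
      have h1 : lg i ≤ lg (nval m) := lg_mono hi
      rw [lg_nval] at h1
      exact h1
    have h1 := size_bools a
    have h2 := size_bools m
    have h3 := size_bools (nxt^[i] [])
    rw [size_pair_zero', size_cDbl]
    simp only [size_prod, size_nat]
    omega
  have h1 := Rn.chain (V := V) (L := L)
    (fun i => ((0, cDbl ((B, (a, m)), (nxt^[i] [], i))), emp V)) (fun _ => 1) (nval m)
    (fun i hi => by
      refine Rn.step (m := 0) (a := 0) ?_ (by norm_num) rfl (hsz i hi.le)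
      have hne : nxt^[i] [] ≠ m := by
        intro h
        have h1 := congrArg nval h
        rw [nval_iter] at h1
        omega
      rw [G_dbl, gDbl, if_neg hne, iterate_succ_apply' nxt])
  have h2 : Rn V L ((0, cDbl ((B, (a, m)), (nxt^[nval m] [], nval m))), emp V)
      ((0, cScan ((B, (nval m, ((a, []), []))), ([], ([], [])))), emp V) 1 := by
    refine Rn.step (m := 0) (a := 0) ?_ (by norm_num) rfl (hsz _ le_rfl)
    rw [G_dbl, gDbl, if_pos (nxt_iter_nval m)]
  have h3 := h1.trans h2
  rw [sum_const, card_range, smul_eq_mul, mul_one] at h3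
  exact h3

theorem nval_nxt_iter (s : List Bool) (i : ℕ) : nval (nxt^[i] s) = nval s + i := by
  induction i with
  | zero => rfl
  | succ i ih => rw [iterate_succ_apply', nval_nxt, ih]; rfl

theorem nval_zeros (k : ℕ) : nval (List.replicate k false) + 1 = 2 ^ k := by
  induction k with
  | zero => rfl
  | succ k ih =>
    rw [List.replicate_succ, pow_succ, ← ih]
    simp only [nval, Bool.false_eq_true, if_false]
    ring

theorem sel_aux (a u : List Bool) : ∀ (s : List Bool) (acc : Bool),
    (∀ i, nval a = nval s + i → (u.foldl (fun (st : List Bool × Bool) b =>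
      (nxt st.1, st.2 || (decide (st.1 = a) && b))) (s, acc)).2 = (acc || u.getD i false)) ∧
    (nval a < nval s → (u.foldl (fun (st : List Bool × Bool) b =>
      (nxt st.1, st.2 || (decide (st.1 = a) && b))) (s, acc)).2 = acc) := by
  induction u with
  | nil => intro s acc; exact ⟨fun i _ => by simp, fun _ => rfl⟩
  | cons b u ih =>
    intro s acc
    refine ⟨fun i hi => ?_, fun h => ?_⟩
    · rw [List.foldl_cons]
      cases i with
      | zero =>
        have hs : s = a := nval_injective (by omega)
        rw [(ih (nxt s) _).2 (by rw [nval_nxt]; omega)]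
        simp [hs]
      | succ i =>
        have hs : s ≠ a := by rintro rfl; omega
        rw [(ih (nxt s) _).1 i (by rw [nval_nxt]; omega)]
        simp [hs]
    · have hs : s ≠ a := by rintro rfl; omega
      rw [List.foldl_cons, (ih (nxt s) _).2 (by rw [nval_nxt]; omega)]
      simp [hs]

/-- `sel` selects a bit. -/
theorem sel_eq (a u : List Bool) (i : ℕ)
    (ha : nxt^[i] (List.replicate a.length false) = a) : sel a u = u.getD i false := by
  unfold sel
  rw [List.map_const', (sel_aux a u _ _).1 i (by rw [← nval_nxt_iter, ha])]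
  simp

/-- Strings of length `k` as successors of the string of zeros. -/
theorem exists_nxt_iter (a : List Bool) :
    ∃ i < 2 ^ a.length, nxt^[i] (List.replicate a.length false) = a := by
  have h1 := nval_zeros a.length
  have h2 := length_le_nval a
  have h3 := nval_lt_length a
  rw [pow_succ] at h3
  refine ⟨nval a - nval (List.replicate a.length false), by omega, nval_injective ?_⟩
  rw [nval_nxt_iter]
  omega

theorem length_nxt_iter {k i : ℕ} (hi : i < 2 ^ k) :
    (nxt^[i] (List.replicate k false)).length = k := by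
  have h1 := nval_zeros k
  have h2 := nval_nxt_iter (List.replicate k false) i
  rw [← lg_nval, h2]
  have h3 : k ≤ lg (nval (List.replicate k false) + i) := le_lg (by omega)
  have h4 : lg (nval (List.replicate k false) + i) < k + 1 := lg_lt (by rw [pow_succ]; omega)
  omega

theorem nxt_iter_inj {k i j : ℕ}
    (h : nxt^[i] (List.replicate k false) = nxt^[j] (List.replicate k false)) : i = j := by
  have h1 := congrArg nval h
  rw [nval_nxt_iter, nval_nxt_iter] at h1
  omega

/-- Running a table. -/
theorem dec2 (V : Tbl) : ∃ P : Polynomial ℕ, ∀ (Tb : Tbl) (x : List Bool) (s : ℕ),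
    Halts (minit Tb x) s → Rn V (P.eval (size Tb + x.length + s))
      ((0, cDec (x, minit Tb x)), emp V)
      ((0, cFin (if mout (mstep^[s] (minit Tb x)) = [true] then x else [])), emp V) (s + 1) := by
  obtain ⟨q, hq⟩ := size_minit_iter
  refine ⟨4 * Polynomial.X + 50 + q, fun Tb x s ⟨h1, h2⟩ => ?_⟩
  simp only [Polynomial.eval_add, Polynomial.eval_mul, Polynomial.eval_X,
    Polynomial.eval_ofNat]
  set m := size Tb + x.length + s with hm
  have hsz : ∀ i ≤ s, size ((0, cDec (x, mstep^[i] (minit Tb x))) : ℕ × S) ≤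
      4 * m + 50 + q.eval m := by
    intro i hi
    have h3 := (hq Tb x i m (by omega)).1
    have h4 := size_bools x
    rw [size_pair_zero', size_cDec, size_prod]
    simp only
    omega
  have h3 := Rn.chain (V := V) (L := 4 * m + 50 + q.eval m)
    (fun i => ((0, cDec (x, mstep^[i] (minit Tb x))), emp V)) (fun _ => 1) s
    (fun i hi => by
      refine Rn.step (m := 0) (a := 0) ?_ (by norm_num) rfl (hsz i hi.le)
      rw [G_dec, gDec, if_neg (by simp [h1 i hi]), iterate_succ_apply' mstep])
  have h4 : Rn V (4 * m + 50 + q.eval m) ((0, cDec (x, mstep^[s] (minit Tb x))), emp V)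
      ((0, cFin (if mout (mstep^[s] (minit Tb x)) = [true] then x else [])), emp V) 1 := by
    refine Rn.step (m := 0) (a := 0) ?_ (by norm_num) rfl (hsz s le_rfl)
    rw [G_dec, gDec, if_pos h2]
  have h5 := h3.trans h4
  rw [sum_const, card_range, smul_eq_mul, mul_one] at h5
  exact h5

theorem dec2_not (V Tb : Tbl) (x : List Bool) (h : ∀ s, mfin (mstep^[s] (minit Tb x)) = false)
    (N : ℕ) : hl (G V) ((nx (G V))^[N] ((0, cDec (x, minit Tb x)), emp V)) = false := by
  have key : ∀ N, (nx (G V))^[N] ((0, cDec (x, minit Tb x)), emp V) =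
      ((0, cDec (x, mstep^[N] (minit Tb x))), emp V) := by
    intro N
    induction N with
    | zero => rfl
    | succ N ih =>
      have h1 : G V (0, cDec (x, mstep^[N] (minit Tb x))) =
          ((0, 0), cDec (x, mstep^[N + 1] (minit Tb x))) := by
        rw [G_dec, gDec, if_neg (by simp [h N]), iterate_succ_apply' mstep]
      rw [iterate_succ_apply', ih]
      show ((_, _), _) = _
      simp only [h1]
      rfl
  rw [key]
  simp only [hl, G_dec, gDec]
  rfl

end Pool.Agent.Lib.MP_33f9c4_lc.Ef
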