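import Pool.Agent.Lib.MP_33f9c4_lc.Micro
import Pool.Agent.Lib.PolyTime
import Pool.Agent.Lib.PolyTime.Lists

/-!
# The parser of table codes
-/

namespace Pool.Agent.Lib.MP_33f9c4_lc

open Pool.Agent.Lib.PolyTime

/-! ### Correctness -/

theorem foldl_pstep_incr (n : ℕ) : ∀ (m : ℕ) (R : List ℕ × (List (List ℕ) × List Bool)),
    (List.replicate (2 * n) true).foldl pstep (none, (false, (m, R))) =
      (none, (false, (m + n, R))) := by
  induction n with
  | zero => intro m R; rfl
  | succ n ih =>
    intro m R
    have h : List.replicate (2 * (n + 1)) true = true :: true :: List.replicate (2 * n) true := by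
      rw [show 2 * (n + 1) = 2 * n + 1 + 1 by ring]
      rfl
    rw [h]
    simp only [List.foldl_cons]
    have h2 : pstep (pstep (none, (false, (m, R))) true) true = (none, (false, (m + 1, R))) := by
      rfl
    rw [h2, ih]
    simp only [Nat.add_assoc, Nat.add_comm 1 n]

theorem foldl_pstep_num (n : ℕ) (row : List ℕ) (R : List (List ℕ) × List Bool) :
    (List.replicate (2 * n) true ++ [true, false]).foldl pstep (none, (false, (0, (row, R)))) =
      (none, (false, (0, (n :: row, R)))) := by
  rw [List.foldl_append, foldl_pstep_incr, Nat.zero_add]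
  rfl

theorem foldl_pstep_row (r : List ℕ) : ∀ (row : List ℕ) (R : List (List ℕ) × List Bool),
    (r.flatMap (fun n => List.replicate (2 * n) true ++ [true, false])).foldl pstep
      (none, (false, (0, (row, R)))) = (none, (false, (0, (r.reverse ++ row, R)))) := by
  induction r with
  | nil => intro row R; rfl
  | cons n r ih =>
    intro row R
    rw [List.flatMap_cons, List.foldl_append, foldl_pstep_num, ih]
    simp

theorem foldl_pstep_tbl (T : Tbl) : ∀ (rows : List (List ℕ)) (d : List Bool),
    (T.flatMap (fun r => r.flatMap (fun n => List.replicate (2 * n) true ++ [true, false]) ++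
      [false, false])).foldl pstep (none, (false, (0, ([], (rows, d))))) =
      (none, (false, (0, ([], (T.reverse ++ rows, d))))) := by
  induction T with
  | nil => intro rows d; rfl
  | cons r T ih =>
    intro rows d
    rw [List.flatMap_cons, List.foldl_append, List.foldl_append, foldl_pstep_row,
      List.append_nil]
    have h : [false, false].foldl pstep (none, (false, (0, (r.reverse, (rows, d))))) =
        (none, (false, (0, ([], (r :: rows, d))))) := by
      have : [false, false].foldl pstep (none, (false, (0, (r.reverse, (rows, d))))) =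
        (none, (false, (0, ([], (r.reverse.reverse :: rows, d))))) := rfl
      rw [this, List.reverse_reverse]
    rw [h, ih]
    simp

theorem foldl_pstep_rest (d : List Bool) : ∀ (o : Option Bool) (n : ℕ) (row : List ℕ)
    (rows : List (List ℕ)) (e : List Bool),
    d.foldl pstep (o, (true, (n, (row, (rows, e))))) =
      (o, (true, (n, (row, (rows, d.reverse ++ e))))) := by
  induction d with
  | nil => intro o n row rows e; rfl
  | cons b d ih =>
    intro o n row rows e
    have h : pstep (o, (true, (n, (row, (rows, e))))) b =
        (o, (true, (n, (row, (rows, b :: e))))) := rfl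
    rw [List.foldl_cons, h, ih]
    simp

/-- TASK PARSE. -/
theorem parse_code (T : Tbl) (d : List Bool) : parse (tblCode T ++ d) = (T, d) := by
  unfold parse tblCode
  have h : [false, true].foldl pstep (none, (false, (0, ([], (T.reverse ++ [], []))))) =
      (none, (true, (0, ([], (T.reverse, []))))) := by
    rw [List.append_nil]; rfl
  rw [List.foldl_append, List.foldl_append, pinit, foldl_pstep_tbl, h, foldl_pstep_rest]
  simp

/-! ### Polynomial time -/

theorem pt_pstep : PT (fun x : PSt × Bool => pstep x.1 x.2) := by
  -- the components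
  have hs : PT (fun x : PSt × Bool => x.1) := PT.fst
  have hb : PT (fun x : PSt × Bool => x.2) := PT.snd
  have ho : PT (fun x : PSt × Bool => x.1.1) := hs.fst'
  have hfin : PT (fun x : PSt × Bool => x.1.2.1) := hs.snd'.fst'
  have hn : PT (fun x : PSt × Bool => x.1.2.2.1) := hs.snd'.snd'.fst'
  have hrow : PT (fun x : PSt × Bool => x.1.2.2.2.1) := hs.snd'.snd'.snd'.fst'
  have hrows : PT (fun x : PSt × Bool => x.1.2.2.2.2.1) := hs.snd'.snd'.snd'.snd'.fst'
  have hrest : PT (fun x : PSt × Bool => x.1.2.2.2.2.2) := hs.snd'.snd'.snd'.snd'.snd'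
  have h22 : PT (fun x : PSt × Bool => x.1.2.2) := hs.snd'.snd'
  have hF : PT (fun _ : PSt × Bool => false) := PT.const false
  have hT : PT (fun _ : PSt × Bool => true) := PT.const true
  have hN : PT (fun _ : PSt × Bool => (none : Option Bool)) := PT.const none
  have h0 : PT (fun _ : PSt × Bool => 0) := PT.const 0
  -- the results
  have r1 : PT (fun x : PSt × Bool => ((x.1.1, (x.1.2.1, (x.1.2.2.1, (x.1.2.2.2.1,
      (x.1.2.2.2.2.1, x.2 :: x.1.2.2.2.2.2))))) : PSt)) :=
    ho.pair (hfin.pair (hn.pair (hrow.pair (hrows.pair (PT.cons hb hrest)))))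
  have r2 : PT (fun x : PSt × Bool => ((some x.2, x.1.2) : PSt)) := (PT.some hb).pair hs.snd'
  have r3 : PT (fun x : PSt × Bool => ((none, (false, (x.1.2.2.1 + 1, x.1.2.2.2))) : PSt)) :=
    hN.pair (hF.pair (hn.succ.pair hs.snd'.snd'.snd'))
  have r4 : PT (fun x : PSt × Bool => ((none, (false, (0, (x.1.2.2.1 :: x.1.2.2.2.1,
      x.1.2.2.2.2)))) : PSt)) :=
    hN.pair (hF.pair (h0.pair ((PT.cons hn hrow).pair hs.snd'.snd'.snd'.snd')))
  have r5 : PT (fun x : PSt × Bool => ((none, (true, x.1.2.2)) : PSt)) :=
    hN.pair (hT.pair h22)
  have r6 : PT (fun x : PSt × Bool => ((none, (false, (0, ([], (x.1.2.2.2.1.reverse ::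
      x.1.2.2.2.2.1, x.1.2.2.2.2.2))))) : PSt)) :=
    hN.pair (hF.pair (h0.pair ((PT.const []).pair ((PT.cons hrow.reverse hrows).pair hrest))))
  have hA : PT (fun x : PSt × Bool => if x.2 then
      ((none, (false, (x.1.2.2.1 + 1, x.1.2.2.2))) : PSt) else
      (none, (false, (0, (x.1.2.2.1 :: x.1.2.2.2.1, x.1.2.2.2.2))))) :=
    (PT.cond hb r3 r4).congr (fun x => by cases x.2 <;> rfl)
  have hB : PT (fun x : PSt × Bool => if x.2 then ((none, (true, x.1.2.2)) : PSt) else
      (none, (false, (0, ([], (x.1.2.2.2.1.reverse :: x.1.2.2.2.2.1, x.1.2.2.2.2.2)))))) :=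
    (PT.cond hb r5 r6).congr (fun x => by cases x.2 <;> rfl)
  have hC : PT (fun x : PSt × Bool => match x.1.1 with
      | none => ((some x.2, x.1.2) : PSt)
      | some a => if a then
          (if x.2 then (none, (false, (x.1.2.2.1 + 1, x.1.2.2.2)))
            else (none, (false, (0, (x.1.2.2.1 :: x.1.2.2.2.1, x.1.2.2.2.2)))))
        else
          (if x.2 then (none, (true, x.1.2.2))
            else (none, (false, (0, ([], (x.1.2.2.2.1.reverse :: x.1.2.2.2.2.1,
              x.1.2.2.2.2.2))))))) := by
    refine (PT.optCases (f := fun x : PSt × Bool => x.1.1)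
      (g := fun x => ((some x.2, x.1.2) : PSt))
      (h := fun x (a : Bool) => if a then
          (if x.2 then ((none, (false, (x.1.2.2.1 + 1, x.1.2.2.2))) : PSt)
            else (none, (false, (0, (x.1.2.2.1 :: x.1.2.2.2.1, x.1.2.2.2.2)))))
        else
          (if x.2 then (none, (true, x.1.2.2))
            else (none, (false, (0, ([], (x.1.2.2.2.1.reverse :: x.1.2.2.2.2.1,
              x.1.2.2.2.2.2))))))) ho r2 ?_).congr (fun x => by cases x.1.1 <;> rfl)
    have hA' := hA.comp (PT.fst (α := PSt × Bool) (β := Bool))
    have hB' := hB.comp (PT.fst (α := PSt × Bool) (β := Bool))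
    exact (PT.cond (PT.snd (α := PSt × Bool) (β := Bool)) hA' hB').congr
      (fun x => by cases x.2 <;> rfl)
  refine (PT.cond hfin r1 hC).congr (fun x => ?_)
  obtain ⟨⟨o, f, n, row, rows, rest⟩, b⟩ := x
  cases f <;> cases o <;> rfl

theorem size_pstep (s : PSt) (b : Bool) : size (pstep s b) ≤ size s + 20 := by
  obtain ⟨o, f, n, row, rows, rest⟩ := s
  have hb : size b ≤ 3 := by cases b <;> decide
  have hf : 1 ≤ size f := size_pos f
  have ho : 1 ≤ size o := size_pos o
  have hn : 1 ≤ size n := size_pos n
  have hrow : 1 ≤ size row := size_pos row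
  have hF : size false ≤ 3 := by decide
  have hT : size true ≤ 3 := by decide
  have hN : size (none : Option Bool) ≤ 1 := by decide
  have hS : size (some b) ≤ 5 := by cases b <;> decide
  have hL : size ([] : List ℕ) = 1 := by decide
  cases f with
  | true =>
    have h : pstep (o, (true, (n, (row, (rows, rest))))) b =
      (o, (true, (n, (row, (rows, b :: rest))))) := rfl
    rw [h]
    simp only [size_prod, size_cons]
    omega
  | false =>
    cases o with
    | none =>
      have h : pstep (none, (false, (n, (row, (rows, rest))))) b =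
        (some b, (false, (n, (row, (rows, rest))))) := rfl
      rw [h]
      simp only [size_prod]
      omega
    | some a =>
      cases a <;> cases b
      · have h : pstep (some false, (false, (n, (row, (rows, rest))))) false =
          (none, (false, (0, ([], (row.reverse :: rows, rest))))) := rfl
        rw [h]
        simp only [size_prod, size_cons, size_reverse, size_nat]
        omega
      · have h : pstep (some false, (false, (n, (row, (rows, rest))))) true =
          (none, (true, (n, (row, (rows, rest))))) := rfl
        rw [h]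
        simp only [size_prod]
        omega
      · have h : pstep (some true, (false, (n, (row, (rows, rest))))) false =
          (none, (false, (0, (n :: row, (rows, rest))))) := rfl
        rw [h]
        simp only [size_prod, size_cons, size_nat]
        omega
      · have h : pstep (some true, (false, (n, (row, (rows, rest))))) true =
          (none, (false, (n + 1, (row, (rows, rest))))) := rfl
        rw [h]
        simp only [size_prod, size_nat]
        omega

theorem pt_parse : PT parse := by
  have h : PT (fun e : List Bool => e.foldl pstep pinit) := by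
    refine PT.foldl_add (f := fun e : List Bool => e) (init := fun _ => pinit)
      (step := fun _ s b => pstep s b) PT.id (PT.const _) (pt_pstep.comp PT.snd)
      (C := fun _ => 20) (PB.const 20) (fun a s b _ => size_pstep s b)
  exact (h.snd'.snd'.snd'.snd'.fst'.reverse).pair (h.snd'.snd'.snd'.snd'.snd'.reverse)

end Pool.Agent.Lib.MP_33f9c4_lc
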