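import Pool.Agent.Lib.MP_33f9c4_lc.Steps2

/-!
# The step function is computable in polynomial time
-/

namespace Pool.Agent.Lib.MP_33f9c4_lc.Ef

open Pool.Agent.Lib.PolyTime Function

set_option synthInstance.maxSize 2000

section

variable {α β γ δ : Type} [Enc α] [Enc β] [Enc γ] [Enc δ]

theorem pt_sumElim₂ {f : α → γ → δ} {f' : α → β → δ} {r : α → γ ⊕ β}
    (hf : PT (fun x : α × γ => f x.1 x.2)) (hf' : PT (fun x : α × β => f' x.1 x.2))
    (hr : PT r) : PT (fun x => Sum.elim (f x) (f' x) (r x)) := by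
  have := PT.sumCases (f := r) (g := fun a b => f a b) (h := fun a b => f' a b) hr hf hf'
  refine this.congr fun x => ?_
  rcases r x with a | b <;> rfl

end

theorem pt_cLoad {α : Type} [Enc α] {f : α → X × List Bool} (hf : PT f) :
    PT (fun a => cLoad (f a)) := PT.inl hf
theorem pt_cRun {α : Type} [Enc α] {f : α → Bool × (X × Q)} (hf : PT f) :
    PT (fun a => cRun (f a)) := PT.inr (PT.inl hf)
theorem pt_cRead {α : Type} [Enc α] {f : α → Bool × (X × (Q × List Bool))} (hf : PT f) :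
    PT (fun a => cRead (f a)) := PT.inr (PT.inr (PT.inl hf))
theorem pt_cClean {α : Type} [Enc α] {f : α → Bool × (X × ((List Bool × List Bool) × ℕ))}
    (hf : PT f) : PT (fun a => cClean (f a)) := PT.inr (PT.inr (PT.inr (PT.inl hf)))
theorem pt_cPow {α : Type} [Enc α] {f : α → ℕ × ((List Bool × List Bool) × ℕ)} (hf : PT f) :
    PT (fun a => cPow (f a)) := PT.inr (PT.inr (PT.inr (PT.inr (PT.inl hf))))
theorem pt_cWait {α : Type} [Enc α]
    {f : α → ((List Bool × List Bool) × List Bool) × (ℕ × ℕ)} (hf : PT f) :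
    PT (fun a => cWait (f a)) := PT.inr (PT.inr (PT.inr (PT.inr (PT.inr (PT.inl hf)))))
theorem pt_cDbl {α : Type} [Enc α] {f : α → (ℕ × (List Bool × List Bool)) × (List Bool × ℕ)}
    (hf : PT f) : PT (fun a => cDbl (f a)) :=
  PT.inr (PT.inr (PT.inr (PT.inr (PT.inr (PT.inr (PT.inl hf))))))
theorem pt_cScan {α : Type} [Enc α] {f : α → Env × Cnt} (hf : PT f) :
    PT (fun a => cScan (f a)) :=
  PT.inr (PT.inr (PT.inr (PT.inr (PT.inr (PT.inr (PT.inr (PT.inl hf)))))))
theorem pt_cDec {α : Type} [Enc α] {f : α → List Bool × Cfg} (hf : PT f) :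
    PT (fun a => cDec (f a)) :=
  PT.inr (PT.inr (PT.inr (PT.inr (PT.inr (PT.inr (PT.inr (PT.inr (PT.inl hf))))))))
theorem pt_cFin {α : Type} [Enc α] {f : α → List Bool} (hf : PT f) :
    PT (fun a => cFin (f a)) :=
  PT.inr (PT.inr (PT.inr (PT.inr (PT.inr (PT.inr (PT.inr (PT.inr (PT.inr hf))))))))

theorem pt_nop {α : Type} [Enc α] {f : α → S} (hf : PT f) :
    PT (fun a => (((0, 0), f a) : (ℕ × ℕ) × S)) := (PT.const (0, 0)).pair hf

theorem pt_fl (V : Tbl) {α : Type} [Enc α] {q i : α → ℕ} (hq : PT q) (hi : PT i) :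
    PT (fun a => fl V (q a) (i a)) :=
  mpt_getD (mpt_getD (PT.const V) hq []) hi 3

theorem pt_tst {α : Type} [Enc α] {x : α → X} {s : α → List Bool} (hx : PT x) (hs : PT s) :
    PT (fun a => tst (x a) (s a)) := by
  have h1 : PT (fun y : α × ℕ => true) := PT.const true
  have hz : PT (fun y : α × (Env × Cnt) => y.2) := PT.snd
  have h2 : PT (fun y : α × (Env × Cnt) => decide ((s y.1).length + y.2.1.1 * lg y.2.1.2.1 +
      y.2.2.1.length < y.2.1.2.1)) := by
    have hn : PT (fun y : α × (Env × Cnt) => y.2.1.2.1) := PT.fst' (PT.snd' (PT.fst' hz))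
    exact PT.lt (PT.add (PT.add (PT.length (hs.comp PT.fst)) (PT.mul (PT.fst' (PT.fst' hz))
      (pt_lg.comp hn))) (PT.length (PT.fst' (PT.snd' hz)))) hn
  exact pt_sumElim₂ (f := fun _ _ => true) (f' := fun a z =>
    decide ((s a).length + z.1.1 * lg z.1.2.1 + z.2.1.length < z.1.2.1)) h1 h2 hx

theorem pt_mor {α : Type} [Enc α] {x : α → X} {y : α → List Bool} (hx : PT x) (hy : PT y) :
    PT (fun a => mor (x a) (y a)) := by
  have h2 : PT (fun w : α × (Env × Cnt) => decide ((y w.1).length ≤ w.2.1.2.1)) :=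
    PT.le (PT.length (hy.comp PT.fst)) (PT.fst' (PT.snd' (PT.fst' PT.snd)))
  exact pt_sumElim₂ (f := fun _ _ => true) (f' := fun a z =>
    decide ((y a).length ≤ z.1.2.1)) (PT.const true) h2 hx

theorem pt_ret1 : PT (fun w : (List Bool × List Bool) × ℕ => cPow (w.2, (w.1, 1))) :=
  pt_cPow (PT.snd.pair (PT.fst.pair (PT.const 1)))

/-- Return to the search. -/
def ret2 (w : (List Bool × List Bool) × (Env × Cnt)) : S :=
  cScan (w.2.1, (nxt w.2.2.1, (updc w.2.1.2.1 w.2.1.2.2.2 false w.1.2 w.2.2.2.1,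
      updc w.2.1.2.1 w.2.1.2.2.2 true w.1.2 w.2.2.2.2)))

theorem pt_ret2 : PT ret2 := by
  have hz : PT (fun y : (List Bool × List Bool) × (Env × Cnt) => y.2) := PT.snd
  have hn : PT (fun y : (List Bool × List Bool) × (Env × Cnt) => y.2.1.2.1) :=
    PT.fst' (PT.snd' (PT.fst' hz))
  have hu : PT (fun y : (List Bool × List Bool) × (Env × Cnt) => y.2.1.2.2.2) :=
    PT.snd' (PT.snd' (PT.snd' (PT.fst' hz)))
  have hy : PT (fun y : (List Bool × List Bool) × (Env × Cnt) => y.1.2) := PT.snd' PT.fst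
  have h0 : PT (fun y : (List Bool × List Bool) × (Env × Cnt) => y.2.2.2.1) :=
    PT.fst' (PT.snd' (PT.snd' hz))
  have h1 : PT (fun y : (List Bool × List Bool) × (Env × Cnt) => y.2.2.2.2) :=
    PT.snd' (PT.snd' (PT.snd' hz))
  have h3 := pt_updc hn hu hy h0 false
  have h4 := pt_updc hn hu hy h1 true
  have h5 : PT (fun y : (List Bool × List Bool) × (Env × Cnt) => nxt y.2.2.1) :=
    pt_nxt.comp (PT.fst' (PT.snd' hz))
  exact pt_cScan ((PT.fst' hz).pair (h5.pair (h3.pair h4)))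

theorem ret_eq (x : X) (sy : List Bool × List Bool) :
    ret x sy = Sum.elim (fun B => cPow (B, (sy, 1))) (fun z => ret2 (sy, z)) x := rfl

theorem pt_ret {α : Type} [Enc α] {x : α → X} {sy : α → List Bool × List Bool} (hx : PT x)
    (hsy : PT sy) : PT (fun a => ret (x a) (sy a)) := by
  have h1 : PT (fun w : α × ℕ => cPow (w.2, (sy w.1, 1))) :=
    pt_ret1.comp ((hsy.comp PT.fst).pair PT.snd)
  have h2 : PT (fun w : α × (Env × Cnt) => ret2 (sy w.1, w.2)) :=
    pt_ret2.comp ((hsy.comp PT.fst).pair PT.snd)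
  simp only [ret_eq]
  exact pt_sumElim₂ (f := fun a B => cPow (B, (sy a, 1))) (f' := fun a z => ret2 (sy a, z))
    h1 h2 hx

theorem pt_gLoad : PT gLoad :=
  PT.ite (PT.eq PT.snd (PT.const [])) (pt_nop (pt_cRun ((PT.const false).pair
    (PT.fst.pair (PT.const (0, []))))))
    (((PT.const 3).pair (PT.ite (PT.eq (PT.head? PT.snd) (PT.const (some true))) (PT.const 1)
      (PT.const 0))).pair (pt_cLoad (PT.fst.pair (PT.tail PT.snd))))

theorem pt_gRun (V : Tbl) : PT (fun y : ℕ × (Bool × (X × Q)) => gRun V y.1 y.2) := by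
  have hr : PT (fun y : ℕ × (Bool × (X × Q)) => y.1) := PT.fst
  have hb : PT (fun y : ℕ × (Bool × (X × Q)) => y.2.1) := PT.fst' PT.snd
  have hz2 : PT (fun y : ℕ × (Bool × (X × Q)) => y.2.2) := PT.snd' PT.snd
  have hx : PT (fun y : ℕ × (Bool × (X × Q)) => y.2.2.1) := PT.fst' hz2
  have hQ : PT (fun y : ℕ × (Bool × (X × Q)) => y.2.2.2) := PT.snd' hz2
  have hq : PT (fun y : ℕ × (Bool × (X × Q)) => y.2.2.2.1) := PT.fst' hQ
  have hs : PT (fun y : ℕ × (Bool × (X × Q)) => y.2.2.2.2) := PT.snd' hQ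
  have f : ∀ i : ℕ, PT (fun y : ℕ × (Bool × (X × Q)) => fl V y.2.2.2.1 i) :=
    fun i => pt_fl V hq (PT.const i)
  have hpush : PT (fun y : ℕ × (Bool × (X × Q)) => 3 + 2 * fl V y.2.2.2.1 1) :=
    PT.add (PT.const 3) (PT.mulConst (f 1) 2)
  have hpop : PT (fun y : ℕ × (Bool × (X × Q)) => 2 + 2 * fl V y.2.2.2.1 1) :=
    PT.add (PT.const 2) (PT.mulConst (f 1) 2)
  exact PT.ite (PT.eq hb (PT.const true))
    ((PT.ite (PT.eq (PT.and (PT.eq (f 0) (PT.const 2)) (PT.not (PT.eq hr (PT.const 0))))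
      (PT.const true)) (hpush.pair (PT.pred hr)) (PT.const (0, 0))).pair
      (pt_cRun ((PT.const false).pair (hx.pair ((pt_fl V hq (PT.addConst hr 2)).pair
        (pt_nxt.comp hs))))))
    (PT.ite (PT.le (PT.const 3) (f 0))
      (pt_nop (pt_cRead ((PT.const false).pair (hx.pair (hQ.pair (PT.const []))))))
      (PT.ite (PT.eq (pt_tst hx hs) (PT.const true))
        (PT.ite (PT.eq (f 0) (PT.const 0))
          ((hpush.pair (f 2)).pair (pt_cRun ((PT.const false).pair (hx.pair ((f 3).pair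
            (pt_nxt.comp hs))))))
          ((hpop.pair (PT.const 0)).pair (pt_cRun ((PT.const true).pair hz2))))
        (pt_nop (pt_cClean ((PT.const false).pair (hx.pair ((hs.pair (PT.const [])).pair
          (PT.const 0))))))))

theorem pt_gRead (V : Tbl) :
    PT (fun y : ℕ × (Bool × (X × (Q × List Bool))) => gRead V y.1 y.2) := by
  have hr : PT (fun y : ℕ × (Bool × (X × (Q × List Bool))) => y.1) := PT.fst
  have hb : PT (fun y : ℕ × (Bool × (X × (Q × List Bool))) => y.2.1) := PT.fst' PT.snd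
  have hz2 : PT (fun y : ℕ × (Bool × (X × (Q × List Bool))) => y.2.2) := PT.snd' PT.snd
  have hx : PT (fun y : ℕ × (Bool × (X × (Q × List Bool))) => y.2.2.1) := PT.fst' hz2
  have hQ : PT (fun y : ℕ × (Bool × (X × (Q × List Bool))) => y.2.2.2.1) :=
    PT.fst' (PT.snd' hz2)
  have hy : PT (fun y : ℕ × (Bool × (X × (Q × List Bool))) => y.2.2.2.2) :=
    PT.snd' (PT.snd' hz2)
  have hq : PT (fun y : ℕ × (Bool × (X × (Q × List Bool))) => y.2.2.2.1.1) := PT.fst' hQ
  have hs : PT (fun y : ℕ × (Bool × (X × (Q × List Bool))) => y.2.2.2.1.2) := PT.snd' hQ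
  exact PT.ite (PT.eq hb (PT.const true))
    (pt_nop (PT.ite (PT.eq (PT.and (PT.not (PT.eq hr (PT.const 0))) (pt_mor hx hy))
      (PT.const true))
      (pt_cRead ((PT.const false).pair (hx.pair (hQ.pair (PT.append hy (PT.list1
        (PT.eq (pt_fl V hq (PT.addConst hr 1)) (PT.const 1))))))))
      (pt_cClean ((PT.const false).pair (hx.pair ((hs.pair hy).pair (PT.const 0)))))))
    (((PT.add (PT.const 2) (PT.mulConst (pt_fl V hq (PT.const 1)) 2)).pair (PT.const 0)).pair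
      (pt_cRead ((PT.const true).pair hz2)))

theorem pt_gClean (V : Tbl) :
    PT (fun y : ℕ × (Bool × (X × ((List Bool × List Bool) × ℕ))) => gClean V y.1 y.2) := by
  have hr : PT (fun y : ℕ × (Bool × (X × ((List Bool × List Bool) × ℕ))) => y.1) := PT.fst
  have hb : PT (fun y : ℕ × (Bool × (X × ((List Bool × List Bool) × ℕ))) => y.2.1) :=
    PT.fst' PT.snd
  have hz2 : PT (fun y : ℕ × (Bool × (X × ((List Bool × List Bool) × ℕ))) => y.2.2) :=
    PT.snd' PT.snd
  have hx : PT (fun y : ℕ × (Bool × (X × ((List Bool × List Bool) × ℕ))) => y.2.2.1) :=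
    PT.fst' hz2
  have hsy : PT (fun y : ℕ × (Bool × (X × ((List Bool × List Bool) × ℕ))) => y.2.2.2.1) :=
    PT.fst' (PT.snd' hz2)
  have hi : PT (fun y : ℕ × (Bool × (X × ((List Bool × List Bool) × ℕ))) => y.2.2.2.2) :=
    PT.snd' (PT.snd' hz2)
  exact PT.ite (PT.eq hb (PT.const true))
    (pt_nop (pt_cClean ((PT.const false).pair (hx.pair (hsy.pair
      (PT.ite (PT.eq hr (PT.const 0)) (PT.addConst hi 1) hi))))))
    (PT.ite (PT.lt (PT.const V.length) hi) (pt_nop (pt_ret hx hsy))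
      (((PT.add (PT.const 2) (PT.mulConst hi 2)).pair (PT.const 0)).pair
        (pt_cClean ((PT.const true).pair hz2))))

theorem pt_gPow : PT gPow := by
  have h0 : PT (fun z : ℕ × ((List Bool × List Bool) × ℕ) => z.1) := PT.fst
  have h1 : PT (fun z : ℕ × ((List Bool × List Bool) × ℕ) => z.2.1) := PT.fst' PT.snd
  have h2 : PT (fun z : ℕ × ((List Bool × List Bool) × ℕ) => z.2.2) := PT.snd' PT.snd
  exact pt_nop (PT.ite (PT.eq h0 (PT.const 0))
    (pt_cWait ((h1.pair (PT.const [])).pair (h2.pair h2)))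
    (pt_cPow ((PT.pred h0).pair (h1.pair (PT.mul h2 (PT.addConst (PT.length (PT.snd' h1)) 1))))))

theorem pt_gWait : PT gWait := by
  have h0 : PT (fun z : ((List Bool × List Bool) × List Bool) × (ℕ × ℕ) => z.1) := PT.fst
  have h1 : PT (fun z : ((List Bool × List Bool) × List Bool) × (ℕ × ℕ) => z.2) := PT.snd
  exact pt_nop (PT.ite (PT.eq (PT.fst' h1) (PT.const 0))
    (PT.ite (PT.eq (PT.snd' h0) (PT.fst' (PT.fst' h0))) (pt_cFin (PT.snd' (PT.fst' h0)))
      (pt_cWait (((PT.fst' h0).pair (pt_nxt.comp (PT.snd' h0))).pair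
        ((PT.snd' h1).pair (PT.snd' h1)))))
    (pt_cWait (h0.pair ((PT.pred (PT.fst' h1)).pair (PT.snd' h1)))))

theorem pt_gDbl : PT gDbl := by
  have h0 : PT (fun z : (ℕ × (List Bool × List Bool)) × (List Bool × ℕ) => z.1) := PT.fst
  have h1 : PT (fun z : (ℕ × (List Bool × List Bool)) × (List Bool × ℕ) => z.2) := PT.snd
  exact pt_nop (PT.ite (PT.eq (PT.fst' h1) (PT.snd' (PT.snd' h0)))
    (pt_cScan (((PT.fst' h0).pair ((PT.snd' h1).pair (((PT.fst' (PT.snd' h0)).pair
      (PT.const [])).pair (PT.const [])))).pair (PT.const ([], ([], [])))))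
    (pt_cDbl (h0.pair ((pt_nxt.comp (PT.fst' h1)).pair (PT.addConst (PT.snd' h1) 1)))))

theorem size_bool (b : Bool) : size b ≤ 3 := by cases b <;> simp [size]

theorem size_nxt (l : List Bool) : size (nxt l) ≤ size l + 4 := by
  induction l with
  | nil => simp [nxt, size]
  | cons b l ih =>
    cases b
    · simp only [nxt, size_cons]
      have := size_bool true
      omega
    · simp only [nxt, size_cons]
      have h1 : size true = 3 := rfl
      have h2 : size false = 1 := rfl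
      omega

theorem pt_sel : PT (fun x : List Bool × List Bool => sel x.1 x.2) := by
  unfold sel
  refine PT.snd' (PT.foldl_add (f := fun x : List Bool × List Bool => x.2)
    (init := fun x : List Bool × List Bool => (x.1.map (fun _ => false), false))
    (step := fun (x : List Bool × List Bool) (st : List Bool × Bool) (b : Bool) =>
      (nxt st.1, st.2 || (decide (st.1 = x.1) && b))) PT.snd ?_ ?_ (C := fun _ => 6)
      (PB.const 6) ?_)
  · exact (PT.map PT.fst (PT.const false)).pair (PT.const false)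
  · have hst : PT (fun y : (List Bool × List Bool) × ((List Bool × Bool) × Bool) => y.2.1) :=
      PT.fst' PT.snd
    exact (pt_nxt.comp (PT.fst' hst)).pair (PT.or (PT.snd' hst) (PT.and
      (PT.eq (PT.fst' hst) (PT.fst' PT.fst)) (PT.snd' PT.snd)))
  · intro a s b _
    have h1 := size_nxt s.1
    have h2 := size_bool (s.2 || (decide (s.1 = a.1) && b))
    have h3 := size_pos s.2
    have e : size s = size s.1 + size s.2 + 1 := size_prod s
    rw [size_prod]
    simp only at h1 h2 h3 ⊢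
    omega

theorem pt_dv3 : PT dv3 := by
  unfold dv3
  refine PT.foldl_add (f := fun w : List Bool => w) (init := fun _ => ((0, 0) : ℕ × ℕ))
    (step := fun _ (st : ℕ × ℕ) (_ : Bool) => if st.2 = 2 then (st.1 + 1, 0)
      else (st.1, st.2 + 1)) PT.id (PT.const _) ?_ (C := fun _ => 6) (PB.const 6) ?_
  · have hst : PT (fun y : List Bool × ((ℕ × ℕ) × Bool) => y.2.1) := PT.fst' PT.snd
    exact PT.ite (PT.eq (PT.snd' hst) (PT.const 2))
      ((PT.addConst (PT.fst' hst) 1).pair (PT.const 0))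
      ((PT.fst' hst).pair (PT.addConst (PT.snd' hst) 1))
  · intro a s b _
    have e : size s = size s.1 + size s.2 + 1 := size_prod s
    rw [size_nat, size_nat] at e
    split_ifs
    · rw [size_prod, size_nat, size_nat]
      omega
    · rw [size_prod, size_nat, size_nat]
      omega

theorem pt_dne : PT dne := by
  have hB : PT (fun v : Env => v.1) := PT.fst
  have hn : PT (fun v : Env => v.2.1) := PT.fst' PT.snd
  have ha : PT (fun v : Env => v.2.2.1.1) := PT.fst' (PT.fst' (PT.snd' PT.snd))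
  have hx : PT (fun v : Env => v.2.2.1.2) := PT.snd' (PT.fst' (PT.snd' PT.snd))
  have hu : PT (fun v : Env => v.2.2.2) := PT.snd' (PT.snd' PT.snd)
  have hua := PT.append hu ha
  exact PT.ite (PT.eq hx (PT.const []))
    (PT.ite (PT.eq (PT.head? ha) (PT.const (some true)))
      (pt_cDec (hua.pair (pt_minit' (PT.fst' (pt_parse.comp (PT.tail ha))) hua)))
      (pt_cScan ((hB.pair ((PT.addConst hn 1).pair ((ha.pair hua).pair (PT.const [])))).pair
        (PT.const ([], ([], []))))))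
    (pt_cFin (PT.ite (PT.eq (pt_sel.comp ((PT.tail ha).pair hu)) (PT.const true)) hx
      (PT.const [])))

theorem pt_gScan : PT gScan := by
  have hv : PT (fun z : Env × Cnt => z.1) := PT.fst
  have hB : PT (fun z : Env × Cnt => z.1.1) := PT.fst' hv
  have hn : PT (fun z : Env × Cnt => z.1.2.1) := PT.fst' (PT.snd' hv)
  have hax : PT (fun z : Env × Cnt => z.1.2.2.1) := PT.fst' (PT.snd' (PT.snd' hv))
  have hu : PT (fun z : Env × Cnt => z.1.2.2.2) := PT.snd' (PT.snd' (PT.snd' hv))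
  have he : PT (fun z : Env × Cnt => z.2.1) := PT.fst' PT.snd
  have h0 : PT (fun z : Env × Cnt => z.2.2.1) := PT.fst' (PT.snd' PT.snd)
  have h1 : PT (fun z : Env × Cnt => z.2.2.2) := PT.snd' (PT.snd' PT.snd)
  have hlg : PT (fun z : Env × Cnt => lg z.1.2.1) := pt_lg.comp hn
  exact pt_nop (PT.ite (PT.le hn (PT.add (PT.length hu) (PT.mulConst hlg 2)))
    (pt_dne.comp hv)
    (PT.ite (PT.lt (PT.add (PT.length he) (PT.mul hB hlg)) hn)
      (pt_cLoad ((PT.inr PT.id).pair (PT.reverse he)))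
      (pt_cScan ((hB.pair (hn.pair (hax.pair (PT.append hu (PT.list1
        (pt_nlt.comp (h1.pair h0))))))).pair (PT.const ([], ([], [])))))))

theorem pt_gDec : PT gDec :=
  pt_nop (PT.ite (PT.eq (pt_mfin.comp PT.snd) (PT.const true))
    (pt_cFin (PT.ite (PT.eq (pt_mout.comp PT.snd) (PT.const [true])) PT.fst (PT.const [])))
    (pt_cDec (PT.fst.pair (pt_mstep.comp PT.snd))))

theorem pt_elim {β γ δ : Type} [Enc β] [Enc γ] [Enc δ] {f : ℕ → γ → δ} {f' : ℕ → β → δ}
    (hf : PT (fun x : ℕ × γ => f x.1 x.2)) (hf' : PT (fun x : ℕ × β => f' x.1 x.2)) :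
    PT (fun x : ℕ × (γ ⊕ β) => Sum.elim (f x.1) (f' x.1) x.2) :=
  pt_sumElim₂ (f := fun (a : ℕ × (γ ⊕ β)) c => f a.1 c) (f' := fun a c => f' a.1 c)
    (hf.comp ((PT.fst' PT.fst).pair PT.snd)) (hf'.comp ((PT.fst' PT.fst).pair PT.snd)) PT.snd

theorem pt_gFin : PT (fun z : List Bool => (((1, 0), cFin z) : (ℕ × ℕ) × S)) :=
  (PT.const (1, 0)).pair (pt_cFin PT.id)

/-- The parts of the step function. -/
def G9 (_ : ℕ) : (List Bool × Cfg) ⊕ List Bool → (ℕ × ℕ) × S :=
  Sum.elim gDec (fun z => ((1, 0), cFin z))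
def G8 (r : ℕ) : (Env × Cnt) ⊕ ((List Bool × Cfg) ⊕ List Bool) → (ℕ × ℕ) × S :=
  Sum.elim gScan (G9 r)
def G7 (r : ℕ) : ((ℕ × (List Bool × List Bool)) × (List Bool × ℕ)) ⊕
    ((Env × Cnt) ⊕ ((List Bool × Cfg) ⊕ List Bool)) → (ℕ × ℕ) × S :=
  Sum.elim gDbl (G8 r)
def G6 (r : ℕ) : (((List Bool × List Bool) × List Bool) × (ℕ × ℕ)) ⊕
    (((ℕ × (List Bool × List Bool)) × (List Bool × ℕ)) ⊕
    ((Env × Cnt) ⊕ ((List Bool × Cfg) ⊕ List Bool))) → (ℕ × ℕ) × S :=
  Sum.elim gWait (G7 r)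
def G5 (r : ℕ) : (ℕ × ((List Bool × List Bool) × ℕ)) ⊕
    ((((List Bool × List Bool) × List Bool) × (ℕ × ℕ)) ⊕
    (((ℕ × (List Bool × List Bool)) × (List Bool × ℕ)) ⊕
    ((Env × Cnt) ⊕ ((List Bool × Cfg) ⊕ List Bool)))) → (ℕ × ℕ) × S :=
  Sum.elim gPow (G6 r)

theorem pt_G9 : PT (fun x : ℕ × ((List Bool × Cfg) ⊕ List Bool) => G9 x.1 x.2) :=
  pt_elim (f := fun _ => gDec) (f' := fun _ z => ((1, 0), cFin z)) (pt_gDec.comp PT.snd)
    (pt_gFin.comp PT.snd)
theorem pt_G8 : PT (fun x : ℕ × ((Env × Cnt) ⊕ ((List Bool × Cfg) ⊕ List Bool)) =>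
    G8 x.1 x.2) :=
  pt_elim (f := fun _ => gScan) (f' := G9) (pt_gScan.comp PT.snd) pt_G9
theorem pt_G7 : PT (fun x : ℕ × (((ℕ × (List Bool × List Bool)) × (List Bool × ℕ)) ⊕
    ((Env × Cnt) ⊕ ((List Bool × Cfg) ⊕ List Bool))) => G7 x.1 x.2) :=
  pt_elim (f := fun _ => gDbl) (f' := G8) (pt_gDbl.comp PT.snd) pt_G8
theorem pt_G6 : PT (fun x : ℕ × ((((List Bool × List Bool) × List Bool) × (ℕ × ℕ)) ⊕
    (((ℕ × (List Bool × List Bool)) × (List Bool × ℕ)) ⊕
    ((Env × Cnt) ⊕ ((List Bool × Cfg) ⊕ List Bool)))) => G6 x.1 x.2) :=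
  pt_elim (f := fun _ => gWait) (f' := G7) (pt_gWait.comp PT.snd) pt_G7
theorem pt_G5 : PT (fun x : ℕ × ((ℕ × ((List Bool × List Bool) × ℕ)) ⊕
    ((((List Bool × List Bool) × List Bool) × (ℕ × ℕ)) ⊕
    (((ℕ × (List Bool × List Bool)) × (List Bool × ℕ)) ⊕
    ((Env × Cnt) ⊕ ((List Bool × Cfg) ⊕ List Bool))))) => G5 x.1 x.2) :=
  pt_elim (f := fun _ => gPow) (f' := G6) (pt_gPow.comp PT.snd) pt_G6

theorem G_eq (V : Tbl) : G V = fun x => Sum.elim gLoad (Sum.elim (gRun V x.1)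
    (Sum.elim (gRead V x.1) (Sum.elim (gClean V x.1) (G5 x.1)))) x.2 := rfl

theorem pt_G (V : Tbl) : PT (G V) := by
  have h4 := pt_elim (f' := G5) (pt_gClean V) pt_G5
  have h3 := pt_elim (f' := fun r => Sum.elim (gClean V r) (G5 r)) (pt_gRead V) h4
  have h2 := pt_elim
    (f' := fun r => Sum.elim (gRead V r) (Sum.elim (gClean V r) (G5 r))) (pt_gRun V) h3
  have h1 := pt_elim (f := fun _ => gLoad)
    (f' := fun r => Sum.elim (gRun V r) (Sum.elim (gRead V r) (Sum.elim (gClean V r) (G5 r))))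
    (pt_gLoad.comp PT.snd) h2
  rw [G_eq]
  exact h1

theorem pt_out : PT out :=
  PT.sumElim (PT.const _) (PT.sumElim (PT.const _) (PT.sumElim (PT.const _)
    (PT.sumElim (PT.const _) (PT.sumElim (PT.const _) (PT.sumElim (PT.const _)
      (PT.sumElim (PT.const _) (PT.sumElim (PT.const _) (PT.sumElim (PT.const _) PT.id))))))))

theorem pt_init (B : ℕ) : PT (init B) := by
  have ht : PT (fun d : List Bool => d.tail) := PT.tail PT.id
  have h3 : PT (fun d : List Bool => dv3 d.tail) := pt_dv3.comp ht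
  have h4 : PT (fun d : List Bool => 2 * (dv3 d.tail).1) := PT.mulConst (PT.fst' h3) 2
  exact PT.ite (PT.eq (PT.head? PT.id) (PT.const (some true)))
    (PT.ite (PT.eq (PT.and (PT.eq (PT.snd' h3) (PT.const 0)) (PT.not (PT.eq ht (PT.const []))))
      (PT.const true))
      (pt_cDbl (((PT.const B).pair ((mpt_take h4 ht).pair (PT.drop h4 ht))).pair
        (PT.const ([], 0)))) (PT.const (cFin [])))
    (pt_cLoad ((PT.const (Sum.inl B)).pair (PT.reverse ht)))

end Pool.Agent.Lib.MP_33f9c4_lc.Ef
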