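import Pool.Agent.Lib.MP_33f9c4_lc.QDefs2
import Pool.Agent.Lib.MP_33f9c4_lc.Parse
import Pool.Agent.Lib.MP_33f9c4_lc.Pt2
import Pool.Agent.Lib.MP_33f9c4_lc.Init2

/-!
# Reading the two numbers
-/

namespace Pool.Agent.Lib.MP_33f9c4_lc.Qt

open Pool.Agent.Lib.PolyTime Function

/-- Half of the length. -/
def hv (w : List Bool) : ℕ × ℕ :=
  w.foldl (fun st _ => if st.2 = 1 then (st.1 + 1, 0) else (st.1, st.2 + 1)) (0, 0)

theorem hv_aux (w : List Bool) : ∀ q r : ℕ, r < 2 →
    (w.foldl (fun st _ => if st.2 = 1 then (st.1 + 1, 0) else (st.1, st.2 + 1)) ((q, r) : ℕ × ℕ)).1 =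
      q + (r + w.length) / 2 := by
  induction w with
  | nil =>
    intro q r hr
    simp only [List.foldl_nil, List.length_nil, Nat.add_zero]
    omega
  | cons b w ih =>
    intro q r hr
    rw [List.foldl_cons, List.length_cons]
    by_cases h : r = 1
    · rw [if_pos h, ih _ _ (by omega)]
      omega
    · rw [if_neg h, ih _ _ (by omega)]
      simp only
      omega

theorem hv_eq (w : List Bool) : (hv w).1 = w.length / 2 := by
  rw [hv, hv_aux _ _ _ (by omega)]
  simp

theorem pt_hv : PT hv := by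
  unfold hv
  refine PT.foldl_add (f := fun w : List Bool => w) (init := fun _ => ((0, 0) : ℕ × ℕ))
    (step := fun _ (st : ℕ × ℕ) (_ : Bool) => if st.2 = 1 then (st.1 + 1, 0)
      else (st.1, st.2 + 1)) PT.id (PT.const _) ?_ (C := fun _ => 6) (PB.const 6) ?_
  · have hst : PT (fun y : List Bool × ((ℕ × ℕ) × Bool) => y.2.1) := PT.fst' PT.snd
    exact PT.ite (PT.eq (PT.snd' hst) (PT.const 1))
      ((PT.addConst (PT.fst' hst) 1).pair (PT.const 0))
      ((PT.fst' hst).pair (PT.addConst (PT.snd' hst) 1))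
  · intro a s b _
    have e : size s = size s.1 + size s.2 + 1 := size_prod s
    rw [size_nat, size_nat] at e
    split_ifs
    · rw [size_prod, size_nat, size_nat]
      omega
    · rw [size_prod, size_nat, size_nat]
      omega

theorem pt_half {α : Type} [Enc α] {f : α → List Bool} (hf : PT f) :
    PT (fun a => (f a).length / 2) :=
  (PT.fst' (pt_hv.comp hf)).congr fun a => hv_eq (f a)

theorem size_nxt_iter (l : List Bool) (i : ℕ) : size (nxt^[i] l) ≤ size l + 4 * i := by
  induction i with
  | zero => simp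
  | succ i ih =>
    rw [iterate_succ_apply']
    have := Ef.size_nxt (nxt^[i] l)
    omega

theorem pt_nxt_iter {α : Type} [Enc α] {f : α → ℕ} {g : α → List Bool} (hf : PT f) (hg : PT g) :
    PT (fun a => nxt^[f a] (g a)) := by
  obtain ⟨p, hp⟩ := hf.size_le
  obtain ⟨q, hq⟩ := hg.size_le
  refine PT.iterate (step := fun _ l => nxt l) hf hg (pt_nxt.comp PT.snd)
    (B := fun n => q.eval n + 4 * p.eval n) ((PB.poly q).add ((PB.const 4).mul (PB.poly p))) ?_
  intro a i hi
  have h1 := size_nxt_iter (g a) i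
  have h2 := hp a
  rw [size_nat] at h2
  have h3 := hq a
  change size (nxt^[i] (g a)) ≤ q.eval (size a) + 4 * p.eval (size a)
  omega

theorem pt_rank {α : Type} [Enc α] {n : α → ℕ} {u : α → List Bool} (hn : PT n) (hu : PT u) :
    PT (fun a => rank (n a) (u a)) := by
  have h1 : PT (fun x : α × ℕ => decide (nxt^[x.2] ((u x.1).map (fun _ => false)) = u x.1)) :=
    PT.eq (pt_nxt_iter PT.snd (PT.map (hu.comp PT.fst) (PT.const false))) (hu.comp PT.fst)
  have h2 := PT.getD (PT.filter (f := fun a => List.range (n a + 1))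
    (p := fun a j => decide (nxt^[j] ((u a).map (fun _ => false)) = u a))
    (PT.range (PT.addConst hn 1)) h1) 0 0
  refine h2.congr fun a => ?_
  simp only [rank, List.map_const']

theorem pt_idx : PT idx := by
  have hx : PT (fun x : List Bool => x) := PT.id
  have hl : PT (fun x : List Bool => x.length) := PT.length hx
  have hd : PT (fun x : List Bool => x.length - 2 * lg x.length) :=
    PT.sub hl (PT.mulConst (pt_lg.comp hl) 2)
  have hr : PT (fun x : List Bool => (parse (x.drop (x.length - 2 * lg x.length)).tail).2) :=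
    PT.snd' (pt_parse.comp (PT.tail (PT.drop hd hx)))
  have hh := pt_half hr
  exact (pt_rank hl (mpt_take hh hr)).pair (pt_rank hl (mpt_take hh (PT.drop hh hr)))

theorem rank_eq {n h N : ℕ} (hN : N ≤ n) (hN' : N < 2 ^ h) :
    rank n (nxt^[N] (List.replicate h false)) = N := by
  have hlen : (nxt^[N] (List.replicate h false)).length = h := Ef.length_nxt_iter hN'
  obtain ⟨l, hl⟩ : ∃ l, l = (List.range (n + 1)).filter
    (fun j => decide (nxt^[j] (List.replicate (nxt^[N] (List.replicate h false)).length false) =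
      nxt^[N] (List.replicate h false))) := ⟨_, rfl⟩
  have hmem : N ∈ l := by
    rw [hl, List.mem_filter, List.mem_range]
    refine ⟨by omega, ?_⟩
    rw [hlen]
    simp
  have hall : ∀ j ∈ l, j = N := by
    intro j hj
    rw [hl, List.mem_filter, hlen] at hj
    exact Ef.nxt_iter_inj (by simpa using hj.2)
  rw [rank, ← hl]
  rcases l with _ | ⟨b, l⟩
  · simp at hmem
  · exact hall b (by simp)

theorem idx_qB (T : Tbl) (Yn : List Bool) (n N i : ℕ) (hY : Yn.length = n - 2 * lg n)
    (hn : 20 ≤ n) (hT : (tblCode T).length + 1 ≤ 2 * lg n)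
    (hN : N < 2 ^ ((2 * lg n - 1 - (tblCode T).length) / 2)) (hN' : N ≤ n)
    (hi : i < 2 ^ ((2 * lg n - 1 - (tblCode T).length) / 2)) (hi' : i ≤ n) :
    (qB (tblCode T) Yn n N i).length = n ∧ idx (qB (tblCode T) Yn n N i) = (N, i) := by
  obtain ⟨l, hl⟩ : ∃ l, l = 2 * lg n - 1 - (tblCode T).length := ⟨_, rfl⟩
  obtain ⟨h, hh⟩ : ∃ h, h = l / 2 := ⟨_, rfl⟩
  have h2 : 2 * lg n ≤ n := by
    have h3 := lg_le n
    have h4 : ∀ l, 4 ≤ l → 2 * l + 1 < 2 ^ l := by
      intro l hl
      induction l, hl using Nat.le_induction with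
      | base => norm_num
      | succ l hl ih => rw [pow_succ]; omega
    by_contra hcon
    rcases lt_or_ge (lg n) 4 with h5 | h5
    · omega
    · have := h4 _ h5
      omega
  obtain ⟨r1, hr1⟩ : ∃ r1, r1 = nxt^[N] (List.replicate h false) := ⟨_, rfl⟩
  obtain ⟨r2, hr2⟩ : ∃ r2, r2 = nxt^[i] (List.replicate h false) := ⟨_, rfl⟩
  have hl1 : r1.length = h := by
    rw [hr1]; exact Ef.length_nxt_iter (by rw [hh, hl]; exact hN)
  have hl2 : r2.length = h := by
    rw [hr2]; exact Ef.length_nxt_iter (by rw [hh, hl]; exact hi)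
  have hq : qB (tblCode T) Yn n N i = Yn ++ (true :: (tblCode T ++ (r1 ++ (r2 ++
      List.replicate (l - 2 * h) false)))) := by
    rw [qB, hr1, hr2, hh, hl]
  have hrl : (r1 ++ (r2 ++ List.replicate (l - 2 * h) false)).length = l := by
    rw [List.length_append, List.length_append, List.length_replicate, hl1, hl2]
    omega
  have hlen : (qB (tblCode T) Yn n N i).length = n := by
    rw [hq, List.length_append, List.length_cons, List.length_append, hrl, hY]
    omega
  refine ⟨hlen, ?_⟩
  have hrest : (parse ((qB (tblCode T) Yn n N i).drop (n - 2 * lg n)).tail).2 =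
      r1 ++ (r2 ++ List.replicate (l - 2 * h) false) := by
    rw [hq, ← hY, List.drop_left, List.tail_cons, parse_code]
  unfold idx
  rw [hlen, hrest, hrl, ← hh]
  have t1 : (r1 ++ (r2 ++ List.replicate (l - 2 * h) false)).take h = r1 := by
    rw [← hl1, List.take_left]
  have t2 : ((r1 ++ (r2 ++ List.replicate (l - 2 * h) false)).drop h).take h = r2 := by
    rw [← hl1, List.drop_left, hl1, ← hl2, List.take_left]
  rw [t1, t2, hr1, hr2, rank_eq hN' (by rw [hh, hl]; exact hN),
    rank_eq hi' (by rw [hh, hl]; exact hi)]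

end Pool.Agent.Lib.MP_33f9c4_lc.Qt
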