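import Mathlib.Data.List.Basic
import Mathlib.Logic.Function.Iterate
import Pool.Agent.Lib.MP_33f9c4_lc.Defs

/-!
# Table machines, codes of tables, numerals: definitions
-/

namespace Pool.Agent.Lib.MP_33f9c4_lc

/-! ### Table machines -/

/-- Tables: each row is an instruction. -/
abbrev Tbl : Type := List (List ℕ)

/-- Configurations of table machines: table, state, stacks. -/
abbrev Cfg : Type := Tbl × (ℕ × List (List ℕ))

/-- Field `i` of the current row. -/
def fld (c : Cfg) (i : ℕ) : ℕ := (c.1.getD c.2.1 []).getD i 3

/-- The stack the current instruction acts on. -/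
def stk (c : Cfg) : List ℕ := c.2.2.getD (fld c 1) []

/-- The field in which the next state is found, depending on the top of the stack. -/
def hdi : List ℕ → ℕ
  | [] => 2
  | g :: _ => g + 3

/-- One step of a table machine. Instructions: `[0, k, g, q]`: push the symbol `g` on stack `k`, go
to `q`; `[1, k, q, q₀, q₁, …]`: pop stack `k`, go to `q` if it is empty and to `q_g` if the popped
symbol is `g`; `[2, k, q, q₀, q₁, …]`: the same without popping; `[3, k, o₀, o₁, …]`: halt. -/
def mstep (c : Cfg) : Cfg :=
  if fld c 0 = 0 then (c.1, (fld c 3, c.2.2.set (fld c 1) (fld c 2 :: stk c)))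
  else if fld c 0 = 1 then (c.1, (fld c (hdi (stk c)), c.2.2.set (fld c 1) (stk c).tail))
  else if fld c 0 = 2 then (c.1, (fld c (hdi (stk c)), c.2.2))
  else c

/-- The configuration is final. -/
def mfin (c : Cfg) : Bool := decide (3 ≤ fld c 0)

/-- The output of a final configuration with current instruction `[3, k, o₀, o₁, …]`: the content
of stack `k`, the symbol `g` being read as the bit `o_g = 1`. -/
def mout (c : Cfg) : List Bool := (stk c).map fun g => decide (fld c (g + 2) = 1)

/-- The initial configuration: state `0`, input on stack `0`. -/
def minit (T : Tbl) (d : List Bool) : Cfg :=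
  (T, (0, d.map (fun b => if b then 1 else 0) :: List.replicate T.length []))

/-! ### Codes of tables -/

/-- States of the parser: pending bit, finished?, current number, current row (reversed), rows
(reversed), rest (reversed). -/
abbrev PSt : Type := Option Bool × (Bool × (ℕ × (List ℕ × (List (List ℕ) × List Bool))))

/-- One step of the parser. Pairs of bits: `11` increment the number, `10` end of a number, `00` end
of a row, `01` end of the table. -/
def pstep (s : PSt) (b : Bool) : PSt :=
  if s.2.1 then (s.1, (s.2.1, (s.2.2.1, (s.2.2.2.1, (s.2.2.2.2.1, b :: s.2.2.2.2.2)))))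
  else match s.1 with
    | none => (some b, s.2)
    | some a =>
      if a then
        if b then (none, (false, (s.2.2.1 + 1, s.2.2.2)))
        else (none, (false, (0, (s.2.2.1 :: s.2.2.2.1, s.2.2.2.2))))
      else
        if b then (none, (true, s.2.2))
        else (none, (false, (0, ([], (s.2.2.2.1.reverse :: s.2.2.2.2.1, s.2.2.2.2.2)))))

/-- The initial state of the parser. -/
def pinit : PSt := (none, (false, (0, ([], ([], [])))))

/-- The parser: reads a table, returns it with the rest of the input. -/
def parse (e : List Bool) : Tbl × List Bool :=
  ((e.foldl pstep pinit).2.2.2.2.1.reverse, (e.foldl pstep pinit).2.2.2.2.2.reverse)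

/-- The code of a table. -/
def tblCode (T : Tbl) : List Bool :=
  T.flatMap (fun r => r.flatMap (fun n => List.replicate (2 * n) true ++ [true, false]) ++
    [false, false]) ++ [false, true]

/-! ### Numerals -/

/-- The next numeral (least significant digit first, `false = 1`, `true = 2`); at the same time the
next string in the enumeration of all strings by length. -/
def nxt : List Bool → List Bool
  | [] => [false]
  | false :: l => true :: l
  | true :: l => false :: nxt l

/-- The value of a numeral. -/
def nval : List Bool → ℕ
  | [] => 0
  | b :: l => 2 * nval l + (if b then 2 else 1)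

/-- The comparison state: `0` equal, `1` less, `2` greater. -/
def cmpStep (s : List Bool × ℕ) (a : Bool) : List Bool × ℕ :=
  match s.1 with
  | [] => ([], 3)
  | b :: l => (l, if s.2 = 3 then 3 else if a = b then s.2 else if b then 1 else 2)

/-- Comparison of numerals. -/
def nlt (a b : List Bool) : Bool :=
  let s := a.foldl cmpStep (b, 0)
  if s.2 = 3 then false else if s.1 = [] then decide (s.2 = 1) else true

/-- The length of the `s`-th numeral. -/
def lg (s : ℕ) : ℕ := (nxt^[s] []).length

end Pool.Agent.Lib.MP_33f9c4_lc
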