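import Mathlib
import Pool.Agent.Lib.MP_33f9c4_lc.Micro

/-!
# Every machine is simulated by a table machine
-/

namespace Pool.Agent.Lib.MP_33f9c4_lc

namespace UV

open Turing TM2.Stmt

section general

variable {K : Type} [DecidableEq K] {Γ : K → Type} {Λ σ : Type}
variable (m : Λ → TM2.Stmt Γ Λ σ) (ix : K → ℕ) (code : ∀ k, Γ k → ℕ)
  (dec : ∀ k, ℕ → Option (Γ k)) (s : ℕ) (idx : TM2.Stmt Γ Λ σ → σ → ℕ) (k₁ : K) (o : Γ k₁ → Bool)

/-- the row of the table for the statement `q` in the internal state `v` -/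
def row : TM2.Stmt Γ Λ σ → σ → List ℕ
  | push k f q, v => [0, ix k, code k (f v), idx q v]
  | peek k f q, v => 2 :: ix k :: idx q (f v none) ::
      (List.range s).map fun n => idx q (f v (dec k n))
  | pop k f q, v => 1 :: ix k :: idx q (f v none) ::
      (List.range s).map fun n => idx q (f v (dec k n))
  | load a q, v => 2 :: ix k₁ :: idx q (a v) :: (List.range s).map fun _ => idx q (a v)
  | branch f q₁ q₂, v => 2 :: ix k₁ :: idx (if f v then q₁ else q₂) v ::
      (List.range s).map fun _ => idx (if f v then q₁ else q₂) v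
  | goto f, v => 2 :: ix k₁ :: idx (m (f v)) v :: (List.range s).map fun _ => idx (m (f v)) v
  | halt, _ => 3 :: ix k₁ :: (List.range s).map fun n => if (dec k₁ n).any o then 1 else 0

/-- the correspondence of configurations -/
structure R (T : Tbl) (n₀ : ℕ) (V : ∀ k, Set (Γ k)) (q : TM2.Stmt Γ Λ σ) (v : σ)
    (S : ∀ k, List (Γ k)) (c : Cfg) : Prop where
  tbl : c.1 = T
  st : c.2.1 = idx q v
  len : n₀ ≤ c.2.2.length
  stk : ∀ k, c.2.2.getD (ix k) [] = (S k).map (code k)
  val : ∀ k, ∀ g ∈ S k, g ∈ V k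

/-- length of a statement -/
def depth : TM2.Stmt Γ Λ σ → ℕ
  | push _ _ q => depth q + 1
  | peek _ _ q => depth q + 1
  | pop _ _ q => depth q + 1
  | load _ q => depth q + 1
  | branch _ q₁ q₂ => max (depth q₁) (depth q₂) + 1
  | goto _ => 1
  | halt => 0

/-- the hypotheses on the coding -/
structure Good (T : Tbl) (n₀ : ℕ) (V : ∀ k, Set (Γ k)) (Q : Set (TM2.Stmt Γ Λ σ)) : Prop where
  tab : ∀ q ∈ Q, ∀ v, T.getD (idx q v) [] = row m ix code dec s idx k₁ o q v
  code_lt : ∀ k, ∀ g ∈ V k, code k g < s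
  dec_code : ∀ k, ∀ g ∈ V k, dec k (code k g) = some g
  ix_inj : Function.Injective ix
  ix_lt : ∀ k, ix k < n₀
  push_mem : ∀ k f q, push k f q ∈ Q → q ∈ Q ∧ ∀ v, f v ∈ V k
  peek_mem : ∀ k f q, peek k f q ∈ Q → q ∈ Q
  pop_mem : ∀ k f q, pop k f q ∈ Q → q ∈ Q
  load_mem : ∀ a q, load a q ∈ Q → q ∈ Q
  branch_mem : ∀ f q₁ q₂, branch f q₁ q₂ ∈ Q → q₁ ∈ Q ∧ q₂ ∈ Q
  m_mem : ∀ l, m l ∈ Q

variable {m ix code dec s idx k₁ o} {T : Tbl} {n₀ : ℕ} {V : ∀ k, Set (Γ k)}
  {Q : Set (TM2.Stmt Γ Λ σ)}

lemma getD_set (l : List (List ℕ)) (i j : ℕ) (a : List ℕ) (hi : i < l.length) :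
    (l.set i a).getD j [] = if j = i then a else l.getD j [] := by
  rw [List.getD_eq_getElem?_getD, List.getElem?_set]
  by_cases h : i = j
  · subst h
    simp [hi]
  · rw [if_neg h, if_neg (Ne.symm h), List.getD_eq_getElem?_getD]

lemma getD_map (F : ℕ → ℕ) {a b c n s : ℕ} (hn : n < s) :
    (a :: b :: c :: (List.range s).map F).getD (n + 3) 3 = F n := by
  rw [List.getD_cons_succ, List.getD_cons_succ, List.getD_cons_succ, List.getD_eq_getElem?_getD]
  simp [hn]

lemma getD_map2 (F : ℕ → ℕ) {a b n s : ℕ} (hn : n < s) :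
    (a :: b :: (List.range s).map F).getD (n + 2) 3 = F n := by
  rw [List.getD_cons_succ, List.getD_cons_succ, List.getD_eq_getElem?_getD]
  simp [hn]

lemma fld_eq (hG : Good m ix code dec s idx k₁ o T n₀ V Q) {q : TM2.Stmt Γ Λ σ} {v : σ}
    {S : ∀ k, List (Γ k)} {c : Cfg} (h : R ix code idx T n₀ V q v S c) (hq : q ∈ Q) (i : ℕ) :
    fld c i = (row m ix code dec s idx k₁ o q v).getD i 3 := by
  rw [fld, h.tbl, h.st, hG.tab q hq]

/-- reading the top of a stack -/
lemma read (hG : Good m ix code dec s idx k₁ o T n₀ V Q) {q : TM2.Stmt Γ Λ σ} {v : σ}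
    {S : ∀ k, List (Γ k)} {c : Cfg} (h : R ix code idx T n₀ V q v S c) (hq : q ∈ Q) {k : K}
    {b : ℕ} {F : Option (Γ k) → ℕ}
    (hrow : row m ix code dec s idx k₁ o q v =
      b :: ix k :: F none :: (List.range s).map fun n => F (dec k n)) :
    fld c (hdi (stk c)) = F (S k).head? := by
  have h1 : fld c 1 = ix k := by
    rw [fld_eq hG h hq, hrow]
    rfl
  have h2 : MP_33f9c4_lc.stk c = (S k).map (code k) := by
    rw [MP_33f9c4_lc.stk, h1, h.stk]
  rw [h2, fld_eq hG h hq, hrow]
  rcases hS : S k with _ | ⟨g, l⟩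
  · simp [hdi]
  · have hg : g ∈ V k := h.val k g (by rw [hS]; exact List.mem_cons_self)
    simp only [List.map_cons, hdi, List.head?_cons]
    rw [getD_map _ (hG.code_lt k g hg), hG.dec_code k g hg]

/-- one step of the table machine -/
lemma mstep2 {c : Cfg} (h0 : fld c 0 = 2) : mstep c = (c.1, (fld c (hdi (stk c)), c.2.2)) := by
  rw [mstep, h0, if_neg (by norm_num), if_neg (by norm_num), if_pos rfl]

lemma mstep1 {c : Cfg} (h0 : fld c 0 = 1) :
    mstep c = (c.1, (fld c (hdi (stk c)), c.2.2.set (fld c 1) (stk c).tail)) := by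
  rw [mstep, h0, if_neg (by norm_num), if_pos rfl]

lemma mstep0 {c : Cfg} (h0 : fld c 0 = 0) :
    mstep c = (c.1, (fld c 3, c.2.2.set (fld c 1) (fld c 2 :: stk c))) := by
  rw [mstep, h0, if_pos rfl]

/-- steps which only change the state -/
lemma silent (hG : Good m ix code dec s idx k₁ o T n₀ V Q) {q q' : TM2.Stmt Γ Λ σ} {v v' : σ}
    {S : ∀ k, List (Γ k)} {c : Cfg} (h : R ix code idx T n₀ V q v S c) (hq : q ∈ Q) {k : K}
    {F : Option (Γ k) → ℕ}
    (hrow : row m ix code dec s idx k₁ o q v =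
      2 :: ix k :: F none :: (List.range s).map fun n => F (dec k n))
    (hF : F (S k).head? = idx q' v') : R ix code idx T n₀ V q' v' S (mstep c) := by
  have h0 : fld c 0 = 2 := by
    rw [fld_eq hG h hq, hrow]
    rfl
  rw [mstep2 h0]
  exact ⟨h.tbl, (read hG h hq hrow).trans hF, h.len, h.stk, h.val⟩

lemma sim_aux (hG : Good m ix code dec s idx k₁ o T n₀ V Q) (q : TM2.Stmt Γ Λ σ) :
    ∀ (v : σ) (S : ∀ k, List (Γ k)) (c : Cfg), R ix code idx T n₀ V q v S c → q ∈ Q →
      (∀ l v' S', TM2.stepAux q v S = ⟨some l, v', S'⟩ →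
        ∃ n ≤ depth q, R ix code idx T n₀ V (m l) v' S' (mstep^[n] c)) ∧
      (∀ v' S', TM2.stepAux q v S = ⟨none, v', S'⟩ →
        ∃ n ≤ depth q, halt ∈ Q ∧ R ix code idx T n₀ V halt v' S' (mstep^[n] c)) := by
  have lift : ∀ {q q' : TM2.Stmt Γ Λ σ} {v v' : σ} {S S' : ∀ k, List (Γ k)} {c : Cfg},
      depth q' + 1 ≤ depth q → TM2.stepAux q v S = TM2.stepAux q' v' S' →
      ((∀ l v'' S'', TM2.stepAux q' v' S' = ⟨some l, v'', S''⟩ →
        ∃ n ≤ depth q', R ix code idx T n₀ V (m l) v'' S'' (mstep^[n] (mstep c))) ∧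
      (∀ v'' S'', TM2.stepAux q' v' S' = ⟨none, v'', S''⟩ →
        ∃ n ≤ depth q', halt ∈ Q ∧ R ix code idx T n₀ V halt v'' S'' (mstep^[n] (mstep c)))) →
      ((∀ l v'' S'', TM2.stepAux q v S = ⟨some l, v'', S''⟩ →
        ∃ n ≤ depth q, R ix code idx T n₀ V (m l) v'' S'' (mstep^[n] c)) ∧
      (∀ v'' S'', TM2.stepAux q v S = ⟨none, v'', S''⟩ →
        ∃ n ≤ depth q, halt ∈ Q ∧ R ix code idx T n₀ V halt v'' S'' (mstep^[n] c))) := by
    intro q q' v v' S S' c hd he h
    rw [he]
    refine ⟨fun l v'' S'' h1 => ?_, fun v'' S'' h1 => ?_⟩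
    · obtain ⟨n, hn, h2⟩ := h.1 l v'' S'' h1
      exact ⟨n + 1, by omega, by rwa [Function.iterate_succ_apply]⟩
    · obtain ⟨n, hn, h2⟩ := h.2 v'' S'' h1
      exact ⟨n + 1, by omega, by rwa [Function.iterate_succ_apply]⟩
  induction q with
  | push k f q ih =>
    intro v S c h hq
    refine lift (q' := q) (v' := v) (S' := Function.update S k (f v :: S k)) (le_refl _) rfl
      (ih _ _ _ ?_ (hG.push_mem k f q hq).1)
    have h0 : fld c 0 = 0 := by rw [fld_eq hG h hq]; rfl
    have h1 : fld c 1 = ix k := by rw [fld_eq hG h hq]; rfl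
    have h2 : fld c 2 = code k (f v) := by rw [fld_eq hG h hq]; rfl
    have h3 : fld c 3 = idx q v := by rw [fld_eq hG h hq]; rfl
    rw [mstep0 h0]
    refine ⟨h.tbl, h3, ?_, fun k' => ?_, fun k' g hg => ?_⟩
    · rw [List.length_set]
      exact h.len
    · change (c.2.2.set (fld c 1) (fld c 2 :: MP_33f9c4_lc.stk c)).getD (ix k') [] = _
      rw [h1, h2, getD_set _ _ _ _ ((hG.ix_lt k).trans_le h.len), MP_33f9c4_lc.stk, h1, h.stk]
      by_cases hk : k' = k
      · subst hk
        simp
      · rw [if_neg (fun h => hk (hG.ix_inj h)), Function.update_of_ne hk, h.stk]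
    · by_cases hk : k' = k
      · subst hk
        rw [Function.update_self, List.mem_cons] at hg
        rcases hg with rfl | hg
        · exact (hG.push_mem _ f q hq).2 v
        · exact h.val _ g hg
      · rw [Function.update_of_ne hk] at hg
        exact h.val k' g hg
  | peek k f q ih =>
    intro v S c h hq
    refine lift (q' := q) (v' := f v (S k).head?) (S' := S) (le_refl _) rfl
      (ih _ _ _ ?_ (hG.peek_mem k f q hq))
    exact silent hG h hq (k := k) (F := fun x => idx q (f v x)) rfl rfl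
  | pop k f q ih =>
    intro v S c h hq
    refine lift (q' := q) (v' := f v (S k).head?) (S' := Function.update S k (S k).tail)
      (le_refl _) rfl (ih _ _ _ ?_ (hG.pop_mem k f q hq))
    have h0 : fld c 0 = 1 := by rw [fld_eq hG h hq]; rfl
    have h1 : fld c 1 = ix k := by rw [fld_eq hG h hq]; rfl
    rw [mstep1 h0]
    refine ⟨h.tbl, read hG h hq (k := k) (F := fun x => idx q (f v x)) rfl, ?_, fun k' => ?_,
      fun k' g hg => ?_⟩
    · rw [List.length_set]
      exact h.len
    · change (c.2.2.set (fld c 1) (MP_33f9c4_lc.stk c).tail).getD (ix k') [] = _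
      rw [h1, getD_set _ _ _ _ ((hG.ix_lt k).trans_le h.len), MP_33f9c4_lc.stk, h1, h.stk]
      by_cases hk : k' = k
      · subst hk
        simp
      · rw [if_neg (fun h => hk (hG.ix_inj h)), Function.update_of_ne hk, h.stk]
    · by_cases hk : k' = k
      · subst hk
        rw [Function.update_self] at hg
        exact h.val _ g (List.mem_of_mem_tail hg)
      · rw [Function.update_of_ne hk] at hg
        exact h.val k' g hg
  | load a q ih =>
    intro v S c h hq
    refine lift (q' := q) (v' := a v) (S' := S) (le_refl _) rfl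
      (ih _ _ _ ?_ (hG.load_mem a q hq))
    exact silent hG h hq (k := k₁) (F := fun _ => idx q (a v)) rfl rfl
  | branch f q₁ q₂ ih₁ ih₂ =>
    intro v S c h hq
    rcases hf : f v with _ | _
    · refine lift (q' := q₂) (v' := v) (S' := S) (by simp [depth]) (by simp [hf])
        (ih₂ _ _ _ ?_ (hG.branch_mem f q₁ q₂ hq).2)
      exact silent hG h hq (k := k₁) (F := fun _ => idx (if f v then q₁ else q₂) v) rfl
        (by simp [hf])
    · refine lift (q' := q₁) (v' := v) (S' := S) (by simp [depth]) (by simp [hf])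
        (ih₁ _ _ _ ?_ (hG.branch_mem f q₁ q₂ hq).1)
      exact silent hG h hq (k := k₁) (F := fun _ => idx (if f v then q₁ else q₂) v) rfl
        (by simp [hf])
  | goto f =>
    intro v S c h hq
    refine ⟨fun l v' S' h1 => ?_, fun v' S' h1 => ?_⟩
    · rw [TM2.stepAux] at h1
      injection h1 with h2 h3 h4
      injection h2 with h2
      subst h2 h3 h4
      exact ⟨1, le_refl _, silent hG h hq (k := k₁) (F := fun _ => idx (m (f v)) v) rfl rfl⟩
    · rw [TM2.stepAux] at h1
      injection h1 with h2 h3 h4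
      exact absurd h2 (by simp)
  | halt =>
    intro v S c h hq
    refine ⟨fun l v' S' h1 => ?_, fun v' S' h1 => ?_⟩
    · rw [TM2.stepAux] at h1
      injection h1 with h2 h3 h4
      exact absurd h2 (by simp)
    · rw [TM2.stepAux] at h1
      injection h1 with h2 h3 h4
      subst h3 h4
      exact ⟨0, le_refl _, hq, h⟩

lemma sim_main (hG : Good m ix code dec s idx k₁ o T n₀ V Q) {B : ℕ}
    (hB : ∀ l, depth (m l) ≤ B) : ∀ (n : ℕ) (l : Λ) (v : σ) (S : ∀ k, List (Γ k)) (c : Cfg),
      R ix code idx T n₀ V (m l) v S c → ∀ v' S',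
      (flip bind (TM2.step m))^[n] (some ⟨some l, v, S⟩) =
        (some ⟨none, v', S'⟩ : Option (TM2.Cfg Γ Λ σ)) →
      ∃ j ≤ B * n, halt ∈ Q ∧ R ix code idx T n₀ V halt v' S' (mstep^[j] c) := by
  intro n
  induction n with
  | zero =>
    intro l v S c _ v' S' h
    simp at h
  | succ n ih =>
    intro l v S c h v' S' h1
    rw [Function.iterate_succ_apply] at h1
    have h2 : flip bind (TM2.step m) (some ⟨some l, v, S⟩) =
        some (TM2.stepAux (m l) v S) := rfl
    rw [h2] at h1
    rcases hst : TM2.stepAux (m l) v S with ⟨l', v₁, S₁⟩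
    rw [hst] at h1
    rcases l' with _ | l'
    · obtain ⟨j, hj, h3⟩ := (sim_aux hG (m l) v S c h (hG.m_mem l)).2 v₁ S₁ hst
      have h4 : n = 0 := by
        by_contra hn
        obtain ⟨n', rfl⟩ := Nat.exists_eq_succ_of_ne_zero hn
        rw [Function.iterate_succ_apply] at h1
        have h5 : flip bind (TM2.step m) (some ⟨none, v₁, S₁⟩) = none := rfl
        rw [h5] at h1
        have h6 : ∀ i, (flip bind (TM2.step m))^[i] (none : Option (TM2.Cfg Γ Λ σ)) = none := by
          intro i
          induction i with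
          | zero => rfl
          | succ i ih' => rw [Function.iterate_succ_apply]; exact ih'
        rw [h6] at h1
        exact absurd h1 (by simp)
      subst h4
      rw [Function.iterate_zero_apply] at h1
      injection h1 with h1
      injection h1 with _ h6 h7
      subst h6 h7
      exact ⟨j, hj.trans (by simpa using hB l), h3⟩
    · obtain ⟨j, hj, h3⟩ := (sim_aux hG (m l) v S c h (hG.m_mem l)).1 l' v₁ S₁ hst
      obtain ⟨j', hj', h4, h5⟩ := ih l' v₁ S₁ _ h3 v' S' h1
      refine ⟨j' + j, ?_, h4, ?_⟩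
      · have := hB l
        rw [Nat.mul_succ]
        omega
      · rwa [Function.iterate_add_apply]

/-- the output -/
lemma out (hG : Good m ix code dec s idx k₁ o T n₀ V Q) {v : σ} {S : ∀ k, List (Γ k)} {c : Cfg}
    (h : R ix code idx T n₀ V halt v S c) (hq : halt ∈ Q) :
    mfin c = true ∧ mout c = (S k₁).map o := by
  have h0 : fld c 0 = 3 := by rw [fld_eq hG h hq]; rfl
  have h1 : fld c 1 = ix k₁ := by rw [fld_eq hG h hq]; rfl
  refine ⟨by rw [mfin, h0]; rfl, ?_⟩
  rw [mout, MP_33f9c4_lc.stk, h1, h.stk, List.map_map]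
  refine List.map_congr_left fun g hg => ?_
  have hg' := h.val k₁ g hg
  simp only [Function.comp]
  rw [fld_eq hG h hq]
  have h2 : row m ix code dec s idx k₁ o halt v = 3 :: ix k₁ :: (List.range s).map fun n =>
      if (dec k₁ n).any o then 1 else 0 := rfl
  rw [h2, getD_map2 _ (hG.code_lt k₁ g hg'), hG.dec_code k₁ g hg']
  rcases ho : o g with _ | _ <;> simp [ho]

end general

/-- finite sets can be coded -/
lemma exists_code {G : Type} (V : Set G) (hV : V.Finite) :
    ∃ (s : ℕ) (code : G → ℕ) (dec : ℕ → Option G),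
      ∀ g ∈ V, code g < s ∧ dec (code g) = some g := by
  classical
  have h : ∀ g : G, ∃ n : ℕ, g ∈ V → hV.toFinset.toList[n]? = some g := by
    intro g
    by_cases hg : g ∈ V
    · have h1 : g ∈ hV.toFinset.toList := by simpa using hg
      obtain ⟨n, hn⟩ := List.mem_iff_getElem?.mp h1
      exact ⟨n, fun _ => hn⟩
    · exact ⟨0, fun h => absurd h hg⟩
  choose code hcode using h
  refine ⟨hV.toFinset.toList.length, code, fun n => hV.toFinset.toList[n]?, fun g hg => ?_⟩
  refine ⟨?_, hcode g hg⟩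
  have h1 := hcode g hg
  by_contra h2
  rw [List.getElem?_eq_none (by omega)] at h1
  exact absurd h1 (by simp)

/-- once final, the configuration does not change -/
lemma mstep_of_mfin {c : Cfg} (h : mfin c = true) : mstep c = c := by
  rw [mfin, decide_eq_true_iff] at h
  rw [mstep, if_neg (by omega), if_neg (by omega), if_neg (by omega)]

/-- the codes of the symbols; on the input stack the codes are the input bits -/
lemma exists_codes (M : Machine) (V : ∀ k, Set (M.tm.Γ k)) (hV : ∀ k, k ≠ M.tm.k₀ → (V k).Finite) :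
    ∃ (s : ℕ) (code : ∀ k, M.tm.Γ k → ℕ) (dec : ∀ k, ℕ → Option (M.tm.Γ k)),
      (∀ k, ∀ g ∈ V k, code k g < s) ∧ (∀ k, ∀ g ∈ V k, dec k (code k g) = some g) ∧
      ∀ g, code M.tm.k₀ g = if M.inputAlphabet g then 1 else 0 := by
  classical
  have h : ∀ k, ∃ (s : ℕ) (code : M.tm.Γ k → ℕ) (dec : ℕ → Option (M.tm.Γ k)),
      (∀ g ∈ V k, code g < s ∧ dec (code g) = some g) ∧
      ∀ (hk : k = M.tm.k₀) (g : M.tm.Γ k), code g = if M.inputAlphabet (hk ▸ g) then 1 else 0 := by
    intro k
    by_cases hk : k = M.tm.k₀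
    · subst hk
      refine ⟨2, fun g => if M.inputAlphabet g then 1 else 0,
        fun n => some (M.inputAlphabet.symm (decide (n = 1))), fun g _ => ⟨?_, ?_⟩,
        fun _ g => rfl⟩
      · by_cases hb : M.inputAlphabet g = true <;> simp [hb]
      · simp only [Option.some.injEq]
        rw [Equiv.symm_apply_eq]
        by_cases hb : M.inputAlphabet g = true <;> simp [hb]
    · obtain ⟨s, code, dec, h⟩ := exists_code (V k) (hV k hk)
      exact ⟨s, code, dec, h, fun h' => absurd h' hk⟩
  choose s code dec h1 h2 using h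
  have : Fintype M.tm.K := M.tm.kFin
  refine ⟨∑ k, s k, code, dec, fun k g hg => ?_, fun k g hg => (h1 k g hg).2,
    fun g => h2 M.tm.k₀ rfl g⟩
  exact (h1 k g hg).1.trans_le (Finset.single_le_sum (f := s) (fun k _ => Nat.zero_le _)
    (Finset.mem_univ k))

end UV

open Pool.Agent.Lib.MP_33f9c4_lc.UV Turing in
/-- TASK UNIV. Every Turing machine with binary input and output is simulated, with linear step
overhead, by a table machine. -/
theorem exists_table (M : Machine) : ∃ (T : Tbl) (c : ℕ), ∀ (d x : List Bool) (t : ℕ),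
    Outputs M d x t → ∃ s ≤ c * (t + 1), mfin (mstep^[s] (minit T d)) = true ∧
      (∀ i < s, mfin (mstep^[i] (minit T d)) = false) ∧ mout (mstep^[s] (minit T d)) = x := by
  classical
  have : Fintype M.tm.K := M.tm.kFin
  have : Fintype M.tm.Λ := M.tm.ΛFin
  have : Fintype M.tm.σ := M.tm.σFin
  -- the statements
  set Qf : Finset (TM2.Stmt M.tm.Γ M.tm.Λ M.tm.σ) :=
    Finset.univ.biUnion fun l => TM2.stmts₁ (M.tm.m l) with hQf
  have hsub : ∀ q q', q ∈ Qf → q' ∈ TM2.stmts₁ q → q' ∈ Qf := by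
    intro q q' hq hq'
    rw [hQf, Finset.mem_biUnion] at hq ⊢
    obtain ⟨l, hl, hq⟩ := hq
    exact ⟨l, hl, TM2.stmts₁_trans hq hq'⟩
  -- the symbols
  set V : ∀ k, Set (M.tm.Γ k) := fun k =>
    {g | k = M.tm.k₀ ∨ ∃ q ∈ Qf, ∃ v, ∃ f q', q = TM2.Stmt.push k f q' ∧ g = f v} with hVdef
  have hV : ∀ k, k ≠ M.tm.k₀ → (V k).Finite := by
    intro k hk
    have h1 : V k ⊆ ⋃ q ∈ (Qf : Set (TM2.Stmt M.tm.Γ M.tm.Λ M.tm.σ)), ⋃ v ∈ (Set.univ : Set M.tm.σ),
        {g | ∃ f q', q = TM2.Stmt.push k f q' ∧ g = f v} := by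
      rintro g (h | ⟨q, hq, v, f, q', h⟩)
      · exact absurd h hk
      · simp only [Set.mem_iUnion]
        exact ⟨q, hq, v, Set.mem_univ v, f, q', h⟩
    refine Set.Finite.subset (Set.Finite.biUnion Qf.finite_toSet fun q _ =>
      Set.Finite.biUnion Set.finite_univ fun v _ => ?_) h1
    refine Set.Subsingleton.finite ?_
    rintro g ⟨f, q', h2, h3⟩ g' ⟨f', q'', h4, h5⟩
    rw [h2] at h4
    injection h4 with _ h6 h7
    rw [h3, h5, h6]
  obtain ⟨s, code, dec, hc1, hc2, hc3⟩ := exists_codes M V hV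
  -- the stacks
  set ix : M.tm.K → ℕ := fun k => if k = M.tm.k₀ then 0 else (Fintype.equivFin M.tm.K k : ℕ) + 1
    with hix
  have hixinj : Function.Injective ix := by
    intro k k' h
    simp only [hix] at h
    split_ifs at h with h1 h2 h2
    · rw [h1, h2]
    · exact (Fintype.equivFin M.tm.K).injective (Fin.ext (by omega))
  set n₀ : ℕ := Fintype.card M.tm.K + 1 with hn₀
  have hixlt : ∀ k, ix k < n₀ := by
    intro k
    simp only [hix]
    split_ifs
    · omega
    · have := (Fintype.equivFin M.tm.K k).2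
      omega
  -- the states
  set L : List (TM2.Stmt M.tm.Γ M.tm.Λ M.tm.σ × M.tm.σ) :=
    (M.tm.m M.tm.main, M.tm.initialState) :: (Qf ×ˢ Finset.univ).toList with hL
  have hidx : ∃ idx : TM2.Stmt M.tm.Γ M.tm.Λ M.tm.σ → M.tm.σ → ℕ,
      idx (M.tm.m M.tm.main) M.tm.initialState = 0 ∧
      ∀ q ∈ Qf, ∀ v, L[idx q v]? = some (q, v) := by
    have h : ∀ (q : TM2.Stmt M.tm.Γ M.tm.Λ M.tm.σ) (v : M.tm.σ), ∃ n : ℕ,
        ((q = M.tm.m M.tm.main ∧ v = M.tm.initialState) → n = 0) ∧
        (q ∈ Qf → L[n]? = some (q, v)) := by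
      intro q v
      by_cases h1 : q = M.tm.m M.tm.main ∧ v = M.tm.initialState
      · refine ⟨0, fun _ => rfl, fun _ => ?_⟩
        rw [hL, h1.1, h1.2]
        rfl
      · by_cases h2 : q ∈ Qf
        · have h3 : (q, v) ∈ L := by
            rw [hL]
            refine List.mem_cons_of_mem _ ?_
            simp [h2]
          obtain ⟨n, hn⟩ := List.mem_iff_getElem?.mp h3
          exact ⟨n, fun h => absurd h h1, fun _ => hn⟩
        · exact ⟨0, fun h => absurd h h1, fun h => absurd h h2⟩
    choose idx h1 h2 using h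
    exact ⟨idx, h1 _ _ ⟨rfl, rfl⟩, fun q hq v => h2 q v hq⟩
  obtain ⟨idx, hidx0, hidx⟩ := hidx
  set T : Tbl := (L.map fun x => row M.tm.m ix code dec s idx M.tm.k₁ M.outputAlphabet x.1 x.2) ++
    List.replicate n₀ [] with hT
  have hTlen : n₀ ≤ T.length := by
    rw [hT, List.length_append, List.length_replicate]
    omega
  have hG : Good M.tm.m ix code dec s idx M.tm.k₁ M.outputAlphabet T n₀ V (Qf : Set _) := by
    refine ⟨fun q hq v => ?_, hc1, hc2, hixinj, hixlt, ?_, ?_, ?_, ?_, ?_, ?_⟩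
    · have h1 := hidx q hq v
      have h2 : idx q v < L.length := by
        by_contra h3
        rw [List.getElem?_eq_none (by omega)] at h1
        exact absurd h1 (by simp)
      rw [hT, List.getD_eq_getElem?_getD, List.getElem?_append_left (by simpa using h2),
        List.getElem?_map, h1]
      rfl
    · intro k f q hq
      refine ⟨hsub _ q hq ?_, fun v => Or.inr ⟨_, hq, v, f, q, rfl, rfl⟩⟩
      rw [TM2.stmts₁]
      exact Finset.mem_insert_of_mem TM2.stmts₁_self
    · intro k f q hq
      refine hsub _ q hq ?_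
      rw [TM2.stmts₁]
      exact Finset.mem_insert_of_mem TM2.stmts₁_self
    · intro k f q hq
      refine hsub _ q hq ?_
      rw [TM2.stmts₁]
      exact Finset.mem_insert_of_mem TM2.stmts₁_self
    · intro a q hq
      refine hsub _ q hq ?_
      rw [TM2.stmts₁]
      exact Finset.mem_insert_of_mem TM2.stmts₁_self
    · intro f q₁ q₂ hq
      refine ⟨hsub _ q₁ hq ?_, hsub _ q₂ hq ?_⟩
      · rw [TM2.stmts₁]
        exact Finset.mem_insert_of_mem (Finset.mem_union_left _ TM2.stmts₁_self)
      · rw [TM2.stmts₁]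
        exact Finset.mem_insert_of_mem (Finset.mem_union_right _ TM2.stmts₁_self)
    · intro l
      rw [hQf, Finset.mem_coe, Finset.mem_biUnion]
      exact ⟨l, Finset.mem_univ l, TM2.stmts₁_self⟩
  -- the bound for the statements
  set B : ℕ := ∑ l, depth (M.tm.m l) with hB
  have hB' : ∀ l, depth (M.tm.m l) ≤ B := fun l =>
    Finset.single_le_sum (f := fun l => depth (M.tm.m l)) (fun _ _ => Nat.zero_le _)
      (Finset.mem_univ l)
  refine ⟨T, B, fun d x t hout => ?_⟩
  obtain ⟨⟨⟨n, hn⟩, hnt⟩⟩ := hout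
  have hinit : R ix code idx T n₀ V (M.tm.m M.tm.main) M.tm.initialState
      (initList M.tm (d.map M.inputAlphabet.invFun)).stk (minit T d) := by
    refine ⟨rfl, hidx0.symm, ?_, fun k => ?_, fun k g hg => ?_⟩
    · simp only [minit, List.length_cons, List.length_replicate]
      omega
    · by_cases hk : k = M.tm.k₀
      · subst hk
        have h1 : ix M.tm.k₀ = 0 := by simp [hix]
        have h2 : (initList M.tm (d.map M.inputAlphabet.invFun)).stk M.tm.k₀ =
            d.map M.inputAlphabet.invFun := by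
          simp [initList]
        rw [h1, h2]
        simp only [minit, List.getD_cons_zero, List.map_map]
        refine List.map_congr_left fun b _ => ?_
        simp only [Function.comp, hc3]
        congr 1
        simp
      · have h1 : ix k = (Fintype.equivFin M.tm.K k : ℕ) + 1 := by simp [hix, hk]
        have h2 : (initList M.tm (d.map M.inputAlphabet.invFun)).stk k = [] := by
          simp [initList, hk]
        rw [h1, h2]
        simp only [minit, List.getD_cons_succ, List.map_nil]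
        rw [List.getD_eq_getElem?_getD, List.getElem?_replicate]
        split_ifs <;> rfl
    · by_cases hk : k = M.tm.k₀
      · exact Or.inl hk
      · have h2 : (initList M.tm (d.map M.inputAlphabet.invFun)).stk k = [] := by
          simp [initList, hk]
        rw [h2] at hg
        exact absurd hg (by simp)
  obtain ⟨j, hj, hhalt, hR⟩ := sim_main hG hB' n M.tm.main M.tm.initialState
    (initList M.tm (d.map M.inputAlphabet.invFun)).stk (minit T d) hinit M.tm.initialState
    (haltList M.tm (x.map M.outputAlphabet.invFun)).stk hn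
  obtain ⟨hfin, hmout⟩ := out hG hR hhalt
  have hx : mout (mstep^[j] (minit T d)) = x := by
    rw [hmout]
    have h2 : (haltList M.tm (x.map M.outputAlphabet.invFun)).stk M.tm.k₁ =
        x.map M.outputAlphabet.invFun := by
      simp [haltList]
    rw [h2, List.map_map]
    refine (List.map_congr_left fun b _ => ?_).trans (List.map_id x)
    simp
  -- the first final configuration
  have hex : ∃ i, mfin (mstep^[i] (minit T d)) = true := ⟨j, hfin⟩
  set i₀ := Nat.find hex with hi₀
  have hi₀j : i₀ ≤ j := Nat.find_min' hex hfin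
  have hstay : ∀ n, mstep^[n] (mstep^[i₀] (minit T d)) = mstep^[i₀] (minit T d) := by
    intro n
    induction n with
    | zero => rfl
    | succ n ih =>
      rw [Function.iterate_succ_apply', ih]
      exact mstep_of_mfin (Nat.find_spec hex)
  have heq : mstep^[j] (minit T d) = mstep^[i₀] (minit T d) := by
    rw [← Nat.sub_add_cancel hi₀j, Function.iterate_add_apply]
    exact hstay _
  refine ⟨i₀, ?_, Nat.find_spec hex, fun i hi => ?_, ?_⟩
  · calc i₀ ≤ j := hi₀j
      _ ≤ B * n := hj
      _ ≤ B * (t + 1) := Nat.mul_le_mul_left _ (by exact hnt.trans (Nat.le_succ t))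
  · have h1 := Nat.find_min hex hi
    simpa using h1
  · rw [← heq, hx]

end Pool.Agent.Lib.MP_33f9c4_lc
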