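import Pool.Agent.Lib.MP_33f9c4_lc.Defs
import Pool.Agent.Lib.MP_33f9c4_lc.Loop

/-!
# Elementary facts on `Kt`
-/

namespace Pool.Agent.Lib.MP_33f9c4_lc

open Turing

theorem Outputs.mono {M : Machine} {d x : List Bool} {t t' : ℕ} (h : Outputs M d x t)
    (ht : t ≤ t') : Outputs M d x t' := by
  obtain ⟨h⟩ := h
  exact ⟨{ steps := h.steps, evals_in_steps := h.evals_in_steps
           steps_le_m := h.steps_le_m.trans ht }⟩

theorem kt_bdd (U : Machine) (x : List Bool) :
    BddBelow {r : ℝ | ∃ (d : List Bool) (t : ℕ), Outputs U d x t ∧ r = d.length + Real.logb 2 t} := by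
  refine ⟨0, ?_⟩
  rintro r ⟨d, t, _, rfl⟩
  have h1 : (0 : ℝ) ≤ d.length := Nat.cast_nonneg _
  have h2 : (0 : ℝ) ≤ Real.logb 2 t := by
    rcases Nat.eq_zero_or_pos t with rfl | ht
    · simp
    · exact Real.logb_nonneg (by norm_num) (by exact_mod_cast ht)
  linarith

theorem not_mem_of_outputs {U : Machine} {d x : List Bool} {t : ℕ} (h : Outputs U d x t)
    (hlt : 2 ^ d.length * t < 2 ^ x.length) (hl : d.length < x.length) : x ∉ RKt U := by
  intro hx
  have h1 : Kt U x ≤ d.length + Real.logb 2 t := csInf_le (kt_bdd U x) ⟨d, t, h, rfl⟩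
  have h2 : (x.length : ℝ) ≤ d.length + Real.logb 2 t := le_trans hx h1
  rcases Nat.eq_zero_or_pos t with rfl | ht
  · simp only [Nat.cast_zero, Real.logb_zero, add_zero, Nat.cast_le] at h2
    omega
  · have ht' : (0 : ℝ) < t := by exact_mod_cast ht
    have h3 : (x.length : ℝ) - d.length ≤ Real.logb 2 t := by linarith
    rw [Real.le_logb_iff_rpow_le (by norm_num) ht', Real.rpow_sub (by norm_num),
      Real.rpow_natCast, Real.rpow_natCast, div_le_iff₀ (by positivity)] at h3
    have h4 : ((2 ^ x.length : ℕ) : ℝ) ≤ ((t * 2 ^ d.length : ℕ) : ℝ) := by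
      push_cast
      exact h3
    have h5 : 2 ^ x.length ≤ t * 2 ^ d.length := by exact_mod_cast h4
    rw [mul_comm] at h5
    omega

theorem exists_of_not_mem {U : Machine} {x : List Bool} (hne : ∃ d t, Outputs U d x t)
    (hx : x ∉ RKt U) : ∃ (d : List Bool) (t : ℕ), Outputs U d x t ∧
      2 ^ d.length * t < 2 ^ x.length := by
  obtain ⟨d0, t0, h0⟩ := hne
  have h1 : Kt U x < x.length := lt_of_not_ge hx
  have hne' : {r : ℝ | ∃ (d : List Bool) (t : ℕ), Outputs U d x t ∧
      r = d.length + Real.logb 2 t}.Nonempty := ⟨_, d0, t0, h0, rfl⟩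
  obtain ⟨r, ⟨d, t, hdt, rfl⟩, hr⟩ := exists_lt_of_csInf_lt hne' h1
  refine ⟨d, t, hdt, ?_⟩
  rcases Nat.eq_zero_or_pos t with rfl | ht
  · simp
  · have ht' : (0 : ℝ) < t := by exact_mod_cast ht
    have h3 : Real.logb 2 t < (x.length : ℝ) - d.length := by linarith
    rw [Real.logb_lt_iff_lt_rpow (by norm_num) ht', Real.rpow_sub (by norm_num),
      Real.rpow_natCast, Real.rpow_natCast, lt_div_iff₀ (by positivity)] at h3
    have h4 : ((t * 2 ^ d.length : ℕ) : ℝ) < ((2 ^ x.length : ℕ) : ℝ) := by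
      push_cast
      exact h3
    rw [mul_comm]
    exact_mod_cast h4

/-- Polynomial time algorithms as machines. -/
theorem exists_machine_of_inP {A : Set (List Bool)} (h : InP A) :
    ∃ (D : Machine) (q : Polynomial ℕ), ∀ x, open Classical in
      Outputs D x [decide (x ∈ A)] (q.eval x.length) := by
  obtain ⟨h⟩ := h
  exact ⟨h.toTM2ComputableAux, h.time, fun x => ⟨h.outputsFun x⟩⟩

end Pool.Agent.Lib.MP_33f9c4_lc
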