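import Pool.Agent.Lib.MP_33f9c4_lc.Univ
import Pool.Agent.Lib.MP_33f9c4_lc.Mpt
import Pool.Agent.Lib.MP_33f9c4_lc.QDefs2

/-!
# Languages in EXP are decided in time polynomial in an exponentially long unary counter
-/

namespace Pool.Agent.Lib.MP_33f9c4_lc.Qt

open Pool.Agent.Lib.PolyTime Function

set_option synthInstance.maxSize 2000

/-- Running a table for the given number of steps. -/
def runTbl (T : Tbl) (x : List Bool × ℕ) : Bool :=
  decide (mout (mstep^[x.2] (minit T x.1)) = [true])

theorem pt_runTbl (T : Tbl) : PT (runTbl T) := by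
  have hinit : PT (fun x : List Bool × ℕ => minit T x.1) :=
    pt_minit.comp ((PT.const T).pair PT.fst)
  obtain ⟨q, hq⟩ := size_mstep_iter
  obtain ⟨p, hp⟩ := hinit.size_le
  have hit : PT (fun x : List Bool × ℕ => mstep^[x.2] (minit T x.1)) := by
    refine PT.iterate (f := fun x : List Bool × ℕ => x.2) (init := fun x => minit T x.1)
      (step := fun _ s => mstep s) PT.snd hinit (pt_mstep.comp PT.snd)
      (B := fun n => q.eval (p.eval n + n)) (PB.comp q ((PB.poly p).add PB.id)) ?_
    intro a i hi
    refine (hq _ _).trans (eval_mono q ?_)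
    have h1 := hp a
    have h2 : a.2 ≤ size a := by
      rw [size_prod, size_nat]
      omega
    omega
  exact (PT.eqConst [true]).comp (pt_mout.comp hit)

theorem mstep_iter_of_mfin {c : Cfg} {s M : ℕ} (h : mfin (mstep^[s] c) = true) (hM : s ≤ M) :
    mstep^[M] c = mstep^[s] c := by
  induction M, hM using Nat.le_induction with
  | base => rfl
  | succ M hM ih => rw [iterate_succ_apply', ih, UV.mstep_of_mfin h]

open Classical in
/-- Languages in EXP are decided in time polynomial in an exponentially long unary counter. -/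
theorem exists_ldec {L : Set (List Bool)} (hL : InEXP L) :
    ∃ (Ldec : List Bool × ℕ → Bool) (p : Polynomial ℕ), PT Ldec ∧
      ∀ (x : List Bool) (M : ℕ), 2 ^ p.eval x.length ≤ M → Ldec (x, M) = decide (x ∈ L) := by
  obtain ⟨Mc, p, hMc⟩ := hL
  obtain ⟨T, c, hT⟩ := exists_table Mc
  refine ⟨runTbl T, p + 1 + Polynomial.C c, pt_runTbl T, fun x M hM => ?_⟩
  obtain ⟨s, hs, hfin, -, hout⟩ := hT x _ _ (hMc x)
  have hsM : s ≤ M := by
    refine hs.trans (le_trans ?_ hM)
    have h1 : c ≤ 2 ^ c := Nat.lt_two_pow_self.le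
    have h2 : 2 ^ p.eval x.length + 1 ≤ 2 ^ (p.eval x.length + 1) := by
      rw [pow_succ]
      have : 1 ≤ 2 ^ p.eval x.length := Nat.one_le_two_pow
      omega
    calc c * (2 ^ p.eval x.length + 1) ≤ 2 ^ c * 2 ^ (p.eval x.length + 1) :=
          Nat.mul_le_mul h1 h2
      _ = 2 ^ (p + 1 + Polynomial.C c).eval x.length := by
          rw [← pow_add]
          congr 1
          simp only [Polynomial.eval_add, Polynomial.eval_one, Polynomial.eval_C]
          omega
  unfold runTbl
  rw [mstep_iter_of_mfin hfin hsM, hout]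
  simp

end Pool.Agent.Lib.MP_33f9c4_lc.Qt
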