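import Pool.Agent.Lib.MP_33f9c4_lc.Simu
import Pool.Agent.Lib.MP_33f9c4_lc.Kt
import Pool.Agent.Lib.MP_33f9c4_lc.Idx

/-!
# Deciding Levin-randomness in time polynomial in an exponentially long unary counter
-/

namespace Pool.Agent.Lib.MP_33f9c4_lc.Qt

open Pool.Agent.Lib.PolyTime Function Turing

set_option synthInstance.maxSize 2000

/-- `2 ^ n`, if this is at most `M`. -/
def pw (n M : ℕ) : ℕ := (fun s => if s + s ≤ M then s + s else M)^[n] 1

theorem pw_eq {n M : ℕ} (h : 2 ^ n ≤ M) : pw n M = 2 ^ n := by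
  unfold pw
  induction n with
  | zero => rfl
  | succ n ih =>
    rw [pow_succ] at h
    rw [iterate_succ_apply', ih (by omega), if_pos (by omega), pow_succ]
    omega

theorem pt_pw {α : Type} [Enc α] {f g : α → ℕ} (hf : PT f) (hg : PT g) :
    PT (fun a => pw (f a) (g a)) := by
  have h2 : PT (fun x : α × ℕ => x.2) := PT.snd
  obtain ⟨q, hq⟩ := hg.size_le
  refine PT.iterate (step := fun a s => if s + s ≤ g a then s + s else g a) hf (PT.const 1)
    (PT.ite (PT.le (PT.add h2 h2) (hg.comp PT.fst)) (PT.add h2 h2) (hg.comp PT.fst))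
    (B := fun n => q.eval n + 3) ((PB.poly q).add (PB.const 3)) ?_
  intro a i _
  have h3 : (fun s => if s + s ≤ g a then s + s else g a)^[i] 1 ≤ g a + 1 := by
    induction i with
    | zero => simp
    | succ i ih =>
      rw [iterate_succ_apply']
      split_ifs <;> omega
  have h4 := hq a
  rw [size_nat] at h4 ⊢
  change 2 * (fun s => if s + s ≤ g a then s + s else g a)^[i] 1 + 1 ≤ q.eval (size a) + 3
  omega

/-- The strings which are not random, for the machine of a program. -/
theorem not_mem_rkt_iff {K : Type} [Fintype K] [DecidableEq K] (P : Prog K) (k₀ : K)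
    (hex : ∀ x, ∃ d t, Outputs (progMachine P k₀) d x t) (x : List Bool) :
    x ∉ RKt (progMachine P k₀) ↔ ∃ (d : List Bool) (t : ℕ), d.length < x.length ∧
      t < 2 ^ (x.length - d.length) ∧ Outputs (progMachine P k₀) d x t := by
  constructor
  · intro h
    obtain ⟨d, t, h1, h2⟩ := exists_of_not_mem (hex x) h
    have h3 : t ≠ 0 := by
      rintro rfl
      obtain ⟨n, hn, h4⟩ := (outputs_iff P k₀ d x 0).1 h1
      obtain rfl : n = 0 := by omega
      unfold StepsTo at h4
      simp at h4
    have h5 : d.length < x.length := by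
      refine (Nat.pow_lt_pow_iff_right (a := 2) (by norm_num)).1 (lt_of_le_of_lt ?_ h2)
      exact Nat.le_mul_of_pos_right _ (by omega)
    refine ⟨d, t, h5, ?_, h1⟩
    have h6 : 2 ^ d.length * t < 2 ^ d.length * 2 ^ (x.length - d.length) := by
      rw [← pow_add, Nat.add_sub_cancel' h5.le]
      exact h2
    exact Nat.lt_of_mul_lt_mul_left h6
  · rintro ⟨d, t, h1, h2, h3⟩
    refine not_mem_of_outputs h3 ?_ h1
    calc 2 ^ d.length * t < 2 ^ d.length * 2 ^ (x.length - d.length) :=
          Nat.mul_lt_mul_of_pos_left h2 (by positivity)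
      _ = 2 ^ x.length := by rw [← pow_add, Nat.add_sub_cancel' h1.le]

open Classical in
theorem exists_rdec {K : Type} [Fintype K] [DecidableEq K] (P : Prog K) (k₀ : K)
    (hex : ∀ x, ∃ d t, Outputs (progMachine P k₀) d x t) :
    ∃ Rdec : List Bool × ℕ → Bool, PT Rdec ∧ ∀ (x : List Bool) (M : ℕ), 2 ^ x.length ≤ M →
      Rdec (x, M) = decide (x ∈ RKt (progMachine P k₀)) := by
  obtain ⟨out, hout, hout'⟩ : ∃ out : List Bool × (List Bool × ℕ) → Bool, PT out ∧
      ∀ d x t, out (d, (x, t)) = decide (Outputs (progMachine P k₀) d x t) :=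
    ⟨_, pt_outputs P k₀, fun _ _ _ => rfl⟩
  have hinner : PT (fun y : ((List Bool × ℕ) × ℕ) × ℕ =>
      decide ((nxt^[y.1.2] []).length < y.1.1.1.length) &&
      (decide (y.2 < pw (y.1.1.1.length - (nxt^[y.1.2] []).length) y.1.1.2) &&
        out (nxt^[y.1.2] [], (y.1.1.1, y.2)))) := by
    have hid : PT (fun y : ((List Bool × ℕ) × ℕ) × ℕ => y) := PT.id
    have hd : PT (fun y : ((List Bool × ℕ) × ℕ) × ℕ => nxt^[y.1.2] ([] : List Bool)) :=
      pt_nxt_iter hid.fst'.snd' (PT.const [])
    have hx : PT (fun y : ((List Bool × ℕ) × ℕ) × ℕ => y.1.1.1) := hid.fst'.fst'.fst'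
    exact PT.and (PT.lt (PT.length hd) (PT.length hx))
      (PT.and (PT.lt hid.snd' (pt_pw (PT.sub (PT.length hx) (PT.length hd)) hid.fst'.fst'.snd'))
        (hout.comp (hd.pair (hx.pair hid.snd'))))
  refine ⟨fun a => !((List.range a.2).any (fun j => (List.range a.2).any (fun t =>
    decide ((nxt^[j] []).length < a.1.length) &&
      (decide (t < pw (a.1.length - (nxt^[j] []).length) a.2) &&
        out (nxt^[j] [], (a.1, t)))))), ?_, ?_⟩
  · refine PT.not (PT.any (f := fun a : List Bool × ℕ => List.range a.2)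
      (p := fun a j => (List.range a.2).any (fun t =>
        decide ((nxt^[j] []).length < a.1.length) &&
        (decide (t < pw (a.1.length - (nxt^[j] []).length) a.2) &&
          out (nxt^[j] [], (a.1, t))))) (PT.range PT.snd) ?_)
    exact PT.any (f := fun y : (List Bool × ℕ) × ℕ => List.range y.1.2)
      (p := fun y t => decide ((nxt^[y.2] []).length < y.1.1.length) &&
        (decide (t < pw (y.1.1.length - (nxt^[y.2] []).length) y.1.2) &&
          out (nxt^[y.2] [], (y.1.1, t)))) (PT.range (PT.snd' PT.fst)) hinner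
  · intro x M hM
    have key : (x ∉ RKt (progMachine P k₀)) ↔ ((List.range M).any (fun j => (List.range M).any
        (fun t => decide ((nxt^[j] []).length < x.length) &&
          (decide (t < pw (x.length - (nxt^[j] []).length) M) &&
            out (nxt^[j] [], (x, t)))))) = true := by
      rw [not_mem_rkt_iff P k₀ hex x]
      simp only [List.any_eq_true, List.mem_range, Bool.and_eq_true, decide_eq_true_iff, hout']
      constructor
      · rintro ⟨d, t, h1, h2, h3⟩
        have h4 : 2 ^ (x.length - d.length) ≤ 2 ^ x.length :=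
          Nat.pow_le_pow_right (by norm_num) (by omega)
        have h5 := nval_lt_length d
        have h6 : 2 ^ (d.length + 1) ≤ 2 ^ x.length := Nat.pow_le_pow_right (by norm_num) (by omega)
        refine ⟨nval d, by omega, t, by omega, ?_⟩
        rw [nxt_iter_nval, pw_eq (by omega)]
        exact ⟨h1, h2, h3⟩
      · rintro ⟨j, _, t, _, h1, h2, h3⟩
        have h4 : 2 ^ (x.length - (nxt^[j] []).length) ≤ 2 ^ x.length :=
          Nat.pow_le_pow_right (by norm_num) (by omega)
        rw [pw_eq (by omega)] at h2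
        exact ⟨_, t, h1, h2, h3⟩
    simp only
    rw [Bool.eq_iff_iff, decide_eq_true_iff, Bool.not_eq_true', ← Bool.not_eq_true, ← key,
      not_not]

end Pool.Agent.Lib.MP_33f9c4_lc.Qt
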