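import Pool.Agent.Lib.MP_33f9c4_lc.Alg
import Pool.Agent.Lib.MP_33f9c4_lc.Rdec
import Pool.Agent.Lib.MP_33f9c4_lc.Ldec
import Pool.Agent.Lib.MP_33f9c4_lc.Pad
import Pool.Agent.Lib.MP_33f9c4_lc.Idx

/-!
# The machine that finds the advice
-/

namespace Pool.Agent.Lib.MP_33f9c4_lc.Qt

open Pool.Agent.Lib.PolyTime Function

set_option synthInstance.maxSize 2000

/-- The value of a polynomial. -/
theorem learn_eval {α : Type} [Enc α] (p : Polynomial ℕ) {f : α → ℕ} (hf : PT f) :
    PT (fun a => p.eval (f a)) := by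
  induction p using Polynomial.induction_on with
  | C c => exact (PT.const c).congr fun a => by simp
  | add p q hp hq => exact (PT.add hp hq).congr fun a => by simp
  | monomial n c h => exact (PT.mul h hf).congr fun a => by simp [pow_succ, mul_assoc]

/-- All strings of length `n`, if `2 ^ n ≤ M`. -/
def strs (n M : ℕ) : List (List Bool) :=
  (List.range (pw n M)).map (fun j => nxt^[j] (List.replicate n false))

theorem strs_eq {n M : ℕ} (h : 2 ^ n ≤ M) : strs n M =
    (List.range (2 ^ n)).map (fun j => nxt^[j] (List.replicate n false)) := by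
  rw [strs, pw_eq h]

theorem mem_strs {n M : ℕ} (h : 2 ^ n ≤ M) (z : List Bool) : z ∈ strs n M ↔ z.length = n := by
  rw [strs_eq h, List.mem_map]
  constructor
  · rintro ⟨j, hj, rfl⟩
    exact Ef.length_nxt_iter (List.mem_range.1 hj)
  · intro hz
    obtain ⟨j, hj, h1⟩ := Ef.exists_nxt_iter z
    rw [hz] at hj h1
    exact ⟨j, List.mem_range.2 hj, h1⟩

theorem pt_strs {α : Type} [Enc α] {f g : α → ℕ} (hf : PT f) (hg : PT g) :
    PT (fun a => strs (f a) (g a)) := by
  have h1 : PT (fun x : α × ℕ => List.replicate (f x.1) false) :=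
    (PT.map (PT.range (hf.comp PT.fst)) (PT.const false)).congr fun a => by
      rw [List.map_const', List.length_range]
  exact PT.map (PT.range (pt_pw hf hg)) (pt_nxt_iter PT.snd h1)

section

variable (Rd Ld : List Bool × ℕ → Bool) (dc : List Bool → Adv)

/-- Is the advice string `w` correct for `z`? The argument is `((M, w), z)`. -/
def chk1 (a : (ℕ × List Bool) × List Bool) : Bool :=
  decide (alg (fun y => decide (y ∈ (qs (dc a.1.2) a.2).filter (fun y => Rd (y, a.1.1))))
    (dc a.1.2) a.2 = Ld (a.2, a.1.1))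

/-- Is the advice string `w` correct for all strings of length `N`? The argument is `((N, M), w)`. -/
def chk (a : (ℕ × ℕ) × List Bool) : Bool :=
  (strs a.1.1 a.1.2).all (fun z => chk1 Rd Ld dc ((a.1.2, a.2), z))

/-- The bit `i` of the first correct advice string; the argument is `((N, i), M)`. -/
def lrn (A : Polynomial ℕ) (a : (ℕ × ℕ) × ℕ) : List Bool :=
  [(((strs (A.eval a.1.1) a.2).filter (fun w => chk Rd Ld dc ((a.1.1, a.2), w))).getD 0 []).getD
    a.1.2 false]

variable {Rd Ld dc}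

theorem pt_chk1 (hR : PT Rd) (hL : PT Ld) (hd : PT dc) : PT (chk1 Rd Ld dc) := by
  have hid : PT (fun a : (ℕ × List Bool) × List Bool => a) := PT.id
  have hM : PT (fun a : (ℕ × List Bool) × List Bool => a.1.1) := hid.fst'.fst'
  have hw : PT (fun a : (ℕ × List Bool) × List Bool => dc a.1.2) := hd.comp hid.fst'.snd'
  have hf : PT (fun a : (ℕ × List Bool) × List Bool =>
      (qs (dc a.1.2) a.2).filter (fun y => Rd (y, a.1.1))) :=
    PT.filter (p := fun a y => Rd (y, a.1.1)) (pt_qs.comp (hw.pair hid.snd'))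
      (hR.comp (PT.snd.pair (hM.comp PT.fst)))
  exact PT.eq (pt_alg.comp (hf.pair (hw.pair hid.snd'))) (hL.comp (hid.snd'.pair hM))

theorem pt_chk (hR : PT Rd) (hL : PT Ld) (hd : PT dc) : PT (chk Rd Ld dc) := by
  have hid : PT (fun a : (ℕ × ℕ) × List Bool => a) := PT.id
  have h2 : PT (fun x : ((ℕ × ℕ) × List Bool) × List Bool => x) := PT.id
  exact PT.all (p := fun a z => chk1 Rd Ld dc ((a.1.2, a.2), z)) (pt_strs hid.fst'.fst' hid.fst'.snd')
    ((pt_chk1 hR hL hd).comp ((h2.fst'.fst'.snd'.pair h2.fst'.snd').pair h2.snd'))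

theorem pt_lrn (hR : PT Rd) (hL : PT Ld) (hd : PT dc) (A : Polynomial ℕ) :
    PT (lrn Rd Ld dc A) := by
  have hid : PT (fun a : (ℕ × ℕ) × ℕ => a) := PT.id
  have h2 : PT (fun x : ((ℕ × ℕ) × ℕ) × List Bool => x) := PT.id
  have hf : PT (fun a : (ℕ × ℕ) × ℕ => (strs (A.eval a.1.1) a.2).filter
      (fun w => chk Rd Ld dc ((a.1.1, a.2), w))) :=
    PT.filter (p := fun a w => chk Rd Ld dc ((a.1.1, a.2), w))
      (pt_strs (learn_eval A hid.fst'.fst') hid.snd')
      ((pt_chk hR hL hd).comp ((h2.fst'.fst'.fst'.pair h2.fst'.snd').pair h2.snd'))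
  exact PT.list1 (mpt_getD (PT.getD hf 0 []) hid.fst'.snd' false)

open Classical in
theorem chk_eq {R L : Set (List Bool)} {N M : ℕ} {w : List Bool} (hN : 2 ^ N ≤ M)
    (hR : ∀ y : List Bool, 2 ^ y.length ≤ M → Rd (y, M) = decide (y ∈ R))
    (hL : ∀ z : List Bool, z.length = N → Ld (z, M) = decide (z ∈ L))
    (hq : ∀ z : List Bool, z.length = N → ∀ y ∈ qs (dc w) z, 2 ^ y.length ≤ M) :
    chk Rd Ld dc ((N, M), w) = goodA R L (dc w) N := by
  rw [Bool.eq_iff_iff, chk, List.all_eq_true, goodA, decide_eq_true_iff]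
  refine forall_congr' fun z => ?_
  rw [mem_strs hN]
  refine forall_congr' fun hz => ?_
  rw [chk1, decide_eq_true_iff, hL z hz]
  rw [alg_congr (O' := fun x => decide (x ∈ R))]
  intro y hy
  simp only [List.mem_filter]
  rw [Bool.eq_iff_iff, decide_eq_true_iff, hR y (hq z hz y hy)]
  exact ⟨fun h => h.2, fun h => ⟨hy, h⟩⟩

end

/-- The machine that computes the bits of the first correct advice string. -/
theorem exists_learn {K : Type} [Fintype K] [DecidableEq K] (P : Prog K) (k₀ : K)
    (hex : ∀ x, ∃ d t, Outputs (progMachine P k₀) d x t) {L : Set (List Bool)} (hL : InEXP L)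
    {dc : List Bool → Adv} (hdc : PT dc) (A : Polynomial ℕ) :
    ∃ (D : Machine) (E Q : Polynomial ℕ), ∀ (x : List Bool) (N i : ℕ), idx x = (N, i) →
      Outputs D x [(wgood (RKt (progMachine P k₀)) L dc A N).getD i false]
        (Q.eval (x.length + 2 ^ E.eval N)) := by
  obtain ⟨Rd, pR, hR⟩ := exists_rdec P k₀ hex
  obtain ⟨Ld, pL, pLd, hLd⟩ := exists_ldec hL
  obtain ⟨s1, hs1⟩ := pt_qs.size_le
  obtain ⟨s2, hs2⟩ := hdc.size_le
  obtain ⟨E, hE⟩ : ∃ E : Polynomial ℕ, E = A + Polynomial.X + pL +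
      s1.comp (s2.comp (4 * A + 1) + 4 * Polynomial.X + 2) := ⟨_, rfl⟩
  have hEv : ∀ N, E.eval N = A.eval N + N + pL.eval N +
      s1.eval (s2.eval (4 * A.eval N + 1) + 4 * N + 2) := by
    intro N
    rw [hE]
    simp only [Polynomial.eval_add, Polynomial.eval_X, Polynomial.eval_comp, Polynomial.eval_mul,
      Polynomial.eval_ofNat, Polynomial.eval_one]
  obtain ⟨D, Q, hD⟩ := exists_pad_machine (e := fun x => E.eval (idx x).1)
    (F := fun y => lrn Rd Ld dc A (idx y.1, y.2)) (learn_eval E pt_idx.fst')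
    ((pt_lrn pR pLd hdc A).comp ((pt_idx.comp PT.fst).pair PT.snd))
  refine ⟨D, E, Q, fun x N i hx => ?_⟩
  have h1 := hD x
  rw [hx] at h1
  have h2 : lrn Rd Ld dc A ((N, i), 2 ^ E.eval N) =
      [(wgood (RKt (progMachine P k₀)) L dc A N).getD i false] := by
    have hA : 2 ^ A.eval N ≤ 2 ^ E.eval N :=
      Nat.pow_le_pow_right (by norm_num) (by rw [hEv]; omega)
    rw [lrn, wgood]
    change [(((strs (A.eval N) (2 ^ E.eval N)).filter
      (fun w => chk Rd Ld dc ((N, 2 ^ E.eval N), w))).getD 0 []).getD i false] = _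
    rw [strs_eq hA]
    congr 3
    refine List.filter_congr fun w hw => ?_
    have hwl : w.length = A.eval N := by
      rw [← strs_eq hA, mem_strs hA] at hw
      exact hw
    refine chk_eq (Nat.pow_le_pow_right (by norm_num) (by rw [hEv]; omega))
      (fun y hy => hR y _ hy) (fun z hz => hLd z _ ?_) (fun z hz y hy => ?_)
    · rw [hz]
      exact Nat.pow_le_pow_right (by norm_num) (by rw [hEv]; omega)
    · refine Nat.pow_le_pow_right (by norm_num) ?_
      have t1 := size_mem_lt hy
      have t2 := hs1 (dc w, z)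
      have t3 := hs2 w
      have t4 := size_bools_le w
      have t5 := size_bools_le z
      have t6 := le_size_bools y
      have t7 : s2.eval (size w) ≤ s2.eval (4 * A.eval N + 1) := eval_mono s2 (by omega)
      have t8 : s1.eval (size (dc w, z)) ≤ s1.eval (s2.eval (4 * A.eval N + 1) + 4 * N + 2) :=
        eval_mono s1 (by rw [size_prod]; simp only; omega)
      rw [hEv]
      simp only at t2
      omega
  rw [← h2]
  exact h1

end Pool.Agent.Lib.MP_33f9c4_lc.Qt
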