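import Pool.Agent.Lib.MP_33f9c4_lc.Defs2
import Pool.Agent.Lib.MP_33f9c4_lc.Loop

/-!
# Loops with additional stacks, as Turing machines
-/

namespace Pool.Agent.Lib.MP_33f9c4_lc.Ef

open Pool.Agent.Lib.PolyTime Turing Function Finset

theorem code_zero : code (0 : ℕ) = [false] := rfl
theorem code_succ (n : ℕ) : code (n + 1) = true :: false :: code n := rfl

theorem final_state {K : Type} [Fintype K] [DecidableEq K] {P : Prog K} {k₀ : K}
    {d x : List Bool} {s' : St K} {t t' : ℕ} (h : Run P (single k₀ d) s' t)
    (h' : Outputs (progMachine P k₀) d x t') : s' = single k₀ x := by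
  rw [outputs_iff] at h'
  obtain ⟨n, _, h'⟩ := h'
  obtain ⟨v', hv⟩ := run_stepsTo (Λ := Option (Lbl P)) (P.machine k₀).m h some none
    (fun l => rfl) none
  have h1 : StepsTo (TM2.step (P.machine k₀).m) ⟨some (some (entry P)), none, single k₀ d⟩
    ⟨none, none, s'⟩ (t + 1) := hv.trans (StepsTo.single rfl)
  have := stepsTo_det h1 rfl h' rfl
  exact congrArg TM2.Cfg.stk this

section

variable {κ : Type} [DecidableEq κ] {k : ℕ}

/-- States with additional stacks. -/
def big (s : St κ) (f : Fin k → List Bool) : St (κ ⊕ Fin k) := Sum.elim s f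

theorem update_inl (s : St κ) (f : Fin k → List Bool) (a : κ) (v : List Bool) :
    update (big s f) (Sum.inl a) v = big (update s a v) f := by
  funext x
  rcases x with x | x
  · by_cases h : x = a
    · subst h
      simp [big]
    · rw [update_of_ne (by simpa using h)]
      simp [big, update_of_ne h]
  · rw [update_of_ne (by simp)]
    rfl

theorem update_inr (s : St κ) (f : Fin k → List Bool) (i : Fin k) (v : List Bool) :
    update (big s f) (Sum.inr i) v = big s (update f i v) := by
  funext x
  rcases x with x | x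
  · rw [update_of_ne (by simp)]
    rfl
  · by_cases h : x = i
    · subst h
      simp [big]
    · rw [update_of_ne (by simpa using h)]
      simp [big, update_of_ne h]

theorem run_map_inl {P : Prog κ} {s s' : St κ} {t : ℕ} (h : Run P s s' t)
    (f : Fin k → List Bool) : Run (P.map Sum.inl) (big s f) (big s' f) t := by
  obtain ⟨S', h1, h2, h3⟩ := h.map Sum.inl_injective (big s f) (fun _ => rfl)
  have : S' = big s' f := by
    funext x
    rcases x with x | x
    · exact h2 x
    · exact h3 _ (by simp)
  rwa [this] at h1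

variable (a : κ)

theorem run_push_m (b : Bool) (u : List Bool) (f : Fin k → List Bool) :
    Run (.push (Sum.inl a) b) (big (single a u) f) (big (single a (b :: u)) f) 1 := by
  have := Run.push (Sum.inl a) b (big (single a u) f)
  have e : big (single a u) f (Sum.inl a) = u := single_self a u
  rwa [e, update_inl, update_single] at this

theorem run_pop_m (b : Bool) (u : List Bool) (f : Fin k → List Bool) :
    Run (.pop (Sum.inl a)) (big (single a (b :: u)) f) (big (single a u) f) 1 := by
  have := Run.pop (Sum.inl a) (big (single a (b :: u)) f)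
  have e : big (single a (b :: u)) f (Sum.inl a) = b :: u := single_self a _
  rwa [e, update_inl, update_single, List.tail_cons] at this

theorem run_push_s (i : Fin k) (b : Bool) (s : St κ) (f : Fin k → List Bool) :
    Run (.push (Sum.inr i) b) (big s f) (big s (update f i (b :: f i))) 1 := by
  have := Run.push (Sum.inr i) b (big s f)
  rwa [update_inr] at this

theorem run_pop_s (i : Fin k) (s : St κ) (f : Fin k → List Bool) {b : Bool} {w : List Bool}
    (hf : f i = b :: w) : Run (.pop (Sum.inr i)) (big s f) (big s (update f i w)) 1 := by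
  have := Run.pop (Sum.inr i) (big s f)
  have e : big s f (Sum.inr i) = b :: w := hf
  rwa [e, update_inr, List.tail_cons] at this

/-- Remove the code of a number. -/
def drp (k : ℕ) : Prog (κ ⊕ Fin k) :=
  .seq (.loop (Sum.inl a) isT (.seq (.pop (Sum.inl a)) (.pop (Sum.inl a)))) (.pop (Sum.inl a))

theorem run_drp (f : Fin k → List Bool) (u : List Bool) (n : ℕ) :
    Run (drp a k) (big (single a (code n ++ u)) f) (big (single a u) f) (3 * n + 2) := by
  have key : ∀ n : ℕ, Run (.loop (Sum.inl a) isT (.seq (.pop (Sum.inl a)) (.pop (Sum.inl a))))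
      (big (single a (code n ++ u)) f) (big (single a (false :: u)) f) (3 * n + 1) := by
    intro n
    induction n with
    | zero => exact .loopF (by rw [big, Sum.elim_inl, single_self]; rfl)
    | succ n ih =>
      have h1 := (run_pop_m a true (false :: (code n ++ u)) f).seq
        (run_pop_m a false (code n ++ u) f)
      have h2 := Run.loopT (k := Sum.inl a) (p := isT)
        (s := big (single a (code (n + 1) ++ u)) f)
        (by rw [big, Sum.elim_inl, single_self]; rfl) h1 ih
      have e : 1 + 1 + (3 * n + 1) + 1 = 3 * (n + 1) + 1 := by ring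
      rwa [e] at h2
  exact (key n).seq (run_pop_m a false u f)

/-- Move the code of a number to the additional stack `i`. -/
def mvs (i : Fin k) : Prog (κ ⊕ Fin k) :=
  .seq (.push (Sum.inr i) false) (.seq (.loop (Sum.inl a) isT (.seq (.pop (Sum.inl a))
    (.seq (.pop (Sum.inl a)) (.seq (.push (Sum.inr i) false) (.push (Sum.inr i) true)))))
    (.pop (Sum.inl a)))

theorem run_mvs (i : Fin k) (f : Fin k → List Bool) (u : List Bool) (n : ℕ) :
    Run (mvs a i) (big (single a (code n ++ u)) f)
      (big (single a u) (update f i (code n ++ f i))) (5 * n + 3) := by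
  have key : ∀ n j : ℕ, Run (.loop (Sum.inl a) isT (.seq (.pop (Sum.inl a))
    (.seq (.pop (Sum.inl a)) (.seq (.push (Sum.inr i) false) (.push (Sum.inr i) true)))))
      (big (single a (code n ++ u)) (update f i (code j ++ f i)))
      (big (single a (false :: u)) (update f i (code (n + j) ++ f i))) (5 * n + 1) := by
    intro n
    induction n with
    | zero =>
      intro j
      rw [Nat.zero_add]
      exact .loopF (by rw [big, Sum.elim_inl, single_self]; rfl)
    | succ n ih =>
      intro j
      have h1 := run_pop_m a true (false :: (code n ++ u)) (update f i (code j ++ f i))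
      have h2 := run_pop_m a false (code n ++ u) (update f i (code j ++ f i))
      have h3 := run_push_s i false (single a (code n ++ u)) (update f i (code j ++ f i))
      rw [update_self, update_idem] at h3
      have h4 := run_push_s i true (single a (code n ++ u)) (update f i (false :: (code j ++ f i)))
      rw [update_self, update_idem] at h4
      have h5 := Run.loopT (k := Sum.inl a) (p := isT)
        (s := big (single a (code (n + 1) ++ u)) (update f i (code j ++ f i)))
        (by rw [big, Sum.elim_inl, single_self]; rfl) (h1.seq (h2.seq (h3.seq h4)))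
        (ih (j + 1))
      have e : 1 + (1 + (1 + 1)) + (5 * n + 1) + 1 = 5 * (n + 1) + 1 := by ring
      have e2 : n + (j + 1) = n + 1 + j := by ring
      rwa [e, e2] at h5
  have h1 := run_push_s i false (single a (code n ++ u)) f
  have h2 := key n 0
  rw [Nat.add_zero] at h2
  have h3 := run_pop_m a false u (update f i (code n ++ f i))
  have h4 := h1.seq (h2.seq h3)
  have e : 1 + (5 * n + 1 + 1) = 5 * n + 3 := by ring
  rwa [e] at h4

/-- Move the code of a number from the additional stack `i`, adding one to the number. -/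
def mvm (i : Fin k) : Prog (κ ⊕ Fin k) :=
  .seq (.push (Sum.inl a) false) (.seq (.loop (Sum.inr i) isT (.seq (.pop (Sum.inr i))
    (.seq (.pop (Sum.inr i)) (.seq (.push (Sum.inl a) false) (.push (Sum.inl a) true)))))
    (.seq (.pop (Sum.inr i)) (.seq (.push (Sum.inl a) false) (.push (Sum.inl a) true))))

theorem run_mvm (i : Fin k) (f : Fin k → List Bool) (u w : List Bool) (n : ℕ)
    (hf : f i = code n ++ w) :
    Run (mvm a i) (big (single a u) f) (big (single a (code (n + 1) ++ u)) (update f i w))
      (5 * n + 5) := by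
  have key : ∀ n j : ℕ, Run (.loop (Sum.inr i) isT (.seq (.pop (Sum.inr i))
    (.seq (.pop (Sum.inr i)) (.seq (.push (Sum.inl a) false) (.push (Sum.inl a) true)))))
      (big (single a (code j ++ u)) (update f i (code n ++ w)))
      (big (single a (code (n + j) ++ u)) (update f i (false :: w))) (5 * n + 1) := by
    intro n
    induction n with
    | zero =>
      intro j
      rw [Nat.zero_add]
      exact .loopF (by rw [big, Sum.elim_inr, update_self]; rfl)
    | succ n ih =>
      intro j
      have h1 := run_pop_s i (single a (code j ++ u)) (update f i (code (n + 1) ++ w))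
        (b := true) (w := false :: (code n ++ w)) (by rw [update_self]; rfl)
      rw [update_idem] at h1
      have h2 := run_pop_s i (single a (code j ++ u)) (update f i (false :: (code n ++ w)))
        (b := false) (w := code n ++ w) (by rw [update_self])
      rw [update_idem] at h2
      have h3 := run_push_m a false (code j ++ u) (update f i (code n ++ w))
      have h4 := run_push_m a true (false :: (code j ++ u)) (update f i (code n ++ w))
      have h5 := Run.loopT (k := Sum.inr i) (p := isT)
        (s := big (single a (code j ++ u)) (update f i (code (n + 1) ++ w)))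
        (by rw [big, Sum.elim_inr, update_self]; rfl) (h1.seq (h2.seq (h3.seq h4)))
        (ih (j + 1))
      have e : 1 + (1 + (1 + 1)) + (5 * n + 1) + 1 = 5 * (n + 1) + 1 := by ring
      have e2 : n + (j + 1) = n + 1 + j := by ring
      rwa [e, e2] at h5
  have h0 : update f i (code n ++ w) = f := by rw [← hf, update_eq_self]
  have h1 := run_push_m a false u f
  have h2 := key n 0
  rw [Nat.add_zero, h0] at h2
  have h3 := run_pop_s i (single a (code n ++ u)) (update f i (false :: w)) (b := false)
    (w := w) (by rw [update_self])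
  rw [update_idem] at h3
  have h4 := run_push_m a false (code n ++ u) (update f i w)
  have h5 := run_push_m a true (false :: (code n ++ u)) (update f i w)
  have h6 := h1.seq (h2.seq (h3.seq (h4.seq h5)))
  have e : 1 + (5 * n + 1 + (1 + (1 + 1))) = 5 * n + 5 := by ring
  rwa [e] at h6

/-- The response zero and the flag. -/
def fin0 (k : ℕ) (b : Bool) : Prog (κ ⊕ Fin k) :=
  .seq (.push (Sum.inl a) false) (.seq (.push (Sum.inl a) true) (.push (Sum.inl a) b))

theorem run_fin0 (b : Bool) (u : List Bool) (f : Fin k → List Bool) :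
    Run (fin0 a k b) (big (single a u) f) (big (single a (b :: true :: (code 0 ++ u))) f) 3 :=
  (run_push_m a false u f).seq ((run_push_m a true _ f).seq (run_push_m a b _ f))

/-- The pop command. -/
def popB (i : Fin k) : Prog (κ ⊕ Fin k) :=
  .seq (drp a k) (.seq (.ite (Sum.inr i) ne (mvm a i) (.push (Sum.inl a) false))
    (.seq (.push (Sum.inl a) true) (.push (Sum.inl a) true)))

/-- The push command. -/
def pushB (i : Fin k) : Prog (κ ⊕ Fin k) := .seq (mvs a i) (fin0 a k true)

/-- The commands. -/
def br (k m : ℕ) : Prog (κ ⊕ Fin k) :=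
  if h : 2 ≤ m ∧ m < 2 + 2 * k then
    if m % 2 = 0 then popB a ⟨m / 2 - 1, by omega⟩ else pushB a ⟨m / 2 - 1, by omega⟩
  else .seq (drp a k) (fin0 a k (!decide (m = 1)))

/-- The dispatcher. -/
def disp (k : ℕ) : ℕ → ℕ → Prog (κ ⊕ Fin k)
  | 0, _ => .seq (drp a k) (.seq (drp a k) (fin0 a k true))
  | fuel + 1, j => .ite (Sum.inl a) isT (.seq (.pop (Sum.inl a)) (.seq (.pop (Sum.inl a))
      (disp k fuel (j + 1)))) (.seq (.pop (Sum.inl a)) (br a k j))

theorem run_disp_lt (f : Fin k → List Bool) (u : List Bool) (s' : St (κ ⊕ Fin k)) (t : ℕ) :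
    ∀ (m fuel j : ℕ), m < fuel → Run (br a k (j + m)) (big (single a u) f) s' t →
      Run (disp a k fuel j) (big (single a (code m ++ u)) f) s' (3 * m + 2 + t) := by
  intro m
  induction m with
  | zero =>
    intro fuel j hm h
    obtain ⟨fuel, rfl⟩ := Nat.exists_eq_succ_of_ne_zero (by omega : fuel ≠ 0)
    have h1 := (run_pop_m a false u f).seq h
    have h2 := Run.iteF (k := Sum.inl a) (p := isT) (P := .seq (.pop (Sum.inl a))
      (.seq (.pop (Sum.inl a)) (disp a k fuel (j + 1))))
      (s := big (single a (code 0 ++ u)) f) (by rw [big, Sum.elim_inl, single_self]; rfl) h1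
    have e : 1 + t + 1 = 3 * 0 + 2 + t := by ring
    rwa [e] at h2
  | succ m ih =>
    intro fuel j hm h
    obtain ⟨fuel, rfl⟩ := Nat.exists_eq_succ_of_ne_zero (by omega : fuel ≠ 0)
    have e1 : j + (m + 1) = j + 1 + m := by ring
    rw [e1] at h
    have h1 := (run_pop_m a true (false :: (code m ++ u)) f).seq
      ((run_pop_m a false (code m ++ u) f).seq (ih fuel (j + 1) (by omega) h))
    have h2 := Run.iteT (k := Sum.inl a) (p := isT) (Q := .seq (.pop (Sum.inl a)) (br a k j))
      (s := big (single a (code (m + 1) ++ u)) f)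
      (by rw [big, Sum.elim_inl, single_self]; rfl) h1
    have e : 1 + (1 + (3 * m + 2 + t)) + 1 = 3 * (m + 1) + 2 + t := by ring
    rwa [e] at h2

theorem run_disp_ge (f : Fin k → List Bool) (u : List Bool) (n : ℕ) :
    ∀ (m fuel j : ℕ), fuel ≤ m →
      Run (disp a k fuel j) (big (single a (code m ++ (code n ++ u))) f)
        (big (single a (true :: true :: (code 0 ++ u))) f) (3 * m + 3 * n + 7) := by
  intro m
  induction m with
  | zero =>
    intro fuel j hm
    obtain rfl : fuel = 0 := by omega
    have h1 := (run_drp a f (code n ++ u) 0).seq ((run_drp a f u n).seq (run_fin0 a true u f))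
    have e : 3 * 0 + 2 + (3 * n + 2 + 3) = 3 * 0 + 3 * n + 7 := by ring
    rwa [e] at h1
  | succ m ih =>
    intro fuel j hm
    rcases fuel with _ | fuel
    · have h1 := (run_drp a f (code n ++ u) (m + 1)).seq ((run_drp a f u n).seq
        (run_fin0 a true u f))
      have e : 3 * (m + 1) + 2 + (3 * n + 2 + 3) = 3 * (m + 1) + 3 * n + 7 := by ring
      rwa [e] at h1
    · have h1 := (run_pop_m a true (false :: (code m ++ (code n ++ u))) f).seq
        ((run_pop_m a false (code m ++ (code n ++ u)) f).seq (ih fuel (j + 1) (by omega)))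
      have h2 := Run.iteT (k := Sum.inl a) (p := isT)
        (Q := .seq (.pop (Sum.inl a)) (br a k j))
        (s := big (single a (code (m + 1) ++ (code n ++ u))) f)
        (by rw [big, Sum.elim_inl, single_self]; rfl) h1
      have e : 1 + (1 + (3 * m + 3 * n + 7)) + 1 = 3 * (m + 1) + 3 * n + 7 := by ring
      rwa [e] at h2

/-- The contents of the additional stacks. -/
def cts (k : ℕ) (st : List (List ℕ)) : Fin k → List Bool :=
  fun i => (st.getD i []).flatMap code

theorem cts_set {st : List (List ℕ)} (i : Fin k) (hi : (i : ℕ) < st.length) (w : List ℕ) :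
    cts k (st.set i w) = update (cts k st) i (w.flatMap code) := by
  funext j
  by_cases h : j = i
  · subst h
    rw [update_self, cts, List.getD_eq_getElem _ _ (by simpa using hi), List.getElem_set_self]
  · rw [update_of_ne h, cts, cts, List.getD_eq_getElem?_getD, List.getD_eq_getElem?_getD,
      List.getElem?_set_ne (fun h' => h (Fin.ext h'.symm))]

theorem run_disp (st : List (List ℕ)) (hst : st.length = k) (u : List Bool) (m n : ℕ) :
    ∃ t, t ≤ 3 * m + 5 * n + 5 * (exec m n st).1 + 20 ∧
      Run (disp a k (2 + 2 * k) 0) (big (single a (code m ++ (code n ++ u))) (cts k st))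
        (big (single a ((!decide (m = 1)) :: true :: (code (exec m n st).1 ++ u)))
          (cts k (exec m n st).2)) t := by
  rcases lt_or_ge m (2 + 2 * k) with hm | hm
  · by_cases h2 : 2 ≤ m
    · have hd : (!decide (m = 1)) = true := by simp; omega
      rw [hd]
      rcases Nat.even_or_odd' m with ⟨i, h3 | h3⟩
      · obtain ⟨i, rfl⟩ : ∃ i', i = i' + 1 := ⟨i - 1, by omega⟩
        have hik : i < k := by omega
        have hm' : m = 2 + 2 * i := by omega
        subst hm'
        rw [exec_pop]
        have hbr : br a k (0 + (2 + 2 * i)) = popB a ⟨i, hik⟩ := by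
          rw [br, dif_pos ⟨by omega, by omega⟩, if_pos (by omega)]
          congr 1
          simp only [Fin.mk.injEq]
          omega
        obtain ⟨l, hl⟩ : ∃ l, l = st.getD i [] := ⟨_, rfl⟩
        rw [← hl]
        have hset : cts k (st.set i l.tail) = update (cts k st) ⟨i, hik⟩ (l.tail.flatMap code) :=
          cts_set (st := st) ⟨i, hik⟩ (by simp only; omega) l.tail
        have hcts : cts k st ⟨i, hik⟩ = l.flatMap code := by rw [cts, hl]
        have r1 := run_drp a (cts k st) u n
        cases l with
        | nil =>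
          have hcs : cts k (st.set i ([] : List ℕ).tail) = cts k st := by
            rw [hset]
            rw [List.flatMap_nil] at hcts
            rw [List.tail_nil, List.flatMap_nil, ← hcts, update_eq_self]
          rw [hcs]
          have r2 : Run (.ite (Sum.inr ⟨i, hik⟩) ne (mvm a ⟨i, hik⟩) (.push (Sum.inl a) false))
              (big (single a u) (cts k st)) (big (single a (code 0 ++ u)) (cts k st)) (1 + 1) := by
            refine .iteF ?_ (run_push_m a false u _)
            rw [big, Sum.elim_inr, hcts]
            rfl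
          have r3 := r1.seq (r2.seq ((run_push_m a true _ _).seq (run_push_m a true _ _)))
          have r4 := run_disp_lt a (cts k st) (code n ++ u) _ _ (2 + 2 * i) (2 + 2 * k) 0 hm
            (by rw [hbr]; exact r3)
          exact ⟨_, by simp only [rsp]; omega, r4⟩
        | cons g w =>
          rw [hset, List.tail_cons]
          have r2 : Run (.ite (Sum.inr ⟨i, hik⟩) ne (mvm a ⟨i, hik⟩) (.push (Sum.inl a) false))
              (big (single a u) (cts k st)) (big (single a (code (g + 1) ++ u))
                (update (cts k st) ⟨i, hik⟩ (w.flatMap code))) (5 * g + 5 + 1) := by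
            refine .iteT ?_ (run_mvm a ⟨i, hik⟩ _ u _ g ?_)
            · rw [big, Sum.elim_inr, hcts]
              cases g <;> rfl
            · rw [hcts, List.flatMap_cons]
          have r3 := r1.seq (r2.seq ((run_push_m a true _ _).seq (run_push_m a true _ _)))
          have r4 := run_disp_lt a (cts k st) (code n ++ u) _ _ (2 + 2 * i) (2 + 2 * k) 0 hm
            (by rw [hbr]; exact r3)
          exact ⟨_, by simp only [rsp]; omega, r4⟩
      · obtain ⟨i, rfl⟩ : ∃ i', i = i' + 1 := ⟨i - 1, by omega⟩
        have hik : i < k := by omega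
        have hm' : m = 3 + 2 * i := by omega
        subst hm'
        rw [exec_push]
        have hbr : br a k (0 + (3 + 2 * i)) = pushB a ⟨i, hik⟩ := by
          rw [br, dif_pos ⟨by omega, by omega⟩, if_neg (by omega)]
          congr 1
          simp only [Fin.mk.injEq]
          omega
        have hset : cts k (st.set i (n :: st.getD i [])) =
            update (cts k st) ⟨i, hik⟩ (code n ++ cts k st ⟨i, hik⟩) :=
          cts_set (st := st) ⟨i, hik⟩ (by simp only; omega) _
        rw [hset]
        have r1 := (run_mvs a ⟨i, hik⟩ (cts k st) u n).seq (run_fin0 a true u _)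
        have r4 := run_disp_lt a (cts k st) (code n ++ u) _ _ (3 + 2 * i) (2 + 2 * k) 0 hm
          (by rw [hbr]; exact r1)
        exact ⟨_, by omega, r4⟩
    · have he : exec m n st = (0, st) := by rw [exec, if_pos (by omega)]
      rw [he]
      have hbr : br a k (0 + m) = .seq (drp a k) (fin0 a k (!decide (m = 1))) := by
        rw [br, dif_neg (by omega)]
        simp
      have r1 := (run_drp a (cts k st) u n).seq (run_fin0 a (!decide (m = 1)) u (cts k st))
      have r4 := run_disp_lt a (cts k st) (code n ++ u) _ _ m (2 + 2 * k) 0 hm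
        (by rw [hbr]; exact r1)
      exact ⟨_, by simp only; omega, r4⟩
  · have hd : (!decide (m = 1)) = true := by simp; omega
    have h1 : st.getD (m / 2 - 1) [] = [] := List.getD_eq_default _ _ (by omega)
    have h2 : ∀ w, st.set (m / 2 - 1) w = st := fun w => List.set_eq_of_length_le (by omega)
    have he : exec m n st = (0, st) := by
      rw [exec, if_neg (by omega)]
      split_ifs
      · rw [h1, h2]
        rfl
      · rw [h2]
    rw [he, hd]
    exact ⟨_, by simp only; omega, run_disp_ge a (cts k st) u n m (2 + 2 * k) 0 hm⟩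

end

/-! ### The loop -/

section

variable {S : Type} [Enc S] {κ : Type} [DecidableEq κ]

/-- The body of the loop. -/
def bod (a : κ) (k : ℕ) (P : Prog κ) : Prog (κ ⊕ Fin k) :=
  .seq (.pop (Sum.inl a)) (.seq (P.map Sum.inl) (.seq (.pop (Sum.inl a))
    (.seq (.pop (Sum.inl a)) (disp a k (2 + 2 * k) 0))))

/-- The loop. -/
def lp2 (a : κ) (k : ℕ) (P : Prog κ) : Prog (κ ⊕ Fin k) := .loop (Sum.inl a) isT (bod a k P)

/-- The state of the program: flag, control state, stacks. -/
def stt (a : κ) (k : ℕ) (b : Bool) (x : Conf S) : St (κ ⊕ Fin k) :=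
  big (single a (b :: code x.1)) (cts k x.2)

variable {a : κ} {k : ℕ} {P : Prog κ} {G : ℕ × S → (ℕ × ℕ) × S} {T q : Polynomial ℕ}

omit [Enc S] in
theorem length_nx (x : Conf S) : (nx G x).2.length = x.2.length := length_exec _ _ _

omit [Enc S] in
theorem length_iter (x : Conf S) (i : ℕ) : ((nx G)^[i] x).2.length = x.2.length := by
  induction i with
  | zero => rfl
  | succ i ih => rw [iterate_succ_apply', length_nx, ih]

theorem run_bod (hP : ∀ x : ℕ × S, ∃ t, t ≤ T.eval (size x) ∧
      Run P (single a (code x)) (single a (code (G x))) t)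
    (hq : ∀ x : ℕ × S, size (G x) ≤ q.eval (size x)) (x : Conf S) (hx : x.2.length = k) :
    ∃ t, 1 ≤ t ∧ t ≤ T.eval (size x.1) + 4 * q.eval (size x.1) + 5 * (nx G x).1.1 + 30 ∧
      Run (bod a k P) (stt a k true x) (stt a k (!(hl G x)) (nx G x)) t := by
  obtain ⟨τ, hτ, r⟩ := hP x.1
  obtain ⟨t, ht, r5⟩ := run_disp a x.2 hx (code (G x.1).2) (G x.1).1.1 (G x.1).1.2
  have r1 := run_pop_m (k := k) a true (code x.1) (cts k x.2)
  have r2 := run_map_inl (k := k) r (cts k x.2)
  have e : code (G x.1) = true :: true :: (code (G x.1).1.1 ++ (code (G x.1).1.2 ++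
      code (G x.1).2)) := by
    rw [code_prod, code_prod]
    simp
  rw [e] at r2
  have r3 := run_pop_m (k := k) a true (true :: (code (G x.1).1.1 ++ (code (G x.1).1.2 ++
      code (G x.1).2))) (cts k x.2)
  have r4 := run_pop_m (k := k) a true (code (G x.1).1.1 ++ (code (G x.1).1.2 ++
      code (G x.1).2)) (cts k x.2)
  refine ⟨_, ?_, ?_, r1.seq (r2.seq (r3.seq (r4.seq r5)))⟩
  · omega
  · have h1 := hq x.1
    rw [size_prod, size_prod, size_nat, size_nat] at h1
    have h2 : (nx G x).1.1 = (exec (G x.1).1.1 (G x.1).1.2 x.2).1 := rfl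
    omega

/-- Bound for the time of the loop. -/
def bnd (T q : Polynomial ℕ) (z : ℕ) : ℕ := T.eval z + 4 * q.eval z + 5 * z + 32

theorem run_lp2 (hP : ∀ x : ℕ × S, ∃ t, t ≤ T.eval (size x) ∧
      Run P (single a (code x)) (single a (code (G x))) t)
    (hq : ∀ x : ℕ × S, size (G x) ≤ q.eval (size x)) :
    ∀ (N : ℕ) (x : Conf S), x.2.length = k → hl G ((nx G)^[N] x) = true →
      (∀ i < N, hl G ((nx G)^[i] x) = false) →
      ∃ t, t + 5 * size x.1 ≤ ∑ i ∈ range (N + 1), bnd T q (size ((nx G)^[i] x).1) ∧
        Run (lp2 a k P) (stt a k true x)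
          (big (single a (false :: true :: (code 0 ++ code (G ((nx G)^[N] x).1).2)))
            (cts k ((nx G)^[N] x).2)) t := by
  intro N
  induction N with
  | zero =>
    intro x hk hx _
    rw [iterate_zero, id_eq] at hx
    obtain ⟨t, _, ht, r⟩ := run_bod hP hq x hk
    have h1 : (G x.1).1.1 = 1 := by simpa [hl] using hx
    have h2 : nx G x = ((0, (G x.1).2), x.2) := by
      rw [nx, h1]
      rfl
    rw [hx, h2] at r
    rw [h2] at ht
    simp only at ht
    refine ⟨t + 1 + 1, ?_, ?_⟩
    · rw [zero_add, sum_range_one, iterate_zero, id_eq, bnd]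
      omega
    · rw [iterate_zero, id_eq]
      refine .loopT ?_ r (.loopF ?_)
      · rw [stt, big, Sum.elim_inl, single_self]
        rfl
      · rw [stt, big, Sum.elim_inl, single_self]
        rfl
  | succ N ih =>
    intro x hk hx hlt
    obtain ⟨t2, ht2, r2⟩ := ih (nx G x) (by rw [length_nx, hk])
      (by rw [← iterate_succ_apply]; exact hx)
      (fun i hi => by rw [← iterate_succ_apply]; exact hlt (i + 1) (by omega))
    have hx0 : hl G x = false := hlt 0 (by omega)
    obtain ⟨t1, _, ht1, r1⟩ := run_bod hP hq x hk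
    rw [hx0] at r1
    rw [← iterate_succ_apply] at r2
    refine ⟨t1 + t2 + 1, ?_, .loopT ?_ r1 r2⟩
    · rw [sum_range_succ' _ (N + 1)]
      simp only [iterate_zero, id_eq]
      have e : ∀ i, (nx G)^[i + 1] x = (nx G)^[i] (nx G x) := fun i => iterate_succ_apply _ i x
      simp only [e]
      have h3 : (nx G x).1.1 ≤ size (nx G x).1 := by
        rw [size_prod, size_nat]
        omega
      have h4 : bnd T q (size x.1) =
        T.eval (size x.1) + 4 * q.eval (size x.1) + 5 * size x.1 + 32 := rfl
      omega
    · rw [stt, big, Sum.elim_inl, single_self]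
      rfl

theorem alive_lp2 (hP : ∀ x : ℕ × S, ∃ t, t ≤ T.eval (size x) ∧
      Run P (single a (code x)) (single a (code (G x))) t)
    (hq : ∀ x : ℕ × S, size (G x) ≤ q.eval (size x)) :
    ∀ (N : ℕ) (x : Conf S), x.2.length = k → (∀ i < N, hl G ((nx G)^[i] x) = false) →
      ∃ n, N ≤ n ∧ Alive (lp2 a k P) (stt a k true x) n := by
  intro N
  induction N with
  | zero =>
    intro x _ _
    exact ⟨0, le_refl _, .zero _ _⟩
  | succ N ih =>
    intro x hk hlt
    obtain ⟨n, hn, r2⟩ := ih (nx G x) (by rw [length_nx, hk])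
      (fun i hi => by rw [← iterate_succ_apply]; exact hlt (i + 1) (by omega))
    have hx0 : hl G x = false := hlt 0 (by omega)
    obtain ⟨t1, _, _, r1⟩ := run_bod hP hq x hk
    rw [hx0] at r1
    refine ⟨_, ?_, .loopNext ?_ r1 r2⟩
    · omega
    · rw [stt, big, Sum.elim_inl, single_self]
      rfl

end

theorem cts_replicate (k : ℕ) : cts k (List.replicate k []) = fun _ => [] := by
  funext i
  rw [cts]
  have : (List.replicate k ([] : List ℕ)).getD i [] = [] := by
    rw [List.getD_eq_getElem _ _ (by simp)]
    simp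
  rw [this]
  rfl

theorem eq_replicate_of_cts {k : ℕ} {st : List (List ℕ)} (hst : st.length = k)
    (h : cts k st = fun _ => []) : st = List.replicate k [] := by
  refine List.ext_getElem (by simp [hst]) fun i h1 h2 => ?_
  have h3 := congrFun h ⟨i, by omega⟩
  rw [cts, List.getD_eq_getElem _ _ h1, List.flatMap_eq_nil_iff] at h3
  rw [List.getElem_replicate]
  cases hl : st[i] with
  | nil => rfl
  | cons g w =>
    exfalso
    have := h3 g (by rw [hl]; simp)
    cases g <;> cases this

theorem single_inl {κ : Type} [DecidableEq κ] (k : ℕ) (a : κ) (u : List Bool) :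
    (single (Sum.inl a : κ ⊕ Fin k) u) = big (single a u) (fun _ => []) := by
  funext x
  rcases x with x | x
  · simp [single, big]
  · simp [single, big]

theorem exists_loop2 {S : Type} [Enc S] {G : ℕ × S → (ℕ × ℕ) × S} {out : S → List Bool}
    (hG : PT G) (hout : PT out) (k : ℕ) :
    ∃ T : Polynomial ℕ, ∀ init : List Bool → S, PT init →
      ∃ (K : Type) (_ : Fintype K) (_ : DecidableEq K) (P : Prog K) (k₀ : K) (T0 : Polynomial ℕ),
        (∀ (d : List Bool) (N : ℕ), hl G (tr G k (init d) N) = true →
          (∀ i < N, hl G (tr G k (init d) i) = false) →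
          (tr G k (init d) N).2 = List.replicate k [] →
          Outputs (progMachine P k₀) d (out (G (tr G k (init d) N).1).2) (T0.eval d.length +
            ∑ i ∈ range (N + 1), T.eval (size (tr G k (init d) i).1))) ∧
        (∀ (d x : List Bool) (t : ℕ), Outputs (progMachine P k₀) d x t → ∃ N ≤ t,
          hl G (tr G k (init d) N) = true ∧ (∀ i < N, hl G (tr G k (init d) i) = false) ∧
          (tr G k (init d) N).2 = List.replicate k [] ∧
          x = out (G (tr G k (init d) N).1).2) := by
  obtain ⟨q, hq⟩ := hG.size_le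
  obtain ⟨qO, hqO⟩ := hout.size_le
  obtain ⟨K2, _, _, P2, k2, T2, h2⟩ := hG
  obtain ⟨K3, _, _, P3, k3, T3, h3⟩ := hout
  have hPB : PB (fun z => (T2.eval z + 4 * q.eval z + 5 * z + 32) +
      (3 + (8 * q.eval z + 2) + (T3.eval (q.eval z) + (19 * qO.eval (q.eval z) + 5))) + 10) := by
    refine PB.add (PB.add (PB.add (PB.add (PB.add ?_ ?_) ?_) ?_) (PB.add (PB.add ?_ ?_)
      (PB.add ?_ (PB.add ?_ ?_)))) (PB.const _)
    · exact PB.poly _
    · exact (PB.const 4).mul (PB.poly _)
    · exact (PB.const 5).mul PB.id
    · exact PB.const _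
    · exact PB.const _
    · exact ((PB.const 8).mul (PB.poly _)).add (PB.const 2)
    · exact PB.comp T3 (PB.poly _)
    · exact (PB.const 19).mul (PB.comp qO (PB.poly _))
    · exact PB.const _
  obtain ⟨T, hT⟩ := hPB
  refine ⟨T, fun init hinit => ?_⟩
  have hA : PT (fun d : List Bool => ((0 : ℕ), init d)) := (PT.const 0).pair hinit
  obtain ⟨qA, hqA⟩ := hA.size_le
  obtain ⟨K1, _, _, P1, k1, T1, h1⟩ := hA
  let i1 : K1 → K1 ⊕ (K2 ⊕ (K3 ⊕ Unit)) := Sum.inl
  let i2 : K2 → K1 ⊕ (K2 ⊕ (K3 ⊕ Unit)) := fun k => Sum.inr (Sum.inl k)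
  let i3 : K3 → K1 ⊕ (K2 ⊕ (K3 ⊕ Unit)) := fun k => Sum.inr (Sum.inr (Sum.inl k))
  let t : K1 ⊕ (K2 ⊕ (K3 ⊕ Unit)) := Sum.inr (Sum.inr (Sum.inr ()))
  have hi1 : Injective i1 := Sum.inl_injective
  have hi2 : Injective i2 := Sum.inr_injective.comp Sum.inl_injective
  have hi3 : Injective i3 := Sum.inr_injective.comp (Sum.inr_injective.comp Sum.inl_injective)
  have n1 : i1 k1 ≠ t := by simp [i1, t]
  have n2 : i2 k2 ≠ t := by simp [i2, t]
  have n3 : i3 k3 ≠ t := by simp [i3, t]
  have hP : ∀ x : ℕ × S, ∃ τ, τ ≤ T2.eval (size x) ∧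
      Run (P2.map i2) (single (i2 k2) (code x)) (single (i2 k2) (code (G x))) τ := by
    intro x
    obtain ⟨τ, hτ, r⟩ := h2 x
    refine ⟨τ, hτ, ?_⟩
    have := embed r i2 hi2 (single (i2 k2) (code x)) (single_self _ _)
      (fun k hk => single_ne (fun h => hk (hi2 h)) _)
    rwa [update_single] at this
  -- the first part
  have hfirst : ∀ d : List Bool, ∃ τ, τ ≤ (11 * d.length + 3) + (T1.eval (4 * d.length + 1) +
      ((8 * qA.eval (4 * d.length + 1) + 2) + 1)) ∧
      Run (.seq (rdin (i1 k1) t) (.seq (P1.map i1) (.seq (mvv (i1 k1) (i2 k2) t)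
        (.push (i2 k2) true)))) (single (i1 k1) d)
        (single (i2 k2) (true :: code ((0 : ℕ), init d))) τ := by
    intro d
    obtain ⟨τ1, hτ1, r1⟩ := run_rdin n1 d
    obtain ⟨τ2, hτ2, r2⟩ := h1 d
    have s2 := embed r2 i1 hi1 (single (i1 k1) (code d)) (single_self _ _)
      (fun k hk => single_ne (fun h => hk (hi1 h)) _)
    rw [update_single] at s2
    have s3 := run_mvv_single n1 n2 (code ((0 : ℕ), init d))
    have s4 : Run (.push (i2 k2) true) (single (i2 k2) (code ((0 : ℕ), init d)))
        (single (i2 k2) (true :: code ((0 : ℕ), init d))) 1 := by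
      have := Run.push (i2 k2) true (single (i2 k2) (code ((0 : ℕ), init d)))
      rwa [update_single, single_self] at this
    refine ⟨_, ?_, .seq r1 (.seq s2 (.seq s3 s4))⟩
    have b1 := hqA d
    have b2 := eval_mono qA (size_listBool d)
    have b3 := eval_mono T1 (size_listBool d)
    rw [length_code]
    omega
  -- the last part
  have hlast : ∀ c : S, ∃ τ, τ ≤ 3 + ((8 * size c + 2) +
      (T3.eval (size c) + (19 * qO.eval (size c) + 5))) ∧
      Run (.seq (.pop (i2 k2)) (.seq (.pop (i2 k2)) (.seq (.pop (i2 k2))
        (.seq (mvv (i2 k2) (i3 k3) t) (.seq (P3.map i3)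
        (.seq (wrout (i3 k3) t) (mvv (i3 k3) (i1 k1) t)))))))
        (single (i2 k2) (false :: true :: (code 0 ++ code c))) (single (i1 k1) (out c)) τ := by
    intro c
    have s0 : ∀ (b : Bool) (u : List Bool), Run (.pop (i2 k2)) (single (i2 k2) (b :: u))
        (single (i2 k2) u) 1 := by
      intro b u
      have := Run.pop (i2 k2) (single (i2 k2) (b :: u))
      rwa [update_single, single_self, List.tail_cons] at this
    have s2 := run_mvv_single n2 n3 (code c)
    obtain ⟨τ3, hτ3, r3⟩ := h3 c
    have s3 := embed r3 i3 hi3 (single (i3 k3) (code c)) (single_self _ _)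
      (fun k hk => single_ne (fun h => hk (hi3 h)) _)
    rw [update_single] at s3
    obtain ⟨τ4, hτ4, s4⟩ := run_wrout n3 (out c)
    have s5 := run_mvv_single n3 n1 (out c)
    refine ⟨_, ?_, .seq (s0 _ _) (.seq (s0 _ _) (.seq (s0 _ _)
      (.seq s2 (.seq s3 (.seq s4 s5)))))⟩
    have b1 := hqO c
    have b3 := length_le_size (out c)
    rw [length_code]
    omega
  let PP : Prog ((K1 ⊕ (K2 ⊕ (K3 ⊕ Unit))) ⊕ Fin k) :=
    .seq ((Prog.seq (rdin (i1 k1) t) (.seq (P1.map i1) (.seq (mvv (i1 k1) (i2 k2) t)
        (.push (i2 k2) true)))).map Sum.inl)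
      (.seq (lp2 (i2 k2) k (P2.map i2)) ((Prog.seq (.pop (i2 k2)) (.seq (.pop (i2 k2))
        (.seq (.pop (i2 k2)) (.seq (mvv (i2 k2) (i3 k3) t) (.seq (P3.map i3)
        (.seq (wrout (i3 k3) t) (mvv (i3 k3) (i1 k1) t))))))).map Sum.inl))
  have hPB0 : PB (fun n => (11 * n + 3) + (T1.eval (4 * n + 1) +
      ((8 * qA.eval (4 * n + 1) + 2) + 1))) :=
    (((PB.const 11).mul PB.id).add (PB.const 3)).add ((PB.comp T1 (((PB.const 4).mul
      PB.id).add (PB.const 1))).add ((((PB.const 8).mul (PB.comp qA (((PB.const 4).mul
      PB.id).add (PB.const 1)))).add (PB.const 2)).add (PB.const 1)))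
  obtain ⟨T0, hT0⟩ := hPB0
  have hlen : ∀ (d : List Bool) (N : ℕ), (tr G k (init d) N).2.length = k := by
    intro d N
    rw [tr, length_iter]
    simp
  have hrun : ∀ (d : List Bool) (N : ℕ), hl G (tr G k (init d) N) = true →
      (∀ i < N, hl G (tr G k (init d) i) = false) →
      ∃ τ, τ + 1 ≤ T0.eval d.length + ∑ i ∈ range (N + 1), T.eval (size (tr G k (init d) i).1) ∧
        Run PP (single (Sum.inl (i1 k1)) d)
          (big (single (i1 k1) (out (G (tr G k (init d) N).1).2))
            (cts k (tr G k (init d) N).2)) τ := by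
    intro d N hN hlt
    obtain ⟨τ1, hτ1, r1⟩ := hfirst d
    obtain ⟨τ2, hτ2, r2⟩ := run_lp2 (k := k) hP hq N ((0, init d), List.replicate k [])
      (by simp) hN hlt
    obtain ⟨τ3, hτ3, r3⟩ := hlast (G (tr G k (init d) N).1).2
    have m1 := run_map_inl (k := k) r1 (fun _ => [])
    rw [← single_inl] at m1
    have m3 := run_map_inl (k := k) r3 (cts k (tr G k (init d) N).2)
    rw [stt, cts_replicate] at r2
    refine ⟨_, ?_, .seq m1 (.seq r2 m3)⟩
    have b0 := hT0 d.length
    have b1 : ∑ i ∈ range N, bnd T2 q (size ((nx G)^[i]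
        ((0, init d), List.replicate k [])).1) ≤
        ∑ i ∈ range N, T.eval (size (tr G k (init d) i).1) := by
      refine Finset.sum_le_sum fun i _ => ?_
      have h5 := hT (size (tr G k (init d) i).1)
      simp only at h5
      rw [bnd]
      rw [tr] at h5 ⊢
      omega
    rw [sum_range_succ] at hτ2 ⊢
    have b2 := hT (size (tr G k (init d) N).1)
    have b3 : bnd T2 q (size ((nx G)^[N] ((0, init d), List.replicate k [])).1) =
      T2.eval (size (tr G k (init d) N).1) + 4 * q.eval (size (tr G k (init d) N).1) +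
        5 * size (tr G k (init d) N).1 + 32 := rfl
    have b4 : size (G (tr G k (init d) N).1).2 ≤ q.eval (size (tr G k (init d) N).1) := by
      have := hq (tr G k (init d) N).1
      rw [size_prod] at this
      omega
    have b5 := eval_mono T3 b4
    have b6 := eval_mono qO b4
    simp only at b0 b2
    omega
  refine ⟨_, inferInstance, inferInstance, PP, Sum.inl (i1 k1), T0, ?_, ?_⟩
  · intro d N hN hlt hst
    obtain ⟨τ, hτ, r⟩ := hrun d N hN hlt
    rw [hst, cts_replicate, ← single_inl] at r
    exact outputs_of_run r hτ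
  · intro d x τ hx
    have hex : ∃ N, N ≤ τ ∧ hl G (tr G k (init d) N) = true := by
      by_contra hcon
      push Not at hcon
      have hall : ∀ i < τ + 1, hl G (tr G k (init d) i) = false := by
        intro i hi
        have := hcon i (by omega)
        simpa using this
      obtain ⟨n, hn, hal⟩ := alive_lp2 (k := k) hP hq (τ + 1) ((0, init d), List.replicate k [])
        (by simp) hall
      obtain ⟨τ1, hτ1, r1⟩ := hfirst d
      have m1 := run_map_inl (k := k) r1 (fun _ => [])
      rw [← single_inl] at m1
      rw [stt, cts_replicate] at hal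
      have := alive_le hx (.seqR m1 (.seqL hal))
      omega
    classical
    obtain ⟨hN1, hN2⟩ := Nat.find_spec hex
    have hmin : ∀ i < Nat.find hex, hl G (tr G k (init d) i) = false := by
      intro i hi
      have := Nat.find_min hex hi
      rw [not_and] at this
      have := this (by omega)
      simpa using this
    obtain ⟨τ', _, r⟩ := hrun d _ hN2 hmin
    have hfs := final_state r hx
    rw [single_inl] at hfs
    have e1 : cts k (tr G k (init d) (Nat.find hex)).2 = fun _ => [] := by
      funext i
      exact congrFun hfs (Sum.inr i)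
    have e2 : out (G (tr G k (init d) (Nat.find hex)).1).2 = x := by
      have := congrFun hfs (Sum.inl (i1 k1))
      rwa [big, big, Sum.elim_inl, Sum.elim_inl, single_self, single_self] at this
    exact ⟨Nat.find hex, hN1, hN2, hmin, eq_replicate_of_cts (hlen d _) e1, e2.symm⟩

end Pool.Agent.Lib.MP_33f9c4_lc.Ef
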