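import Pool.Agent.Lib.MP_33f9c4_lc.Cnt
import Pool.Agent.Lib.MP_33f9c4_lc.Dec

/-!
# Processing one description
-/

namespace Pool.Agent.Lib.MP_33f9c4_lc

open Pool.Agent.Lib.PolyTime Function Finset

theorem hit_iff (u : List Bool) (b : Bool) (y : List Bool) :
    hit u b y = true ↔ u ++ [b] <+: y := by
  unfold hit
  rw [decide_eq_true_iff]
  constructor
  · intro h
    refine ⟨y.drop (u.length + 1), ?_⟩
    rw [List.append_assoc]
    exact h.symm
  · rintro ⟨t, rfl⟩
    have : (u ++ [b] ++ t).drop (u.length + 1) = t := by
      have : u.length + 1 = (u ++ [b]).length := by simp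
      rw [this, List.drop_left]
    rw [this]
    simp

/-- The test fails for large times. -/
theorem test_eq_false {B n l s : ℕ} (hB : 0 < B) (hs : 2 ^ n ≤ s + 1) : test B n l s = false := by
  have h1 := le_lg hs
  have h2 : 1 * lg s ≤ B * lg s := Nat.mul_le_mul_right _ hB
  simp only [test, decide_eq_false_iff_not]
  omega

/-- Processing the description `e`. -/
theorem proc (T : Polynomial ℕ) : ∃ P : Polynomial ℕ, ∀ (B n : ℕ) (Tb : Tbl) (u e c0 c1 : List Bool),
    0 < B → u.length < n → test B n e.length (e.length + n + 1) = true →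
    ∃ N c x, Reach T (sScan ((B, (n, (Tb, u))), (e, (c0, c1))))
      (sScan ((B, (n, (Tb, u))), (nxt e,
        (open Classical in if Hp B n (u ++ [false]) e then nxt c0 else c0,
          open Classical in if Hp B n (u ++ [true]) e then nxt c1 else c1)))) N c ∧
      n ≤ x ∧ test B n e.length x = true ∧
      c ≤ P.eval (B + size Tb + c0.length + c1.length + x) := by
  classical
  obtain ⟨q, hq⟩ := size_minit_iter
  obtain ⟨r, hr⟩ := pt_parse.size_le
  let Qp : Polynomial ℕ := q.comp (r.comp (4 * Polynomial.X + 1) + Polynomial.X)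
  let Ep : Polynomial ℕ := 20 * Polynomial.X + Qp + 100
  refine ⟨(Polynomial.X + 2) * T.comp Ep, fun B n Tb u e c0 c1 hB hu ht => ?_⟩
  set s0 := e.length + n + 1 with hs0
  have hex : ∃ i, mfin (mstep^[i] (cinit e)) = true ∨ test B n e.length (s0 + i + 1) = false :=
    ⟨2 ^ n, Or.inr (test_eq_false hB (by omega))⟩
  obtain ⟨m, hm⟩ : ∃ m, m = Nat.find hex := ⟨_, rfl⟩
  have hm1 : mfin (mstep^[m] (cinit e)) = true ∨ test B n e.length (s0 + m + 1) = false := by
    rw [hm]; exact Nat.find_spec hex
  have hm2 : ∀ i < m, mfin (mstep^[i] (cinit e)) = false ∧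
      test B n e.length (s0 + i + 1) = true := by
    intro i hi
    rw [hm] at hi
    have := Nat.find_min hex hi
    rw [not_or] at this
    simpa using this
  have htest : ∀ i ≤ m, test B n e.length (s0 + i) = true := by
    intro i hi
    cases i with
    | zero => exact ht
    | succ i => exact (hm2 i (by omega)).2
  set env : Env := (B, (n, (Tb, u))) with henv
  set M := B + size Tb + c0.length + c1.length + (s0 + m) with hM
  obtain ⟨Q, hQ⟩ : ∃ Q, Q = Qp.eval M := ⟨_, rfl⟩
  have hQ' : q.eval (r.eval (4 * M + 1) + M) = Q := by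
    rw [hQ]
    simp only [Qp, Polynomial.eval_comp, Polynomial.eval_add, Polynomial.eval_mul,
      Polynomial.eval_X, Polynomial.eval_ofNat, Polynomial.eval_one]
  have hE : Ep.eval M = 20 * M + Q + 100 := by
    simp only [Ep, Polynomial.eval_add, Polynomial.eval_mul, Polynomial.eval_X,
      Polynomial.eval_ofNat, ← hQ]
  have hcfg : ∀ i ≤ m, size (mstep^[i] (cinit e)) ≤ Q := by
    intro i hi
    have h3 := hr e
    have h4 := h3.trans (eval_mono r ((size_bools e).trans (by omega : _ ≤ 4 * M + 1)))
    rw [size_prod] at h4
    have h5 := length_le_size (parse e).2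
    have h6 := hq (parse e).1 (parse e).2 i (r.eval (4 * M + 1) + M) (by omega)
    rw [hQ'] at h6
    exact h6.1
  have hsz : size ((env, (e, (c0, c1))) : Env × Cnt) ≤ 18 * M + 50 := by
    have h1 := size_bools u
    have h2 := size_bools e
    have h3 := size_bools c0
    have h4 := size_bools c1
    rw [henv]
    simp only [size_prod, size_nat]
    omega
  have hrun : ∀ i ≤ m, T.eval (size (sRun ((env, (e, (c0, c1))),
      (mstep^[i] (cinit e), s0 + i)))) ≤ T.eval (Ep.eval M) := by
    intro i hi
    refine eval_mono T ?_
    have h1 := hcfg i hi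
    rw [size_sRun, hE, size_prod]
    simp only [size_prod (x := ((mstep^[i] (cinit e), s0 + i) : Cfg × ℕ)), size_nat]
    omega
  -- the first step
  have r1 : Reach T (sScan (env, (e, (c0, c1))))
      (sRun ((env, (e, (c0, c1))), (mstep^[0] (cinit e), s0 + 0))) 1 (T.eval (Ep.eval M)) := by
    refine Reach.step rfl ?_ (eval_mono T ?_)
    · show gScan _ = _
      rw [gScan, if_neg (by simp only [henv]; omega), if_pos (by simpa only [henv, hs0] using ht)]
      rfl
    · rw [size_sScan, hE]
      omega
  -- the run
  have r2 := Reach.chain (T := T) (fun i => sRun ((env, (e, (c0, c1))),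
      (mstep^[i] (cinit e), s0 + i))) (T.eval (Ep.eval M)) m (fun i hi => by
    refine ⟨rfl, ?_, hrun i hi.le⟩
    obtain ⟨h1, h2⟩ := hm2 i hi
    show gRun _ = _
    rw [gRun, if_neg (by simp [h1]), if_pos (by simpa only [henv] using h2),
      iterate_succ_apply']
    rfl)
  -- the last step
  have r3 : Reach T (sRun ((env, (e, (c0, c1))), (mstep^[m] (cinit e), s0 + m)))
      (sScan (env, (nxt e, (if Hp B n (u ++ [false]) e then nxt c0 else c0,
          if Hp B n (u ++ [true]) e then nxt c1 else c1)))) 1 (T.eval (Ep.eval M)) := by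
    refine Reach.step rfl ?_ (hrun m le_rfl)
    show gRun _ = _
    by_cases hf : mfin (mstep^[m] (cinit e)) = true
    · rw [gRun, if_pos hf]
      have hhalt : Halts (cinit e) m := ⟨fun i hi => (hm2 i hi).1, hf⟩
      have key : ∀ (b : Bool) (c : List Bool), updc n u b (mout (mstep^[m] (cinit e))) c =
          if Hp B n (u ++ [b]) e then nxt c else c := by
        intro b c
        unfold updc
        have hiff : (decide ((mout (mstep^[m] (cinit e))).length = n) &&
            hit u b (mout (mstep^[m] (cinit e)))) = true ↔ Hp B n (u ++ [b]) e := by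
          rw [Bool.and_eq_true, decide_eq_true_iff, hit_iff]
          constructor
          · rintro ⟨h1, h2⟩
            exact ⟨m, hhalt, fun i hi => htest i hi, h1, h2⟩
          · rintro ⟨s, h1, _, h3, h4⟩
            have := h1.unique hhalt
            subst this
            exact ⟨h3, h4⟩
        by_cases h : Hp B n (u ++ [b]) e
        · rw [if_pos (hiff.mpr h), if_pos h]
        · rw [if_neg (fun h' => h (hiff.mp h')), if_neg h]
      simp only [henv, key]
    · have hf' : test B n e.length (s0 + m + 1) = false := by
        rcases hm1 with h | h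
        · exact absurd h hf
        · exact h
      have hno : ∀ b : Bool, ¬ Hp B n (u ++ [b]) e := by
        rintro b ⟨s, h1, h2, _, _⟩
        rcases Nat.lt_or_ge m s with h | h
        · have := h2 (m + 1) h
          rw [← hs0, ← Nat.add_assoc, hf'] at this
          cases this
        · rcases h.lt_or_eq with h | h
          · have := (hm2 s h).1
            rw [h1.2] at this
            cases this
          · subst h
            exact hf h1.2
      rw [gRun, if_neg hf, if_neg (by simp [henv, hf']), if_neg (hno false), if_neg (hno true)]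
  refine ⟨_, _, s0 + m, (r1.trans r2).trans r3, by omega, htest m le_rfl, ?_⟩
  rw [← hM, Polynomial.eval_mul, Polynomial.eval_comp]
  simp only [Polynomial.eval_add, Polynomial.eval_X, Polynomial.eval_ofNat]
  generalize T.eval (Ep.eval M) = C at *
  have h8 : (1 + m + 1) * C ≤ (M + 2) * C := Nat.mul_le_mul_right _ (by omega)
  have h9 : (1 + m + 1) * C = C + m * C + C := by ring
  omega

end Pool.Agent.Lib.MP_33f9c4_lc
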