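import Pool.Agent.Lib.MP_33f9c4_lc.Cnt
import Pool.Agent.Lib.MP_33f9c4_lc.Proc

/-!
# One round of the search
-/

namespace Pool.Agent.Lib.MP_33f9c4_lc

open Pool.Agent.Lib.PolyTime Function Finset

theorem lg_le_of_lt {s n : ℕ} (h : s < 2 ^ n) : lg s ≤ n := by
  have h1 := lg_le s
  have h3 : 2 ^ lg s ≤ 2 ^ n := by omega
  exact (Nat.pow_le_pow_iff_right (by norm_num : 1 < 2)).mp h3

open Classical in
/-- number of hits among the first `k` descriptions -/
noncomputable def hitn (B n : ℕ) (v : List Bool) (k : ℕ) : ℕ :=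
  ((range k).filter (fun j => Hp B n v (nxt^[j] []))).card

theorem hitn_le (B n : ℕ) (v : List Bool) (k : ℕ) : hitn B n v k ≤ k := by
  classical
  unfold hitn
  exact (card_filter_le _ _).trans (by simp)

open Classical in
theorem hitn_succ (B n : ℕ) (v : List Bool) (k : ℕ) : nxt^[hitn B n v (k + 1)] [] =
    if Hp B n v (nxt^[k] []) then nxt (nxt^[hitn B n v k] []) else nxt^[hitn B n v k] [] := by
  unfold hitn
  rw [range_add_one, filter_insert]
  split_ifs with h
  · rw [card_insert_of_notMem (by simp), iterate_succ_apply']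
  · rfl

theorem size_scan_le (B n : ℕ) (Tb : Tbl) (u e c0 c1 : List Bool) (hu : u.length ≤ n)
    (he : e.length ≤ n) (h0 : c0.length ≤ n) (h1 : c1.length ≤ n) :
    size (sScan ((B, (n, (Tb, u))), (e, (c0, c1)))) ≤ 20 * (B + size Tb + n) + 40 := by
  rw [size_sScan]
  have a1 := size_bools u
  have a2 := size_bools e
  have a3 := size_bools c0
  have a4 := size_bools c1
  simp only [size_prod, size_nat]
  omega

theorem round (T : Polynomial ℕ) : ∃ P : Polynomial ℕ, ∀ (B n : ℕ) (Tb : Tbl) (u : List Bool),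
    0 < B → u.length < n → ∃ (N c : ℕ) (x : ℕ → ℕ),
      Reach T (sScan ((B, (n, (Tb, u))), ([], ([], []))))
        (sScan ((B, (n, (Tb, ext B n u))), ([], ([], [])))) N c ∧
      (∀ k < scn B n, n ≤ x k ∧ test B n (lg k) (x k) = true) ∧
      c ≤ ∑ k ∈ range (scn B n), P.eval (B + size Tb + x k) + P.eval (B + size Tb + n) := by
  classical
  obtain ⟨P0, hP0⟩ := proc T
  refine ⟨P0.comp (3 * Polynomial.X) + T.comp (20 * Polynomial.X + 40), ?_⟩
  intro B n Tb u hB hu
  set P := P0.comp (3 * Polynomial.X) + T.comp (20 * Polynomial.X + 40) with hP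
  have evP : ∀ y, P.eval y = P0.eval (3 * y) + T.eval (20 * y + 40) := by
    intro y; simp [hP, Polynomial.eval_comp]
  set f : ℕ → S := fun k => sScan ((B, (n, (Tb, u))), (nxt^[k] [],
    (nxt^[hitn B n (u ++ [false]) k] [], nxt^[hitn B n (u ++ [true]) k] []))) with hf
  have hlg : ∀ k < scn B n, lg k < n := by
    intro k hk
    have h1 := test_of_lt_scn hk
    simp only [test, decide_eq_true_eq] at h1
    omega
  have step : ∀ k, ∃ x, k < scn B n →
      (∃ N, Reach T (f k) (f (k + 1)) N (P.eval (B + size Tb + x))) ∧ n ≤ x ∧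
        test B n (lg k) x = true := by
    intro k
    by_cases hk : k < scn B n
    · obtain ⟨N, c, x, h1, h2, h3, h4⟩ := hP0 B n Tb u (nxt^[k] [])
        (nxt^[hitn B n (u ++ [false]) k] []) (nxt^[hitn B n (u ++ [true]) k] []) hB hu
        (test_of_lt_scn hk)
      refine ⟨x, fun _ => ⟨⟨N, ?_⟩, h2, h3⟩⟩
      have e1 : f (k + 1) = sScan ((B, (n, (Tb, u))), (nxt (nxt^[k] []),
          (if Hp B n (u ++ [false]) (nxt^[k] []) then nxt (nxt^[hitn B n (u ++ [false]) k] [])
            else nxt^[hitn B n (u ++ [false]) k] [],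
          if Hp B n (u ++ [true]) (nxt^[k] []) then nxt (nxt^[hitn B n (u ++ [true]) k] [])
            else nxt^[hitn B n (u ++ [true]) k] []))) := by
        simp only [hf]
        rw [hitn_succ, hitn_succ, iterate_succ_apply']
      rw [e1]
      refine h1.mono (h4.trans ?_)
      rw [evP]
      have b0 : (nxt^[hitn B n (u ++ [false]) k] []).length ≤ n :=
        (lg_mono (hitn_le B n (u ++ [false]) k)).trans (hlg k hk).le
      have b1 : (nxt^[hitn B n (u ++ [true]) k] []).length ≤ n :=
        (lg_mono (hitn_le B n (u ++ [true]) k)).trans (hlg k hk).le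
      have b2 := eval_mono P0 (show B + size Tb + (nxt^[hitn B n (u ++ [false]) k] []).length +
        (nxt^[hitn B n (u ++ [true]) k] []).length + x ≤ 3 * (B + size Tb + x) by omega)
      omega
    · exact ⟨0, fun h => absurd h hk⟩
  choose x hx using step
  obtain ⟨N, hN⟩ := Reach.chain' f (fun k => P.eval (B + size Tb + x k)) (scn B n)
    (fun k hk => (hx k hk).1)
  have hf0 : f 0 = sScan ((B, (n, (Tb, u))), ([], ([], []))) := by
    simp [hf, hitn]
  have hlast : g (f (scn B n)) = sScan ((B, (n, (Tb, ext B n u))), ([], ([], []))) := by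
    simp only [hf, g_scan, gScan]
    rw [if_neg (not_le.mpr hu)]
    have h1 : test B n (nxt^[scn B n] []).length ((nxt^[scn B n] []).length + n + 1) = false :=
      test_scn B n
    rw [h1]
    simp only [Bool.false_eq_true, if_false]
    have h2 : nlt (nxt^[hitn B n (u ++ [true]) (scn B n)] [])
        (nxt^[hitn B n (u ++ [false]) (scn B n)] []) =
        decide (cnt B n (u ++ [true]) < cnt B n (u ++ [false])) := by
      rw [Bool.eq_iff_iff, nlt_iff, nval_iter, nval_iter, decide_eq_true_iff]
      rfl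
    rw [h2]
    rfl
  have hsz : T.eval (size (f (scn B n))) ≤ P.eval (B + size Tb + n) := by
    have hs := scn_lt B n
    have h1 := size_scan_le B n Tb u (nxt^[scn B n] [])
      (nxt^[hitn B n (u ++ [false]) (scn B n)] []) (nxt^[hitn B n (u ++ [true]) (scn B n)] [])
      hu.le (lg_le_of_lt hs) (lg_le_of_lt ((hitn_le _ _ _ _).trans_lt hs))
      (lg_le_of_lt ((hitn_le _ _ _ _).trans_lt hs))
    have h2 := eval_mono T h1
    rw [evP]
    exact h2.trans (Nat.le_add_left _ _)
  have h3 := hN.trans (Reach.step (b := _) rfl hlast hsz)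
  rw [hf0] at h3
  exact ⟨N + 1, _, x, h3, fun k hk => (hx k hk).2, le_refl _⟩

end Pool.Agent.Lib.MP_33f9c4_lc
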