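import Pool.Agent.Lib.MP_33f9c4_lc.Search2

/-!
# The simulation of the fixed table
-/

namespace Pool.Agent.Lib.MP_33f9c4_lc.Ef

open Pool.Agent.Lib.PolyTime Function Finset Turing

set_option synthInstance.maxSize 2000

/-- The part of the output which is read. -/
def tk (x : X) (y : List Bool) : List Bool :=
  Sum.elim (fun _ => y) (fun z => y.take (z.1.2.1 + 1)) x

/-! ### Bounds for the entries, total contents -/

/-- A bound for the fields of the table. -/
def mx (V : Tbl) : ℕ := (V.map (fun r => r.sum)).sum + 3

theorem getD_mem_or {α : Type} (l : List α) (i : ℕ) (d : α) : l.getD i d ∈ l ∨ l.getD i d = d := by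
  by_cases h : i < l.length
  · left
    rw [List.getD_eq_getElem _ _ h]
    exact List.getElem_mem h
  · right
    exact List.getD_eq_default _ _ (not_lt.mp h)

theorem fl_le (V : Tbl) (q i : ℕ) : fl V q i ≤ mx V := by
  unfold fl mx
  rcases getD_mem_or V q [] with h | h
  · have h1 := List.le_sum_of_mem (List.mem_map_of_mem (f := fun r : List ℕ => r.sum) h)
    rcases getD_mem_or (V.getD q []) i 3 with h2 | h2
    · have h3 := List.le_sum_of_mem h2
      omega
    · omega
  · rw [h]
    simp

/-- The total content of the stacks. -/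
def tot (st : List (List ℕ)) : ℕ := (st.map List.length).sum

theorem tot_set : ∀ (st : List (List ℕ)) (k : ℕ) (l : List ℕ),
    tot (st.set k l) + (st.getD k []).length ≤ tot st + l.length
  | [], k, l => by simp [tot]
  | a :: st, 0, l => by simp [tot]; omega
  | a :: st, k + 1, l => by
    have := tot_set st k l
    simp only [tot, List.set_cons_succ, List.map_cons, List.sum_cons, List.getD_cons_succ] at *
    omega

theorem set_getD (st : List (List ℕ)) (k : ℕ) : st.set k (st.getD k []) = st := by
  by_cases h : k < st.length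
  · rw [List.getD_eq_getElem _ _ h, List.set_getElem_self]
  · rw [List.set_eq_of_length_le (not_lt.mp h)]

theorem lt_of_getD {st : List (List ℕ)} {k g : ℕ} {w : List ℕ} (h : st.getD k [] = g :: w) :
    k < st.length := by
  by_contra hk
  rw [List.getD_eq_default _ _ (not_lt.mp hk)] at h
  cases h

theorem getD_set_self {st : List (List ℕ)} {k : ℕ} (w : List ℕ) (h : k < st.length) :
    (st.set k w).getD k [] = w := by
  rw [List.getD_eq_getElem _ _ (by simpa using h), List.getElem_set_self]

theorem getD_set_ne {st : List (List ℕ)} {k j : ℕ} (w : List ℕ) (h : k ≠ j) :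
    (st.set k w).getD j [] = st.getD j [] := by
  rw [List.getD_eq_getElem?_getD, List.getD_eq_getElem?_getD, List.getElem?_set_ne h]

/-- All symbols on the stacks are bounded. -/
def bdd (V : Tbl) (st : List (List ℕ)) : Prop := ∀ l ∈ st, ∀ g ∈ l, g ≤ mx V

theorem bdd.getD {V : Tbl} {st : List (List ℕ)} (h : bdd V st) (k : ℕ) :
    ∀ g ∈ st.getD k [], g ≤ mx V := by
  intro g hg
  rcases getD_mem_or st k [] with h1 | h1
  · exact h _ h1 g hg
  · rw [h1] at hg
    cases hg

theorem bdd.set {V : Tbl} {st : List (List ℕ)} (h : bdd V st) (k : ℕ) {w : List ℕ}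
    (hw : ∀ g ∈ w, g ≤ mx V) : bdd V (st.set k w) := by
  intro l hl g hg
  rcases List.mem_or_eq_of_mem_set hl with h1 | h1
  · exact h l h1 g hg
  · subst h1
    exact hw g hg

theorem rsp_le {V : Tbl} {w : List ℕ} (h : ∀ g ∈ w, g ≤ mx V) : rsp w ≤ mx V + 1 := by
  cases w with
  | nil => simp [rsp]
  | cons g w =>
    have := h g (by simp)
    simp only [rsp]
    omega

theorem hdi_eq (w : List ℕ) : hdi w = rsp w + 2 := by cases w <;> rfl

theorem size_bl (b : Bool) : size b ≤ 3 := by cases b <;> decide

/-! ### Running -/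

theorem size_run_le (x : X) (b : Bool) (q r : ℕ) (s : List Bool) {m : ℕ} (hq : q ≤ m)
    (hr : r ≤ m + 1) :
    size (r, cRun (b, (x, (q, s)))) ≤ size x + 4 * s.length + 4 * m + 30 := by
  have h1 := size_bl b
  have h2 := size_bools s
  rw [size_prod]
  simp only [size_cRun]
  simp only [size_prod, size_nat]
  omega

theorem run_step {V : Tbl} {x : X} {q : ℕ} {s : List Bool} {st : List (List ℕ)} {L : ℕ}
    (h0 : fl V q 0 < 3) (ht : tst x s = true) (hb : bdd V st) (hq : q ≤ mx V)
    (hL : size x + 4 * s.length + 4 * mx V + 30 ≤ L) :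
    ∃ N, 1 ≤ N ∧ N ≤ 2 ∧ Rn V L ((0, cRun (false, (x, (q, s)))), st)
      ((0, cRun (false, (x, ((mstep (V, (q, st))).2.1, nxt s)))), (mstep (V, (q, st))).2.2) N := by
  have hf : ∀ i, fld (V, (q, st)) i = fl V q i := fun _ => rfl
  have hstk : stk (V, (q, st)) = st.getD (fl V q 1) [] := rfl
  have hsz : ∀ b r, r ≤ mx V + 1 → size (r, cRun (b, (x, (q, s)))) ≤ L := fun b r hr =>
    (size_run_le x b q r s hq hr).trans hL
  by_cases h1 : fl V q 0 = 0
  · refine ⟨1, le_rfl, by omega, ?_⟩
    have hm : mstep (V, (q, st)) =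
        (V, (fl V q 3, st.set (fl V q 1) (fl V q 2 :: st.getD (fl V q 1) []))) := by
      rw [mstep, hf, if_pos h1]
      rfl
    rw [hm]
    refine Rn.step (m := 3 + 2 * fl V q 1) (a := fl V q 2) ?_ (by omega) (exec_push _ _ _)
      (hsz _ _ (by omega))
    rw [G_run, gRun, if_neg (by simp), if_neg (by simp; omega), if_pos (by simpa using ht),
      if_pos (by simpa using h1)]
  · refine ⟨2, by omega, le_rfl, ?_⟩
    obtain ⟨w, hw⟩ : ∃ w, w = st.getD (fl V q 1) [] := ⟨_, rfl⟩
    have hwb : ∀ g ∈ w, g ≤ mx V := by
      rw [hw]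
      exact hb.getD _
    have r1 : Rn V L ((0, cRun (false, (x, (q, s)))), st)
        ((rsp w, cRun (true, (x, (q, s)))), st.set (fl V q 1) w.tail) 1 := by
      refine Rn.step (m := 2 + 2 * fl V q 1) (a := 0) ?_ (by omega) ?_ (hsz _ _ (by omega))
      · rw [G_run, gRun, if_neg (by simp), if_neg (by simp; omega), if_pos (by simpa using ht),
          if_neg (by simpa using h1)]
      · rw [exec_pop, ← hw]
    by_cases h2 : fl V q 0 = 1
    · have hm : mstep (V, (q, st)) =
          (V, (fl V q (rsp w + 2), st.set (fl V q 1) w.tail)) := by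
        rw [mstep, hf, if_neg h1, if_pos h2, hstk, ← hw, hdi_eq]
        rfl
      rw [hm]
      refine Rn.trans (N := 1) (M := 1) r1 (Rn.step (m := 0) (a := 0) ?_ (by omega)
        (exec_zero _ _) (hsz _ _ (rsp_le hwb)))
      rw [G_run, gRun, if_pos rfl, if_neg (by simp [h2])]
    · have h3 : fl V q 0 = 2 := by omega
      have hm : mstep (V, (q, st)) = (V, (fl V q (rsp w + 2), st)) := by
        rw [mstep, hf, if_neg h1, if_neg h2, if_pos h3, hstk, ← hw, hdi_eq]
        rfl
      rw [hm]
      refine Rn.trans (N := 1) (M := 1) r1 ?_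
      cases hw' : w with
      | nil =>
        have e1 : st.set (fl V q 1) ([] : List ℕ).tail = st := by
          have := set_getD st (fl V q 1)
          rwa [← hw, hw'] at this
        rw [e1]
        refine Rn.step (m := 0) (a := 0) ?_ (by omega) (exec_zero _ _)
          (hsz _ _ (by simp [rsp]))
        rw [G_run, gRun, if_pos rfl, if_neg (by simp [rsp])]
      | cons g w' =>
        have hk : fl V q 1 < st.length := lt_of_getD (hw'.symm.trans hw).symm
        refine Rn.step (m := 3 + 2 * fl V q 1) (a := g) ?_ (by omega) ?_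
          (hsz _ _ (by rw [← hw']; exact rsp_le hwb))
        · rw [G_run, gRun, if_pos rfl, if_pos (by simp [h3, rsp])]
          rfl
        · rw [exec_push, List.tail_cons, getD_set_self _ hk, List.set_set]
          have := set_getD st (fl V q 1)
          rw [← hw, hw'] at this
          rw [this]

/-! ### The configurations of the simulated machine -/

theorem cf_fst (V : Tbl) (e : List Bool) (i : ℕ) : (mstep^[i] (minit V e)).1 = V := by
  induction i with
  | zero => rfl
  | succ i ih =>
    rw [iterate_succ_apply', mstep]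
    split_ifs <;> exact ih

theorem cf_eq (V : Tbl) (e : List Bool) (i : ℕ) : mstep^[i] (minit V e) =
    (V, ((mstep^[i] (minit V e)).2.1, (mstep^[i] (minit V e)).2.2)) := by
  conv_lhs => rw [← Prod.mk.eta (p := mstep^[i] (minit V e)), cf_fst]

theorem mstep_inv {V : Tbl} {q : ℕ} {st : List (List ℕ)} {m : ℕ} (hq : q ≤ mx V)
    (hl : st.length = V.length + 1) (hb : bdd V st) (ht : tot st ≤ m) :
    (mstep (V, (q, st))).2.1 ≤ mx V ∧ (mstep (V, (q, st))).2.2.length = V.length + 1 ∧
      bdd V (mstep (V, (q, st))).2.2 ∧ tot (mstep (V, (q, st))).2.2 ≤ m + 1 := by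
  have hf : ∀ i, fld (V, (q, st)) i ≤ mx V := fun i => fl_le V q i
  have hgb : ∀ g ∈ stk (V, (q, st)), g ≤ mx V := hb.getD _
  rw [mstep]
  split_ifs
  · refine ⟨hf _, ?_, ?_, ?_⟩
    · simpa using hl
    · refine hb.set _ ?_
      intro g hg
      rcases List.mem_cons.mp hg with h | h
      · rw [h]
        exact hf _
      · exact hgb g h
    · have := tot_set st (fld (V, (q, st)) 1) (fld (V, (q, st)) 2 :: stk (V, (q, st)))
      have h2 : (stk (V, (q, st))).length = (st.getD (fld (V, (q, st)) 1) []).length := rfl
      simp only [List.length_cons] at this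
      show tot (st.set _ _) ≤ _
      omega
  · refine ⟨hf _, ?_, ?_, ?_⟩
    · simpa using hl
    · exact hb.set _ fun g hg => hgb g (List.mem_of_mem_tail hg)
    · have := tot_set st (fld (V, (q, st)) 1) (stk (V, (q, st))).tail
      have h2 : (stk (V, (q, st))).length = (st.getD (fld (V, (q, st)) 1) []).length := rfl
      simp only [List.length_tail] at this
      show tot (st.set _ _) ≤ _
      omega
  · exact ⟨hf _, hl, hb, ht.trans (by omega)⟩
  · exact ⟨hq, hl, hb, ht.trans (by omega)⟩

theorem cf_inv (V : Tbl) (e : List Bool) (i : ℕ) :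
    (mstep^[i] (minit V e)).2.1 ≤ mx V ∧ (mstep^[i] (minit V e)).2.2.length = V.length + 1 ∧
      bdd V (mstep^[i] (minit V e)).2.2 ∧ tot (mstep^[i] (minit V e)).2.2 ≤ e.length + i := by
  induction i with
  | zero =>
    refine ⟨by simp [minit], by simp [minit], ?_, ?_⟩
    · intro l hl g hg
      simp only [iterate_zero, id_eq, minit, List.mem_cons, List.mem_replicate] at hl
      rcases hl with h | h
      · subst h
        simp only [List.mem_map] at hg
        obtain ⟨b, _, rfl⟩ := hg
        unfold mx
        split_ifs <;> omega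
      · rw [h.2] at hg
        cases hg
    · simp [minit, tot]
  | succ i ih =>
    obtain ⟨h1, h2, h3, h4⟩ := ih
    rw [iterate_succ_apply', cf_eq]
    have := mstep_inv h1 h2 h3 h4
    exact this

theorem fl_cf (V : Tbl) (e : List Bool) (i j : ℕ) :
    fld (mstep^[i] (minit V e)) j = fl V (mstep^[i] (minit V e)).2.1 j := by
  rw [fld, cf_fst]
  rfl

/-! ### Loading -/

theorem load_aux (V : Tbl) (x : X) (L : ℕ) : ∀ (l : List Bool) (st : List (List ℕ)),
    0 < st.length → size x + 4 * l.length + 20 ≤ L →
    Rn V L ((0, cLoad (x, l)), st) ((0, cRun (false, (x, (0, [])))),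
      st.set 0 ((l.reverse.map fun b => if b then 1 else 0) ++ st.getD 0 [])) (l.length + 1) := by
  intro l
  have hsz : ∀ l : List Bool, size (0, cLoad (x, l)) ≤ size x + 4 * l.length + 20 := by
    intro l
    have := size_bools l
    rw [size_prod]
    simp only [size_cLoad]
    simp only [size_prod, size_nat]
    omega
  induction l with
  | nil =>
    intro st _ hL
    rw [List.reverse_nil, List.map_nil, List.nil_append, set_getD, List.length_nil]
    refine Rn.step (m := 0) (a := 0) ?_ (by omega) (exec_zero _ _) ((hsz _).trans hL)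
    rw [G_load, gLoad, if_pos rfl]
  | cons b l ih =>
    intro st h0 hL
    have r1 : Rn V L ((0, cLoad (x, b :: l)), st) ((0, cLoad (x, l)),
        st.set 0 ((if b then 1 else 0) :: st.getD 0 [])) 1 := by
      refine Rn.step (m := 3) (a := if b then 1 else 0) ?_ (by omega)
        (exec_push 0 _ _) ((hsz _).trans hL)
      rw [G_load, gLoad, if_neg (by simp)]
      cases b <;> rfl
    have r2 := ih (st.set 0 ((if b then 1 else 0) :: st.getD 0 [])) (by simpa using h0)
      (by simp only [List.length_cons] at hL; omega)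
    have r3 := r1.trans r2
    rw [getD_set_self _ h0, List.set_set] at r3
    rw [List.length_cons, List.reverse_cons, List.map_append, List.append_assoc, Nat.add_comm
      (l.length + 1) 1]
    exact r3

theorem load (V : Tbl) (x : X) (e : List Bool) {L : ℕ} (hL : size x + 4 * e.length + 20 ≤ L) :
    Rn V L ((0, cLoad (x, e.reverse)), emp V) ((0, cRun (false, (x, ((minit V e).2.1, [])))),
      (minit V e).2.2) (e.length + 1) := by
  have := load_aux V x L e.reverse (emp V) (by simp [emp]) (by simpa using hL)
  rw [List.length_reverse, List.reverse_reverse] at this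
  have h2 : (emp V).set 0 ((e.map fun b => if b then 1 else 0) ++ (emp V).getD 0 []) =
      (minit V e).2.2 := by
    simp [emp, minit, List.replicate_succ]
  rw [h2] at this
  exact this

/-- Running to step `i`. -/
theorem run_to (V : Tbl) (x : X) (e : List Bool) : ∀ (i L : ℕ),
    (∀ j < i, mfin (mstep^[j] (minit V e)) = false) → (∀ j < i, tst x (nxt^[j] []) = true) →
    size x + 4 * e.length + 4 * lg i + 4 * mx V + 50 ≤ L →
    ∃ N, i ≤ N ∧ N ≤ e.length + 1 + 2 * i ∧ Rn V L ((0, cLoad (x, e.reverse)), emp V)
      ((0, cRun (false, (x, ((mstep^[i] (minit V e)).2.1, nxt^[i] [])))),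
        (mstep^[i] (minit V e)).2.2) N := by
  intro i
  induction i with
  | zero =>
    intro L _ _ hL
    exact ⟨e.length + 1, by omega, by omega, load V x e (by omega)⟩
  | succ i ih =>
    intro L hf ht hL
    have hlg : lg i ≤ lg (i + 1) := lg_mono (by omega)
    obtain ⟨N, h1, h2, h3⟩ := ih L (fun j hj => hf j (by omega)) (fun j hj => ht j (by omega))
      (by omega)
    obtain ⟨i1, i2, i3, i4⟩ := cf_inv V e i
    have h0 : fl V (mstep^[i] (minit V e)).2.1 0 < 3 := by
      have := hf i (by omega)
      rw [mfin, decide_eq_false_iff_not, fl_cf] at this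
      omega
    obtain ⟨M, h4, h5, h6⟩ := run_step (L := L) h0 (ht i (by omega)) i3 i1 (by
      show size x + 4 * lg i + 4 * mx V + 30 ≤ L
      omega)
    rw [← cf_eq, ← iterate_succ_apply' mstep, ← iterate_succ_apply' nxt] at h6
    exact ⟨N + M, by omega, by omega, h3.trans h6⟩

/-! ### Reading -/

theorem tk_inl (B : ℕ) (y : List Bool) : tk (Sum.inl B) y = y := rfl
theorem tk_inr (z : Env × Cnt) (y : List Bool) : tk (Sum.inr z) y = y.take (z.1.2.1 + 1) := rfl
theorem mor_inl (B : ℕ) (y : List Bool) : mor (Sum.inl B) y = true := rfl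
theorem mor_inr (z : Env × Cnt) (y : List Bool) :
    mor (Sum.inr z) y = decide (y.length ≤ z.1.2.1) := rfl

theorem tk_snoc {x : X} {y : List Bool} (h : mor x y = true) (b : Bool) :
    tk x (y ++ [b]) = y ++ [b] := by
  rcases x with B | z
  · rfl
  · rw [mor_inr, decide_eq_true_iff] at h
    rw [tk_inr, List.take_of_length_le (by simp; omega)]

theorem tk_stop {x : X} {y : List Bool} (h : mor x y = false) (hy : tk x y = y)
    (w : List Bool) : tk x (y ++ w) = y := by
  rcases x with B | z
  · rw [mor_inl] at h
    cases h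
  · rw [mor_inr, decide_eq_false_iff_not] at h
    rw [tk_inr] at hy ⊢
    have h1 := congrArg List.length hy
    rw [List.length_take] at h1
    have h2 : y.length = z.1.2.1 + 1 := by omega
    rw [← h2, List.take_left]

theorem size_read_le (x : X) (b : Bool) (q r : ℕ) (s y : List Bool) {m : ℕ} (hq : q ≤ m)
    (hr : r ≤ m + 1) : size (r, cRead (b, (x, ((q, s), y)))) ≤
      size x + 4 * s.length + 4 * y.length + 4 * m + 40 := by
  have h1 := size_bl b
  have h2 := size_bools s
  have h3 := size_bools y
  rw [size_prod]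
  simp only [size_cRead]
  simp only [size_prod, size_nat]
  omega

theorem read_aux (V : Tbl) (x : X) (q : ℕ) (s : List Bool) (L : ℕ) (hq : q ≤ mx V) :
    ∀ (w : List ℕ) (st : List (List ℕ)) (y : List Bool), st.getD (fl V q 1) [] = w →
      bdd V st → tk x y = y → size x + 4 * s.length + 4 * (tk x (y ++ w.map fun g =>
        decide (fl V q (g + 2) = 1))).length + 4 * mx V + 40 ≤ L →
      ∃ (N : ℕ) (st' : List (List ℕ)), Rn V L ((0, cRead (false, (x, ((q, s), y)))), st)
        ((0, cClean (false, (x, ((s, tk x (y ++ w.map fun g => decide (fl V q (g + 2) = 1))),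
          0)))), st') N ∧ st'.length = st.length ∧ bdd V st' ∧ tot st' ≤ tot st ∧
        N + 2 * y.length ≤ 2 * (tk x (y ++ w.map fun g =>
          decide (fl V q (g + 2) = 1))).length + 2 ∧
        y.length ≤ (tk x (y ++ w.map fun g => decide (fl V q (g + 2) = 1))).length := by
  intro w
  induction w with
  | nil =>
    intro st y hst hb hy hL
    rw [List.map_nil, List.append_nil, hy] at hL ⊢
    have r1 : Rn V L ((0, cRead (false, (x, ((q, s), y)))), st)
        ((0, cRead (true, (x, ((q, s), y)))), st) 1 := by
      refine Rn.step (m := 2 + 2 * fl V q 1) (a := 0) ?_ (by omega) ?_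
        ((size_read_le x _ q _ s y hq (by omega)).trans hL)
      · rw [G_read, gRead, if_neg (by simp)]
      · rw [exec_pop, hst]
        have := set_getD st (fl V q 1)
        rw [hst] at this
        rw [List.tail_nil, this]
        rfl
    have r2 : Rn V L ((0, cRead (true, (x, ((q, s), y)))), st)
        ((0, cClean (false, (x, ((s, y), 0)))), st) 1 := by
      refine Rn.step (m := 0) (a := 0) ?_ (by omega) (exec_zero _ _)
        ((size_read_le x _ q _ s y hq (by omega)).trans hL)
      rw [G_read, gRead, if_pos rfl, if_neg (by simp)]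
    exact ⟨1 + 1, st, r1.trans r2, rfl, hb, le_rfl, by omega, le_rfl⟩
  | cons g w ih =>
    intro st y hst hb hy hL
    have hk : fl V q 1 < st.length := lt_of_getD hst
    have hgw := hb.getD (fl V q 1)
    rw [hst] at hgw
    have hg : g ≤ mx V := hgw g (by simp)
    have hb' : bdd V (st.set (fl V q 1) w) := hb.set _ fun g' hg' => hgw g' (by simp [hg'])
    have htot : tot (st.set (fl V q 1) w) ≤ tot st := by
      have := tot_set st (fl V q 1) w
      rw [hst, List.length_cons] at this
      omega
    by_cases hm : mor x y = true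
    · have e1 : y ++ (g :: w).map (fun g => decide (fl V q (g + 2) = 1)) =
          (y ++ [decide (fl V q (g + 2) = 1)]) ++
            w.map (fun g => decide (fl V q (g + 2) = 1)) := by simp
      rw [e1] at hL ⊢
      have hy' := tk_snoc hm (decide (fl V q (g + 2) = 1))
      obtain ⟨N, st', h1, h2, h3, h4, h5, h6⟩ := ih (st.set (fl V q 1) w)
        (y ++ [decide (fl V q (g + 2) = 1)]) (getD_set_self _ hk) hb' hy' hL
      rw [List.length_append, List.length_singleton] at h5 h6
      have r1 : Rn V L ((0, cRead (false, (x, ((q, s), y)))), st)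
          ((g + 1, cRead (true, (x, ((q, s), y)))), st.set (fl V q 1) w) 1 := by
        refine Rn.step (m := 2 + 2 * fl V q 1) (a := 0) ?_ (by omega) ?_
          ((size_read_le x _ q _ s y hq (by omega)).trans (by omega))
        · rw [G_read, gRead, if_neg (by simp)]
        · rw [exec_pop, hst]
          rfl
      have r2 : Rn V L ((g + 1, cRead (true, (x, ((q, s), y)))), st.set (fl V q 1) w)
          ((0, cRead (false, (x, ((q, s), y ++ [decide (fl V q (g + 2) = 1)])))),
            st.set (fl V q 1) w) 1 := by
        refine Rn.step (m := 0) (a := 0) ?_ (by omega) (exec_zero _ _)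
          ((size_read_le x _ q _ s y hq (by omega)).trans (by omega))
        rw [G_read, gRead, if_pos rfl, if_pos (by simp [hm])]
      exact ⟨1 + 1 + N, st', (r1.trans r2).trans h1, by rw [h2, List.length_set], h3,
        h4.trans htot, by omega, by omega⟩
    · have hm' : mor x y = false := by simpa using hm
      rw [tk_stop hm' hy] at hL ⊢
      have r1 : Rn V L ((0, cRead (false, (x, ((q, s), y)))), st)
          ((g + 1, cRead (true, (x, ((q, s), y)))), st.set (fl V q 1) w) 1 := by
        refine Rn.step (m := 2 + 2 * fl V q 1) (a := 0) ?_ (by omega) ?_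
          ((size_read_le x _ q _ s y hq (by omega)).trans (by omega))
        · rw [G_read, gRead, if_neg (by simp)]
        · rw [exec_pop, hst]
          rfl
      have r2 : Rn V L ((g + 1, cRead (true, (x, ((q, s), y)))), st.set (fl V q 1) w)
          ((0, cClean (false, (x, ((s, y), 0)))), st.set (fl V q 1) w) 1 := by
        refine Rn.step (m := 0) (a := 0) ?_ (by omega) (exec_zero _ _)
          ((size_read_le x _ q _ s y hq (by omega)).trans (by omega))
        rw [G_read, gRead, if_pos rfl, if_neg (by simp [hm'])]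
      exact ⟨1 + 1, _, r1.trans r2, by rw [List.length_set], hb', htot, by omega, le_rfl⟩

/-! ### Clearing -/

theorem size_clean_le (x : X) (b : Bool) (r j : ℕ) (s y : List Bool) {m l : ℕ}
    (hr : r ≤ m + 1) (hj : j ≤ l + 1) : size (r, cClean (b, (x, ((s, y), j)))) ≤
      size x + 4 * s.length + 4 * y.length + 2 * m + 2 * l + 40 := by
  have h1 := size_bl b
  have h2 := size_bools s
  have h3 := size_bools y
  rw [size_prod]
  simp only [size_cClean]
  simp only [size_prod, size_nat]
  omega

theorem clean_one (V : Tbl) (x : X) (s y : List Bool) (j L : ℕ) (hj : j ≤ V.length)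
    (hL : size x + 4 * s.length + 4 * y.length + 2 * mx V + 2 * V.length + 40 ≤ L) :
    ∀ (w : List ℕ) (st : List (List ℕ)), st.getD j [] = w → bdd V st →
      Rn V L ((0, cClean (false, (x, ((s, y), j)))), st)
        ((0, cClean (false, (x, ((s, y), j + 1)))), st.set j []) (2 * (w.length + 1)) := by
  intro w
  induction w with
  | nil =>
    intro st hst hb
    have e1 : st.set j [] = st := by
      have := set_getD st j
      rwa [hst] at this
    have r1 : Rn V L ((0, cClean (false, (x, ((s, y), j)))), st)
        ((0, cClean (true, (x, ((s, y), j)))), st) 1 := by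
      refine Rn.step (m := 2 + 2 * j) (a := 0) ?_ (by omega) ?_
        ((size_clean_le x _ _ _ s y (m := mx V) (l := V.length) (by omega) (by omega)).trans hL)
      · rw [G_clean, gClean, if_neg (by simp), if_neg (by simpa using hj)]
      · rw [exec_pop, hst, List.tail_nil, e1]
        rfl
    have r2 : Rn V L ((0, cClean (true, (x, ((s, y), j)))), st)
        ((0, cClean (false, (x, ((s, y), j + 1)))), st) 1 := by
      refine Rn.step (m := 0) (a := 0) ?_ (by omega) (exec_zero _ _)
        ((size_clean_le x _ _ _ s y (m := mx V) (l := V.length) (by omega) (by omega)).trans hL)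
      rw [G_clean, gClean, if_pos rfl, if_pos rfl]
    rw [e1]
    exact r1.trans r2
  | cons g w ih =>
    intro st hst hb
    have hk : j < st.length := lt_of_getD hst
    have hgw := hb.getD j
    rw [hst] at hgw
    have hg : g ≤ mx V := hgw g (by simp)
    have r1 : Rn V L ((0, cClean (false, (x, ((s, y), j)))), st)
        ((g + 1, cClean (true, (x, ((s, y), j)))), st.set j w) 1 := by
      refine Rn.step (m := 2 + 2 * j) (a := 0) ?_ (by omega) ?_
        ((size_clean_le x _ _ _ s y (m := mx V) (l := V.length) (by omega) (by omega)).trans hL)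
      · rw [G_clean, gClean, if_neg (by simp), if_neg (by simpa using hj)]
      · rw [exec_pop, hst]
        rfl
    have r2 : Rn V L ((g + 1, cClean (true, (x, ((s, y), j)))), st.set j w)
        ((0, cClean (false, (x, ((s, y), j)))), st.set j w) 1 := by
      refine Rn.step (m := 0) (a := 0) ?_ (by omega) (exec_zero _ _)
        ((size_clean_le x _ _ _ s y (m := mx V) (l := V.length) (by omega) (by omega)).trans hL)
      rw [G_clean, gClean, if_pos rfl, if_neg (by omega)]
    have r3 := ih (st.set j w) (getD_set_self _ hk) (hb.set _ fun g' hg' => hgw g' (by simp [hg']))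
    rw [List.set_set] at r3
    have r4 := (r1.trans r2).trans r3
    have e2 : 1 + 1 + 2 * (w.length + 1) = 2 * ((g :: w).length + 1) := by
      rw [List.length_cons]
      ring
    rwa [e2] at r4

theorem clean_aux (V : Tbl) (x : X) (s y : List Bool) (L : ℕ)
    (hL : size x + 4 * s.length + 4 * y.length + 2 * mx V + 2 * V.length + 40 ≤ L) :
    ∀ (d j : ℕ) (st : List (List ℕ)), j + d = V.length + 1 → st.length = V.length + 1 →
      bdd V st → (∀ i < j, st.getD i [] = []) →
      ∃ N ≤ 2 * tot st + 2 * d + 1,
        Rn V L ((0, cClean (false, (x, ((s, y), j)))), st) ((0, ret x (s, y)), emp V) N := by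
  intro d
  induction d with
  | zero =>
    intro j st hj hl hb he
    have e1 : st = emp V := by
      refine List.ext_getElem (by simp [emp, hl]) fun i h1 h2 => ?_
      have := he i (by omega)
      rw [List.getD_eq_getElem _ _ h1] at this
      rw [this]
      simp [emp]
    refine ⟨1, by omega, ?_⟩
    rw [e1]
    refine Rn.step (m := 0) (a := 0) ?_ (by omega) (exec_zero _ _)
      ((size_clean_le x _ _ _ s y (m := mx V) (l := V.length) (by omega) (by omega)).trans hL)
    rw [G_clean, gClean, if_neg (by simp), if_pos (by show V.length < j; omega)]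
  | succ d ih =>
    intro j st hj hl hb he
    have r1 := clean_one V x s y j L (by omega) hL _ st rfl hb
    obtain ⟨N, h1, h2⟩ := ih (j + 1) (st.set j []) (by omega) (by simpa using hl)
      (hb.set _ (by simp)) (by
        intro i hi
        by_cases hij : i = j
        · subst hij
          exact getD_set_self _ (by omega)
        · rw [getD_set_ne _ (Ne.symm hij)]
          exact he i (by omega))
    have h3 := tot_set st j []
    rw [List.length_nil] at h3
    exact ⟨_, by omega, r1.trans h2⟩

theorem clean (V : Tbl) (x : X) (s y : List Bool) (L : ℕ) (st : List (List ℕ))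
    (hL : size x + 4 * s.length + 4 * y.length + 2 * mx V + 2 * V.length + 40 ≤ L)
    (hl : st.length = V.length + 1) (hb : bdd V st) :
    ∃ N ≤ 2 * tot st + 2 * (V.length + 1) + 1,
      Rn V L ((0, cClean (false, (x, ((s, y), 0)))), st) ((0, ret x (s, y)), emp V) N :=
  clean_aux V x s y L hL (V.length + 1) 0 st (by omega) hl hb (by omega)

/-! ### The main statements -/

theorem sub_halt (V : Tbl) : ∃ K : ℕ, ∀ (x : X) (e : List Bool) (s L : ℕ),
    Halts (minit V e) s → (∀ i < s, tst x (nxt^[i] []) = true) →
    size x + 4 * e.length + 4 * lg s + 4 * (tk x (yl V e s)).length + K ≤ L →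
    ∃ N, Rn V L ((0, cLoad (x, e.reverse)), emp V)
      ((0, ret x (nxt^[s] [], tk x (yl V e s))), emp V) N ∧ s ≤ N ∧
      N ≤ K * (s + e.length + (tk x (yl V e s)).length + 1) := by
  refine ⟨4 * mx V + 2 * V.length + 60, fun x e s L hh ht hL => ?_⟩
  obtain ⟨N, h1, h2, h3⟩ := run_to V x e s L hh.1 ht (by omega)
  obtain ⟨i1, i2, i3, i4⟩ := cf_inv V e s
  have h0 : 3 ≤ fl V (mstep^[s] (minit V e)).2.1 0 := by
    have := hh.2
    rwa [mfin, decide_eq_true_iff, fl_cf] at this
  have hy : yl V e s = ((mstep^[s] (minit V e)).2.2.getD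
      (fl V (mstep^[s] (minit V e)).2.1 1) []).map
        fun g => decide (fl V (mstep^[s] (minit V e)).2.1 (g + 2) = 1) := by
    rw [yl, mout, stk, fl_cf]
    simp only [fl_cf]
  have hlg : (nxt^[s] []).length = lg s := rfl
  have r1 : Rn V L ((0, cRun (false, (x, ((mstep^[s] (minit V e)).2.1, nxt^[s] [])))),
      (mstep^[s] (minit V e)).2.2)
      ((0, cRead (false, (x, (((mstep^[s] (minit V e)).2.1, nxt^[s] []), [])))),
        (mstep^[s] (minit V e)).2.2) 1 := by
    refine Rn.step (m := 0) (a := 0) ?_ (by omega) (exec_zero _ _)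
      ((size_run_le x _ _ _ _ i1 (by omega)).trans (by omega))
    rw [G_run, gRun, if_neg (by simp), if_pos h0]
  obtain ⟨M, st', h4, h5, h6, h7, h8, h9⟩ := read_aux V x (mstep^[s] (minit V e)).2.1
    (nxt^[s] []) L i1 _ (mstep^[s] (minit V e)).2.2 [] rfl i3 (by rcases x with B | z <;> simp [tk])
    (by rw [List.nil_append, ← hy]; omega)
  rw [List.nil_append, ← hy] at h4 h8
  rw [List.length_nil] at h8
  obtain ⟨P, h10, h11⟩ := clean V x (nxt^[s] []) (tk x (yl V e s)) L st' (by omega)
    (h5.trans i2) h6
  refine ⟨_, ((h3.trans r1).trans h4).trans h11, by omega, ?_⟩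
  have h12 : (4 * mx V + 2 * V.length + 60) * (s + e.length + (tk x (yl V e s)).length + 1) =
      (4 * mx V + 2 * V.length) * (s + e.length + (tk x (yl V e s)).length) +
        60 * (s + e.length + (tk x (yl V e s)).length) + (4 * mx V + 2 * V.length + 60) := by ring
  have h13 : 0 ≤ (4 * mx V + 2 * V.length) * (s + e.length + (tk x (yl V e s)).length) :=
    Nat.zero_le _
  omega

theorem sub_abort (V : Tbl) : ∃ K : ℕ, ∀ (x : X) (e : List Bool) (s L : ℕ),
    (∀ i ≤ s, mfin (mstep^[i] (minit V e)) = false) →
    (∀ i < s, tst x (nxt^[i] []) = true) → tst x (nxt^[s] []) = false →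
    size x + 4 * e.length + 4 * lg s + K ≤ L →
    ∃ N, Rn V L ((0, cLoad (x, e.reverse)), emp V) ((0, ret x (nxt^[s] [], [])), emp V) N ∧
      N ≤ K * (s + e.length + 1) := by
  refine ⟨4 * mx V + 2 * V.length + 60, fun x e s L hf ht hs hL => ?_⟩
  obtain ⟨N, h1, h2, h3⟩ := run_to V x e s L (fun j hj => hf j hj.le) ht (by omega)
  obtain ⟨i1, i2, i3, i4⟩ := cf_inv V e s
  have h0 : fl V (mstep^[s] (minit V e)).2.1 0 < 3 := by
    have := hf s le_rfl
    rw [mfin, decide_eq_false_iff_not, fl_cf] at this
    omega
  have hlg : (nxt^[s] []).length = lg s := rfl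
  have r1 : Rn V L ((0, cRun (false, (x, ((mstep^[s] (minit V e)).2.1, nxt^[s] [])))),
      (mstep^[s] (minit V e)).2.2)
      ((0, cClean (false, (x, ((nxt^[s] [], []), 0)))), (mstep^[s] (minit V e)).2.2) 1 := by
    refine Rn.step (m := 0) (a := 0) ?_ (by omega) (exec_zero _ _)
      ((size_run_le x _ _ _ _ i1 (by omega)).trans (by omega))
    rw [G_run, gRun, if_neg (by simp), if_neg (by simpa using h0), if_neg (by simp [hs])]
  obtain ⟨P, h10, h11⟩ := clean V x (nxt^[s] []) [] L _ (by rw [List.length_nil]; omega) i2 i3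
  refine ⟨_, (h3.trans r1).trans h11, ?_⟩
  have h12 : (4 * mx V + 2 * V.length + 60) * (s + e.length + 1) =
      (4 * mx V + 2 * V.length) * (s + e.length) +
        60 * (s + e.length) + (4 * mx V + 2 * V.length + 60) := by ring
  have h13 : 0 ≤ (4 * mx V + 2 * V.length) * (s + e.length) := Nat.zero_le _
  omega

theorem sub_loop (V : Tbl) (B : ℕ) (e : List Bool)
    (h : ∀ s, mfin (mstep^[s] (minit V e)) = false) (N : ℕ) :
    hl (G V) ((nx (G V))^[N] ((0, cLoad (Sum.inl B, e.reverse)), emp V)) = false := by
  obtain ⟨M, h1, h2, h3⟩ := run_to V (Sum.inl B) e (N + 1) _ (fun j _ => h j) (fun j _ => rfl)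
    le_rfl
  exact (h3.2 N (by omega)).1

end Pool.Agent.Lib.MP_33f9c4_lc.Ef
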