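import Pool.Agent.Lib.MP_33f9c4_lc.Cnt2
import Pool.Agent.Lib.MP_33f9c4_lc.Sub2
import Pool.Agent.Lib.MP_33f9c4_lc.Round

/-!
# One round of the search, second version
-/

namespace Pool.Agent.Lib.MP_33f9c4_lc.Ef

open Pool.Agent.Lib.PolyTime Function Finset

set_option synthInstance.maxSize 2000

open Classical in
/-- The new counter. -/
noncomputable def ctr (V : Tbl) (B n : ℕ) (v e c : List Bool) : List Bool :=
  if Hp V B n v e then nxt c else c

theorem size_z_le (B n : ℕ) (ax : List Bool × List Bool) (u e c0 c1 : List Bool)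
    (hu : u.length ≤ n) (he : e.length ≤ n) :
    size (((B, (n, (ax, u))), (e, (c0, c1))) : Env × Cnt) ≤
      20 * (B + n + c0.length + c1.length + 1) + size ax := by
  have a1 := size_bools u
  have a2 := size_bools e
  have a3 := size_bools c0
  have a4 := size_bools c1
  simp only [size_prod, size_nat]
  omega

theorem size_pair_zero {α : Type} [Enc α] (a : α) : size ((0, a) : ℕ × α) = size a + 2 := by
  rw [size_prod, size_nat]
  simp only
  omega

/-- One description. -/
theorem proc2 (V : Tbl) : ∃ K : ℕ, ∀ (B n : ℕ) (ax : List Bool × List Bool)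
    (u e c0 c1 : List Bool) (L : ℕ), u.length + 2 * lg n < n → B * lg n + e.length < n →
    K * (B + n + c0.length + c1.length + 1) + size ax ≤ L →
    ∃ N, Rn V L ((0, cScan ((B, (n, (ax, u))), (e, (c0, c1)))), emp V)
      ((0, cScan ((B, (n, (ax, u))), (nxt e, (ctr V B n (u ++ [false]) e c0,
        ctr V B n (u ++ [true]) e c1)))), emp V) N ∧
      N ≤ K * (2 ^ (n - B * lg n - e.length) + n + 1) := by
  classical
  obtain ⟨K1, hK1⟩ := sub_halt V
  obtain ⟨K2, hK2⟩ := sub_abort V
  refine ⟨2 * (K1 + K2) + 100, fun B n ax u e c0 c1 L hu he hL => ?_⟩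
  set z : Env × Cnt := ((B, (n, (ax, u))), (e, (c0, c1))) with hz
  set M := B + n + c0.length + c1.length + 1 with hM
  have hsz : size z ≤ 20 * M + size ax := size_z_le B n ax u e c0 c1 (by omega) (by omega)
  have hL' : 2 * (K1 * M) + 2 * (K2 * M) + 100 * M + size ax ≤ L := by
    have : (2 * (K1 + K2) + 100) * M = 2 * (K1 * M) + 2 * (K2 * M) + 100 * M := by ring
    omega
  have hKM1 : K1 ≤ K1 * M := Nat.le_mul_of_pos_right _ (by omega)
  have hKM2 : K2 ≤ K2 * M := Nat.le_mul_of_pos_right _ (by omega)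
  set D := n - B * lg n - e.length with hD
  have hsx : size (Sum.inr z : X) = size z + 4 := size_inr z
  -- the first step
  have r1 : Rn V L ((0, cScan z), emp V) ((0, cLoad (Sum.inr z, e.reverse)), emp V) 1 := by
    refine Rn.step (m := 0) (a := 0) ?_ (by norm_num) rfl ?_
    · rw [G_scan, gScan, if_neg (by simp only [hz]; omega), if_pos (by simp only [hz]; omega)]
    · rw [size_pair_zero, size_cScan]
      omega
  have htst : ∀ i, tst (Sum.inr z) (nxt^[i] []) = decide (lg i + B * lg n + e.length < n) :=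
    fun i => rfl
  have hex : ∃ i, mfin (mstep^[i] (minit V e)) = true ∨ tst (Sum.inr z) (nxt^[i] []) = false := by
    refine ⟨2 ^ n - 1, Or.inr ?_⟩
    rw [htst, lg_two_pow_sub_one, decide_eq_false_iff_not]
    omega
  obtain ⟨m, hm⟩ : ∃ m, m = Nat.find hex := ⟨_, rfl⟩
  have hm1 : mfin (mstep^[m] (minit V e)) = true ∨ tst (Sum.inr z) (nxt^[m] []) = false := by
    rw [hm]; exact Nat.find_spec hex
  have hm2 : ∀ i < m, mfin (mstep^[i] (minit V e)) = false ∧
      tst (Sum.inr z) (nxt^[i] []) = true := by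
    intro i hi
    rw [hm] at hi
    have := Nat.find_min hex hi
    rw [not_or] at this
    simpa using this
  have hmD : m ≤ 2 ^ D := by
    rcases Nat.eq_zero_or_pos m with h0 | h0
    · rw [h0]; exact Nat.zero_le _
    · have h1 := (hm2 (m - 1) (by omega)).2
      rw [htst, decide_eq_true_iff] at h1
      have h2 := lt_lg (m - 1)
      have h3 : 2 ^ (lg (m - 1) + 1) ≤ 2 ^ D := Nat.pow_le_pow_right (by norm_num) (by omega)
      omega
  have hlgm : lg m ≤ n := by
    have h1 : 2 ^ D < 2 ^ (D + 1) := by rw [pow_succ]; have := Nat.two_pow_pos D; omega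
    rcases Nat.eq_zero_or_pos n with h0 | h0
    · omega
    have h2 : D ≤ n := by omega
    by_contra hcon
    have h3 := lg_le m
    have h4 : 2 ^ (n + 1) ≤ 2 ^ lg m := Nat.pow_le_pow_right (by norm_num) (by omega)
    have h5 : 2 ^ (D + 1) ≤ 2 ^ (n + 1) := Nat.pow_le_pow_right (by norm_num) (by omega)
    have h6 : 2 ^ n ≤ m := by rw [pow_succ] at h4; have := Nat.two_pow_pos n; omega
    have h7 : 2 ^ (n + 1) ≤ m + 1 := by omega
    have h8 : 2 ^ D ≤ 2 ^ n := Nat.pow_le_pow_right (by norm_num) h2
    rw [pow_succ] at h7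
    have h9 : 2 ^ 1 ≤ 2 ^ n := Nat.pow_le_pow_right (by norm_num) h0
    omega
  by_cases hf : mfin (mstep^[m] (minit V e)) = true
  · have hhalt : Halts (minit V e) m := ⟨fun i hi => (hm2 i hi).1, hf⟩
    have htk : tk (Sum.inr z) (yl V e m) = (yl V e m).take (n + 1) := rfl
    have htkl : ((yl V e m).take (n + 1)).length ≤ n + 1 := List.length_take_le _ _
    obtain ⟨N, h1, _, h3⟩ := hK1 (Sum.inr z) e m L hhalt (fun i hi => (hm2 i hi).2) (by
      rw [htk, hsx]
      omega)
    rw [htk] at h1 h3
    have key : ∀ (b : Bool) (c : List Bool), updc n u b ((yl V e m).take (n + 1)) c =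
        ctr V B n (u ++ [b]) e c := by
      intro b c
      unfold updc ctr
      have hiff : (decide (((yl V e m).take (n + 1)).length = n) &&
          hit u b ((yl V e m).take (n + 1))) = true ↔ Hp V B n (u ++ [b]) e := by
        rw [Bool.and_eq_true, decide_eq_true_iff, hit_iff, List.length_take]
        constructor
        · rintro ⟨h4, h5⟩
          have h6 : (yl V e m).length = n := by omega
          rw [List.take_of_length_le (by omega)] at h5
          refine ⟨by omega, m, hhalt, fun i hi => ?_, h6, h5⟩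
          have := (hm2 i hi).2
          rwa [htst, decide_eq_true_iff] at this
        · rintro ⟨_, s, h4, _, h6, h7⟩
          have := h4.unique hhalt
          subst this
          rw [List.take_of_length_le (by omega)]
          exact ⟨by omega, h7⟩
      by_cases h : Hp V B n (u ++ [b]) e
      · rw [if_pos (hiff.mpr h), if_pos h]
      · rw [if_neg (fun h' => h (hiff.mp h')), if_neg h]
    have hret : ret (Sum.inr z) (nxt^[m] [], (yl V e m).take (n + 1)) =
        cScan ((B, (n, (ax, u))), (nxt e, (ctr V B n (u ++ [false]) e c0,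
          ctr V B n (u ++ [true]) e c1))) := by
      rw [← key, ← key]
      rfl
    rw [hret] at h1
    refine ⟨1 + N, r1.trans h1, ?_⟩
    have h4 : K1 * (m + e.length + ((yl V e m).take (n + 1)).length + 1) ≤
        K1 * (2 * (2 ^ D + n + 1)) := Nat.mul_le_mul_left _ (by omega)
    have h5 : (2 * (K1 + K2) + 100) * (2 ^ D + n + 1) = K1 * (2 * (2 ^ D + n + 1)) +
        2 * (K2 * (2 ^ D + n + 1)) + 100 * (2 ^ D + n + 1) := by ring
    omega
  · have hf' : mfin (mstep^[m] (minit V e)) = false := by simpa using hf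
    have htm : tst (Sum.inr z) (nxt^[m] []) = false := by
      rcases hm1 with h | h
      · exact absurd h hf
      · exact h
    have hle : ∀ i ≤ m, mfin (mstep^[i] (minit V e)) = false := by
      intro i hi
      rcases hi.lt_or_eq with h | h
      · exact (hm2 i h).1
      · rw [h]; exact hf'
    obtain ⟨N, h1, h3⟩ := hK2 (Sum.inr z) e m L hle (fun i hi => (hm2 i hi).2) htm (by
      rw [hsx]
      omega)
    have hno : ∀ b : Bool, ¬ Hp V B n (u ++ [b]) e := by
      rintro b ⟨_, s, h4, h5, _, _⟩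
      rcases Nat.lt_or_ge m s with h | h
      · have := h5 m h
        rw [htst, decide_eq_false_iff_not] at htm
        exact htm this
      · have h6 := h4.2
        rw [hle s h] at h6
        cases h6
    have hret : ret (Sum.inr z) (nxt^[m] [], []) =
        cScan ((B, (n, (ax, u))), (nxt e, (ctr V B n (u ++ [false]) e c0,
          ctr V B n (u ++ [true]) e c1))) := by
      have hn : ([] : List Bool).length ≠ n := by
        simp only [List.length_nil]
        omega
      have hu' : ∀ (b : Bool) (c : List Bool), updc n u b [] c = c := by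
        intro b c
        unfold updc
        rw [if_neg]
        rw [Bool.and_eq_true, decide_eq_true_iff]
        exact fun h => hn h.1
      have hc : ∀ (b : Bool) (c : List Bool), ctr V B n (u ++ [b]) e c = c := by
        intro b c
        unfold ctr
        rw [if_neg (hno b)]
      rw [hc, hc]
      show cScan (z.1, (nxt z.2.1, (updc n u false [] c0, updc n u true [] c1))) = _
      rw [hu', hu']
    rw [hret] at h1
    refine ⟨1 + N, r1.trans h1, ?_⟩
    have h4 : K2 * (m + e.length + 1) ≤
        K2 * (2 * (2 ^ D + n + 1)) := Nat.mul_le_mul_left _ (by omega)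
    have h5 : (2 * (K1 + K2) + 100) * (2 ^ D + n + 1) = K2 * (2 * (2 ^ D + n + 1)) +
        2 * (K1 * (2 ^ D + n + 1)) + 100 * (2 ^ D + n + 1) := by ring
    omega

open Classical in
/-- number of hits among the first `k` descriptions -/
noncomputable def hitn (V : Tbl) (B n : ℕ) (v : List Bool) (k : ℕ) : ℕ :=
  ((range k).filter (fun j => Hp V B n v (nxt^[j] []))).card

theorem hitn_le (V : Tbl) (B n : ℕ) (v : List Bool) (k : ℕ) : hitn V B n v k ≤ k := by
  classical
  unfold hitn
  exact (card_filter_le _ _).trans (by simp)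

theorem hitn_succ (V : Tbl) (B n : ℕ) (v : List Bool) (k : ℕ) :
    nxt^[hitn V B n v (k + 1)] [] = ctr V B n v (nxt^[k] []) (nxt^[hitn V B n v k] []) := by
  classical
  unfold hitn ctr
  rw [range_add_one, filter_insert]
  split_ifs with h
  · rw [card_insert_of_notMem (by simp), iterate_succ_apply']
  · rfl

/-- One round. -/
theorem round2 (V : Tbl) : ∃ K : ℕ, ∀ (B n : ℕ) (ax : List Bool × List Bool)
    (u : List Bool) (L : ℕ), u.length + 2 * lg n < n →
    K * (B + n + 1) + size ax ≤ L →
    ∃ N, Rn V L ((0, cScan ((B, (n, (ax, u))), ([], ([], [])))), emp V)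
      ((0, cScan ((B, (n, (ax, ext V B n u))), ([], ([], [])))), emp V) N ∧
      N ≤ K * (n + 1) * 2 ^ (n - B * lg n) := by
  classical
  obtain ⟨K0, hK0⟩ := proc2 V
  refine ⟨3 * K0 + 100, fun B n ax u L hu hL => ?_⟩
  set f : ℕ → Conf S := fun k => ((0, cScan ((B, (n, (ax, u))), (nxt^[k] [],
    (nxt^[hitn V B n (u ++ [false]) k] [], nxt^[hitn V B n (u ++ [true]) k] [])))), emp V) with hf
  have hL' : 3 * (K0 * (B + n + 1)) + 100 * (B + n + 1) + size ax ≤ L := by
    have : (3 * K0 + 100) * (B + n + 1) = 3 * (K0 * (B + n + 1)) + 100 * (B + n + 1) := by ring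
    omega
  have hlg : ∀ k < scn B n, lg k < n - B * lg n := fun k hk => lg_lt_of_lt_scn hk
  have step : ∀ k < scn B n, ∃ N ≤ K0 * (2 ^ (n - B * lg n - lg k) + n + 1),
      Rn V L (f k) (f (k + 1)) N := by
    intro k hk
    have h0 := hlg k hk
    have b0 : (nxt^[hitn V B n (u ++ [false]) k] []).length ≤ n :=
      ((lg_mono (hitn_le V B n (u ++ [false]) k)).trans h0.le).trans (by omega)
    have b1 : (nxt^[hitn V B n (u ++ [true]) k] []).length ≤ n :=
      ((lg_mono (hitn_le V B n (u ++ [true]) k)).trans h0.le).trans (by omega)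
    obtain ⟨N, h1, h2⟩ := hK0 B n ax u (nxt^[k] [])
      (nxt^[hitn V B n (u ++ [false]) k] []) (nxt^[hitn V B n (u ++ [true]) k] []) L hu
      (by show B * lg n + lg k < n; omega) (by
        have : K0 * (B + n + (nxt^[hitn V B n (u ++ [false]) k] []).length +
            (nxt^[hitn V B n (u ++ [true]) k] []).length + 1) ≤ K0 * (3 * (B + n + 1)) :=
          Nat.mul_le_mul_left _ (by omega)
        have h3 : K0 * (3 * (B + n + 1)) = 3 * (K0 * (B + n + 1)) := by ring
        omega)
    refine ⟨N, h2, ?_⟩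
    have e1 : f (k + 1) = ((0, cScan ((B, (n, (ax, u))), (nxt (nxt^[k] []),
        (ctr V B n (u ++ [false]) (nxt^[k] []) (nxt^[hitn V B n (u ++ [false]) k] []),
          ctr V B n (u ++ [true]) (nxt^[k] []) (nxt^[hitn V B n (u ++ [true]) k] []))))),
        emp V) := by
      simp only [hf]
      rw [hitn_succ, hitn_succ, iterate_succ_apply']
    rw [e1]
    exact h1
  obtain ⟨N, hN, h1⟩ := Rn.chain' f (fun k => K0 * (2 ^ (n - B * lg n - lg k) + n + 1))
    (scn B n) step
  have hf0 : f 0 = ((0, cScan ((B, (n, (ax, u))), ([], ([], [])))), emp V) := by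
    simp [hf, hitn]
  have hs := scn_lt B n
  have hs' : scn B n < 2 ^ n := hs.trans_le (Nat.pow_le_pow_right (by norm_num) (Nat.sub_le _ _))
  have hlast : Rn V L (f (scn B n))
      ((0, cScan ((B, (n, (ax, ext V B n u))), ([], ([], [])))), emp V) 1 := by
    refine Rn.step (m := 0) (a := 0) ?_ (by norm_num) rfl ?_
    · rw [G_scan, gScan, if_neg (by simp only; omega)]
      have h2 : ¬ ((nxt^[scn B n] []).length + B * lg n < n) := by
        show ¬ (lg (scn B n) + B * lg n < n)
        unfold scn
        rw [lg_two_pow_sub_one]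
        omega
      rw [if_neg (by exact h2)]
      have h3 : nlt (nxt^[hitn V B n (u ++ [true]) (scn B n)] [])
          (nxt^[hitn V B n (u ++ [false]) (scn B n)] []) =
          decide (cnt V B n (u ++ [true]) < cnt V B n (u ++ [false])) := by
        rw [Bool.eq_iff_iff, nlt_iff, nval_iter, nval_iter, decide_eq_true_iff]
        rfl
      simp only [h3]
      rfl
    · rw [size_pair_zero, size_cScan]
      have a0 : (nxt^[scn B n] []).length ≤ n := lg_le_of_lt hs'
      have a1 : (nxt^[hitn V B n (u ++ [false]) (scn B n)] []).length ≤ n :=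
        lg_le_of_lt ((hitn_le _ _ _ _ _).trans_lt hs')
      have a2 : (nxt^[hitn V B n (u ++ [true]) (scn B n)] []).length ≤ n :=
        lg_le_of_lt ((hitn_le _ _ _ _ _).trans_lt hs')
      have a3 := size_z_le B n ax u (nxt^[scn B n] [])
        (nxt^[hitn V B n (u ++ [false]) (scn B n)] [])
        (nxt^[hitn V B n (u ++ [true]) (scn B n)] []) (by omega) a0
      omega
  have h3 := h1.trans hlast
  rw [hf0] at h3
  refine ⟨N + 1, h3, ?_⟩
  have h4 : ∑ k ∈ range (scn B n), K0 * (2 ^ (n - B * lg n - lg k) + n + 1) ≤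
      K0 * (n * 2 ^ (n - B * lg n) + (n + 1) * 2 ^ (n - B * lg n)) := by
    rw [← mul_sum]
    refine Nat.mul_le_mul_left _ ?_
    simp only [Nat.add_assoc, sum_add_distrib, sum_const, card_range, smul_eq_mul]
    have h5 := sum_lg_scn_le B n
    have h6 : scn B n * (n + 1) ≤ (n + 1) * 2 ^ (n - B * lg n) := by
      rw [Nat.mul_comm]
      exact Nat.mul_le_mul_left _ hs.le
    have h7 : scn B n * (n + 1) = scn B n * n + scn B n * 1 := by ring
    omega
  have h8 : (3 * K0 + 100) * (n + 1) * 2 ^ (n - B * lg n) =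
      K0 * (n * 2 ^ (n - B * lg n) + (n + 1) * 2 ^ (n - B * lg n)) +
      (K0 * (n + 2) + 100 * (n + 1)) * 2 ^ (n - B * lg n) := by ring
  have h9 : 1 * 1 ≤ (K0 * (n + 2) + 100 * (n + 1)) * 2 ^ (n - B * lg n) :=
    Nat.mul_le_mul (by omega) (Nat.one_le_two_pow)
  omega

/-- The search for `Y V B n`. -/
theorem srch (V : Tbl) : ∃ K : ℕ, ∀ (B n : ℕ) (ax : List Bool × List Bool) (L : ℕ),
    K * (B + n + 1) + size ax ≤ L →
    ∃ N, Rn V L ((0, cScan ((B, (n, (ax, []))), ([], ([], [])))), emp V)
      ((0, dne (B, (n, (ax, Y V B n)))), emp V) N ∧ 1 ≤ N ∧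
      N ≤ K * (n + 1) ^ 2 * 2 ^ (n - B * lg n) := by
  obtain ⟨K0, hK0⟩ := round2 V
  refine ⟨K0 + 100, fun B n ax L hL => ?_⟩
  have hL' : K0 * (B + n + 1) + 100 * (B + n + 1) + size ax ≤ L := by
    have : (K0 + 100) * (B + n + 1) = K0 * (B + n + 1) + 100 * (B + n + 1) := by ring
    omega
  set W := 2 ^ (n - B * lg n) with hW
  set f : ℕ → Conf S := fun j =>
    ((0, cScan ((B, (n, (ax, (ext V B n)^[j] []))), ([], ([], [])))), emp V) with hf
  obtain ⟨N, hN, h1⟩ := Rn.chain' (V := V) (L := L) f (fun _ => K0 * (n + 1) * W)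
    (n - 2 * lg n) (fun j hj => by
      obtain ⟨N, h1, h2⟩ := hK0 B n ax ((ext V B n)^[j] []) L
        (by rw [length_ext_iter]; simp only [List.length_nil]; omega) (by omega)
      refine ⟨N, h2, ?_⟩
      rw [← iterate_succ_apply' (ext V B n)] at h1
      exact h1)
  have hYl := length_Y V B n
  have hlast : Rn V L (f (n - 2 * lg n)) ((0, dne (B, (n, (ax, Y V B n)))), emp V) 1 := by
    refine Rn.step (m := 0) (a := 0) ?_ (by norm_num) rfl ?_
    · rw [G_scan, gScan]
      change ((0, 0), if n ≤ (Y V B n).length + 2 * lg n then _ else _) = _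
      rw [if_pos (by omega)]
      rfl
    · have h2 : ((ext V B n)^[n - 2 * lg n] []).length ≤ n := by
        show (Y V B n).length ≤ n
        omega
      rw [size_pair_zero, size_cScan]
      have a3 := size_z_le B n ax ((ext V B n)^[n - 2 * lg n] []) [] [] [] h2 (Nat.zero_le _)
      simp only [List.length_nil] at a3
      omega
  refine ⟨N + 1, h1.trans hlast, by omega, ?_⟩
  rw [sum_const, card_range, smul_eq_mul] at hN
  have h3 : (n - 2 * lg n) * (K0 * (n + 1) * W) ≤ (n + 1) * (K0 * (n + 1) * W) :=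
    Nat.mul_le_mul_right _ (by omega)
  have h4 : (K0 + 100) * (n + 1) ^ 2 * W = (n + 1) * (K0 * (n + 1) * W) +
      100 * ((n + 1) ^ 2 * W) := by ring
  have h5 : 1 * 1 ≤ (n + 1) ^ 2 * W := Nat.mul_le_mul (Nat.one_le_pow _ _ (by omega))
    (Nat.one_le_two_pow)
  omega

end Pool.Agent.Lib.MP_33f9c4_lc.Ef
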