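import Pool.Agent.Lib.MP_33f9c4_lc.Loop2
import Pool.Agent.Lib.MP_33f9c4_lc.Pt2
import Pool.Agent.Lib.MP_33f9c4_lc.Base2
import Pool.Agent.Lib.MP_33f9c4_lc.Round2
import Pool.Agent.Lib.MP_33f9c4_lc.Init2
import Pool.Agent.Lib.MP_33f9c4_lc.Kt

/-!
# The machine: what its outputs are
-/

namespace Pool.Agent.Lib.MP_33f9c4_lc.Ef

open Pool.Agent.Lib.PolyTime Function Finset

set_option synthInstance.maxSize 2000

theorem hl_fin (V : Tbl) (r : ℕ) (z : List Bool) (st : List (List ℕ)) :
    hl (G V) ((r, cFin z), st) = true := by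
  simp [hl, G_fin]

theorem eq_fin_of_hl {V : Tbl} {x : Conf S} (h : hl (G V) x = true) :
    ∃ z, x.1.2 = cFin z ∧ out (G V x.1).2 = z := by
  obtain ⟨⟨r, c⟩, st⟩ := x
  simp only [hl, decide_eq_true_eq] at h
  rcases c with z | z | z | z | z | z | z | z | z | z
  · exfalso
    change (gLoad z).1.1 = 1 at h
    unfold gLoad at h
    split_ifs at h <;> simp at h
  · exfalso
    change (gRun V r z).1.1 = 1 at h
    unfold gRun at h
    split_ifs at h <;> simp only at h <;> omega
  · exfalso
    change (gRead V r z).1.1 = 1 at h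
    unfold gRead at h
    split_ifs at h <;> simp only at h <;> omega
  · exfalso
    change (gClean V r z).1.1 = 1 at h
    unfold gClean at h
    split_ifs at h <;> simp only at h <;> omega
  · exfalso
    change (gPow z).1.1 = 1 at h
    simp [gPow] at h
  · exfalso
    change (gWait z).1.1 = 1 at h
    simp [gWait] at h
  · exfalso
    change (gDbl z).1.1 = 1 at h
    simp [gDbl] at h
  · exfalso
    change (gScan z).1.1 = 1 at h
    simp [gScan] at h
  · exfalso
    change (gDec z).1.1 = 1 at h
    simp [gDec] at h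
  · exact ⟨z, rfl, rfl⟩

/-- What we know on the machine. -/
structure IsMach (V : Tbl) (B : ℕ) (T T0 : Polynomial ℕ) (U : Machine) : Prop where
  fwd : ∀ (d : List Bool) (N : ℕ), hl (G V) (tr (G V) (V.length + 1) (init B d) N) = true →
    (∀ i < N, hl (G V) (tr (G V) (V.length + 1) (init B d) i) = false) →
    (tr (G V) (V.length + 1) (init B d) N).2 = List.replicate (V.length + 1) [] →
    Outputs U d (out (G V (tr (G V) (V.length + 1) (init B d) N).1).2) (T0.eval d.length +
      ∑ i ∈ range (N + 1), T.eval (size (tr (G V) (V.length + 1) (init B d) i).1))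
  bwd : ∀ (d x : List Bool) (t : ℕ), Outputs U d x t → ∃ N ≤ t,
    hl (G V) (tr (G V) (V.length + 1) (init B d) N) = true ∧
    (∀ i < N, hl (G V) (tr (G V) (V.length + 1) (init B d) i) = false) ∧
    (tr (G V) (V.length + 1) (init B d) N).2 = List.replicate (V.length + 1) [] ∧
    x = out (G V (tr (G V) (V.length + 1) (init B d) N).1).2

section

variable {V : Tbl} {B : ℕ} {T T0 : Polynomial ℕ} {U : Machine}

theorem size_fin (x : List Bool) : size ((0, cFin x) : ℕ × S) ≤ 4 * x.length + 40 := by
  have h1 := size_bools x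
  have h2 : size ((0, cFin x) : ℕ × S) = size (0 : ℕ) + size (cFin x) + 1 := size_prod _
  rw [size_cFin, size_nat] at h2
  omega

/-- The time for a computation in two parts. -/
theorem IsMach.outputs' (hU : IsMach V B T T0 U) {d x : List Bool} {N N' L L' : ℕ}
    {b : Conf S} (h : Rn V L ((0, init B d), emp V) b N)
    (h' : Rn V L' b ((0, cFin x), emp V) N') (hL : 4 * x.length + 40 ≤ L') :
    Outputs U d x (T0.eval d.length + (N * T.eval L + (N' + 1) * T.eval L')) := by
  have h0 : Rn V (max L L') ((0, init B d), emp V) ((0, cFin x), emp V) (N + N') :=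
    (h.mono (le_max_left _ _)).trans (h'.mono (le_max_right _ _))
  have e : tr (G V) (V.length + 1) (init B d) (N + N') = ((0, cFin x), emp V) := h0.1
  have h4 := hU.fwd d (N + N') (by rw [e]; exact hl_fin _ _ _ _) (fun i hi => (h0.2 i hi).1)
    (by rw [e]; rfl)
  rw [e] at h4
  refine Outputs.mono h4 (Nat.add_le_add_left ?_ _)
  rw [Nat.add_assoc, sum_range_add]
  refine Nat.add_le_add ?_ ?_
  · rw [← smul_eq_mul, ← card_range N, ← sum_const, card_range]
    exact sum_le_sum fun i hi => eval_mono T (h.2 i (mem_range.mp hi)).2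
  · rw [← smul_eq_mul, ← card_range (N' + 1), ← sum_const, card_range]
    refine sum_le_sum fun i hi => ?_
    rw [mem_range] at hi
    have e2 : tr (G V) (V.length + 1) (init B d) (N + i) = (nx (G V))^[i] b := by
      rw [tr, Nat.add_comm, iterate_add_apply]
      congr 1
      exact h.1
    rw [e2]
    rcases Nat.lt_succ_iff_lt_or_eq.mp hi with h5 | h5
    · exact eval_mono T (h'.2 i h5).2
    · rw [h5, h'.1]
      exact eval_mono T ((size_fin x).trans hL)

theorem IsMach.outputs (hU : IsMach V B T T0 U) {d x : List Bool} {N L : ℕ}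
    (h : Rn V L ((0, init B d), emp V) ((0, cFin x), emp V) N) (hL : 4 * x.length + 40 ≤ L) :
    Outputs U d x (T0.eval d.length + (N + 1) * T.eval L) := by
  have := hU.outputs' (Rn.refl V L _) h hL
  simpa using this

theorem IsMach.out_eq (hU : IsMach V B T T0 U) {d x y : List Bool} {N L t : ℕ}
    (h : Rn V L ((0, init B d), emp V) ((0, cFin x), emp V) N)
    (h' : Outputs U d y t) : y = x ∧ N ≤ t := by
  obtain ⟨M, hM, h1, h2, _, h3⟩ := hU.bwd d y t h'
  have h4 := h.unique (hl_fin _ _ _ _) h1 h2
  subst h4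
  refine ⟨?_, hM⟩
  rw [h3]
  have e : tr (G V) (V.length + 1) (init B d) M = ((0, cFin x), emp V) := h.1
  rw [e]
  rfl

/-- If the computation never ends, there is no output. -/
theorem IsMach.not_outputs (hU : IsMach V B T T0 U) {d x : List Bool} {t : ℕ}
    (h : ∀ N, hl (G V) ((nx (G V))^[N] ((0, init B d), emp V)) = false) :
    ¬ Outputs U d x t := by
  intro h'
  obtain ⟨M, hM, h1, h2, _, h3⟩ := hU.bwd d x t h'
  have := h M
  change hl (G V) ((nx (G V))^[M] ((0, init B d), emp V)) = true at h1
  rw [this] at h1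
  cases h1

/-- Descriptions that begin with `false`. -/
theorem IsMach.base_fwd (hU : IsMach V B T T0 U) : ∃ P : Polynomial ℕ, ∀ (d : List Bool) (s : ℕ),
    Halts (minit V d) s → Outputs U (false :: d) (yl V d s)
      ((s + 1) * P.eval (d.length + (yl V d s).length + lg s)) := by
  obtain ⟨P, hP⟩ := base2 V B
  refine ⟨T0.comp (Polynomial.X + 1) + (P.comp (Polynomial.X + 1) + 1) *
    T.comp (P.comp (Polynomial.X + 1) + 4 * Polynomial.X + 40), fun d s hs => ?_⟩
  obtain ⟨N, h1, _, _, h2⟩ := hP (false :: d) s (by simp) hs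
  simp only [List.tail_cons, List.length_cons] at h1 h2
  set m := d.length + (yl V d s).length + lg s with hm
  have e1 : d.length + 1 + (yl V d s).length + lg s = m + 1 := by omega
  rw [e1] at h1
  have h3 := hU.outputs (h1.mono (L' := P.eval (m + 1) + 4 * m + 40) (by omega)) (by omega)
  refine Outputs.mono h3 ?_
  simp only [Polynomial.eval_add, Polynomial.eval_comp, Polynomial.eval_mul, Polynomial.eval_X,
    Polynomial.eval_one, Polynomial.eval_ofNat, List.length_cons]
  have h4 : P.eval (d.length + 1 + (yl V d s).length) ≤ P.eval (m + 1) :=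
    eval_mono P (by omega)
  have h5 : T0.eval (d.length + 1) ≤ T0.eval (m + 1) := eval_mono T0 (by omega)
  generalize T.eval (P.eval (m + 1) + 4 * m + 40) = τ
  generalize P.eval (m + 1) = π at *
  generalize T0.eval (m + 1) = τ0 at *
  have h6 : N + 1 ≤ (s + 1) * (π + 1) := by
    have h7 : (s + 1) * P.eval (d.length + 1 + (yl V d s).length) ≤ (s + 1) * π :=
      Nat.mul_le_mul_left _ h4
    have h8 : (s + 1) * (π + 1) = (s + 1) * π + (s + 1) := by ring
    omega
  calc T0.eval (d.length + 1) + (N + 1) * τ ≤ (s + 1) * τ0 + (s + 1) * (π + 1) * τ := by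
        refine Nat.add_le_add ?_ (Nat.mul_le_mul_right _ h6)
        exact h5.trans (Nat.le_mul_of_pos_left _ (by omega))
    _ = (s + 1) * (τ0 + (π + 1) * τ) := by ring

theorem halts_or (c : Cfg) : (∃ s, Halts c s) ∨ ∀ s, mfin (mstep^[s] c) = false := by
  classical
  by_cases h : ∃ s, mfin (mstep^[s] c) = true
  · left
    exact ⟨Nat.find h, fun i hi => by simpa using Nat.find_min h hi, Nat.find_spec h⟩
  · right
    push Not at h
    exact fun s => by simpa using h s

/-- Descriptions that do not begin with `true`. -/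
theorem IsMach.base_bwd (hU : IsMach V B T T0 U) {d x : List Bool} {t : ℕ}
    (hd : d.head? ≠ some true) (h : Outputs U d x t) : ∃ s, Halts (minit V d.tail) s ∧
      x = yl V d.tail s ∧ (s + 1) * (x.length + 1) ^ B ≤ t ∧ 2 ≤ t := by
  rcases halts_or (minit V d.tail) with ⟨s, hs⟩ | hno
  · obtain ⟨P, hP⟩ := base2 V B
    obtain ⟨N, h1, h2, h3, _⟩ := hP d s hd hs
    obtain ⟨h4, h5⟩ := hU.out_eq h1 h
    subst h4
    exact ⟨s, hs, rfl, h2.trans h5, h3.trans h5⟩
  · exact absurd h (hU.not_outputs (base2_not V B d hd hno))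

/-- Cheap descriptions. -/
theorem IsMach.hp (hU : IsMach V B T T0 U) {d x : List Bool} {t : ℕ}
    (hd : d.head? ≠ some true) (h : Outputs U d x t) (hlt : 2 ^ d.length * t < 2 ^ x.length) :
    Hp V B x.length x d.tail := by
  obtain ⟨s, hs, hx, ht, _⟩ := hU.base_bwd hd h
  set n := x.length with hn
  have key : ∀ i, i < s + 1 → lg i + B * lg n + d.tail.length < n := by
    intro i hi
    have h1 : 2 ^ lg i * (2 ^ lg n) ^ B ≤ t := by
      refine le_trans (Nat.mul_le_mul ?_ (Nat.pow_le_pow_left (lg_le n) B)) ht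
      exact (lg_le i).trans (by omega)
    rw [← pow_mul, ← pow_add] at h1
    have h2 : 2 ^ (d.length + (lg i + lg n * B)) < 2 ^ n := by
      rw [pow_add]
      exact lt_of_le_of_lt (Nat.mul_le_mul_left _ h1) hlt
    have h3 := (Nat.pow_lt_pow_iff_right (by norm_num : 1 < 2)).mp h2
    have h4 : d.tail.length ≤ d.length := by simp
    rw [mul_comm B]
    omega
  refine ⟨?_, s, hs, fun i hi => key i (by omega), by rw [← hx], by rw [← hx]⟩
  have := key 0 (by omega)
  omega

/-- Every output of the simulated machine is an output. -/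
theorem IsMach.exists_output (hU : IsMach V B T T0 U) {d : List Bool} {s : ℕ}
    (h : Halts (minit V d) s) : ∃ d' t, Outputs U d' (yl V d s) t := by
  obtain ⟨P, hP⟩ := hU.base_fwd
  exact ⟨_, _, hP d s h⟩

end

end Pool.Agent.Lib.MP_33f9c4_lc.Ef
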