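import Mathlib
import Pool.Agent.Lib.MP_33f9c4_lc.Univ

/-!
# Every machine is simulated exactly by a table machine
-/

namespace Pool.Agent.Lib.MP_33f9c4_lc

namespace UV2

open UV Turing TM2.Stmt

section general

variable {K : Type} [DecidableEq K] {Γ : K → Type} {Λ σ : Type}
variable {m : Λ → TM2.Stmt Γ Λ σ} {ix : K → ℕ} {code : ∀ k, Γ k → ℕ}
  {dec : ∀ k, ℕ → Option (Γ k)} {s : ℕ} {idx : TM2.Stmt Γ Λ σ → σ → ℕ} {k₁ : K} {o : Γ k₁ → Bool}
  {T : Tbl} {n₀ : ℕ} {V : ∀ k, Set (Γ k)} {Q : Set (TM2.Stmt Γ Λ σ)}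

/-- the simulation of a statement that does not halt takes at least one step -/
lemma sim_aux2 (hG : Good m ix code dec s idx k₁ o T n₀ V Q) (q : TM2.Stmt Γ Λ σ) :
    ∀ (v : σ) (S : ∀ k, List (Γ k)) (c : Cfg), R ix code idx T n₀ V q v S c → q ∈ Q →
      ∀ l v' S', TM2.stepAux q v S = ⟨some l, v', S'⟩ →
        ∃ n, 1 ≤ n ∧ R ix code idx T n₀ V (m l) v' S' (mstep^[n] c) := by
  have lift : ∀ {q q' : TM2.Stmt Γ Λ σ} {v v' : σ} {S S' : ∀ k, List (Γ k)} {c : Cfg},
      TM2.stepAux q v S = TM2.stepAux q' v' S' →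
      (∀ l v'' S'', TM2.stepAux q' v' S' = ⟨some l, v'', S''⟩ →
        ∃ n, 1 ≤ n ∧ R ix code idx T n₀ V (m l) v'' S'' (mstep^[n] (mstep c))) →
      (∀ l v'' S'', TM2.stepAux q v S = ⟨some l, v'', S''⟩ →
        ∃ n, 1 ≤ n ∧ R ix code idx T n₀ V (m l) v'' S'' (mstep^[n] c)) := by
    intro q q' v v' S S' c he h
    rw [he]
    intro l v'' S'' h1
    obtain ⟨n, hn, h2⟩ := h l v'' S'' h1
    exact ⟨n + 1, by omega, by rwa [Function.iterate_succ_apply]⟩
  induction q with
  | push k f q ih =>
    intro v S c h hq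
    refine lift (q' := q) (v' := v) (S' := Function.update S k (f v :: S k)) rfl
      (ih _ _ _ ?_ (hG.push_mem k f q hq).1)
    have h0 : fld c 0 = 0 := by rw [fld_eq hG h hq]; rfl
    have h1 : fld c 1 = ix k := by rw [fld_eq hG h hq]; rfl
    have h2 : fld c 2 = code k (f v) := by rw [fld_eq hG h hq]; rfl
    have h3 : fld c 3 = idx q v := by rw [fld_eq hG h hq]; rfl
    rw [mstep0 h0]
    refine ⟨h.tbl, h3, ?_, fun k' => ?_, fun k' g hg => ?_⟩
    · rw [List.length_set]
      exact h.len
    · change (c.2.2.set (fld c 1) (fld c 2 :: MP_33f9c4_lc.stk c)).getD (ix k') [] = _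
      rw [h1, h2, getD_set _ _ _ _ ((hG.ix_lt k).trans_le h.len), MP_33f9c4_lc.stk, h1, h.stk]
      by_cases hk : k' = k
      · subst hk
        simp
      · rw [if_neg (fun h => hk (hG.ix_inj h)), Function.update_of_ne hk, h.stk]
    · by_cases hk : k' = k
      · subst hk
        rw [Function.update_self, List.mem_cons] at hg
        rcases hg with rfl | hg
        · exact (hG.push_mem _ f q hq).2 v
        · exact h.val _ g hg
      · rw [Function.update_of_ne hk] at hg
        exact h.val k' g hg
  | peek k f q ih =>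
    intro v S c h hq
    refine lift (q' := q) (v' := f v (S k).head?) (S' := S) rfl
      (ih _ _ _ ?_ (hG.peek_mem k f q hq))
    exact silent hG h hq (k := k) (F := fun x => idx q (f v x)) rfl rfl
  | pop k f q ih =>
    intro v S c h hq
    refine lift (q' := q) (v' := f v (S k).head?) (S' := Function.update S k (S k).tail)
      rfl (ih _ _ _ ?_ (hG.pop_mem k f q hq))
    have h0 : fld c 0 = 1 := by rw [fld_eq hG h hq]; rfl
    have h1 : fld c 1 = ix k := by rw [fld_eq hG h hq]; rfl
    rw [mstep1 h0]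
    refine ⟨h.tbl, read hG h hq (k := k) (F := fun x => idx q (f v x)) rfl, ?_, fun k' => ?_,
      fun k' g hg => ?_⟩
    · rw [List.length_set]
      exact h.len
    · change (c.2.2.set (fld c 1) (MP_33f9c4_lc.stk c).tail).getD (ix k') [] = _
      rw [h1, getD_set _ _ _ _ ((hG.ix_lt k).trans_le h.len), MP_33f9c4_lc.stk, h1, h.stk]
      by_cases hk : k' = k
      · subst hk
        simp
      · rw [if_neg (fun h => hk (hG.ix_inj h)), Function.update_of_ne hk, h.stk]
    · by_cases hk : k' = k
      · subst hk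
        rw [Function.update_self] at hg
        exact h.val _ g (List.mem_of_mem_tail hg)
      · rw [Function.update_of_ne hk] at hg
        exact h.val k' g hg
  | load a q ih =>
    intro v S c h hq
    refine lift (q' := q) (v' := a v) (S' := S) rfl
      (ih _ _ _ ?_ (hG.load_mem a q hq))
    exact silent hG h hq (k := k₁) (F := fun _ => idx q (a v)) rfl rfl
  | branch f q₁ q₂ ih₁ ih₂ =>
    intro v S c h hq
    rcases hf : f v with _ | _
    · refine lift (q' := q₂) (v' := v) (S' := S) (by simp [hf])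
        (ih₂ _ _ _ ?_ (hG.branch_mem f q₁ q₂ hq).2)
      exact silent hG h hq (k := k₁) (F := fun _ => idx (if f v then q₁ else q₂) v) rfl
        (by simp [hf])
    · refine lift (q' := q₁) (v' := v) (S' := S) (by simp [hf])
        (ih₁ _ _ _ ?_ (hG.branch_mem f q₁ q₂ hq).1)
      exact silent hG h hq (k := k₁) (F := fun _ => idx (if f v then q₁ else q₂) v) rfl
        (by simp [hf])
  | goto f =>
    intro v S c h hq l v' S' h1
    rw [TM2.stepAux] at h1
    injection h1 with h2 h3 h4
    injection h2 with h2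
    subst h2 h3 h4
    exact ⟨1, le_refl _, silent hG h hq (k := k₁) (F := fun _ => idx (m (f v)) v) rfl rfl⟩
  | halt =>
    intro v S c h hq l v' S' h1
    rw [TM2.stepAux] at h1
    injection h1 with h2 h3 h4
    exact absurd h2 (by simp)

/-- only `halt` is final -/
lemma eq_halt (hG : Good m ix code dec s idx k₁ o T n₀ V Q) {q : TM2.Stmt Γ Λ σ} {v : σ}
    {S : ∀ k, List (Γ k)} {c : Cfg} (h : R ix code idx T n₀ V q v S c) (hq : q ∈ Q)
    (hc : mfin c = true) : q = halt := by
  rw [mfin, fld_eq hG h hq, decide_eq_true_iff] at hc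
  cases q with
  | push k f q => exact absurd hc (by simp [row])
  | peek k f q => exact absurd hc (by simp [row])
  | pop k f q => exact absurd hc (by simp [row])
  | load a q => exact absurd hc (by simp [row])
  | branch f q₁ q₂ => exact absurd hc (by simp [row])
  | goto f => exact absurd hc (by simp [row])
  | halt => rfl

lemma iterate_of_mfin {c : Cfg} (h : mfin c = true) (n : ℕ) : mstep^[n] c = c := by
  induction n with
  | zero => rfl
  | succ n ih => rw [Function.iterate_succ_apply, mstep_of_mfin h, ih]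

lemma run_succ (l : Λ) (v : σ) (S : ∀ k, List (Γ k)) (n : ℕ) :
    (flip bind (TM2.step m))^[n + 1] (some ⟨some l, v, S⟩) =
      (flip bind (TM2.step m))^[n] (some (TM2.stepAux (m l) v S)) := by
  rw [Function.iterate_succ_apply]
  rfl

lemma run_none (n : ℕ) :
    (flip bind (TM2.step m))^[n] (none : Option (TM2.Cfg Γ Λ σ)) = none := by
  induction n with
  | zero => rfl
  | succ n ih => rw [Function.iterate_succ_apply]; exact ih

lemma run_halt (v : σ) (S : ∀ k, List (Γ k)) (n : ℕ) :
    (flip bind (TM2.step m))^[n + 1] (some ⟨none, v, S⟩) = none := by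
  rw [Function.iterate_succ_apply]
  exact run_none n

/-- if the table machine reaches a final configuration, the machine halts -/
lemma sim_back (hG : Good m ix code dec s idx k₁ o T n₀ V Q) :
    ∀ (n : ℕ) (l : Λ) (v : σ) (S : ∀ k, List (Γ k)) (c : Cfg),
      R ix code idx T n₀ V (m l) v S c → mfin (mstep^[n] c) = true →
      ∃ N v' S', (flip bind (TM2.step m))^[N] (some ⟨some l, v, S⟩) =
        (some ⟨none, v', S'⟩ : Option (TM2.Cfg Γ Λ σ)) := by
  intro n
  induction n using Nat.strong_induction_on with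
  | _ n ih =>
  intro l v S c h hn
  rcases hst : TM2.stepAux (m l) v S with ⟨l', v₁, S₁⟩
  rcases l' with _ | l'
  · exact ⟨1, v₁, S₁, by rw [run_succ, hst]; rfl⟩
  · obtain ⟨j, hj, h3⟩ := sim_aux2 hG (m l) v S c h (hG.m_mem l) l' v₁ S₁ hst
    rcases Nat.eq_zero_or_pos n with h0 | h0
    · subst h0
      have h4 : m l = halt := eq_halt hG h (hG.m_mem l) hn
      rw [h4, TM2.stepAux] at hst
      injection hst with h5
      exact absurd h5 (by simp)
    · have h5 : ∃ n' < n, mfin (mstep^[n'] (mstep^[j] c)) = true := by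
        rcases Nat.lt_or_ge n j with h6 | h6
        · refine ⟨0, h0, ?_⟩
          have h7 : mstep^[j] c = mstep^[n] c := by
            rw [← Nat.sub_add_cancel h6.le, Function.iterate_add_apply, iterate_of_mfin hn]
          rw [h7]
          exact hn
        · refine ⟨n - j, by omega, ?_⟩
          rw [← Function.iterate_add_apply, Nat.sub_add_cancel h6]
          exact hn
      obtain ⟨n', hn', h6⟩ := h5
      obtain ⟨N, v', S', h7⟩ := ih n' hn' l' v₁ S₁ _ h3 h6
      exact ⟨N + 1, v', S', by rw [run_succ, hst]; exact h7⟩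

/-! ### Checking the final configuration -/

/-- check that the stacks of the list are empty -/
def chk : List K → TM2.Stmt Γ (Option Λ) (Option σ)
  | [] => halt
  | k :: ks => peek k (fun v g => if g.isNone then v else none)
      (branch (fun v => v.isSome) (chk ks) (goto fun _ => none))

open Classical in
/-- translation of the statements: before halting, the internal state and the stacks of the list
are checked -/
noncomputable def tr (v₀ : σ) (ks : List K) :
    TM2.Stmt Γ Λ σ → TM2.Stmt Γ (Option Λ) (Option σ)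
  | push k f q => push k (fun v => f (v.getD v₀)) (tr v₀ ks q)
  | peek k f q => peek k (fun v g => some (f (v.getD v₀) g)) (tr v₀ ks q)
  | pop k f q => pop k (fun v g => some (f (v.getD v₀) g)) (tr v₀ ks q)
  | load a q => load (fun v => some (a (v.getD v₀))) (tr v₀ ks q)
  | branch f q₁ q₂ => branch (fun v => f (v.getD v₀)) (tr v₀ ks q₁) (tr v₀ ks q₂)
  | goto f => goto (fun v => some (f (v.getD v₀)))
  | halt => branch (fun v => decide (v = some v₀)) (chk ks) (goto fun _ => none)

lemma chk_good (ks : List K) (v : σ) (S : ∀ k, List (Γ k)) (h : ∀ k ∈ ks, S k = []) :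
    TM2.stepAux (chk ks : TM2.Stmt Γ (Option Λ) (Option σ)) (some v) S = ⟨none, some v, S⟩ := by
  induction ks with
  | nil => rfl
  | cons k ks ih =>
    rw [chk, TM2.stepAux, TM2.stepAux, h k List.mem_cons_self]
    simp only [List.head?_nil, Option.isNone_none, if_true, Option.isSome_some, cond_true]
    exact ih fun k' hk' => h k' (List.mem_cons_of_mem _ hk')

lemma chk_bad (ks : List K) (v : σ) (S : ∀ k, List (Γ k)) (h : ∃ k ∈ ks, S k ≠ []) :
    ∃ w, TM2.stepAux (chk ks : TM2.Stmt Γ (Option Λ) (Option σ)) (some v) S =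
      ⟨some none, w, S⟩ := by
  induction ks with
  | nil => obtain ⟨k, hk, -⟩ := h; exact absurd hk (by simp)
  | cons k ks ih =>
    rw [chk, TM2.stepAux, TM2.stepAux]
    by_cases hk : S k = []
    · have h1 : ∃ k' ∈ ks, S k' ≠ [] := by
        obtain ⟨k', hk', h2⟩ := h
        rcases List.mem_cons.1 hk' with rfl | h3
        · exact absurd hk h2
        · exact ⟨k', h3, h2⟩
      obtain ⟨w, hw⟩ := ih h1
      refine ⟨w, ?_⟩
      rw [hk]
      simpa using hw
    · obtain ⟨g, l, hgl⟩ := List.exists_cons_of_ne_nil hk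
      refine ⟨none, ?_⟩
      rw [hgl]
      simp [TM2.stepAux]

lemma tr_some (v₀ : σ) (ks : List K) (q : TM2.Stmt Γ Λ σ) :
    ∀ (v : σ) (S : ∀ k, List (Γ k)) (l : Λ) (v' : σ) (S' : ∀ k, List (Γ k)),
      TM2.stepAux q v S = ⟨some l, v', S'⟩ →
      TM2.stepAux (tr v₀ ks q) (some v) S = ⟨some (some l), some v', S'⟩ := by
  induction q with
  | push k f q ih => intro v S l v' S' h; exact ih _ _ _ _ _ h
  | peek k f q ih => intro v S l v' S' h; exact ih _ _ _ _ _ h
  | pop k f q ih => intro v S l v' S' h; exact ih _ _ _ _ _ h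
  | load a q ih => intro v S l v' S' h; exact ih _ _ _ _ _ h
  | branch f q₁ q₂ ih₁ ih₂ =>
    intro v S l v' S' h
    rw [tr, TM2.stepAux]
    rw [TM2.stepAux] at h
    simp only [Option.getD_some]
    rcases hf : f v with _ | _
    · rw [hf, cond_false] at h
      rw [cond_false]
      exact ih₂ _ _ _ _ _ h
    · rw [hf, cond_true] at h
      rw [cond_true]
      exact ih₁ _ _ _ _ _ h
  | goto f =>
    intro v S l v' S' h
    rw [TM2.stepAux] at h
    injection h with h2 h3 h4
    injection h2 with h2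
    subst h2 h3 h4
    rfl
  | halt =>
    intro v S l v' S' h
    rw [TM2.stepAux] at h
    injection h with h2 h3 h4
    exact absurd h2 (by simp)

open Classical in
lemma tr_none (v₀ : σ) (ks : List K) (q : TM2.Stmt Γ Λ σ) :
    ∀ (v : σ) (S : ∀ k, List (Γ k)) (v' : σ) (S' : ∀ k, List (Γ k)),
      TM2.stepAux q v S = ⟨none, v', S'⟩ →
      ((v' = v₀ ∧ ∀ k ∈ ks, S' k = []) →
        TM2.stepAux (tr v₀ ks q) (some v) S = ⟨none, some v', S'⟩) ∧
      (¬ (v' = v₀ ∧ ∀ k ∈ ks, S' k = []) →
        ∃ w, TM2.stepAux (tr v₀ ks q) (some v) S = ⟨some none, w, S'⟩) := by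
  induction q with
  | push k f q ih => intro v S v' S' h; exact ih _ _ _ _ h
  | peek k f q ih => intro v S v' S' h; exact ih _ _ _ _ h
  | pop k f q ih => intro v S v' S' h; exact ih _ _ _ _ h
  | load a q ih => intro v S v' S' h; exact ih _ _ _ _ h
  | branch f q₁ q₂ ih₁ ih₂ =>
    intro v S v' S' h
    rw [tr, TM2.stepAux]
    rw [TM2.stepAux] at h
    simp only [Option.getD_some]
    rcases hf : f v with _ | _
    · rw [hf, cond_false] at h
      rw [cond_false]
      exact ih₂ _ _ _ _ h
    · rw [hf, cond_true] at h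
      rw [cond_true]
      exact ih₁ _ _ _ _ h
  | goto f =>
    intro v S v' S' h
    rw [TM2.stepAux] at h
    injection h with h2 h3 h4
    exact absurd h2 (by simp)
  | halt =>
    intro v S v' S' h
    rw [TM2.stepAux] at h
    injection h with h2 h3 h4
    subst h3 h4
    rw [tr, TM2.stepAux]
    constructor
    · rintro ⟨rfl, h5⟩
      simp only [decide_true, cond_true]
      exact chk_good ks v S h5
    · intro h5
      by_cases hv : v = v₀
      · subst hv
        simp only [decide_true, cond_true]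
        apply chk_bad
        by_contra h6
        push Not at h6
        exact h5 ⟨rfl, h6⟩
      · have h6 : decide ((some v : Option σ) = some v₀) = false := by simpa using hv
        rw [h6, cond_false]
        exact ⟨some v, rfl⟩

/-- the machine with the check -/
noncomputable def mm (m : Λ → TM2.Stmt Γ Λ σ) (v₀ : σ) (ks : List K) :
    Option Λ → TM2.Stmt Γ (Option Λ) (Option σ)
  | none => goto fun _ => none
  | some l => tr v₀ ks (m l)

lemma loop_forever (v₀ : σ) (ks : List K) (n : ℕ) (w : Option σ) (S : ∀ k, List (Γ k)) :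
    (flip bind (TM2.step (mm m v₀ ks)))^[n] (some ⟨some none, w, S⟩) =
      some ⟨some none, w, S⟩ := by
  induction n with
  | zero => rfl
  | succ n ih => rw [run_succ]; exact ih

lemma mm_forward (v₀ : σ) (ks : List K) : ∀ (n : ℕ) (l : Λ) (v : σ) (S S' : ∀ k, List (Γ k)),
    (∀ k ∈ ks, S' k = []) →
    (flip bind (TM2.step m))^[n] (some ⟨some l, v, S⟩) = some ⟨none, v₀, S'⟩ →
    (flip bind (TM2.step (mm m v₀ ks)))^[n] (some ⟨some (some l), some v, S⟩) =
      some ⟨none, some v₀, S'⟩ := by
  intro n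
  induction n with
  | zero =>
    intro l v S S' _ h
    simp at h
  | succ n ih =>
    intro l v S S' hS' h
    rw [run_succ] at h ⊢
    have hmm : mm m v₀ ks (some l) = tr v₀ ks (m l) := rfl
    rw [hmm]
    rcases hst : TM2.stepAux (m l) v S with ⟨l', v₁, S₁⟩
    rw [hst] at h
    rcases l' with _ | l'
    · rcases n with _ | n
      · rw [Function.iterate_zero_apply] at h ⊢
        injection h with h
        injection h with _ h6 h7
        subst h6 h7
        rw [(tr_none _ ks (m l) v S _ _ hst).1 ⟨rfl, hS'⟩]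
      · rw [run_halt] at h
        exact absurd h (by simp)
    · rw [tr_some v₀ ks (m l) v S l' v₁ S₁ hst]
      exact ih l' v₁ S₁ S' hS' h

lemma mm_backward (v₀ : σ) (ks : List K) : ∀ (n : ℕ) (l : Λ) (v : σ) (S S' : ∀ k, List (Γ k))
    (w : Option σ),
    (flip bind (TM2.step (mm m v₀ ks)))^[n] (some ⟨some (some l), some v, S⟩) =
      some ⟨none, w, S'⟩ →
    (∀ k ∈ ks, S' k = []) ∧
      (flip bind (TM2.step m))^[n] (some ⟨some l, v, S⟩) = some ⟨none, v₀, S'⟩ := by
  intro n
  induction n with
  | zero =>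
    intro l v S S' w h
    simp at h
  | succ n ih =>
    intro l v S S' w h
    rw [run_succ] at h ⊢
    have hmm : mm m v₀ ks (some l) = tr v₀ ks (m l) := rfl
    rw [hmm] at h
    rcases hst : TM2.stepAux (m l) v S with ⟨l', v₁, S₁⟩
    rcases l' with _ | l'
    · by_cases hgood : v₁ = v₀ ∧ ∀ k ∈ ks, S₁ k = []
      · rw [(tr_none _ ks (m l) v S _ _ hst).1 hgood] at h
        rcases n with _ | n
        · rw [Function.iterate_zero_apply] at h ⊢
          injection h with h
          injection h with _ h6 h7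
          subst h7
          exact ⟨hgood.2, by rw [hgood.1]⟩
        · rw [run_halt] at h
          exact absurd h (by simp)
      · obtain ⟨w', hw'⟩ := (tr_none _ ks (m l) v S _ _ hst).2 hgood
        rw [hw', loop_forever] at h
        injection h with h
        injection h with h6
        exact absurd h6 (by simp)
    · rw [tr_some v₀ ks (m l) v S l' v₁ S₁ hst] at h
      exact ih l' v₁ S₁ S' w h

end general

/-- the codes of the symbols; on the input stack the codes are the input bits -/
lemma exists_codes2 {K : Type} [DecidableEq K] [Fintype K] {Γ : K → Type} (k₀ : K)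
    (α : Γ k₀ ≃ Bool) (V : ∀ k, Set (Γ k)) (hV : ∀ k, k ≠ k₀ → (V k).Finite) :
    ∃ (s : ℕ) (code : ∀ k, Γ k → ℕ) (dec : ∀ k, ℕ → Option (Γ k)),
      (∀ k, ∀ g ∈ V k, code k g < s) ∧ (∀ k, ∀ g ∈ V k, dec k (code k g) = some g) ∧
      ∀ g, code k₀ g = if α g then 1 else 0 := by
  have h : ∀ k, ∃ (s : ℕ) (code : Γ k → ℕ) (dec : ℕ → Option (Γ k)),
      (∀ g ∈ V k, code g < s ∧ dec (code g) = some g) ∧
      ∀ (hk : k = k₀) (g : Γ k), code g = if α (hk ▸ g) then 1 else 0 := by
    intro k
    by_cases hk : k = k₀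
    · subst hk
      refine ⟨2, fun g => if α g then 1 else 0,
        fun n => some (α.symm (decide (n = 1))), fun g _ => ⟨?_, ?_⟩,
        fun _ g => rfl⟩
      · by_cases hb : α g = true <;> simp [hb]
      · simp only [Option.some.injEq]
        rw [Equiv.symm_apply_eq]
        by_cases hb : α g = true <;> simp [hb]
    · obtain ⟨s, code, dec, h⟩ := exists_code (V k) (hV k hk)
      exact ⟨s, code, dec, h, fun h' => absurd h' hk⟩
  choose s code dec h1 h2 using h
  refine ⟨∑ k, s k, code, dec, fun k g hg => ?_, fun k g hg => (h1 k g hg).2,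
    fun g => h2 k₀ rfl g⟩
  exact (h1 k g hg).1.trans_le (Finset.single_le_sum (f := s) (fun k _ => Nat.zero_le _)
    (Finset.mem_univ k))

open Classical in
theorem exists_table_gen {K Λ σ : Type} [DecidableEq K] [Fintype K] [Fintype Λ] [Fintype σ]
    {Γ : K → Type} (m : Λ → TM2.Stmt Γ Λ σ) (l₀ : Λ) (v₀ : σ) (k₀ k₁ : K) (α : Γ k₀ ≃ Bool)
    (o : Γ k₁ → Bool) :
    ∃ (T : Tbl) (B : ℕ), ∀ (d : List Bool) (S₀ : ∀ k, List (Γ k)),
      S₀ k₀ = d.map α.symm → (∀ k, k ≠ k₀ → S₀ k = []) →
      (∀ n v' S', (flip bind (TM2.step m))^[n] (some ⟨some l₀, v₀, S₀⟩) =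
          (some ⟨none, v', S'⟩ : Option (TM2.Cfg Γ Λ σ)) →
        ∃ j ≤ B * n, mfin (mstep^[j] (minit T d)) = true ∧
          mout (mstep^[j] (minit T d)) = (S' k₁).map o) ∧
      (∀ n, mfin (mstep^[n] (minit T d)) = true →
        ∃ N v' S', (flip bind (TM2.step m))^[N] (some ⟨some l₀, v₀, S₀⟩) =
          (some ⟨none, v', S'⟩ : Option (TM2.Cfg Γ Λ σ))) := by
  -- the statements
  set Qf : Finset (TM2.Stmt Γ Λ σ) :=
    Finset.univ.biUnion fun l => TM2.stmts₁ (m l) with hQf
  have hsub : ∀ q q', q ∈ Qf → q' ∈ TM2.stmts₁ q → q' ∈ Qf := by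
    intro q q' hq hq'
    rw [hQf, Finset.mem_biUnion] at hq ⊢
    obtain ⟨l, hl, hq⟩ := hq
    exact ⟨l, hl, TM2.stmts₁_trans hq hq'⟩
  -- the symbols
  set V : ∀ k, Set (Γ k) := fun k =>
    {g | k = k₀ ∨ ∃ q ∈ Qf, ∃ v, ∃ f q', q = TM2.Stmt.push k f q' ∧ g = f v} with hVdef
  have hV : ∀ k, k ≠ k₀ → (V k).Finite := by
    intro k hk
    have h1 : V k ⊆ ⋃ q ∈ (Qf : Set (TM2.Stmt Γ Λ σ)), ⋃ v ∈ (Set.univ : Set σ),
        {g | ∃ f q', q = TM2.Stmt.push k f q' ∧ g = f v} := by
      rintro g (h | ⟨q, hq, v, f, q', h⟩)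
      · exact absurd h hk
      · simp only [Set.mem_iUnion]
        exact ⟨q, hq, v, Set.mem_univ v, f, q', h⟩
    refine Set.Finite.subset (Set.Finite.biUnion Qf.finite_toSet fun q _ =>
      Set.Finite.biUnion Set.finite_univ fun v _ => ?_) h1
    refine Set.Subsingleton.finite ?_
    rintro g ⟨f, q', h2, h3⟩ g' ⟨f', q'', h4, h5⟩
    rw [h2] at h4
    injection h4 with _ h6 h7
    rw [h3, h5, h6]
  obtain ⟨s, code, dec, hc1, hc2, hc3⟩ := exists_codes2 k₀ α V hV
  -- the stacks
  set ix : K → ℕ := fun k => if k = k₀ then 0 else (Fintype.equivFin K k : ℕ) + 1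
    with hix
  have hixinj : Function.Injective ix := by
    intro k k' h
    simp only [hix] at h
    split_ifs at h with h1 h2 h2
    · rw [h1, h2]
    · exact (Fintype.equivFin K).injective (Fin.ext (by omega))
  set n₀ : ℕ := Fintype.card K + 1 with hn₀
  have hixlt : ∀ k, ix k < n₀ := by
    intro k
    simp only [hix]
    split_ifs
    · omega
    · have := (Fintype.equivFin K k).2
      omega
  -- the states
  set L : List (TM2.Stmt Γ Λ σ × σ) := (m l₀, v₀) :: (Qf ×ˢ Finset.univ).toList with hL
  have hidx : ∃ idx : TM2.Stmt Γ Λ σ → σ → ℕ,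
      idx (m l₀) v₀ = 0 ∧ ∀ q ∈ Qf, ∀ v, L[idx q v]? = some (q, v) := by
    have h : ∀ (q : TM2.Stmt Γ Λ σ) (v : σ), ∃ n : ℕ,
        ((q = m l₀ ∧ v = v₀) → n = 0) ∧ (q ∈ Qf → L[n]? = some (q, v)) := by
      intro q v
      by_cases h1 : q = m l₀ ∧ v = v₀
      · refine ⟨0, fun _ => rfl, fun _ => ?_⟩
        rw [hL, h1.1, h1.2]
        rfl
      · by_cases h2 : q ∈ Qf
        · have h3 : (q, v) ∈ L := by
            rw [hL]
            refine List.mem_cons_of_mem _ ?_
            simp [h2]
          obtain ⟨n, hn⟩ := List.mem_iff_getElem?.mp h3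
          exact ⟨n, fun h => absurd h h1, fun _ => hn⟩
        · exact ⟨0, fun h => absurd h h1, fun h => absurd h h2⟩
    choose idx h1 h2 using h
    exact ⟨idx, h1 _ _ ⟨rfl, rfl⟩, fun q hq v => h2 q v hq⟩
  obtain ⟨idx, hidx0, hidx⟩ := hidx
  set T : Tbl := (L.map fun x => row m ix code dec s idx k₁ o x.1 x.2) ++
    List.replicate n₀ [] with hT
  have hTlen : n₀ ≤ T.length := by
    rw [hT, List.length_append, List.length_replicate]
    omega
  have hG : Good m ix code dec s idx k₁ o T n₀ V (Qf : Set _) := by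
    refine ⟨fun q hq v => ?_, hc1, hc2, hixinj, hixlt, ?_, ?_, ?_, ?_, ?_, ?_⟩
    · have h1 := hidx q hq v
      have h2 : idx q v < L.length := by
        by_contra h3
        rw [List.getElem?_eq_none (by omega)] at h1
        exact absurd h1 (by simp)
      rw [hT, List.getD_eq_getElem?_getD, List.getElem?_append_left (by simpa using h2),
        List.getElem?_map, h1]
      rfl
    · intro k f q hq
      refine ⟨hsub _ q hq ?_, fun v => Or.inr ⟨_, hq, v, f, q, rfl, rfl⟩⟩
      rw [TM2.stmts₁]
      exact Finset.mem_insert_of_mem TM2.stmts₁_self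
    · intro k f q hq
      refine hsub _ q hq ?_
      rw [TM2.stmts₁]
      exact Finset.mem_insert_of_mem TM2.stmts₁_self
    · intro k f q hq
      refine hsub _ q hq ?_
      rw [TM2.stmts₁]
      exact Finset.mem_insert_of_mem TM2.stmts₁_self
    · intro a q hq
      refine hsub _ q hq ?_
      rw [TM2.stmts₁]
      exact Finset.mem_insert_of_mem TM2.stmts₁_self
    · intro f q₁ q₂ hq
      refine ⟨hsub _ q₁ hq ?_, hsub _ q₂ hq ?_⟩
      · rw [TM2.stmts₁]
        exact Finset.mem_insert_of_mem (Finset.mem_union_left _ TM2.stmts₁_self)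
      · rw [TM2.stmts₁]
        exact Finset.mem_insert_of_mem (Finset.mem_union_right _ TM2.stmts₁_self)
    · intro l
      rw [hQf, Finset.mem_coe, Finset.mem_biUnion]
      exact ⟨l, Finset.mem_univ l, TM2.stmts₁_self⟩
  -- the bound for the statements
  set B : ℕ := ∑ l, depth (m l) with hB
  have hB' : ∀ l, depth (m l) ≤ B := fun l =>
    Finset.single_le_sum (f := fun l => depth (m l)) (fun _ _ => Nat.zero_le _)
      (Finset.mem_univ l)
  refine ⟨T, B, fun d S₀ hS₀ hS => ?_⟩
  have hinit : R ix code idx T n₀ V (m l₀) v₀ S₀ (minit T d) := by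
    refine ⟨rfl, hidx0.symm, ?_, fun k => ?_, fun k g hg => ?_⟩
    · simp only [minit, List.length_cons, List.length_replicate]
      omega
    · by_cases hk : k = k₀
      · subst hk
        have h1 : ix k = 0 := by simp [hix]
        rw [h1, hS₀]
        simp only [minit, List.getD_cons_zero, List.map_map]
        refine List.map_congr_left fun b _ => ?_
        simp only [Function.comp, hc3]
        congr 1
        simp
      · have h1 : ix k = (Fintype.equivFin K k : ℕ) + 1 := by simp [hix, hk]
        rw [h1, hS k hk]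
        simp only [minit, List.getD_cons_succ, List.map_nil]
        rw [List.getD_eq_getElem?_getD, List.getElem?_replicate]
        split_ifs <;> rfl
    · by_cases hk : k = k₀
      · exact Or.inl hk
      · rw [hS k hk] at hg
        exact absurd hg (by simp)
  constructor
  · intro n v' S' hn
    obtain ⟨j, hj, hhalt, hR⟩ := sim_main hG hB' n l₀ v₀ S₀ (minit T d) hinit v' S' hn
    obtain ⟨hfin, hmout⟩ := out hG hR hhalt
    exact ⟨j, hj, hfin, hmout⟩
  · intro n hn
    exact sim_back hG n l₀ v₀ S₀ (minit T d) hinit hn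

end UV2

open Pool.Agent.Lib.MP_33f9c4_lc.UV Pool.Agent.Lib.MP_33f9c4_lc.UV2 Turing in
/-- Every Turing machine with binary input and output is simulated exactly, with linear step
overhead, by a table machine: the table machine halts only if the Turing machine has an output. -/
theorem exists_table_exact (M : Machine) : ∃ (T : Tbl) (c : ℕ),
    (∀ (d x : List Bool) (t : ℕ), Outputs M d x t →
      ∃ s ≤ c * (t + 1), mfin (mstep^[s] (minit T d)) = true ∧
        (∀ i < s, mfin (mstep^[i] (minit T d)) = false) ∧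
        mout (mstep^[s] (minit T d)) = x) ∧
    (∀ (d : List Bool) (s : ℕ), (∀ i < s, mfin (mstep^[i] (minit T d)) = false) →
      mfin (mstep^[s] (minit T d)) = true →
      ∃ t, Outputs M d (mout (mstep^[s] (minit T d))) t) := by
  classical
  have : Fintype M.tm.K := M.tm.kFin
  have : Fintype M.tm.Λ := M.tm.ΛFin
  have : Fintype M.tm.σ := M.tm.σFin
  set ks : List M.tm.K := (Finset.univ.filter fun k => k ≠ M.tm.k₁).toList with hks
  have hmem : ∀ k, k ∈ ks ↔ k ≠ M.tm.k₁ := by
    intro k
    rw [hks, Finset.mem_toList, Finset.mem_filter]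
    simp
  obtain ⟨T, B, hT⟩ := exists_table_gen (mm M.tm.m M.tm.initialState ks) (some M.tm.main)
    (some M.tm.initialState) M.tm.k₀ M.tm.k₁ M.inputAlphabet M.outputAlphabet
  have hS0 : ∀ d : List Bool, (initList M.tm (d.map M.inputAlphabet.invFun)).stk M.tm.k₀ =
      d.map M.inputAlphabet.symm := by
    intro d
    simp [initList]
  have hS1 : ∀ (d : List Bool) (k : M.tm.K), k ≠ M.tm.k₀ →
      (initList M.tm (d.map M.inputAlphabet.invFun)).stk k = [] := by
    intro d k hk
    simp [initList, hk]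
  -- the first final configuration
  have first : ∀ (c : Cfg) (j : ℕ), mfin (mstep^[j] c) = true →
      ∃ s ≤ j, mfin (mstep^[s] c) = true ∧ (∀ i < s, mfin (mstep^[i] c) = false) ∧
        mstep^[j] c = mstep^[s] c := by
    intro c j hj
    have hex : ∃ i, mfin (mstep^[i] c) = true := ⟨j, hj⟩
    refine ⟨Nat.find hex, Nat.find_min' hex hj, Nat.find_spec hex, fun i hi => ?_, ?_⟩
    · have h1 := Nat.find_min hex hi
      simpa using h1
    · rw [← Nat.sub_add_cancel (Nat.find_min' hex hj), Function.iterate_add_apply]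
      exact iterate_of_mfin (Nat.find_spec hex) _
  have forward : ∀ (d x : List Bool) (t : ℕ), Outputs M d x t →
      ∃ s ≤ B * (t + 1), mfin (mstep^[s] (minit T d)) = true ∧
        (∀ i < s, mfin (mstep^[i] (minit T d)) = false) ∧
        mout (mstep^[s] (minit T d)) = x := by
    intro d x t hout
    obtain ⟨⟨⟨n, hn⟩, hnt⟩⟩ := hout
    have h1 : ∀ k ∈ ks, (haltList M.tm (x.map M.outputAlphabet.invFun)).stk k = [] := by
      intro k hk
      have := (hmem k).1 hk
      simp [haltList, this]
    have h2 := mm_forward M.tm.initialState ks n M.tm.main M.tm.initialState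
      (initList M.tm (d.map M.inputAlphabet.invFun)).stk
      (haltList M.tm (x.map M.outputAlphabet.invFun)).stk h1 hn
    obtain ⟨j, hj, hfin, hmo⟩ := (hT d _ (hS0 d) (hS1 d)).1 n _ _ h2
    obtain ⟨s, hs, h3, h4, h5⟩ := first _ j hfin
    refine ⟨s, hs.trans (hj.trans (Nat.mul_le_mul_left _ (by exact hnt.trans (Nat.le_succ t)))),
      h3, h4, ?_⟩
    rw [← h5, hmo]
    have h6 : (haltList M.tm (x.map M.outputAlphabet.invFun)).stk M.tm.k₁ =
        x.map M.outputAlphabet.invFun := by
      simp [haltList]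
    rw [h6, List.map_map]
    refine (List.map_congr_left fun b _ => ?_).trans (List.map_id x)
    simp
  refine ⟨T, B, forward, fun d s hs hfin => ?_⟩
  obtain ⟨N, v', S', hN⟩ := (hT d _ (hS0 d) (hS1 d)).2 s hfin
  obtain ⟨h1, h2⟩ := mm_backward M.tm.initialState ks N M.tm.main M.tm.initialState _ S' v' hN
  -- the output of the machine
  set x : List Bool := (S' M.tm.k₁).map M.outputAlphabet with hx
  have h3 : (⟨none, M.tm.initialState, S'⟩ : M.tm.Cfg) =
      haltList M.tm (x.map M.outputAlphabet.invFun) := by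
    unfold haltList
    congr 1
    funext k
    by_cases hk : k = M.tm.k₁
    · subst hk
      simp only [dif_pos]
      rw [hx, List.map_map]
      refine ((List.map_congr_left fun b _ => ?_).trans (List.map_id _)).symm
      simp
    · rw [dif_neg hk]
      exact h1 k ((hmem k).2 hk)
  have hout : Outputs M d x N := by
    refine ⟨⟨⟨N, ?_⟩, le_refl N⟩⟩
    exact h2.trans (congrArg some h3)
  obtain ⟨s', _, h4, h5, h6⟩ := forward d x N hout
  have h7 : s = s' := by
    rcases lt_trichotomy s s' with h | h | h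
    · rw [h5 s h] at hfin
      exact absurd hfin (by simp)
    · exact h
    · rw [hs s' h] at h4
      exact absurd h4 (by simp)
  subst h7
  exact ⟨N, by rw [h6]; exact hout⟩

end Pool.Agent.Lib.MP_33f9c4_lc
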