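import Pool.Agent.Lib.MP_33f9c4_lc.Total
import Pool.Agent.Lib.MP_33f9c4_lc.Kt
import Pool.Agent.Lib.MP_33f9c4_lc.Base
import Pool.Agent.Lib.MP_33f9c4_lc.Univ2

/-!
# The main theorem
-/

namespace Pool.Agent.Lib.MP_33f9c4_lc

open Pool.Agent.Lib.PolyTime Function Finset

/-! ### Parsing longer words -/

theorem pstep_inv (s : PSt) (b : Bool) (h : s.2.1 = false → s.2.2.2.2.2 = []) :
    (pstep s b).2.1 = false → (pstep s b).2.2.2.2.2 = [] := by
  obtain ⟨o, f, n, row, rows, e⟩ := s
  cases f
  · have he : e = [] := h rfl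
    subst he
    cases o with
    | none => intro _; rfl
    | some a => cases a <;> cases b <;> intro _ <;> rfl
  · intro h'
    simp [pstep] at h'

theorem foldl_pstep_inv (e : List Bool) : ∀ s : PSt, (s.2.1 = false → s.2.2.2.2.2 = []) →
    (e.foldl pstep s).2.1 = false → (e.foldl pstep s).2.2.2.2.2 = [] := by
  induction e with
  | nil => intro s h; exact h
  | cons b e ih => intro s h; exact ih _ (pstep_inv s b h)

theorem parse_append {w : List Bool} (z : List Bool) (h : (parse w).2 ≠ []) :
    parse (w ++ z) = ((parse w).1, (parse w).2 ++ z) := by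
  have h1 : (w.foldl pstep pinit).2.1 = true := by
    by_contra hcon
    have h2 := foldl_pstep_inv w pinit (fun _ => rfl) (by simpa using hcon)
    apply h
    unfold parse
    rw [h2]
    rfl
  unfold parse
  rw [List.foldl_append]
  generalize w.foldl pstep pinit = st at h1
  obtain ⟨o, f, n, row, rows, e⟩ := st
  obtain rfl : f = true := h1
  rw [foldl_pstep_rest]
  simp

/-- What we know on the machine. -/
structure IsMach (B : ℕ) (T T0 : Polynomial ℕ) (U : Machine) : Prop where
  fwd : ∀ (d : List Bool) (N : ℕ), fin (g^[N] (init B d)) = true →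
    (∀ i < N, fin (g^[i] (init B d)) = false) →
    Outputs U d (out (g^[N] (init B d))) (T0.eval d.length +
      ∑ i ∈ Finset.range (N + 1), T.eval (size (g^[i] (init B d))))
  bwd : ∀ (d x : List Bool) (t : ℕ), Outputs U d x t → ∃ N ≤ t,
    fin (g^[N] (init B d)) = true ∧ (∀ i < N, fin (g^[i] (init B d)) = false) ∧
    x = out (g^[N] (init B d))

theorem exists_mach : ∃ T : Polynomial ℕ, ∀ B, ∃ (U : Machine) (T0 : Polynomial ℕ),
    IsMach B T T0 U := by
  obtain ⟨T, hT⟩ := exists_loop pt_g pt_fin pt_out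
  refine ⟨T, fun B => ?_⟩
  obtain ⟨U, T0, h1, h2⟩ := hT (init B) (pt_init B)
  exact ⟨U, T0, h1, h2⟩

section

variable {B : ℕ} {T T0 : Polynomial ℕ} {U : Machine}

theorem IsMach.outputs (hU : IsMach B T T0 U) {d x : List Bool} {N c C : ℕ}
    (h : Reach T (init B d) (sFin x) N c) (hC : c + T.eval (size (sFin x)) ≤ C) :
    Outputs U d x (T0.eval d.length + C) := by
  obtain ⟨h1, h2, h3⟩ := h
  have h4 := hU.fwd d N (by rw [h1]; rfl) h2
  rw [h1] at h4
  refine Outputs.mono h4 ?_
  rw [sum_range_succ, h1]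
  omega

theorem IsMach.out_eq (hU : IsMach B T T0 U) {d x y : List Bool} {N c t : ℕ}
    (h : Reach T (init B d) (sFin x) N c) (h' : Outputs U d y t) : y = x ∧ N ≤ t := by
  obtain ⟨M, hM, h1, h2, h3⟩ := hU.bwd d y t h'
  have h4 := h.unique rfl h1 h2
  subst h4
  refine ⟨?_, hM⟩
  rw [h3, h.1]
  rfl

theorem IsMach.pos (hU : IsMach B T T0 U) {d x : List Bool} {t : ℕ} (h : Outputs U d x t) :
    0 < t := by
  obtain ⟨M, hM, h1, _, _⟩ := hU.bwd d x t h
  rcases Nat.eq_zero_or_pos M with rfl | h2
  · exfalso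
    rw [iterate_zero, id_eq, init] at h1
    split_ifs at h1 <;> cases h1
  · omega

/-- Descriptions that do not begin with `true`. -/
theorem IsMach.base_out (hU : IsMach B T T0 U) {d x : List Bool} {t : ℕ}
    (hd : d.head? ≠ some true) (h : Outputs U d x t) : ∃ s, Halts (cinit d.tail) s ∧
      x = yld d.tail s ∧ (d.tail.length + s + x.length + 2) ^ B ≤ t := by
  obtain ⟨M, hM, h1, h2, h3⟩ := hU.bwd d x t h
  have hex : ∃ s, mfin (mstep^[s] (cinit d.tail)) = true := by
    by_contra hcon
    push Not at hcon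
    have := base_not B d hd (fun s => by simpa using hcon s) M
    rw [this] at h1
    cases h1
  have hH : Halts (cinit d.tail) (Nat.find hex) :=
    ⟨fun i hi => by simpa using Nat.find_min hex hi, Nat.find_spec hex⟩
  obtain ⟨P, hP⟩ := base T B
  obtain ⟨N, c, hr, hN, _⟩ := hP d _ hd hH
  obtain ⟨h4, h5⟩ := hU.out_eq hr h
  subst h4
  exact ⟨_, hH, rfl, hN.trans h5⟩

/-- The universality of the machine. -/
theorem IsMach.universal (hU : IsMach B T T0 U) : Universal U := by
  obtain ⟨P, hP⟩ := base T B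
  refine ⟨T0 + P, fun M => ?_⟩
  obtain ⟨Tb, c, hTb, hTb'⟩ := exists_table_exact M
  have hd : ∀ d, (false :: tblCode Tb ++ d).head? ≠ some true := by simp
  have htl : ∀ d, (false :: tblCode Tb ++ d).tail = tblCode Tb ++ d := fun d => rfl
  have hci : ∀ d, cinit (tblCode Tb ++ d) = minit Tb d := by
    intro d
    rw [cinit, parse_code]
  refine ⟨false :: tblCode Tb, (false :: tblCode Tb).length + c + 1, fun d x t h => ?_,
    fun d x t h => ?_⟩
  · obtain ⟨s, hs, h1, h2, h3⟩ := hTb d x t h
    obtain ⟨N, c', hr, _, hc'⟩ := hP (false :: tblCode Tb ++ d) s (hd d)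
      (by rw [htl, hci]; exact ⟨h2, h1⟩)
    have hy : yld (false :: tblCode Tb ++ d).tail s = x := by
      rw [htl, yld, hci, h3]
    rw [hy] at hr hc'
    refine Outputs.mono (hU.outputs hr hc') ?_
    rw [Polynomial.eval_add]
    have e1 : (false :: tblCode Tb ++ d).length = (false :: tblCode Tb).length + d.length := by
      simp only [List.length_append]
    have e2 : c * (t + 1) = c * t + c := by ring
    obtain ⟨l, hl⟩ : ∃ l, l = (false :: tblCode Tb).length := ⟨_, rfl⟩
    rw [← hl] at e1 ⊢
    have e3 : (l + c + 1) * (d.length + t + 1) =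
        l * (d.length + t) + l + c * d.length + c * t + c + d.length + t + 1 := by ring
    have e4 : (false :: tblCode Tb ++ d).length + s ≤ (l + c + 1) * (d.length + t + 1) := by
      have := Nat.zero_le (c * d.length)
      have := Nat.zero_le (l * (d.length + t))
      omega
    refine Nat.add_le_add (eval_mono T0 (by omega)) (eval_mono P e4)
  · obtain ⟨s, hs, hx, _⟩ := hU.base_out (hd d) h
    rw [htl, hci] at hs
    rw [htl, yld, hci] at hx
    rw [hx]
    exact hTb' d s hs.1 hs.2

/-- Every string is an output. -/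
theorem IsMach.exists_output (hU : IsMach B T T0 U) (x : List Bool) :
    ∃ d t, Outputs U d x t := by
  obtain ⟨P, hP⟩ := base T B
  have hci : cinit (tblCode [[3, 0, 0, 1]] ++ x) = minit [[3, 0, 0, 1]] x := by
    rw [cinit, parse_code]
  have hd : (false :: tblCode [[3, 0, 0, 1]] ++ x).head? ≠ some true := by simp
  have htl : (false :: tblCode [[3, 0, 0, 1]] ++ x).tail = tblCode [[3, 0, 0, 1]] ++ x := rfl
  have hm : mfin (minit [[3, 0, 0, 1]] x) = true := by rfl
  have hy : mout (minit [[3, 0, 0, 1]] x) = x := by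
    have e1 : stk (minit [[3, 0, 0, 1]] x) = x.map (fun b => if b then 1 else 0) := rfl
    have e2 : ∀ g, fld (minit [[3, 0, 0, 1]] x) (g + 2) = [0, 1].getD g 3 := fun _ => rfl
    rw [mout, e1, List.map_map]
    simp only [e2]
    conv_rhs => rw [← List.map_id x]
    refine List.map_congr_left fun b _ => ?_
    cases b <;> simp
  obtain ⟨N, c, hr, _, hc⟩ := hP (false :: tblCode [[3, 0, 0, 1]] ++ x) 0 hd
    (by rw [htl, hci]; exact ⟨by simp, hm⟩)
  have hy' : yld (false :: tblCode [[3, 0, 0, 1]] ++ x).tail 0 = x := by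
    rw [htl, yld, hci]; exact hy
  rw [hy'] at hr hc
  exact ⟨_, _, hU.outputs hr hc⟩

/-- Descriptions that begin with `true`. -/
theorem IsMach.diag_out (hU : IsMach B T T0 U) (hB : 0 < B) {w x : List Bool} {t : ℕ}
    (h : Outputs U (true :: w) x t) : x = ufin B w ∨ x = [] := by
  obtain ⟨M, hM, h1, h2, h3⟩ := hU.bwd _ x t h
  obtain ⟨N, c, hr⟩ := search_any T hB w
  obtain ⟨h4, h5⟩ := hr.le_of_final h1
  rw [h5] at h1 h3
  rw [h3]
  exact dec_out _ _ _ h1

/-- Cheap descriptions. -/
theorem hp_of_outputs (hU : IsMach B T T0 U) {d x : List Bool} {t : ℕ}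
    (hd : d.head? ≠ some true) (h : Outputs U d x t) (hlt : 2 ^ d.length * t < 2 ^ x.length) :
    Hp B x.length x d.tail := by
  obtain ⟨s, hs, hx, ht⟩ := hU.base_out hd h
  refine ⟨s, hs, ?_, by rw [← hx], by rw [← hx]⟩
  intro i hi
  simp only [test, decide_eq_true_eq]
  set n := x.length with hn
  have h1 : (2 ^ lg (d.tail.length + n + 1 + i)) ^ B ≤ t := by
    refine le_trans (Nat.pow_le_pow_left ?_ B) ht
    refine (lg_le _).trans ?_
    omega
  rw [← pow_mul] at h1
  have h2 : 2 ^ (d.length + lg (d.tail.length + n + 1 + i) * B) < 2 ^ n := by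
    rw [pow_add]
    exact lt_of_le_of_lt (Nat.mul_le_mul_left _ h1) hlt
  have h3 := (Nat.pow_lt_pow_iff_right (by norm_num : 1 < 2)).mp h2
  have h4 : d.tail.length ≤ d.length := by simp
  rw [mul_comm]
  omega

end

theorem asym_dec' (P : Polynomial ℕ) : ∃ c > 0, ∀ K a b : ℕ, ∃ n0, ∀ n ≥ n0,
    K * (n + 1) * P.eval (a + b * (n + 2 ^ (n / c))) ≤ 2 ^ n := by
  obtain ⟨c, hc, h⟩ := asym_dec (P * Polynomial.X)
  refine ⟨c, hc, fun K a b => ?_⟩
  obtain ⟨n0, hn0⟩ := h (a + K) (b + K)
  refine ⟨n0 + 1, fun n hn => le_trans ?_ (hn0 n (by omega))⟩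
  rw [Polynomial.eval_mul, Polynomial.eval_X]
  generalize 2 ^ (n / c) = z
  have h1 : P.eval (a + b * (n + z)) ≤ P.eval (a + K + (b + K) * (n + z)) :=
    eval_mono P (by nlinarith [Nat.zero_le (K * (n + z)), Nat.zero_le K])
  have h2 : K * (n + 1) ≤ a + K + (b + K) * (n + z) := by
    nlinarith [Nat.zero_le (b * (n + z)), Nat.zero_le a, Nat.zero_le (K * z)]
  calc K * (n + 1) * P.eval (a + b * (n + z))
      ≤ (a + K + (b + K) * (n + z)) * P.eval (a + K + (b + K) * (n + z)) :=
        Nat.mul_le_mul h2 h1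
    _ = 1 * (P.eval (a + K + (b + K) * (n + z)) * (a + K + (b + K) * (n + z))) := by ring
    _ ≤ 8 * n * (P.eval (a + K + (b + K) * (n + z)) * (a + K + (b + K) * (n + z))) :=
        Nat.mul_le_mul_right _ (by omega)

/-- The first part of the total cost. -/
theorem cost_first {K A n c1 : ℕ} (hn : 2 ≤ n) (hK : 32 * K * A ≤ n)
    (hc1 : c1 * n ^ 4 ≤ A * 2 ^ n * (n + 2) ^ 2) : K * (n + 1) * c1 ≤ 2 ^ n := by
  have h8 : (n + 2) ^ 2 ≤ 4 * n ^ 2 := by nlinarith
  have hnp : 0 < n ^ 4 := by positivity
  have h9 : c1 * n ^ 4 ≤ A * 2 ^ n * (4 * n ^ 2) := hc1.trans (Nat.mul_le_mul_left _ h8)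
  have h10 : (K * (n + 1) * c1) * n ^ 4 ≤ 2 ^ n * n ^ 4 := by
    calc (K * (n + 1) * c1) * n ^ 4 = K * (n + 1) * (c1 * n ^ 4) := by ring
      _ ≤ K * (2 * n) * (A * 2 ^ n * (4 * n ^ 2)) :=
          Nat.mul_le_mul (Nat.mul_le_mul_left _ (by omega)) h9
      _ = (8 * K * A) * (n ^ 3 * 2 ^ n) := by ring
      _ ≤ n * (n ^ 3 * 2 ^ n) := Nat.mul_le_mul_right _ (by
          have := Nat.zero_le (K * A)
          nlinarith)
      _ = 2 ^ n * n ^ 4 := by ring
  exact Nat.le_of_mul_le_mul_right h10 hnp

/-- The main theorem. -/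
theorem main_theorem : ∃ U : Machine, Universal U ∧ ∃ c, 0 < c ∧ ∀ D : Machine, ∃ n0, ∀ n ≥ n0,
    ∃ x : List Bool, x.length = n ∧ ¬ open Classical in
      Outputs D x [decide (x ∈ RKt U)] (2 ^ (n / c)) := by
  obtain ⟨T, hT⟩ := exists_mach
  obtain ⟨A, κ, n0, hsearch⟩ := search_cost T
  obtain ⟨U, T0, hU⟩ := hT (κ + 4)
  obtain ⟨PD, hPD⟩ := dec T
  obtain ⟨c, hc, hasym⟩ := asym_dec' PD
  refine ⟨U, hU.universal, c, hc, fun D => ?_⟩
  classical
  obtain ⟨Tb, a, hTb⟩ := exists_table D
  obtain ⟨L, hL⟩ : ∃ L, L = (tblCode Tb).length := ⟨_, rfl⟩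
  obtain ⟨K, hK⟩ : ∃ K, K = 4 * (2 * 2 ^ L) := ⟨_, rfl⟩
  obtain ⟨n1, hn1⟩ := hasym K (size Tb + a) (a + 1)
  obtain ⟨n2, hn2⟩ := asym_poly ((Polynomial.C K) * (Polynomial.X + 1) *
    T0.comp (Polynomial.X + 1)) 1 one_pos
  refine ⟨n0 + n1 + n2 + 32 * K * A + 2 ^ L + 2 * L + 4 + 2 ^ 4, fun n hn => ?_⟩
  -- the code
  obtain ⟨w, hw⟩ : ∃ w : List Bool, w = tblCode Tb ++ nxt^[n] [] := ⟨_, rfl⟩
  have hpw : parse w = (Tb, nxt^[n] []) := by rw [hw, parse_code]
  have htl : tlen w = n := by rw [tlen, hpw, nval_iter]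
  have hwl : w.length = L + lg n := by
    rw [hw, List.length_append, hL]
    rfl
  have hlg : 2 ^ lg n ≤ n + 1 := lg_le n
  have hlgn : 2 * lg n ≤ n := by
    -- `2 ^ lg n ≤ n + 1`
    have h1 : ∀ l, 4 ≤ l → 2 * l + 1 < 2 ^ l := by
      intro l hl
      induction l, hl using Nat.le_induction with
      | base => norm_num
      | succ l hl ih => rw [pow_succ]; omega
    by_contra hcon
    rcases lt_or_ge (lg n) 4 with h2 | h2
    · omega
    · have := h1 _ h2
      omega
  have hwn : w.length ≤ n := by omega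
  have hwB : w.length ≤ (κ + 4) * lg (n + 1) := by
    have h1 : L ≤ lg (n + 1) := le_lg (by omega)
    have h2 : lg n ≤ lg (n + 1) := lg_mono (by omega)
    have h3 : 4 * lg (n + 1) ≤ (κ + 4) * lg (n + 1) := Nat.mul_le_mul_right _ (by omega)
    omega
  have hwK : 2 ^ (w.length + 1) * 4 ≤ K * (n + 1) := by
    rw [hwl, hK, pow_succ, pow_add]
    calc 2 ^ L * 2 ^ lg n * 2 * 4 ≤ 2 ^ L * (n + 1) * 2 * 4 :=
          Nat.mul_le_mul_right _ (Nat.mul_le_mul_right _ (Nat.mul_le_mul_left _ hlg))
      _ = 4 * (2 * 2 ^ L) * (n + 1) := by ring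
  obtain ⟨u, hu⟩ : ∃ u, u = ufin (κ + 4) w := ⟨_, rfl⟩
  have hul : u.length = n := by rw [hu, length_ufin _ (by rw [htl]; exact hwn), htl]
  refine ⟨u, hul, fun hD => ?_⟩
  obtain ⟨s, hs, h1, h2, h3⟩ := hTb _ _ _ hD
  obtain ⟨N1, c1, hr1, hc1⟩ := hsearch w (by rw [htl]; omega) (by rw [htl]; exact hwn)
  rw [htl] at hc1
  rw [hpw, ← hu] at hr1
  obtain ⟨N2, c2, hr2, hc2⟩ := hPD Tb u s ⟨h2, h1⟩
  have hr := hr1.trans hr2
  rw [h3] at hr
  have hne : u ≠ [] := by
    intro h
    rw [h] at hul
    simp at hul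
    omega
  by_cases hmem : u ∈ RKt U
  · -- the string is called random, but has a short description
    have e1 : ([decide (u ∈ RKt U)] = [true]) := by simp [hmem]
    rw [if_pos e1] at hr
    have hout := hU.outputs hr (C := c1 + c2 + T.eval (size (sFin u))) le_rfl
    refine not_mem_of_outputs hout ?_ ?_ hmem
    · rw [hul]
      simp only [List.length_cons]
      -- the three bounds
      have b1 : K * (n + 1) * T0.eval (w.length + 1) ≤ 2 ^ n := by
        have h4 := hn2 n (by omega)
        simp only [Polynomial.eval_mul, Polynomial.eval_C, Polynomial.eval_X,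
          Polynomial.eval_comp, Polynomial.eval_add, Polynomial.eval_one, Nat.div_one] at h4
        have h5 := eval_mono T0 (by omega : w.length + 1 ≤ n + 1)
        exact (Nat.mul_le_mul_left _ h5).trans h4.le
      have b2 : K * (n + 1) * (c2 + T.eval (size (sFin u))) ≤ 2 ^ n := by
        have h4 := hn1 n (by omega)
        refine le_trans (Nat.mul_le_mul_left _ ?_) h4
        refine le_trans ?_ (eval_mono PD (?_ : size Tb + u.length + s ≤ _))
        · exact le_trans (Nat.le_add_right _ _) hc2
        · rw [hul]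
          generalize 2 ^ (n / c) = z at hs
          nlinarith [Nat.zero_le (a * n), Nat.zero_le z]
      have b3 : K * (n + 1) * c1 ≤ 2 ^ n := cost_first (by omega) (by omega) hc1
      have b5 := Nat.mul_le_mul_right (T0.eval (w.length + 1) +
        (c1 + c2 + T.eval (size (sFin u)))) hwK
      have b6 : 0 < 2 ^ n := by positivity
      have b7 : K * (n + 1) * (T0.eval (w.length + 1) + (c1 + c2 + T.eval (size (sFin u)))) =
          K * (n + 1) * T0.eval (w.length + 1) + K * (n + 1) * c1 +
          K * (n + 1) * (c2 + T.eval (size (sFin u))) := by ring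
      have b8 : 2 ^ (w.length + 1) * 4 * (T0.eval (w.length + 1) +
          (c1 + c2 + T.eval (size (sFin u)))) = 4 * (2 ^ (w.length + 1) *
          (T0.eval (w.length + 1) + (c1 + c2 + T.eval (size (sFin u))))) := by ring
      omega
    · rw [hul]
      simp only [List.length_cons]
      omega
  · -- the string is not called random
    have e1 : ¬ ([decide (u ∈ RKt U)] = [true]) := by simp [hmem]
    rw [if_neg e1] at hr
    obtain ⟨d, t, hdt, hlt⟩ := exists_of_not_mem (hU.exists_output u) hmem
    by_cases hd : d.head? = some true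
    · obtain ⟨w', rfl⟩ : ∃ w', d = true :: w' := by
        cases d with
        | nil => simp at hd
        | cons b w' => simp at hd; exact ⟨w', by rw [hd]⟩
      rcases hU.diag_out (by omega) hdt with h4 | h4
      · rcases lt_or_ge (tlen w') w'.length with h5 | h5
        · -- a description longer than the string
          rw [ufin_of_lt _ h5.le] at h4
          have ht := hU.pos hdt
          rw [← h4] at hlt
          have h6 : 2 ^ (true :: u).length * 1 ≤ 2 ^ (true :: u).length * t :=
            Nat.mul_le_mul_left _ ht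
          have h7 : 2 ^ u.length ≤ 2 ^ (true :: u).length :=
            Nat.pow_le_pow_right (by norm_num) (by simp)
          omega
        · -- the same description
          have h6 : tlen w' = n := by
            rw [← length_ufin (κ + 4) h5, ← h4, hul]
          have h7 : (parse w').2 = nxt^[n] [] := by
            apply nval_injective
            rw [nval_iter]
            exact h6
          have hp0 : nxt^[n] [] ≠ [] := by
            intro h
            have := congrArg nval h
            rw [nval_iter] at this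
            simp only [nval] at this
            omega
          have h8 : w' = w := by
            have h9 : w' <+: u := by rw [h4]; exact prefix_ufin _ _
            have h10 : w <+: u := by rw [hu]; exact prefix_ufin _ _
            rcases List.prefix_or_prefix_of_prefix h9 h10 with ⟨z, hz⟩ | ⟨z, hz⟩
            · have h11 := parse_append z (w := w') (by rw [h7]; exact hp0)
              rw [hz, hpw, h7] at h11
              have h12 := congrArg (fun p => p.2.length) h11
              simp only [List.length_append] at h12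
              have h13 : z = [] := List.eq_nil_of_length_eq_zero (by omega)
              rw [← hz, h13, List.append_nil]
            · have h11 := parse_append z (w := w) (by rw [hpw]; exact hp0)
              rw [hz, hpw] at h11
              have h12 := congrArg (fun p => p.2.length) h11
              simp only [List.length_append, h7] at h12
              have h13 : z = [] := List.eq_nil_of_length_eq_zero (by omega)
              rw [← hz, h13, List.append_nil]
          rw [h8] at hdt
          obtain ⟨h9, _⟩ := hU.out_eq hr hdt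
          exact hne h9
      · exact hne h4
    · have h4 := hp_of_outputs hU hd hdt hlt
      rw [hul] at h4
      have h5 := not_hp_ufin (B := κ + 4) (w := w) (by rw [htl]; exact hwn)
        (by rw [htl]; exact hwB) d.tail
      rw [htl, ← hu] at h5
      exact h5 h4

/-- In particular the set of Levin-random strings is not in P. -/
theorem not_inP {U : Machine} {c : ℕ} (hc : 0 < c) (h : ∀ D : Machine, ∃ n0, ∀ n ≥ n0,
    ∃ x : List Bool, x.length = n ∧ ¬ open Classical in
      Outputs D x [decide (x ∈ RKt U)] (2 ^ (n / c))) : ¬ InP (RKt U) := by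
  intro hP
  obtain ⟨D, q, hq⟩ := exists_machine_of_inP hP
  obtain ⟨n0, hn0⟩ := h D
  obtain ⟨n1, hn1⟩ := asym_poly q c hc
  obtain ⟨x, hx, hno⟩ := hn0 (max n0 n1) (le_max_left _ _)
  apply hno
  refine Outputs.mono (hq x) ?_
  rw [hx]
  exact (hn1 _ (le_max_right _ _)).le

end Pool.Agent.Lib.MP_33f9c4_lc
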