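import Pool.Agent.Lib.MP_33f9c4_lc.Status2
import Pool.Agent.Lib.MP_33f9c4_lc.Main

/-!
# The new machine compared with the given one
-/

namespace Pool.Agent.Lib.MP_33f9c4_lc.Ef

open Pool.Agent.Lib.PolyTime Function Finset

set_option synthInstance.maxSize 2000

/-- Polynomial time functions on strings, as machines. -/
theorem exists_machine_of_pt {f : List Bool → List Bool} (hf : PT f) :
    ∃ (M : Machine) (q : Polynomial ℕ), ∀ d, Outputs M d (f d) (q.eval d.length) := by
  obtain ⟨T, hT⟩ := exists_loop (S := List Bool) (g := fun x => x) (fin := fun _ => true)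
    (out := f) PT.id (PT.const _) hf
  obtain ⟨U, T0, h1, _⟩ := hT (fun d => d) PT.id
  refine ⟨U, T0 + T.comp (4 * Polynomial.X + 1), fun d => ?_⟩
  have h2 := h1 d 0 rfl (by simp)
  refine Outputs.mono h2 ?_
  rw [Polynomial.eval_add, Polynomial.eval_comp]
  refine Nat.add_le_add_left ?_ _
  simp only [zero_add, sum_range_one, iterate_zero, id_eq, Polynomial.eval_add,
    Polynomial.eval_mul, Polynomial.eval_X, Polynomial.eval_ofNat, Polynomial.eval_one]
  exact eval_mono T (size_bools d)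

/-- Every string `x` has a description of cost `O(|x|)`. -/
def Good (V : Machine) : Prop :=
  ∃ C : ℕ, ∀ x : List Bool, ∃ (d : List Bool) (t : ℕ), Outputs V d x t ∧
    (d.length : ℝ) + Real.logb 2 t ≤ C * (x.length + 1)

theorem logb_le (m : ℕ) : Real.logb 2 m ≤ m := by
  rcases Nat.eq_zero_or_pos m with rfl | hm
  · simp
  · rw [Real.logb_le_iff_le_rpow (by norm_num) (by exact_mod_cast hm), Real.rpow_natCast]
    exact_mod_cast (Nat.lt_two_pow_self (n := m)).le

theorem logb_mono {m n : ℕ} (h : m ≤ n) : Real.logb 2 m ≤ Real.logb 2 n := by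
  rcases Nat.eq_zero_or_pos m with rfl | hm
  · rcases Nat.eq_zero_or_pos n with rfl | hn
    · simp
    · simp only [Nat.cast_zero, Real.logb_zero]
      exact Real.logb_nonneg (by norm_num) (by exact_mod_cast hn)
  · exact Real.logb_le_logb_of_le (by norm_num) (by exact_mod_cast hm) (by exact_mod_cast h)

theorem logb_nonneg (m : ℕ) : 0 ≤ Real.logb 2 m := by
  have := logb_mono (Nat.zero_le m)
  simpa using this

theorem logb_max (t : ℕ) : Real.logb 2 (max t 1 : ℕ) = Real.logb 2 t := by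
  rcases Nat.eq_zero_or_pos t with rfl | ht
  · simp
  · rw [max_eq_left ht]

/-- Logarithm of a product with a power. -/
theorem logb_prod_le (D t k n : ℕ) :
    Real.logb 2 (D * max t 1 * (n + 2) ^ k : ℕ) ≤
      Real.logb 2 t + (D + k) * Real.logb 2 (n + 2) := by
  have h0 : (1 : ℝ) ≤ Real.logb 2 ((n : ℝ) + 2) := by
    rw [Real.le_logb_iff_rpow_le (by norm_num) (by positivity)]
    have : (0 : ℝ) ≤ n := Nat.cast_nonneg n
    rw [Real.rpow_one]
    linarith
  rcases Nat.eq_zero_or_pos D with rfl | hD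
  · simp only [zero_mul, Nat.cast_zero, Real.logb_zero, zero_add]
    have := logb_nonneg t
    have : (0 : ℝ) ≤ k := Nat.cast_nonneg k
    positivity
  · have hD' : (0 : ℝ) < D := by exact_mod_cast hD
    have ht' : (0 : ℝ) < ((max t 1 : ℕ) : ℝ) := by
      have : 0 < max t 1 := by omega
      exact_mod_cast this
    have hn' : (0 : ℝ) < (n : ℝ) + 2 := by positivity
    have e : ((D * max t 1 * (n + 2) ^ k : ℕ) : ℝ) = D * ((max t 1 : ℕ) : ℝ) * ((n : ℝ) + 2) ^ k := by
      push_cast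
      ring
    rw [e, Real.logb_mul (by positivity) (by positivity), Real.logb_mul (by positivity)
      (by positivity), logb_max, Real.logb_pow]
    have h1 := logb_le D
    have h2 : (D : ℝ) ≤ D * Real.logb 2 ((n : ℝ) + 2) := by nlinarith
    nlinarith

/-- Polynomials. -/
theorem eval_lin_le (P : Polynomial ℕ) (C : ℕ) : ∃ D k : ℕ, ∀ n z : ℕ, z ≤ C * (n + 2) →
    P.eval z ≤ D * (n + 2) ^ k := by
  obtain ⟨A, k, h⟩ := eval_le_pow P
  refine ⟨A * (C + 1) ^ k, k, fun n z hz => (h z).trans ?_⟩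
  rw [mul_assoc, ← Nat.mul_pow]
  refine Nat.mul_le_mul_left _ (Nat.pow_le_pow_left ?_ _)
  have : (C + 1) * (n + 2) = C * (n + 2) + n + 2 := by ring
  omega

theorem Universal.good {V : Machine} (h : Universal V) : Good V := by
  obtain ⟨Q, hQ⟩ := h
  obtain ⟨I, q, hI⟩ := exists_machine_of_pt (f := fun x => x) PT.id
  obtain ⟨p, a, hp, _⟩ := hQ I
  obtain ⟨D, k, hD⟩ := eval_lin_le (Q.comp (Polynomial.C a * (Polynomial.X + q + 1))) 1
  refine ⟨p.length + 1 + 2 * (D + k), fun x => ⟨p ++ x, _, hp x x _ (hI x), ?_⟩⟩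
  have h1 := hD x.length x.length (by omega)
  simp only [Polynomial.eval_comp, Polynomial.eval_mul, Polynomial.eval_C, Polynomial.eval_add,
    Polynomial.eval_X, Polynomial.eval_one] at h1
  have h2 := (logb_mono h1)
  have h3 := logb_prod_le D 1 k x.length
  simp only [max_self, mul_one] at h3
  have h4 := logb_le (x.length + 2)
  have h5 : Real.logb 2 (1 : ℕ) = 0 := by simp
  rw [h5] at h3
  push_cast at h2 h3 h4 ⊢
  rw [List.length_append]
  push_cast
  have h6 : (0 : ℝ) ≤ x.length := Nat.cast_nonneg _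
  have h7 : (0 : ℝ) ≤ p.length := Nat.cast_nonneg _
  have h8 : (0 : ℝ) ≤ (D : ℝ) + k := by positivity
  have h9 : ((D : ℝ) + k) * Real.logb 2 ((x.length : ℝ) + 2) ≤ (D + k) * (x.length + 2) :=
    mul_le_mul_of_nonneg_left h4 h8
  nlinarith [mul_nonneg h7 h6, mul_nonneg h8 h6]

theorem kt_exists {V : Machine} {x : List Bool} (hex : ∃ d t, Outputs V d x t) {r : ℝ}
    (hr : Kt V x < r) : ∃ (d : List Bool) (t : ℕ), Outputs V d x t ∧
      (d.length : ℝ) + Real.logb 2 t < r := by
  obtain ⟨d0, t0, h0⟩ := hex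
  have hne' : {r : ℝ | ∃ (d : List Bool) (t : ℕ), Outputs V d x t ∧
      r = d.length + Real.logb 2 t}.Nonempty := ⟨_, d0, t0, h0, rfl⟩
  obtain ⟨r', ⟨d, t, hdt, rfl⟩, hr'⟩ := exists_lt_of_csInf_lt hne' hr
  exact ⟨d, t, hdt, hr'⟩

theorem kt_le {V : Machine} {x d : List Bool} {t : ℕ} (h : Outputs V d x t) :
    Kt V x ≤ d.length + Real.logb 2 t := csInf_le (kt_bdd V x) ⟨d, t, h, rfl⟩

theorem le_kt {V : Machine} {x : List Bool} (hex : ∃ d t, Outputs V d x t) {r : ℝ}
    (hr : ∀ d t, Outputs V d x t → r ≤ d.length + Real.logb 2 t) : r ≤ Kt V x := by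
  obtain ⟨d0, t0, h0⟩ := hex
  refine le_csInf ⟨_, d0, t0, h0, rfl⟩ ?_
  rintro r' ⟨d, t, hdt, rfl⟩
  exact hr d t hdt

theorem Optimal.good {V : Machine} (h : Optimal V) : Good V := by
  obtain ⟨I, q, hI⟩ := exists_machine_of_pt (f := fun x => x) PT.id
  obtain ⟨c, hc⟩ := h I
  obtain ⟨D, k, hD⟩ := eval_lin_le q 1
  obtain ⟨c', hc'⟩ := exists_nat_ge c
  refine ⟨2 + 2 * (D + k + c'), fun x => ?_⟩
  obtain ⟨hex, h1⟩ := hc x x _ (hI x)
  have h2 := logb_mono (hD x.length x.length (by omega))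
  have h3 := logb_prod_le D 1 k x.length
  simp only [max_self, mul_one] at h3
  have h4 := logb_le (x.length + 2)
  have h5 : Real.logb 2 (1 : ℕ) = 0 := by simp
  rw [h5] at h3
  push_cast at h2 h3 h4
  have h6 : (0 : ℝ) ≤ x.length := Nat.cast_nonneg _
  have h8 : (0 : ℝ) ≤ (D : ℝ) + k + c' := by positivity
  have h9 : (0 : ℝ) ≤ Real.logb 2 ((x.length : ℝ) + 2) := by
    have := logb_nonneg (x.length + 2)
    push_cast at this
    exact this
  have h10 : c * Real.logb 2 ((x.length : ℝ) + 2) ≤ c' * Real.logb 2 ((x.length : ℝ) + 2) :=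
    mul_le_mul_of_nonneg_right hc' h9
  have h11 : ((D : ℝ) + k + c') * Real.logb 2 ((x.length : ℝ) + 2) ≤
      (D + k + c') * (x.length + 2) := mul_le_mul_of_nonneg_left h4 h8
  obtain ⟨d, t, h12, h13⟩ := kt_exists hex (lt_add_one (Kt V x))
  refine ⟨d, t, h12, h13.le.trans ?_⟩
  push_cast
  nlinarith [mul_nonneg h8 h6]

end Pool.Agent.Lib.MP_33f9c4_lc.Ef
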