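import Pool.Agent.Lib.MP_33f9c4_lc.QDefs
import Pool.Agent.Lib.MP_33f9c4_lc.Hybrid
import Pool.Agent.Lib.MP_33f9c4_lc.Boost

/-!
# From a test of the generator to votes for the hard bit
-/

set_option autoImplicit false

namespace Pool.Agent.Lib.MP_33f9c4_lc.Qt

open Pool.Agent.Lib.PolyTime Function Finset

/-- Concatenation of the strings of a family. -/
def cat {n : ℕ} (F : Fin n → List Bool) : List Bool := (List.ofFn F).flatten

theorem ofFn_update {α : Type} {n : ℕ} (F : Fin n → α) (i : Fin n) (a : α) :
    List.ofFn (update F i a) =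
      (List.ofFn F).take i ++ a :: (List.ofFn F).drop (i + 1) := by
  have h1 : List.ofFn (update F i a) = (List.ofFn F).set i a := by
    apply List.ext_getElem
    · simp
    · intro j h2 h3
      rw [List.getElem_ofFn, List.getElem_set]
      by_cases h : (i : ℕ) = j
      · rw [if_pos h]
        have : (⟨j, by simpa using h2⟩ : Fin n) = i := Fin.ext h.symm
        rw [this, update_self]
      · rw [if_neg h, List.getElem_ofFn, update_of_ne]
        intro h4
        exact h (congrArg Fin.val h4).symm
  rw [h1, List.set_eq_take_append_cons_drop, if_pos (by simp)]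

theorem ofFn_split {α : Type} {n : ℕ} (F : Fin n → α) (i : Fin n) :
    List.ofFn F = (List.ofFn F).take i ++ F i :: (List.ofFn F).drop (i + 1) := by
  have := ofFn_update F i (F i)
  rwa [update_eq_self] at this

theorem cat_update {n : ℕ} (F : Fin n → List Bool) (i : Fin n) (a : List Bool) :
    cat (update F i a) = ((List.ofFn F).take i).flatten ++
      (a ++ ((List.ofFn F).drop (i + 1)).flatten) := by
  unfold cat
  rw [ofFn_update, List.flatten_append, List.flatten_cons]

theorem cat_split {n : ℕ} (F : Fin n → List Bool) (i : Fin n) :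
    cat F = ((List.ofFn F).take i).flatten ++
      (F i ++ ((List.ofFn F).drop (i + 1)).flatten) := by
  have := cat_update F i (F i)
  rwa [update_eq_self] at this

theorem length_flatten_const {L : ℕ} (l : List (List Bool)) (h : ∀ x ∈ l, x.length = L) :
    l.flatten.length = l.length * L := by
  induction l with
  | nil => simp
  | cons x l ih =>
    rw [List.flatten_cons, List.length_append, h x List.mem_cons_self,
      ih fun y hy => h y (List.mem_cons_of_mem _ hy), List.length_cons]
    ring

theorem length_cat {n L : ℕ} (F : Fin n → List Bool) (h : ∀ i, (F i).length = L) :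
    (cat F).length = n * L := by
  unfold cat
  rw [length_flatten_const (L := L), List.length_ofFn]
  intro x hx
  rw [List.mem_ofFn] at hx
  obtain ⟨i, rfl⟩ := hx
  exact h i

theorem length_take_flatten {n L : ℕ} (F : Fin n → List Bool) (h : ∀ i, (F i).length = L)
    (i : Fin n) : ((List.ofFn F).take i).flatten.length = i * L := by
  rw [length_flatten_const (L := L), List.length_take, List.length_ofFn,
    Nat.min_eq_left i.2.le]
  intro x hx
  have hx' := List.mem_of_mem_take hx
  rw [List.mem_ofFn] at hx'
  obtain ⟨j, rfl⟩ := hx'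
  exact h j

/-- The blocks of a concatenation. -/
theorem drop_cat {n L : ℕ} (F : Fin n → List Bool) (h : ∀ i, (F i).length = L) (i : Fin n)
    (r : List Bool) : ∃ r', (cat F ++ r).drop (i * L) = F i ++ r' := by
  refine ⟨((List.ofFn F).drop (i + 1)).flatten ++ r, ?_⟩
  rw [cat_split F i, List.append_assoc, List.append_assoc]
  rw [← length_take_flatten F h i, List.drop_left]

theorem take_drop_cat {n L : ℕ} (F : Fin n → List Bool) (h : ∀ i, (F i).length = L) (i : Fin n)
    (r : List Bool) : ((cat F ++ r).drop (i * L)).take L = F i := by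
  obtain ⟨r', hr⟩ := drop_cat F h i r
  rw [hr, ← h i, List.take_left]

/-- The hard bit of a family of blocks. -/
def bz {Y : Type} (β : Y → Bool) {K : ℕ} (ζ : Fin K → Y) : Bool :=
  (List.range K).foldl (fun s i => xor s (if h : i < K then β (ζ ⟨i, h⟩) else false)) false

theorem sign_xor (a b : Bool) : (if xor a b = true then (-1 : ℝ) else 1) =
    (if a = true then (-1 : ℝ) else 1) * (if b = true then (-1 : ℝ) else 1) := by
  cases a <;> cases b <;> simp

theorem sign_fold (γ : ℕ → Bool) (n : ℕ) :
    (if (List.range n).foldl (fun s i => xor s (γ i)) false = true then (-1 : ℝ) else 1) =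
      ∏ i ∈ range n, (if γ i = true then (-1 : ℝ) else 1) := by
  induction n with
  | zero => simp
  | succ n ih =>
    rw [List.range_succ, List.foldl_append, Finset.prod_range_succ, ← ih]
    exact sign_xor _ _

theorem sign_bz {Y : Type} (β : Y → Bool) {K : ℕ} (ζ : Fin K → Y) :
    (if bz β ζ = true then (-1 : ℝ) else 1) = ∏ i, (if β (ζ i) = true then (-1 : ℝ) else 1) := by
  unfold bz
  rw [sign_fold, Finset.prod_range]
  refine Finset.prod_congr rfl fun i _ => ?_
  rw [dif_pos i.2]

theorem xbit_cat (p N K : ℕ) (f : (Fin N → Bool) → Bool)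
    (ζ : Fin K → List.Vector Bool (mN N)) (r : List Bool) :
    xbit p N K f (cat (fun i => (ζ i).1) ++ r) = bz (fun y => gbit p N f y.1) ζ := by
  unfold xbit bz
  have key : ∀ n ≤ K, (List.range n).foldl (fun s i => xor s (gbit p N f
      (((cat (fun i => (ζ i).1) ++ r).drop (i * mN N)).take (mN N)))) false =
      (List.range n).foldl (fun s i => xor s (if h : i < K then gbit p N f (ζ ⟨i, h⟩).1
        else false)) false := by
    intro n
    induction n with
    | zero => intro _; rfl
    | succ n ih =>
      intro hn
      rw [List.range_succ, List.foldl_append, List.foldl_append, ih (by omega)]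
      simp only [List.foldl_cons, List.foldl_nil]
      rw [dif_pos (by omega : n < K)]
      have h1 := take_drop_cat (L := mN N) (fun i => (ζ i).1) (fun i => (ζ i).2)
        (⟨n, by omega⟩ : Fin K) r
      simp only at h1
      rw [h1]
  exact key K le_rfl

/-- The string of a family of families of blocks. -/
def cat2 {k K m : ℕ} (z : Fin k → Fin K → List.Vector Bool m) : List Bool :=
  cat (fun j => cat (fun i => (z j i).1))

theorem length_cat1 {K m : ℕ} (ζ : Fin K → List.Vector Bool m) :
    (cat (fun i => (ζ i).1)).length = K * m := length_cat _ fun i => (ζ i).2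

theorem length_cat2 {k K m : ℕ} (z : Fin k → Fin K → List.Vector Bool m) :
    (cat2 z).length = k * (K * m) := length_cat _ fun j => length_cat1 (z j)

theorem cat1_injective {K m : ℕ} :
    Injective (fun ζ : Fin K → List.Vector Bool m => cat (fun i => (ζ i).1)) := by
  intro ζ ζ' h
  funext i
  apply Subtype.ext
  have h1 := take_drop_cat (L := m) (fun i => (ζ i).1) (fun i => (ζ i).2) i []
  have h2 := take_drop_cat (L := m) (fun i => (ζ' i).1) (fun i => (ζ' i).2) i []
  simp only at h h1 h2
  rw [← h1, ← h2, h]

theorem cat2_injective {k K m : ℕ} :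
    Injective (cat2 : (Fin k → Fin K → List.Vector Bool m) → List Bool) := by
  intro z z' h
  funext j
  apply cat1_injective
  have h1 := take_drop_cat (L := K * m) (fun j => cat (fun i => (z j i).1))
    (fun j => length_cat1 (z j)) j []
  have h2 := take_drop_cat (L := K * m) (fun j => cat (fun i => (z' j i).1))
    (fun j => length_cat1 (z' j)) j []
  simp only at h1 h2 ⊢
  rw [← h1, ← h2]
  unfold cat2 at h
  rw [h]

theorem cat2_update {k K m : ℕ} (z : Fin k → Fin K → List.Vector Bool m) (j : Fin k)
    (v : Fin K → List.Vector Bool m) (i : Fin K) (y : List.Vector Bool m) :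
    cat2 (update z j (update v i y)) =
      (((List.ofFn fun j => cat (fun i => (z j i).1)).take j).flatten ++
        ((List.ofFn fun i => (v i).1).take i).flatten) ++
      (y.1 ++ (((List.ofFn fun i => (v i).1).drop (i + 1)).flatten ++
        ((List.ofFn fun j => cat (fun i => (z j i).1)).drop (j + 1)).flatten)) := by
  have h1 : (fun j' => cat (fun i' => (update z j (update v i y) j' i').1)) =
      update (fun j => cat (fun i => (z j i).1)) j (cat (fun i' => (update v i y i').1)) := by
    funext j'
    by_cases hj : j' = j
    · subst hj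
      rw [update_self, update_self]
    · rw [update_of_ne hj, update_of_ne hj]
  have h2 : (fun i' => (update v i y i').1) = update (fun i => (v i).1) i y.1 := by
    funext i'
    by_cases hi : i' = i
    · subst hi
      rw [update_self, update_self]
    · rw [update_of_ne hi, update_of_ne hi]
  unfold cat2
  rw [h1, cat_update, h2, cat_update]
  simp only [List.append_assoc]

theorem gen_cat2 (p N k : ℕ) (f : (Fin N → Bool) → Bool)
    (z : Fin k → Fin (k * dN N) → List.Vector Bool (mN N)) :
    gen p N k f (cat2 z) = cat2 z ++ List.ofFn (fun j => bz (fun y => gbit p N f y.1) (z j)) := by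
  unfold gen
  congr 1
  apply List.ext_getElem
  · simp
  · intro j h1 h2
    rw [List.getElem_map, List.getElem_range, List.getElem_ofFn]
    have hj : j < k := by simpa using h2
    obtain ⟨r, hr⟩ := drop_cat (L := k * dN N * mN N) (fun j => cat (fun i => (z j i).1))
      (fun j => length_cat1 (z j)) ⟨j, hj⟩ []
    rw [List.append_nil] at hr
    simp only at hr
    unfold cat2
    rw [hr]
    exact xbit_cat p N (k * dN N) f (z ⟨j, hj⟩) r

/-- All strings of the right length are obtained from blocks and bits. -/
theorem card_strings (k K m : ℕ) (Q : List Bool → Bool) :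
    (univ.filter (fun x : List.Vector Bool (k * (K * m) + k) => Q x.1 = true)).card ≤
      (univ.filter (fun x : (Fin k → Fin K → List.Vector Bool m) × (Fin k → Bool) =>
        Q (cat2 x.1 ++ List.ofFn x.2) = true)).card := by
  set Φ : (Fin k → Fin K → List.Vector Bool m) × (Fin k → Bool) →
      List.Vector Bool (k * (K * m) + k) := fun x => ⟨cat2 x.1 ++ List.ofFn x.2, by
        rw [List.length_append, length_cat2, List.length_ofFn]⟩ with hΦ
  have hinj : Injective Φ := by
    intro x x' h
    have h1 : cat2 x.1 ++ List.ofFn x.2 = cat2 x'.1 ++ List.ofFn x'.2 := congrArg Subtype.val h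
    obtain ⟨h2, h3⟩ := List.append_inj h1 (by rw [length_cat2, length_cat2])
    exact Prod.ext (cat2_injective h2) (List.ofFn_injective h3)
  have hcard : Fintype.card ((Fin k → Fin K → List.Vector Bool m) × (Fin k → Bool)) =
      Fintype.card (List.Vector Bool (k * (K * m) + k)) := by
    rw [Fintype.card_prod, Fintype.card_fun, Fintype.card_fun, Fintype.card_fun, card_vector,
      card_vector, Fintype.card_bool, Fintype.card_fin, Fintype.card_fin, pow_add, ← pow_mul,
      ← pow_mul]
    ring_nf
  have hbij : Bijective Φ := (Fintype.bijective_iff_injective_and_card Φ).2 ⟨hinj, hcard⟩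
  refine card_le_card_of_surjOn Φ ?_
  intro x hx
  obtain ⟨a, rfl⟩ := hbij.2 x
  rw [mem_coe, mem_filter] at hx
  exact ⟨a, by rw [mem_coe, mem_filter]; exact ⟨mem_univ _, hx.2⟩, rfl⟩

theorem vote_sum (O : List Bool → Bool) (ts : List Tm) (y : List Bool) :
    (ts.map (fun T => (if T.1 then (1 : ℝ) else -1) *
      ((if O (fillT T y true) = true then (1 : ℝ) else 0) -
        (if O (fillT T y false) = true then (1 : ℝ) else 0)))).sum =
    ((ts.filter (fun T => pls O T y)).length : ℝ) - ((ts.filter (fun T => mns O T y)).length : ℝ) := by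
  induction ts with
  | nil => simp
  | cons T ts ih =>
    rw [List.map_cons, List.sum_cons, ih, List.filter_cons, List.filter_cons]
    have h1 : (if T.1 then (1 : ℝ) else -1) *
      ((if O (fillT T y true) = true then (1 : ℝ) else 0) -
        (if O (fillT T y false) = true then (1 : ℝ) else 0)) =
        (if pls O T y = true then (1 : ℝ) else 0) - (if mns O T y = true then (1 : ℝ) else 0) := by
      unfold pls mns
      cases T.1 <;> cases O (fillT T y true) <;> cases O (fillT T y false) <;> simp
    rw [h1]
    split_ifs <;> simp <;> ring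

theorem exists_votes (N k p : ℕ) (f : (Fin N → Bool) → Bool) (O : List Bool → Bool)
    (hN : 0 < N) (hk : 0 < k)
    (h1 : 2 ^ (sN N k + k) ≤
      2 * (univ.filter (fun x : List.Vector Bool (sN N k + k) => O x.1 = true)).card)
    (h0 : ∀ ys : List Bool, ys.length = sN N k → O (gen p N k f ys) = false) :
    ∃ ts : List Tm, ts.length ≤ 4 * (k * dN N) ^ 2 + 1 ∧
      (∀ T ∈ ts, T.2.1.length + T.2.2.1.length + T.2.2.2.length ≤ sN N k + k) ∧
      dN N * (univ.filter (fun y : List.Vector Bool (mN N) =>
        vote O ts y.1 ≠ gbit p N f y.1)).card ≤ 2 ^ mN N := by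
  classical
  set m := mN N with hm
  set d := dN N with hd
  set K := k * d with hK
  have hd0 : 0 < d := by rw [hd]; unfold dN; positivity
  set β : List.Vector Bool m → Bool := fun y => gbit p N f y.1 with hβ
  have hcardY : Fintype.card (List.Vector Bool m) = 2 ^ m := by
    rw [card_vector, Fintype.card_bool]
  have hsN : sN N k = k * (K * m) := rfl
  set A : (Fin k → Fin K → List.Vector Bool m) → (Fin k → Bool) → Bool :=
    fun z w => O (cat2 z ++ List.ofFn w) with hA
  have hne : Nonempty (List.Vector Bool m) := ⟨⟨List.replicate m false, List.length_replicate⟩⟩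
  obtain ⟨j, z, w, hadv⟩ := hybrid (Z := Fin K → List.Vector Bool m) (bz β) A (by
    refine le_trans (le_of_eq ?_) (h1.trans (Nat.mul_le_mul_left 2 (card_strings k K m O)))
    rw [Fintype.card_fun, hcardY, Fintype.card_fin, hsN, pow_add, ← pow_mul, ← pow_mul]
    ring_nf) (by
    intro z
    have h2 := h0 (cat2 z) (length_cat2 z)
    rwa [gen_cat2] at h2)
  set P : (Fin K → List.Vector Bool m) → ℝ := fun ζ =>
    (if A (update z j ζ) (update w j true) = true then (1 : ℝ) else 0) -
      (if A (update z j ζ) (update w j false) = true then (1 : ℝ) else 0) with hP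
  have hk' : (0 : ℝ) < k := by exact_mod_cast hk
  have hd' : (0 : ℝ) < d := by exact_mod_cast hd0
  have hd1 : (1 : ℝ) ≤ d := by exact_mod_cast hd0
  obtain ⟨c, hc1, hc2⟩ := boost (fun y => if β y = true then (-1 : ℝ) else 1)
    (by intro y; by_cases h : β y = true <;> simp [h]) P
    (by
      intro v
      rw [hP]
      simp only
      split_ifs <;> norm_num) (ε := 1 / k) (δ := 1 / d) (by positivity) (by positivity)
    (by rw [div_le_one hd']; exact hd1)
    (by
      have h2 : (Fintype.card (List.Vector Bool m) : ℝ) ^ K =
          (Fintype.card (Fin K → List.Vector Bool m) : ℝ) := by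
        rw [Fintype.card_fun, Fintype.card_fin]
        push_cast
        rfl
      rw [h2]
      refine hadv.trans (le_of_eq (Finset.sum_congr rfl fun ζ _ => ?_))
      rw [sign_bz])
    (by
      -- (1 - 1/d)^(k d) ≤ 1 / (2 k)
      have h2 : (1 - 1 / (d : ℝ)) ≤ Real.exp (-(1 / d)) := by
        have := Real.add_one_le_exp (-(1 / (d : ℝ)))
        linarith
      have h3 : (0 : ℝ) ≤ 1 - 1 / d := by
        rw [sub_nonneg, div_le_one hd']
        exact hd1
      have h4 : (1 - 1 / (d : ℝ)) ^ K ≤ Real.exp (-k) := by
        refine (pow_le_pow_left₀ h3 h2 K).trans (le_of_eq ?_)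
        rw [← Real.exp_nat_mul]
        congr 1
        rw [hK]
        push_cast
        field_simp
      refine h4.trans ?_
      rw [Real.exp_neg]
      have h5 : (2 * k : ℝ) ≤ Real.exp k := by
        have h6 := Real.add_one_le_exp ((k : ℝ) - 1)
        have h7 : Real.exp (k : ℝ) = Real.exp ((k : ℝ) - 1) * Real.exp 1 := by
          rw [← Real.exp_add]
          congr 1
          ring
        have h8 : (2 : ℝ) ≤ Real.exp 1 := by
          have := Real.add_one_le_exp (1 : ℝ)
          linarith
        rw [h7]
        have h9 : (k : ℝ) ≤ Real.exp ((k : ℝ) - 1) := by linarith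
        calc (2 * k : ℝ) = k * 2 := by ring
          _ ≤ _ := mul_le_mul h9 h8 (by norm_num) (Real.exp_pos _).le
      have h10 : (1 / (k : ℝ)) / 2 = (2 * (k : ℝ))⁻¹ := by
        field_simp
      rw [h10]
      exact inv_anti₀ (by positivity) h5)
    (4 * (k * d) ^ 2 + 1)
    (by
      push_cast
      have h2 : (2 / (1 / (k : ℝ) * (1 / d))) ^ 2 = 4 * ((k : ℝ) * d) ^ 2 := by
        field_simp
        ring
      rw [h2]
      linarith)
  -- the templates
  set tm : (Fin K → List.Vector Bool m) × (Fin K × Bool) → Tm := fun a =>
    (a.2.2, ((((List.ofFn fun j => cat (fun i => (z j i).1)).take j).flatten ++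
        ((List.ofFn fun i => (a.1 i).1).take a.2.1).flatten),
      ((((List.ofFn fun i => (a.1 i).1).drop (a.2.1 + 1)).flatten ++
        ((List.ofFn fun j => cat (fun i => (z j i).1)).drop (j + 1)).flatten) ++
        (List.ofFn w).take j, (List.ofFn w).drop (j + 1)))) with htm
  have hfill : ∀ a (y : List.Vector Bool m) (b : Bool),
      cat2 (update z j (update a.1 a.2.1 y)) ++ List.ofFn (update w j b) =
        fillT (tm a) y.1 b := by
    intro a y b
    rw [cat2_update, ofFn_update, htm]
    unfold fillT
    simp only [List.append_assoc]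
  refine ⟨c.map tm, by rw [List.length_map]; exact hc1, ?_, ?_⟩
  · intro T hT
    rw [List.mem_map] at hT
    obtain ⟨a, -, rfl⟩ := hT
    have h2 := congrArg List.length (hfill a ⟨List.replicate m false, List.length_replicate⟩ true)
    rw [List.length_append, length_cat2, List.length_ofFn] at h2
    rw [hsN, h2]
    unfold fillT
    simp only [List.length_append, List.length_cons]
    omega
  · have hsum : ∀ y : List.Vector Bool m,
        (c.map (fun a => (if a.2.2 then (1 : ℝ) else -1) * P (update a.1 a.2.1 y))).sum =
        (((c.map tm).filter (fun T => pls O T y.1)).length : ℝ) -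
          (((c.map tm).filter (fun T => mns O T y.1)).length : ℝ) := by
      intro y
      rw [← vote_sum, List.map_map]
      congr 1
      refine List.map_congr_left fun a _ => ?_
      show _ * ((if O _ = true then (1 : ℝ) else 0) - (if O _ = true then (1 : ℝ) else 0)) = _
      rw [hfill a y true, hfill a y false]
      rfl
    have hsub : (univ.filter (fun y : List.Vector Bool m =>
        vote O (c.map tm) y.1 ≠ gbit p N f y.1)) ⊆ (univ.filter (fun y =>
        (c.map (fun a => (if a.2.2 then (1 : ℝ) else -1) *
        P (update a.1 a.2.1 y))).sum * (if β y = true then (-1 : ℝ) else 1) ≤ 0)) := by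
      intro y hy
      rw [mem_filter] at hy ⊢
      refine ⟨mem_univ _, ?_⟩
      rw [hsum]
      have h2 := hy.2
      unfold vote at h2
      by_cases h3 : β y = true
      · rw [if_pos h3]
        have h4 : gbit p N f y.1 = true := h3
        rw [h4, ne_eq, decide_eq_true_eq, not_lt] at h2
        have h5 : (((c.map tm).filter (fun T => mns O T y.1)).length : ℝ) ≤
            (((c.map tm).filter (fun T => pls O T y.1)).length : ℝ) := by exact_mod_cast h2
        linarith
      · rw [if_neg h3]
        have h4 : gbit p N f y.1 = false := Bool.eq_false_of_not_eq_true h3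
        rw [h4, ne_eq, decide_eq_false_iff_not, not_not] at h2
        have h5 : (((c.map tm).filter (fun T => pls O T y.1)).length : ℝ) <
            (((c.map tm).filter (fun T => mns O T y.1)).length : ℝ) := by exact_mod_cast h2
        linarith
    have h2 : ((univ.filter (fun y : List.Vector Bool m =>
        vote O (c.map tm) y.1 ≠ gbit p N f y.1)).card : ℝ) ≤
        1 / d * Fintype.card (List.Vector Bool m) :=
      le_trans (by exact_mod_cast card_le_card hsub) hc2
    rw [hcardY] at h2
    have h3 : (d : ℝ) * ((univ.filter (fun y : List.Vector Bool m =>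
        vote O (c.map tm) y.1 ≠ gbit p N f y.1)).card : ℝ) ≤ ((2 ^ m : ℕ) : ℝ) := by
      calc (d : ℝ) * _ ≤ d * (1 / d * ((2 ^ m : ℕ) : ℝ)) := mul_le_mul_of_nonneg_left h2 hd'.le
        _ = _ := by field_simp
    exact_mod_cast h3

end Pool.Agent.Lib.MP_33f9c4_lc.Qt
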