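import Pool.Agent.Lib.MP_33f9c4_lc.QDefs
import Pool.Agent.Lib.MP_33f9c4_lc.Votes

/-!
# Samples: the advice for the random self-reduction
-/

set_option autoImplicit false

namespace Pool.Agent.Lib.MP_33f9c4_lc.Qt

open Pool.Agent.Lib.PolyTime Function Finset

/-- The `L` last binary digits of `n`, most significant first. -/
def bs : ℕ → ℕ → List Bool
  | 0, _ => []
  | L + 1, n => bs L (n / 2) ++ [decide (n % 2 = 1)]

theorem length_bs (L : ℕ) : ∀ n, (bs L n).length = L := by
  induction L with
  | zero => intro n; rfl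
  | succ L ih => intro n; rw [bs, List.length_append, ih]; rfl

theorem msb_bs (L : ℕ) : ∀ n, n < 2 ^ L → msb (bs L n) = n := by
  induction L with
  | zero => intro n hn; simp at hn; subst hn; rfl
  | succ L ih =>
    intro n hn
    rw [pow_succ] at hn
    rw [bs, msb_append_singleton, ih _ (by omega)]
    rcases Nat.mod_two_eq_zero_or_one n with h | h
    · rw [h]; simp; omega
    · rw [h]; simp; omega

/-- The choice of a block. -/
def chs (b : List Bool × List Bool) (c : Bool) : List Bool := if c = true then b.2 else b.1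

theorem point_aux : ∀ (z : List Bool) (bl : List (List Bool × List Bool)) (acc : List Bool),
    bl.length = z.length →
    (z.foldl (fun (st : List (List Bool × List Bool) × List Bool) (c : Bool) =>
    (st.1.tail, st.2 ++ if c = true then (st.1.getD 0 ([], [])).2
      else (st.1.getD 0 ([], [])).1)) (bl, acc)).2 =
      acc ++ (List.zipWith chs bl z).flatten := by
  intro z
  induction z with
  | nil => intro bl acc _; simp
  | cons c z ih =>
    intro bl acc h
    cases bl with
    | nil => simp at h
    | cons b bl =>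
      rw [List.foldl_cons, List.zipWith_cons_cons, List.flatten_cons]
      have h1 := ih bl (acc ++ chs b c) (by simpa using h)
      rw [List.append_assoc] at h1
      exact h1

theorem point_ofFn {N : ℕ} (B : Fin N → List Bool × List Bool) (z : Fin N → Bool) :
    point (List.ofFn B) (List.ofFn z) = cat (fun i => chs (B i) (z i)) := by
  unfold point cat
  rw [point_aux _ _ _ (by simp), List.nil_append]
  congr 1
  apply List.ext_getElem
  · simp
  · intro i h1 h2
    simp

theorem addm_val (p : ℕ) [NeZero p] (a b : ZMod p) : addm p a.val b.val = (a + b).val := by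
  have ha := ZMod.val_lt a
  have hb := ZMod.val_lt b
  rw [ZMod.val_add]
  unfold addm
  split_ifs with h
  · rw [Nat.mod_eq_sub_mod h, Nat.mod_eq_of_lt (by omega)]
  · rw [Nat.mod_eq_of_lt (by omega)]

theorem foldl_addm (p : ℕ) [NeZero p] (l : List (ZMod p)) : ∀ a : ZMod p,
    l.foldl (fun s b => addm p s b.val) a.val = (a + l.sum).val := by
  induction l with
  | nil => intro a; simp
  | cons b l ih =>
    intro a
    rw [List.foldl_cons, addm_val, ih, List.sum_cons, add_assoc]

/-- The lifts of a coordinate. -/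
def liftC (p : ℕ) {N K : ℕ} (c : ZMod p)
    (w : (Fin N → ZMod p) × (Fin (N + 1) → Fin N → Fin K)) (t : Fin (N + 1)) (i : Fin N) : ℕ :=
  (c + ((t : ℕ) + 1 : ℕ) * w.1 i).val + p * (w.2 t i : ℕ)

/-- The rows of a sample. -/
def rowOf (p : ℕ) {N K : ℕ} (l : Fin (N + 1) → ZMod p)
    (w : (Fin N → ZMod p) × (Fin (N + 1) → Fin N → Fin K)) (t : Fin (N + 1)) : Row :=
  (List.ofFn (fun i => (bs (bN N) (liftC p 0 w t i), bs (bN N) (liftC p 1 w t i))),
    (List.range p).map (fun v => (bs (vN N) v, (l t * (v : ZMod p)).val)))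

/-- The residues of the bits. -/
def xz (p : ℕ) {N : ℕ} (z : Fin N → Bool) : Fin N → ZMod p := fun i => if z i = true then 1 else 0

theorem point_rowOf (p : ℕ) {N K : ℕ} (l : Fin (N + 1) → ZMod p)
    (w : (Fin N → ZMod p) × (Fin (N + 1) → Fin N → Fin K)) (t : Fin (N + 1)) (z : Fin N → Bool) :
    point (rowOf p l w t).1 (List.ofFn z) =
      cat (fun i => bs (bN N) (lift p (xz p z) w t i)) := by
  unfold rowOf
  simp only
  rw [point_ofFn]
  congr 1
  funext i
  unfold chs xz lift liftC
  by_cases h : z i = true <;> simp [h]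

theorem lift_lt (p : ℕ) {N K : ℕ} [NeZero p] (x : Fin N → ZMod p)
    (w : (Fin N → ZMod p) × (Fin (N + 1) → Fin N → Fin K)) (t : Fin (N + 1)) (i : Fin N) :
    lift p x w t i < p * K := by
  unfold lift
  have h1 := ZMod.val_lt (x i + (((t : ℕ) + 1 : ℕ) : ZMod p) * w.1 i)
  have h2 := (w.2 t i).2
  calc _ < p + p * (w.2 t i : ℕ) := by omega
    _ = p * ((w.2 t i : ℕ) + 1) := by ring
    _ ≤ p * K := Nat.mul_le_mul_left p h2

theorem cast_lift (p : ℕ) {N K : ℕ} [NeZero p] (x : Fin N → ZMod p)
    (w : (Fin N → ZMod p) × (Fin (N + 1) → Fin N → Fin K)) (t : Fin (N + 1)) (i : Fin N) :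
    ((lift p x w t i : ℕ) : ZMod p) = x i + ((t : ℕ) + 1 : ℕ) * w.1 i := by
  unfold lift
  push_cast
  rw [ZMod.natCast_self, zero_mul, add_zero, ZMod.natCast_zmod_val]

/-- The hard bit at a lifted point with a candidate. -/
theorem gbit_cat (p N : ℕ) (f : (Fin N → Bool) → Bool) (u : Fin N → ℕ)
    (hu : ∀ i, u i < 2 ^ bN N) (v : ℕ) (hv : v < 2 ^ vN N) :
    gbit p N f (cat (fun i => bs (bN N) (u i)) ++ bs (vN N) v) =
      decide ((mle p f (fun i => ((u i : ℕ) : ZMod p))).val = v) := by
  unfold gbit
  have h1 : ∀ i : Fin N, ((cat (fun i => bs (bN N) (u i)) ++ bs (vN N) v).drop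
      (i * bN N)).take (bN N) = bs (bN N) (u i) := fun i =>
    take_drop_cat _ (fun i => length_bs _ _) i _
  have h2 : (cat (fun i => bs (bN N) (u i)) ++ bs (vN N) v).drop (N * bN N) = bs (vN N) v := by
    rw [← length_cat (n := N) (L := bN N) (fun i => bs (bN N) (u i)) (fun i => length_bs _ _),
      List.drop_left]
  simp only [h1, h2]
  rw [msb_bs _ _ hv]
  simp only [msb_bs _ _ (hu _)]

theorem filter_range (p v0 : ℕ) (h : v0 < p) :
    (List.range p).filter (fun v => decide (v0 = v)) = [v0] := by
  have h1 : (List.range p).filter (fun v => decide (v0 = v)) =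
      (List.range p).filter (fun v => v = v0) := by
    apply List.filter_congr
    intro v _
    exact decide_eq_decide.2 eq_comm
  rw [h1, List.filter_eq, List.count_eq_one_of_mem List.nodup_range (List.mem_range.2 h)]
  rfl

/-- The value of a good sample. -/
theorem decS_good (p N K : ℕ) [Fact p.Prime] (hpv : p ≤ 2 ^ vN N) (hK : p * K ≤ 2 ^ bN N)
    (f : (Fin N → Bool) → Bool) (O : List Bool → Bool) (ts : List Tm)
    (l : Fin (N + 1) → ZMod p)
    (hl : ∀ (f : (Fin N → Bool) → Bool) (x r : Fin N → ZMod p),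
      mle p f x = ∑ t : Fin (N + 1), l t * mle p f (fun i => x i + ((t : ℕ) + 1 : ℕ) * r i))
    (w : (Fin N → ZMod p) × (Fin (N + 1) → Fin N → Fin K)) (z : Fin N → Bool)
    (hgood : ∀ t, ∀ v < p, vote O ts (cat (fun i => bs (bN N) (lift p (xz p z) w t i)) ++
      bs (vN N) v) = gbit p N f (cat (fun i => bs (bN N) (lift p (xz p z) w t i)) ++
      bs (vN N) v)) :
    decS O ts p (List.ofFn z) (List.ofFn (rowOf p l w)) = f z := by
  have hp := (Fact.out : p.Prime)
  have : NeZero p := ⟨hp.ne_zero⟩
  have hcon : ∀ t, contrib O ts (List.ofFn z) (rowOf p l w t) =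
      (l t * mle p f (fun i => xz p z i + ((t : ℕ) + 1 : ℕ) * w.1 i)).val := by
    intro t
    unfold contrib
    rw [point_rowOf]
    unfold rowOf
    simp only
    rw [List.filter_map]
    set v0 := (mle p f (fun i => ((lift p (xz p z) w t i : ℕ) : ZMod p))).val with hv0
    have h1 : (List.range p).filter ((fun c : List Bool × ℕ => vote O ts
        (cat (fun i => bs (bN N) (lift p (xz p z) w t i)) ++ c.1)) ∘
        (fun v => (bs (vN N) v, (l t * (v : ZMod p)).val))) = [v0] := by
      rw [← filter_range p v0 (ZMod.val_lt _)]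
      apply List.filter_congr
      intro v hv
      rw [List.mem_range] at hv
      show vote O ts (_ ++ bs (vN N) v) = _
      rw [hgood t v hv, gbit_cat p N f _ (fun i => lt_of_lt_of_le (lift_lt p _ w t i) hK) v
        (by omega)]
    rw [h1]
    simp only [List.map_cons, List.map_nil, List.getD_cons_zero]
    rw [hv0, ZMod.natCast_zmod_val]
    congr 3
    funext i
    exact cast_lift p _ w t i
  unfold decS
  have h1 : (List.ofFn (rowOf p l w)).foldl (fun s row => addm p s
      (contrib O ts (List.ofFn z) row)) 0 = (if f z = true then (1 : ZMod p) else 0).val := by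
    have h2 : (List.ofFn (rowOf p l w)).foldl (fun s row => addm p s
      (contrib O ts (List.ofFn z) row)) 0 = (List.ofFn (fun t => l t * mle p f
        (fun i => xz p z i + ((t : ℕ) + 1 : ℕ) * w.1 i))).foldl
        (fun s b => addm p s b.val) ((0 : ZMod p)).val := by
      rw [← List.foldl_map (f := contrib O ts (List.ofFn z)) (g := addm p),
        ← List.foldl_map (f := ZMod.val) (g := addm p), List.map_ofFn, List.map_ofFn,
        ZMod.val_zero]
      congr 1
      congr 1
      funext t
      exact hcon t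
    rw [h2, foldl_addm, zero_add, List.sum_ofFn, ← hl, ← mle_bool p f z]
    rfl
  rw [h1]
  have : Fact (1 < p) := ⟨hp.one_lt⟩
  cases hf : f z
  · simp
  · simp [ZMod.val_one]

/-- The vectors with a wrong vote. -/
def wrong (N p : ℕ) (f : (Fin N → Bool) → Bool) (O : List Bool → Bool) (ts : List Tm) :
    Finset (List.Vector Bool (mN N)) :=
  univ.filter (fun y => vote O ts y.1 ≠ gbit p N f y.1)

theorem lg_bounds (N : ℕ) : 2 * (N + 1) < 2 ^ vN N ∧ 4 * (N + 1) ^ 2 < 2 ^ bN N ∧ lg N ≤ N := by
  have h1 := lt_lg N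
  have h2 := lg_le N
  refine ⟨?_, ?_, ?_⟩
  · unfold vN
    rw [show lg N + 2 = (lg N + 1) + 1 by ring, pow_succ]
    omega
  · unfold bN
    have h3 : 2 ^ (2 * lg N + 4) = 4 * (2 ^ (lg N + 1)) ^ 2 := by
      rw [← pow_mul, show 2 * lg N + 4 = (lg N + 1) * 2 + 2 by ring, pow_add]
      ring
    rw [h3]
    have h4 := Nat.pow_lt_pow_left h1 (n := 2) (by norm_num)
    omega
  · have := Nat.lt_two_pow_self (n := lg N)
    omega

/-- A sample is bad for `z` if some candidate is voted wrongly at some lifted point. -/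
def Bad (N p K : ℕ) (f : (Fin N → Bool) → Bool) (O : List Bool → Bool) (ts : List Tm)
    (z : Fin N → Bool) (w : (Fin N → ZMod p) × (Fin (N + 1) → Fin N → Fin K)) : Prop :=
  ∃ t, ∃ v < p, vote O ts (cat (fun i => bs (bN N) (lift p (xz p z) w t i)) ++
      bs (vN N) v) ≠ gbit p N f (cat (fun i => bs (bN N) (lift p (xz p z) w t i)) ++
      bs (vN N) v)

open Classical in
theorem card_bad (N p K : ℕ) [Fact p.Prime] (hN : N + 1 < p) (hp2 : p ≤ 2 * N + 2)
    (hK : K = 2 ^ bN N / p)
    (f : (Fin N → Bool) → Bool) (O : List Bool → Bool) (ts : List Tm)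
    (hw : dN N * (wrong N p f O ts).card ≤ 2 ^ mN N) (z : Fin N → Bool) :
    6 * (univ.filter (fun w => Bad N p K f O ts z w)).card ≤
      Fintype.card ((Fin N → ZMod p) × (Fin (N + 1) → Fin N → Fin K)) := by
  have hp := (Fact.out : p.Prime)
  have : NeZero p := ⟨hp.ne_zero⟩
  obtain ⟨b1, b2, -⟩ := lg_bounds N
  have hpK : p * K ≤ 2 ^ bN N := by
    rw [hK]
    exact Nat.mul_div_le _ _
  set W : Finset (Fin N → ℕ) := (wrong N p f O ts).image
    (fun y => fun i : Fin N => msb ((y.1.drop (i * bN N)).take (bN N))) with hW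
  have hWc : W.card ≤ (wrong N p f O ts).card := card_image_le
  set q := Fintype.card ((Fin N → ZMod p) × (Fin (N + 1) → Fin N → Fin K)) with hq
  -- the bad samples
  have hsub : univ.filter (fun w => Bad N p K f O ts z w) ⊆
      univ.biUnion (fun t : Fin (N + 1) => univ.filter
        (fun w : (Fin N → ZMod p) × (Fin (N + 1) → Fin N → Fin K) =>
          lift p (xz p z) w t ∈ W)) := by
    intro w hw
    rw [mem_filter] at hw
    obtain ⟨t, v, hv, hne⟩ := hw.2
    rw [mem_biUnion]
    refine ⟨t, mem_univ _, ?_⟩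
    rw [mem_filter]
    refine ⟨mem_univ _, ?_⟩
    rw [hW, mem_image]
    have hlen : (cat (fun i => bs (bN N) (lift p (xz p z) w t i)) ++ bs (vN N) v).length =
        mN N := by
      rw [List.length_append, length_cat (L := bN N) _ (fun i => length_bs _ _), length_bs]
      rfl
    refine ⟨⟨_, hlen⟩, ?_, ?_⟩
    · unfold wrong
      rw [mem_filter]
      exact ⟨mem_univ _, hne⟩
    · funext i
      show msb (((cat (fun i => bs (bN N) (lift p (xz p z) w t i)) ++ bs (vN N) v).drop
        (i * bN N)).take (bN N)) = _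
      rw [take_drop_cat (fun i => bs (bN N) (lift p (xz p z) w t i))
        (fun i => length_bs _ _) i, msb_bs _ _ (lt_of_lt_of_le (lift_lt p _ w t i) hpK)]
  have h1 : (univ.filter (fun w => Bad N p K f O ts z w)).card ≤
      ∑ t : Fin (N + 1), (univ.filter
        (fun w : (Fin N → ZMod p) × (Fin (N + 1) → Fin N → Fin K) =>
          lift p (xz p z) w t ∈ W)).card := (card_le_card hsub).trans card_biUnion_le
  have h2 : (2 ^ bN N) ^ N ≤ 2 * (p * K) ^ N := by
    rw [hK]
    apply pow_le_two_mul p N (bN N) hp.pos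
    nlinarith
  have h3 : ∀ t : Fin (N + 1), 6 * (N + 1) * (univ.filter
        (fun w : (Fin N → ZMod p) × (Fin (N + 1) → Fin N → Fin K) =>
          lift p (xz p z) w t ∈ W)).card ≤ q := by
    intro t
    have h4 := card_lift_le p N K hN (xz p z) W t
    set c := (univ.filter
        (fun w : (Fin N → ZMod p) × (Fin (N + 1) → Fin N → Fin K) =>
          lift p (xz p z) w t ∈ W)).card with hc
    have h5 : 12 * (N + 1) * W.card ≤ (2 ^ bN N) ^ N := by
      have h6 : (12 * (N + 1) * W.card) * 2 ^ vN N ≤ (2 ^ bN N) ^ N * 2 ^ vN N := by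
        calc (12 * (N + 1) * W.card) * 2 ^ vN N = dN N * W.card := by unfold dN; ring
          _ ≤ dN N * (wrong N p f O ts).card := Nat.mul_le_mul_left _ hWc
          _ ≤ 2 ^ mN N := hw
          _ = _ := by unfold mN; rw [pow_add, ← pow_mul, Nat.mul_comm (bN N)]
      exact Nat.le_of_mul_le_mul_right h6 (by positivity)
    have h7 : (6 * (N + 1) * c) * (2 ^ bN N) ^ N ≤ q * (2 ^ bN N) ^ N := by
      calc (6 * (N + 1) * c) * (2 ^ bN N) ^ N ≤ (6 * (N + 1) * c) * (2 * (p * K) ^ N) :=
            Nat.mul_le_mul_left _ h2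
        _ = 12 * (N + 1) * (c * (p * K) ^ N) := by ring
        _ ≤ 12 * (N + 1) * (W.card * q) := Nat.mul_le_mul_left _ h4
        _ = (12 * (N + 1) * W.card) * q := by ring
        _ ≤ (2 ^ bN N) ^ N * q := Nat.mul_le_mul_right _ h5
        _ = _ := by ring
    exact Nat.le_of_mul_le_mul_right h7 (by positivity)
  have h4 : (N + 1) * (6 * (univ.filter (fun w => Bad N p K f O ts z w)).card) ≤ (N + 1) * q := by
    calc (N + 1) * (6 * (univ.filter (fun w => Bad N p K f O ts z w)).card)
        ≤ (N + 1) * (6 * ∑ t : Fin (N + 1), (univ.filter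
        (fun w : (Fin N → ZMod p) × (Fin (N + 1) → Fin N → Fin K) =>
          lift p (xz p z) w t ∈ W)).card) := by gcongr
      _ = ∑ t : Fin (N + 1), 6 * (N + 1) * (univ.filter
        (fun w : (Fin N → ZMod p) × (Fin (N + 1) → Fin N → Fin K) =>
          lift p (xz p z) w t ∈ W)).card := by rw [← mul_sum]; ring
      _ ≤ ∑ _t : Fin (N + 1), q := Finset.sum_le_sum fun t _ => h3 t
      _ = (N + 1) * q := by simp
  exact Nat.le_of_mul_le_mul_left h4 (by omega)

/-- The size of the advice. -/
theorem size_rowOf (p N K : ℕ) (hp2 : p ≤ 2 * N + 2) (l : Fin (N + 1) → ZMod p) [NeZero p]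
    (w : (Fin N → ZMod p) × (Fin (N + 1) → Fin N → Fin K)) (t : Fin (N + 1)) :
    size (rowOf p l w t) ≤ N * (16 * N + 36) + (2 * N + 2) * (8 * N + 16) + 3 := by
  obtain ⟨-, -, b3⟩ := lg_bounds N
  unfold rowOf
  rw [size_prod]
  simp only
  have h1 : size (List.ofFn (fun i => (bs (bN N) (liftC p 0 w t i),
      bs (bN N) (liftC p 1 w t i)))) ≤ N * (16 * N + 36) + 1 := by
    have h2 := size_list_le (S := 16 * N + 35) (List.ofFn (fun i => (bs (bN N) (liftC p 0 w t i),
      bs (bN N) (liftC p 1 w t i)))) (by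
      intro b hb
      rw [List.mem_ofFn] at hb
      obtain ⟨i, rfl⟩ := hb
      rw [size_prod]
      have h3 := size_bools_le (bs (bN N) (liftC p 0 w t i))
      have h4 := size_bools_le (bs (bN N) (liftC p 1 w t i))
      rw [length_bs] at h3 h4
      unfold bN at h3 h4 ⊢
      simp only
      omega)
    rwa [List.length_ofFn] at h2
  have h2 : size ((List.range p).map (fun v => (bs (vN N) v, (l t * (v : ZMod p)).val))) ≤
      (2 * N + 2) * (8 * N + 16) + 1 := by
    have h3 := size_list_le (S := 8 * N + 15) ((List.range p).map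
      (fun v => (bs (vN N) v, (l t * (v : ZMod p)).val))) (by
      intro b hb
      rw [List.mem_map] at hb
      obtain ⟨v, -, rfl⟩ := hb
      rw [size_prod, size_nat]
      have h3 := size_bools_le (bs (vN N) v)
      rw [length_bs] at h3
      have h4 := ZMod.val_lt (l t * (v : ZMod p))
      unfold vN at h3 ⊢
      simp only
      omega)
    rw [List.length_map, List.length_range] at h3
    exact h3.trans (Nat.add_le_add_right (Nat.mul_le_mul_right _ hp2) 1)
  omega

theorem len_filter_ofFn {α : Type} {n : ℕ} (F : Fin n → α) (P : α → Bool) :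
    ((List.ofFn F).filter P).length = (univ.filter (fun i => P (F i) = true)).card := by
  rw [List.ofFn_eq_map, List.filter_map, List.length_map]
  have h : (univ.filter (fun i => P (F i) = true)).val =
      (((List.finRange n).filter (P ∘ F) : List (Fin n)) : Multiset (Fin n)) := by
    rw [Finset.filter_val, Fin.univ_def]
    simp only [Multiset.filter_coe]
    congr 1
    apply List.filter_congr
    intro x _
    simp
  rw [Finset.card_def, h]
  rfl

theorem exists_samples : ∃ P : Polynomial ℕ, ∀ (N p : ℕ) (f : (Fin N → Bool) → Bool)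
    (O : List Bool → Bool) (ts : List Tm), 0 < N → p.Prime → N + 1 < p → p ≤ 2 * N + 2 →
    dN N * (univ.filter (fun y : List.Vector Bool (mN N) =>
        vote O ts y.1 ≠ gbit p N f y.1)).card ≤ 2 ^ mN N →
    ∃ smp : List (List Row), size smp ≤ P.eval N ∧
      ∀ z : Fin N → Bool, alg O (ts, (p, smp)) (List.ofFn z) = f z := by
  classical
  refine ⟨(3 * Polynomial.X + 1) * ((Polynomial.X + 1) * (Polynomial.X * (16 * Polynomial.X + 36) +
    (2 * Polynomial.X + 2) * (8 * Polynomial.X + 16) + 4) + 2) + 1, ?_⟩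
  intro N p f O ts hN hp hNp hp2 hw
  have : Fact p.Prime := ⟨hp⟩
  have hNZ : NeZero p := ⟨hp.ne_zero⟩
  obtain ⟨b1, b2, b3⟩ := lg_bounds N
  set K := 2 ^ bN N / p with hK
  have hpb : p ≤ 2 ^ bN N := by nlinarith
  have hK0 : 0 < K := Nat.div_pos hpb hp.pos
  have hpK : p * K ≤ 2 ^ bN N := Nat.mul_div_le _ _
  obtain ⟨l, hl⟩ := mle_line p N hNp
  have hne : Nonempty ((Fin N → ZMod p) × (Fin (N + 1) → Fin N → Fin K)) :=
    ⟨(fun _ => 0, fun _ _ => ⟨0, hK0⟩)⟩
  obtain ⟨c, hc⟩ := sample (I := Fin N → Bool)
    (Ω := (Fin N → ZMod p) × (Fin (N + 1) → Fin N → Fin K)) N (by simp)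
    (fun z w => decide (Bad N p K f O ts z w)) (by
      intro z
      have h1 := card_bad N p K hNp hp2 hK f O ts hw z
      simpa using h1)
  refine ⟨List.ofFn (fun i => List.ofFn (rowOf p l (c i))), ?_, ?_⟩
  · have h1 := size_list_le
      (S := (N + 1) * (N * (16 * N + 36) + (2 * N + 2) * (8 * N + 16) + 4) + 1)
      (List.ofFn (fun i => List.ofFn (rowOf p l (c i)))) (by
      intro b hb
      rw [List.mem_ofFn] at hb
      obtain ⟨i, rfl⟩ := hb
      have h2 := size_list_le (S := N * (16 * N + 36) + (2 * N + 2) * (8 * N + 16) + 3)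
        (List.ofFn (rowOf p l (c i))) (by
        intro b hb
        rw [List.mem_ofFn] at hb
        obtain ⟨t, rfl⟩ := hb
        exact size_rowOf p N K hp2 l (c i) t)
      rwa [List.length_ofFn] at h2)
    rw [List.length_ofFn] at h1
    refine h1.trans (le_of_eq ?_)
    simp
  · intro z
    have hg : ∀ i, ¬ Bad N p K f O ts z (c i) →
        decS O ts p (List.ofFn z) (List.ofFn (rowOf p l (c i))) = f z := by
      intro i hi
      refine decS_good p N K (by omega) hpK f O ts l hl (c i) z ?_
      intro t v hv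
      by_contra hne'
      exact hi ⟨t, v, hv, hne'⟩
    have h1 := hc z
    unfold alg
    simp only [List.length_ofFn]
    rw [len_filter_ofFn]
    -- the good samples
    have h2 : (univ.filter (fun i => ¬ (decide (Bad N p K f O ts z (c i)) = true))).card +
        (univ.filter (fun i => decide (Bad N p K f O ts z (c i)) = true)).card = 3 * N + 1 := by
      rw [add_comm, card_filter_add_card_filter_not, card_univ, Fintype.card_fin]
    cases hf : f z
    · have h3 : (univ.filter (fun i => decS O ts p (List.ofFn z)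
          (List.ofFn (rowOf p l (c i))) = true)).card ≤
          (univ.filter (fun i => decide (Bad N p K f O ts z (c i)) = true)).card := by
        apply card_le_card
        intro i hi
        rw [mem_filter] at hi ⊢
        refine ⟨mem_univ _, ?_⟩
        by_contra h4
        have h5 := hg i (by simpa using h4)
        rw [hf] at h5
        rw [h5] at hi
        exact absurd hi.2 (by decide)
      rw [decide_eq_false_iff_not]
      omega
    · have h3 : (univ.filter (fun i => ¬ (decide (Bad N p K f O ts z (c i)) = true))).card ≤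
          (univ.filter (fun i => decS O ts p (List.ofFn z)
          (List.ofFn (rowOf p l (c i))) = true)).card := by
        apply card_le_card
        intro i hi
        rw [mem_filter] at hi ⊢
        refine ⟨mem_univ _, ?_⟩
        rw [hg i (by simpa using hi.2), hf]
      rw [decide_eq_true_eq]
      omega

end Pool.Agent.Lib.MP_33f9c4_lc.Qt
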