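import Pool.Agent.Lib.MP_33f9c4_lc.Run
import Pool.Agent.Lib.MP_33f9c4_lc.SimLog
import Pool.Agent.Lib.MP_33f9c4_lc.Choose
import Pool.Agent.Lib.MP_33f9c4_lc.Half
import Pool.Agent.Lib.MP_33f9c4_lc.Votes
import Pool.Agent.Lib.MP_33f9c4_lc.Samples
import Pool.Agent.Lib.MP_33f9c4_lc.Codec
import Pool.Agent.Lib.MP_33f9c4_lc.Gen
import Pool.Agent.Lib.MP_33f9c4_lc.Learn
import Pool.Agent.Lib.MP_33f9c4_lc.Final2

/-!
# The main theorem on Q2
-/

namespace Pool.Agent.Lib.MP_33f9c4_lc.Qt

open Pool.Agent.Lib.PolyTime Function Finset Ef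

set_option synthInstance.maxSize 2000

/-! ### Polynomial bounds -/

theorem pb_lg : PB (fun N => lg N) := PB.id.mono lg_le_self

theorem pb_two_pow : PB (fun N => 2 ^ vN N) := by
  refine ((PB.const 4).mul (PB.id.add (PB.const 1))).mono fun N => ?_
  rw [vN, pow_add]
  have := lg_le N
  omega

theorem pb_dN : PB dN :=
  (((PB.const 12).mul (PB.id.add (PB.const 1))).mul pb_two_pow)

theorem pb_mN : PB mN :=
  (PB.id.mul (((PB.const 2).mul pb_lg).add (PB.const 4))).add (pb_lg.add (PB.const 2))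

theorem pb_sN {k : ℕ → ℕ} (hk : PB k) : PB (fun N => sN N (k N)) :=
  hk.mul ((hk.mul pb_dN).mul pb_mN)

/-! ### Correct advice -/

section

variable {V : Tbl} {B : ℕ} {T T0 : Polynomial ℕ} {U : Machine}

open Classical in
/-- Existence of correct advice. -/
theorem exists_adv (hU : Ef.IsMach V B T T0 U) (hex : ∀ x, ∃ d t, Outputs U d x t) (hsim : Sim U)
    {L : Set (List Bool)} (hL : InEXP L) : ∃ A : Polynomial ℕ, ∀ N > 0, ∃ adv : Adv,
      size adv ≤ A.eval N ∧ goodA (RKt U) L adv N = true := by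
  obtain ⟨E, hE⟩ := gen_not_mem hsim hL
  obtain ⟨P, hP⟩ := exists_samples
  have hk : PB (fun N => E.eval N + 1) := (PB.poly E).add (PB.const 1)
  obtain ⟨A, hA⟩ : PB (fun N => (4 * ((E.eval N + 1) * dN N) ^ 2 + 1) *
      ((4 * (sN N (E.eval N + 1) + (E.eval N + 1)) + 20) + 1) + 1 +
      (2 * (2 * N + 2) + 1 + P.eval N + 1) + 1) :=
    ((((((PB.const 4).mul ((hk.mul pb_dN).pow 2)).add (PB.const 1)).mul
      ((((PB.const 4).mul ((pb_sN hk).add hk)).add (PB.const 20)).add (PB.const 1))).add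
      (PB.const 1)).add (((((PB.const 2).mul (((PB.const 2).mul PB.id).add (PB.const 2))).add
      (PB.const 1)).add (PB.poly P)).add (PB.const 1))).add (PB.const 1)
  refine ⟨A, fun N hN => ?_⟩
  obtain ⟨p, hp, hp1, hp2⟩ := Nat.exists_prime_lt_and_le_two_mul (N + 1) (by omega)
  set f : (Fin N → Bool) → Bool := fun z => decide (List.ofFn z ∈ L) with hf
  set O : List Bool → Bool := fun x => decide (x ∈ RKt U) with hO
  obtain ⟨k, hkN⟩ : ∃ k, k = E.eval N + 1 := ⟨_, rfl⟩
  have h1 := hU.half hex (sN N k + k)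
  obtain ⟨ts, ht1, ht2, ht3⟩ := exists_votes N k p f O hN (by omega)
    (by simpa [hO] using h1)
    (fun ys hys => by
      have := hE N k p ys hN hp.pos (by omega) (by omega) hys
      simpa [hO, hf] using this)
  obtain ⟨smp, hs1, hs2⟩ := hP N p f O ts hN hp hp1 (by omega) ht3
  refine ⟨(ts, (p, smp)), le_trans ?_ (hA N), ?_⟩
  · have e1 : size ((ts, (p, smp)) : Adv) = size ts + (size p + size smp + 1) + 1 := by
      rw [size_prod, size_prod]
    have e2 : size p = 2 * p + 1 := size_nat p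
    have e3 := size_list_le ts (S := 4 * (sN N k + k) + 20) (fun T hT => by
      have h3 := ht2 T hT
      obtain ⟨s, a, b, c⟩ := T
      simp only at h3
      have e4 : size ((s, (a, (b, c))) : Tm) = size s + (size a + (size b + size c + 1) + 1) + 1 := by
        rw [size_prod, size_prod, size_prod]
      have e5 := size_bools a
      have e6 := size_bools b
      have e7 := size_bools c
      have e8 : size s ≤ 3 := by cases s <;> simp [size]
      omega)
    have e4 : ts.length * (4 * (sN N k + k) + 20 + 1) ≤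
        (4 * (k * dN N) ^ 2 + 1) * (4 * (sN N k + k) + 20 + 1) := Nat.mul_le_mul_right _ ht1
    rw [e1, e2]
    simp only [← hkN]
    omega
  · unfold goodA
    rw [decide_eq_true_eq]
    intro z hz
    subst hz
    have h3 := hs2 (fun i => z.get i)
    rw [hf] at h3
    simp only [List.ofFn_get] at h3
    exact h3

theorem getD_zero_mem {α : Type*} {l : List α} (h : l ≠ []) (a : α) : l.getD 0 a ∈ l := by
  rcases l with _ | ⟨b, l⟩
  · exact absurd rfl h
  · simp

theorem wgood_spec {R L : Set (List Bool)} {dc : List Bool → Adv} {A : Polynomial ℕ} {N : ℕ}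
    (hdc : ∀ (a : Adv) (r : List Bool), dc (code a ++ r) = a)
    (h : ∃ adv : Adv, size adv ≤ A.eval N ∧ goodA R L adv N = true) :
    (wgood R L dc A N).length = A.eval N ∧ goodA R L (dc (wgood R L dc A N)) N = true := by
  obtain ⟨adv, h1, h2⟩ := h
  obtain ⟨l, hl⟩ : ∃ l, l = ((List.range (2 ^ A.eval N)).map
    (fun j => nxt^[j] (List.replicate (A.eval N) false))).filter
    (fun w => goodA R L (dc w) N) := ⟨_, rfl⟩
  have hne : l ≠ [] := by
    obtain ⟨w, hw⟩ : ∃ w, w = code adv ++ List.replicate (A.eval N - size adv) false := ⟨_, rfl⟩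
    have hwl : w.length = A.eval N := by
      rw [hw, List.length_append, List.length_replicate, length_code]
      omega
    obtain ⟨j, hj, hj2⟩ := exists_nxt_iter w
    rw [hwl] at hj hj2
    have hmem : w ∈ l := by
      rw [hl, List.mem_filter]
      refine ⟨?_, ?_⟩
      · rw [List.mem_map]
        exact ⟨j, List.mem_range.mpr hj, hj2⟩
      · rw [hw, hdc]
        exact h2
    exact List.ne_nil_of_mem hmem
  have h3 : wgood R L dc A N ∈ l := by
    rw [wgood, ← hl]
    exact getD_zero_mem hne _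
  rw [hl, List.mem_filter, List.mem_map] at h3
  obtain ⟨⟨j, hj, hj2⟩, h4⟩ := h3
  refine ⟨?_, h4⟩
  rw [← hj2]
  exact length_nxt_iter (List.mem_range.mp hj)

end

open Classical in
/-- Every language in EXP is decided in polynomial time with the oracle `RKt U`. -/
theorem exp_le {V : Tbl} {B : ℕ} {T T0 : Polynomial ℕ} {K : Type} [Fintype K] [DecidableEq K]
    {P : Prog K} {k₀ : K} (hU : Ef.IsMach V B T T0 (progMachine P k₀))
    (hex : ∀ x, ∃ d t, Outputs (progMachine P k₀) d x t) {κ : ℕ}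
    (hκ : ∀ K B : ℕ, κ ≤ B → ∃ n0, ∀ n ≥ n0, 32 * (n + 1) ^ 3 *
      ((K * (n + 1) ^ 2 * 2 ^ (n - B * lg n) + 1) * T.eval (K * (B + n + 1))) ≤ 2 ^ n)
    (hB : κ ≤ B) (hB2 : 2 ≤ B) (hsim : Sim (progMachine P k₀)) {L : Set (List Bool)}
    (hL : InEXP L) : InPRel (RKt (progMachine P k₀)) L := by
  obtain ⟨dc, hdc, hdc2⟩ := exists_decode Adv
  obtain ⟨A, hA⟩ := exists_adv hU hex hsim hL
  obtain ⟨D, E, Q, hD⟩ := exists_learn P k₀ hex hL hdc A
  obtain ⟨Tb, b, hTb, _⟩ := exists_table_exact D
  obtain ⟨c, hc, hmB⟩ := hU.mode_B hκ hB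
  obtain ⟨n1, hn1⟩ := hmB Tb b
  obtain ⟨n2, hn2⟩ := hU.mode_A hκ hB
  obtain ⟨nm, N0, hnm⟩ := choose_nm Q E A c (tblCode Tb).length (n1 + n2 + 20) hc
  set R := RKt (progMachine P k₀) with hR
  -- lengths of the data
  have haA : ∀ n ≥ 20, ∀ i < n + 1 - 2 * lg (n + 1),
      (nxt^[i] (List.replicate (2 * lg n - 1) false)).length = 2 * lg n - 1 := by
    intro n hn i hi
    refine length_nxt_iter ?_
    have h1 := lt_lg n
    have h2 : 2 ^ (lg n + 1) ≤ 2 ^ (2 * lg n - 1) * 2 := by
      rw [← pow_succ]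
      refine Nat.pow_le_pow_right (by norm_num) ?_
      have : 4 ≤ lg n := le_lg (by omega)
      omega
    have h3 : 2 * 2 ^ (lg n + 1) ≤ 2 ^ (2 * lg n - 1) * 2 := by
      rw [← pow_succ, ← pow_succ']
      refine Nat.pow_le_pow_right (by norm_num) ?_
      have : 4 ≤ lg n := le_lg (by omega)
      omega
    omega
  refine run R L (Y V B) (length_Y V B) (n1 + n2 + 20) (N0 + 1) (by omega) (tblCode Tb) nm A dc hdc
    (wgood R L dc A) (fun N hN => (wgood_spec hdc2 (hA N (by omega))).1)
    (fun N hN => (hnm N (by omega)).1) ?_ ?_ ?_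
  · -- the strings `Y`
    intro n hn i hi
    obtain ⟨a, ha⟩ : ∃ a, a = false :: nxt^[i] (List.replicate (2 * lg n - 1) false) := ⟨_, rfl⟩
    have hlg : 4 ≤ lg n := le_lg (by omega)
    have hal : a.length = 2 * lg n := by
      rw [ha, List.length_cons, haA n (by omega) i hi]
      omega
    have hah : a.head? ≠ some true := by rw [ha]; simp
    have hat : a.tail.length = 2 * lg n - 1 := by rw [List.length_tail, hal]
    have hsel : sel a.tail (Y V B (n + 1)) = (Y V B (n + 1)).getD i false := by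
      refine sel_eq _ _ _ ?_
      rw [hat, ha, List.tail_cons]
    have hq : qA (Y V B n) n i = str V B n a := by rw [qA, str, ha]
    rw [hq, ← hsel]
    constructor
    · intro h
      rcases hU.acc_of_not_mem hB2 (by omega) hal (hex _) h with ⟨h1, _⟩ | ⟨_, h1⟩
      · exact absurd h1 hah
      · exact h1
    · intro h
      exact hn2 n (by omega) a hal hah h
  · -- the advice
    intro N hN i hi
    obtain ⟨g1, g2, g3, g4, g5, g6, g7⟩ := hnm N (by omega)
    obtain ⟨n, hn⟩ : ∃ n, n = nm.eval N := ⟨_, rfl⟩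
    rw [← hn] at g1 g2 g3 g4 g5 g6 g7 ⊢
    obtain ⟨q1, q2⟩ := idx_qB Tb (Y V B n) n N i (length_Y V B n) (by omega) g3 g4 g6
      (by omega) (by omega)
    obtain ⟨a, ha⟩ : ∃ a, a = true :: (tblCode Tb ++
        (nxt^[N] (List.replicate ((2 * lg n - 1 - (tblCode Tb).length) / 2) false) ++
        (nxt^[i] (List.replicate ((2 * lg n - 1 - (tblCode Tb).length) / 2) false) ++
        List.replicate (2 * lg n - 1 - (tblCode Tb).length -
          2 * ((2 * lg n - 1 - (tblCode Tb).length) / 2)) false))) := ⟨_, rfl⟩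
    have hq : qB (tblCode Tb) (Y V B n) n N i = str V B n a := by rw [qB, str, ha]
    rw [hq] at q1 q2 ⊢
    have hal : a.length = 2 * lg n := by
      rw [str, List.length_append, length_Y] at q1
      have := two_lg_le (by omega : 4 ≤ n)
      omega
    have hah : a.head? = some true := by rw [ha]; rfl
    have hap : (parse a.tail).1 = Tb := by rw [ha, List.tail_cons, parse_code]
    obtain ⟨s, hs, h2, h3, h4⟩ := hTb _ _ _ (hD _ N i q2)
    rw [q1] at hs
    have hs' : s ≤ b * (2 ^ (n / c) + 1) := hs.trans (Nat.mul_le_mul_left _ (by omega))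
    constructor
    · intro h
      rcases hU.acc_of_not_mem hB2 (by omega) hal (hex _) h with ⟨_, s', hs', h5⟩ | ⟨h5, _⟩
      · rw [hap] at hs' h5
        have : s = s' := Halts.unique (c := minit Tb (str V B n a)) ⟨h3, h2⟩ hs'
        subst this
        change mout (mstep^[s] (minit Tb (str V B n a))) = [true] at h5
        rw [h4] at h5
        simpa using h5
      · exact absurd hah h5
    · intro h
      refine hn1 n (by omega) a hal hah hap s hs' ⟨h3, h2⟩ ?_
      rw [h4, h]
  · -- correctness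
    intro N hN z hz
    have h1 := (wgood_spec hdc2 (hA N (by omega))).2
    unfold goodA at h1
    rw [decide_eq_true_eq] at h1
    exact h1 z hz

end Pool.Agent.Lib.MP_33f9c4_lc.Qt
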