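import Pool.Agent.Lib.MP_33f9c4_lc.QFinal

/-!
# Completeness for EXP of the Levin-random strings of a machine near to a given one
-/

namespace Pool.Agent.Lib.MP_33f9c4_lc.Qt

open Pool.Agent.Lib.PolyTime Function Finset Ef

set_option synthInstance.maxSize 2000

open Classical in
/-- The set of Levin-random strings belongs to EXP. -/
theorem inEXP_rkt {K : Type} [Fintype K] [DecidableEq K] (P : Prog K) (k₀ : K)
    (hex : ∀ x, ∃ d t, Outputs (progMachine P k₀) d x t) : InEXP (RKt (progMachine P k₀)) := by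
  obtain ⟨Rd, pR, hR⟩ := exists_rdec P k₀ hex
  obtain ⟨M, Q, hM⟩ := exists_pad_machine (e := fun x => x.length) (F := fun y => [Rd y])
    (PT.length PT.id) (PT.list1 pR)
  obtain ⟨D, k, hD⟩ := eval_lin_le Q 1
  refine ⟨M, Polynomial.C D + Polynomial.C k * (Polynomial.X + 2), fun x => ?_⟩
  have h1 := hM x
  simp only [hR x _ le_rfl] at h1
  refine h1.mono ?_
  have h2 := hD (x.length + 2 ^ x.length) (x.length + 2 ^ x.length) (by omega)
  refine h2.trans ?_
  have h3 : x.length + 2 ^ x.length + 2 ≤ 2 ^ (x.length + 2) := by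
    have h4 : x.length < 2 ^ x.length := Nat.lt_two_pow_self
    have h5 : 1 ≤ 2 ^ x.length := Nat.one_le_two_pow
    rw [pow_add]
    omega
  simp only [Polynomial.eval_add, Polynomial.eval_C, Polynomial.eval_mul, Polynomial.eval_X,
    Polynomial.eval_ofNat]
  rw [pow_add]
  refine Nat.mul_le_mul Nat.lt_two_pow_self.le ?_
  calc (x.length + 2 ^ x.length + 2) ^ k ≤ (2 ^ (x.length + 2)) ^ k := Nat.pow_le_pow_left h3 k
    _ = 2 ^ (k * (x.length + 2)) := by rw [← pow_mul, mul_comm]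

/-- The machine as the machine of a program. -/
theorem exists_prog (V : Tbl) : ∃ T : Polynomial ℕ, ∀ B, ∃ (K : Type) (_ : Fintype K)
    (_ : DecidableEq K) (P : Prog K) (k₀ : K) (T0 : Polynomial ℕ),
    Ef.IsMach V B T T0 (progMachine P k₀) := by
  obtain ⟨T, hT⟩ := Ef.exists_loop2 (Ef.pt_G V) Ef.pt_out (V.length + 1)
  refine ⟨T, fun B => ?_⟩
  obtain ⟨K, iF, iD, P, k₀, T0, h1, h2⟩ := hT (Ef.init B) (Ef.pt_init B)
  exact ⟨K, iF, iD, P, k₀, T0, h1, h2⟩

/-- The main theorem on both questions. -/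
theorem mainQ (V : Machine) (hV : Universal V ∨ Optimal V) :
    ∃ U : Machine, (Universal V → Universal U) ∧ (Optimal V → Optimal U) ∧
      (∃ b : ℝ, ∀ x : List Bool, Kt U x ≤ Kt V x + b * Real.logb 2 (x.length + 2)) ∧
      (Optimal V → ∃ b : ℝ, ∀ x : List Bool, Kt V x ≤ Kt U x + b * Real.logb 2 (x.length + 2)) ∧
      (¬ InP (RKt U) ∧
        ∃ c, 0 < c ∧ ∀ D : Machine, ∃ n0, ∀ n ≥ n0, ∃ x : List Bool, x.length = n ∧
          ¬ open Classical in Outputs D x [decide (x ∈ RKt U)] (2 ^ (n / c))) ∧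
      InEXP (RKt U) ∧ ∀ L, InEXP L → InPRel (RKt U) L := by
  have hG : Good V := hV.elim Universal.good Optimal.good
  obtain ⟨Tb, c, hR⟩ := exists_rel V
  obtain ⟨T, hT⟩ := exists_prog Tb
  obtain ⟨κ, hκ⟩ := cost_search T
  obtain ⟨K, iF, iD, P, k₀, T0, hU⟩ := hT (κ + 2)
  have hexU : ∀ x, ∃ d t, Outputs (progMachine P k₀) d x t := fun x => hR.hex hU (hG.hex x)
  obtain ⟨b, hb, hkt⟩ := hR.kt_le hU hG
  obtain ⟨c', hc', hhard⟩ := hU.hard hexU hκ (by omega) (by omega)
  have hsim : Sim (progMachine P k₀) :=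
    sim_of _ (hV.elim (fun h => Or.inl (hR.universal hU h)) (fun h => Or.inr (hR.optimal hU h)))
  refine ⟨progMachine P k₀, hR.universal hU, hR.optimal hU, ⟨b, hkt⟩, fun hO => ?_,
    ⟨not_inP hc' hhard, c', hc', hhard⟩, inEXP_rkt P k₀ hexU,
    fun L hL => exp_le hU hexU hκ (by omega) (by omega) hsim hL⟩
  obtain ⟨a, ha⟩ := hO (progMachine P k₀)
  refine ⟨a, fun x => ?_⟩
  have h1 : Kt V x - a * Real.logb 2 (x.length + 2) ≤ Kt (progMachine P k₀) x := by
    refine le_kt (hexU x) fun d t h => ?_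
    have := (ha d x t h).2
    linarith
  linarith

end Pool.Agent.Lib.MP_33f9c4_lc.Qt
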