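import Pool.Agent.Lib.MP_33f9c4_lc.Steps

/-!
# Reachability with costs
-/

namespace Pool.Agent.Lib.MP_33f9c4_lc

open Pool.Agent.Lib.PolyTime Function Finset

/-- The state `b` is reached from `a` in exactly `N` steps, through nonfinal states, and the sum of
the costs `T (size x)` of the states `x` passed is at most `c`. -/
def Reach (T : Polynomial ℕ) (a b : S) (N c : ℕ) : Prop :=
  g^[N] a = b ∧ (∀ i < N, fin (g^[i] a) = false) ∧ ∑ i ∈ range N, T.eval (size (g^[i] a)) ≤ c

theorem Reach.refl (T : Polynomial ℕ) (a : S) : Reach T a a 0 0 :=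
  ⟨rfl, by simp, by simp⟩

theorem Reach.one {T : Polynomial ℕ} {a : S} (h : fin a = false) :
    Reach T a (g a) 1 (T.eval (size a)) :=
  ⟨rfl, by simpa using h, by simp⟩

theorem Reach.mono {T : Polynomial ℕ} {a b : S} {N c c' : ℕ} (h : Reach T a b N c)
    (hc : c ≤ c') : Reach T a b N c' :=
  ⟨h.1, h.2.1, h.2.2.trans hc⟩

theorem Reach.trans {T : Polynomial ℕ} {a b d : S} {N M c c' : ℕ} (h : Reach T a b N c)
    (h' : Reach T b d M c') : Reach T a d (N + M) (c + c') := by
  obtain ⟨h1, h2, h3⟩ := h
  obtain ⟨h4, h5, h6⟩ := h'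
  have e : ∀ i, g^[N + i] a = g^[i] b := by
    intro i
    rw [Nat.add_comm, iterate_add_apply, h1]
  refine ⟨by rw [e, h4], ?_, ?_⟩
  · intro i hi
    rcases lt_or_ge i N with hiN | hiN
    · exact h2 i hiN
    · obtain ⟨j, rfl⟩ := Nat.exists_eq_add_of_le hiN
      rw [e]
      exact h5 j (by omega)
  · rw [Finset.sum_range_add]
    simp only [e]
    exact Nat.add_le_add h3 h6

theorem Reach.step {T : Polynomial ℕ} {a b : S} {C : ℕ} (h : fin a = false) (hg : g a = b)
    (hC : T.eval (size a) ≤ C) : Reach T a b 1 C := by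
  subst hg
  exact (Reach.one h).mono hC

/-- Chains of states. -/
theorem Reach.chain {T : Polynomial ℕ} (f : ℕ → S) (C : ℕ) : ∀ m : ℕ,
    (∀ i < m, fin (f i) = false ∧ g (f i) = f (i + 1) ∧ T.eval (size (f i)) ≤ C) →
    Reach T (f 0) (f m) m (m * C) := by
  intro m
  induction m with
  | zero => intro _; simpa using Reach.refl T (f 0)
  | succ m ih =>
    intro h
    have h1 := ih (fun i hi => h i (by omega))
    obtain ⟨h2, h3, h4⟩ := h m (by omega)
    have h5 := h1.trans (Reach.step h2 h3 h4)
    rwa [← Nat.succ_mul] at h5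

/-- Chains of reachable states, with varying costs. -/
theorem Reach.chain' {T : Polynomial ℕ} (f : ℕ → S) (c : ℕ → ℕ) : ∀ m : ℕ,
    (∀ i < m, ∃ N, Reach T (f i) (f (i + 1)) N (c i)) →
    ∃ N, Reach T (f 0) (f m) N (∑ i ∈ range m, c i) := by
  intro m
  induction m with
  | zero => intro _; exact ⟨0, by simpa using Reach.refl T (f 0)⟩
  | succ m ih =>
    intro h
    obtain ⟨N, h1⟩ := ih (fun i hi => h i (by omega))
    obtain ⟨M, h2⟩ := h m (by omega)
    exact ⟨N + M, by rw [sum_range_succ]; exact h1.trans h2⟩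

theorem Reach.unique {T : Polynomial ℕ} {a b : S} {N c M : ℕ} (h : Reach T a b N c)
    (hb : fin b = true) (hM : fin (g^[M] a) = true) (hlt : ∀ i < M, fin (g^[i] a) = false) :
    M = N := by
  obtain ⟨h1, h2, _⟩ := h
  rcases lt_trichotomy M N with h3 | h3 | h3
  · rw [h2 M h3] at hM; cases hM
  · exact h3
  · have := hlt N h3
    rw [h1, hb] at this
    cases this

/-- Along a reachability path, the first final index is not smaller. -/
theorem Reach.le_of_final {T : Polynomial ℕ} {a b : S} {N c M : ℕ} (h : Reach T a b N c)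
    (hM : fin (g^[M] a) = true) : N ≤ M ∧ g^[M] a = g^[M - N] b := by
  obtain ⟨h1, h2, _⟩ := h
  have hNM : N ≤ M := by
    by_contra hlt
    rw [h2 M (by omega)] at hM
    cases hM
  refine ⟨hNM, ?_⟩
  obtain ⟨j, rfl⟩ := Nat.exists_eq_add_of_le hNM
  rw [Nat.add_comm, iterate_add_apply, h1]
  simp

/-! ### Sizes of the states -/

theorem size_inl {α β : Type} [Enc α] [Enc β] (a : α) :
    size (Sum.inl a : α ⊕ β) = size a + 2 := by
  have : enc (Sum.inl a : α ⊕ β) = BT.node .leaf (enc a) := rfl
  simp only [size, this, BT.size_node, BT.size_leaf]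
  omega

theorem size_inr {α β : Type} [Enc α] [Enc β] (b : β) :
    size (Sum.inr b : α ⊕ β) = size b + 4 := by
  have : enc (Sum.inr b : α ⊕ β) = BT.node (.node .leaf .leaf) (enc b) := rfl
  simp only [size, this, BT.size_node, BT.size_leaf]
  omega

theorem size_nat (n : ℕ) : size n = 2 * n + 1 := by
  induction n with
  | zero => rfl
  | succ n ih =>
    have : enc (n + 1) = BT.node .leaf (enc n) := rfl
    simp only [size, this, BT.size_node, BT.size_leaf]
    simp only [size] at ih
    omega

theorem size_sSim (x : ℕ × (Cfg × ℕ)) : size (sSim x) = size x + 2 := size_inl _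

theorem size_sPow (x : List Bool × (ℕ × (ℕ × ℕ))) : size (sPow x) = size x + 6 := by
  simp only [sPow, size_inr, size_inl]

theorem size_sWait (x : List Bool × ℕ) : size (sWait x) = size x + 10 := by
  simp only [sWait, size_inr, size_inl]

theorem size_sDbl (x : (ℕ × List Bool) × (List Bool × ℕ)) : size (sDbl x) = size x + 14 := by
  simp only [sDbl, size_inr, size_inl]

theorem size_sScan (x : Env × Cnt) : size (sScan x) = size x + 18 := by
  simp only [sScan, size_inr, size_inl]

theorem size_sRun (x : (Env × Cnt) × (Cfg × ℕ)) : size (sRun x) = size x + 22 := by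
  simp only [sRun, size_inr, size_inl]

theorem size_sDec (x : List Bool × Cfg) : size (sDec x) = size x + 26 := by
  simp only [sDec, size_inr, size_inl]

theorem size_sFin (x : List Bool) : size (sFin x) = size x + 28 := by
  simp only [sFin, size_inr]

end Pool.Agent.Lib.MP_33f9c4_lc
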