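import Pool.Agent.Lib.MP_33f9c4_lc.Steps2
import Pool.Agent.Lib.MP_33f9c4_lc.Reach

/-!
# Reachability with bounds for the sizes of the control states
-/

namespace Pool.Agent.Lib.MP_33f9c4_lc.Ef

open Pool.Agent.Lib.PolyTime Function Finset

set_option synthInstance.maxSize 2000

/-- The configuration `b` is reached from `a` in exactly `N` steps, through nonfinal configurations
whose control states have size at most `L`. -/
def Rn (V : Tbl) (L : ℕ) (a b : Conf S) (N : ℕ) : Prop :=
  (nx (G V))^[N] a = b ∧ ∀ i < N, hl (G V) ((nx (G V))^[i] a) = false ∧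
    size ((nx (G V))^[i] a).1 ≤ L

theorem Rn.refl (V : Tbl) (L : ℕ) (a : Conf S) : Rn V L a a 0 := ⟨rfl, by simp⟩

theorem Rn.mono {V : Tbl} {L L' : ℕ} {a b : Conf S} {N : ℕ} (h : Rn V L a b N) (hL : L ≤ L') :
    Rn V L' a b N :=
  ⟨h.1, fun i hi => ⟨(h.2 i hi).1, (h.2 i hi).2.trans hL⟩⟩

theorem Rn.trans {V : Tbl} {L : ℕ} {a b d : Conf S} {N M : ℕ} (h : Rn V L a b N)
    (h' : Rn V L b d M) : Rn V L a d (N + M) := by
  obtain ⟨h1, h2⟩ := h
  obtain ⟨h4, h5⟩ := h'
  have e : ∀ i, (nx (G V))^[N + i] a = (nx (G V))^[i] b := by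
    intro i
    rw [Nat.add_comm, iterate_add_apply, h1]
  refine ⟨by rw [e, h4], ?_⟩
  intro i hi
  rcases lt_or_ge i N with hiN | hiN
  · exact h2 i hiN
  · obtain ⟨j, rfl⟩ := Nat.exists_eq_add_of_le hiN
    rw [e]
    exact h5 j (by omega)

/-- One step, given by the step function and the effect of the command. -/
theorem Rn.step {V : Tbl} {L : ℕ} {r r' : ℕ} {c c' : S} {st st' : List (List ℕ)} {m a : ℕ}
    (hG : G V (r, c) = ((m, a), c')) (hm : m ≠ 1) (he : exec m a st = (r', st'))
    (hL : size (r, c) ≤ L) : Rn V L ((r, c), st) ((r', c'), st') 1 := by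
  refine ⟨?_, ?_⟩
  · rw [iterate_one]
    show ((_, _), _) = _
    simp only [hG, he]
  · intro i hi
    obtain rfl : i = 0 := by omega
    refine ⟨?_, hL⟩
    simp only [iterate_zero, id_eq, hl, hG, decide_eq_false_iff_not]
    exact hm

/-- Chains. -/
theorem Rn.chain {V : Tbl} {L : ℕ} (f : ℕ → Conf S) (n : ℕ → ℕ) : ∀ m : ℕ,
    (∀ i < m, Rn V L (f i) (f (i + 1)) (n i)) → Rn V L (f 0) (f m) (∑ i ∈ range m, n i) := by
  intro m
  induction m with
  | zero => intro _; simpa using Rn.refl V L (f 0)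
  | succ m ih =>
    intro h
    rw [sum_range_succ]
    exact (ih (fun i hi => h i (by omega))).trans (h m (by omega))

/-- Chains in which the numbers of steps are not exactly known. -/
theorem Rn.chain' {V : Tbl} {L : ℕ} (f : ℕ → Conf S) (c : ℕ → ℕ) : ∀ m : ℕ,
    (∀ i < m, ∃ N ≤ c i, Rn V L (f i) (f (i + 1)) N) →
    ∃ N ≤ ∑ i ∈ range m, c i, Rn V L (f 0) (f m) N := by
  intro m
  induction m with
  | zero => intro _; exact ⟨0, by simp, Rn.refl V L (f 0)⟩
  | succ m ih =>
    intro h
    obtain ⟨N, hN, h1⟩ := ih (fun i hi => h i (by omega))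
    obtain ⟨M, hM, h2⟩ := h m (by omega)
    exact ⟨N + M, by rw [sum_range_succ]; omega, h1.trans h2⟩

theorem Rn.unique {V : Tbl} {L : ℕ} {a b : Conf S} {N M : ℕ} (h : Rn V L a b N)
    (hb : hl (G V) b = true) (hM : hl (G V) ((nx (G V))^[M] a) = true)
    (hlt : ∀ i < M, hl (G V) ((nx (G V))^[i] a) = false) : M = N := by
  obtain ⟨h1, h2⟩ := h
  rcases lt_trichotomy M N with h3 | h3 | h3
  · rw [(h2 M h3).1] at hM; cases hM
  · exact h3
  · have := hlt N h3
    rw [h1, hb] at this
    cases this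

/-- Along a path, the first final index is not smaller. -/
theorem Rn.le_of_final {V : Tbl} {L : ℕ} {a b : Conf S} {N M : ℕ} (h : Rn V L a b N)
    (hM : hl (G V) ((nx (G V))^[M] a) = true) :
    N ≤ M ∧ (nx (G V))^[M] a = (nx (G V))^[M - N] b := by
  obtain ⟨h1, h2⟩ := h
  have hNM : N ≤ M := by
    by_contra hlt
    rw [(h2 M (by omega)).1] at hM
    cases hM
  refine ⟨hNM, ?_⟩
  obtain ⟨j, rfl⟩ := Nat.exists_eq_add_of_le hNM
  rw [Nat.add_comm, iterate_add_apply, h1]
  simp

/-- The empty stacks. -/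
def emp (V : Tbl) : List (List ℕ) := List.replicate (V.length + 1) []

/-! ### Sizes of the states -/

theorem size_cLoad (z : X × List Bool) : size (cLoad z) = size z + 2 := size_inl _
theorem size_cRun (z : Bool × (X × Q)) : size (cRun z) = size z + 6 := by
  simp only [cRun, size_inr, size_inl]
theorem size_cRead (z : Bool × (X × (Q × List Bool))) : size (cRead z) = size z + 10 := by
  simp only [cRead, size_inr, size_inl]
theorem size_cClean (z : Bool × (X × ((List Bool × List Bool) × ℕ))) :
    size (cClean z) = size z + 14 := by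
  simp only [cClean, size_inr, size_inl]
theorem size_cPow (z : ℕ × ((List Bool × List Bool) × ℕ)) : size (cPow z) = size z + 18 := by
  simp only [cPow, size_inr, size_inl]
theorem size_cWait (z : ((List Bool × List Bool) × List Bool) × (ℕ × ℕ)) :
    size (cWait z) = size z + 22 := by
  simp only [cWait, size_inr, size_inl]
theorem size_cDbl (z : (ℕ × (List Bool × List Bool)) × (List Bool × ℕ)) :
    size (cDbl z) = size z + 26 := by
  simp only [cDbl, size_inr, size_inl]
theorem size_cScan (z : Env × Cnt) : size (cScan z) = size z + 30 := by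
  simp only [cScan, size_inr, size_inl]
theorem size_cDec (z : List Bool × Cfg) : size (cDec z) = size z + 34 := by
  simp only [cDec, size_inr, size_inl]
theorem size_cFin (z : List Bool) : size (cFin z) = size z + 36 := by
  simp only [cFin, size_inr]

end Pool.Agent.Lib.MP_33f9c4_lc.Ef
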