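import Mathlib

/-!
# Random self-reduction through the multilinear extension
-/

namespace Pool.Agent.Lib.MP_33f9c4_lc.Qt

open Finset Function

/-- The multilinear extension. -/
def mle (p : ℕ) {N : ℕ} (f : (Fin N → Bool) → Bool) (x : Fin N → ZMod p) : ZMod p :=
  ∑ y : Fin N → Bool, (if f y = true then 1 else 0) * ∏ i, (if y i = true then x i else 1 - x i)

theorem mle_bool (p : ℕ) {N : ℕ} (f : (Fin N → Bool) → Bool) (z : Fin N → Bool) :
    mle p f (fun i => if z i = true then 1 else 0) = if f z = true then 1 else 0 := by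
  unfold mle
  rw [Finset.sum_eq_single z]
  · rw [Finset.prod_eq_one, mul_one]
    intro i _
    by_cases h : z i = true <;> simp [h]
  · intro y _ hy
    obtain ⟨i, hi⟩ := Function.ne_iff.mp hy
    rw [Finset.prod_eq_zero (mem_univ i), mul_zero]
    cases h1 : y i <;> cases h2 : z i <;> simp_all
  · intro h
    exact absurd (mem_univ z) h

/-- Interpolation on lines (Lagrange coefficients at the points `1, …, N + 1` for the value at
`0`). -/
theorem mle_line (p N : ℕ) [Fact p.Prime] (h : N + 1 < p) : ∃ l : Fin (N + 1) → ZMod p,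
    ∀ (f : (Fin N → Bool) → Bool) (x r : Fin N → ZMod p),
      mle p f x = ∑ t : Fin (N + 1), l t * mle p f (fun i => x i + ((t : ℕ) + 1 : ℕ) * r i) := by
  set v : Fin (N + 1) → ZMod p := fun t => ((t : ℕ) + 1 : ℕ) with hv
  have hinj : Set.InjOn v ((univ : Finset (Fin (N + 1))) : Set (Fin (N + 1))) := by
    intro s _ t _ hst
    have h1 := s.2
    have h2 := t.2
    have h3 : ((s : ℕ) + 1) % p = ((t : ℕ) + 1) % p :=
      (ZMod.natCast_eq_natCast_iff' _ _ _).mp hst
    rw [Nat.mod_eq_of_lt (by omega), Nat.mod_eq_of_lt (by omega)] at h3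
    exact Fin.ext (by omega)
  refine ⟨fun t => (Lagrange.basis univ v t).eval 0, fun f x r => ?_⟩
  set P : Polynomial (ZMod p) := ∑ y : Fin N → Bool, Polynomial.C (if f y = true then 1 else 0) *
    ∏ i, (if y i = true then Polynomial.C (x i) + Polynomial.X * Polynomial.C (r i)
      else 1 - (Polynomial.C (x i) + Polynomial.X * Polynomial.C (r i))) with hP
  have heval : ∀ s : ZMod p, P.eval s = mle p f (fun i => x i + s * r i) := by
    intro s
    rw [hP, Polynomial.eval_finsetSum]
    unfold mle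
    refine Finset.sum_congr rfl fun y _ => ?_
    rw [Polynomial.eval_mul, Polynomial.eval_C, Polynomial.eval_prod]
    congr 1
    refine Finset.prod_congr rfl fun i _ => ?_
    split_ifs
    · simp only [Polynomial.eval_add, Polynomial.eval_C, Polynomial.eval_mul, Polynomial.eval_X]
    · simp only [Polynomial.eval_sub, Polynomial.eval_one, Polynomial.eval_add, Polynomial.eval_C,
        Polynomial.eval_mul, Polynomial.eval_X]
  have hdeg : P.degree < (univ : Finset (Fin (N + 1))).card := by
    rw [card_univ, Fintype.card_fin]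
    have h1 : P.natDegree ≤ N := by
      rw [hP]
      refine Polynomial.natDegree_sum_le_of_forall_le _ _ fun y _ => ?_
      refine (Polynomial.natDegree_C_mul_le _ _).trans ?_
      refine (Polynomial.natDegree_prod_le _ _).trans ?_
      refine (Finset.sum_le_sum (g := fun _ => 1) fun i _ => ?_).trans (by simp)
      have h2 : (Polynomial.C (x i) + Polynomial.X * Polynomial.C (r i)).natDegree ≤ 1 := by
        refine (Polynomial.natDegree_add_le _ _).trans ?_
        refine max_le (by simp) ?_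
        refine Polynomial.natDegree_mul_le.trans ?_
        rw [Polynomial.natDegree_C]
        exact Polynomial.natDegree_X_le
      split_ifs
      · exact h2
      · refine (Polynomial.natDegree_sub_le _ _).trans ?_
        exact max_le (by simp) h2
    exact (Polynomial.degree_le_of_natDegree_le h1).trans_lt
      (by exact_mod_cast Nat.lt_succ_self N)
  have key := Lagrange.eq_interpolate hinj hdeg
  have h0 : mle p f x = P.eval 0 := by
    rw [heval]
    simp
  rw [h0, key, Lagrange.interpolate_apply, Polynomial.eval_finsetSum]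
  refine Finset.sum_congr rfl fun t _ => ?_
  rw [Polynomial.eval_mul, Polynomial.eval_C, heval, mul_comm]

/-- The lift of a point of a line: the residues `x i + (t + 1) * r i` as natural numbers, plus
multiples of `p`. -/
def lift (p : ℕ) {N K : ℕ} (x : Fin N → ZMod p)
    (w : (Fin N → ZMod p) × (Fin (N + 1) → Fin N → Fin K)) (t : Fin (N + 1)) : Fin N → ℕ :=
  fun i => (x i + ((t : ℕ) + 1 : ℕ) * w.1 i).val + p * (w.2 t i : ℕ)

theorem card_fibre_le (p N K : ℕ) [Fact p.Prime] (h : N + 1 < p) (x : Fin N → ZMod p)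
    (u : Fin N → ℕ) (t : Fin (N + 1)) :
    (univ.filter (fun w : (Fin N → ZMod p) × (Fin (N + 1) → Fin N → Fin K) =>
      lift p x w t = u)).card ≤ (K ^ N) ^ N := by
  have hc : Fintype.card ({s : Fin (N + 1) // s ≠ t} → Fin N → Fin K) = (K ^ N) ^ N := by
    simp [Fintype.card_subtype_compl]
  rw [← hc, ← Finset.card_univ]
  refine Finset.card_le_card_of_injOn (fun w s => w.2 s) (fun _ _ => mem_coe.mpr (mem_univ _)) ?_
  intro w hw w' hw' heq
  rw [mem_coe, mem_filter] at hw hw'
  have h1 := hw.2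
  have h2 := hw'.2
  have hp0 : 0 < p := by omega
  have key : ∀ i, (x i + (((t : ℕ) + 1 : ℕ) : ZMod p) * w.1 i).val =
      (x i + (((t : ℕ) + 1 : ℕ) : ZMod p) * w'.1 i).val ∧
      (w.2 t i : ℕ) = (w'.2 t i : ℕ) := by
    intro i
    have h3 : (x i + (((t : ℕ) + 1 : ℕ) : ZMod p) * w.1 i).val + p * (w.2 t i : ℕ) =
        (x i + (((t : ℕ) + 1 : ℕ) : ZMod p) * w'.1 i).val + p * (w'.2 t i : ℕ) := by
      have := congrFun (h1.trans h2.symm) i
      exact this
    have h4 := ZMod.val_lt (x i + (((t : ℕ) + 1 : ℕ) : ZMod p) * w.1 i)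
    have h5 := ZMod.val_lt (x i + (((t : ℕ) + 1 : ℕ) : ZMod p) * w'.1 i)
    have h6 := congrArg (· % p) h3
    have h7 := congrArg (· / p) h3
    simp only [Nat.add_mul_mod_self_left, Nat.mod_eq_of_lt h4, Nat.mod_eq_of_lt h5] at h6
    simp only [Nat.add_mul_div_left _ _ hp0, Nat.div_eq_of_lt h4, Nat.div_eq_of_lt h5,
      Nat.zero_add] at h7
    exact ⟨h6, h7⟩
  have hne : (((t : ℕ) + 1 : ℕ) : ZMod p) ≠ 0 := by
    intro h3
    rw [ZMod.natCast_eq_zero_iff] at h3
    have h4 := Nat.le_of_dvd (by omega) h3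
    have h5 := t.2
    omega
  refine Prod.ext (funext fun i => ?_) (funext fun s => ?_)
  · have h3 := ZMod.val_injective p (key i).1
    exact mul_left_cancel₀ hne (add_left_cancel h3)
  · by_cases hs : s = t
    · subst hs
      exact funext fun i => Fin.ext (key i).2
    · exact congrFun heq ⟨s, hs⟩

/-- The lifts are uniformly distributed. -/
theorem card_lift_le (p N K : ℕ) [Fact p.Prime] (h : N + 1 < p) (x : Fin N → ZMod p)
    (W : Finset (Fin N → ℕ)) (t : Fin (N + 1)) :
    (univ.filter (fun w : (Fin N → ZMod p) × (Fin (N + 1) → Fin N → Fin K) =>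
      lift p x w t ∈ W)).card * (p * K) ^ N ≤
    W.card * Fintype.card ((Fin N → ZMod p) × (Fin (N + 1) → Fin N → Fin K)) := by
  classical
  have h1 : (univ.filter (fun w : (Fin N → ZMod p) × (Fin (N + 1) → Fin N → Fin K) =>
      lift p x w t ∈ W)).card ≤ W.card * (K ^ N) ^ N := by
    have h2 : univ.filter (fun w : (Fin N → ZMod p) × (Fin (N + 1) → Fin N → Fin K) =>
        lift p x w t ∈ W) ⊆ W.biUnion (fun u => univ.filter (fun w => lift p x w t = u)) := by
      intro w hw
      rw [mem_filter] at hw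
      rw [mem_biUnion]
      exact ⟨_, hw.2, by rw [mem_filter]; exact ⟨mem_univ _, rfl⟩⟩
    refine (card_le_card h2).trans (card_biUnion_le.trans ?_)
    rw [← smul_eq_mul]
    exact Finset.sum_le_card_nsmul _ _ _ (fun u _ => card_fibre_le p N K h x u t)
  have hc : Fintype.card ((Fin N → ZMod p) × (Fin (N + 1) → Fin N → Fin K)) =
      p ^ N * (K ^ N) ^ (N + 1) := by
    simp [ZMod.card]
  rw [hc]
  calc _ ≤ W.card * (K ^ N) ^ N * (p * K) ^ N := Nat.mul_le_mul_right _ h1
    _ = W.card * (p ^ N * (K ^ N) ^ (N + 1)) := by rw [mul_pow, pow_succ]; ring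

theorem pow_le_two_mul (p N b : ℕ) (hp : 0 < p) (h : 2 * p * N ≤ 2 ^ b) :
    (2 ^ b) ^ N ≤ 2 * (p * (2 ^ b / p)) ^ N := by
  set M := 2 ^ b with hM
  have hM0 : 0 < M := by positivity
  have h1 := Nat.div_add_mod M p
  have h2 := Nat.mod_lt M hp
  set m := p * (M / p) with hm
  rcases Nat.eq_zero_or_pos N with rfl | hN
  · simp
  have hMr : (0 : ℝ) < M := by exact_mod_cast hM0
  have hpM : (p : ℝ) * N ≤ M / 2 := by
    have : ((2 * p * N : ℕ) : ℝ) ≤ (M : ℝ) := by exact_mod_cast h
    push_cast at this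
    linarith
  have h3 : (M : ℝ) - p ≤ m := by
    have : M ≤ m + p := by omega
    have : (M : ℝ) ≤ (m : ℝ) + p := by exact_mod_cast this
    linarith
  have h4 : (1 : ℝ) - p / M ≤ m / M := by
    rw [le_div_iff₀ hMr, sub_mul, div_mul_cancel₀ _ hMr.ne']
    linarith
  have hle1 : (p : ℝ) / M ≤ 1 := by
    rw [div_le_one hMr]
    have : (1 : ℝ) ≤ N := by exact_mod_cast hN
    have hp' : (0 : ℝ) < p := by exact_mod_cast hp
    nlinarith
  have h5 : (1 : ℝ) / 2 ≤ ((m : ℝ) / M) ^ N := by
    have h6 := one_add_mul_le_pow (a := -((p : ℝ) / M)) (by linarith) N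
    have h7 : (N : ℝ) * (p / M) ≤ 1 / 2 := by
      rw [mul_div_assoc', div_le_iff₀ hMr]
      linarith
    calc (1 : ℝ) / 2 ≤ 1 + N * -((p : ℝ) / M) := by linarith
      _ ≤ (1 + -((p : ℝ) / M)) ^ N := h6
      _ ≤ ((m : ℝ) / M) ^ N := pow_le_pow_left₀ (by linarith) (by linarith) N
  rw [div_pow, le_div_iff₀ (by positivity)] at h5
  have h8 : ((M ^ N : ℕ) : ℝ) ≤ ((2 * m ^ N : ℕ) : ℝ) := by
    push_cast
    linarith
  exact_mod_cast h8

/-- Samples that are good for all `z` by majority. Proof: give the weight `2` to bad and `1/2` to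
good samples; for each `z` the mean weight is at most `3/4`, `2 ^ N * (3/4) ^ (3 * N + 1) < 1`. -/
theorem sample {I Ω : Type} [Fintype I] [Fintype Ω] [Nonempty Ω] (N : ℕ)
    (hI : Fintype.card I ≤ 2 ^ N) (bad : I → Ω → Bool)
    (h : ∀ z, 6 * (univ.filter (fun w => bad z w = true)).card ≤ Fintype.card Ω) :
    ∃ c : Fin (3 * N + 1) → Ω, ∀ z,
      2 * (univ.filter (fun i => bad z (c i) = true)).card < 3 * N + 1 := by
  classical
  set n := 3 * N + 1 with hn
  set q := Fintype.card Ω with hq
  have hq0 : 0 < q := Fintype.card_pos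
  set B : I → Finset (Fin n → Ω) := fun z =>
    univ.filter (fun c => n ≤ 2 * (univ.filter (fun i => bad z (c i) = true)).card) with hB
  have h1 : ∀ z, (B z).card * 4 ^ n ≤ 3 ^ n * q ^ n := by
    intro z
    have h2 : ∑ c ∈ B z, 2 ^ n ≤ ∑ c : Fin n → Ω, ∏ i, (if bad z (c i) = true then 4 else 1) := by
      refine (Finset.sum_le_sum fun c hc => ?_).trans
        (Finset.sum_le_sum_of_subset (Finset.subset_univ (B z)))
      rw [hB, mem_filter] at hc
      rw [Finset.prod_ite, Finset.prod_const, Finset.prod_const_one, mul_one]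
      calc 2 ^ n ≤ 2 ^ (2 * (univ.filter (fun i => bad z (c i) = true)).card) :=
            Nat.pow_le_pow_right (by norm_num) hc.2
        _ = 4 ^ (univ.filter (fun i => bad z (c i) = true)).card := by
            rw [pow_mul]; norm_num
    have h3 : ∑ c : Fin n → Ω, ∏ i, (if bad z (c i) = true then 4 else 1) =
        (∑ w : Ω, (if bad z w = true then 4 else 1)) ^ n := by
      rw [← Fintype.card_fin n, ← Finset.card_univ (α := Fin n), ← Finset.prod_const,
        Finset.prod_univ_sum, Fintype.piFinset_univ, Finset.card_univ, Fintype.card_fin]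
    have h4 : 2 * ∑ w : Ω, (if bad z w = true then 4 else 1) ≤ 3 * q := by
      have h5 : ∑ w : Ω, (if bad z w = true then 4 else 1) =
          q + 3 * (univ.filter (fun w => bad z w = true)).card := by
        have : ∀ w : Ω, (if bad z w = true then 4 else 1) =
            1 + 3 * (if bad z w = true then 1 else 0) := by
          intro w
          split_ifs <;> rfl
        rw [Finset.sum_congr rfl fun w _ => this w, Finset.sum_add_distrib, ← Finset.mul_sum,
          Finset.sum_boole, Finset.sum_const, Finset.card_univ]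
        simp [hq]
      have h6 := h z
      rw [h5]
      omega
    rw [sum_const, smul_eq_mul, h3] at h2
    have h7 := Nat.pow_le_pow_left h4 n
    rw [mul_pow, mul_pow] at h7
    calc (B z).card * 4 ^ n = 2 ^ n * ((B z).card * 2 ^ n) := by
          have : (4 : ℕ) ^ n = 2 ^ n * 2 ^ n := by rw [← mul_pow]; norm_num
          rw [this]; ring
      _ ≤ 2 ^ n * (∑ w : Ω, (if bad z w = true then 4 else 1)) ^ n := Nat.mul_le_mul_left _ h2
      _ ≤ 3 ^ n * q ^ n := h7
  have h2 : (univ.biUnion B).card * 4 ^ n < 4 ^ n * q ^ n := by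
    have h3 : (univ.biUnion B).card * 4 ^ n ≤ 2 ^ N * (3 ^ n * q ^ n) := by
      calc (univ.biUnion B).card * 4 ^ n ≤ (∑ z, (B z).card) * 4 ^ n :=
            Nat.mul_le_mul_right _ card_biUnion_le
        _ = ∑ z, (B z).card * 4 ^ n := Finset.sum_mul _ _ _
        _ ≤ ∑ _z : I, 3 ^ n * q ^ n := Finset.sum_le_sum fun z _ => h1 z
        _ = Fintype.card I * (3 ^ n * q ^ n) := by rw [sum_const, card_univ, smul_eq_mul]
        _ ≤ 2 ^ N * (3 ^ n * q ^ n) := Nat.mul_le_mul_right _ hI
    refine h3.trans_lt ?_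
    rw [← mul_assoc]
    refine Nat.mul_lt_mul_of_pos_right ?_ (by positivity)
    rw [hn, pow_succ, pow_succ, pow_mul, pow_mul]
    have h5 : (54 : ℕ) ^ N ≤ 64 ^ N := Nat.pow_le_pow_left (by norm_num) N
    have h6 : 2 ^ N * ((3 ^ 3) ^ N * 3) = 54 ^ N * 3 := by
      rw [← mul_assoc, ← mul_pow]
      norm_num
    have h7 : ((4 : ℕ) ^ 3) ^ N = 64 ^ N := by norm_num
    have h8 : 0 < (64 : ℕ) ^ N := by positivity
    rw [h6, h7]
    omega
  have h3 : (univ.biUnion B).card < q ^ n := by
    rw [mul_comm] at h2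
    exact Nat.lt_of_mul_lt_mul_left h2
  have h4 : ∃ c, c ∉ univ.biUnion B := by
    by_contra hcon
    push Not at hcon
    have h5 : univ.biUnion B = univ := Finset.eq_univ_iff_forall.mpr hcon
    rw [h5, card_univ, Fintype.card_fun, Fintype.card_fin] at h3
    exact lt_irrefl _ h3
  obtain ⟨c, hc⟩ := h4
  refine ⟨c, fun z => ?_⟩
  rw [mem_biUnion] at hc
  push Not at hc
  have h5 := hc z (mem_univ z)
  rw [hB, mem_filter] at h5
  push Not at h5
  exact h5 (mem_univ c)

end Pool.Agent.Lib.MP_33f9c4_lc.Qt
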