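import Pool.Agent.Lib.MP_33f9c4_lc.Run0
import Pool.Agent.Lib.MP_33f9c4_lc.Alg
import Mathlib.Data.Set.Finite.List

/-!
# The algorithm with the oracle for the Levin-random strings
-/

namespace Pool.Agent.Lib.MP_33f9c4_lc.Qt

open Pool.Agent.Lib.PolyTime Function Turing

set_option synthInstance.maxSize 2000

/-! ### The queries and the result -/

/-- The answers after the blocks are the advice string followed by answers to the queries of the
algorithm: the advice. -/
def adv3 (A : Polynomial ℕ) (dc : List Bool → Adv) (y : List Bool × List Bool) : Adv :=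
  dc (y.2.take (A.eval y.1.length))

/-- The queries of the algorithm. -/
def qs3 (A : Polynomial ℕ) (dc : List Bool → Adv) (y : List Bool × List Bool) :
    List (List Bool) := qs (adv3 A dc y) y.1

/-- The next query of the algorithm. -/
def qf3 (A : Polynomial ℕ) (dc : List Bool → Adv) (y : List Bool × List Bool) : List Bool :=
  (qs3 A dc y).getD (y.2.length - A.eval y.1.length) []

/-- The strings of a list for which the corresponding bit is `false`. -/
def coll (x : List (List Bool) × List Bool) : List (List Bool) :=
  ((List.range x.1.length).filter (fun i => !(x.2.getD i true))).map (fun i => x.1.getD i [])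

/-- The algorithm with the oracle given by a list. -/
def algL (l : List (List Bool)) (adv : Adv) (z : List Bool) : Bool :=
  alg (fun v => decide (v ∈ l)) adv z

theorem pt_algL : PT (fun x : List (List Bool) × (Adv × List Bool) => algL x.1 x.2.1 x.2.2) :=
  pt_alg

/-- The result of the algorithm. -/
def rf3 (A : Polynomial ℕ) (dc : List Bool → Adv) (y : List Bool × List Bool) : Bool :=
  algL (coll (qs3 A dc y, y.2.drop (A.eval y.1.length))) (adv3 A dc y) y.1

section

variable (A : Polynomial ℕ) {dc : List Bool → Adv} (hdc : PT dc)

include hdc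

theorem pt_adv3 : PT (adv3 A dc) := by
  have hA : PT (fun y : List Bool × List Bool => A.eval y.1.length) :=
    pt_eval A (PT.length PT.fst)
  have h : PT (fun y : List Bool × List Bool => y.2.take (A.eval y.1.length)) :=
    mpt_take hA PT.snd
  exact hdc.comp h

theorem pt_qs3 : PT (qs3 A dc) := PT.comp₂ (g := qs) pt_qs (pt_adv3 A hdc) PT.fst

theorem pt_qf3 : PT (qf3 A dc) := by
  have h1 : PT (fun y : List Bool × List Bool => y.2.length - A.eval y.1.length) :=
    PT.sub (PT.length PT.snd) (pt_eval A (PT.length PT.fst))
  exact mpt_getD (pt_qs3 A hdc) h1 []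

omit hdc in
theorem pt_coll : PT coll := by
  have h6 : PT (fun x : List (List Bool) × List Bool =>
      (List.range x.1.length).filter (fun i => !(x.2.getD i true))) := by
    refine PT.filter (f := fun x : List (List Bool) × List Bool => List.range x.1.length)
      (p := fun x i => !(x.2.getD i true)) (PT.range (PT.length PT.fst)) ?_
    exact PT.not (mpt_getD (f := fun x : (List (List Bool) × List Bool) × ℕ => x.1.2)
      (i := fun x => x.2) PT.fst.snd' PT.snd true)
  exact PT.map (g := fun x i => x.1.getD i []) h6
    (mpt_getD (f := fun x : (List (List Bool) × List Bool) × ℕ => x.1.1)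
      (i := fun x => x.2) PT.fst.fst' PT.snd [])

theorem pt_rf3 : PT (rf3 A dc) := by
  have h1 : PT (fun y : List Bool × List Bool => y.2.drop (A.eval y.1.length)) :=
    PT.drop (pt_eval A (PT.length PT.fst)) PT.snd
  have h2 : PT (fun y : List Bool × List Bool =>
      coll (qs3 A dc y, y.2.drop (A.eval y.1.length))) :=
    pt_coll.comp ((pt_qs3 A hdc).pair h1)
  have h3 : PT (fun y : List Bool × List Bool => (adv3 A dc y, y.1)) :=
    (pt_adv3 A hdc).pair PT.fst
  exact PT.comp₂ (g := fun l (w : Adv × List Bool) => algL l w.1 w.2) pt_algL h2 h3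

end

/-- The next query, from the input and the state of the reading of the blocks. -/
def qf2 (nm A : Polynomial ℕ) (N0 : ℕ) (c : List Bool) (dc : List Bool → Adv)
    (x : List Bool × (ℕ × (List Bool × List Bool))) : List Bool :=
  if x.1.length < N0 then []
  else if x.2.1 < nm.eval x.1.length then qA x.2.2.1 x.2.1 x.2.2.2.length
  else if x.2.2.2.length < A.eval x.1.length then qB c x.2.2.1 x.2.1 x.1.length x.2.2.2.length
  else qf3 A dc (x.1, x.2.2.2)

/-- The result, from the input and the state of the reading of the blocks. -/
def rf2 (A : Polynomial ℕ) (N0 : ℕ) (dc : List Bool → Adv) (tbl : List (List Bool))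
    (x : List Bool × (ℕ × (List Bool × List Bool))) : Bool :=
  if x.1.length < N0 then tbl.any (fun y => decide (y = x.1)) else rf3 A dc (x.1, x.2.2.2)

theorem pt_qf2 (nm A : Polynomial ℕ) (N0 : ℕ) (c : List Bool) {dc : List Bool → Adv}
    (hdc : PT dc) : PT (qf2 nm A N0 c dc) := by
  have hz : PT (fun x : List Bool × (ℕ × (List Bool × List Bool)) => x.1) := PT.fst
  have hN : PT (fun x : List Bool × (ℕ × (List Bool × List Bool)) => x.1.length) :=
    PT.length PT.fst
  have hM := pt_eval nm hN
  have hA := pt_eval A hN
  have h1 : PT (fun x : List Bool × (ℕ × (List Bool × List Bool)) => x.2.1) := PT.snd.fst'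
  have h2 : PT (fun x : List Bool × (ℕ × (List Bool × List Bool)) => x.2.2.1) :=
    PT.snd.snd'.fst'
  have h3 : PT (fun x : List Bool × (ℕ × (List Bool × List Bool)) => x.2.2.2) :=
    PT.snd.snd'.snd'
  have h4 := PT.length h3
  have h5 : PT (fun x : List Bool × (ℕ × (List Bool × List Bool)) => qf3 A dc (x.1, x.2.2.2)) :=
    (pt_qf3 A hdc).comp (hz.pair h3)
  exact PT.ite (PT.lt hN (PT.const N0)) (PT.const []) (PT.ite (PT.lt h1 hM) (pt_qA h2 h1 h4)
    (PT.ite (PT.lt h4 hA) (pt_qB c h2 h1 hN h4) h5))

theorem pt_rf2 (A : Polynomial ℕ) (N0 : ℕ) {dc : List Bool → Adv}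
    (hdc : PT dc) (tbl : List (List Bool)) : PT (rf2 A N0 dc tbl) := by
  have hz : PT (fun x : List Bool × (ℕ × (List Bool × List Bool)) => x.1) := PT.fst
  have hN : PT (fun x : List Bool × (ℕ × (List Bool × List Bool)) => x.1.length) :=
    PT.length PT.fst
  have h3 : PT (fun x : List Bool × (ℕ × (List Bool × List Bool)) => x.2.2.2) :=
    PT.snd.snd'.snd'
  have h5 : PT (fun x : List Bool × (ℕ × (List Bool × List Bool)) => rf3 A dc (x.1, x.2.2.2)) :=
    (pt_rf3 A hdc).comp (hz.pair h3)
  have h6 : PT (fun x : List Bool × (ℕ × (List Bool × List Bool)) =>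
      tbl.any (fun y => decide (y = x.1))) :=
    PT.any (f := fun _ : List Bool × (ℕ × (List Bool × List Bool)) => tbl)
      (p := fun x y => decide (y = x.1)) (PT.const tbl) (PT.eq PT.snd PT.fst.fst')
  exact PT.ite (PT.lt hN (PT.const N0)) h6 h5

open Classical in
/-- The oracle given by the collected strings agrees with the oracle on the queries. -/
theorem mem_coll_iff (R : Set (List Bool)) (Qs : List (List Bool)) (as : List Bool)
    (h : ∀ i < Qs.length, as.getD i true = decide (Qs.getD i [] ∉ R)) (y : List Bool)
    (hy : y ∈ Qs) : decide (y ∈ coll (Qs, as)) = decide (y ∈ R) := by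
  have : y ∈ coll (Qs, as) ↔ y ∈ R := by
    simp only [coll, List.mem_map, List.mem_filter, List.mem_range, Bool.not_eq_true']
    constructor
    · rintro ⟨i, ⟨hi, h1⟩, h2⟩
      rw [h i hi, h2] at h1
      simpa using h1
    · intro hR
      obtain ⟨i, hi, h2⟩ := List.getElem_of_mem hy
      have h3 : Qs.getD i [] = y := by rw [List.getD_eq_getElem _ _ hi, h2]
      refine ⟨i, ⟨hi, ?_⟩, h3⟩
      rw [h i hi, h3]
      simpa using hR
  exact decide_eq_decide.mpr this

open Classical in
theorem run (R L : Set (List Bool)) (Yf : ℕ → List Bool)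
    (hY : ∀ n, (Yf n).length = n - 2 * lg n) (n0 N0 : ℕ) (hn0 : 20 ≤ n0) (c : List Bool)
    (nm A : Polynomial ℕ) (dc : List Bool → Adv) (hdc : PT dc) (w : ℕ → List Bool)
    (hw : ∀ N ≥ N0, (w N).length = A.eval N) (hnm : ∀ N ≥ N0, n0 ≤ nm.eval N)
    (h1 : ∀ n ≥ n0, ∀ i < n + 1 - 2 * lg (n + 1),
      (qA (Yf n) n i ∉ R ↔ (Yf (n + 1)).getD i false = true))
    (h2 : ∀ N ≥ N0, ∀ i < A.eval N,
      (qB c (Yf (nm.eval N)) (nm.eval N) N i ∉ R ↔ (w N).getD i false = true))
    (h3 : ∀ N ≥ N0, ∀ z : List Bool, z.length = N →
      alg (fun x => decide (x ∈ R)) (dc (w N)) z = decide (z ∈ L)) :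
    InPRel R L := by
  have _ := hn0
  -- the table of the short strings
  obtain ⟨tbl, htbl⟩ : ∃ tbl : List (List Bool), ∀ z : List Bool, z.length < N0 →
      (z ∈ tbl ↔ z ∈ L) := by
    have hfin : {z : List Bool | z.length < N0 ∧ z ∈ L}.Finite :=
      (List.finite_length_lt Bool N0).subset (fun z hz => hz.1)
    refine ⟨hfin.toFinset.toList, fun z hz => ?_⟩
    rw [Finset.mem_toList, Set.Finite.mem_toFinset, Set.mem_ofPred_eq]
    exact ⟨fun h => h.2, fun h => ⟨hz, h⟩⟩
  -- the number of queries
  obtain ⟨Q, hQ⟩ : ∃ Q : Polynomial ℕ, ∀ z : List Bool, N0 ≤ z.length →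
      (blks Yf n0 (nm.eval z.length - n0)).length +
        ((w z.length).length + (qs (dc (w z.length)) z).length) ≤ Q.eval z.length := by
    obtain ⟨pq, hpq⟩ := pt_qs.size_le
    obtain ⟨pd, hpd⟩ := hdc.size_le
    obtain ⟨Q, hQ⟩ : PB (fun n => nm.eval n * (n0 + nm.eval n) +
        (A.eval n + pq.eval (pd.eval (4 * A.eval n + 1) + (4 * n + 1) + 1))) :=
      ((PB.poly nm).mul ((PB.const n0).add (PB.poly nm))).add ((PB.poly A).add
        (PB.comp pq (((PB.comp pd (((PB.const 4).mul (PB.poly A)).add (PB.const 1))).add
          (((PB.const 4).mul PB.id).add (PB.const 1))).add (PB.const 1))))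
    refine ⟨Q, fun z hz => le_trans ?_ (hQ z.length)⟩
    simp only
    have e1 := length_blks_le hY (nm.eval z.length - n0) n0
    have e2 : (nm.eval z.length - n0) * (n0 + (nm.eval z.length - n0)) ≤
        nm.eval z.length * (n0 + nm.eval z.length) :=
      Nat.mul_le_mul (Nat.sub_le _ _) (by omega)
    have e3 := hw z.length hz
    have e4 := length_le_size (qs (dc (w z.length)) z)
    have e5 := hpq (dc (w z.length), z)
    have e6 := hpd (w z.length)
    have e7 : size (w z.length) ≤ 4 * A.eval z.length + 1 := by
      have := size_bools (w z.length)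
      rwa [e3] at this
    have e8 := eval_mono pd e7
    have e9 := size_bools z
    have e10 : size (dc (w z.length), z) ≤
        pd.eval (4 * A.eval z.length + 1) + (4 * z.length + 1) + 1 := by
      rw [size_prod]
      simp only
      omega
    have e11 := eval_mono pq e10
    simp only at e5
    omega
  -- the negated answers
  set dm : Bool := decide (([] : List Bool) ∉ R) with hdm
  let mr : List Bool → List Bool := fun z => (qs (dc (w z.length)) z).map (fun y => decide (y ∉ R)) ++
    List.replicate (Q.eval z.length - ((blks Yf n0 (nm.eval z.length - n0)).length +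
        ((w z.length).length + (qs (dc (w z.length)) z).length))) dm
  let F : List Bool → List Bool := fun z => if z.length < N0 then
    List.replicate (Q.eval z.length) dm else
    blks Yf n0 (nm.eval z.length - n0) ++ (w z.length ++ mr z)
  have hF1 : ∀ z, z.length < N0 → F z = List.replicate (Q.eval z.length) dm := fun z hz => if_pos hz
  have hF2 : ∀ z, N0 ≤ z.length → F z = blks Yf n0 (nm.eval z.length - n0) ++
      (w z.length ++ mr z) := fun z hz => if_neg (not_lt.mpr hz)
  have hmr : ∀ z, ∀ i, (qs (dc (w z.length)) z).length ≤ i → i < (mr z).length →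
      (mr z).getD i false = dm := by
    intro z i hi hi'
    have hi2 : ((qs (dc (w z.length)) z).map (fun y => decide (y ∉ R))).length ≤ i := by
      rwa [List.length_map]
    simp only [mr]
    rw [List.getD_append_right _ _ _ _ hi2, List.getD_eq_getElem?_getD, List.getElem?_replicate]
    rw [if_pos]
    · rfl
    · simp only [mr, List.length_append, List.length_map, List.length_replicate] at hi' ⊢
      omega
  have hmr2 : ∀ z, ∀ i, i < (qs (dc (w z.length)) z).length → ∀ d,
      (mr z).getD i d = decide ((qs (dc (w z.length)) z).getD i [] ∉ R) := by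
    intro z i hi d
    have hi2 : i < ((qs (dc (w z.length)) z).map (fun y => decide (y ∉ R))).length := by
      rwa [List.length_map]
    simp only [mr]
    rw [List.getD_append _ _ _ _ hi2, List.getD_eq_getElem _ _ hi2, List.getElem_map,
      List.getD_eq_getElem _ _ hi]
  have hlen : ∀ z, (F z).length = Q.eval z.length := by
    intro z
    by_cases hz : z.length < N0
    · rw [hF1 z hz, List.length_replicate]
    · push Not at hz
      have := hQ z hz
      rw [hF2 z hz]
      simp only [mr, List.length_append, List.length_map, List.length_replicate]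
      omega
  -- reading after the blocks
  have hfull : ∀ z : List Bool, N0 ≤ z.length → ∀ r, prs nm n0 (Yf n0)
      (z, blks Yf n0 (nm.eval z.length - n0) ++ r) =
      (nm.eval z.length, (Yf (nm.eval z.length), r)) := by
    intro z hz r
    have := hnm z.length hz
    have e := pst_full hY (M := nm.eval z.length) (nm.eval z.length - n0) n0 (nm.eval z.length) r
      (by omega) (Nat.sub_le _ _)
    exact e
  have hprs : PT (prs nm n0 (Yf n0)) := pt_prs nm n0 (Yf n0)
  have hpair : PT (fun x : List Bool × List Bool => (x.1, prs nm n0 (Yf n0) x)) :=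
    PT.fst.pair hprs
  refine inPRel_of_answers R L (fun x => qf2 nm A N0 c dc (x.1, prs nm n0 (Yf n0) x))
    (fun x => rf2 A N0 dc tbl (x.1, prs nm n0 (Yf n0) x))
    ((pt_qf2 nm A N0 c hdc).comp hpair) ((pt_rf2 A N0 hdc tbl).comp hpair) Q F hlen ?_ ?_
  · intro z i hi
    by_cases hz : z.length < N0
    · have e : qf2 nm A N0 c dc (z, prs nm n0 (Yf n0) (z, (F z).take i)) = [] := by
        rw [qf2, if_pos hz]
      simp only
      rw [e, hF1 z hz, List.getD_eq_getElem?_getD, List.getElem?_replicate, if_pos hi, hdm]
      simp
    · push Not at hz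
      have hz' : ¬ z.length < N0 := not_lt.mpr hz
      have hnz := hnm z.length hz
      have hwz := hw z.length hz
      by_cases hb : i < (blks Yf n0 (nm.eval z.length - n0)).length
      · -- the blocks
        obtain ⟨n', j, a1, a2, a3, a4, a5⟩ := pst_part hY (M := nm.eval z.length)
          (nm.eval z.length - n0) n0 (nm.eval z.length) i (by omega) (by omega) hb
        have e : prs nm n0 (Yf n0) (z, (F z).take i) = (n', (Yf n', (Yf (n' + 1)).take j)) := by
          rw [hF2 z hz, List.take_append_of_le_length hb.le]
          exact a4
        have e2 : (F z).getD i false = (Yf (n' + 1)).getD j false := by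
          rw [hF2 z hz, List.getD_append _ _ _ _ hb]
          exact a5
        have e3 : ((Yf (n' + 1)).take j).length = j := by
          rw [List.length_take]
          omega
        simp only
        rw [e, e2, qf2, if_neg hz', if_pos a2]
        simp only
        rw [e3]
        exact h1 n' (by omega) j (by rw [← hY]; exact a3)
      · push Not at hb
        set i1 := i - (blks Yf n0 (nm.eval z.length - n0)).length with hi1
        have e : prs nm n0 (Yf n0) (z, (F z).take i) =
            (nm.eval z.length, (Yf (nm.eval z.length), (w z.length ++ mr z).take i1)) := by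
          rw [hF2 z hz, List.take_append, List.take_of_length_le hb]
          exact hfull z hz _
        have e2 : (F z).getD i false = (w z.length ++ mr z).getD i1 false := by
          rw [hF2 z hz, List.getD_append_right _ _ _ _ hb]
        have hlz := hlen z
        rw [hF2 z hz, List.length_append] at hlz
        have hi1' : i1 < (w z.length ++ mr z).length := by omega
        have e3 : ((w z.length ++ mr z).take i1).length = i1 := by
          rw [List.length_take]
          omega
        simp only
        rw [e, e2, qf2, if_neg hz', if_neg (lt_irrefl _)]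
        simp only
        rw [e3]
        by_cases hc : i1 < A.eval z.length
        · -- the advice
          rw [if_pos hc, List.getD_append _ _ _ _ (by rw [hwz]; exact hc)]
          exact h2 z.length hz i1 hc
        · -- the queries of the algorithm
          push Not at hc
          have hc' : (w z.length).length ≤ i1 := by rw [hwz]; exact hc
          have e4 : adv3 A dc (z, (w z.length ++ mr z).take i1) = dc (w z.length) := by
            rw [adv3]
            simp only
            rw [List.take_take, min_eq_left hc, List.take_left' hwz]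
          rw [if_neg (not_lt.mpr hc), List.getD_append_right _ _ _ _ hc', qf3, qs3, e4]
          simp only
          rw [e3, hwz]
          rw [List.length_append] at hi1'
          by_cases hd : i1 - A.eval z.length < (qs (dc (w z.length)) z).length
          · rw [hmr2 z _ hd]
            simp
          · push Not at hd
            rw [hmr z _ hd (by omega), List.getD_eq_default _ _ hd, hdm]
            simp
  · intro z
    by_cases hz : z.length < N0
    · simp only
      rw [rf2, if_pos hz]
      simp only
      have := htbl z hz
      by_cases hL : z ∈ L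
      · rw [decide_eq_true hL, List.any_eq_true]
        exact ⟨z, this.mpr hL, by simp⟩
      · rw [decide_eq_false hL, List.any_eq_false]
        intro y hy he
        rw [decide_eq_true_eq] at he
        exact hL (this.mp (he ▸ hy))
    · push Not at hz
      have hz' : ¬ z.length < N0 := not_lt.mpr hz
      have hwz := hw z.length hz
      have e : prs nm n0 (Yf n0) (z, F z) =
            (nm.eval z.length, (Yf (nm.eval z.length), w z.length ++ mr z)) := by
        rw [hF2 z hz]
        exact hfull z hz _
      have e4 : adv3 A dc (z, w z.length ++ mr z) = dc (w z.length) := by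
        rw [adv3]
        simp only
        rw [List.take_left' hwz]
      have e5 : (w z.length ++ mr z).drop (A.eval z.length) = mr z := List.drop_left' hwz
      simp only
      rw [e, rf2, if_neg hz']
      simp only
      rw [rf3, qs3, e4]
      simp only
      rw [e5, ← h3 z.length hz z rfl, algL]
      refine alg_congr (fun v hv => ?_)
      exact mem_coll_iff R _ _ (fun i hi => hmr2 z i hi true) v hv

end Pool.Agent.Lib.MP_33f9c4_lc.Qt
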