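import Pool.Agent.Lib.MP_33f9c4_lc.Codec
import Mathlib.Data.Set.Finite.List

/-!
# Algorithms given by the next query as a function of the answers; reading of blocks
-/

namespace Pool.Agent.Lib.MP_33f9c4_lc.Qt

open Pool.Agent.Lib.PolyTime Function Turing

set_option synthInstance.maxSize 2000

/-! ### Auxiliary functions -/

theorem pt_eval (p : Polynomial ℕ) {α : Type} [Enc α] {f : α → ℕ} (hf : PT f) :
    PT (fun a => p.eval (f a)) := by
  induction p using Polynomial.induction_on' with
  | add p q hp hq => exact (hp.add hq).congr (fun a => by rw [Polynomial.eval_add])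
  | monomial n c =>
    have h : PT (fun a => f a ^ n) := by
      induction n with
      | zero => exact (PT.const 1).congr (fun a => by simp)
      | succ n ih => exact (PT.mul ih hf).congr (fun a => by rw [pow_succ])
    exact (PT.mulConst h c).congr (fun a => by rw [Polynomial.eval_monomial])

theorem filter_range_div2 (n : ℕ) :
    ((List.range n).filter (fun i => decide (2 * (i + 1) ≤ n))).length = n / 2 := by
  have h : ∀ m : ℕ, ((List.range m).filter (fun i => decide (2 * (i + 1) ≤ n))).length =
      min m (n / 2) := by
    intro m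
    induction m with
    | zero => simp
    | succ m ih =>
      rw [List.range_succ, List.filter_append, List.length_append, ih]
      by_cases h : 2 * (m + 1) ≤ n
      · simp only [List.filter_cons, h, decide_true, if_true, List.filter_nil,
          List.length_singleton]
        omega
      · simp only [List.filter_cons, h, decide_false, List.filter_nil, Bool.false_eq_true,
          if_false, List.length_nil]
        omega
  rw [h]
  omega

theorem pt_div2 {α : Type} [Enc α] {f : α → ℕ} (hf : PT f) : PT (fun a => f a / 2) := by
  have h : PT (fun n : ℕ => ((List.range n).filter (fun i => decide (2 * (i + 1) ≤ n))).length) :=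
    PT.length (PT.filter (f := fun n : ℕ => List.range n)
      (p := fun n i => decide (2 * (i + 1) ≤ n)) (PT.range PT.id)
      (PT.le (PT.mulConst (PT.addConst PT.snd 1) 2) PT.fst))
  exact (h.comp hf).congr (fun a => filter_range_div2 _)

theorem size_nxt_le (l : List Bool) : size (nxt l) ≤ size l + 4 := by
  have h1 : size true = 3 := rfl
  have h2 : size false = 1 := rfl
  induction l with
  | nil => simp [nxt, size]
  | cons b l ih =>
    cases b
    · simp only [nxt, size_cons]
      omega
    · simp only [nxt, size_cons]
      omega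

theorem pt_nxtIter : PT (fun x : ℕ × List Bool => nxt^[x.1] x.2) := by
  refine PT.iterate (f := fun x : ℕ × List Bool => x.1) (init := fun x => x.2)
    (step := fun _ s => nxt s) PT.fst PT.snd (pt_nxt.comp PT.snd) (B := fun n => n + 4 * n)
    (PB.id.add ((PB.const 4).mul PB.id)) ?_
  rintro ⟨n, l⟩ i hi
  have h : ∀ i, size (nxt^[i] l) ≤ size l + 4 * i := by
    intro i
    induction i with
    | zero => simp
    | succ i ih =>
      rw [iterate_succ_apply']
      have := size_nxt_le (nxt^[i] l)
      omega
  have h' : size ((fun s => nxt s)^[i] l) ≤ size l + 4 * i := h i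
  simp only at hi
  simp only [size_prod, size_nat]
  omega

theorem pt_replicate {α : Type} [Enc α] {f : α → ℕ} (hf : PT f) :
    PT (fun a => List.replicate (f a) false) := by
  have h := PT.map (f := fun a => List.replicate (f a) ()) (g := fun _ _ => false)
    (PT.replicateUnit hf) (PT.const false)
  exact h.congr (fun a => by simp)

theorem pt_qA {α : Type} [Enc α] {Y : α → List Bool} {n i : α → ℕ} (hY : PT Y) (hn : PT n)
    (hi : PT i) : PT (fun a => qA (Y a) (n a) (i a)) := by
  have h1 : PT (fun a => List.replicate (2 * lg (n a) - 1) false) :=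
    pt_replicate (PT.sub (PT.mulConst (pt_lg.comp hn) 2) (PT.const 1))
  have h2 : PT (fun a => nxt^[i a] (List.replicate (2 * lg (n a) - 1) false)) :=
    pt_nxtIter.comp (hi.pair h1)
  exact PT.append hY (PT.cons (PT.const false) h2)

theorem pt_qB (c : List Bool) {α : Type} [Enc α] {Y : α → List Bool} {n N i : α → ℕ} (hY : PT Y)
    (hn : PT n) (hN : PT N) (hi : PT i) : PT (fun a => qB c (Y a) (n a) (N a) (i a)) := by
  have h0 : PT (fun a => 2 * lg (n a) - 1 - c.length) :=
    PT.sub (PT.sub (PT.mulConst (pt_lg.comp hn) 2) (PT.const 1)) (PT.const _)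
  have h0' : PT (fun a => (2 * lg (n a) - 1 - c.length) / 2) := pt_div2 h0
  have h1 : PT (fun a => List.replicate ((2 * lg (n a) - 1 - c.length) / 2) false) :=
    pt_replicate h0'
  have h2 : PT (fun a => List.replicate (2 * lg (n a) - 1 - c.length -
      2 * ((2 * lg (n a) - 1 - c.length) / 2)) false) :=
    pt_replicate (PT.sub h0 (PT.mulConst h0' 2))
  have h3 := pt_nxtIter.comp (hN.pair h1)
  have h4 := pt_nxtIter.comp (hi.pair h1)
  exact PT.append hY (PT.cons (PT.const true) (PT.append (PT.const c) (PT.append h3
    (PT.append h4 h2))))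

/-! ### Algorithms given by the next query as a function of the answers -/

theorem take_succ_getD (l : List Bool) (i : ℕ) (h : i < l.length) :
    l.take (i + 1) = l.take i ++ [l.getD i false] := by
  rw [List.take_add_one, List.getD_eq_getElem?_getD, List.getElem?_eq_getElem h]
  rfl

/-- The next state: the negated answer is recorded, up to the given number of answers. -/
def nextA (Q : Polynomial ℕ) (x : (List Bool × List Bool) × Bool) : List Bool × List Bool :=
  if x.1.2.length < Q.eval x.1.1.length then (x.1.1, x.1.2 ++ [!x.2]) else x.1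

theorem pt_nextA (Q : Polynomial ℕ) : PT (nextA Q) := by
  have h1 : PT (fun x : (List Bool × List Bool) × Bool => x.1.1) := PT.fst.fst'
  have h2 : PT (fun x : (List Bool × List Bool) × Bool => x.1.2) := PT.fst.snd'
  have h3 : PT (fun x : (List Bool × List Bool) × Bool => x.2) := PT.snd
  have h4 : PT (fun x : (List Bool × List Bool) × Bool => [!x.2]) := PT.list1 (PT.not h3)
  exact PT.ite (PT.lt (PT.length h2) (pt_eval Q (PT.length h1))) (h1.pair (PT.append h2 h4))
    PT.fst

open Classical in
theorem inPRel_of_answers (R L : Set (List Bool)) (qf : List Bool × List Bool → List Bool)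
    (rf : List Bool × List Bool → Bool) (hqf : PT qf) (hrf : PT rf) (Q : Polynomial ℕ)
    (F : List Bool → List Bool) (hF : ∀ z, (F z).length = Q.eval z.length)
    (h : ∀ z, ∀ i < Q.eval z.length, (qf (z, (F z).take i) ∉ R ↔ (F z).getD i false = true))
    (hres : ∀ z, rf (z, F z) = decide (z ∈ L)) : InPRel R L := by
  refine inPRel_of_struct R L (fun z => (z, [])) (nextA Q) qf rf (PT.id.pair (PT.const []))
    (pt_nextA Q) hqf hrf (Polynomial.C 4 * Q + Polynomial.C 4 * Polynomial.X + Polynomial.C 3)
    (fun z => ?_)
  have key : ∀ i, (fun s => nextA Q (s, decide (qf s ∈ R)))^[i] (z, []) = (z, (F z).take i) := by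
    intro i
    induction i with
    | zero => simp
    | succ i ih =>
      rw [iterate_succ_apply', ih]
      by_cases hi : i < Q.eval z.length
      · have hl : ((F z).take i).length = i := by
          rw [List.length_take, hF]
          omega
        have e := h z i hi
        have e2 : (!decide (qf (z, (F z).take i) ∈ R)) = (F z).getD i false := by
          by_cases hR : qf (z, (F z).take i) ∈ R
          · have : (F z).getD i false ≠ true := fun h' => (e.mpr h') hR
            simp only [hR, decide_true, Bool.not_true]
            exact (Bool.eq_false_iff.mpr this).symm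
          · simp only [hR, decide_false, Bool.not_false]
            exact (e.mp hR).symm
        simp only [nextA]
        rw [if_pos (by rw [hl]; exact hi), e2, take_succ_getD _ _ (by rw [hF]; exact hi)]
      · have h1 : (F z).take i = F z := List.take_of_length_le (by rw [hF]; omega)
        have h2 : (F z).take (i + 1) = F z := List.take_of_length_le (by rw [hF]; omega)
        simp only [nextA]
        rw [h1, h2, if_neg (by rw [hF]; omega)]
  have e1 : (Polynomial.C 4 * Q + Polynomial.C 4 * Polynomial.X + Polynomial.C 3).eval z.length =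
      4 * Q.eval z.length + 4 * z.length + 3 := by simp
  rw [e1]
  constructor
  · intro i _
    rw [key, size_prod]
    have h1 := size_bools z
    have h2 := size_bools ((F z).take i)
    have h3 : ((F z).take i).length ≤ Q.eval z.length := by
      rw [List.length_take, hF]
      omega
    simp only
    omega
  · rw [key, List.take_of_length_le (by rw [hF]; omega)]
    exact hres z

/-! ### The blocks -/

/-- The concatenation of `k` strings after the `n`-th. -/
def blks (Y : ℕ → List Bool) : ℕ → ℕ → List Bool
  | _, 0 => []
  | n, k + 1 => Y (n + 1) ++ blks Y (n + 1) k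

/-- One step of the reading of the blocks: states `(n, (Y n, rest))`. -/
def pst (M : ℕ) (s : ℕ × (List Bool × List Bool)) : ℕ × (List Bool × List Bool) :=
  if s.1 < M ∧ s.1 + 1 - 2 * lg (s.1 + 1) ≤ s.2.2.length then
    (s.1 + 1, (s.2.2.take (s.1 + 1 - 2 * lg (s.1 + 1)), s.2.2.drop (s.1 + 1 - 2 * lg (s.1 + 1))))
  else s

section

variable {Y : ℕ → List Bool} (hY : ∀ n, (Y n).length = n - 2 * lg n)

include hY

theorem pst_append {M n : ℕ} (hn : n < M) (r : List Bool) (y : List Bool) :
    pst M (n, (y, Y (n + 1) ++ r)) = (n + 1, (Y (n + 1), r)) := by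
  have h1 : (Y (n + 1)).length = n + 1 - 2 * lg (n + 1) := hY (n + 1)
  have h2 : n + 1 - 2 * lg (n + 1) ≤ (Y (n + 1) ++ r).length := by
    rw [List.length_append, h1]; omega
  simp only [pst]
  rw [if_pos ⟨hn, h2⟩, List.take_left' h1, List.drop_left' h1]

theorem pst_idle {M n : ℕ} {y r : List Bool} (h : M ≤ n ∨ r.length < (Y (n + 1)).length) (m : ℕ) :
    (pst M)^[m] (n, (y, r)) = (n, (y, r)) := by
  refine iterate_fixed ?_ m
  have h1 : (Y (n + 1)).length = n + 1 - 2 * lg (n + 1) := hY (n + 1)
  rw [h1] at h
  simp only [pst]
  rw [if_neg (by omega)]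

theorem pst_full {M : ℕ} : ∀ (k n m : ℕ) (r : List Bool), n + k = M → k ≤ m →
    (pst M)^[m] (n, (Y n, blks Y n k ++ r)) = (M, (Y M, r)) := by
  intro k
  induction k with
  | zero =>
    intro n m r hn _
    have hn' : n = M := by omega
    subst hn'
    exact pst_idle hY (Or.inl le_rfl) m
  | succ k ih =>
    intro n m r hn hm
    obtain ⟨m, rfl⟩ : ∃ m', m = m' + 1 := ⟨m - 1, by omega⟩
    rw [iterate_succ_apply, blks, List.append_assoc, pst_append hY (by omega)]
    exact ih (n + 1) m r (by omega) (by omega)

theorem pst_part {M : ℕ} : ∀ (k n m i : ℕ), n + k = M → k ≤ m → i < (blks Y n k).length →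
    ∃ n' j, n ≤ n' ∧ n' < M ∧ j < (Y (n' + 1)).length ∧
      (pst M)^[m] (n, (Y n, (blks Y n k).take i)) = (n', (Y n', (Y (n' + 1)).take j)) ∧
      (blks Y n k).getD i false = (Y (n' + 1)).getD j false := by
  intro k
  induction k with
  | zero => intro n m i _ _ hi; simp [blks] at hi
  | succ k ih =>
    intro n m i hn hm hi
    by_cases hi' : i < (Y (n + 1)).length
    · refine ⟨n, i, le_rfl, by omega, hi', ?_, ?_⟩
      · rw [blks, List.take_append_of_le_length hi'.le]
        refine pst_idle hY (Or.inr ?_) m
        rw [List.length_take]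
        omega
      · rw [blks, List.getD_append _ _ _ _ hi']
    · push Not at hi'
      obtain ⟨m, rfl⟩ : ∃ m', m = m' + 1 := ⟨m - 1, by omega⟩
      have hi2 : i - (Y (n + 1)).length < (blks Y (n + 1) k).length := by
        rw [blks, List.length_append] at hi
        omega
      obtain ⟨n', j, h1, h2, h3, h4, h5⟩ := ih (n + 1) m (i - (Y (n + 1)).length) (by omega)
        (by omega) hi2
      refine ⟨n', j, by omega, h2, h3, ?_, ?_⟩
      · rw [iterate_succ_apply, blks, List.take_append, List.take_of_length_le hi',
          pst_append hY (by omega)]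
        exact h4
      · rw [blks, List.getD_append_right _ _ _ _ hi']
        exact h5

theorem length_blks_le : ∀ (k n : ℕ), (blks Y n k).length ≤ k * (n + k) := by
  intro k
  induction k with
  | zero => intro n; simp [blks]
  | succ k ih =>
    intro n
    have h1 : (Y (n + 1)).length = n + 1 - 2 * lg (n + 1) := hY (n + 1)
    have h2 := ih (n + 1)
    rw [blks, List.length_append, h1]
    have e : (k + 1) * (n + (k + 1)) = k * (n + 1 + k) + (n + 1 + k) := by ring
    rw [e]
    omega

end

/-! ### The parser -/

/-- The state of the reading of the blocks. -/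
def prs (nm : Polynomial ℕ) (n0 : ℕ) (Y0 : List Bool) (x : List Bool × List Bool) :
    ℕ × (List Bool × List Bool) :=
  (pst (nm.eval x.1.length))^[nm.eval x.1.length] (n0, (Y0, x.2))

theorem pt_prs (nm : Polynomial ℕ) (n0 : ℕ) (Y0 : List Bool) : PT (prs nm n0 Y0) := by
  have hM : PT (fun x : List Bool × List Bool => nm.eval x.1.length) :=
    pt_eval nm (PT.length PT.fst)
  have hs : PT (fun x : (List Bool × List Bool) × (ℕ × (List Bool × List Bool)) =>
      pst (nm.eval x.1.1.length) x.2) := by
    have h1 : PT (fun x : (List Bool × List Bool) × (ℕ × (List Bool × List Bool)) =>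
      nm.eval x.1.1.length) := hM.comp PT.fst
    have h2 : PT (fun x : (List Bool × List Bool) × (ℕ × (List Bool × List Bool)) =>
      x.2.1) := PT.snd.fst'
    have h3 : PT (fun x : (List Bool × List Bool) × (ℕ × (List Bool × List Bool)) =>
      x.2.2.2) := PT.snd.snd'.snd'
    have h4 : PT (fun x : (List Bool × List Bool) × (ℕ × (List Bool × List Bool)) =>
      x.2.1 + 1 - 2 * lg (x.2.1 + 1)) :=
      PT.sub (PT.addConst h2 1) (PT.mulConst (pt_lg.comp (PT.addConst h2 1)) 2)
    refine (PT.cond (PT.and (PT.lt h2 h1) (PT.le h4 (PT.length h3)))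
      ((PT.addConst h2 1).pair ((mpt_take h4 h3).pair (PT.drop h4 h3))) PT.snd).congr
      (fun x => ?_)
    simp only [pst, Bool.and_eq_true, decide_eq_true_eq]
  refine PT.iterate (f := fun x : List Bool × List Bool => nm.eval x.1.length)
    (init := fun x => (n0, (Y0, x.2))) (step := fun x s => pst (nm.eval x.1.length) s) hM
    ((PT.const n0).pair ((PT.const Y0).pair PT.snd)) hs
    (B := fun n => (2 * (n0 + nm.eval n) + 1) + ((4 * (Y0.length + n) + 1) + (4 * n + 1) + 1) + 1)
    ((((((PB.const 2).mul ((PB.const n0).add (PB.poly nm))).add (PB.const 1)).add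
      ((((((PB.const 4).mul ((PB.const _).add PB.id)).add (PB.const 1)).add
        (((PB.const 4).mul PB.id).add (PB.const 1)))).add (PB.const 1)))).add (PB.const 1)) ?_
  rintro ⟨z, as⟩ i hi
  have hinv : ∀ i, ((pst (nm.eval z.length))^[i] (n0, (Y0, as))).1 ≤ n0 + i ∧
      ((pst (nm.eval z.length))^[i] (n0, (Y0, as))).2.1.length ≤ Y0.length + as.length ∧
      ((pst (nm.eval z.length))^[i] (n0, (Y0, as))).2.2.length ≤ as.length := by
    intro i
    induction i with
    | zero => simp
    | succ i ih =>
      rw [iterate_succ_apply']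
      generalize (pst (nm.eval z.length))^[i] (n0, (Y0, as)) = s at ih ⊢
      obtain ⟨h1, h2, h3⟩ := ih
      simp only [pst]
      split_ifs with hc
      · simp only [List.length_take, List.length_drop]
        omega
      · exact ⟨by omega, h2, h3⟩
  obtain ⟨h1, h2, h3⟩ := hinv i
  simp only at hi ⊢
  generalize (pst (nm.eval z.length))^[i] (n0, (Y0, as)) = s at h1 h2 h3 ⊢
  obtain ⟨n, y, r⟩ := s
  simp only at h1 h2 h3
  have h4 := size_bools y
  have h5 := size_bools r
  have h6 := length_le_size z
  have h7 := length_le_size as
  have h8 : nm.eval z.length ≤ nm.eval (size (z, as)) := by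
    refine eval_mono nm ?_
    rw [size_prod]
    simp only
    omega
  have h9 : as.length ≤ size (z, as) := by
    rw [size_prod]
    simp only
    omega
  rw [size_prod, size_prod, size_nat]
  simp only
  omega

end Pool.Agent.Lib.MP_33f9c4_lc.Qt
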