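import Pool.Agent.Lib.MP_33f9c4_lc.Reach

/-!
# The search for a string without cheap descriptions: definitions
-/

namespace Pool.Agent.Lib.MP_33f9c4_lc

open Pool.Agent.Lib.PolyTime Function Finset

/-- The initial configuration of the description `e`. -/
def cinit (e : List Bool) : Cfg := minit (parse e).1 (parse e).2

/-- The computation from the configuration `c` halts after exactly `s` steps. -/
def Halts (c : Cfg) (s : ℕ) : Prop :=
  (∀ i < s, mfin (mstep^[i] c) = false) ∧ mfin (mstep^[s] c) = true

/-- The output of the description `e` after `s` steps. -/
def yld (e : List Bool) (s : ℕ) : List Bool := mout (mstep^[s] (cinit e))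

/-- The description `e` is cheap, and its output has length `n` and extends `v`. -/
def Hp (B n : ℕ) (v e : List Bool) : Prop :=
  ∃ s, Halts (cinit e) s ∧ (∀ i ≤ s, test B n e.length (e.length + n + 1 + i) = true) ∧
    (yld e s).length = n ∧ v <+: yld e s

theorem exists_test_false (B n : ℕ) : ∃ k, test B n (lg k) (lg k + n + 1) = false := by
  refine ⟨2 ^ n, ?_⟩
  have h := lt_lg (2 ^ n)
  have h2 : n < lg (2 ^ n) + 1 := by
    by_contra hcon
    have := Nat.pow_le_pow_right (n := 2) (by norm_num) (not_lt.mp hcon)
    omega
  simp only [test, decide_eq_false_iff_not, not_lt]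
  omega

/-- The number of descriptions scanned. -/
def scn (B n : ℕ) : ℕ := Nat.find (exists_test_false B n)

open Classical in
/-- The number of cheap descriptions of strings of length `n` that extend `v`. -/
noncomputable def cnt (B n : ℕ) (v : List Bool) : ℕ :=
  ((range (scn B n)).filter (fun k => Hp B n v (nxt^[k] []))).card

/-- The next string of the search. -/
noncomputable def ext (B n : ℕ) (u : List Bool) : List Bool :=
  u ++ [decide (cnt B n (u ++ [true]) < cnt B n (u ++ [false]))]

/-- The length of the string to be found. -/
def tlen (w : List Bool) : ℕ := nval (parse w).2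

/-- The string found. -/
noncomputable def ufin (B : ℕ) (w : List Bool) : List Bool :=
  (ext B (tlen w))^[tlen w - w.length] w

end Pool.Agent.Lib.MP_33f9c4_lc
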