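import Pool.Agent.Lib.MP_33f9c4_lc.Reach2
import Pool.Agent.Lib.MP_33f9c4_lc.Cnt

/-!
# The search for strings without cheap descriptions: definitions
-/

namespace Pool.Agent.Lib.MP_33f9c4_lc.Ef

open Pool.Agent.Lib.PolyTime Function Finset

/-- The output on the input `e` after `s` steps. -/
def yl (V : Tbl) (e : List Bool) (s : ℕ) : List Bool := mout (mstep^[s] (minit V e))

/-- The description `e` is cheap, and its output has length `n` and extends `v`. -/
def Hp (V : Tbl) (B n : ℕ) (v e : List Bool) : Prop :=
  B * lg n + e.length < n ∧ ∃ s, Halts (minit V e) s ∧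
    (∀ i < s, lg i + B * lg n + e.length < n) ∧ (yl V e s).length = n ∧ v <+: yl V e s

/-- The number of descriptions scanned. -/
def scn (B n : ℕ) : ℕ := 2 ^ (n - B * lg n) - 1

open Classical in
/-- The number of cheap descriptions of strings of length `n` that extend `v`. -/
noncomputable def cnt (V : Tbl) (B n : ℕ) (v : List Bool) : ℕ :=
  ((range (scn B n)).filter (fun k => Hp V B n v (nxt^[k] []))).card

/-- The next string of the search. -/
noncomputable def ext (V : Tbl) (B n : ℕ) (u : List Bool) : List Bool :=
  u ++ [decide (cnt V B n (u ++ [true]) < cnt V B n (u ++ [false]))]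

/-- The string found. -/
noncomputable def Y (V : Tbl) (B n : ℕ) : List Bool := (ext V B n)^[n - 2 * lg n] []

end Pool.Agent.Lib.MP_33f9c4_lc.Ef
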