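import Pool.Agent.Lib.MP_33f9c4_lc.Loop
import Pool.Agent.Lib.MP_33f9c4_lc.Mpt
import Pool.Agent.Lib.PolyTime.BinNat

/-!
# Exact simulation of the machine of a program in polynomial time
-/

namespace Pool.Agent.Lib.MP_33f9c4_lc.Qt

open Pool.Agent.Lib.PolyTime Function Turing

namespace Simu

/-! ### Encodings -/

/-- Encoding of finite types. -/
@[reducible] noncomputable def encFin (ι : Type) [Fintype ι] : Enc ι :=
  Enc.ofInj (fun i => ((Fintype.equivFin ι i : Fin (Fintype.card ι)) : ℕ))
    (Fin.val_injective.comp (Fintype.equivFin ι).injective)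

variable {K : Type} [Fintype K] [DecidableEq K] {Λ : Type} [Fintype Λ] [Enc Λ]

/-- The number of a stack. -/
noncomputable def ix (k : K) : ℕ := ((Fintype.equivFin K k : Fin (Fintype.card K)) : ℕ)

/-- The list of the stacks. -/
noncomputable def lst (S : K → List Bool) : List (List Bool) :=
  List.ofFn (fun i : Fin (Fintype.card K) => S ((Fintype.equivFin K).symm i))

omit [DecidableEq K] in
theorem length_lst (S : K → List Bool) : (lst S).length = Fintype.card K := by
  unfold lst; simp

omit [DecidableEq K] in
theorem ix_lt (k : K) : ix k < Fintype.card K := (Fintype.equivFin K k).isLt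

omit [DecidableEq K] in
theorem lst_getElem? (S : K → List Bool) (k : K) : (lst S)[ix k]? = some (S k) := by
  rw [List.getElem?_eq_getElem (by rw [length_lst]; exact ix_lt k)]
  unfold lst ix
  simp

omit [DecidableEq K] in
theorem lst_getD (S : K → List Bool) (k : K) : (lst S).getD (ix k) [] = S k := by
  rw [List.getD_eq_getElem?_getD, lst_getElem?]
  rfl

omit [DecidableEq K] in
theorem lst_injective : Injective (lst : (K → List Bool) → List (List Bool)) := by
  intro S S' h
  funext k
  rw [← lst_getD S k, h, lst_getD]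

theorem lst_update (S : K → List Bool) (k : K) (w : List Bool) :
    lst (update S k w) = (lst S).set (ix k) w := by
  apply List.ext_getElem
  · rw [List.length_set, length_lst, length_lst]
  · intro i h1 h2
    rw [List.getElem_set]
    rw [length_lst] at h1
    have e1 : (lst (update S k w))[i]'(by rw [length_lst]; exact h1) =
      update S k w ((Fintype.equivFin K).symm ⟨i, h1⟩) := by simp [lst]
    have e2 : (lst S)[i]'(by rw [length_lst]; exact h1) =
      S ((Fintype.equivFin K).symm ⟨i, h1⟩) := by simp [lst]
    rw [e1, e2]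
    by_cases h : ix k = i
    · subst h
      have : (Fintype.equivFin K).symm ⟨ix k, h1⟩ = k := by
        rw [Equiv.symm_apply_eq]
        rfl
      rw [if_pos rfl, this, update_self]
    · rw [if_neg h, update_of_ne]
      intro h3
      apply h
      rw [← h3]
      simp [ix]

noncomputable instance encStk : Enc (K → List Bool) := Enc.ofInj lst lst_injective

/-- Configurations. -/
abbrev Cf (K Λ : Type) : Type := TM2.Cfg (fun _ : K => Bool) Λ (Option Bool)

/-- Configurations as triples. -/
def tri (c : Cf K Λ) : Option Λ × (Option Bool × (K → List Bool)) := (c.l, (c.var, c.stk))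

omit [Fintype K] [DecidableEq K] [Fintype Λ] [Enc Λ] in
theorem tri_injective : Injective (tri : Cf K Λ → _) := by
  rintro ⟨l, v, S⟩ ⟨l', v', S'⟩ h
  simp only [tri, Prod.mk.injEq] at h
  obtain ⟨rfl, rfl, rfl⟩ := h
  rfl

noncomputable instance encCf : Enc (Cf K Λ) := Enc.ofInj tri tri_injective

/-! ### Polynomial time -/

variable {α : Type} [Enc α]

omit [DecidableEq K] in
theorem pt_lst {f : α → K → List Bool} (hf : PT f) : PT (fun a => lst (f a)) :=
  hf.congr_enc (fun _ => rfl)

omit [DecidableEq K] in
theorem pt_app {f : α → K → List Bool} (hf : PT f) (k : K) : PT (fun a => f a k) :=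
  (mpt_getD (pt_lst hf) (PT.const (ix k)) []).congr (fun _ => lst_getD _ _)

theorem pt_update {f : α → K → List Bool} (hf : PT f) (k : K) {g : α → List Bool} (hg : PT g) :
    PT (fun a => update (f a) k (g a)) := by
  refine (mpt_listSet (PT.const (ix k)) (pt_lst hf) hg).congr_enc (fun a => ?_)
  change enc (lst (update (f a) k (g a))) = _
  rw [lst_update]

omit [DecidableEq K] [Fintype Λ] in
theorem pt_mk {l : α → Option Λ} {v : α → Option Bool} {S : α → K → List Bool} (hl : PT l)
    (hv : PT v) (hS : PT S) : PT (fun a => (⟨l a, v a, S a⟩ : Cf K Λ)) :=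
  (hl.pair (hv.pair hS)).congr_enc (fun _ => rfl)

omit [DecidableEq K] [Fintype Λ] in
theorem pt_tri {f : α → Cf K Λ} (hf : PT f) : PT (fun a => tri (f a)) :=
  hf.congr_enc (fun _ => rfl)

omit [Fintype Λ] in
theorem pt_stepAux (q : TM2.Stmt (fun _ : K => Bool) Λ (Option Bool)) :
    PT (fun x : Option Bool × (K → List Bool) => TM2.stepAux q x.1 x.2) := by
  induction q with
  | push k f q ih =>
    have h1 : PT (fun x : Option Bool × (K → List Bool) => (f x.1 : Bool)) :=
      (PT.ofFintype (fun v : Option Bool => (f v : Bool))).comp PT.fst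
    exact ih.comp (PT.fst.pair (pt_update PT.snd k (PT.cons h1 (pt_app PT.snd k))))
  | peek k f q ih =>
    have h1 : PT (fun x : Option Bool × (K → List Bool) => f x.1 (x.2 k).head?) :=
      (PT.ofFintype (fun v : Option Bool × Option Bool => f v.1 v.2)).comp
        (PT.fst.pair (PT.head? (pt_app PT.snd k)))
    exact ih.comp (h1.pair PT.snd)
  | pop k f q ih =>
    have h1 : PT (fun x : Option Bool × (K → List Bool) => f x.1 (x.2 k).head?) :=
      (PT.ofFintype (fun v : Option Bool × Option Bool => f v.1 v.2)).comp
        (PT.fst.pair (PT.head? (pt_app PT.snd k)))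
    have h2 : PT (fun x : Option Bool × (K → List Bool) => update x.2 k (x.2 k).tail) := by
      refine pt_update PT.snd k ?_
      refine (PT.drop (PT.const 1) (pt_app PT.snd k)).congr (fun a => ?_)
      simp
    exact ih.comp (h1.pair h2)
  | load f q ih =>
    have h1 : PT (fun x : Option Bool × (K → List Bool) => f x.1) :=
      (PT.ofFintype (fun v : Option Bool => f v)).comp PT.fst
    exact ih.comp (h1.pair PT.snd)
  | branch f q₁ q₂ ih₁ ih₂ =>
    have h1 : PT (fun x : Option Bool × (K → List Bool) => f x.1) :=
      (PT.ofFintype (fun v : Option Bool => f v)).comp PT.fst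
    refine (PT.cond h1 ih₁ ih₂).congr (fun a => ?_)
    simp only [TM2.stepAux]
    cases f a.1 <;> rfl
  | goto f =>
    have h1 : PT (fun x : Option Bool × (K → List Bool) => some (f x.1)) :=
      PT.some ((PT.ofFintype (fun v : Option Bool => f v)).comp PT.fst)
    exact pt_mk h1 PT.fst PT.snd
  | halt => exact pt_mk (PT.const none) PT.fst PT.snd

/-- The step, extended by the identity to the final configurations. -/
def stp (M : Λ → TM2.Stmt (fun _ : K => Bool) Λ (Option Bool)) (c : Cf K Λ) : Cf K Λ :=
  match c.l with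
  | none => c
  | some l => TM2.stepAux (M l) c.var c.stk

theorem pt_stp (M : Λ → TM2.Stmt (fun _ : K => Bool) Λ (Option Bool)) : PT (stp M) := by
  classical
  let F : Option Λ → Cf K Λ → Cf K Λ := fun l c => match l with
    | none => c
    | some l => TM2.stepAux (M l) c.var c.stk
  have hF : ∀ l, PT (F l) := by
    intro l
    cases l with
    | none => exact PT.id
    | some l => exact (pt_stepAux (M l)).comp (pt_tri PT.id).snd'
  exact (PT.finCases hF (pt_tri PT.id).fst').congr (fun c => rfl)

/-! ### Sizes -/

omit [DecidableEq K] [Fintype Λ] in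
theorem size_cf (c : Cf K Λ) : size c = size c.l + (size c.var + size c.stk + 1) + 1 := by
  have h : size c = size (tri c) := rfl
  rw [h, size_prod, size_prod]
  rfl

omit [DecidableEq K] in
theorem size_stk' (S : K → List Bool) : size S = size (lst S) := rfl

theorem size_update (S : K → List Bool) (k : K) (w : List Bool) :
    size (update S k w) + size (S k) = size S + size w := by
  have h := mpt_size_set_add (lst S) (ix k) w (by rw [length_lst]; exact ix_lt k) []
  rw [lst_getD, ← lst_update] at h
  exact h

theorem exists_size_le (ι : Type) [Fintype ι] [Enc ι] : ∃ C, ∀ i : ι, size i ≤ C :=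
  ⟨∑ i, size i, fun i => Finset.single_le_sum (f := fun i => size i) (fun _ _ => Nat.zero_le _)
    (Finset.mem_univ i)⟩

theorem size_stepAux (q : TM2.Stmt (fun _ : K => Bool) Λ (Option Bool)) :
    ∃ C, ∀ (v : Option Bool) (S : K → List Bool), size (TM2.stepAux q v S) ≤ size S + C := by
  obtain ⟨Cl, hl⟩ := exists_size_le (Option Λ)
  obtain ⟨Cv, hv⟩ := exists_size_le (Option Bool)
  induction q with
  | push k f q ih =>
    obtain ⟨C, hC⟩ := ih
    refine ⟨C + 4, fun v S => ?_⟩
    have h1 := hC v (update S k (f v :: S k))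
    have h2 := size_update S k (f v :: S k)
    rw [size_cons] at h2
    have h3 := size_bool_le (f v)
    simp only [TM2.stepAux]
    omega
  | peek k f q ih =>
    obtain ⟨C, hC⟩ := ih
    exact ⟨C, fun v S => hC (f v (S k).head?) S⟩
  | pop k f q ih =>
    obtain ⟨C, hC⟩ := ih
    refine ⟨C, fun v S => ?_⟩
    have h1 := hC (f v (S k).head?) (update S k (S k).tail)
    have h2 := size_update S k (S k).tail
    have h3 : size (S k).tail ≤ size (S k) := by
      cases S k with
      | nil => exact le_rfl
      | cons a l => rw [List.tail_cons, size_cons]; omega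
    simp only [TM2.stepAux]
    omega
  | load f q ih =>
    obtain ⟨C, hC⟩ := ih
    exact ⟨C, fun v S => hC (f v) S⟩
  | branch f q₁ q₂ ih₁ ih₂ =>
    obtain ⟨C₁, h₁⟩ := ih₁
    obtain ⟨C₂, h₂⟩ := ih₂
    refine ⟨C₁ + C₂, fun v S => ?_⟩
    have h3 := h₁ v S
    have h4 := h₂ v S
    simp only [TM2.stepAux]
    cases f v
    · simp only [cond_false]; omega
    · simp only [cond_true]; omega
  | goto f =>
    refine ⟨Cl + Cv + 2, fun v S => ?_⟩
    simp only [TM2.stepAux]
    rw [size_cf]
    have h1 := hl (some (f v))
    have h2 := hv v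
    simp only
    omega
  | halt =>
    refine ⟨Cl + Cv + 2, fun v S => ?_⟩
    simp only [TM2.stepAux]
    rw [size_cf]
    have h1 := hl none
    have h2 := hv v
    simp only
    omega

theorem size_stp (M : Λ → TM2.Stmt (fun _ : K => Bool) Λ (Option Bool)) :
    ∃ C, ∀ c : Cf K Λ, size (stp M c) ≤ size c + C := by
  choose C hC using fun l => size_stepAux (M l)
  refine ⟨∑ l, C l, fun c => ?_⟩
  rcases c with ⟨l, v, S⟩
  cases l with
  | none => exact Nat.le_add_right _ _
  | some l =>
    have h1 := hC l v S
    have h2 : C l ≤ ∑ l, C l :=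
      Finset.single_le_sum (f := C) (fun _ _ => Nat.zero_le _) (Finset.mem_univ l)
    have h3 : size S ≤ size (⟨some l, v, S⟩ : Cf K Λ) := by rw [size_cf]; simp only; omega
    change size (TM2.stepAux (M l) v S) ≤ _
    omega

theorem pt_iter (M : Λ → TM2.Stmt (fun _ : K => Bool) Λ (Option Bool)) {f : α → Cf K Λ}
    {g : α → ℕ} (hf : PT f) (hg : PT g) : PT (fun a => (stp M)^[g a] (f a)) := by
  obtain ⟨C, hC⟩ := size_stp M
  have h := PT.foldl_add (f := fun a => List.replicate (g a) ()) (init := f)
    (step := fun _ s _ => stp M s) hg.replicateUnit hf ((pt_stp M).comp PT.snd.fst')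
    (C := fun _ => C) (PB.const C) (fun a s b _ => hC s)
  refine h.congr (fun a => ?_)
  have : ∀ (n : ℕ) (c : Cf K Λ), (List.replicate n ()).foldl (fun s _ => stp M s) c =
      (stp M)^[n] c := by
    intro n
    induction n with
    | zero => intro c; rfl
    | succ n ih => intro c; rw [List.replicate_succ, List.foldl_cons, ih, iterate_succ_apply]
  exact this _ _

/-! ### Equivalence -/

omit [Fintype K] [Fintype Λ] [Enc Λ] in
theorem step_none {M : Λ → TM2.Stmt (fun _ : K => Bool) Λ (Option Bool)} {c : Cf K Λ}
    (h : TM2.step M c = none) : stp M c = c := by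
  rcases c with ⟨l, v, S⟩
  cases l with
  | none => rfl
  | some l => cases h

omit [Fintype K] [Fintype Λ] [Enc Λ] in
theorem step_some {M : Λ → TM2.Stmt (fun _ : K => Bool) Λ (Option Bool)} {c c' : Cf K Λ}
    (h : TM2.step M c = some c') : stp M c = c' := by
  rcases c with ⟨l, v, S⟩
  cases l with
  | none => cases h
  | some l => exact Option.some.inj h

omit [Fintype K] [Fintype Λ] [Enc Λ] in
theorem iter_of_stepsTo {M : Λ → TM2.Stmt (fun _ : K => Bool) Λ (Option Bool)} {b : Cf K Λ}
    (hb : TM2.step M b = none) : ∀ (n t : ℕ) (a : Cf K Λ), n ≤ t →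
    StepsTo (TM2.step M) a b n → (stp M)^[t] a = b := by
  intro n
  induction n with
  | zero =>
    intro t a _ h
    have h1 : a = b := Option.some.inj h
    subst h1
    exact iterate_fixed (step_none hb) t
  | succ n ih =>
    intro t a ht h
    obtain ⟨t, rfl⟩ : ∃ t', t = t' + 1 := ⟨t - 1, by omega⟩
    have h2 : ∀ k, (flip bind (TM2.step M))^[k] (none : Option (Cf K Λ)) = none := by
      intro k
      induction k with
      | zero => rfl
      | succ k ih => rw [iterate_succ_apply]; exact ih
    unfold StepsTo at h
    rw [iterate_succ_apply] at h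
    cases h3 : TM2.step M a with
    | none =>
      have h4 : flip bind (TM2.step M) (some a) = none := h3
      rw [h4, h2] at h
      cases h
    | some a' =>
      have h4 : flip bind (TM2.step M) (some a) = some a' := h3
      rw [h4] at h
      rw [iterate_succ_apply, step_some h3]
      exact ih t a' (by omega) h

omit [Fintype K] [Fintype Λ] [Enc Λ] in
theorem stepsTo_of_iter {M : Λ → TM2.Stmt (fun _ : K => Bool) Λ (Option Bool)} {b : Cf K Λ} :
    ∀ (t : ℕ) (a : Cf K Λ), (stp M)^[t] a = b → TM2.step M b = none →
    ∃ n ≤ t, StepsTo (TM2.step M) a b n := by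
  intro t
  induction t with
  | zero => intro a h _; exact ⟨0, le_rfl, congrArg some h⟩
  | succ t ih =>
    intro a h hb
    rw [iterate_succ_apply] at h
    cases h3 : TM2.step M a with
    | none =>
      rw [step_none h3] at h
      obtain ⟨n, hn, h4⟩ := ih a h hb
      exact ⟨n, by omega, h4⟩
    | some a' =>
      rw [step_some h3] at h
      obtain ⟨n, hn, h4⟩ := ih a' h hb
      refine ⟨1 + n, by omega, StepsTo.trans (StepsTo.single h3) h4⟩

end Simu

open Simu

open Classical in
theorem pt_outputs {K : Type} [Fintype K] [DecidableEq K] (P : Prog K) (k₀ : K) :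
    PT (fun y : List Bool × (List Bool × ℕ) =>
      decide (Outputs (progMachine P k₀) y.1 y.2.1 y.2.2)) := by
  let _ : Enc (Option (Lbl P)) := encFin (Option (Lbl P))
  let M : Option (Lbl P) → TM2.Stmt (fun _ : K => Bool) (Option (Lbl P)) (Option Bool) :=
    (P.machine k₀).m
  have hsg : ∀ {f : List Bool × (List Bool × ℕ) → List Bool}, PT f →
      PT (fun y => single k₀ (f y)) := by
    intro f hf
    exact (pt_update (PT.const (single k₀ [])) k₀ hf).congr (fun a => update_single _ _ _)
  have h1 : PT (fun y : List Bool × (List Bool × ℕ) =>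
      (⟨some (some (entry P)), none, single k₀ y.1⟩ : Cf K (Option (Lbl P)))) :=
    pt_mk (PT.const _) (PT.const _) (hsg PT.fst)
  have h2 : PT (fun y : List Bool × (List Bool × ℕ) =>
      (⟨none, none, single k₀ y.2.1⟩ : Cf K (Option (Lbl P)))) :=
    pt_mk (PT.const _) (PT.const _) (hsg PT.snd.fst')
  have h3 := PT.eq (pt_iter M h1 PT.snd.snd') h2
  refine h3.congr (fun y => ?_)
  rw [decide_eq_decide, outputs_iff]
  constructor
  · intro h
    exact stepsTo_of_iter _ _ h rfl
  · rintro ⟨n, hn, h⟩
    exact iter_of_stepsTo rfl n _ _ hn h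

end Pool.Agent.Lib.MP_33f9c4_lc.Qt
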