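import Pool.Agent.Lib.MP_33f9c4_lc.Diag2

/-!
# Which strings are random
-/

namespace Pool.Agent.Lib.MP_33f9c4_lc.Ef

open Pool.Agent.Lib.PolyTime Function Finset

set_option synthInstance.maxSize 2000

/-- The cost of a search. -/
theorem cost_search (T : Polynomial ℕ) : ∃ κ, ∀ K B : ℕ, κ ≤ B → ∃ n0, ∀ n ≥ n0,
    32 * (n + 1) ^ 3 * ((K * (n + 1) ^ 2 * 2 ^ (n - B * lg n) + 1) *
      T.eval (K * (B + n + 1))) ≤ 2 ^ n := by
  obtain ⟨A, k, hA⟩ := eval_le_pow T
  refine ⟨k + 6, fun K B hB => ?_⟩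
  obtain ⟨D, hD⟩ : ∃ D, D = (K + 1) * (B + 2) := ⟨_, rfl⟩
  obtain ⟨C, hC⟩ : ∃ C, C = 32 * (K + 1) * (A * D ^ k) := ⟨_, rfl⟩
  obtain ⟨n1, hn1⟩ := asym_poly ((Polynomial.X + 1) ^ B) 1 one_pos
  refine ⟨n1 + C * 2 ^ B, fun n hn => ?_⟩
  have h1 : (n + 1) ^ B < 2 ^ n := by
    have := hn1 n (by omega)
    simpa using this
  have h2 : B * lg n ≤ n := by
    have h3 : 2 ^ (lg n * B) < 2 ^ n := by
      rw [pow_mul]
      exact lt_of_le_of_lt (Nat.pow_le_pow_left (lg_le n) B) h1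
    have := (Nat.pow_lt_pow_iff_right (by norm_num : 1 < 2)).mp h3
    rw [mul_comm]
    omega
  have h4 : T.eval (K * (B + n + 1)) ≤ A * D ^ k * (n + 1) ^ k := by
    refine (hA _).trans ?_
    rw [mul_assoc, ← Nat.mul_pow]
    refine Nat.mul_le_mul_left _ (Nat.pow_le_pow_left ?_ _)
    rw [hD]
    have e1 : B + n + 1 ≤ (B + 2) * (n + 1) := by nlinarith [Nat.zero_le (B * n)]
    have e2 : K * (B + n + 1) ≤ K * ((B + 2) * (n + 1)) := Nat.mul_le_mul_left _ e1
    have e3 : 1 ≤ (B + 2) * (n + 1) := Nat.succ_le_of_lt (by positivity)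
    have e4 : (K + 1) * (B + 2) * (n + 1) = K * ((B + 2) * (n + 1)) + (B + 2) * (n + 1) := by ring
    omega
  obtain ⟨E, hE⟩ : ∃ E, E = 2 ^ (n - B * lg n) := ⟨_, rfl⟩
  have hE1 : 1 ≤ E := by rw [hE]; exact Nat.one_le_two_pow
  rw [← hE]
  have h5 : E * (n + 1) ^ B ≤ 2 ^ B * 2 ^ n := by
    have e1 : (n + 1) ^ B ≤ 2 ^ (B * lg n + B) := by
      have : n + 1 ≤ 2 ^ (lg n + 1) := (lt_lg n).le
      calc (n + 1) ^ B ≤ (2 ^ (lg n + 1)) ^ B := Nat.pow_le_pow_left this B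
        _ = 2 ^ (B * lg n + B) := by rw [← pow_mul]; congr 1; ring
    calc E * (n + 1) ^ B ≤ 2 ^ (n - B * lg n) * 2 ^ (B * lg n + B) := by
          rw [hE]; exact Nat.mul_le_mul_left _ e1
      _ = 2 ^ B * 2 ^ n := by
          rw [← pow_add, ← pow_add]; congr 1; omega
  have h6 : K * (n + 1) ^ 2 * E + 1 ≤ (K + 1) * (n + 1) ^ 2 * E := by
    have : 1 ≤ (n + 1) ^ 2 * E := Nat.succ_le_of_lt (by positivity)
    have e : (K + 1) * (n + 1) ^ 2 * E = K * (n + 1) ^ 2 * E + (n + 1) ^ 2 * E := by ring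
    omega
  have h7 : 32 * (n + 1) ^ 3 * ((K * (n + 1) ^ 2 * E + 1) * T.eval (K * (B + n + 1))) ≤
      C * (E * (n + 1) ^ (k + 5)) := by
    calc 32 * (n + 1) ^ 3 * ((K * (n + 1) ^ 2 * E + 1) * T.eval (K * (B + n + 1)))
        ≤ 32 * (n + 1) ^ 3 * ((K + 1) * (n + 1) ^ 2 * E * (A * D ^ k * (n + 1) ^ k)) :=
          Nat.mul_le_mul_left _ (Nat.mul_le_mul h6 h4)
      _ = C * (E * (n + 1) ^ (k + 5)) := by rw [hC]; ring
  have h8 : (C * (E * (n + 1) ^ (k + 5))) * (n + 1) ≤ 2 ^ n * (n + 1) := by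
    calc (C * (E * (n + 1) ^ (k + 5))) * (n + 1) = C * (E * (n + 1) ^ (k + 6)) := by ring
      _ ≤ C * (E * (n + 1) ^ B) := Nat.mul_le_mul_left _ (Nat.mul_le_mul_left _
          (Nat.pow_le_pow_right (by omega) hB))
      _ ≤ C * (2 ^ B * 2 ^ n) := Nat.mul_le_mul_left _ h5
      _ = 2 ^ n * (C * 2 ^ B) := by ring
      _ ≤ 2 ^ n * (n + 1) := Nat.mul_le_mul_left _ (by omega)
  exact h7.trans (Nat.le_of_mul_le_mul_right h8 (by omega))

/-- Exponential lower bounds. -/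
theorem asym_dec3 (P : Polynomial ℕ) : ∃ c > 0, ∀ a b : ℕ, ∃ n0, ∀ n ≥ n0,
    8 * (n + 1) ^ 3 * P.eval (a + b * (n + 2 ^ (n / c))) ≤ 2 ^ n := by
  obtain ⟨c, hc, h⟩ := asym_dec (P * Polynomial.X ^ 3)
  refine ⟨c, hc, fun a b => ?_⟩
  obtain ⟨n0, hn0⟩ := h (a + 1) (b + 1)
  refine ⟨n0 + 1, fun n hn => le_trans ?_ (hn0 n (by omega))⟩
  rw [Polynomial.eval_mul, Polynomial.eval_pow, Polynomial.eval_X]
  generalize 2 ^ (n / c) = z
  have h1 : P.eval (a + b * (n + z)) ≤ P.eval (a + 1 + (b + 1) * (n + z)) :=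
    eval_mono P (by nlinarith [Nat.zero_le (n + z)])
  have h2 : n + 1 ≤ a + 1 + (b + 1) * (n + z) := by
    nlinarith [Nat.zero_le (b * (n + z)), Nat.zero_le a, Nat.zero_le z]
  calc 8 * (n + 1) ^ 3 * P.eval (a + b * (n + z))
      ≤ 8 * (a + 1 + (b + 1) * (n + z)) ^ 3 * P.eval (a + 1 + (b + 1) * (n + z)) :=
        Nat.mul_le_mul (Nat.mul_le_mul_left _ (Nat.pow_le_pow_left h2 3)) h1
    _ = 8 * 1 * (P.eval (a + 1 + (b + 1) * (n + z)) * (a + 1 + (b + 1) * (n + z)) ^ 3) := by ring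
    _ ≤ 8 * n * (P.eval (a + 1 + (b + 1) * (n + z)) * (a + 1 + (b + 1) * (n + z)) ^ 3) :=
        Nat.mul_le_mul_right _ (by omega)

theorem length_desc {n : ℕ} {a : List Bool} (ha : a.length = 2 * lg n) :
    (true :: (a ++ nxt^[n] [])).length = 3 * lg n + 1 := by
  have : (nxt^[n] []).length = lg n := rfl
  rw [List.length_cons, List.length_append, ha, this]
  omega

theorem two_pow_desc {n : ℕ} {a : List Bool} (ha : a.length = 2 * lg n) :
    2 ^ (true :: (a ++ nxt^[n] [])).length ≤ 2 * (n + 1) ^ 3 := by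
  rw [length_desc ha, pow_succ, mul_comm 3, pow_mul, mul_comm 2]
  exact Nat.mul_le_mul_right _ (Nat.pow_le_pow_left (lg_le n) 3)

theorem three_lg_lt {n : ℕ} (hn : 20 ≤ n) : 3 * lg n + 1 < n := by
  have hlg := lg_le n
  have h1 : ∀ l, 5 ≤ l → 3 * l + 3 < 2 ^ l := by
    intro l hl
    induction l, hl using Nat.le_induction with
    | base => norm_num
    | succ l hl ih => rw [pow_succ]; omega
  by_contra hcon
  rcases lt_or_ge (lg n) 5 with h2 | h2
  · omega
  · have := h1 _ h2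
    omega

theorem nxt_iter_ne_nil {n : ℕ} (hn : 0 < n) : nxt^[n] [] ≠ [] := by
  intro h
  have := congrArg nval h
  rw [nval_iter] at this
  simp only [nval] at this
  omega

section

variable {V : Tbl} {B : ℕ} {T T0 : Polynomial ℕ} {U : Machine}

/-- Accepted strings that do not begin with `true` are not random. -/
theorem IsMach.mode_A (hU : IsMach V B T T0 U) {κ : ℕ}
    (hκ : ∀ K B : ℕ, κ ≤ B → ∃ n0, ∀ n ≥ n0, 32 * (n + 1) ^ 3 *
      ((K * (n + 1) ^ 2 * 2 ^ (n - B * lg n) + 1) * T.eval (K * (B + n + 1))) ≤ 2 ^ n)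
    (hB : κ ≤ B) : ∃ n0, ∀ n ≥ n0, ∀ a : List Bool, a.length = 2 * lg n →
      a.head? ≠ some true → sel a.tail (Y V B (n + 1)) = true → str V B n a ∉ RKt U := by
  obtain ⟨K1, h1⟩ := diag_path V
  obtain ⟨K2, h2⟩ := dne_A V
  obtain ⟨n1, hn1⟩ := hκ (K1 + 4 * K2 + 50) B hB
  obtain ⟨n2, hn2⟩ := asym_poly (8 * (Polynomial.X + 1) ^ 3 * T0.comp (3 * Polynomial.X + 1)) 1
    one_pos
  refine ⟨n1 + n2 + 20, fun n hn a ha hh hs => ?_⟩
  have hlen := length_str V B (by omega : 4 ≤ n) ha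
  have hne := nxt_iter_ne_nil (by omega : 0 < n)
  have hlg0 : 0 < lg n := List.length_pos_of_ne_nil hne
  have hane : a ≠ [] := by
    rintro rfl
    simp at ha
    omega
  obtain ⟨N1, p1, q1⟩ := h1 B a (nxt^[n] []) _ hne ha le_rfl
  rw [nval_iter] at p1 q1
  obtain ⟨N2, p2, q2⟩ := h2 B n a (Y V B n) (K2 * (B + n + a.length + (Y V B n).length + 1) +
    (4 * n + 40)) hane hh (Nat.le_add_right _ _)
  rw [if_pos hs] at p2
  have hout := hU.outputs' p1 p2 (x := str V B n a) (by rw [hlen]; omega)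
  rw [length_desc ha] at hout
  have hd := two_pow_desc ha
  have hlgn := lg_le_self n
  refine not_mem_of_outputs hout ?_ ?_
  · rw [hlen]
    -- the three bounds
    have b1 : 8 * (n + 1) ^ 3 * T0.eval (3 * lg n + 1) < 2 ^ n := by
      have h4 := hn2 n (by omega)
      simp only [Polynomial.eval_mul, Polynomial.eval_ofNat, Polynomial.eval_X,
        Polynomial.eval_comp, Polynomial.eval_add, Polynomial.eval_one, Polynomial.eval_pow,
        Nat.div_one] at h4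
      refine lt_of_le_of_lt (Nat.mul_le_mul_left _ (eval_mono T0 ?_)) h4
      omega
    have b2 : 32 * (n + 1) ^ 3 * (N1 * T.eval (K1 * (B + n + 1))) ≤ 2 ^ n := by
      refine le_trans (Nat.mul_le_mul_left _ (Nat.mul_le_mul ?_ (eval_mono T ?_)))
        (hn1 n (by omega))
      · refine q1.trans (Nat.le_succ_of_le ?_)
        exact Nat.mul_le_mul_right _ (Nat.mul_le_mul_right _ (by omega))
      · exact Nat.mul_le_mul_right _ (by omega)
    have b3 : 16 * (n + 1) ^ 3 * ((N2 + 1) * T.eval (K2 * (B + n + a.length +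
        (Y V B n).length + 1) + (4 * n + 40))) ≤ 2 ^ n := by
      have h5 := hn1 (n + 1) (by omega)
      have h6 : (n + 1 + 1) ^ 3 ≥ (n + 1) ^ 3 := Nat.pow_le_pow_left (by omega) 3
      have h7 : N2 + 1 ≤ (K1 + 4 * K2 + 50) * (n + 1 + 1) ^ 2 *
          2 ^ (n + 1 - B * lg (n + 1)) + 1 := by
        refine Nat.succ_le_succ (q2.trans ?_)
        exact Nat.mul_le_mul_right _ (Nat.mul_le_mul_right _ (by omega))
      have h8 : K2 * (B + n + a.length + (Y V B n).length + 1) + (4 * n + 40) ≤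
          (K1 + 4 * K2 + 50) * (B + (n + 1) + 1) := by
        rw [length_Y, ha]
        have e1 : K2 * (B + n + 2 * lg n + (n - 2 * lg n) + 1) ≤ K2 * (4 * (B + (n + 1) + 1)) :=
          Nat.mul_le_mul_left _ (by omega)
        have e2 : (K1 + 4 * K2 + 50) * (B + (n + 1) + 1) = K1 * (B + (n + 1) + 1) +
          K2 * (4 * (B + (n + 1) + 1)) + 50 * (B + (n + 1) + 1) := by ring
        omega
      have h9 : 32 * (n + 1) ^ 3 * ((N2 + 1) * T.eval (K2 * (B + n + a.length +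
        (Y V B n).length + 1) + (4 * n + 40))) ≤ 2 ^ (n + 1) := by
        refine le_trans (Nat.mul_le_mul (Nat.mul_le_mul_left _ h6)
          (Nat.mul_le_mul h7 (eval_mono T h8))) h5
      rw [pow_succ 2 n] at h9
      generalize (N2 + 1) * T.eval (K2 * (B + n + a.length +
        (Y V B n).length + 1) + (4 * n + 40)) = z at h9 ⊢
      have e3 : 32 * (n + 1) ^ 3 * z = 2 * (16 * (n + 1) ^ 3 * z) := by ring
      omega
    generalize (N2 + 1) * T.eval (K2 * (B + n + a.length +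
        (Y V B n).length + 1) + (4 * n + 40)) = z3 at *
    generalize N1 * T.eval (K1 * (B + n + 1)) = z2 at *
    generalize T0.eval (3 * lg n + 1) = z1 at *
    have b0 : 0 < 2 ^ n := by positivity
    have b4 := Nat.mul_le_mul_right (z1 + (z2 + z3)) hd
    have e4 : 16 * (2 * (n + 1) ^ 3 * (z1 + (z2 + z3))) = 4 * (8 * (n + 1) ^ 3 * z1) +
      (32 * (n + 1) ^ 3 * z2) + 2 * (16 * (n + 1) ^ 3 * z3) := by ring
    omega
  · rw [hlen, length_desc ha]
    exact three_lg_lt (by omega)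

/-- Accepted strings that begin with `true` are not random. -/
theorem IsMach.mode_B (hU : IsMach V B T T0 U) {κ : ℕ}
    (hκ : ∀ K B : ℕ, κ ≤ B → ∃ n0, ∀ n ≥ n0, 32 * (n + 1) ^ 3 *
      ((K * (n + 1) ^ 2 * 2 ^ (n - B * lg n) + 1) * T.eval (K * (B + n + 1))) ≤ 2 ^ n)
    (hB : κ ≤ B) : ∃ c > 0, ∀ (Tb : Tbl) (b : ℕ), ∃ n0, ∀ n ≥ n0, ∀ a : List Bool,
      a.length = 2 * lg n → a.head? = some true → (parse a.tail).1 = Tb →
      ∀ s ≤ b * (2 ^ (n / c) + 1), Halts (minit Tb (str V B n a)) s →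
      mout (mstep^[s] (minit Tb (str V B n a))) = [true] → str V B n a ∉ RKt U := by
  obtain ⟨K1, h1⟩ := diag_path V
  obtain ⟨P, h2⟩ := dec2 V
  obtain ⟨c, hc, hasym⟩ := asym_dec3 ((Polynomial.X + 2) * T.comp (P + 4 * Polynomial.X + 40))
  refine ⟨c, hc, fun Tb b => ?_⟩
  obtain ⟨n1, hn1⟩ := hκ K1 B hB
  obtain ⟨n2, hn2⟩ := asym_poly (8 * (Polynomial.X + 1) ^ 3 * T0.comp (3 * Polynomial.X + 1)) 1
    one_pos
  obtain ⟨n3, hn3⟩ := hasym (size Tb + b) (b + 1)
  refine ⟨n1 + n2 + n3 + 20, fun n hn a ha hh hTb s hsb hs hout' => ?_⟩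
  have hlen := length_str V B (by omega : 4 ≤ n) ha
  have hne := nxt_iter_ne_nil (by omega : 0 < n)
  obtain ⟨N1, p1, q1⟩ := h1 B a (nxt^[n] []) _ hne ha le_rfl
  rw [nval_iter] at p1 q1
  rw [dne_B _ _ _ hh, hTb] at p1
  have p2 := h2 Tb (str V B n a) s hs
  rw [if_pos hout', hlen] at p2
  obtain ⟨z, hz⟩ : ∃ z, z = size Tb + n + s := ⟨_, rfl⟩
  rw [← hz] at p2
  have hout := hU.outputs' p1 (p2.mono (L' := P.eval z + 4 * z + 40) (by omega))
    (x := str V B n a) (by rw [hlen]; omega)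
  rw [length_desc ha] at hout
  have hd := two_pow_desc ha
  have hlgn := lg_le_self n
  refine not_mem_of_outputs hout ?_ ?_
  · rw [hlen]
    -- the three bounds
    have b1 : 8 * (n + 1) ^ 3 * T0.eval (3 * lg n + 1) < 2 ^ n := by
      have h4 := hn2 n (by omega)
      simp only [Polynomial.eval_mul, Polynomial.eval_ofNat, Polynomial.eval_X,
        Polynomial.eval_comp, Polynomial.eval_add, Polynomial.eval_one, Polynomial.eval_pow,
        Nat.div_one] at h4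
      refine lt_of_le_of_lt (Nat.mul_le_mul_left _ (eval_mono T0 ?_)) h4
      omega
    have b2 : 32 * (n + 1) ^ 3 * (N1 * T.eval (K1 * (B + n + 1))) ≤ 2 ^ n := by
      refine le_trans (Nat.mul_le_mul_left _ (Nat.mul_le_mul_right _ ?_)) (hn1 n (by omega))
      exact Nat.le_succ_of_le q1
    have b3 : 8 * (n + 1) ^ 3 * ((s + 1 + 1) * T.eval (P.eval z + 4 * z + 40)) ≤ 2 ^ n := by
      have h4 := hn3 n (by omega)
      refine le_trans (Nat.mul_le_mul_left _ ?_) h4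
      have h5 : z ≤ size Tb + b + (b + 1) * (n + 2 ^ (n / c)) := by
        generalize 2 ^ (n / c) = y at *
        rw [hz]
        have e1 : b * (y + 1) = b * y + b := by ring
        have e2 : (b + 1) * (n + y) = b * n + b * y + n + y := by ring
        have := Nat.zero_le (b * n)
        omega
      refine le_trans ?_ (eval_mono _ h5)
      simp only [Polynomial.eval_mul, Polynomial.eval_add, Polynomial.eval_comp,
        Polynomial.eval_X, Polynomial.eval_ofNat]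
      exact Nat.mul_le_mul_right _ (by omega)
    generalize (s + 1 + 1) * T.eval (P.eval z + 4 * z + 40) = z3 at *
    generalize N1 * T.eval (K1 * (B + n + 1)) = z2 at *
    generalize T0.eval (3 * lg n + 1) = z1 at *
    have b0 : 0 < 2 ^ n := by positivity
    have b4 := Nat.mul_le_mul_right (z1 + (z2 + z3)) hd
    have e4 : 16 * (2 * (n + 1) ^ 3 * (z1 + (z2 + z3))) = 4 * (8 * (n + 1) ^ 3 * z1) +
      (32 * (n + 1) ^ 3 * z2) + 4 * (8 * (n + 1) ^ 3 * z3) := by ring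
    omega
  · rw [hlen, length_desc ha]
    exact three_lg_lt (by omega)

/-- Strings that are not random are accepted. -/
theorem IsMach.acc_of_not_mem (hU : IsMach V B T T0 U) (hB : 2 ≤ B) {n : ℕ} (hn : 5 ≤ n)
    {a : List Bool} (ha : a.length = 2 * lg n) (hex : ∃ d t, Outputs U d (str V B n a) t)
    (hx : str V B n a ∉ RKt U) : Acc V B n a := by
  obtain ⟨d, t, h1, h2⟩ := exists_of_not_mem hex hx
  rw [length_str V B (by omega) ha] at h2
  exact hU.acc_of_outputs hB hn ha h1 h2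

end

end Pool.Agent.Lib.MP_33f9c4_lc.Ef
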