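import Pool.Agent.Lib.MP_33f9c4_lc.Mpt
import Pool.Agent.Lib.MP_33f9c4_lc.Num
import Pool.Agent.Lib.MP_33f9c4_lc.Parse
import Pool.Agent.Lib.MP_33f9c4_lc.Loop

/-!
# The step function of the universal machine
-/

namespace Pool.Agent.Lib.MP_33f9c4_lc

open Pool.Agent.Lib.PolyTime Function

/-- Environment of the search: exponent, length, table, current string. -/
abbrev Env : Type := ℕ × (ℕ × (Tbl × List Bool))

/-- Current description and numbers of hits. -/
abbrev Cnt : Type := List Bool × (List Bool × List Bool)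

/-- The states of the universal machine. -/
abbrev S : Type :=
  (ℕ × (Cfg × ℕ)) ⊕ ((List Bool × (ℕ × (ℕ × ℕ))) ⊕ ((List Bool × ℕ) ⊕
    (((ℕ × List Bool) × (List Bool × ℕ)) ⊕ ((Env × Cnt) ⊕ (((Env × Cnt) × (Cfg × ℕ)) ⊕
      ((List Bool × Cfg) ⊕ List Bool))))))

/-- Simulation of a table machine. -/
def sSim (x : ℕ × (Cfg × ℕ)) : S := Sum.inl x
/-- Computation of the power. -/
def sPow (x : List Bool × (ℕ × (ℕ × ℕ))) : S := Sum.inr (Sum.inl x)
/-- Waiting. -/
def sWait (x : List Bool × ℕ) : S := Sum.inr (Sum.inr (Sum.inl x))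
/-- Computation of the length. -/
def sDbl (x : (ℕ × List Bool) × (List Bool × ℕ)) : S := Sum.inr (Sum.inr (Sum.inr (Sum.inl x)))
/-- Scanning the descriptions. -/
def sScan (x : Env × Cnt) : S := Sum.inr (Sum.inr (Sum.inr (Sum.inr (Sum.inl x))))
/-- Running a description. -/
def sRun (x : (Env × Cnt) × (Cfg × ℕ)) : S :=
  Sum.inr (Sum.inr (Sum.inr (Sum.inr (Sum.inr (Sum.inl x)))))
/-- Running the decider. -/
def sDec (x : List Bool × Cfg) : S :=
  Sum.inr (Sum.inr (Sum.inr (Sum.inr (Sum.inr (Sum.inr (Sum.inl x))))))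
/-- Final state. -/
def sFin (x : List Bool) : S :=
  Sum.inr (Sum.inr (Sum.inr (Sum.inr (Sum.inr (Sum.inr (Sum.inr x))))))

/-- The test whether a description of length `l` is still cheap after `s` steps. -/
def test (B n l s : ℕ) : Bool := decide (B * lg s + l < n)

/-- `y` extends `u` and the bit `b`. -/
def hit (u : List Bool) (b : Bool) (y : List Bool) : Bool :=
  decide (y = u ++ b :: y.drop (u.length + 1))

/-- Update of a counter. -/
def updc (n : ℕ) (u : List Bool) (b : Bool) (y c : List Bool) : List Bool :=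
  if (decide (y.length = n) && hit u b y) = true then nxt c else c

/-- A step of the simulation. -/
def gSim (x : ℕ × (Cfg × ℕ)) : S :=
  if mfin x.2.1 = true then sPow (mout x.2.1, (x.2.2 + (mout x.2.1).length + 1, (1, x.1)))
  else sSim (x.1, (mstep x.2.1, x.2.2 + 1))

/-- A step of the computation of the power. -/
def gPow (x : List Bool × (ℕ × (ℕ × ℕ))) : S :=
  if x.2.2.2 = 0 then sWait (x.1, x.2.2.1)
  else sPow (x.1, (x.2.1, (x.2.2.1 * (x.2.1 + 1), x.2.2.2 - 1)))

/-- A step of waiting. -/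
def gWait (x : List Bool × ℕ) : S :=
  if x.2 = 0 then sFin x.1 else sWait (x.1, x.2 - 1)

/-- A step of the computation of the length. -/
def gDbl (x : (ℕ × List Bool) × (List Bool × ℕ)) : S :=
  if x.2.1 = (parse x.1.2).2 then
    sScan ((x.1.1, (x.2.2, ((parse x.1.2).1, x.1.2))), ([], ([], [])))
  else sDbl (x.1, (nxt x.2.1, x.2.2 + 1))

/-- A step of scanning. -/
def gScan (x : Env × Cnt) : S :=
  if x.1.2.1 ≤ x.1.2.2.2.length then sDec (x.1.2.2.2, minit x.1.2.2.1 x.1.2.2.2)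
  else if test x.1.1 x.1.2.1 x.2.1.length (x.2.1.length + x.1.2.1 + 1) = true then
    sRun (x, (minit (parse x.2.1).1 (parse x.2.1).2, x.2.1.length + x.1.2.1 + 1))
  else sScan ((x.1.1, (x.1.2.1, (x.1.2.2.1, x.1.2.2.2 ++ [nlt x.2.2.2 x.2.2.1]))), ([], ([], [])))

/-- A step of running a description. -/
def gRun (x : (Env × Cnt) × (Cfg × ℕ)) : S :=
  if mfin x.2.1 = true then sScan (x.1.1, (nxt x.1.2.1,
    (updc x.1.1.2.1 x.1.1.2.2.2 false (mout x.2.1) x.1.2.2.1,
      updc x.1.1.2.1 x.1.1.2.2.2 true (mout x.2.1) x.1.2.2.2)))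
  else if test x.1.1.1 x.1.1.2.1 x.1.2.1.length (x.2.2 + 1) = true then
    sRun (x.1, (mstep x.2.1, x.2.2 + 1))
  else sScan (x.1.1, (nxt x.1.2.1, x.1.2.2))

/-- A step of running the decider. -/
def gDec (x : List Bool × Cfg) : S :=
  if mfin x.2 = true then sFin (if mout x.2 = [true] then x.1 else [])
  else sDec (x.1, mstep x.2)

/-- The step function of the universal machine. -/
def g : S → S :=
  Sum.elim gSim (Sum.elim gPow (Sum.elim gWait (Sum.elim gDbl (Sum.elim gScan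
    (Sum.elim gRun (Sum.elim gDec sFin))))))

/-- The final states. -/
def fin : S → Bool :=
  Sum.elim (fun _ => false) (Sum.elim (fun _ => false) (Sum.elim (fun _ => false)
    (Sum.elim (fun _ => false) (Sum.elim (fun _ => false) (Sum.elim (fun _ => false)
      (Sum.elim (fun _ => false) (fun _ => true)))))))

/-- The output. -/
def out : S → List Bool :=
  Sum.elim (fun _ => []) (Sum.elim (fun _ => []) (Sum.elim (fun _ => [])
    (Sum.elim (fun _ => []) (Sum.elim (fun _ => []) (Sum.elim (fun _ => [])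
      (Sum.elim (fun _ => []) (fun x => x)))))))

/-- The initial state. -/
def init (B : ℕ) (d : List Bool) : S :=
  if d.head? = some true then sDbl ((B, d.tail), ([], 0))
  else sSim (B, (minit (parse d.tail).1 (parse d.tail).2, d.tail.length))

@[simp] theorem g_sim (x : ℕ × (Cfg × ℕ)) : g (sSim x) = gSim x := rfl
@[simp] theorem g_pow (x : List Bool × (ℕ × (ℕ × ℕ))) : g (sPow x) = gPow x := rfl
@[simp] theorem g_wait (x : List Bool × ℕ) : g (sWait x) = gWait x := rfl
@[simp] theorem g_dbl (x : (ℕ × List Bool) × (List Bool × ℕ)) : g (sDbl x) = gDbl x := rfl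
@[simp] theorem g_scan (x : Env × Cnt) : g (sScan x) = gScan x := rfl
@[simp] theorem g_run (x : (Env × Cnt) × (Cfg × ℕ)) : g (sRun x) = gRun x := rfl
@[simp] theorem g_dec (x : List Bool × Cfg) : g (sDec x) = gDec x := rfl
@[simp] theorem g_fin (x : List Bool) : g (sFin x) = sFin x := rfl

@[simp] theorem fin_sim (x : ℕ × (Cfg × ℕ)) : fin (sSim x) = false := rfl
@[simp] theorem fin_pow (x : List Bool × (ℕ × (ℕ × ℕ))) : fin (sPow x) = false := rfl
@[simp] theorem fin_wait (x : List Bool × ℕ) : fin (sWait x) = false := rfl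
@[simp] theorem fin_dbl (x : (ℕ × List Bool) × (List Bool × ℕ)) : fin (sDbl x) = false := rfl
@[simp] theorem fin_scan (x : Env × Cnt) : fin (sScan x) = false := rfl
@[simp] theorem fin_run (x : (Env × Cnt) × (Cfg × ℕ)) : fin (sRun x) = false := rfl
@[simp] theorem fin_dec (x : List Bool × Cfg) : fin (sDec x) = false := rfl
@[simp] theorem fin_fin (x : List Bool) : fin (sFin x) = true := rfl
@[simp] theorem out_fin (x : List Bool) : out (sFin x) = x := rfl

/-! ### Polynomial time -/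

section

variable {α β γ δ : Type} [Enc α] [Enc β] [Enc γ] [Enc δ]

theorem PT.sumElim {f : α → γ} {f' : β → γ} (hf : PT f) (hf' : PT f') : PT (Sum.elim f f') := by
  have := PT.sumCases (f := fun x : α ⊕ β => x) (g := fun _ a => f a) (h := fun _ b => f' b)
    PT.id (hf.comp PT.snd) (hf'.comp PT.snd)
  refine this.congr ?_
  rintro (a | b) <;> rfl

theorem pt_sSim {f : α → ℕ × (Cfg × ℕ)} (hf : PT f) : PT (fun a => sSim (f a)) := PT.inl hf
theorem pt_sPow {f : α → List Bool × (ℕ × (ℕ × ℕ))} (hf : PT f) : PT (fun a => sPow (f a)) :=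
  PT.inr (PT.inl hf)
theorem pt_sWait {f : α → List Bool × ℕ} (hf : PT f) : PT (fun a => sWait (f a)) :=
  PT.inr (PT.inr (PT.inl hf))
theorem pt_sDbl {f : α → (ℕ × List Bool) × (List Bool × ℕ)} (hf : PT f) :
    PT (fun a => sDbl (f a)) :=
  PT.inr (PT.inr (PT.inr (PT.inl hf)))
theorem pt_sScan {f : α → Env × Cnt} (hf : PT f) : PT (fun a => sScan (f a)) :=
  PT.inr (PT.inr (PT.inr (PT.inr (PT.inl hf))))
theorem pt_sRun {f : α → (Env × Cnt) × (Cfg × ℕ)} (hf : PT f) : PT (fun a => sRun (f a)) :=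
  PT.inr (PT.inr (PT.inr (PT.inr (PT.inr (PT.inl hf)))))
theorem pt_sDec {f : α → List Bool × Cfg} (hf : PT f) : PT (fun a => sDec (f a)) :=
  PT.inr (PT.inr (PT.inr (PT.inr (PT.inr (PT.inr (PT.inl hf))))))
theorem pt_sFin {f : α → List Bool} (hf : PT f) : PT (fun a => sFin (f a)) :=
  PT.inr (PT.inr (PT.inr (PT.inr (PT.inr (PT.inr (PT.inr hf))))))

theorem pt_test {B n l s : α → ℕ} (hB : PT B) (hn : PT n) (hl : PT l) (hs : PT s) :
    PT (fun a => test (B a) (n a) (l a) (s a)) :=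
  PT.lt (PT.add (PT.mul hB (pt_lg.comp hs)) hl) hn

theorem pt_hit {u y : α → List Bool} (hu : PT u) (hy : PT y) (b : Bool) :
    PT (fun a => hit (u a) b (y a)) :=
  PT.eq hy (PT.append hu (PT.cons (PT.const b) (PT.drop (PT.addConst (PT.length hu) 1) hy)))

theorem pt_updc {n : α → ℕ} {u y c : α → List Bool} (hn : PT n) (hu : PT u) (hy : PT y)
    (hc : PT c) (b : Bool) : PT (fun a => updc (n a) (u a) b (y a) (c a)) :=
  PT.cond (PT.and (PT.eq (PT.length hy) hn) (pt_hit hu hy b)) (pt_nxt.comp hc) hc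

theorem pt_minit' {T : α → Tbl} {d : α → List Bool} (hT : PT T) (hd : PT d) :
    PT (fun a => minit (T a) (d a)) := pt_minit.comp (hT.pair hd)

theorem pt_gSim : PT gSim := by
  have h1 : PT (fun x : ℕ × (Cfg × ℕ) => mout x.2.1) := pt_mout.comp (PT.fst' PT.snd)
  exact PT.cond (pt_mfin.comp (PT.fst' PT.snd))
    (pt_sPow (h1.pair ((PT.addConst (PT.add (PT.snd' PT.snd) (PT.length h1)) 1).pair
      ((PT.const 1).pair PT.fst))))
    (pt_sSim (PT.fst.pair ((pt_mstep.comp (PT.fst' PT.snd)).pair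
      (PT.addConst (PT.snd' PT.snd) 1))))

theorem pt_gPow : PT gPow := by
  have h0 : PT (fun x : List Bool × (ℕ × (ℕ × ℕ)) => x.2.2.2) := PT.snd' (PT.snd' PT.snd)
  have h1 : PT (fun x : List Bool × (ℕ × (ℕ × ℕ)) => x.2.2.1) := PT.fst' (PT.snd' PT.snd)
  have h2 : PT (fun x : List Bool × (ℕ × (ℕ × ℕ)) => x.2.1) := PT.fst' PT.snd
  exact PT.ite (PT.eq h0 (PT.const 0)) (pt_sWait (PT.fst.pair h1))
    (pt_sPow (PT.fst.pair (h2.pair ((PT.mul h1 (PT.addConst h2 1)).pair (PT.pred h0)))))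

theorem pt_gWait : PT gWait :=
  PT.ite (PT.eq PT.snd (PT.const 0)) (pt_sFin PT.fst) (pt_sWait (PT.fst.pair (PT.pred PT.snd)))

theorem pt_gDbl : PT gDbl := by
  have h1 : PT (fun x : (ℕ × List Bool) × (List Bool × ℕ) => x.2.1) := PT.fst' PT.snd
  have h2 : PT (fun x : (ℕ × List Bool) × (List Bool × ℕ) => x.2.2) := PT.snd' PT.snd
  have h3 : PT (fun x : (ℕ × List Bool) × (List Bool × ℕ) => x.1.2) := PT.snd' PT.fst
  have h4 : PT (fun x : (ℕ × List Bool) × (List Bool × ℕ) => x.1.1) := PT.fst' PT.fst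
  exact PT.ite (PT.eq h1 (PT.snd' (pt_parse.comp h3)))
    (pt_sScan ((h4.pair (h2.pair ((PT.fst' (pt_parse.comp h3)).pair h3))).pair
      (PT.const ([], ([], [])))))
    (pt_sDbl (PT.fst.pair ((pt_nxt.comp h1).pair (PT.addConst h2 1))))

theorem pt_gScan : PT gScan := by
  have hB : PT (fun x : Env × Cnt => x.1.1) := PT.fst' PT.fst
  have hn : PT (fun x : Env × Cnt => x.1.2.1) := PT.fst' (PT.snd' PT.fst)
  have hT : PT (fun x : Env × Cnt => x.1.2.2.1) := PT.fst' (PT.snd' (PT.snd' PT.fst))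
  have hu : PT (fun x : Env × Cnt => x.1.2.2.2) := PT.snd' (PT.snd' (PT.snd' PT.fst))
  have he : PT (fun x : Env × Cnt => x.2.1) := PT.fst' PT.snd
  have h0 : PT (fun x : Env × Cnt => x.2.2.1) := PT.fst' (PT.snd' PT.snd)
  have h1 : PT (fun x : Env × Cnt => x.2.2.2) := PT.snd' (PT.snd' PT.snd)
  have hs : PT (fun x : Env × Cnt => x.2.1.length + x.1.2.1 + 1) :=
    PT.addConst (PT.add (PT.length he) hn) 1
  have hnlt : PT (fun x : Env × Cnt => nlt x.2.2.2 x.2.2.1) := pt_nlt.comp (h1.pair h0)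
  exact PT.ite (PT.le hn (PT.length hu)) (pt_sDec (hu.pair (pt_minit' hT hu)))
    (PT.cond (pt_test hB hn (PT.length he) hs)
      (pt_sRun (PT.id.pair ((pt_minit' (PT.fst' (pt_parse.comp he))
        (PT.snd' (pt_parse.comp he))).pair hs)))
      (pt_sScan ((hB.pair (hn.pair (hT.pair (PT.append hu (PT.list1 hnlt))))).pair
        (PT.const ([], ([], []))))))

theorem pt_gRun : PT gRun := by
  have hV : PT (fun x : (Env × Cnt) × (Cfg × ℕ) => x.1.1) := PT.fst' PT.fst
  have hB : PT (fun x : (Env × Cnt) × (Cfg × ℕ) => x.1.1.1) := PT.fst' hV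
  have hn : PT (fun x : (Env × Cnt) × (Cfg × ℕ) => x.1.1.2.1) := PT.fst' (PT.snd' hV)
  have hu : PT (fun x : (Env × Cnt) × (Cfg × ℕ) => x.1.1.2.2.2) := PT.snd' (PT.snd' (PT.snd' hV))
  have he : PT (fun x : (Env × Cnt) × (Cfg × ℕ) => x.1.2.1) := PT.fst' (PT.snd' PT.fst)
  have hcc : PT (fun x : (Env × Cnt) × (Cfg × ℕ) => x.1.2.2) := PT.snd' (PT.snd' PT.fst)
  have hc : PT (fun x : (Env × Cnt) × (Cfg × ℕ) => x.2.1) := PT.fst' PT.snd
  have hs : PT (fun x : (Env × Cnt) × (Cfg × ℕ) => x.2.2 + 1) := PT.addConst (PT.snd' PT.snd) 1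
  have hy : PT (fun x : (Env × Cnt) × (Cfg × ℕ) => mout x.2.1) := pt_mout.comp hc
  exact PT.cond (pt_mfin.comp hc)
    (pt_sScan (hV.pair ((pt_nxt.comp he).pair ((pt_updc hn hu hy (PT.fst' hcc) false).pair
      (pt_updc hn hu hy (PT.snd' hcc) true)))))
    (PT.cond (pt_test hB hn (PT.length he) hs)
      (pt_sRun (PT.fst.pair ((pt_mstep.comp hc).pair hs)))
      (pt_sScan (hV.pair ((pt_nxt.comp he).pair hcc))))

theorem pt_gDec : PT gDec := by
  have hy : PT (fun x : List Bool × Cfg => mout x.2) := pt_mout.comp PT.snd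
  exact PT.cond (pt_mfin.comp PT.snd)
    (pt_sFin (PT.ite (PT.eq hy (PT.const [true])) PT.fst (PT.const [])))
    (pt_sDec (PT.fst.pair (pt_mstep.comp PT.snd)))

theorem pt_g : PT g :=
  PT.sumElim pt_gSim (PT.sumElim pt_gPow (PT.sumElim pt_gWait (PT.sumElim pt_gDbl
    (PT.sumElim pt_gScan (PT.sumElim pt_gRun (PT.sumElim pt_gDec (pt_sFin PT.id)))))))

theorem pt_fin : PT fin :=
  PT.sumElim (PT.const _) (PT.sumElim (PT.const _) (PT.sumElim (PT.const _)
    (PT.sumElim (PT.const _) (PT.sumElim (PT.const _) (PT.sumElim (PT.const _)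
      (PT.sumElim (PT.const _) (PT.const _)))))))

theorem pt_out : PT out :=
  PT.sumElim (PT.const _) (PT.sumElim (PT.const _) (PT.sumElim (PT.const _)
    (PT.sumElim (PT.const _) (PT.sumElim (PT.const _) (PT.sumElim (PT.const _)
      (PT.sumElim (PT.const _) PT.id))))))

theorem pt_init (B : ℕ) : PT (init B) := by
  have ht : PT (fun d : List Bool => d.tail) := PT.tail PT.id
  exact PT.ite (PT.eq (PT.head? PT.id) (PT.const (some true)))
    (pt_sDbl (((PT.const B).pair ht).pair ((PT.const []).pair (PT.const 0))))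
    (pt_sSim ((PT.const B).pair ((pt_minit' (PT.fst' (pt_parse.comp ht))
      (PT.snd' (pt_parse.comp ht))).pair (PT.length ht))))

end

end Pool.Agent.Lib.MP_33f9c4_lc
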