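import Pool.Agent.Lib.MP_33f9c4_lc.Steps
import Pool.Agent.Lib.MP_33f9c4_lc.Defs2

/-!
# The step function of the machine with additional stacks
-/

namespace Pool.Agent.Lib.MP_33f9c4_lc.Ef

open Pool.Agent.Lib.PolyTime Function

/-- Environment of the search: exponent, length, data, current string. -/
abbrev Env : Type := ℕ × (ℕ × ((List Bool × List Bool) × List Bool))

/-- The caller of a simulation: the exponent in the simulation phase; environment and counters in
the search phase. -/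
abbrev X : Type := ℕ ⊕ (Env × Cnt)

/-- State of the simulated machine and number of steps. -/
abbrev Q : Type := ℕ × List Bool

/-- The control states. -/
abbrev S : Type :=
  (X × List Bool) ⊕ ((Bool × (X × Q)) ⊕ ((Bool × (X × (Q × List Bool))) ⊕
    ((Bool × (X × ((List Bool × List Bool) × ℕ))) ⊕ ((ℕ × ((List Bool × List Bool) × ℕ)) ⊕
      ((((List Bool × List Bool) × List Bool) × (ℕ × ℕ)) ⊕
        (((ℕ × (List Bool × List Bool)) × (List Bool × ℕ)) ⊕
          ((Env × Cnt) ⊕ ((List Bool × Cfg) ⊕ List Bool))))))))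

/-- Loading the input. -/
def cLoad (z : X × List Bool) : S := Sum.inl z
/-- Running. -/
def cRun (z : Bool × (X × Q)) : S := Sum.inr (Sum.inl z)
/-- Reading the output. -/
def cRead (z : Bool × (X × (Q × List Bool))) : S := Sum.inr (Sum.inr (Sum.inl z))
/-- Clearing the stacks. -/
def cClean (z : Bool × (X × ((List Bool × List Bool) × ℕ))) : S :=
  Sum.inr (Sum.inr (Sum.inr (Sum.inl z)))
/-- Computation of a power. -/
def cPow (z : ℕ × ((List Bool × List Bool) × ℕ)) : S :=
  Sum.inr (Sum.inr (Sum.inr (Sum.inr (Sum.inl z))))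
/-- Waiting. -/
def cWait (z : ((List Bool × List Bool) × List Bool) × (ℕ × ℕ)) : S :=
  Sum.inr (Sum.inr (Sum.inr (Sum.inr (Sum.inr (Sum.inl z)))))
/-- Computation of the length. -/
def cDbl (z : (ℕ × (List Bool × List Bool)) × (List Bool × ℕ)) : S :=
  Sum.inr (Sum.inr (Sum.inr (Sum.inr (Sum.inr (Sum.inr (Sum.inl z))))))
/-- Scanning the descriptions. -/
def cScan (z : Env × Cnt) : S :=
  Sum.inr (Sum.inr (Sum.inr (Sum.inr (Sum.inr (Sum.inr (Sum.inr (Sum.inl z)))))))
/-- Running a table. -/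
def cDec (z : List Bool × Cfg) : S :=
  Sum.inr (Sum.inr (Sum.inr (Sum.inr (Sum.inr (Sum.inr (Sum.inr (Sum.inr (Sum.inl z))))))))
/-- Final. -/
def cFin (z : List Bool) : S :=
  Sum.inr (Sum.inr (Sum.inr (Sum.inr (Sum.inr (Sum.inr (Sum.inr (Sum.inr (Sum.inr z))))))))

/-- Field `i` of row `q`. -/
def fl (V : Tbl) (q i : ℕ) : ℕ := (V.getD q []).getD i 3

/-- May the simulation go on after `s` steps? -/
def tst (x : X) (s : List Bool) : Bool :=
  Sum.elim (fun _ => true)
    (fun z => decide (s.length + z.1.1 * lg z.1.2.1 + z.2.1.length < z.1.2.1)) x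

/-- May one read more of the output? -/
def mor (x : X) (y : List Bool) : Bool :=
  Sum.elim (fun _ => true) (fun z => decide (y.length ≤ z.1.2.1)) x

/-- Return to the caller with the number of steps and the output. -/
def ret (x : X) (sy : List Bool × List Bool) : S :=
  Sum.elim (fun B => cPow (B, (sy, 1)))
    (fun z => cScan (z.1, (nxt z.2.1, (updc z.1.2.1 z.1.2.2.2 false sy.2 z.2.2.1,
      updc z.1.2.1 z.1.2.2.2 true sy.2 z.2.2.2)))) x

/-- Loading. -/
def gLoad (z : X × List Bool) : (ℕ × ℕ) × S :=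
  if z.2 = [] then ((0, 0), cRun (false, (z.1, (0, []))))
  else ((3, if z.2.head? = some true then 1 else 0), cLoad (z.1, z.2.tail))

/-- Running. -/
def gRun (V : Tbl) (r : ℕ) (z : Bool × (X × Q)) : (ℕ × ℕ) × S :=
  if z.1 = true then
    (if (decide (fl V z.2.2.1 0 = 2) && !decide (r = 0)) = true then
      (3 + 2 * fl V z.2.2.1 1, r - 1) else (0, 0),
      cRun (false, (z.2.1, (fl V z.2.2.1 (r + 2), nxt z.2.2.2))))
  else if 3 ≤ fl V z.2.2.1 0 then ((0, 0), cRead (false, (z.2.1, (z.2.2, []))))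
  else if tst z.2.1 z.2.2.2 = true then
    if fl V z.2.2.1 0 = 0 then ((3 + 2 * fl V z.2.2.1 1, fl V z.2.2.1 2),
      cRun (false, (z.2.1, (fl V z.2.2.1 3, nxt z.2.2.2))))
    else ((2 + 2 * fl V z.2.2.1 1, 0), cRun (true, z.2))
  else ((0, 0), cClean (false, (z.2.1, ((z.2.2.2, []), 0))))

/-- Reading. -/
def gRead (V : Tbl) (r : ℕ) (z : Bool × (X × (Q × List Bool))) : (ℕ × ℕ) × S :=
  if z.1 = true then
    ((0, 0), if (!decide (r = 0) && mor z.2.1 z.2.2.2) = true then
      cRead (false, (z.2.1, (z.2.2.1, z.2.2.2 ++ [decide (fl V z.2.2.1.1 (r + 1) = 1)])))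
      else cClean (false, (z.2.1, ((z.2.2.1.2, z.2.2.2), 0))))
  else ((2 + 2 * fl V z.2.2.1.1 1, 0), cRead (true, z.2))

/-- Clearing. -/
def gClean (V : Tbl) (r : ℕ) (z : Bool × (X × ((List Bool × List Bool) × ℕ))) : (ℕ × ℕ) × S :=
  if z.1 = true then
    ((0, 0), cClean (false, (z.2.1, (z.2.2.1, if r = 0 then z.2.2.2 + 1 else z.2.2.2))))
  else if V.length < z.2.2.2 then ((0, 0), ret z.2.1 z.2.2.1)
  else ((2 + 2 * z.2.2.2, 0), cClean (true, z.2))

/-- Computation of a power. -/
def gPow (z : ℕ × ((List Bool × List Bool) × ℕ)) : (ℕ × ℕ) × S :=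
  ((0, 0), if z.1 = 0 then cWait ((z.2.1, []), (z.2.2, z.2.2))
    else cPow (z.1 - 1, (z.2.1, z.2.2 * (z.2.1.2.length + 1))))

/-- Waiting. -/
def gWait (z : ((List Bool × List Bool) × List Bool) × (ℕ × ℕ)) : (ℕ × ℕ) × S :=
  ((0, 0), if z.2.1 = 0 then
      if z.1.2 = z.1.1.1 then cFin z.1.1.2 else cWait ((z.1.1, nxt z.1.2), (z.2.2, z.2.2))
    else cWait (z.1, (z.2.1 - 1, z.2.2)))

/-- Computation of the length. -/
def gDbl (z : (ℕ × (List Bool × List Bool)) × (List Bool × ℕ)) : (ℕ × ℕ) × S :=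
  ((0, 0), if z.2.1 = z.1.2.2 then
      cScan ((z.1.1, (z.2.2, ((z.1.2.1, []), []))), ([], ([], [])))
    else cDbl (z.1, (nxt z.2.1, z.2.2 + 1)))

/-- The bit of `u` at the place given by `a`: the places are numbered by the successors of the
string of zeros. -/
def sel (a u : List Bool) : Bool :=
  (u.foldl (fun (st : List Bool × Bool) b => (nxt st.1, st.2 || (decide (st.1 = a) && b)))
    (a.map (fun _ => false), false)).2

/-- The string of the search is complete. -/
def dne (v : Env) : S :=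
  if v.2.2.1.2 = [] then
    if v.2.2.1.1.head? = some true then
      cDec (v.2.2.2 ++ v.2.2.1.1, minit (parse v.2.2.1.1.tail).1 (v.2.2.2 ++ v.2.2.1.1))
    else cScan ((v.1, (v.2.1 + 1, ((v.2.2.1.1, v.2.2.2 ++ v.2.2.1.1), []))), ([], ([], [])))
  else cFin (if sel v.2.2.1.1.tail v.2.2.2 = true then v.2.2.1.2 else [])

/-- Scanning. -/
def gScan (z : Env × Cnt) : (ℕ × ℕ) × S :=
  ((0, 0), if z.1.2.1 ≤ z.1.2.2.2.length + 2 * lg z.1.2.1 then dne z.1
    else if z.2.1.length + z.1.1 * lg z.1.2.1 < z.1.2.1 then cLoad (Sum.inr z, z.2.1.reverse)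
    else cScan ((z.1.1, (z.1.2.1, (z.1.2.2.1, z.1.2.2.2 ++ [nlt z.2.2.2 z.2.2.1]))),
      ([], ([], []))))

/-- Running a table. -/
def gDec (z : List Bool × Cfg) : (ℕ × ℕ) × S :=
  ((0, 0), if mfin z.2 = true then cFin (if mout z.2 = [true] then z.1 else [])
    else cDec (z.1, mstep z.2))

/-- The step function. -/
def G (V : Tbl) (x : ℕ × S) : (ℕ × ℕ) × S :=
  Sum.elim gLoad (Sum.elim (gRun V x.1) (Sum.elim (gRead V x.1) (Sum.elim (gClean V x.1)
    (Sum.elim gPow (Sum.elim gWait (Sum.elim gDbl (Sum.elim gScan (Sum.elim gDec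
      (fun z => ((1, 0), cFin z)))))))))) x.2

/-- The output. -/
def out : S → List Bool :=
  Sum.elim (fun _ => []) (Sum.elim (fun _ => []) (Sum.elim (fun _ => []) (Sum.elim (fun _ => [])
    (Sum.elim (fun _ => []) (Sum.elim (fun _ => []) (Sum.elim (fun _ => [])
      (Sum.elim (fun _ => []) (Sum.elim (fun _ => []) (fun z => z)))))))))

/-- Quotient and remainder of the length modulo three. -/
def dv3 (w : List Bool) : ℕ × ℕ :=
  w.foldl (fun st _ => if st.2 = 2 then (st.1 + 1, 0) else (st.1, st.2 + 1)) (0, 0)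

/-- The initial state. -/
def init (B : ℕ) (d : List Bool) : S :=
  if d.head? = some true then
    if (decide ((dv3 d.tail).2 = 0) && !decide (d.tail = [])) = true then
      cDbl ((B, (d.tail.take (2 * (dv3 d.tail).1), d.tail.drop (2 * (dv3 d.tail).1))), ([], 0))
    else cFin []
  else cLoad (Sum.inl B, d.tail.reverse)

section

variable (V : Tbl) (r : ℕ)

theorem G_load (z : X × List Bool) : G V (r, cLoad z) = gLoad z := rfl
theorem G_run (z : Bool × (X × Q)) : G V (r, cRun z) = gRun V r z := rfl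
theorem G_read (z : Bool × (X × (Q × List Bool))) : G V (r, cRead z) = gRead V r z := rfl
theorem G_clean (z : Bool × (X × ((List Bool × List Bool) × ℕ))) :
    G V (r, cClean z) = gClean V r z := rfl
theorem G_pow (z : ℕ × ((List Bool × List Bool) × ℕ)) : G V (r, cPow z) = gPow z := rfl
theorem G_wait (z : ((List Bool × List Bool) × List Bool) × (ℕ × ℕ)) :
    G V (r, cWait z) = gWait z := rfl
theorem G_dbl (z : (ℕ × (List Bool × List Bool)) × (List Bool × ℕ)) :
    G V (r, cDbl z) = gDbl z := rfl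
theorem G_scan (z : Env × Cnt) : G V (r, cScan z) = gScan z := rfl
theorem G_dec (z : List Bool × Cfg) : G V (r, cDec z) = gDec z := rfl
theorem G_fin (z : List Bool) : G V (r, cFin z) = ((1, 0), cFin z) := rfl
theorem out_fin (z : List Bool) : out (cFin z) = z := rfl

end

end Pool.Agent.Lib.MP_33f9c4_lc.Ef
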