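import Pool.Agent.Lib.MP_33f9c4_lc.Round
import Pool.Agent.Lib.MP_33f9c4_lc.Asym

/-!
# The cost of the search
-/

namespace Pool.Agent.Lib.MP_33f9c4_lc

open Pool.Agent.Lib.PolyTime Function Finset

theorem test_pow {B n l x : ℕ} (h : test B n l x = true) :
    (x + 1) ^ B ≤ 2 ^ B * 2 ^ (n - l) := by
  have h1 : B * lg x + l < n := by simpa [test] using h
  have h2 : x + 1 ≤ 2 ^ (lg x + 1) := (lt_lg x).le
  calc (x + 1) ^ B ≤ (2 ^ (lg x + 1)) ^ B := Nat.pow_le_pow_left h2 B
    _ = 2 ^ B * 2 ^ (B * lg x) := by rw [← pow_mul, ← pow_add]; congr 1; ring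
    _ ≤ 2 ^ B * 2 ^ (n - l) :=
        Nat.mul_le_mul_left _ (Nat.pow_le_pow_right (by norm_num) (by omega))

/-- The cost bound for a description. -/
theorem cost_one {A κ n l x : ℕ} (hx : n ≤ x) (h : test (κ + 4) n l x = true) :
    A * (x + 1) ^ κ * n ^ 4 ≤ A * 2 ^ (κ + 4) * 2 ^ (n - l) := by
  have h1 := test_pow h
  have h2 : (x + 1) ^ κ * n ^ 4 ≤ (x + 1) ^ (κ + 4) := by
    rw [pow_add]
    exact Nat.mul_le_mul_left _ (Nat.pow_le_pow_left (by omega) 4)
  calc A * (x + 1) ^ κ * n ^ 4 = A * ((x + 1) ^ κ * n ^ 4) := by ring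
    _ ≤ A * (2 ^ (κ + 4) * 2 ^ (n - l)) := Nat.mul_le_mul_left _ (h2.trans h1)
    _ = A * 2 ^ (κ + 4) * 2 ^ (n - l) := by ring

/-- The computation of the length. -/
theorem dbl (T : Polynomial ℕ) (B : ℕ) (w : List Bool) (C : ℕ)
    (hC : ∀ i ≤ tlen w, T.eval (size (sDbl ((B, w), (nxt^[i] [], i)))) ≤ C) :
    ∃ N, Reach T (init B (true :: w))
      (sScan ((B, (tlen w, ((parse w).1, w))), ([], ([], [])))) N ((tlen w + 1) * C) := by
  have h0 : init B (true :: w) = sDbl ((B, w), (nxt^[0] [], 0)) := by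
    simp [init]
  rw [h0]
  have h1 := Reach.chain (T := T) (fun i => sDbl ((B, w), (nxt^[i] [], i))) C (tlen w)
    (fun i hi => by
      refine ⟨rfl, ?_, hC i hi.le⟩
      have hne : nxt^[i] [] ≠ (parse w).2 := by
        intro h
        have h1 := congrArg nval h
        rw [nval_iter] at h1
        unfold tlen at hi
        omega
      show gDbl _ = _
      rw [gDbl, if_neg hne, iterate_succ_apply' nxt])
  have h2 : Reach T (sDbl ((B, w), (nxt^[tlen w] [], tlen w)))
      (sScan ((B, (tlen w, ((parse w).1, w))), ([], ([], [])))) 1 C := by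
    refine Reach.step rfl ?_ (hC _ le_rfl)
    show gDbl _ = _
    rw [gDbl, if_pos (by simp only [tlen, nxt_iter_nval])]
  exact ⟨_, (h1.trans h2).mono (by rw [Nat.add_mul, one_mul])⟩

/-- The search phase without cost. -/
theorem search_any (T : Polynomial ℕ) {B : ℕ} (hB : 0 < B) (w : List Bool) :
    ∃ N c, Reach T (init B (true :: w)) (sDec (ufin B w, minit (parse w).1 (ufin B w))) N c := by
  obtain ⟨P, hP⟩ := round T
  obtain ⟨N1, h1⟩ := dbl T B w (∑ i ∈ range (tlen w + 1),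
    T.eval (size (sDbl ((B, w), (nxt^[i] [], i))))) (fun i hi =>
      Finset.single_le_sum (f := fun i => T.eval (size (sDbl ((B, w), (nxt^[i] [], i)))))
        (fun _ _ => Nat.zero_le _) (Finset.mem_range.mpr (by omega)))
  have hlen := length_ext_iter B (tlen w) w
  have h2 : ∀ j, j ≤ tlen w - w.length → ∃ N c, Reach T
      (sScan ((B, (tlen w, ((parse w).1, w))), ([], ([], []))))
      (sScan ((B, (tlen w, ((parse w).1, (ext B (tlen w))^[j] w))), ([], ([], []))))
      N c := by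
    intro j
    induction j with
    | zero => intro _; exact ⟨0, 0, Reach.refl _ _⟩
    | succ j ih =>
      intro hj
      obtain ⟨N, c, h⟩ := ih (by omega)
      obtain ⟨M, c', x, h', _, _⟩ := hP B (tlen w) (parse w).1
        ((ext B (tlen w))^[j] w) hB (by rw [hlen]; omega)
      rw [← iterate_succ_apply' (ext B (tlen w))] at h'
      exact ⟨_, _, h.trans h'⟩
  obtain ⟨N2, c2, h3⟩ := h2 _ le_rfl
  have h4 : g (sScan ((B, (tlen w, ((parse w).1, ufin B w))), ([], ([], [])))) =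
      sDec (ufin B w, minit (parse w).1 (ufin B w)) := by
    show gScan _ = _
    rw [gScan, if_pos (by simp only [ufin]; rw [hlen]; omega)]
  exact ⟨_, _, (h1.trans h3).trans (Reach.step rfl h4 le_rfl)⟩

/-- The search phase with its cost. -/
theorem search_cost (T : Polynomial ℕ) : ∃ A κ n0 : ℕ, ∀ w : List Bool, n0 ≤ tlen w →
    w.length ≤ tlen w → ∃ N c, Reach T (init (κ + 4) (true :: w))
      (sDec (ufin (κ + 4) w, minit (parse w).1 (ufin (κ + 4) w))) N c ∧
      c * tlen w ^ 4 ≤ A * 2 ^ tlen w * (tlen w + 2) ^ 2 := by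
  obtain ⟨P, hP⟩ := round T
  obtain ⟨q, hq⟩ := pt_parse.size_le
  -- a common polynomial
  obtain ⟨A, κ, hA⟩ := eval_le_pow (P.comp (2 * Polynomial.X + q.comp (4 * Polynomial.X + 1)) +
    T.comp (40 * Polynomial.X + 60 + q.comp (4 * Polynomial.X + 1)))
  have hA' : ∀ x, P.eval (2 * x + q.eval (4 * x + 1)) + T.eval (40 * x + 60 +
      q.eval (4 * x + 1)) ≤ A * (x + 1) ^ κ := by
    intro x
    have := hA x
    simpa using this
  obtain ⟨n1, hn1⟩ := asym_poly ((Polynomial.X + 1) ^ (κ + 4)) 1 one_pos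
  refine ⟨A * 2 ^ (κ + 4), κ, max n1 (κ + 4), fun w hw hwn => ?_⟩
  have hlu := length_ufin (κ + 4) hwn
  set n := tlen w with hn
  set B := κ + 4 with hB
  have hBn : B ≤ n := le_trans (le_max_right _ _) hw
  have hpow : (n + 1) ^ B ≤ 2 ^ n := by
    have := hn1 n (le_trans (le_max_left _ _) hw)
    simp only [Polynomial.eval_pow, Polynomial.eval_add, Polynomial.eval_X,
      Polynomial.eval_one, Nat.div_one] at this
    exact this.le
  have hsT : size (parse w).1 ≤ q.eval (4 * n + 1) := by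
    have h1 := hq w
    have h2 : size (parse w) = size (parse w).1 + size (parse w).2 + 1 := size_prod _
    have h3 := eval_mono q ((size_bools w).trans (by omega : 4 * w.length + 1 ≤ 4 * n + 1))
    omega
  -- bound for single steps
  have hAn : A * (n + 1) ^ κ * n ^ 4 ≤ A * 2 ^ n := by
    calc A * (n + 1) ^ κ * n ^ 4 = A * ((n + 1) ^ κ * n ^ 4) := by ring
      _ ≤ A * ((n + 1) ^ κ * (n + 1) ^ 4) := Nat.mul_le_mul_left _
          (Nat.mul_le_mul_left _ (Nat.pow_le_pow_left (by omega) 4))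
      _ = A * (n + 1) ^ B := by rw [hB, pow_add]
      _ ≤ A * 2 ^ n := Nat.mul_le_mul_left _ hpow
  obtain ⟨N1, h1⟩ := dbl T B w (A * (n + 1) ^ κ) (fun i hi => by
    refine le_trans (eval_mono T ?_) ((Nat.le_add_left _ _).trans (hA' n))
    have e2 := size_bools w
    have e3 := size_bools (nxt^[i] [])
    have e4 : (nxt^[i] []).length ≤ n :=
      lg_le_of_lt (lt_of_le_of_lt hi Nat.lt_two_pow_self)
    rw [size_sDbl]
    simp only [size_prod, size_nat]
    omega)
  have hlen := length_ext_iter B n w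
  have h2 : ∀ j, j ≤ n - w.length → ∃ N c, Reach T
      (sScan ((B, (n, ((parse w).1, w))), ([], ([], []))))
      (sScan ((B, (n, ((parse w).1, (ext B n)^[j] w))), ([], ([], [])))) N c ∧
      c * n ^ 4 ≤ j * (A * 2 ^ B * (n * 2 ^ n) + A * 2 ^ n) := by
    intro j
    induction j with
    | zero => intro _; exact ⟨0, 0, Reach.refl _ _, by simp⟩
    | succ j ih =>
      intro hj
      obtain ⟨N, c, h, hc⟩ := ih (by omega)
      obtain ⟨M, c', x, h', hx, hc'⟩ := hP B n (parse w).1 ((ext B n)^[j] w)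
        (by omega) (by rw [hlen]; omega)
      rw [← iterate_succ_apply' (ext B n)] at h'
      refine ⟨_, _, h.trans h', ?_⟩
      have hc1 : ∑ k ∈ range (scn B n), P.eval (B + size (parse w).1 + x k) * n ^ 4 ≤
          ∑ k ∈ range (scn B n), A * 2 ^ B * 2 ^ (n - lg k) := by
        refine Finset.sum_le_sum fun k hk => ?_
        obtain ⟨hx1, hx2⟩ := hx k (Finset.mem_range.mp hk)
        refine le_trans (Nat.mul_le_mul_right _ ?_) (cost_one hx1 hx2)
        refine le_trans (eval_mono P ?_) ((Nat.le_add_right _ _).trans (hA' (x k)))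
        have := eval_mono q (by omega : 4 * n + 1 ≤ 4 * x k + 1)
        omega
      have hc2 := sum_lg_le n (scn B n) (scn_lt B n)
      have hc3 : P.eval (B + size (parse w).1 + n) ≤ A * (n + 1) ^ κ := by
        refine le_trans (eval_mono P ?_) ((Nat.le_add_right _ _).trans (hA' n))
        omega
      rw [← Finset.mul_sum] at hc1
      have hc4 := hc1.trans (Nat.mul_le_mul_left _ hc2)
      rw [← Finset.sum_mul] at hc4
      have hc5 := Nat.mul_le_mul_right (n ^ 4) hc'
      rw [Nat.add_mul] at hc5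
      have hc6 := (Nat.mul_le_mul_right (n ^ 4) hc3).trans hAn
      rw [Nat.add_mul, Nat.add_mul j]
      omega
  obtain ⟨N2, c2, h3, hc2⟩ := h2 _ le_rfl
  have h4 : g (sScan ((B, (n, ((parse w).1, ufin B w))), ([], ([], [])))) =
      sDec (ufin B w, minit (parse w).1 (ufin B w)) := by
    show gScan _ = _
    rw [gScan, if_pos (by simp only; omega)]
  have h5 : T.eval (size (sScan ((B, (n, ((parse w).1, ufin B w))), ([], ([], []))))) ≤
      A * (n + 1) ^ κ := by
    refine le_trans (eval_mono T ?_) ((Nat.le_add_left _ _).trans (hA' n))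
    have e2 := size_bools (ufin B w)
    rw [hlu] at e2
    rw [size_sScan]
    simp only [size_prod, size_nat, size_nil]
    omega
  refine ⟨_, _, (h1.trans h3).trans (Reach.step rfl h4 h5), ?_⟩
  have hf1 : (n + 1) * (A * (n + 1) ^ κ) * n ^ 4 ≤ (n + 1) * (A * 2 ^ n) := by
    calc (n + 1) * (A * (n + 1) ^ κ) * n ^ 4
        = (n + 1) * (A * (n + 1) ^ κ * n ^ 4) := by ring
      _ ≤ (n + 1) * (A * 2 ^ n) := Nat.mul_le_mul_left _ hAn
  have hf2 : c2 * n ^ 4 ≤ n * (A * 2 ^ B * (n * 2 ^ n) + A * 2 ^ n) :=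
    hc2.trans (Nat.mul_le_mul_right _ (Nat.sub_le _ _))
  have hf3 : A * 2 ^ n ≤ A * 2 ^ B * 2 ^ n := by
    have : 1 ≤ 2 ^ B := Nat.one_le_two_pow
    calc A * 2 ^ n = A * 1 * 2 ^ n := by ring
      _ ≤ A * 2 ^ B * 2 ^ n := Nat.mul_le_mul_right _ (Nat.mul_le_mul_left _ this)
  calc ((n + 1) * (A * (n + 1) ^ κ) + c2 + A * (n + 1) ^ κ) * n ^ 4
      = (n + 1) * (A * (n + 1) ^ κ) * n ^ 4 + c2 * n ^ 4 +
        A * (n + 1) ^ κ * n ^ 4 := by ring
    _ ≤ (n + 1) * (A * 2 ^ n) + n * (A * 2 ^ B * (n * 2 ^ n) + A * 2 ^ n) + A * 2 ^ n :=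
        Nat.add_le_add (Nat.add_le_add hf1 hf2) hAn
    _ = (2 * n + 2) * (A * 2 ^ n) + n * n * (A * 2 ^ B * 2 ^ n) := by ring
    _ ≤ (2 * n + 2) * (A * 2 ^ B * 2 ^ n) + n * n * (A * 2 ^ B * 2 ^ n) :=
        Nat.add_le_add_right (Nat.mul_le_mul_left _ hf3) _
    _ ≤ A * 2 ^ B * 2 ^ n * (n + 2) ^ 2 := by nlinarith [Nat.zero_le (A * 2 ^ B * 2 ^ n)]

end Pool.Agent.Lib.MP_33f9c4_lc
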